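import Mathlib

-- merged part: Pool.Agent.Work.MP_4523ee_co.Fp.Defs
section
/-!
Finite field model of the density polynomial Hales-Jewett problem (odd p): definitions.
Paper: /team-store/h84_4523ee_Fp.md
-/

set_option autoImplicit false
set_option linter.unusedSectionVars false

namespace Pool.Agent.Work.MP_4523ee_co.Fp

open Finset Matrix
open scoped BigOperators ComplexConjugate

noncomputable instance subFintype {R X : Type} [Semiring R] [AddCommMonoid X] [Module R X]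
    [Finite X] (L : Submodule R X) : Fintype L := Fintype.ofFinite L

noncomputable instance dualFintype {p : ℕ} [Fact p.Prime] {L : Type} [AddCommGroup L]
    [Module (ZMod p) L] [Finite L] : Fintype (Module.Dual (ZMod p) L) :=
  @Fintype.ofFinite _ (DFunLike.finite _)

variable {p : ℕ} [Fact p.Prime]

/-- the standard additive character -/
noncomputable def ee (t : ZMod p) : ℂ := ZMod.stdAddChar t

open Classical in
/-- real indicator -/
noncomputable def ind {α : Type} (A : Set α) (x : α) : ℝ := if x ∈ A then 1 else 0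

/-- density of a set in a finite type -/
noncomputable def dens {α : Type} [Fintype α] (A : Set α) : ℝ := 𝔼 x, ind A x

/-- inner product, conjugate linear in the first slot -/
noncomputable def ip {α : Type} [Fintype α] (a b : α → ℂ) : ℂ := ∑ l, conj (a l) * b l

/-- squared norm (sum) -/
noncomputable def nsq {α : Type} [Fintype α] (a : α → ℂ) : ℝ := ∑ l, ‖a l‖ ^ 2

/-- squared norm (mean) -/
noncomputable def en {α : Type} [Fintype α] (G : α → ℂ) : ℝ := 𝔼 x, ‖G x‖ ^ 2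

/-- symmetric matrices -/
def SymM (p : ℕ) [Fact p.Prime] (ν : Type) : Submodule (ZMod p) (Matrix ν ν (ZMod p)) where
  carrier := {M | Mᵀ = M}
  add_mem' := fun {a b} ha hb => by
    simp only [Set.mem_ofPred_eq] at *
    rw [transpose_add, ha, hb]
  zero_mem' := transpose_zero
  smul_mem' := fun c M h => by
    simp only [Set.mem_ofPred_eq] at *
    rw [transpose_smul, h]

section sym
variable {ν ν' : Type} [Fintype ν] [DecidableEq ν] [Fintype ν'] [DecidableEq ν']

lemma SymM_T (M : SymM p ν) : M.1ᵀ = M.1 := M.2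

/-- `U N Uᵀ` -/
def cj (U : Matrix ν ν' (ZMod p)) (N : SymM p ν') : SymM p ν :=
  ⟨U * N.1 * Uᵀ, by
    show (U * N.1 * Uᵀ)ᵀ = U * N.1 * Uᵀ
    rw [transpose_mul, transpose_mul, transpose_transpose, SymM_T, Matrix.mul_assoc]⟩

/-- `x xᵀ` -/
def sqv (x : ν → ZMod p) : SymM p ν :=
  ⟨vecMulVec x x, by
    show (vecMulVec x x)ᵀ = vecMulVec x x
    rw [transpose_vecMulVec]⟩

/-- no two points differ by `x xᵀ` -/
def Ind (A : Set (SymM p ν)) : Prop := ∀ M x, x ≠ 0 → M ∈ A → M + sqv x ∉ A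

def Inj (U : Matrix ν ν' (ZMod p)) : Prop := Function.Injective U.mulVec

/-- pull back of `A` to the tile `(M, U)` -/
def res (A : Set (SymM p ν)) (M : SymM p ν) (U : Matrix ν ν' (ZMod p)) : Set (SymM p ν') :=
  {N | M + cj U N ∈ A}

/-- marginal density of a weight on tiles -/
noncomputable def marg {I : Type} [Fintype I] (U : I → Matrix ν ν' (ZMod p))
    (w : SymM p ν → I → ℝ) (M : SymM p ν) : ℝ :=
  𝔼 i, 𝔼 N : SymM p ν', w (M - cj (U i) N) i

/-- character of `SymM` given by a matrix -/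
noncomputable def chQ (Q : Matrix ν ν (ZMod p)) (M : SymM p ν) : ℂ :=
  ee (∑ i, ∑ j, M.1 i j * Q i j)

/-- Fourier support on rank at most `s` -/
def Lev (s : ℕ) (G : SymM p ν → ℂ) : Prop :=
  ∀ Q : SymM p ν, s < Q.1.rank → 𝔼 M, G M * conj (chQ Q.1 M) = 0

/-- the matrices with `M y = z` for all `(y, z)` in `Y` -/
def CY (Y : Submodule (ZMod p) ((ν → ZMod p) × (ν → ZMod p))) : Set (SymM p ν) :=
  {M | ∀ q ∈ Y, M.1 *ᵥ q.1 = q.2}

end sym

/-- largest density of an independent set in dimension `n` -/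
noncomputable def aN (p : ℕ) [Fact p.Prime] (n : ℕ) : ℝ :=
  sSup {t | ∃ A : Set (SymM p (Fin n)), Ind A ∧ dens A = t}

/-- the limit density -/
noncomputable def aS (p : ℕ) [Fact p.Prime] : ℝ := ⨅ n, aN p n

section ext
variable {ν ν' : Type} [Fintype ν] [DecidableEq ν] [Fintype ν'] [DecidableEq ν']

/-- near extremal -/
def NE (η : ℝ) (A : Set (SymM p ν)) : Prop := Ind A ∧ aS p - η ≤ dens A

/-- balanced function -/
noncomputable def fA (A : Set (SymM p ν)) (M : SymM p ν) : ℂ := ((ind A M - aS p : ℝ) : ℂ)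

/-- cleaned balanced function -/
noncomputable def fB (A B : Set (SymM p ν)) (M : SymM p ν) : ℂ :=
  fA A M * ((1 - ind B M : ℝ) : ℂ)

/-- deficient tile -/
def Dfc (η : ℝ) (A : Set (SymM p ν))
    (Y : Submodule (ZMod p) ((ν → ZMod p) × (ν → ZMod p))) : Prop :=
  dens (A ∩ CY Y) < (aS p - η) * dens (CY Y)

end ext

/-- holds for all sufficiently near extremal sets in large dimension -/
def Ev (p : ℕ) [Fact p.Prime]
    (P : ∀ (ν : Type) [Fintype ν] [DecidableEq ν], Set (SymM p ν) → Prop) : Prop :=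
  ∃ η : ℝ, 0 < η ∧ ∃ n0 : ℕ, ∀ (ν : Type) [Fintype ν] [DecidableEq ν], n0 ≤ Fintype.card ν →
    ∀ A : Set (SymM p ν), NE η A → P ν A

def Claim (p : ℕ) [Fact p.Prime] (s : ℕ) : Prop :=
  ∀ ε : ℝ, 0 < ε → Ev p fun ν _ _ A => ∀ G : SymM p ν → ℂ, Lev s G →
    ‖𝔼 M, fA A M * G M‖ ≤ ε * √(en G)

abbrev Bil (p : ℕ) [Fact p.Prime] (X : Type) [AddCommGroup X] [Module (ZMod p) X] :=
  X →ₗ[ZMod p] X →ₗ[ZMod p] ZMod p

/-- phase space -/
abbrev GX (X ν : Type) := (ν → X) × (ν → X)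

section forms
variable {X : Type} [AddCommGroup X] [Module (ZMod p) X]
variable {ν ν' : Type} [Fintype ν] [DecidableEq ν] [Fintype ν'] [DecidableEq ν']

def SymB (β : Bil p X) : Prop := ∀ x y, β x y = β y x

def NdB (β : Bil p X) : Prop := ∀ x, (∀ y, β x y = 0) → x = 0

def Iso (β : Bil p X) (N : Submodule (ZMod p) X) : Prop := ∀ x ∈ N, ∀ y ∈ N, β x y = 0

def NdOn (β : Bil p X) (D : Submodule (ZMod p) X) : Prop :=
  ∀ x ∈ D, (∀ y ∈ D, β x y = 0) → x = 0

/-- a scalar matrix acting on a family of vectors -/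
def act (U : Matrix ν' ν (ZMod p)) (l : ν → X) : ν' → X := fun i => ∑ j, U i j • l j

def gram (β : Bil p X) (l : ν → X) : Matrix ν ν (ZMod p) := Matrix.of fun i j => β (l i) (l j)

noncomputable def chi (β : Bil p X) (M : SymM p ν) (l : ν → X) : ℂ := chQ (gram β l) M

def OnSl {ι : Type} (κ : Matrix ι ν (ZMod p)) (e : ι → X) (a : (ν → X) → ℂ) : Prop :=
  ∀ l, a l ≠ 0 → act κ l = e

/-- `a` cut to the set `act U l = s` -/
noncomputable def cut (U : Matrix ν' ν (ZMod p)) (s : ν' → X) (a : (ν → X) → ℂ) :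
    (ν → X) → ℂ := fun l => @ite ℂ (act U l = s) (Classical.propDecidable _) (a l) 0

def bt (β : Bil p X) (u v : ν → X) : ZMod p := ∑ i, β (u i) (v i)

def sy (β : Bil p X) (x y : GX X ν) : ZMod p := bt β x.1 y.2 - bt β x.2 y.1

/-- Weyl operator -/
noncomputable def W (β : Bil p X) (x : GX X ν) (a : (ν → X) → ℂ) : (ν → X) → ℂ :=
  fun l => ee (bt β x.2 l + 2⁻¹ * bt β x.2 x.1) * a (l + x.1)

/-- joint eigenprojection -/
noncomputable def Pj (β : Bil p X) {L : Type} [AddCommGroup L] [Module (ZMod p) L] [Fintype L]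
    (j : L →ₗ[ZMod p] GX X ν) (φ : Module.Dual (ZMod p) L) (a : (ν → X) → ℂ) : (ν → X) → ℂ :=
  fun l => 𝔼 x : L, ee (-φ x) * W β (j x) a l

/-- `N^ν × N^ν` -/
def pw (ν : Type) (N : Submodule (ZMod p) X) : Submodule (ZMod p) (GX X ν) :=
  (Submodule.pi Set.univ fun _ : ν => N).prod (Submodule.pi Set.univ fun _ : ν => N)

/-- the tile `(M, U)` is adapted to `Λ` -/
def SG (Λ : Submodule (ZMod p) (GX X ν)) (M : SymM p ν) (U : Matrix ν ν' (ZMod p)) : Prop :=
  (∀ w : ν' → X, ∃ τ ∈ Λ, τ.2 - act M.1 τ.1 = act U w ∧ act Uᵀ τ.1 = 0) ∧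
    ∀ τ ∈ Λ, (∃ w : ν' → X, τ.2 - act M.1 τ.1 = act U w) → act Uᵀ τ.1 = 0

/-- size of `K_M` -/
noncomputable def kM (Λ : Submodule (ZMod p) (GX X ν)) (M : SymM p ν) : ℕ :=
  Nat.card {τ : GX X ν // τ ∈ Λ ∧ τ.2 = act M.1 τ.1}

variable [Fintype X]

noncomputable def FF (β : Bil p X) (a : (ν → X) → ℂ) (M : SymM p ν) : ℂ :=
  ∑ l, a l * chi β M l

/-- coefficients of `FF β a` on the tile `(M, U)` -/
noncomputable def aT (β : Bil p X) (a : (ν → X) → ℂ) (M : SymM p ν)
    (U : Matrix ν ν' (ZMod p)) : (ν' → X) → ℂ := fun s => FF β (cut Uᵀ s a) M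

noncomputable def Xi (β : Bil p X) (a : (ν → X) → ℂ) (x : GX X ν) : ℂ := ip a (W β x a)

def GG (β : Bil p X) (θ : ℝ) (a : (ν → X) → ℂ) : Prop :=
  ∀ N : Submodule (ZMod p) X, N ≠ ⊥ → Iso β N → ∀ φ : Module.Dual (ZMod p) (pw ν N),
    (Fintype.card N : ℝ) ^ Fintype.card ν * nsq (Pj β (pw ν N).subtype φ a) ≤ θ

def SS (β : Bil p X) (θ : ℝ) (a : (ν → X) → ℂ) : Prop :=
  ∀ D : Submodule (ZMod p) X, D ≠ ⊥ → D ≠ ⊤ → NdOn β D →
    ∑ x : pw ν D, ‖Xi β a x.1‖ ^ 2 ≤ θ ^ 2 * (Fintype.card D : ℝ) ^ Fintype.card ν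

def PP (β : Bil p X) (θ : ℝ) (a : (ν → X) → ℂ) : Prop :=
  ∑ x : GX X ν, ‖Xi β a x‖ ^ 4 ≤ θ * (Fintype.card X : ℝ) ^ Fintype.card ν

def Prim (β : Bil p X) (θ : ℝ) (a : (ν → X) → ℂ) : Prop :=
  nsq a ≤ 1 ∧ GG β θ a ∧ SS β θ a ∧ PP β θ a

def Pos (β : Bil p X) (θ : ℝ) (a : (ν → X) → ℂ) : Prop :=
  ∀ c : X, c ≠ 0 → ∀ v : ν → ZMod p,
    ∑ l : ν → X, ind {l : ν → X | ∀ i, β c (l i) = v i} l * ‖a l‖ ^ 2 ≤ θ

end forms

section prod
variable {X₁ X₂ : Type} [AddCommGroup X₁] [Module (ZMod p) X₁] [AddCommGroup X₂]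
  [Module (ZMod p) X₂] {ν : Type}

/-- orthogonal sum of forms -/
def bp (β₁ : Bil p X₁) (β₂ : Bil p X₂) : Bil p (X₁ × X₂) :=
  β₁.compl₁₂ (LinearMap.fst _ _ _) (LinearMap.fst _ _ _) +
    β₂.compl₁₂ (LinearMap.snd _ _ _) (LinearMap.snd _ _ _)

@[simp] lemma bp_apply (β₁ : Bil p X₁) (β₂ : Bil p X₂) (x y : X₁ × X₂) :
    bp β₁ β₂ x y = β₁ x.1 y.1 + β₂ x.2 y.2 := rfl

/-- tensor product of two vectors -/
def tp (a₁ : (ν → X₁) → ℂ) (a₂ : (ν → X₂) → ℂ) : (ν → X₁ × X₂) → ℂ :=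
  fun l => a₁ (fun i => (l i).1) * a₂ (fun i => (l i).2)

end prod

/-- A property of the data of the bilinear bound: two quadratic spaces of total dimension `r`,
the first of dimension `r₁`, a spanning family `e` and a slice matrix `κ`. -/
def Data (p : ℕ) [Fact p.Prime] (r r₁ : ℕ) (ν : Type) [Fintype ν] [DecidableEq ν]
    (P : ∀ (X₁ X₂ : Type) [AddCommGroup X₁] [Module (ZMod p) X₁] [Fintype X₁] [AddCommGroup X₂]
      [Module (ZMod p) X₂] [Fintype X₂], Bil p X₁ → Bil p X₂ → (Fin r → X₁ × X₂) →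
      Matrix (Fin r) ν (ZMod p) → Prop) : Prop :=
  ∀ (X₁ X₂ : Type) [AddCommGroup X₁] [Module (ZMod p) X₁] [Fintype X₁] [AddCommGroup X₂]
    [Module (ZMod p) X₂] [Fintype X₂] (β₁ : Bil p X₁) (β₂ : Bil p X₂) (e : Fin r → X₁ × X₂)
    (κ : Matrix (Fin r) ν (ZMod p)), SymB β₁ → NdB β₁ → SymB β₂ → NdB β₂ →
    Module.finrank (ZMod p) X₁ = r₁ →
    Module.finrank (ZMod p) X₁ + Module.finrank (ZMod p) X₂ = r →
    Submodule.span (ZMod p) (Set.range e) = ⊤ → P X₁ X₂ β₁ β₂ e κ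

/-- the bilinear bound with constant `c` -/
def Bnd (p : ℕ) [Fact p.Prime] (r r₁ : ℕ) (c : ℝ) : Prop :=
  Ev p fun ν _ _ A => Data p r r₁ ν fun X₁ X₂ _ _ _ _ _ _ β₁ β₂ e κ =>
    ∀ (a₁ : (ν → X₁) → ℂ) (a₂ : (ν → X₂) → ℂ), OnSl κ (fun i => (e i).1) a₁ →
      OnSl κ (fun i => (e i).2) a₂ →
      ‖𝔼 M, fA A M * (FF β₁ a₁ M * FF β₂ a₂ M)‖ ≤ c * (√(nsq a₁) * √(nsq a₂))

end Pool.Agent.Work.MP_4523ee_co.Fp
end

-- merged part: Pool.Agent.Work.MP_4523ee_co.Fp.Char
section
/-!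
Characters of finite modules, elementary norm inequalities, the action act.
-/

set_option autoImplicit false
set_option linter.unusedSectionVars false

namespace Pool.Agent.Work.MP_4523ee_co.Fp

open Finset Matrix
open scoped BigOperators ComplexConjugate

variable {p : ℕ} [Fact p.Prime]

lemma ee_add (s t : ZMod p) : ee (s + t) = ee s * ee t := AddChar.map_add_eq_mul _ _ _

@[simp] lemma ee_zero : ee (0 : ZMod p) = 1 := AddChar.map_zero_eq_one _

@[simp] lemma norm_ee (t : ZMod p) : ‖ee t‖ = 1 := AddChar.norm_apply _ _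

lemma conj_ee (t : ZMod p) : conj (ee t) = ee (-t) := (AddChar.map_neg_eq_conj _ _).symm

lemma ee_eq_one {t : ZMod p} : ee t = 1 ↔ t = 0 :=
  ⟨fun h => ZMod.injective_stdAddChar (h.trans ee_zero.symm), fun h => h ▸ ee_zero⟩

lemma ee_sum {ι : Type} (s : Finset ι) (f : ι → ZMod p) :
    ee (∑ i ∈ s, f i) = ∏ i ∈ s, ee (f i) := by
  classical
  induction s using Finset.induction_on with
  | empty => simp
  | insert a s h ih => rw [sum_insert h, prod_insert h, ee_add, ih]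

lemma two_ne (hp : p ≠ 2) : (2 : ZMod p) ≠ 0 := fun h =>
  hp ((Nat.prime_dvd_prime_iff_eq Fact.out Nat.prime_two).1
    ((ZMod.natCast_eq_zero_iff 2 p).1 (by exact_mod_cast h)))

section orth
variable {L : Type} [AddCommGroup L] [Module (ZMod p) L] [Fintype L]

/-- a nonzero additive map has mean zero character -/
lemma expect_ee_hom {H : Type} [AddCommGroup H] [Fintype H] (φ : H →+ ZMod p) (h : φ ≠ 0) :
    𝔼 x : H, ee (φ x) = 0 := by
  obtain ⟨y, hy⟩ : ∃ y, φ y ≠ 0 := by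
    by_contra k
    exact h (AddMonoidHom.ext fun y => not_not.1 fun q => k ⟨y, q⟩)
  have e : 𝔼 x : H, ee (φ x) = ee (φ y) * 𝔼 x : H, ee (φ x) := by
    rw [Finset.mul_expect]
    refine (Fintype.expect_equiv (Equiv.addLeft y) _ _ fun x => ?_).symm
    rw [Equiv.coe_addLeft, map_add, ee_add]
  by_contra k
  exact hy (ee_eq_one.1 (mul_right_cancel₀ k (e.symm.trans (one_mul _).symm)))

lemma expect_ee_lin (φ : Module.Dual (ZMod p) L) (h : φ ≠ 0) : 𝔼 x : L, ee (φ x) = 0 :=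
  expect_ee_hom φ.toAddMonoidHom fun k => h (LinearMap.ext fun x => DFunLike.congr_fun k x)

lemma sum_ee_dual (x : L) (h : x ≠ 0) : ∑ φ : Module.Dual (ZMod p) L, ee (φ x) = 0 := by
  have k := expect_ee_lin (p := p) (Module.Dual.eval (ZMod p) L x) fun k =>
    h ((Module.forall_dual_apply_eq_zero_iff (ZMod p) x).1 fun φ => DFunLike.congr_fun k φ)
  rw [Fintype.expect_eq_sum_div_card, div_eq_zero_iff] at k
  exact k.resolve_right (Nat.cast_ne_zero.2 Fintype.card_ne_zero)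

lemma card_dual : Fintype.card (Module.Dual (ZMod p) L) = Fintype.card L := by
  rw [Module.card_eq_pow_finrank (K := ZMod p), Module.card_eq_pow_finrank (K := ZMod p) (V := L),
    Subspace.dual_finrank_eq]

lemma card_eq_pow : Fintype.card L = p ^ Module.finrank (ZMod p) L := by
  rw [Module.card_eq_pow_finrank (K := ZMod p), ZMod.card]

/-- bilinear Parseval identity on `L` -/
lemma parseval_dual (f g : L → ℂ) :
    𝔼 x, f x * g x = ∑ φ : Module.Dual (ZMod p) L,
      (𝔼 x, ee (φ x) * f x) * 𝔼 x, ee (-φ x) * g x := by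
  classical
  have c : (Fintype.card L : ℂ) ≠ 0 := Nat.cast_ne_zero.2 Fintype.card_ne_zero
  have k : ∀ x y : L, ∑ φ : Module.Dual (ZMod p) L, ee (φ x) * f x * (ee (-φ y) * g y) =
      if x = y then (Fintype.card L : ℂ) * (f x * g x) else 0 := fun x y => by
    have e : ∀ φ : Module.Dual (ZMod p) L, ee (φ x) * f x * (ee (-φ y) * g y) =
        ee (φ (x - y)) * (f x * g y) := fun φ => by
      rw [map_sub, sub_eq_add_neg, ee_add]
      ring
    rw [Finset.sum_congr rfl fun φ _ => e φ, ← Finset.sum_mul]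
    split_ifs with q
    · subst q
      simp [card_dual]
    · rw [sum_ee_dual _ (sub_ne_zero.2 q), zero_mul]
  simp only [Fintype.expect_eq_sum_div_card, div_mul_div_comm, Finset.sum_mul_sum]
  rw [← Finset.sum_div, Finset.sum_comm,
    Finset.sum_congr rfl fun x _ => Finset.sum_comm.trans (Finset.sum_congr rfl fun y _ => k x y)]
  simp only [Finset.sum_ite_eq, Finset.mem_univ, if_true]
  rw [← Finset.mul_sum]
  field_simp

lemma parseval_dual_sq (f : L → ℂ) :
    𝔼 x, ‖f x‖ ^ 2 = ∑ φ : Module.Dual (ZMod p) L, ‖𝔼 x, ee (-φ x) * f x‖ ^ 2 := by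
  have k := parseval_dual (p := p) (fun x => conj (f x)) f
  have e : ∀ φ : Module.Dual (ZMod p) L,
      𝔼 x, ee (φ x) * conj (f x) = conj (𝔼 x, ee (-φ x) * f x) := fun φ => by
    simp only [Fintype.expect_eq_sum_div_card, map_div₀, map_sum, map_mul, conj_ee, neg_neg,
      map_natCast]
  simp only [e, Complex.conj_mul'] at k
  rw [Fintype.expect_eq_sum_div_card] at k ⊢
  exact_mod_cast k

lemma ch_fibre {L' : Type} [AddCommGroup L'] [Module (ZMod p) L'] (f : L →ₗ[ZMod p] L') (x : L) :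
    dens {z | f z = f x} = dens {z | f z = 0} := by
  refine Fintype.expect_equiv (Equiv.subRight x) _ _ fun z => ?_
  have e : z ∈ {z | f z = f x} ↔ Equiv.subRight x z ∈ {z | f z = 0} := by
    show f z = f x ↔ f (z - x) = 0
    rw [map_sub, sub_eq_zero]
  by_cases k : z ∈ {z | f z = f x}
  · exact (if_pos k).trans (if_pos (e.1 k)).symm
  · exact (if_neg k).trans (if_neg fun q => k (e.2 q)).symm

/-- a fibre of a linear map is empty or a coset of the kernel -/
lemma dens_fibre_le {L' : Type} [AddCommGroup L'] [Module (ZMod p) L'] (f : L →ₗ[ZMod p] L')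
    (y : L') : dens {x | f x = y} ≤ dens {x | f x = 0} := by
  by_cases h : ∃ x, f x = y
  · obtain ⟨x, rfl⟩ := h
    exact (ch_fibre f x).le
  · have e : {x | f x = y} = ∅ := Set.eq_empty_of_forall_notMem fun x q => h ⟨x, q⟩
    rw [e]
    refine Finset.expect_le_expect fun x _ => ?_
    unfold ind
    simp only [Set.mem_empty_iff_false, if_false]
    split_ifs <;> norm_num

lemma dens_fibre_surj {L' : Type} [AddCommGroup L'] [Module (ZMod p) L'] [Fintype L']
    (f : L →ₗ[ZMod p] L') (hf : Function.Surjective f) (y : L') :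
    dens {x | f x = y} = (Fintype.card L' : ℝ)⁻¹ := by
  classical
  have c : (Fintype.card L' : ℝ) ≠ 0 := Nat.cast_ne_zero.2 Fintype.card_ne_zero
  have e : ∀ y, dens {x | f x = y} = dens {x | f x = 0} := fun y => by
    obtain ⟨x, rfl⟩ := hf y
    exact ch_fibre f x
  have k : ∑ y, dens {x | f x = y} = 1 := by
    unfold dens
    rw [← Finset.expect_sum_comm]
    refine (Finset.expect_congr rfl fun x _ => ?_).trans (Finset.expect_const univ_nonempty 1)
    unfold ind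
    simp
  rw [Finset.sum_congr rfl fun y _ => e y, Finset.sum_const, nsmul_eq_mul, card_univ] at k
  rw [e]
  exact eq_inv_of_mul_eq_one_right k

end orth

section ind
variable {α : Type}

lemma ind_nonneg (A : Set α) (x : α) : 0 ≤ ind A x := by
  unfold ind
  split_ifs <;> norm_num

lemma ind_le_one (A : Set α) (x : α) : ind A x ≤ 1 := by
  unfold ind
  split_ifs <;> norm_num

lemma ind_of_mem {A : Set α} {x : α} (h : x ∈ A) : ind A x = 1 := if_pos h

lemma ind_of_not {A : Set α} {x : α} (h : x ∉ A) : ind A x = 0 := if_neg h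

lemma ind_inter (A B : Set α) (x : α) : ind (A ∩ B) x = ind A x * ind B x := by
  by_cases h : x ∈ A <;> by_cases k : x ∈ B <;> simp [ind, h, k]

lemma ind_mono {A B : Set α} (h : A ⊆ B) (x : α) : ind A x ≤ ind B x := by
  by_cases k : x ∈ A
  · rw [ind_of_mem k, ind_of_mem (h k)]
  · rw [ind_of_not k]
    exact ind_nonneg _ _

variable [Fintype α]

lemma dens_nonneg (A : Set α) : 0 ≤ dens A := Finset.expect_nonneg fun x _ => ind_nonneg A x

lemma dens_le_one (A : Set α) : dens A ≤ 1 := by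
  cases isEmpty_or_nonempty α
  · simp [dens]
  · exact Finset.expect_le univ_nonempty fun x _ => ind_le_one A x

lemma dens_mono {A B : Set α} (h : A ⊆ B) : dens A ≤ dens B :=
  Finset.expect_le_expect fun x _ => ind_mono h x

lemma dens_eq_card (A : Set α) : dens A = (Nat.card A : ℝ) / Fintype.card α := by
  classical
  unfold dens ind
  rw [Fintype.expect_eq_sum_div_card, Finset.sum_boole, Nat.card_eq_fintype_card,
    Fintype.card_subtype]

lemma dens_compl [Nonempty α] (A : Set α) : dens Aᶜ = 1 - dens A := by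
  have e : ∀ x, ind Aᶜ x = 1 - ind A x := fun x => by
    by_cases k : x ∈ A <;> simp [ind, k]
  unfold dens
  rw [Finset.expect_congr rfl fun x _ => e x, Finset.expect_sub_distrib,
    Finset.expect_const univ_nonempty]

/-- union bound -/
lemma dens_le_sum {ι : Type} (s : Finset ι) (A : Set α) (B : ι → Set α)
    (h : ∀ x ∈ A, ∃ i ∈ s, x ∈ B i) : dens A ≤ ∑ i ∈ s, dens (B i) := by
  unfold dens
  rw [← Finset.expect_sum_comm]
  refine Finset.expect_le_expect fun x _ => ?_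
  by_cases k : x ∈ A
  · obtain ⟨i, a, b⟩ := h x k
    rw [ind_of_mem k, ← ind_of_mem b]
    exact Finset.single_le_sum (f := fun i => ind (B i) x) (fun i _ => ind_nonneg _ _) a
  · rw [ind_of_not k]
    exact Finset.sum_nonneg fun i _ => ind_nonneg _ _

/-- Markov inequality -/
lemma dens_markov (f : α → ℝ) (hf : ∀ x, 0 ≤ f x) {t : ℝ} (ht : 0 < t) :
    dens {x | t ≤ f x} ≤ (𝔼 x, f x) / t := by
  rw [le_div_iff₀ ht, dens, Finset.expect_mul]
  refine Finset.expect_le_expect fun x _ => ?_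
  by_cases k : x ∈ {x | t ≤ f x}
  · rw [ind_of_mem k, one_mul]
    exact k
  · rw [ind_of_not k, zero_mul]
    exact hf x

lemma nsq_nonneg (a : α → ℂ) : 0 ≤ nsq a := Finset.sum_nonneg fun _ _ => sq_nonneg _

lemma en_nonneg (a : α → ℂ) : 0 ≤ en a := Finset.expect_nonneg fun _ _ => sq_nonneg _

lemma ip_self (a : α → ℂ) : ip a a = (nsq a : ℂ) := by
  simp only [ip, nsq, Complex.conj_mul']
  push_cast
  rfl

lemma ip_conj (a b : α → ℂ) : conj (ip a b) = ip b a := by
  simp only [ip, map_sum, map_mul, Complex.conj_conj, mul_comm]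

lemma norm_ip_le (a b : α → ℂ) : ‖ip a b‖ ≤ √(nsq a) * √(nsq b) := by
  refine (norm_sum_le _ _).trans ?_
  simp only [norm_mul, Complex.norm_conj]
  exact Real.sum_mul_le_sqrt_mul_sqrt _ _ _

lemma norm_ip_sq_le (a b : α → ℂ) : ‖ip a b‖ ^ 2 ≤ nsq a * nsq b := by
  refine (pow_le_pow_left₀ (norm_nonneg _) (norm_ip_le a b) 2).trans_eq ?_
  rw [mul_pow, Real.sq_sqrt (nsq_nonneg a), Real.sq_sqrt (nsq_nonneg b)]

lemma nsq_smul (c : ℂ) (a : α → ℂ) : nsq (fun l => c * a l) = ‖c‖ ^ 2 * nsq a := by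
  simp only [nsq, norm_mul, mul_pow, Finset.mul_sum]

lemma ch_norm_expect (f : α → ℂ) : ‖𝔼 x, f x‖ ≤ 𝔼 x, ‖f x‖ := by
  rw [Fintype.expect_eq_sum_div_card, Fintype.expect_eq_sum_div_card, norm_div,
    Complex.norm_natCast]
  exact div_le_div_of_nonneg_right (norm_sum_le _ _) (Nat.cast_nonneg _)

lemma ch_cs (f g : α → ℝ) : 𝔼 x, f x * g x ≤ √(𝔼 x, f x ^ 2) * √(𝔼 x, g x ^ 2) := by
  rw [← Real.sqrt_mul (Finset.expect_nonneg fun _ _ => sq_nonneg _)]
  exact Real.le_sqrt_of_sq_le (Finset.expect_mul_sq_le_sq_mul_sq _ _ _)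

/-- Jensen -/
lemma nsq_expect_le {I : Type} [Fintype I] (c : I → ℂ) (hc : ∀ i, ‖c i‖ ≤ 1) (a : I → α → ℂ) :
    nsq (fun l => 𝔼 i, c i * a i l) ≤ 𝔼 i, nsq (a i) := by
  unfold nsq
  rw [Finset.expect_sum_comm]
  refine Finset.sum_le_sum fun l _ => ?_
  have k : ‖𝔼 i, c i * a i l‖ ≤ 𝔼 i, 1 * ‖a i l‖ :=
    (ch_norm_expect _).trans (Finset.expect_le_expect fun i _ => by
      rw [norm_mul]
      exact mul_le_mul_of_nonneg_right (hc i) (norm_nonneg _))
  refine (pow_le_pow_left₀ (norm_nonneg _) k 2).trans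
    ((Finset.expect_mul_sq_le_sq_mul_sq _ _ _).trans ?_)
  refine mul_le_of_le_one_left (Finset.expect_nonneg fun _ _ => sq_nonneg _) ?_
  cases isEmpty_or_nonempty I
  · simp
  · exact Finset.expect_le univ_nonempty fun _ _ => (one_pow 2).le

lemma norm_expect_mul_le (f g : α → ℂ) : ‖𝔼 x, f x * g x‖ ≤ √(en f) * √(en g) := by
  refine (ch_norm_expect _).trans ?_
  simp only [norm_mul]
  exact ch_cs _ _

lemma expect_mul_le_sqrt (f g : α → ℝ) :
    𝔼 x, f x * g x ≤ √(𝔼 x, f x ^ 2) * √(𝔼 x, g x ^ 2) := ch_cs f g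

end ind

section act
variable {X : Type} [AddCommGroup X] [Module (ZMod p) X]
variable {ν ν' ν'' : Type} [Fintype ν] [Fintype ν']

lemma act_add (U : Matrix ν' ν (ZMod p)) (l m : ν → X) : act U (l + m) = act U l + act U m := by
  funext i
  simp only [act, Pi.add_apply, smul_add, Finset.sum_add_distrib]

lemma act_sub (U : Matrix ν' ν (ZMod p)) (l m : ν → X) : act U (l - m) = act U l - act U m := by
  funext i
  simp only [act, Pi.sub_apply, smul_sub, Finset.sum_sub_distrib]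

lemma act_smul (U : Matrix ν' ν (ZMod p)) (c : ZMod p) (l : ν → X) :
    act U (c • l) = c • act U l := by
  funext i
  simp only [act, Pi.smul_apply, Finset.smul_sum, smul_comm c]

@[simp] lemma act_zero (U : Matrix ν' ν (ZMod p)) : act U (0 : ν → X) = 0 := by
  funext i
  simp [act]

lemma add_act (U U' : Matrix ν' ν (ZMod p)) (l : ν → X) :
    act (U + U') l = act U l + act U' l := by
  funext i
  simp only [act, Pi.add_apply, Matrix.add_apply, add_smul, Finset.sum_add_distrib]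

lemma act_mul (U : Matrix ν'' ν' (ZMod p)) (U' : Matrix ν' ν (ZMod p)) (l : ν → X) :
    act (U * U') l = act U (act U' l) := by
  funext i
  simp only [act, Matrix.mul_apply, Finset.sum_smul, Finset.smul_sum, mul_smul]
  exact Finset.sum_comm

/-- `act U` as a linear map -/
def actL (X : Type) [AddCommGroup X] [Module (ZMod p) X] (U : Matrix ν' ν (ZMod p)) :
    (ν → X) →ₗ[ZMod p] (ν' → X) where
  toFun := act U
  map_add' := act_add U
  map_smul' := act_smul U

lemma bt_comm {β : Bil p X} (hβ : SymB β) (u v : ν → X) : bt β u v = bt β v u :=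
  Finset.sum_congr rfl fun _ _ => hβ _ _

lemma bt_add_left (β : Bil p X) (u u' v : ν → X) :
    bt β (u + u') v = bt β u v + bt β u' v := by
  simp only [bt, Pi.add_apply, map_add, LinearMap.add_apply, Finset.sum_add_distrib]

lemma bt_add_right (β : Bil p X) (u v v' : ν → X) :
    bt β u (v + v') = bt β u v + bt β u v' := by
  simp only [bt, Pi.add_apply, map_add, Finset.sum_add_distrib]

lemma bt_smul_left (β : Bil p X) (c : ZMod p) (u v : ν → X) :
    bt β (c • u) v = c * bt β u v := by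
  simp only [bt, Pi.smul_apply, map_smul, LinearMap.smul_apply, smul_eq_mul, Finset.mul_sum]

lemma bt_smul_right (β : Bil p X) (c : ZMod p) (u v : ν → X) :
    bt β u (c • v) = c * bt β u v := by
  simp only [bt, Pi.smul_apply, map_smul, smul_eq_mul, Finset.mul_sum]

lemma bt_neg_left (β : Bil p X) (u v : ν → X) : bt β (-u) v = -bt β u v := by
  simp only [bt, Pi.neg_apply, map_neg, LinearMap.neg_apply, Finset.sum_neg_distrib]

lemma bt_neg_right (β : Bil p X) (u v : ν → X) : bt β u (-v) = -bt β u v := by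
  simp only [bt, Pi.neg_apply, map_neg, Finset.sum_neg_distrib]

@[simp] lemma bt_zero_left (β : Bil p X) (v : ν → X) : bt β 0 v = 0 := by simp [bt]

@[simp] lemma bt_zero_right (β : Bil p X) (u : ν → X) : bt β u 0 = 0 := by simp [bt]

lemma bt_act (β : Bil p X) (U : Matrix ν ν' (ZMod p)) (w : ν' → X) (l : ν → X) :
    bt β (act U w) l = bt β w (act Uᵀ l) := by
  simp only [bt, act, map_sum, map_smul, LinearMap.sum_apply, LinearMap.smul_apply,
    Matrix.transpose_apply]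
  exact Finset.sum_comm

lemma bt_nd [DecidableEq ν] {β : Bil p X} (hβ : NdB β) (u : ν → X) (h : ∀ v, bt β u v = 0) :
    u = 0 := by
  funext i
  refine hβ _ fun y => ?_
  have k := h (Pi.single i y)
  rwa [bt, Finset.sum_eq_single i (fun j _ q => by rw [Pi.single_eq_of_ne q, map_zero])
    (fun q => absurd (mem_univ i) q), Pi.single_eq_same] at k

lemma mem_pw {N : Submodule (ZMod p) X} {x : GX X ν} :
    x ∈ pw ν N ↔ (∀ i, x.1 i ∈ N) ∧ ∀ i, x.2 i ∈ N := by
  simp [pw, Submodule.mem_prod, Submodule.mem_pi]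

lemma card_pw [DecidableEq ν] [Fintype X] (N : Submodule (ZMod p) X) :
    Fintype.card (pw ν N) = Fintype.card N ^ Fintype.card ν * Fintype.card N ^ Fintype.card ν := by
  rw [← Fintype.card_fun, ← Fintype.card_prod]
  exact Fintype.card_congr
    ⟨fun x => (fun i => ⟨x.1.1 i, (mem_pw.1 x.2).1 i⟩, fun i => ⟨x.1.2 i, (mem_pw.1 x.2).2 i⟩),
      fun y => ⟨(fun i => (y.1 i).1, fun i => (y.2 i).1),
        mem_pw.2 ⟨fun i => (y.1 i).2, fun i => (y.2 i).2⟩⟩, fun _ => rfl, fun _ => rfl⟩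

/-- the number of submodules -/
lemma card_submodule_le [Fintype X] :
    Nat.card (Submodule (ZMod p) X) ≤ 2 ^ Fintype.card X := by
  classical
  rw [← Fintype.card_set, ← Nat.card_eq_fintype_card]
  exact Nat.card_le_card_of_injective _ SetLike.coe_injective

end act

end Pool.Agent.Work.MP_4523ee_co.Fp
end

-- merged part: Pool.Agent.Work.MP_4523ee_co.Fp.Four
section
/-!
Fourier analysis on symmetric matrices, the functions FF, slices (paper section 0).
-/

set_option autoImplicit false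
set_option linter.unusedSectionVars false

namespace Pool.Agent.Work.MP_4523ee_co.Fp

open Finset Matrix
open scoped BigOperators ComplexConjugate

variable {p : ℕ} [Fact p.Prime]

variable {ν ν' ν'' : Type} [Fintype ν] [DecidableEq ν] [Fintype ν'] [DecidableEq ν']
  [Fintype ν''] [DecidableEq ν'']

lemma cj_add (U : Matrix ν ν' (ZMod p)) (N N' : SymM p ν') :
    cj U (N + N') = cj U N + cj U N' := by
  apply Subtype.ext
  show U * (N.1 + N'.1) * Uᵀ = U * N.1 * Uᵀ + U * N'.1 * Uᵀ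
  rw [Matrix.mul_add, Matrix.add_mul]

@[simp] lemma cj_zero (U : Matrix ν ν' (ZMod p)) : cj U (0 : SymM p ν') = 0 := by
  apply Subtype.ext
  show U * (0 : Matrix ν' ν' (ZMod p)) * Uᵀ = 0
  rw [Matrix.mul_zero, Matrix.zero_mul]

lemma cj_neg (U : Matrix ν ν' (ZMod p)) (N : SymM p ν') : cj U (-N) = -cj U N := by
  apply Subtype.ext
  show U * (-N.1) * Uᵀ = -(U * N.1 * Uᵀ)
  rw [Matrix.mul_neg, Matrix.neg_mul]

lemma cj_cj (U : Matrix ν ν' (ZMod p)) (U' : Matrix ν' ν'' (ZMod p)) (N : SymM p ν'') :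
    cj U (cj U' N) = cj (U * U') N := by
  apply Subtype.ext
  show U * (U' * N.1 * U'ᵀ) * Uᵀ = U * U' * N.1 * (U * U')ᵀ
  simp only [transpose_mul, Matrix.mul_assoc]

lemma cj_sqv (U : Matrix ν ν' (ZMod p)) (x : ν' → ZMod p) : cj U (sqv x) = sqv (U *ᵥ x) := by
  apply Subtype.ext
  show U * vecMulVec x x * Uᵀ = vecMulVec (U *ᵥ x) (U *ᵥ x)
  rw [Matrix.mul_vecMulVec, Matrix.vecMulVec_mul, Matrix.vecMul_transpose]

lemma norm_chQ (Q : Matrix ν ν (ZMod p)) (M : SymM p ν) : ‖chQ Q M‖ = 1 := norm_ee _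

lemma chQ_add (Q : Matrix ν ν (ZMod p)) (M N : SymM p ν) :
    chQ Q (M + N) = chQ Q M * chQ Q N := by
  unfold chQ
  rw [← ee_add]
  congr 1
  simp only [Submodule.coe_add, Matrix.add_apply, add_mul, sum_add_distrib]

lemma add_chQ (Q Q' : Matrix ν ν (ZMod p)) (M : SymM p ν) :
    chQ (Q + Q') M = chQ Q M * chQ Q' M := by
  unfold chQ
  rw [← ee_add]
  congr 1
  simp only [Matrix.add_apply, mul_add, sum_add_distrib]

lemma conj_chQ (Q : Matrix ν ν (ZMod p)) (M : SymM p ν) : conj (chQ Q M) = chQ (-Q) M := by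
  unfold chQ
  rw [conj_ee]
  congr 1
  simp only [Matrix.neg_apply, mul_neg, sum_neg_distrib]

@[simp] lemma zero_chQ (M : SymM p ν) : chQ (0 : Matrix ν ν (ZMod p)) M = 1 := by
  unfold chQ
  simp only [Matrix.zero_apply, mul_zero, sum_const_zero, ee_zero]

lemma four_tr (M Q : Matrix ν ν (ZMod p)) : ∑ i, ∑ j, M i j * Q i j = trace (M * Qᵀ) := by
  simp only [trace, diag_apply, Matrix.mul_apply, transpose_apply]

lemma chQ_cj (Q : Matrix ν ν (ZMod p)) (U : Matrix ν ν' (ZMod p)) (N : SymM p ν') :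
    chQ Q (cj U N) = chQ (Uᵀ * Q * U) N := by
  unfold chQ
  rw [four_tr, four_tr]
  congr 1
  show trace (U * N.1 * Uᵀ * Qᵀ) = _
  rw [Matrix.mul_assoc, Matrix.mul_assoc, trace_mul_comm]
  simp only [transpose_mul, transpose_transpose, Matrix.mul_assoc]

/-- the pairing with `Q` as an additive map -/
def four_hom (Q : Matrix ν ν (ZMod p)) : SymM p ν →+ ZMod p where
  toFun M := ∑ i, ∑ j, M.1 i j * Q i j
  map_zero' := by simp
  map_add' M N := by simp only [Submodule.coe_add, Matrix.add_apply, add_mul, sum_add_distrib]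

lemma four_single (Q : Matrix ν ν (ZMod p)) (a b : ν) :
    ∑ i, ∑ j, (Matrix.single a b (1 : ZMod p)) i j * Q i j = Q a b := by
  rw [sum_eq_single a, sum_eq_single b]
  · rw [Matrix.single_apply_same, one_mul]
  · intro j _ hj
    rw [Matrix.single_apply_of_col_ne _ _ hj.symm, zero_mul]
  · exact fun h => absurd (mem_univ _) h
  · intro i _ hi
    exact sum_eq_zero fun j _ => by rw [Matrix.single_apply_of_row_ne hi.symm, zero_mul]
  · exact fun h => absurd (mem_univ _) h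

/-- test against `E_ij + E_ji` -/
lemma expect_chQ (hp : p ≠ 2) (Q : Matrix ν ν (ZMod p)) (h : Q + Qᵀ ≠ 0) :
    𝔼 M : SymM p ν, chQ Q M = 0 := by
  refine expect_ee_hom (four_hom Q) fun k => h ?_
  ext a b
  have hs : (Matrix.single a b (1 : ZMod p) + Matrix.single b a 1) ∈ SymM p ν := by
    show (Matrix.single a b (1 : ZMod p) + Matrix.single b a 1)ᵀ = _
    rw [transpose_add, transpose_single, transpose_single, add_comm]
  have k1 : ∑ i, ∑ j, (Matrix.single a b (1 : ZMod p) + Matrix.single b a 1 :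
      Matrix ν ν (ZMod p)) i j * Q i j = 0 := DFunLike.congr_fun k ⟨_, hs⟩
  simp only [Matrix.add_apply, add_mul, sum_add_distrib, four_single] at k1
  exact k1

lemma chQ_of_alt (hp : p ≠ 2) (Q : Matrix ν ν (ZMod p)) (h : Q + Qᵀ = 0) (M : SymM p ν) :
    chQ Q M = 1 := by
  refine ee_eq_one.2 ?_
  have h1 : ∑ i, ∑ j, M.1 i j * Q i j = ∑ i, ∑ j, M.1 i j * Qᵀ i j := by
    rw [sum_comm]
    refine sum_congr rfl fun i _ => sum_congr rfl fun j _ => ?_
    rw [transpose_apply, ← congrFun (congrFun (SymM_T M) i) j, transpose_apply]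
  have h2 : ∑ i, ∑ j, M.1 i j * Q i j + ∑ i, ∑ j, M.1 i j * Qᵀ i j = 0 := by
    simp only [← sum_add_distrib, ← mul_add]
    refine sum_eq_zero fun i _ => sum_eq_zero fun j _ => ?_
    rw [← Matrix.add_apply, h, Matrix.zero_apply, mul_zero]
  rw [← h1, ← two_mul] at h2
  exact (mul_eq_zero.1 h2).resolve_left (two_ne hp)

lemma four_sym_ne (hp : p ≠ 2) (Q : SymM p ν) (h : Q ≠ 0) : Q.1 + Q.1ᵀ ≠ 0 := by
  intro k
  rw [SymM_T, ← two_smul (ZMod p)] at k
  exact h (Subtype.ext ((smul_eq_zero.1 k).resolve_left (two_ne hp)))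

lemma four_mul_conj (Q Q' M : SymM p ν) :
    chQ Q.1 M * conj (chQ Q'.1 M) = chQ (Q - Q').1 M := by
  rw [conj_chQ, ← add_chQ, Submodule.coe_sub, sub_eq_add_neg]

lemma expect_chQ_mul_conj (hp : p ≠ 2) (Q Q' : SymM p ν) (h : Q ≠ Q') :
    𝔼 M : SymM p ν, chQ Q.1 M * conj (chQ Q'.1 M) = 0 := by
  simp only [four_mul_conj]
  exact expect_chQ hp _ (four_sym_ne hp _ (sub_ne_zero.2 h))

/-- Fourier coefficient -/
noncomputable def fc (G : SymM p ν → ℂ) (Q : SymM p ν) : ℂ := 𝔼 M, G M * conj (chQ Q.1 M)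

lemma four_swap (Q M : SymM p ν) : chQ Q.1 M = chQ M.1 Q := by
  unfold chQ
  simp only [mul_comm]

open Classical in
lemma four_orth (hp : p ≠ 2) (M N : SymM p ν) :
    ∑ Q : SymM p ν, conj (chQ Q.1 N) * chQ Q.1 M =
      if N = M then (Fintype.card (SymM p ν) : ℂ) else 0 := by
  split_ifs with h
  · subst h
    have h2 : ∀ Q : SymM p ν, conj (chQ Q.1 N) * chQ Q.1 N = 1 := fun Q => by
      rw [Complex.conj_mul', norm_chQ]; simp
    simp only [h2, sum_const, card_univ, nsmul_eq_mul, mul_one]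
  · have k := expect_chQ_mul_conj hp M N (Ne.symm h)
    rw [Fintype.expect_eq_sum_div_card, div_eq_zero_iff] at k
    rw [← k.resolve_right (Nat.cast_ne_zero.2 Fintype.card_ne_zero)]
    refine sum_congr rfl fun Q _ => ?_
    rw [four_swap Q N, four_swap Q M, mul_comm]

lemma fourier_inv (hp : p ≠ 2) (G : SymM p ν → ℂ) (M : SymM p ν) :
    G M = ∑ Q : SymM p ν, fc G Q * chQ Q.1 M := by
  classical
  have c : (Fintype.card (SymM p ν) : ℂ) ≠ 0 := Nat.cast_ne_zero.2 Fintype.card_ne_zero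
  unfold fc
  simp only [expect_mul, mul_assoc]
  rw [← expect_sum_comm]
  simp only [← mul_sum, four_orth hp, mul_ite, mul_zero]
  rw [Fintype.expect_eq_sum_div_card, sum_ite_eq', if_pos (mem_univ _), mul_div_cancel_right₀ _ c]

lemma parseval (hp : p ≠ 2) (G H : SymM p ν → ℂ) :
    𝔼 M, G M * conj (H M) = ∑ Q : SymM p ν, fc G Q * conj (fc H Q) := by
  have h1 : ∀ M, G M * conj (H M) =
      ∑ Q : SymM p ν, G M * conj (chQ Q.1 M) * conj (fc H Q) := fun M => by
    rw [fourier_inv hp H M, map_sum, mul_sum]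
    refine sum_congr rfl fun Q _ => ?_
    rw [map_mul]
    ring
  simp only [h1]
  rw [expect_sum_comm]
  refine sum_congr rfl fun Q _ => ?_
  rw [← expect_mul]
  rfl

lemma parseval_en (hp : p ≠ 2) (G : SymM p ν → ℂ) :
    en G = ∑ Q : SymM p ν, ‖fc G Q‖ ^ 2 := by
  have h := parseval hp G G
  simp only [Complex.mul_conj'] at h
  apply Complex.ofReal_injective
  rw [en, Complex.ofReal_expect]
  push_cast
  exact h

lemma Lev_mono {s s' : ℕ} (h : s ≤ s') {G : SymM p ν → ℂ} (hG : Lev s G) : Lev s' G :=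
  fun Q hQ => hG Q (h.trans_lt hQ)

lemma Lev_sum {s : ℕ} {ι : Type} (t : Finset ι) (c : ι → ℂ) (G : ι → SymM p ν → ℂ)
    (h : ∀ i ∈ t, c i ≠ 0 → Lev s (G i)) : Lev s fun M => ∑ i ∈ t, c i * G i M := by
  intro Q hQ
  simp only [sum_mul, mul_assoc]
  rw [expect_sum_comm]
  refine sum_eq_zero fun i hi => ?_
  rw [← mul_expect]
  by_cases k : c i = 0
  · rw [k, zero_mul]
  · rw [h i hi k Q hQ, mul_zero]

lemma Lev_smul {s : ℕ} (c : ℂ) {G : SymM p ν → ℂ} (h : Lev s G) : Lev s fun M => c * G M := by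
  intro Q hQ
  simp only [mul_assoc]
  rw [← mul_expect, h Q hQ, mul_zero]

lemma Lev_chQ (hp : p ≠ 2) {s : ℕ} (Q : SymM p ν) (h : Q.1.rank ≤ s) : Lev s (chQ Q.1) :=
  fun Q' hQ => expect_chQ_mul_conj hp Q Q' fun k => absurd (k ▸ h) (not_le.2 hQ)

section FF
variable {X : Type} [AddCommGroup X] [Module (ZMod p) X]

lemma gram_symm {β : Bil p X} (hβ : SymB β) (l : ν → X) : (gram β l)ᵀ = gram β l := by
  ext i j
  exact hβ _ _

lemma gram_act (β : Bil p X) (U : Matrix ν ν' (ZMod p)) (l : ν → X) :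
    Uᵀ * gram β l * U = gram β (act Uᵀ l) := by
  ext i j
  simp only [gram, act, Matrix.mul_apply, Matrix.of_apply, map_sum, map_smul, LinearMap.sum_apply,
    LinearMap.smul_apply, smul_eq_mul, transpose_apply, sum_mul, mul_sum]
  refine sum_congr rfl fun a _ => sum_congr rfl fun b _ => ?_
  ring

lemma norm_chi (β : Bil p X) (M : SymM p ν) (l : ν → X) : ‖chi β M l‖ = 1 := norm_chQ _ _

lemma chi_eq (β : Bil p X) (M : SymM p ν) (l : ν → X) :
    chi β M l = ee (bt β l (act M.1 l)) := by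
  unfold chi chQ bt act gram
  simp only [Matrix.of_apply, map_sum, map_smul, smul_eq_mul]

lemma chi_tile (β : Bil p X) (M : SymM p ν) (U : Matrix ν ν' (ZMod p)) (N : SymM p ν')
    (l : ν → X) : chi β (M + cj U N) l = chi β M l * chi β N (act Uᵀ l) := by
  unfold chi
  rw [chQ_add, chQ_cj, gram_act]

lemma chi_add {β : Bil p X} (hβ : SymB β) (M : SymM p ν) (l u : ν → X) :
    chi β M (l + u) = chi β M l * chi β M u * ee (2 * bt β (act M.1 u) l) := by
  rw [chi_eq, chi_eq, chi_eq, ← ee_add, ← ee_add, act_add, bt_add_left, bt_add_right, bt_add_right]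
  have h1 : bt β l (act M.1 u) = bt β (act M.1 u) l := bt_comm hβ _ _
  have h2 : bt β u (act M.1 l) = bt β (act M.1 u) l := by rw [bt_act, SymM_T]
  rw [h1, h2]
  congr 1
  ring

lemma rank_gram_le [Fintype X] (β : Bil p X) (l : ν → X) :
    (gram β l).rank ≤ Module.finrank (ZMod p) (Submodule.span (ZMod p) (Set.range l)) := by
  let T : X →ₗ[ZMod p] (ν → ZMod p) := LinearMap.pi fun i => β (l i)
  have h1 : Set.range (gram β l).col = T '' Set.range l := by
    rw [← Set.range_comp]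
    rfl
  rw [Matrix.rank_eq_finrank_span_cols, h1, ← Submodule.map_span]
  exact Submodule.finrank_map_le _ _

/-- (O): on a slice the Gram matrix determines the family -/
lemma gram_inj {ι : Type} {β : Bil p X} (hβ : SymB β) (hn : NdB β) {κ : Matrix ι ν (ZMod p)}
    {e : ι → X} (he : Submodule.span (ZMod p) (Set.range e) = ⊤) {l l' : ν → X}
    (h : act κ l = e) (h' : act κ l' = e) (hg : gram β l = gram β l') : l = l' := by
  funext j
  have k : ∀ m : ν → X, act κ m = e → ∀ i, β (m j) (e i) = ∑ a, κ i a * gram β m j a := by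
    intro m hm i
    rw [← hm]
    simp only [act, gram, map_sum, map_smul, smul_eq_mul, Matrix.of_apply]
  have k2 : β (l j - l' j) = 0 := by
    refine LinearMap.ext_on_range he fun i => ?_
    rw [map_sub, LinearMap.sub_apply, k l h, k l' h', hg, sub_self, LinearMap.zero_apply]
  exact sub_eq_zero.1 (hn _ fun y => by rw [k2, LinearMap.zero_apply])

variable [Fintype X]

lemma FF_add (β : Bil p X) (a b : (ν → X) → ℂ) (M : SymM p ν) :
    FF β (fun l => a l + b l) M = FF β a M + FF β b M := by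
  simp only [FF, add_mul, sum_add_distrib]

lemma FF_smul (β : Bil p X) (c : ℂ) (a : (ν → X) → ℂ) (M : SymM p ν) :
    FF β (fun l => c * a l) M = c * FF β a M := by
  simp only [FF, mul_sum, mul_assoc]

lemma FF_neg_conj (β : Bil p X) (a : (ν → X) → ℂ) (M : SymM p ν) :
    FF (-β) (fun l => conj (a l)) M = conj (FF β a M) := by
  simp only [FF, map_sum, map_mul, chi, conj_chQ]
  rfl

lemma FF_tile (β : Bil p X) (a : (ν → X) → ℂ) (M : SymM p ν) (U : Matrix ν ν' (ZMod p))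
    (N : SymM p ν') : FF β a (M + cj U N) = FF β (aT β a M U) N := by
  classical
  simp only [FF, aT, cut, sum_mul, chi_tile]
  rw [sum_comm]
  refine sum_congr rfl fun l _ => ?_
  rw [sum_eq_single (act Uᵀ l) (fun s _ hs => by rw [if_neg (Ne.symm hs), zero_mul, zero_mul])
    (fun h => absurd (mem_univ _) h), if_pos rfl, mul_assoc]

lemma aT_tile (β : Bil p X) (a : (ν → X) → ℂ) (M : SymM p ν) (U : Matrix ν ν' (ZMod p))
    (N : SymM p ν') (s : ν' → X) :
    aT β a (M + cj U N) U s = aT β a M U s * chi β N s := by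
  simp only [FF, aT, cut, sum_mul, chi_tile]
  refine sum_congr rfl fun l _ => ?_
  by_cases h : act Uᵀ l = s
  · rw [if_pos h, h, mul_assoc]
  · rw [if_neg h, zero_mul, zero_mul, zero_mul]

lemma FF_ip (hp : p ≠ 2) {ι : Type} {β : Bil p X} (hβ : SymB β) (hn : NdB β)
    {κ : Matrix ι ν (ZMod p)} {e : ι → X} (he : Submodule.span (ZMod p) (Set.range e) = ⊤)
    {a b : (ν → X) → ℂ} (ha : OnSl κ e a) (hb : OnSl κ e b) :
    𝔼 M, FF β a M * conj (FF β b M) = ip b a := by
  classical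
  have key : ∀ l l' : ν → X, 𝔼 M, a l * chi β M l * conj (b l' * chi β M l') =
      if l' = l then conj (b l) * a l else 0 := by
    intro l l'
    have h1 : ∀ M : SymM p ν, a l * chi β M l * conj (b l' * chi β M l') =
        a l * conj (b l') * (chi β M l * conj (chi β M l')) := fun M => by rw [map_mul]; ring
    simp only [h1]
    rw [← mul_expect]
    by_cases h : l' = l
    · subst h
      have h2 : ∀ M : SymM p ν, chi β M l' * conj (chi β M l') = 1 := fun M => by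
        rw [Complex.mul_conj, Complex.normSq_eq_norm_sq, norm_chi]; simp
      rw [if_pos rfl]
      simp only [h2]
      rw [expect_const univ_nonempty, mul_one, mul_comm]
    · rw [if_neg h]
      by_cases h3 : a l = 0
      · rw [h3, zero_mul, zero_mul]
      by_cases h4 : b l' = 0
      · rw [h4, map_zero, mul_zero, zero_mul]
      have h5 := expect_chQ_mul_conj hp ⟨gram β l, gram_symm hβ l⟩ ⟨gram β l', gram_symm hβ l'⟩
        fun e' => h (gram_inj hβ hn he (ha l h3) (hb l' h4) (congrArg Subtype.val e')).symm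
      exact mul_eq_zero_of_right _ h5
  simp only [FF, map_sum, sum_mul_sum, expect_sum_comm, key, sum_ite_eq', mem_univ, if_true, ip]

lemma FF_en (hp : p ≠ 2) {ι : Type} {β : Bil p X} (hβ : SymB β) (hn : NdB β)
    {κ : Matrix ι ν (ZMod p)} {e : ι → X} (he : Submodule.span (ZMod p) (Set.range e) = ⊤)
    {a : (ν → X) → ℂ} (ha : OnSl κ e a) : en (FF β a) = nsq a := by
  have h := FF_ip hp hβ hn he ha ha
  rw [ip_self] at h
  apply Complex.ofReal_injective
  rw [← h, en, Complex.ofReal_expect]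
  refine expect_congr rfl fun M _ => ?_
  rw [Complex.mul_conj, Complex.normSq_eq_norm_sq]

lemma Lev_FF_tile (hp : p ≠ 2) {β : Bil p X} (hβ : SymB β) {s : ℕ} (a : (ν → X) → ℂ)
    (M : SymM p ν) (U : Matrix ν ν' (ZMod p))
    (h : ∀ l, a l ≠ 0 →
      Module.finrank (ZMod p) (Submodule.span (ZMod p) (Set.range (act Uᵀ l))) ≤ s) :
    Lev s fun N => FF β a (M + cj U N) := by
  have h1 := Lev_sum (s := s) univ (fun l : ν → X => a l * chi β M l)
    (fun l => chQ (gram β (act Uᵀ l))) fun l _ hl =>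
      Lev_chQ hp ⟨gram β (act Uᵀ l), gram_symm hβ _⟩
        ((rank_gram_le β _).trans (h l (left_ne_zero_of_mul hl)))
  have h2 : (fun N => FF β a (M + cj U N)) =
      fun N => ∑ l : ν → X, a l * chi β M l * chQ (gram β (act Uᵀ l)) N := by
    funext N
    simp only [FF, chi_tile, mul_assoc]
    rfl
  rw [h2]
  exact h1

lemma OnSl_cut {ι : Type} [Fintype ι] (κ : Matrix ι ν (ZMod p)) (e : ι → X)
    (a : (ν → X) → ℂ) : OnSl κ e (cut κ e a) := by
  intro l hl
  by_contra h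
  exact hl (if_neg h)

lemma OnSl.cut {ι : Type} {κ : Matrix ι ν (ZMod p)} {e : ι → X} {a : (ν → X) → ℂ}
    (h : OnSl κ e a) (U : Matrix ν' ν (ZMod p)) (s : ν' → X) : OnSl κ e (cut U s a) := by
  intro l hl
  refine h l fun h1 => hl ?_
  unfold Fp.cut
  rw [h1, ite_self]

lemma nsq_cut_le (U : Matrix ν' ν (ZMod p)) (s : ν' → X) (a : (ν → X) → ℂ) :
    nsq (cut U s a) ≤ nsq a := by
  refine sum_le_sum fun l _ => ?_
  unfold cut
  split_ifs
  · exact le_rfl
  · rw [norm_zero, zero_pow two_ne_zero]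
    exact sq_nonneg _

lemma ip_cut_of_OnSl (κ : Matrix ν' ν (ZMod p)) (e : ν' → X) (u a : (ν → X) → ℂ)
    (h : OnSl κ e a) : ip (cut κ e u) a = ip u a := by
  refine sum_congr rfl fun l _ => ?_
  by_cases h1 : a l = 0
  · rw [h1, mul_zero, mul_zero]
  · unfold cut
    rw [if_pos (h l h1)]

/-- transport along an isometry -/
lemma FF_equiv {X' : Type} [AddCommGroup X'] [Module (ZMod p) X'] [Fintype X'] (β : Bil p X)
    (β' : Bil p X') (T : X' ≃ₗ[ZMod p] X) (hT : ∀ x y, β' x y = β (T x) (T y))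
    (a : (ν → X) → ℂ) (M : SymM p ν) :
    FF β' (fun l => a fun i => T (l i)) M = FF β a M := by
  refine Fintype.sum_equiv (Equiv.arrowCongr (Equiv.refl ν) T.toEquiv) _ _ fun l => ?_
  have h : gram β' l = gram β fun i => T (l i) := by
    ext i j
    exact hT _ _
  unfold chi
  rw [h]
  rfl

lemma nsq_equiv {X' : Type} [Fintype X'] (T : X' ≃ X) (a : (ν → X) → ℂ) :
    nsq (fun l : ν → X' => a fun i => T (l i)) = nsq a := by
  exact Fintype.sum_equiv (Equiv.arrowCongr (Equiv.refl ν) T) _ _ fun l => rfl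

end FF

section prod
variable {X₁ X₂ : Type} [AddCommGroup X₁] [Module (ZMod p) X₁] [AddCommGroup X₂]
  [Module (ZMod p) X₂]

lemma SymB_bp {β₁ : Bil p X₁} {β₂ : Bil p X₂} (h₁ : SymB β₁) (h₂ : SymB β₂) :
    SymB (bp β₁ β₂) := by
  intro x y
  rw [bp_apply, bp_apply, h₁ x.1, h₂ x.2]

lemma NdB_bp {β₁ : Bil p X₁} {β₂ : Bil p X₂} (h₁ : NdB β₁) (h₂ : NdB β₂) :
    NdB (bp β₁ β₂) := by
  intro x hx
  refine Prod.ext (h₁ _ fun y => ?_) (h₂ _ fun y => ?_)
  · simpa using hx (y, 0)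
  · simpa using hx (0, y)

lemma span_fst {ι : Type} {e : ι → X₁ × X₂} (he : Submodule.span (ZMod p) (Set.range e) = ⊤) :
    Submodule.span (ZMod p) (Set.range fun i => (e i).1) = ⊤ := by
  have h := congrArg (Submodule.map (LinearMap.fst (ZMod p) X₁ X₂)) he
  rw [Submodule.map_span, Submodule.map_top, LinearMap.range_eq_top.2 Prod.fst_surjective,
    ← Set.range_comp] at h
  exact h

lemma span_snd {ι : Type} {e : ι → X₁ × X₂} (he : Submodule.span (ZMod p) (Set.range e) = ⊤) :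
    Submodule.span (ZMod p) (Set.range fun i => (e i).2) = ⊤ := by
  have h := congrArg (Submodule.map (LinearMap.snd (ZMod p) X₁ X₂)) he
  rw [Submodule.map_span, Submodule.map_top, LinearMap.range_eq_top.2 Prod.snd_surjective,
    ← Set.range_comp] at h
  exact h

lemma OnSl_tp {ι : Type} {κ : Matrix ι ν (ZMod p)} {e : ι → X₁ × X₂} {a₁ : (ν → X₁) → ℂ}
    {a₂ : (ν → X₂) → ℂ} (h₁ : OnSl κ (fun i => (e i).1) a₁) (h₂ : OnSl κ (fun i => (e i).2) a₂) :
    OnSl κ e (tp a₁ a₂) := by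
  intro l hl
  have a1 := h₁ _ (left_ne_zero_of_mul hl)
  have a2 := h₂ _ (right_ne_zero_of_mul hl)
  funext i
  refine Prod.ext ?_ ?_
  · rw [← congrFun a1 i]
    simp only [act, Prod.fst_sum, Prod.smul_fst]
  · rw [← congrFun a2 i]
    simp only [act, Prod.snd_sum, Prod.smul_snd]

variable [Fintype X₁] [Fintype X₂]

lemma FF_tp (β₁ : Bil p X₁) (β₂ : Bil p X₂) (a₁ : (ν → X₁) → ℂ) (a₂ : (ν → X₂) → ℂ)
    (M : SymM p ν) : FF (bp β₁ β₂) (tp a₁ a₂) M = FF β₁ a₁ M * FF β₂ a₂ M := by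
  unfold FF
  rw [sum_mul_sum, ← Fintype.sum_prod_type']
  refine Fintype.sum_equiv (Equiv.arrowProdEquivProdArrow ν (fun _ => X₁) fun _ => X₂) _ _
    fun l => ?_
  have h : gram (bp β₁ β₂) l = gram β₁ (fun i => (l i).1) + gram β₂ fun i => (l i).2 := by
    ext i j
    rfl
  unfold chi tp
  rw [h, add_chQ, mul_mul_mul_comm]
  rfl

lemma nsq_tp (a₁ : (ν → X₁) → ℂ) (a₂ : (ν → X₂) → ℂ) : nsq (tp a₁ a₂) = nsq a₁ * nsq a₂ := by
  unfold nsq
  rw [sum_mul_sum, ← Fintype.sum_prod_type']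
  refine Fintype.sum_equiv (Equiv.arrowProdEquivProdArrow ν (fun _ => X₁) fun _ => X₂) _ _
    fun l => ?_
  unfold tp
  rw [norm_mul, mul_pow]
  rfl

lemma en_FF_mul (hp : p ≠ 2) {ι : Type} {β₁ : Bil p X₁} {β₂ : Bil p X₂} (s₁ : SymB β₁)
    (n₁ : NdB β₁) (s₂ : SymB β₂) (n₂ : NdB β₂) {κ : Matrix ι ν (ZMod p)} {e : ι → X₁ × X₂}
    (he : Submodule.span (ZMod p) (Set.range e) = ⊤) {a₁ : (ν → X₁) → ℂ} {a₂ : (ν → X₂) → ℂ}
    (h₁ : OnSl κ (fun i => (e i).1) a₁) (h₂ : OnSl κ (fun i => (e i).2) a₂) :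
    en (fun M => FF β₁ a₁ M * FF β₂ a₂ M) = nsq a₁ * nsq a₂ := by
  have h := FF_en hp (SymB_bp s₁ s₂) (NdB_bp n₁ n₂) he (OnSl_tp h₁ h₂)
  rw [nsq_tp] at h
  rw [← h]
  exact congrArg en (funext fun M => (FF_tp β₁ β₂ a₁ a₂ M).symm)

end prod

end Pool.Agent.Work.MP_4523ee_co.Fp
end

-- merged part: Pool.Agent.Work.MP_4523ee_co.Fp.Extr
section
/-!
Extremal density, tiles, Markov argument, SC (paper section 0).
-/

set_option autoImplicit false
set_option linter.unusedSectionVars false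

namespace Pool.Agent.Work.MP_4523ee_co.Fp

open Finset Matrix
open scoped BigOperators ComplexConjugate

variable {p : ℕ} [Fact p.Prime]

variable {ν ν' : Type} [Fintype ν] [DecidableEq ν] [Fintype ν'] [DecidableEq ν']

lemma extrA_NE_mono {η η' : ℝ} (h : η ≤ η') {A : Set (SymM p ν)} (hA : NE η A) : NE η' A :=
  ⟨hA.1, (sub_le_sub_left h _).trans hA.2⟩

lemma Ev.mono {P Q : ∀ (ν : Type) [Fintype ν] [DecidableEq ν], Set (SymM p ν) → Prop}
    (h : Ev p P) (hPQ : ∀ (ν : Type) [Fintype ν] [DecidableEq ν] (A : Set (SymM p ν)),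
      P ν A → Q ν A) : Ev p Q := by
  obtain ⟨η, hη, n0, h⟩ := h
  exact ⟨η, hη, n0, fun ν _ _ hn A hA => hPQ ν A (h ν hn A hA)⟩

lemma Ev.and {P Q : ∀ (ν : Type) [Fintype ν] [DecidableEq ν], Set (SymM p ν) → Prop}
    (h : Ev p P) (h' : Ev p Q) : Ev p fun ν _ _ A => P ν A ∧ Q ν A := by
  obtain ⟨η, hη, n0, h⟩ := h
  obtain ⟨η', hη', n0', h'⟩ := h'
  exact ⟨min η η', lt_min hη hη', max n0 n0', fun ν _ _ hn A hA =>
    ⟨h ν ((le_max_left _ _).trans hn) A (extrA_NE_mono (min_le_left _ _) hA),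
      h' ν ((le_max_right _ _).trans hn) A (extrA_NE_mono (min_le_right _ _) hA)⟩⟩

lemma Ev.all {ι : Type} (s : Finset ι)
    {P : ι → ∀ (ν : Type) [Fintype ν] [DecidableEq ν], Set (SymM p ν) → Prop}
    (h : ∀ i ∈ s, Ev p (P i)) : Ev p fun ν _ _ A => ∀ i ∈ s, P i ν A := by
  classical
  induction s using Finset.induction_on with
  | empty => exact ⟨1, one_pos, 0, fun _ _ _ _ _ _ i hi => absurd hi (notMem_empty i)⟩
  | insert a s _ ih =>
    refine ((h a (mem_insert_self a s)).and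
      (ih fun i hi => h i (mem_insert_of_mem hi))).mono fun ν _ _ A hA i hi => ?_
    rcases mem_insert.1 hi with rfl | hi
    · exact hA.1
    · exact hA.2 i hi

lemma Ev_basic (η : ℝ) (hη : 0 < η) (n0 : ℕ) :
    Ev p fun ν _ _ A => n0 ≤ Fintype.card ν ∧ NE η A := ⟨η, hη, n0, fun _ _ _ hn _ hA => ⟨hn, hA⟩⟩

lemma NE.mono {η η' : ℝ} (h : η ≤ η') {A : Set (SymM p ν)} (hA : NE η A) : NE η' A :=   extrA_NE_mono h hA

lemma Ind.res {A : Set (SymM p ν)} (hA : Ind A) (M : SymM p ν) {U : Matrix ν ν' (ZMod p)}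
    (hU : Inj U) : Ind (res A M U) := by
  intro N x hx h1 h2
  refine hA (M + cj U N) (U *ᵥ x) (fun h => hx (hU (h.trans (mulVec_zero U).symm))) h1 ?_
  rw [add_assoc, ← cj_sqv, ← cj_add]
  exact h2

lemma fA_res (A : Set (SymM p ν)) (M : SymM p ν) (U : Matrix ν ν' (ZMod p)) (N : SymM p ν') :
    fA (res A M U) N = fA A (M + cj U N) := rfl

lemma expect_tile (U : Matrix ν ν' (ZMod p)) (g : SymM p ν → ℂ) :
    𝔼 M, 𝔼 N : SymM p ν', g (M + cj U N) = 𝔼 M, g M := by
  rw [Finset.expect_comm]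
  have : ∀ N : SymM p ν', 𝔼 M, g (M + cj U N) = 𝔼 M, g M := fun N =>
    Fintype.expect_equiv (Equiv.addRight (cj U N)) _ _ fun _ => rfl
  simp only [this, Fintype.expect_const]

lemma expect_tile_real (U : Matrix ν ν' (ZMod p)) (g : SymM p ν → ℝ) :
    𝔼 M, 𝔼 N : SymM p ν', g (M + cj U N) = 𝔼 M, g M := by
  rw [Finset.expect_comm]
  have : ∀ N : SymM p ν', 𝔼 M, g (M + cj U N) = 𝔼 M, g M := fun N =>
    Fintype.expect_equiv (Equiv.addRight (cj U N)) _ _ fun _ => rfl
  simp only [this, Fintype.expect_const]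

lemma extrA_aN_nonneg (n : ℕ) : 0 ≤ aN p n :=
  Real.sSup_nonneg fun _ ⟨A, _, h⟩ => h ▸ dens_nonneg A

lemma extrA_aN_le_one (n : ℕ) : aN p n ≤ 1 :=
  Real.sSup_le (fun _ ⟨A, _, h⟩ => h ▸ dens_le_one A) zero_le_one

lemma extrA_aS_le (n : ℕ) : aS p ≤ aN p n :=
  ciInf_le ⟨0, fun _ ⟨m, h⟩ => h ▸ extrA_aN_nonneg m⟩ n

lemma aS_nonneg : 0 ≤ aS p := Real.iInf_nonneg extrA_aN_nonneg

lemma aS_le_one : aS p ≤ 1 := (extrA_aS_le 0).trans (extrA_aN_le_one 0)

lemma norm_fA_le (A : Set (SymM p ν)) (M : SymM p ν) : ‖fA A M‖ ≤ 1 := by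
  rw [fA, Complex.norm_real, Real.norm_eq_abs, abs_le]
  constructor <;>
    linarith only [ind_nonneg A M, ind_le_one A M, aS_nonneg (p := p), aS_le_one (p := p)]

lemma norm_fB_le (A B : Set (SymM p ν)) (M : SymM p ν) : ‖fB A B M‖ ≤ 1 := by
  rw [fB, norm_mul, Complex.norm_real, Real.norm_eq_abs]
  refine mul_le_one₀ (norm_fA_le A M) (abs_nonneg _) (abs_le.2 ⟨?_, ?_⟩) <;>
    linarith only [ind_nonneg B M, ind_le_one B M]

lemma fA_sub_fB (A B : Set (SymM p ν)) (G : SymM p ν → ℂ) :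
    ‖𝔼 M, fA A M * G M - 𝔼 M, fB A B M * G M‖ ≤ √(dens B) * √(en G) := by
  have h1 : 𝔼 M, fA A M * G M - 𝔼 M, fB A B M * G M =
      𝔼 M, (fA A M * (ind B M : ℝ)) * G M := by
    rw [← Finset.expect_sub_distrib]
    refine Finset.expect_congr rfl fun M _ => ?_
    rw [fB]
    push_cast
    ring
  rw [h1]
  refine (norm_expect_mul_le _ G).trans
    (mul_le_mul_of_nonneg_right (Real.sqrt_le_sqrt ?_) (Real.sqrt_nonneg _))
  refine Finset.expect_le_expect fun M _ => ?_
  beta_reduce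
  by_cases hM : M ∈ B
  · rw [ind_of_mem hM, Complex.ofReal_one, mul_one]
    exact pow_le_one₀ (norm_nonneg _) (norm_fA_le A M)
  · rw [ind_of_not hM]
    simp

/-- an injective matrix of any smaller size killing a given family: the solutions `w` of
`∑ i, w i • l i = 0` form a space of dimension at least `card ν - finrank X` -/
lemma exists_inj_ker {X : Type} [AddCommGroup X] [Module (ZMod p) X] [Fintype X] (l : ν → X)
    (h : Fintype.card ν' + Module.finrank (ZMod p) X ≤ Fintype.card ν) :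
    ∃ U : Matrix ν ν' (ZMod p), Inj U ∧ act Uᵀ l = 0 := by
  have h1 := (Fintype.linearCombination (ZMod p) l).finrank_range_add_finrank_ker
  have h2 := Submodule.finrank_le (LinearMap.range (Fintype.linearCombination (ZMod p) l))
  rw [Module.finrank_fintype_fun_eq_card] at h1
  obtain ⟨f, hf⟩ := exists_linearIndependent_of_le_finrank (R := ZMod p)
    (M := LinearMap.ker (Fintype.linearCombination (ZMod p) l)) (n := Fintype.card ν') (by omega)
  have h3 := (hf.map' (Submodule.subtype _) (Submodule.ker_subtype _)).comp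
    (Fintype.equivFin ν') (Fintype.equivFin ν').injective
  refine ⟨Matrix.of fun i t => (f (Fintype.equivFin ν' t)).1 i,
    Matrix.mulVec_injective_iff.2 h3, funext fun t => ?_⟩
  have h4 := (f (Fintype.equivFin ν' t)).2
  rw [LinearMap.mem_ker, Fintype.linearCombination_apply] at h4
  exact h4

lemma dens_le_aN {n : ℕ} (h : n ≤ Fintype.card ν) {A : Set (SymM p ν)} (hA : Ind A) :
    dens A ≤ aN p n := by
  obtain ⟨U, hU, -⟩ := exists_inj_ker (p := p) (ν := ν) (ν' := Fin n) (X := Unit) (fun _ => ())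
    (by rw [Module.finrank_zero_of_subsingleton, Fintype.card_fin]; exact h)
  rw [dens, ← expect_tile_real U]
  refine Finset.expect_le univ_nonempty fun M _ => ?_
  exact le_csSup ⟨1, fun _ ⟨B, _, hB⟩ => hB ▸ dens_le_one B⟩ ⟨res A M U, hA.res M hU, rfl⟩

theorem UB (γ : ℝ) (hγ : 0 < γ) : ∃ J0 : ℕ, ∀ (ν : Type) [Fintype ν] [DecidableEq ν],
    J0 ≤ Fintype.card ν → ∀ A : Set (SymM p ν), Ind A → dens A ≤ aS p + γ := by
  obtain ⟨n, hn⟩ := exists_lt_of_ciInf_lt (f := aN p) (lt_add_of_pos_right (aS p) hγ)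
  exact ⟨n, fun ν _ _ h A hA => (dens_le_aN h hA).trans hn.le⟩

theorem LB (n : ℕ) : ∃ A : Set (SymM p (Fin n)), Ind A ∧ aS p ≤ dens A := by
  have h1 : {t | ∃ A : Set (SymM p (Fin n)), Ind A ∧ dens A = t}.Finite :=
    (Set.finite_range fun A : Set (SymM p (Fin n)) => dens A).subset fun _ ⟨A, _, h⟩ => ⟨A, h⟩
  have h2 : {t | ∃ A : Set (SymM p (Fin n)), Ind A ∧ dens A = t}.Nonempty :=
    ⟨_, ∅, fun _ _ _ h => absurd h (Set.notMem_empty _), rfl⟩
  obtain ⟨A, hA, h3⟩ := h2.csSup_mem h1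
  exact ⟨A, hA, (extrA_aS_le n).trans h3.ge⟩

lemma Ev.exists {P : ∀ (ν : Type) [Fintype ν] [DecidableEq ν], Set (SymM p ν) → Prop}
    (h : Ev p P) : ∃ (n : ℕ) (A : Set (SymM p (Fin n))), P (Fin n) A := by
  obtain ⟨η, hη, n0, h⟩ := h
  obtain ⟨A, hA, h1⟩ := LB (p := p) n0
  exact ⟨n0, A, h (Fin n0) (Fintype.card_fin n0).ge A ⟨hA, (sub_le_self _ hη.le).trans h1⟩⟩

lemma extrA_ker {κ : Type} [Fintype κ] [DecidableEq κ] {U : Matrix ν κ (ZMod p)} (h : ¬ Inj U) :
    ∃ w, w ≠ 0 ∧ U *ᵥ w = 0 := by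
  obtain ⟨x, y, h1, h2⟩ := Function.not_injective_iff.1 h
  exact ⟨x - y, sub_ne_zero.2 h2, by rw [mulVec_sub, h1, sub_self]⟩

lemma extrA_fib {b : ν' → ZMod p} (hb : b ≠ 0) (y : ν → ZMod p) :
    dens {U : Matrix ν ν' (ZMod p) | U *ᵥ b = y} = ((p : ℝ) ^ Fintype.card ν)⁻¹ := by
  obtain ⟨t, ht⟩ := Function.ne_iff.1 hb
  have ht' : b t ≠ 0 := ht
  let f : Matrix ν ν' (ZMod p) →ₗ[ZMod p] (ν → ZMod p) :=
    { toFun := fun U => U *ᵥ b
      map_add' := fun U V => add_mulVec U V b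
      map_smul' := fun c U => smul_mulVec c U b }
  have hf : Function.Surjective f := fun z => by
    refine ⟨Matrix.of fun i j => if j = t then z i * (b t)⁻¹ else 0, funext fun i => ?_⟩
    show ∑ j, (if j = t then z i * (b t)⁻¹ else 0) * b j = z i
    rw [sum_eq_single t (fun j _ hj => by rw [if_neg hj, zero_mul]) (by simp), if_pos rfl,
      inv_mul_cancel_right₀ ht']
  have := dens_fibre_surj f hf y
  rw [Fintype.card_fun, ZMod.card, Nat.cast_pow] at this
  exact this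

/-- probability that a random completion of an injective matrix is not injective -/
lemma dens_not_inj {ι : Type} [Fintype ι] [DecidableEq ι] (K : Matrix ν ι (ZMod p)) (hK : Inj K) :
    dens {U : Matrix ν ν' (ZMod p) | ¬ Inj (fromCols K U)} ≤
      (p : ℝ) ^ (Fintype.card ι + Fintype.card ν') / (p : ℝ) ^ Fintype.card ν := by
  classical
  refine (dens_le_sum (univ.filter fun w : ι ⊕ ν' → ZMod p => w ∘ Sum.inr ≠ 0) _
    (fun w => {U : Matrix ν ν' (ZMod p) | U *ᵥ (w ∘ Sum.inr) = -(K *ᵥ (w ∘ Sum.inl))})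
    fun U hU => ?_).trans ?_
  · obtain ⟨w, h1, h2⟩ := extrA_ker hU
    rw [fromCols_mulVec] at h2
    refine ⟨w, mem_filter.2 ⟨mem_univ _, fun h3 => h1 ?_⟩, eq_neg_of_add_eq_zero_right h2⟩
    rw [h3, mulVec_zero, add_zero] at h2
    have h4 : w ∘ Sum.inl = 0 := hK (h2.trans (mulVec_zero K).symm)
    funext x
    rcases x with x | x
    · exact congrFun h4 x
    · exact congrFun h3 x
  · rw [sum_congr rfl fun w hw => extrA_fib (mem_filter.1 hw).2 _, sum_const, nsmul_eq_mul,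
      div_eq_mul_inv]
    refine mul_le_mul_of_nonneg_right ?_ (by positivity)
    have := card_filter_le (univ : Finset (ι ⊕ ν' → ZMod p)) fun w => w ∘ Sum.inr ≠ 0
    rw [card_univ, Fintype.card_fun, ZMod.card, Fintype.card_sum] at this
    exact_mod_cast this

lemma dens_not_inj' : dens {U : Matrix ν ν' (ZMod p) | ¬ Inj U} ≤
      (p : ℝ) ^ Fintype.card ν' / (p : ℝ) ^ Fintype.card ν := by
  classical
  refine (dens_le_sum (univ.filter fun w : ν' → ZMod p => w ≠ 0) _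
    (fun w => {U : Matrix ν ν' (ZMod p) | U *ᵥ w = 0}) fun U hU => ?_).trans ?_
  · obtain ⟨w, h1, h2⟩ := extrA_ker hU
    exact ⟨w, mem_filter.2 ⟨mem_univ _, h1⟩, h2⟩
  · rw [sum_congr rfl fun w hw => extrA_fib (mem_filter.1 hw).2 _, sum_const, nsmul_eq_mul,
      div_eq_mul_inv]
    refine mul_le_mul_of_nonneg_right ?_ (by positivity)
    have := card_filter_le (univ : Finset (ν' → ZMod p)) fun w => w ≠ 0
    rw [card_univ, Fintype.card_fun, ZMod.card] at this
    exact_mod_cast this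

section marg
variable {I : Type} [Fintype I] (U : I → Matrix ν ν' (ZMod p)) (w : SymM p ν → I → ℝ)

lemma marg_nonneg (hw : ∀ M i, 0 ≤ w M i) (M : SymM p ν) : 0 ≤ marg U w M :=
  Finset.expect_nonneg fun _ _ => Finset.expect_nonneg fun _ _ => hw _ _

lemma extrB_id {K : Type} [CommSemiring K] [Module ℚ≥0 K] [IsScalarTower ℚ≥0 K K]
    [SMulCommClass ℚ≥0 K K] (v : SymM p ν → I → K) (g : SymM p ν → K) :
    𝔼 M, 𝔼 i, v M i * 𝔼 N : SymM p ν', g (M + cj (U i) N) =
      𝔼 M, (𝔼 i, 𝔼 N : SymM p ν', v (M - cj (U i) N) i) * g M := by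
  simp only [Finset.mul_expect, Finset.expect_mul]
  rw [Finset.expect_comm, Finset.expect_comm (univ : Finset (SymM p ν))]
  refine Finset.expect_congr rfl fun i _ => ?_
  rw [Finset.expect_comm, Finset.expect_comm (univ : Finset (SymM p ν))]
  refine Finset.expect_congr rfl fun N _ => ?_
  exact Fintype.expect_equiv (Equiv.addRight (cj (U i) N)) _ _ fun M => by
    rw [Equiv.coe_addRight, add_sub_cancel_right]

lemma marg_id (g : SymM p ν → ℂ) :
    𝔼 M, 𝔼 i, (w M i : ℂ) * 𝔼 N : SymM p ν', g (M + cj (U i) N) =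
      𝔼 M, (marg U w M : ℂ) * g M := by
  rw [extrB_id U (fun M i => (w M i : ℂ)) g]
  simp only [marg, Complex.ofReal_expect]

lemma marg_id_real (g : SymM p ν → ℝ) :
    𝔼 M, 𝔼 i, w M i * 𝔼 N : SymM p ν', g (M + cj (U i) N) = 𝔼 M, marg U w M * g M :=
  extrB_id U w g

lemma expect_marg : 𝔼 M, marg U w M = 𝔼 M, 𝔼 i, w M i := by
  have h := marg_id_real U w fun _ => 1
  simp only [Fintype.expect_const, mul_one] at h
  exact h.symm

lemma marg_of_inv (h : ∀ M i (N : SymM p ν'), w (M + cj (U i) N) i = w M i) (M : SymM p ν) :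
    marg U w M = 𝔼 i, w M i := by
  refine Finset.expect_congr rfl fun i _ => ?_
  have h1 : ∀ N : SymM p ν', w (M - cj (U i) N) i = w M i := fun N => by
    rw [← h (M - cj (U i) N) i N, sub_add_cancel]
  simp only [h1, Fintype.expect_const]

/-- TB -/
lemma marg_dens_le {A : Set (SymM p ν)} (hA : Ind A) {t : ℝ}
    (hUB : ∀ A' : Set (SymM p ν'), Ind A' → dens A' ≤ t) (hw : ∀ M i, 0 ≤ w M i)
    (hI : ∀ M i, w M i ≠ 0 → Inj (U i)) :
    𝔼 M, marg U w M * ind A M ≤ t * 𝔼 M, marg U w M := by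
  rw [← marg_id_real, expect_marg, Finset.mul_expect]
  refine Finset.expect_le_expect fun M _ => ?_
  rw [Finset.mul_expect]
  refine Finset.expect_le_expect fun i _ => ?_
  by_cases h : w M i = 0
  · rw [h, zero_mul, mul_zero]
  · rw [mul_comm t]
    exact mul_le_mul_of_nonneg_left (hUB _ (hA.res M (hI M i h))) (hw M i)

/-- MK -/
theorem MK {A : Set (SymM p ν)} {γ η0 ε η : ℝ} (hγ : 0 ≤ γ) (hη : 0 < η) (hε : ε ≤ 1)
    (hA : NE η0 A) (hUB : ∀ A' : Set (SymM p ν'), Ind A' → dens A' ≤ aS p + γ)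
    (hw : ∀ M i, 0 ≤ w M i) (h1 : 𝔼 M, |marg U w M - 1| ≤ ε)
    (h2 : 𝔼 M, 𝔼 i, w M i * ind {i | ¬ Inj (U i)} i ≤ ε) :
    𝔼 M, 𝔼 i, w M i * ind {i | ¬ (Inj (U i) ∧ NE η (res A M (U i)))} i ≤
      ε + (2 * γ + η0 + 4 * ε) / η := by
  have a0 := aS_nonneg (p := p)
  have a1 := aS_le_one (p := p)
  have hε0 : 0 ≤ ε := (Finset.expect_nonneg fun M _ => abs_nonneg (marg U w M - 1)).trans h1
  have k1 : ∀ M i, η * (w M i * ind {i | ¬ (Inj (U i) ∧ NE η (res A M (U i)))} i) ≤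
      (η + 1) * (w M i * ind {i | ¬ Inj (U i)} i) + (aS p + γ) * w M i -
        w M i * 𝔼 N : SymM p ν', ind A (M + cj (U i) N) := by
    intro M i
    have e : 𝔼 N : SymM p ν', ind A (M + cj (U i) N) = dens (res A M (U i)) := rfl
    rw [e]
    have hw' := hw M i
    have b : η * ind {i | ¬ (Inj (U i) ∧ NE η (res A M (U i)))} i ≤
        (η + 1) * ind {i | ¬ Inj (U i)} i + (aS p + γ) - dens (res A M (U i)) := by
      by_cases hi : Inj (U i)
      · have b1 := hUB _ (hA.1.res M hi)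
        rw [ind_of_not (A := {i | ¬ Inj (U i)}) (fun h => h hi)]
        by_cases hn : NE η (res A M (U i))
        · rw [ind_of_not (A := {i | ¬ (Inj (U i) ∧ NE η (res A M (U i)))}) fun h => h ⟨hi, hn⟩]
          linarith
        · have b2 : dens (res A M (U i)) < aS p - η :=
            not_le.1 fun h => hn ⟨hA.1.res M hi, h⟩
          rw [ind_of_mem (A := {i | ¬ (Inj (U i) ∧ NE η (res A M (U i)))}) fun h => hn h.2]
          linarith
      · rw [ind_of_mem (A := {i | ¬ Inj (U i)}) hi,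
          ind_of_mem (A := {i | ¬ (Inj (U i) ∧ NE η (res A M (U i)))}) fun h => hi h.1]
        linarith [dens_le_one (res A M (U i))]
    nlinarith [mul_le_mul_of_nonneg_left b hw']
  have k2 : η * (𝔼 M, 𝔼 i, w M i * ind {i | ¬ (Inj (U i) ∧ NE η (res A M (U i)))} i) ≤
      (η + 1) * (𝔼 M, 𝔼 i, w M i * ind {i | ¬ Inj (U i)} i) + (aS p + γ) * (𝔼 M, 𝔼 i, w M i) -
        𝔼 M, 𝔼 i, w M i * 𝔼 N : SymM p ν', ind A (M + cj (U i) N) := by
    rw [Finset.mul_expect, Finset.mul_expect, Finset.mul_expect, ← Finset.expect_add_distrib,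
      ← Finset.expect_sub_distrib]
    refine Finset.expect_le_expect fun M _ => ?_
    rw [Finset.mul_expect, Finset.mul_expect, Finset.mul_expect, ← Finset.expect_add_distrib,
      ← Finset.expect_sub_distrib]
    exact Finset.expect_le_expect fun i _ => k1 M i
  rw [marg_id_real, ← expect_marg U w] at k2
  have k3 : 𝔼 M, marg U w M ≤ 1 + ε := by
    have : 𝔼 M, marg U w M ≤ 𝔼 M : SymM p ν, (1 + |marg U w M - 1|) :=
      Finset.expect_le_expect fun M _ => by linarith [le_abs_self (marg U w M - 1)]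
    rw [Finset.expect_add_distrib, Fintype.expect_const] at this
    linarith
  have k4 : dens A - ε ≤ 𝔼 M, marg U w M * ind A M := by
    have : 𝔼 M : SymM p ν, (ind A M - |marg U w M - 1|) ≤ 𝔼 M, marg U w M * ind A M :=
      Finset.expect_le_expect fun M _ => by
        by_cases hM : M ∈ A
        · rw [ind_of_mem hM]
          linarith [neg_abs_le (marg U w M - 1)]
        · rw [ind_of_not hM]
          linarith [abs_nonneg (marg U w M - 1)]
    rw [Finset.expect_sub_distrib] at this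
    unfold dens
    linarith
  have k5 := mul_le_mul_of_nonneg_left k3 (add_nonneg a0 hγ)
  have k6 := mul_le_mul_of_nonneg_left h2 (by linarith : 0 ≤ η + 1)
  have k7 := hA.2
  rw [← sub_le_iff_le_add', le_div_iff₀ hη]
  nlinarith [mul_le_mul_of_nonneg_right a1 hε0, mul_le_mul_of_nonneg_left hε hγ]

end marg

/-- a weight of mass almost one and marginal at most `1 + ε` has marginal close to one -/
lemma close_of_le {α : Type} [Fintype α] [Nonempty α] (ρ : α → ℝ) {ε : ℝ} (hε : 0 ≤ ε)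
    (hε1 : ε ≤ 1) (h0 : ∀ x, 0 ≤ ρ x) (h1 : ∀ x, ρ x ≤ 1 + ε) (h2 : 1 - ε ≤ 𝔼 x, ρ x) :
    𝔼 x, |ρ x - 1| ≤ 3 * ε ∧ 𝔼 x, (ρ x - 1) ^ 2 ≤ 3 * ε := by
  have k1 : 𝔼 x, |ρ x - 1| ≤ 3 * ε := by
    have : 𝔼 x, |ρ x - 1| ≤ 𝔼 x, ((1 + 2 * ε) - ρ x) :=
      Finset.expect_le_expect fun x _ => abs_le.2 ⟨by linarith [h1 x], by linarith [h1 x]⟩
    rw [Finset.expect_sub_distrib, Fintype.expect_const] at this
    linarith
  refine ⟨k1, le_trans (Finset.expect_le_expect fun x _ => ?_) k1⟩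
  have b : |ρ x - 1| ≤ 1 := abs_le.2 ⟨by linarith [h0 x], by linarith [h1 x]⟩
  rw [← sq_abs]
  nlinarith [abs_nonneg (ρ x - 1)]

theorem SC {s : ℕ} (hC : Claim p s) (c0 : ℕ) (ε : ℝ) (hε : 0 < ε) :
    Ev p fun ν _ _ A => ∀ (ν' : Type) [Fintype ν'] [DecidableEq ν'] (U : Matrix ν ν' (ZMod p)),
      Inj U → Fintype.card ν ≤ Fintype.card ν' + c0 → ∀ G : SymM p ν → ℂ,
      (∀ M, Lev s fun N => G (M + cj U N)) → ‖𝔼 M, fA A M * G M‖ ≤ ε * √(en G) := by
  obtain ⟨η, hη, n1, h1⟩ := hC (ε / 2) (half_pos hε)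
  have hγ : 0 < ε ^ 2 * η / 12 := by positivity
  obtain ⟨J0, hJ⟩ := UB (p := p) _ hγ
  refine ⟨_, hγ, max n1 J0 + c0, fun ν _ _ hn A hA ν' _ _ U hU hc G hG => ?_⟩
  have hn1 : n1 ≤ Fintype.card ν' := by omega
  have hn2 : J0 ≤ Fintype.card ν' := by omega
  let B : Set (SymM p ν) := {M | ¬ NE η (res A M U)}
  have k1 : 𝔼 M, ind B M ^ 2 ≤ (ε / 2) ^ 2 := by
    have m := MK (fun _ : Unit => U) (fun _ _ => (1 : ℝ)) (ε := 0) hγ.le hη zero_le_one hA
      (hJ ν' hn2) (fun _ _ => zero_le_one) (by simp [marg])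
      (by simp [ind_of_not (A := {_i : Unit | ¬ Inj U}) (x := ()) fun h => h hU])
    have e : (0 : ℝ) + (2 * (ε ^ 2 * η / 12) + ε ^ 2 * η / 12 + 4 * 0) / η = (ε / 2) ^ 2 := by
      field_simp
      ring
    rw [e] at m
    refine le_trans (Finset.expect_le_expect fun M _ => ?_) m
    refine le_trans ?_ (Finset.expect_le_expect (f := fun _ : Unit => ind B M ^ 2) fun i _ => ?_)
    · rw [Fintype.expect_const]
    · by_cases hM : M ∈ B
      · rw [ind_of_mem hM,
          ind_of_mem (A := {_i : Unit | ¬ (Inj U ∧ NE η (res A M U))}) fun h => hM h.2]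
        norm_num
      · rw [ind_of_not hM, one_mul, zero_pow two_ne_zero]
        exact ind_nonneg _ _
  have k2 : ∀ M, ‖𝔼 N : SymM p ν', fA A (M + cj U N) * G (M + cj U N)‖ ≤
      ε / 2 * (1 * √(en fun N => G (M + cj U N))) + ind B M * √(en fun N => G (M + cj U N)) := by
    intro M
    have s0 := Real.sqrt_nonneg (en fun N => G (M + cj U N))
    by_cases hM : M ∈ B
    · rw [ind_of_mem hM]
      have b1 := norm_expect_mul_le (fun N => fA A (M + cj U N)) fun N => G (M + cj U N)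
      have b2 : √(en fun N : SymM p ν' => fA A (M + cj U N)) ≤ 1 :=
        Real.sqrt_le_one.2 (Finset.expect_le univ_nonempty fun N _ =>
          pow_le_one₀ (norm_nonneg _) (norm_fA_le A _))
      nlinarith [mul_le_mul_of_nonneg_right b2 s0, mul_nonneg hε.le s0]
    · rw [ind_of_not hM, zero_mul, add_zero, one_mul]
      exact h1 ν' hn1 _ (not_not.1 hM) _ (hG M)
  have k3 : 𝔼 M, √(en fun N : SymM p ν' => G (M + cj U N)) ^ 2 = en G := by
    simp only [Real.sq_sqrt (en_nonneg _)]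
    exact expect_tile_real U fun M => ‖G M‖ ^ 2
  have k4 := expect_mul_le_sqrt (fun _ : SymM p ν => (1 : ℝ))
    fun M => √(en fun N : SymM p ν' => G (M + cj U N))
  have k5 := expect_mul_le_sqrt (ind B) fun M => √(en fun N : SymM p ν' => G (M + cj U N))
  rw [k3] at k4 k5
  rw [Fintype.expect_const, one_pow, Real.sqrt_one, one_mul] at k4
  have k6 : √(𝔼 M, ind B M ^ 2) ≤ ε / 2 := Real.sqrt_le_iff.2 ⟨by positivity, k1⟩
  have s1 := Real.sqrt_nonneg (en G)
  rw [← expect_tile U fun M => fA A M * G M]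
  refine (RCLike.norm_expect_le (K := ℂ)).trans ((Finset.expect_le_expect fun M _ => k2 M).trans ?_)
  rw [Finset.expect_add_distrib, ← Finset.mul_expect]
  nlinarith [mul_le_mul_of_nonneg_right k6 s1, mul_le_mul_of_nonneg_left k4 (half_pos hε).le]

end Pool.Agent.Work.MP_4523ee_co.Fp
end

-- merged part: Pool.Agent.Work.MP_4523ee_co.Fp.TrB
section
/-!
The transport TR (paper section 6): proof.
-/

set_option autoImplicit false
set_option linter.unusedSectionVars false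

namespace Pool.Agent.Work.MP_4523ee_co.Fp

open Finset Matrix
open scoped BigOperators ComplexConjugate

variable {p : ℕ} [Fact p.Prime]

variable {ν ν' : Type} [Fintype ν] [DecidableEq ν] [Fintype ν'] [DecidableEq ν']

/-- a matrix whose transpose is onto with prescribed kernel -/
lemma trB_exists_U (S1 : Submodule (ZMod p) (ν → ZMod p)) :
    ∃ (m : ℕ) (U R : Matrix ν (Fin m) (ZMod p)),
      m + Module.finrank (ZMod p) S1 = Fintype.card ν ∧ Uᵀ * R = 1 ∧
      ∀ y, Uᵀ *ᵥ y = 0 ↔ y ∈ S1 := by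
  let e := (Module.finBasis (ZMod p) ((ν → ZMod p) ⧸ S1)).equivFun
  let π : (ν → ZMod p) →ₗ[ZMod p] (Fin _ → ZMod p) := e.toLinearMap ∘ₗ S1.mkQ
  have hπ : LinearMap.range π = ⊤ :=
    LinearMap.range_eq_top.2 (e.surjective.comp S1.mkQ_surjective)
  obtain ⟨σ, hσ⟩ := π.exists_rightInverse_of_surjective hπ
  refine ⟨_, (LinearMap.toMatrix' π)ᵀ, LinearMap.toMatrix' σ, ?_, ?_, fun y => ?_⟩
  · rw [Submodule.finrank_quotient_add_finrank, Module.finrank_fintype_fun_eq_card]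
  · rw [transpose_transpose, ← LinearMap.toMatrix'_comp, hσ, LinearMap.toMatrix'_id]
  · rw [transpose_transpose, LinearMap.toMatrix'_mulVec]
    show e (S1.mkQ y) = 0 ↔ _
    rw [e.map_eq_zero_iff, Submodule.mkQ_apply, Submodule.Quotient.mk_eq_zero]

lemma trB_inj {U R : Matrix ν ν' (ZMod p)} (h : Uᵀ * R = 1) : Inj U := by
  have h1 : Rᵀ * U = 1 := by
    have := congrArg transpose h
    rwa [transpose_mul, transpose_transpose, transpose_one] at this
  intro x y hxy
  have h2 : Rᵀ *ᵥ (U *ᵥ x) = Rᵀ *ᵥ (U *ᵥ y) := congrArg _ hxy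
  rwa [mulVec_mulVec, mulVec_mulVec, h1, one_mulVec, one_mulVec] at h2

lemma trB_surj {U R : Matrix ν ν' (ZMod p)} (h : Uᵀ * R = 1) (w : ν' → ZMod p) :
    Uᵀ *ᵥ (R *ᵥ w) = w := by
  rw [mulVec_mulVec, h, one_mulVec]

lemma trB_cj_inj {U R : Matrix ν ν' (ZMod p)} (h : Uᵀ * R = 1) :
    Function.Injective (cj U : SymM p ν' → SymM p ν) := by
  have h1 : Rᵀ * U = 1 := by
    have := congrArg transpose h
    rwa [transpose_mul, transpose_transpose, transpose_one] at this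
  have key : ∀ N : SymM p ν', Rᵀ * (cj U N).1 * R = N.1 := fun N => by
    show Rᵀ * (U * N.1 * Uᵀ) * R = N.1
    rw [Matrix.mul_assoc, Matrix.mul_assoc, h, Matrix.mul_one, ← Matrix.mul_assoc, h1,
      Matrix.one_mul]
  intro N N' hN
  apply Subtype.ext
  rw [← key N, ← key N', hN]

lemma trB_cj_mulVec (U : Matrix ν ν' (ZMod p)) (N : SymM p ν') (y : ν → ZMod p) :
    (cj U N).1 *ᵥ y = U *ᵥ (N.1 *ᵥ (Uᵀ *ᵥ y)) := by
  show (U * N.1 * Uᵀ) *ᵥ y = _
  rw [mulVec_mulVec, mulVec_mulVec]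

/-- a symmetric matrix that kills the kernel of `Uᵀ` has the form `U N Uᵀ` -/
lemma trB_cj_surj {U R : Matrix ν ν' (ZMod p)} (h : Uᵀ * R = 1) (D : SymM p ν)
    (hD : ∀ y, Uᵀ *ᵥ y = 0 → D.1 *ᵥ y = 0) : ∃ N : SymM p ν', cj U N = D := by
  have h1 : D.1 * (R * Uᵀ) = D.1 := by
    apply Matrix.toLin'.injective
    apply LinearMap.ext
    intro v
    have h2 := hD (v - R *ᵥ (Uᵀ *ᵥ v)) (by rw [mulVec_sub, trB_surj h, sub_self])
    rw [mulVec_sub, sub_eq_zero, mulVec_mulVec, mulVec_mulVec] at h2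
    rw [toLin'_apply, toLin'_apply, h2, Matrix.mul_assoc]
  have h2 : U * Rᵀ * D.1 = D.1 := by
    have := congrArg transpose h1
    rwa [transpose_mul, transpose_mul, transpose_transpose, SymM_T] at this
  refine ⟨cj Rᵀ D, Subtype.ext ?_⟩
  show U * (Rᵀ * D.1 * Rᵀᵀ) * Uᵀ = D.1
  rw [transpose_transpose]
  calc U * (Rᵀ * D.1 * R) * Uᵀ = U * Rᵀ * D.1 * (R * Uᵀ) := by
        simp only [Matrix.mul_assoc]
    _ = D.1 := by rw [h2, h1]

section avg
variable {α β : Type} [Fintype α] [Fintype β]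

lemma trB_sum {R : Type} [Field R] [Algebra ℝ R] {C : Set α} {e : β → α}
    (he : Function.Injective e) (hC : ∀ a, a ∈ C ↔ ∃ b, e b = a) (g : α → R) :
    ∑ a, algebraMap ℝ R (ind C a) * g a = ∑ b, g (e b) := by
  classical
  rw [← Finset.sum_image (s := univ) (g := e) (f := g) fun _ _ _ _ h => he h]
  refine (Finset.sum_subset (subset_univ (image e univ)) ?_).symm.trans ?_
  · intro a _ ha
    have : a ∉ C := fun h => by
      obtain ⟨b, hb⟩ := (hC a).1 h
      exact ha (mem_image.2 ⟨b, mem_univ _, hb⟩)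
    simp only [ind, if_neg this, map_zero, zero_mul]
  · refine Finset.sum_congr rfl fun a ha => ?_
    obtain ⟨b, -, hb⟩ := mem_image.1 ha
    simp only [ind, if_pos ((hC a).2 ⟨b, hb⟩), map_one, one_mul]

lemma trB_dens {C : Set α} {e : β → α}
    (he : Function.Injective e) (hC : ∀ a, a ∈ C ↔ ∃ b, e b = a) :
    dens C = (Fintype.card β : ℝ) / Fintype.card α := by
  have h := trB_sum (R := ℝ) he hC fun _ => 1
  simp only [Algebra.algebraMap_self, RingHom.id_apply, mul_one, sum_const, card_univ,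
    nsmul_eq_mul] at h
  rw [dens, expect_eq_sum_div_card, h, card_univ]

lemma trB_real [Nonempty β] {C : Set α} {e : β → α}
    (he : Function.Injective e) (hC : ∀ a, a ∈ C ↔ ∃ b, e b = a) (g : α → ℝ) :
    𝔼 a, ind C a * g a = dens C * 𝔼 b, g (e b) := by
  have h := trB_sum (R := ℝ) he hC g
  simp only [Algebra.algebraMap_self, RingHom.id_apply] at h
  have hb : (Fintype.card β : ℝ) ≠ 0 := Nat.cast_ne_zero.2 Fintype.card_ne_zero
  rw [trB_dens he hC, expect_eq_sum_div_card, expect_eq_sum_div_card, h, card_univ, card_univ,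
    div_mul_div_comm, mul_comm (Fintype.card α : ℝ), mul_div_mul_left _ _ hb]

lemma trB_cx [Nonempty β] {C : Set α} {e : β → α}
    (he : Function.Injective e) (hC : ∀ a, a ∈ C ↔ ∃ b, e b = a) (g : α → ℂ) :
    𝔼 a, (ind C a : ℂ) * g a = (dens C : ℂ) * 𝔼 b, g (e b) := by
  have h : ∑ a, (ind C a : ℂ) * g a = ∑ b, g (e b) := trB_sum (R := ℂ) he hC g
  have hb : (Fintype.card β : ℂ) ≠ 0 := Nat.cast_ne_zero.2 Fintype.card_ne_zero
  rw [trB_dens he hC, expect_eq_sum_div_card, expect_eq_sum_div_card, h, card_univ, card_univ,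
    Complex.ofReal_div, Complex.ofReal_natCast, Complex.ofReal_natCast,
    div_mul_div_comm, mul_comm (Fintype.card α : ℂ), mul_div_mul_left _ _ hb]

/-- density of a subset of the tile -/
lemma trB_sub [Nonempty β] {C : Set α} {e : β → α}
    (he : Function.Injective e) (hC : ∀ a, a ∈ C ↔ ∃ b, e b = a) {B : Set α} (hB : B ⊆ C)
    {B' : Set β} (hB' : ∀ b, e b ∈ B ↔ b ∈ B') : dens B = dens C * dens B' := by
  have h := trB_real he hC (ind B)
  have h1 : ∀ a, ind C a * ind B a = ind B a := fun a => by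
    by_cases ha : a ∈ B
    · simp only [ind, if_pos ha, if_pos (hB ha), mul_one]
    · simp only [ind, if_neg ha, mul_zero]
  have h2 : ∀ b, ind B (e b) = ind B' b := fun b => by
    by_cases hb : b ∈ B'
    · simp only [ind, if_pos hb, if_pos ((hB' b).2 hb)]
    · simp only [ind, if_neg hb, if_neg fun h => hb ((hB' b).1 h)]
  simp only [h1, h2] at h
  exact h

end avg

/-- `(y, w) ↦ (Uᵀ y, w)` -/
def trB_A (U : Matrix ν ν' (ZMod p)) :
    ((ν → ZMod p) × (ν' → ZMod p)) →ₗ[ZMod p] ((ν' → ZMod p) × (ν' → ZMod p)) :=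
  LinearMap.prodMap (Matrix.mulVecLin Uᵀ) LinearMap.id

/-- `(y, w) ↦ (y, M y + U w)` -/
def trB_B (M : SymM p ν) (U : Matrix ν ν' (ZMod p)) :
    ((ν → ZMod p) × (ν' → ZMod p)) →ₗ[ZMod p] ((ν → ZMod p) × (ν → ZMod p)) :=
  LinearMap.prod (LinearMap.fst _ _ _)
    (LinearMap.coprod (Matrix.mulVecLin M.1) (Matrix.mulVecLin U))

lemma trB_A_apply (U : Matrix ν ν' (ZMod p)) (x : (ν → ZMod p) × (ν' → ZMod p)) :
    trB_A U x = (Uᵀ *ᵥ x.1, x.2) := rfl

lemma trB_B_apply (M : SymM p ν) (U : Matrix ν ν' (ZMod p))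
    (x : (ν → ZMod p) × (ν' → ZMod p)) : trB_B M U x = (x.1, M.1 *ᵥ x.1 + U *ᵥ x.2) := rfl

lemma trB_A_surj {U R : Matrix ν ν' (ZMod p)} (h : Uᵀ * R = 1) :
    Function.Surjective (trB_A U) := fun z =>
  ⟨(R *ᵥ z.1, z.2), by rw [trB_A_apply, trB_surj h]⟩

lemma trB_B_inj (M : SymM p ν) {U : Matrix ν ν' (ZMod p)} (h : Inj U) :
    Function.Injective (trB_B M U) := by
  intro x y hxy
  rw [trB_B_apply, trB_B_apply, Prod.mk.injEq] at hxy
  obtain ⟨h1, h2⟩ := hxy
  rw [h1, add_right_inj] at h2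
  exact Prod.ext h1 (h h2)

lemma trB_finrank_comap {K E G : Type} [Field K] [AddCommGroup E] [Module K E] [AddCommGroup G]
    [Module K G] [FiniteDimensional K E] {f : E →ₗ[K] G} (hf : Function.Surjective f)
    (Z : Submodule K G) : Module.finrank K (Z.comap f) =
      Module.finrank K Z + Module.finrank K ((⊥ : Submodule K G).comap f) := by
  have h1 := (f.domRestrict (Z.comap f)).finrank_range_add_finrank_ker
  rw [LinearMap.range_domRestrict, Submodule.map_comap_eq_of_surjective hf,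
    LinearMap.ker_domRestrict] at h1
  have h2 : LinearMap.ker f ≤ Z.comap f := LinearMap.ker_le_comap f
  rw [← h1, (Submodule.comapSubtypeEquivOfLe h2).finrank_eq, Submodule.comap_bot]

theorem trB_main {S : Submodule (ZMod p) ((ν → ZMod p) × (ν → ZMod p))} (hS : (CY S).Nonempty) :
    ∃ (m : ℕ) (M₀ : SymM p ν) (U : Matrix ν (Fin m) (ZMod p))
      (Φ : Submodule (ZMod p) ((Fin m → ZMod p) × (Fin m → ZMod p)) →
        Submodule (ZMod p) ((ν → ZMod p) × (ν → ZMod p))),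
      m + Module.finrank (ZMod p) S = Fintype.card ν ∧ Inj U ∧ (∀ q ∈ S, Uᵀ *ᵥ q.1 = 0) ∧
      (∀ g : SymM p ν → ℂ, 𝔼 M, (ind (CY S) M : ℂ) * g M =
        (dens (CY S) : ℂ) * 𝔼 N : SymM p (Fin m), g (M₀ + cj U N)) ∧
      (∀ g : SymM p ν → ℝ, 𝔼 M, ind (CY S) M * g M =
        dens (CY S) * 𝔼 N : SymM p (Fin m), g (M₀ + cj U N)) ∧
      (∀ Z Z', Φ Z ≤ Φ Z' ↔ Z ≤ Z') ∧ Φ ⊥ = S ∧
      (∀ Z, Module.finrank (ZMod p) (Φ Z) =
        Module.finrank (ZMod p) Z + Module.finrank (ZMod p) S) ∧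
      (∀ Z N, M₀ + cj U N ∈ CY (Φ Z) ↔ N ∈ CY Z) ∧
      (∀ Y, S ≤ Y → (CY Y).Nonempty → ∃ Z, Φ Z = Y) ∧
      (∀ (η : ℝ) (A : Set (SymM p ν)) Z, Dfc η A (Φ Z) ↔ Dfc η (res A M₀ U) Z) ∧
      (∀ (η : ℝ) (A : Set (SymM p ν)), Ind A → ¬ Dfc η A S → NE η (res A M₀ U)) := by
  obtain ⟨M₀, hM₀⟩ := hS
  obtain ⟨m, U, R, hm, hUR, hker⟩ := trB_exists_U (S.map (LinearMap.fst (ZMod p) _ _))
  have hU : Inj U := trB_inj hUR
  have hA := trB_A_surj hUR
  have hB := trB_B_inj M₀ hU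
  have hSU : ∀ q ∈ S, Uᵀ *ᵥ q.1 = 0 := fun q hq => (hker _).2 ⟨q, hq, rfl⟩
  have hbot : ((⊥ : Submodule (ZMod p) _).comap (trB_A U)).map (trB_B M₀ U) = S := by
    ext q
    constructor
    · rintro ⟨x, hx, rfl⟩
      have hx' : (Uᵀ *ᵥ x.1, x.2) = 0 := (Submodule.mem_bot (ZMod p)).1 hx
      obtain ⟨h1, h2⟩ := Prod.mk_eq_zero.1 hx'
      obtain ⟨q, hq, hq1⟩ := (hker _).1 h1
      have hq1' : q.1 = x.1 := hq1
      rw [trB_B_apply, h2, mulVec_zero, add_zero, ← hq1', hM₀ q hq]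
      exact hq
    · intro hq
      refine ⟨(q.1, 0), ?_, ?_⟩
      · show trB_A U (q.1, 0) ∈ (⊥ : Submodule (ZMod p) _)
        rw [trB_A_apply, Submodule.mem_bot, hSU q hq]
        rfl
      · rw [trB_B_apply, mulVec_zero, add_zero, hM₀ q hq]
  have hfr : ∀ W : Submodule (ZMod p) ((ν → ZMod p) × (Fin m → ZMod p)),
      Module.finrank (ZMod p) (W.map (trB_B M₀ U)) = Module.finrank (ZMod p) W := fun W =>
    (Submodule.equivMapOfInjective _ hB W).finrank_eq.symm
  have hS1 : Module.finrank (ZMod p) (S.map (LinearMap.fst (ZMod p) _ _)) =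
      Module.finrank (ZMod p) S := by
    have h1 := ((LinearMap.fst (ZMod p) (ν → ZMod p) (ν → ZMod p)).domRestrict
      S).finrank_range_add_finrank_ker
    have h2 : LinearMap.ker ((LinearMap.fst (ZMod p) (ν → ZMod p) (ν → ZMod p)).domRestrict S) =
        ⊥ := by
      rw [LinearMap.ker_eq_bot']
      intro q hq
      have hq1 : q.1.1 = 0 := hq
      have hq2 := hM₀ q.1 q.2
      rw [hq1, mulVec_zero] at hq2
      exact Subtype.ext (Prod.ext hq1 hq2.symm)
    rw [LinearMap.range_domRestrict, h2, finrank_bot, add_zero] at h1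
    exact h1
  have hmem : ∀ (Z : Submodule (ZMod p) ((Fin m → ZMod p) × (Fin m → ZMod p)))
      (N : SymM p (Fin m)),
      M₀ + cj U N ∈ CY ((Z.comap (trB_A U)).map (trB_B M₀ U)) ↔ N ∈ CY Z := by
    intro Z N
    constructor
    · intro h z hz
      obtain ⟨x, rfl⟩ := hA z
      have h1 := h _ ⟨x, hz, rfl⟩
      rw [trB_B_apply, Submodule.coe_add, add_mulVec, add_right_inj, trB_cj_mulVec] at h1
      exact hU h1
    · rintro h _ ⟨x, hx, rfl⟩
      have h1 : N.1 *ᵥ (Uᵀ *ᵥ x.1) = x.2 := h _ hx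
      rw [trB_B_apply, Submodule.coe_add, add_mulVec, trB_cj_mulVec, h1]
  have he : Function.Injective fun N : SymM p (Fin m) => M₀ + cj U N := fun N N' h =>
    trB_cj_inj hUR (add_left_cancel h)
  have hC : ∀ M, M ∈ CY S ↔ ∃ N : SymM p (Fin m), M₀ + cj U N = M := by
    intro M
    constructor
    · intro hM
      obtain ⟨N, hN⟩ := trB_cj_surj hUR (M - M₀) fun y hy => by
        obtain ⟨q, hq, rfl⟩ := (hker _).1 hy
        show (M.1 - M₀.1) *ᵥ q.1 = 0
        rw [sub_mulVec, hM q hq, hM₀ q hq, sub_self]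
      exact ⟨N, by rw [hN, add_sub_cancel]⟩
    · rintro ⟨N, rfl⟩ q hq
      rw [Submodule.coe_add, add_mulVec, trB_cj_mulVec, hSU q hq, mulVec_zero, mulVec_zero,
        add_zero, hM₀ q hq]
  have hle : ∀ Z Z' : Submodule (ZMod p) ((Fin m → ZMod p) × (Fin m → ZMod p)),
      (Z.comap (trB_A U)).map (trB_B M₀ U) ≤ (Z'.comap (trB_A U)).map (trB_B M₀ U) ↔ Z ≤ Z' :=
    fun Z Z' => (Submodule.map_le_map_iff_of_injective hB _ _).trans
      (Submodule.comap_le_comap_iff_of_surjective hA)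
  have hsub : ∀ Z : Submodule (ZMod p) ((Fin m → ZMod p) × (Fin m → ZMod p)),
      CY ((Z.comap (trB_A U)).map (trB_B M₀ U)) ⊆ CY S := fun Z M hM q hq =>
    hM q ((hle ⊥ Z).2 bot_le (hbot.symm ▸ hq))
  have hpos : 0 < dens (CY S) := by
    rw [trB_dens he hC]
    exact div_pos (Nat.cast_pos.2 Fintype.card_pos) (Nat.cast_pos.2 Fintype.card_pos)
  have hD : ∀ (η : ℝ) (A : Set (SymM p ν))
      (Z : Submodule (ZMod p) ((Fin m → ZMod p) × (Fin m → ZMod p))),
      Dfc η A ((Z.comap (trB_A U)).map (trB_B M₀ U)) ↔ Dfc η (res A M₀ U) Z := by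
    intro η A Z
    rw [Dfc, Dfc, trB_sub he hC (hsub Z) (hmem Z),
      trB_sub he hC (B := A ∩ CY ((Z.comap (trB_A U)).map (trB_B M₀ U)))
        (B' := res A M₀ U ∩ CY Z) (Set.inter_subset_right.trans (hsub Z))
        fun N => and_congr Iff.rfl (hmem Z N), mul_left_comm]
    exact mul_lt_mul_iff_right₀ hpos
  refine ⟨m, M₀, U, fun Z => (Z.comap (trB_A U)).map (trB_B M₀ U), hS1 ▸ hm, hU, hSU,
    trB_cx he hC, trB_real he hC, hle, hbot, fun Z => ?_, hmem, fun Y hY hne => ?_, hD,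
    fun η A hA' hn => ⟨hA'.res M₀ hU, ?_⟩⟩
  · show Module.finrank (ZMod p) ((Z.comap (trB_A U)).map (trB_B M₀ U)) = _
    rw [hfr, trB_finrank_comap hA, ← hfr ((⊥ : Submodule (ZMod p) _).comap (trB_A U)), hbot]
  · obtain ⟨M, hM⟩ := hne
    obtain ⟨N, rfl⟩ := (hC M).1 fun q hq => hM q (hY hq)
    refine ⟨(Y.comap (trB_B M₀ U)).map (trB_A U), ?_⟩
    show (((Y.comap (trB_B M₀ U)).map (trB_A U)).comap (trB_A U)).map (trB_B M₀ U) = Y
    have h1 : LinearMap.ker (trB_A U) ≤ Y.comap (trB_B M₀ U) := by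
      rw [← Submodule.map_le_iff_le_comap, ← Submodule.comap_bot, hbot]
      exact hY
    rw [Submodule.comap_map_eq, sup_eq_left.2 h1, Submodule.map_comap_eq, inf_eq_right]
    intro q hq
    have h2 := hM q hq
    rw [Submodule.coe_add, add_mulVec, trB_cj_mulVec] at h2
    exact ⟨(q.1, N.1 *ᵥ (Uᵀ *ᵥ q.1)), by rw [trB_B_apply, h2]⟩
  · have h1 := mt (hD η A ⊥).2 (hbot.symm ▸ hn)
    have h2 : CY (⊥ : Submodule (ZMod p) ((Fin m → ZMod p) × (Fin m → ZMod p))) = Set.univ := by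
      refine Set.eq_univ_of_forall fun N q hq => ?_
      rw [(Submodule.mem_bot (ZMod p)).1 hq, Prod.fst_zero, Prod.snd_zero, mulVec_zero]
    have h3 : dens (Set.univ : Set (SymM p (Fin m))) = 1 := by
      simp only [dens, ind, Set.mem_univ, if_true]
      exact expect_const univ_nonempty _
    rw [Dfc, h2, Set.inter_univ, h3, mul_one, not_lt] at h1
    exact h1

end Pool.Agent.Work.MP_4523ee_co.Fp
end

-- merged part: Pool.Agent.Work.MP_4523ee_co.Fp.TR
section
/-!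
The tiles CY: probabilities and the transport TR (paper section 6).
-/

set_option autoImplicit false
set_option linter.unusedSectionVars false

namespace Pool.Agent.Work.MP_4523ee_co.Fp

open Finset Matrix
open scoped BigOperators ComplexConjugate

variable {p : ℕ} [Fact p.Prime]

variable {ν : Type} [Fintype ν] [DecidableEq ν]

/-- subspaces of `V × V` -/
abbrev SV (p : ℕ) [Fact p.Prime] (ν : Type) :=
  Submodule (ZMod p) ((ν → ZMod p) × (ν → ZMod p))

lemma CY_bot : CY (⊥ : SV p ν) = Set.univ := by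
  refine Set.eq_univ_of_forall fun M q hq => ?_
  rw [(Submodule.mem_bot _).1 hq]
  exact mulVec_zero _

lemma CY_anti {Y Y' : SV p ν} (h : Y ≤ Y') : CY Y' ⊆ CY Y := fun _ hM q hq => hM q (h hq)

lemma CY_sup (Y Y' : SV p ν) : CY (Y ⊔ Y') = CY Y ∩ CY Y' := by
  refine Set.Subset.antisymm
    (Set.subset_inter (CY_anti le_sup_left) (CY_anti le_sup_right)) fun M hM q hq => ?_
  obtain ⟨a, ha, b, hb, rfl⟩ := Submodule.mem_sup.1 hq
  rw [Prod.fst_add, Prod.snd_add, mulVec_add, hM.1 a ha, hM.2 b hb]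

lemma CY_fst {Y : SV p ν} (h : (CY Y).Nonempty) {q : (ν → ZMod p) × (ν → ZMod p)} (hq : q ∈ Y)
    (h0 : q.1 = 0) : q = 0 := by
  obtain ⟨M, hM⟩ := h
  have := hM q hq
  rw [h0, mulVec_zero] at this
  exact Prod.ext h0 this.symm

lemma CY_symm {Y : SV p ν} (h : (CY Y).Nonempty) {q q' : (ν → ZMod p) × (ν → ZMod p)}
    (hq : q ∈ Y) (hq' : q' ∈ Y) : q.1 ⬝ᵥ q'.2 = q'.1 ⬝ᵥ q.2 := by
  obtain ⟨M, hM⟩ := h
  rw [← hM q hq, ← hM q' hq', dotProduct_mulVec, ← mulVec_transpose, SymM_T, dotProduct_comm]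

lemma finrank_le_of_CY {Y : SV p ν} (h : (CY Y).Nonempty) :
    Module.finrank (ZMod p) Y ≤ Fintype.card ν := by
  have hi : Function.Injective ((LinearMap.fst (ZMod p) _ _).comp Y.subtype) := by
    rw [injective_iff_map_eq_zero]
    exact fun q hq => Subtype.ext (CY_fst h q.2 hq)
  simpa using LinearMap.finrank_le_finrank_of_injective hi

/-- the density of a nonempty tile is `p ^ (-k)` with `n r - r ^ 2 ≤ k ≤ n r` -/
lemma trA_dens {Y : SV p ν} (h : (CY Y).Nonempty) : ∃ k : ℕ, dens (CY Y) = ((p : ℝ) ^ k)⁻¹ ∧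
    k ≤ Fintype.card ν * Module.finrank (ZMod p) Y ∧
    Fintype.card ν * Module.finrank (ZMod p) Y ≤ k + Module.finrank (ZMod p) Y ^ 2 := by
  classical
  set r := Module.finrank (ZMod p) Y with hr
  let b := Module.finBasis (ZMod p) Y
  let K : Matrix ν (Fin r) (ZMod p) := Matrix.of fun i a => (b a).1.1 i
  let Z : Matrix ν (Fin r) (ZMod p) := Matrix.of fun i a => (b a).1.2 i
  have e1 : ∀ c : Fin r → ZMod p, K *ᵥ c = (∑ a, c a • b a : Y).1.1 := by
    intro c
    funext i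
    simp [K, mulVec, dotProduct, Prod.fst_sum, Finset.sum_apply, mul_comm]
  have e2 : ∀ c : Fin r → ZMod p, Z *ᵥ c = (∑ a, c a • b a : Y).1.2 := by
    intro c
    funext i
    simp [Z, mulVec, dotProduct, Prod.snd_sum, Finset.sum_apply, mul_comm]
  let f : SymM p ν →ₗ[ZMod p] Matrix ν (Fin r) (ZMod p) :=
    { toFun := fun M => M.1 * K
      map_add' := fun M N => Matrix.add_mul _ _ _
      map_smul' := fun c M => Matrix.smul_mul _ _ _ }
  have hC : ∀ M, M ∈ CY Y ↔ f M = Z := by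
    intro M
    constructor
    · intro hM
      ext i a
      have := congrFun (hM (b a).1 (b a).2) i
      simpa [f, K, Z, Matrix.mul_apply, mulVec, dotProduct] using this
    · intro hM q hq
      have hs : (∑ a, b.repr ⟨q, hq⟩ a • b a : Y).1 = q := by rw [b.sum_repr]
      have hM' : M.1 * K = Z := hM
      rw [← hs, ← e1, ← e2, mulVec_mulVec, hM']
  obtain ⟨M0, hM0⟩ := h
  have hK : LinearMap.ker (Matrix.toLin' K) = ⊥ := by
    rw [LinearMap.ker_eq_bot']
    intro c hc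
    rw [Matrix.toLin'_apply, e1] at hc
    have h0 : (∑ a, c a • b a : Y) = 0 := Subtype.ext (CY_fst ⟨M0, hM0⟩ (Subtype.prop _) hc)
    funext a
    exact Fintype.linearIndependent_iff.1 b.linearIndependent c h0 a
  obtain ⟨g, hg⟩ := LinearMap.exists_leftInverse_of_injective _ hK
  have hL : LinearMap.toMatrix' g * K = 1 := by
    have := congrArg LinearMap.toMatrix' hg
    rwa [LinearMap.toMatrix'_comp, LinearMap.toMatrix'_toLin', LinearMap.toMatrix'_id] at this
  let G : Matrix ν (Fin r) (ZMod p) →ₗ[ZMod p] Matrix (Fin r) (Fin r) (ZMod p) :=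
    { toFun := fun W => Wᵀ * K
      map_add' := fun M N => by rw [transpose_add, Matrix.add_mul]
      map_smul' := fun c M => by rw [transpose_smul, Matrix.smul_mul]; rfl }
  have hle : LinearMap.ker G ≤ LinearMap.range f := by
    intro W hW
    have hW' : Wᵀ * K = 0 := hW
    refine ⟨⟨W * LinearMap.toMatrix' g + (W * LinearMap.toMatrix' g)ᵀ, ?_⟩, ?_⟩
    · show (_ + _ : Matrix ν ν (ZMod p))ᵀ = _
      rw [transpose_add, transpose_transpose, add_comm]
    · show (_ + _ : Matrix ν ν (ZMod p)) * K = W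
      rw [Matrix.add_mul, Matrix.mul_assoc, hL, Matrix.mul_one, transpose_mul, Matrix.mul_assoc,
        hW', Matrix.mul_zero, add_zero]
  have d1 : Module.finrank (ZMod p) (Matrix ν (Fin r) (ZMod p)) = Fintype.card ν * r := by
    simp [Module.finrank_matrix]
  have d2 : Module.finrank (ZMod p) (Matrix (Fin r) (Fin r) (ZMod p)) = r ^ 2 := by
    simp [Module.finrank_matrix, sq]
  refine ⟨Module.finrank (ZMod p) (LinearMap.range f), ?_, ?_, ?_⟩
  · have hs : CY Y = {M | f.rangeRestrict M = ⟨Z, M0, (hC M0).1 hM0⟩} := by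
      ext M
      rw [hC, Set.mem_ofPred_eq, Subtype.ext_iff]
      rfl
    rw [hs, dens_fibre_surj _ f.surjective_rangeRestrict, card_eq_pow (p := p)]
    norm_cast
  · exact d1 ▸ Submodule.finrank_le _
  · have a1 := LinearMap.finrank_range_add_finrank_ker G
    have a2 := Submodule.finrank_le (LinearMap.range G)
    have a3 := Submodule.finrank_mono hle
    omega

/-- a fibre of the linear map `M ↦ (M y_a)_a` -/
lemma dens_CY_ge {Y : SV p ν} (h : (CY Y).Nonempty) :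
    (((p : ℝ) ^ Fintype.card ν) ^ Module.finrank (ZMod p) Y)⁻¹ ≤ dens (CY Y) := by
  obtain ⟨k, h1, h2, -⟩ := trA_dens h
  have hp : (1 : ℝ) ≤ p := by exact_mod_cast (Fact.out : p.Prime).one_le
  rw [h1, ← pow_mul]
  exact inv_anti₀ (by positivity) (pow_le_pow_right₀ hp h2)

lemma dens_CY_le (hp : p ≠ 2) {Y : SV p ν} (h : (CY Y).Nonempty) :
    dens (CY Y) ≤ (p : ℝ) ^ (Module.finrank (ZMod p) Y ^ 2) *
      (((p : ℝ) ^ Fintype.card ν) ^ Module.finrank (ZMod p) Y)⁻¹ := by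
  obtain ⟨k, h1, -, h3⟩ := trA_dens h
  have hp : (1 : ℝ) ≤ p := by exact_mod_cast (Fact.out : p.Prime).one_le
  rw [h1, ← pow_mul, ← div_eq_mul_inv, le_div_iff₀ (by positivity), inv_mul_le_iff₀ (by positivity),
    ← pow_add]
  exact pow_le_pow_right₀ hp h3

lemma Dfc.nonempty {η : ℝ} {A : Set (SymM p ν)} {Y : SV p ν} (h : Dfc η A Y) :
    (CY Y).Nonempty := by
  by_contra hn
  have h0 : CY Y = ∅ := Set.not_nonempty_iff_eq_empty.1 hn
  have h1 : dens (∅ : Set (SymM p ν)) = 0 := by simp [dens, ind]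
  unfold Dfc at h
  rw [h0, Set.inter_empty, h1, mul_zero] at h
  exact lt_irrefl _ h

lemma Dfc.mono {η η' : ℝ} (hη : η' ≤ η) {A : Set (SymM p ν)} {Y : SV p ν} (h : Dfc η A Y) :
    Dfc η' A Y :=
  lt_of_lt_of_le h (mul_le_mul_of_nonneg_right (by linarith) (dens_nonneg _))

theorem TR {S : SV p ν} (hS : (CY S).Nonempty) :
    ∃ (m : ℕ) (M₀ : SymM p ν) (U : Matrix ν (Fin m) (ZMod p)) (Φ : SV p (Fin m) → SV p ν),
      m + Module.finrank (ZMod p) S = Fintype.card ν ∧ Inj U ∧ (∀ q ∈ S, Uᵀ *ᵥ q.1 = 0) ∧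
      (∀ g : SymM p ν → ℂ, 𝔼 M, (ind (CY S) M : ℂ) * g M =
        (dens (CY S) : ℂ) * 𝔼 N : SymM p (Fin m), g (M₀ + cj U N)) ∧
      (∀ g : SymM p ν → ℝ, 𝔼 M, ind (CY S) M * g M =
        dens (CY S) * 𝔼 N : SymM p (Fin m), g (M₀ + cj U N)) ∧
      (∀ Z Z', Φ Z ≤ Φ Z' ↔ Z ≤ Z') ∧ Φ ⊥ = S ∧
      (∀ Z, Module.finrank (ZMod p) (Φ Z) =
        Module.finrank (ZMod p) Z + Module.finrank (ZMod p) S) ∧
      (∀ Z N, M₀ + cj U N ∈ CY (Φ Z) ↔ N ∈ CY Z) ∧
      (∀ Y, S ≤ Y → (CY Y).Nonempty → ∃ Z, Φ Z = Y) ∧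
      (∀ (η : ℝ) (A : Set (SymM p ν)) Z, Dfc η A (Φ Z) ↔ Dfc η (res A M₀ U) Z) ∧
      (∀ (η : ℝ) (A : Set (SymM p ν)), Ind A → ¬ Dfc η A S → NE η (res A M₀ U)) := trB_main hS

end Pool.Agent.Work.MP_4523ee_co.Fp
end

-- merged part: Pool.Agent.Work.MP_4523ee_co.Fp.PoI
section
/-!
Interface of section 5: the Poisson tile.
-/

set_option autoImplicit false
set_option linter.unusedSectionVars false

namespace Pool.Agent.Work.MP_4523ee_co.Fp

open Finset Matrix
open scoped BigOperators ComplexConjugate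

variable {p : ℕ} [Fact p.Prime]

section
variable {ν : Type} [Fintype ν] [DecidableEq ν] {ρ : ℕ}

/-- span of the columns of a tuple -/
def spn (τ : GX (Fin ρ → ZMod p) ν) : SV p ν :=
  Submodule.span (ZMod p) (Set.range fun a : Fin ρ => (fun i => τ.1 i a, fun i => τ.2 i a))

lemma mem_CY_spn (τ : GX (Fin ρ → ZMod p) ν) (M : SymM p ν) :
    M ∈ CY (spn τ) ↔ τ.2 = act M.1 τ.1 := by
  constructor
  · intro h
    funext i a
    have := congrFun (h _ (Submodule.subset_span ⟨a, rfl⟩)) i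
    simpa [act, mulVec, dotProduct, Finset.sum_apply] using this.symm
  · intro h q hq
    induction hq using Submodule.span_induction with
    | mem x hx =>
      obtain ⟨a, rfl⟩ := hx
      funext i
      simp [h, act, mulVec, dotProduct, Finset.sum_apply]
    | zero => exact mulVec_zero _
    | add x y _ _ hx hy => rw [Prod.fst_add, Prod.snd_add, mulVec_add, hx, hy]
    | smul c x _ hx => rw [Prod.smul_fst, Prod.smul_snd, mulVec_smul, hx]

open Classical in
structure Fam (lam : ℝ) (S : Finset (GX (Fin ρ → ZMod p) ν)) : Prop where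
  indep : ∀ τ ∈ S, LinearIndependent (ZMod p) fun (a : Fin ρ) (i : ν) => τ.1 i a
  symm : ∀ τ ∈ S, ∀ a b, ∑ i, τ.1 i a * τ.2 i b = ∑ i, τ.1 i b * τ.2 i a
  inj : ∀ τ ∈ S, ∀ τ' ∈ S, spn τ = spn τ' → τ = τ'
  light : ∀ Z : SV p ν, 0 < Module.finrank (ZMod p) Z → Module.finrank (ZMod p) Z < ρ →
    (#(S.filter fun τ => Z ≤ spn τ) : ℝ) ≤
      lam * ((p : ℝ) ^ Fintype.card ν) ^ (ρ - Module.finrank (ZMod p) Z)

/-- the matrices lying in none of the tiles -/
def X0 (S : Finset (GX (Fin ρ → ZMod p) ν)) : Set (SymM p ν) :=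
  {M | ∀ τ ∈ S, τ.2 ≠ act M.1 τ.1}

end

end Pool.Agent.Work.MP_4523ee_co.Fp
end

-- merged part: Pool.Agent.Work.MP_4523ee_co.Fp.SubAbs
section
/-!
Section 4, abstract part: ranks of combinations of bilinear forms on a subspace, their behaviour
under a finite rank change, and the subspace cut out by the low rank combinations.
-/

set_option autoImplicit false
set_option linter.unusedSectionVars false

namespace MP_4523ee_co.Fp.Sub

open Module

section Lin
variable {F : Type} [Field F] {V : Type} [AddCommGroup V] [Module F V]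
  {Y : Type} [AddCommGroup Y] [Module F Y]

lemma exists_ginv (f : V →ₗ[F] Y) : ∃ g : Y →ₗ[F] V, ∀ x, f (g (f x)) = f x := by
  obtain ⟨g0, hg0⟩ := f.rangeRestrict.exists_rightInverse_of_surjective f.range_rangeRestrict
  obtain ⟨q, hq⟩ := (LinearMap.range f).subtype.exists_leftInverse_of_injective
    (Submodule.ker_subtype _)
  refine ⟨g0.comp q, fun x => ?_⟩
  have h1 : q (f x) = ⟨f x, LinearMap.mem_range_self f x⟩ := by
    have := LinearMap.congr_fun hq ⟨f x, LinearMap.mem_range_self f x⟩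
    simpa using this
  have h2 := LinearMap.congr_fun hg0 ⟨f x, LinearMap.mem_range_self f x⟩
  have h3 := congrArg Subtype.val h2
  simp only [LinearMap.comp_apply, h1]
  simpa using h3

variable [FiniteDimensional F V] [FiniteDimensional F Y]

lemma finrank_eq_inf_ker_add_map (S : Submodule F V) (f : V →ₗ[F] Y) :
    finrank F S = finrank F (S ⊓ LinearMap.ker f : Submodule F V) + finrank F (S.map f) := by
  have h := LinearMap.finrank_range_add_finrank_ker (f.domRestrict S)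
  rw [LinearMap.range_domRestrict] at h
  have h2 : finrank F (LinearMap.ker (f.domRestrict S)) =
      finrank F (S ⊓ LinearMap.ker f : Submodule F V) := by
    rw [LinearMap.ker_domRestrict, ← Submodule.finrank_map_subtype_eq, Submodule.map_comap_subtype]
  omega

lemma finrank_le_inf_ker (S : Submodule F V) (f : V →ₗ[F] Y) (T : Submodule F Y)
    (h : ∀ v ∈ S, f v ∈ T) :
    finrank F S ≤ finrank F (S ⊓ LinearMap.ker f : Submodule F V) + finrank F T := by
  rw [finrank_eq_inf_ker_add_map S f]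
  have : S.map f ≤ T := by
    rintro _ ⟨v, hv, rfl⟩
    exact h v hv
  have := Submodule.finrank_mono this
  omega

lemma finrank_le_inf_ker' (S : Submodule F V) (f : V →ₗ[F] Y) :
    finrank F S ≤ finrank F (S ⊓ LinearMap.ker f : Submodule F V) + finrank F Y := by
  have := finrank_le_inf_ker S f ⊤ (fun _ _ => trivial)
  simpa using this

lemma finrank_le_inf_comap (S : Submodule F V) (f : V →ₗ[F] Y) (T : Submodule F Y) :
    finrank F S + finrank F T ≤ finrank F (S ⊓ T.comap f : Submodule F V) + finrank F Y := by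
  have h := finrank_le_inf_ker' S (T.mkQ.comp f)
  rw [LinearMap.ker_comp, Submodule.ker_mkQ] at h
  have h2 := Submodule.finrank_quotient_add_finrank T
  omega

lemma finrank_le_of_inter {α : Type} [DecidableEq α] (S : Submodule F V) (T : α → Submodule F V)
    (r : ℕ) (s : Finset α) (hT : ∀ a ∈ s, T a ≤ S ∧ finrank F S ≤ finrank F (T a) + r) :
    finrank F S ≤ finrank F (S ⊓ s.inf T : Submodule F V) + s.card * r := by
  induction s using Finset.induction_on with
  | empty => rw [Finset.inf_empty, inf_top_eq]; omega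
  | insert a s ha ih =>
    have ih' := ih (fun b hb => hT b (Finset.mem_insert_of_mem hb))
    obtain ⟨h1, h2⟩ := hT a (Finset.mem_insert_self _ _)
    rw [Finset.inf_insert, Finset.card_insert_of_notMem ha]
    have h3 := Submodule.finrank_sup_add_finrank_inf_eq (S ⊓ s.inf T) (T a)
    have h4 : finrank F ((S ⊓ s.inf T) ⊔ T a : Submodule F V) ≤ finrank F S :=
      Submodule.finrank_mono (sup_le inf_le_left h1)
    have h5 : (S ⊓ s.inf T) ⊓ T a = S ⊓ (T a ⊓ s.inf T) := by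
      rw [inf_assoc, inf_comm (s.inf T)]
    rw [h5] at h3
    have : (s.card + 1) * r = s.card * r + r := by ring
    omega

end Lin

section Abs
variable {F : Type} [Field F] {V : Type} [AddCommGroup V] [Module F V]
  {κ J : Type} [Fintype κ] [Fintype J]

/-- the combination of the forms `B k` with coefficients `α` -/
noncomputable def bet (B : κ → V →ₗ[F] V →ₗ[F] F) (α : κ → F) : V →ₗ[F] V →ₗ[F] F :=
  ∑ k, α k • B k

lemma bet_apply (B : κ → V →ₗ[F] V →ₗ[F] F) (α : κ → F) (v w : V) :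
    bet B α v w = ∑ k, α k * B k v w := by
  simp [bet, LinearMap.sum_apply]

/-- the left kernel of `β` on `W` -/
def LK (W : Submodule F V) (β : V →ₗ[F] V →ₗ[F] F) : Submodule F V where
  carrier := {v | v ∈ W ∧ ∀ w ∈ W, β v w = 0}
  add_mem' := by
    rintro a b ⟨ha, ha'⟩ ⟨hb, hb'⟩
    exact ⟨W.add_mem ha hb, fun w hw => by simp [ha' w hw, hb' w hw]⟩
  zero_mem' := ⟨W.zero_mem, fun w _ => by simp⟩
  smul_mem' := by
    rintro c a ⟨ha, ha'⟩
    exact ⟨W.smul_mem c ha, fun w hw => by simp [ha' w hw]⟩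

lemma mem_LK {W : Submodule F V} {β : V →ₗ[F] V →ₗ[F] F} {v : V} :
    v ∈ LK W β ↔ v ∈ W ∧ ∀ w ∈ W, β v w = 0 := Iff.rfl

lemma LK_le (W : Submodule F V) (β : V →ₗ[F] V →ₗ[F] F) : LK W β ≤ W := fun _ h => h.1

/-- the rank of `β` on `W` -/
noncomputable def rk (W : Submodule F V) (β : V →ₗ[F] V →ₗ[F] F) : ℕ :=
  finrank F W - finrank F (LK W β)

/-- the common left kernel of the combinations of rank below `r` -/
def V2 (W : Submodule F V) (B : κ → V →ₗ[F] V →ₗ[F] F) (r : ℕ) : Submodule F V where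
  carrier := {v | v ∈ W ∧ ∀ α, rk W (bet B α) < r → ∀ w ∈ W, bet B α v w = 0}
  add_mem' := by
    rintro a b ⟨ha, ha'⟩ ⟨hb, hb'⟩
    exact ⟨W.add_mem ha hb, fun α hα w hw => by simp [ha' α hα w hw, hb' α hα w hw]⟩
  zero_mem' := ⟨W.zero_mem, fun α _ w _ => by simp⟩
  smul_mem' := by
    rintro c a ⟨ha, ha'⟩
    exact ⟨W.smul_mem c ha, fun α hα w hw => by simp [ha' α hα w hw]⟩

lemma mem_V2 {W : Submodule F V} {B : κ → V →ₗ[F] V →ₗ[F] F} {r : ℕ} {v : V} :
    v ∈ V2 W B r ↔ v ∈ W ∧ ∀ α, rk W (bet B α) < r → ∀ w ∈ W, bet B α v w = 0 := Iff.rfl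

lemma V2_le (W : Submodule F V) (B : κ → V →ₗ[F] V →ₗ[F] F) (r : ℕ) : V2 W B r ≤ W :=
  fun _ h => h.1

/-- no rank in the window from `a` to `b` -/
def Gap (W : Submodule F V) (B : κ → V →ₗ[F] V →ₗ[F] F) (a b : ℕ) : Prop :=
  ∀ α, rk W (bet B α) < a ∨ b ≤ rk W (bet B α)

/-- only low rank coefficients give a vanishing combination -/
def Generic (W : Submodule F V) (B : κ → V →ₗ[F] V →ₗ[F] F) (r : ℕ) (u : J → V) : Prop :=
  ∀ α : J → κ → F, (∀ v ∈ V2 W B r, ∑ t, bet B (α t) (u t) v = 0) → ∀ t, rk W (bet B (α t)) < r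

/-- the functionals given by the vectors `u` -/
noncomputable def ell (B : κ → V →ₗ[F] V →ₗ[F] F) (u : J → V) :
    V →ₗ[F] Module.Dual F (J → κ → F) :=
  LinearMap.mk₂ F (fun v α => ∑ t, bet B (α t) (u t) v)
    (fun a b α => by simp [Finset.sum_add_distrib])
    (fun c a α => by simp [Finset.mul_sum])
    (fun a α α' => by simp [bet_apply, add_mul, Finset.sum_add_distrib])
    (fun c a α => by simp [bet_apply, Finset.mul_sum, mul_assoc])

lemma ell_apply (B : κ → V →ₗ[F] V →ₗ[F] F) (u : J → V) (v : V) (α : J → κ → F) :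
    ell B u v α = ∑ t, bet B (α t) (u t) v := rfl

lemma ell_eq_zero_iff (B : κ → V →ₗ[F] V →ₗ[F] F) (u : J → V) (v : V) :
    ell B u v = 0 ↔ ∀ k t, B k (u t) v = 0 := by
  classical
  constructor
  · intro h k t
    have := LinearMap.congr_fun h (Pi.single t (Pi.single k 1))
    rw [ell_apply, Finset.sum_eq_single t] at this
    · rw [bet_apply, Finset.sum_eq_single k] at this
      · simpa using this
      · intro b _ hb
        simp [Pi.single_eq_of_ne hb]
      · simp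
    · intro b _ hb
      simp [Pi.single_eq_of_ne hb, bet_apply]
    · simp
  · intro h
    refine LinearMap.ext fun α => ?_
    simp [ell_apply, bet_apply, h]

/-- the relation between the forms at two points of one tile -/
structure Rel (W : Submodule F V) (B B' : κ → V →ₗ[F] V →ₗ[F] F) (u : J → V) : Prop where
  h1 : ∀ k t, ∀ v ∈ W, B' k (u t) v = B k (u t) v
  h2 : ∀ v ∈ W, (∀ k t, B k (u t) v = 0) → ∀ k, ∀ w ∈ W, B' k v w = B k v w

lemma Rel.symm {W : Submodule F V} {B B' : κ → V →ₗ[F] V →ₗ[F] F} {u : J → V}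
    (h : Rel W B B' u) : Rel W B' B u :=
  ⟨fun k t v hv => (h.h1 k t v hv).symm, fun v hv hz k w hw =>
    (h.h2 v hv (fun k t => by rw [← h.h1 k t v hv]; exact hz k t) k w hw).symm⟩

lemma Rel.ell_eq {W : Submodule F V} {B B' : κ → V →ₗ[F] V →ₗ[F] F} {u : J → V}
    (h : Rel W B B' u) {v : V} (hv : v ∈ W) : ell B' u v = ell B u v := by
  refine LinearMap.ext fun α => ?_
  simp [ell_apply, bet_apply, h.h1 _ _ v hv]

lemma Rel.bet_eq {W : Submodule F V} {B B' : κ → V →ₗ[F] V →ₗ[F] F} {u : J → V}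
    (h : Rel W B B' u) {v : V} (hv : v ∈ W) (hz : ell B u v = 0) (α : κ → F) {w : V}
    (hw : w ∈ W) : bet B' α v w = bet B α v w := by
  rw [ell_eq_zero_iff] at hz
  simp [bet_apply, h.h2 v hv hz _ w hw]

variable [FiniteDimensional F V]

lemma finrank_dual_fun : finrank F (Module.Dual F (J → κ → F)) = Fintype.card J * Fintype.card κ := by
  rw [Subspace.dual_finrank_eq, Module.finrank_pi_fintype]
  simp

lemma Rel.rk_le {W : Submodule F V} {B B' : κ → V →ₗ[F] V →ₗ[F] F} {u : J → V}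
    (h : Rel W B B' u) (α : κ → F) :
    rk W (bet B' α) ≤ rk W (bet B α) + Fintype.card J * Fintype.card κ := by
  have h1 := finrank_le_inf_ker' (LK W (bet B α)) (ell B u)
  rw [finrank_dual_fun] at h1
  have h2 : LK W (bet B α) ⊓ LinearMap.ker (ell B u) ≤ LK W (bet B' α) := by
    rintro v ⟨⟨hv, hv'⟩, hz⟩
    exact ⟨hv, fun w hw => by rw [h.bet_eq hv hz α hw]; exact hv' w hw⟩
  have h3 := Submodule.finrank_mono h2
  unfold rk
  omega

lemma Rel.gap {W : Submodule F V} {B B' : κ → V →ₗ[F] V →ₗ[F] F} {u : J → V}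
    (h : Rel W B B' u) {R R' : ℕ} (hg : Gap W B R (R' + Fintype.card J * Fintype.card κ)) :
    Gap W B' (R + Fintype.card J * Fintype.card κ) R' := by
  intro α
  have h1 := h.rk_le α
  have h2 := h.symm.rk_le α
  rcases hg α with h3 | h3
  · left; omega
  · right; omega

lemma Rel.low_iff {W : Submodule F V} {B B' : κ → V →ₗ[F] V →ₗ[F] F} {u : J → V}
    (h : Rel W B B' u) {R R' : ℕ} (hg : Gap W B R (R' + Fintype.card J * Fintype.card κ))
    (hR : R + Fintype.card J * Fintype.card κ ≤ R') (α : κ → F) :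
    rk W (bet B' α) < R + Fintype.card J * Fintype.card κ ↔
      rk W (bet B α) < R + Fintype.card J * Fintype.card κ := by
  have h1 := h.rk_le α
  have h2 := h.symm.rk_le α
  rcases hg α with h3 | h3 <;> omega

lemma Rel.mem_V2 {W : Submodule F V} {B B' : κ → V →ₗ[F] V →ₗ[F] F} {u : J → V}
    (h : Rel W B B' u) {r : ℕ} (hA : ∀ α, rk W (bet B' α) < r ↔ rk W (bet B α) < r)
    {t : J} (ht : u t ∈ V2 W B r) : u t ∈ V2 W B' r := by
  refine ⟨ht.1, fun α hα w hw => ?_⟩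
  have := ht.2 α ((hA α).1 hα) w hw
  rw [bet_apply] at this ⊢
  simpa [h.h1 _ _ w hw] using this

lemma Rel.inf_ker_le {W : Submodule F V} {B B' : κ → V →ₗ[F] V →ₗ[F] F} {u : J → V}
    (h : Rel W B B' u) {r : ℕ} (hA : ∀ α, rk W (bet B' α) < r ↔ rk W (bet B α) < r) :
    V2 W B r ⊓ LinearMap.ker (ell B u) ≤ V2 W B' r ⊓ LinearMap.ker (ell B' u) := by
  rintro v ⟨⟨hv, hv'⟩, hz⟩
  refine ⟨⟨hv, fun α hα w hw => ?_⟩, ?_⟩
  · rw [h.bet_eq hv hz α hw]
    exact hv' α ((hA α).1 hα) w hw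
  · show ell B' u v = 0
    rw [h.ell_eq hv]
    exact hz

lemma mem_coann {W : Submodule F V} {B : κ → V →ₗ[F] V →ₗ[F] F} {u : J → V} {r : ℕ}
    (hu : ∀ t, u t ∈ V2 W B r) (hg : Generic W B r u) (α : J → κ → F) :
    α ∈ ((V2 W B r).map (ell B u)).dualCoannihilator ↔ ∀ t, rk W (bet B (α t)) < r := by
  rw [Submodule.mem_dualCoannihilator]
  constructor
  · intro h
    exact hg α fun v hv => h _ ⟨v, hv, rfl⟩
  · rintro h _ ⟨v, hv, rfl⟩
    rw [ell_apply]
    exact Finset.sum_eq_zero fun t _ => (hu t).2 (α t) (h t) v hv.1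

lemma Rel.finrank_V2 {W : Submodule F V} {B B' : κ → V →ₗ[F] V →ₗ[F] F} {u : J → V}
    (h : Rel W B B' u) {r : ℕ} (hA : ∀ α, rk W (bet B' α) < r ↔ rk W (bet B α) < r)
    (hu : ∀ t, u t ∈ V2 W B r) (hg : Generic W B r u) (hg' : Generic W B' r u) :
    finrank F (V2 W B' r) = finrank F (V2 W B r) := by
  have hu' : ∀ t, u t ∈ V2 W B' r := fun t => h.mem_V2 hA (hu t)
  have e1 : V2 W B' r ⊓ LinearMap.ker (ell B' u) = V2 W B r ⊓ LinearMap.ker (ell B u) :=
    le_antisymm (h.symm.inf_ker_le fun α => (hA α).symm) (h.inf_ker_le hA)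
  have e2 : ((V2 W B' r).map (ell B' u)).dualCoannihilator =
      ((V2 W B r).map (ell B u)).dualCoannihilator := by
    ext α
    rw [mem_coann hu' hg', mem_coann hu hg]
    exact forall_congr' fun t => hA _
  have e3 := Subspace.finrank_add_finrank_dualCoannihilator_eq ((V2 W B' r).map (ell B' u))
  have e4 := Subspace.finrank_add_finrank_dualCoannihilator_eq ((V2 W B r).map (ell B u))
  rw [e2] at e3
  rw [finrank_eq_inf_ker_add_map (V2 W B' r) (ell B' u),
    finrank_eq_inf_ker_add_map (V2 W B r) (ell B u), e1]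
  omega

lemma codim_V2 [Fintype F] [DecidableEq κ] (W : Submodule F V) (B : κ → V →ₗ[F] V →ₗ[F] F)
    (r : ℕ) : finrank F W ≤ finrank F (V2 W B r) + Fintype.card (κ → F) * r := by
  classical
  set s : Finset (κ → F) := Finset.univ.filter fun α => rk W (bet B α) < r with hs
  have h := finrank_le_of_inter W (fun α => LK W (bet B α)) r s (fun α hα => ⟨LK_le _ _, by
    have := (Finset.mem_filter.1 hα).2
    unfold rk at this
    omega⟩)
  have h2 : W ⊓ s.inf (fun α => LK W (bet B α)) ≤ V2 W B r := by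
    rintro v ⟨hv, hv'⟩
    refine ⟨hv, fun α hα => ?_⟩
    have : s.inf (fun α => LK W (bet B α)) ≤ LK W (bet B α) :=
      Finset.inf_le (Finset.mem_filter.2 ⟨Finset.mem_univ _, hα⟩)
    exact (this hv').2
  have h3 := Submodule.finrank_mono h2
  have h4 : s.card * r ≤ Fintype.card (κ → F) * r :=
    Nat.mul_le_mul_right _ (Finset.card_le_univ s)
  omega

/-- the rank on a subspace of codimension `q` drops by at most `2 q` -/
lemma rk_restrict (W W' : Submodule F V) (hW : W' ≤ W) (q : ℕ)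
    (hq : finrank F W ≤ finrank F W' + q) (β : V →ₗ[F] V →ₗ[F] F) :
    rk W β ≤ rk W' β + 2 * q := by
  have h1 : finrank F (LK W' β) ≤
      finrank F (LK W' β ⊓ LinearMap.ker (β.compl₂ W.subtype) : Submodule F V) +
        finrank F (W'.comap W.subtype).dualAnnihilator :=
    finrank_le_inf_ker (Y := Module.Dual F W) (LK W' β) (β.compl₂ W.subtype)
    (W'.comap W.subtype).dualAnnihilator (by
      intro v hv
      rw [Submodule.mem_dualAnnihilator]
      intro w hw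
      exact hv.2 w hw)
  have h2 := Subspace.finrank_add_finrank_dualAnnihilator_eq (W'.comap W.subtype)
  have h3 : finrank F (W'.comap W.subtype) = finrank F W' := by
    rw [← Submodule.finrank_map_subtype_eq, Submodule.map_comap_subtype, inf_eq_right.2 hW]
  have h4 : LK W' β ⊓ LinearMap.ker (β.compl₂ W.subtype) ≤ LK W β := by
    rintro v ⟨hv, hz⟩
    refine ⟨hW hv.1, fun w hw => ?_⟩
    exact LinearMap.congr_fun (LinearMap.mem_ker.1 hz) ⟨w, hw⟩
  have h5 := Submodule.finrank_mono h4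
  have h6 := Submodule.finrank_mono (LK_le W' β)
  unfold rk
  omega

/-- the rank as the dimension of the range of the restricted form -/
lemma rk_eq_range (W : Submodule F V) (β : V →ₗ[F] V →ₗ[F] F) :
    rk W β = finrank F (LinearMap.range (β.compl₁₂ W.subtype W.subtype)) := by
  have h := LinearMap.finrank_range_add_finrank_ker (β.compl₁₂ W.subtype W.subtype)
  have h2 : finrank F (LinearMap.ker (β.compl₁₂ W.subtype W.subtype)) = finrank F (LK W β) := by
    rw [← Submodule.finrank_map_subtype_eq]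
    suffices hh : Submodule.map W.subtype (LinearMap.ker (β.compl₁₂ W.subtype W.subtype)) =
        LK W β by rw [hh]
    ext v
    constructor
    · rintro ⟨x, hx, rfl⟩
      exact ⟨x.2, fun w hw => LinearMap.congr_fun (LinearMap.mem_ker.1 hx) ⟨w, hw⟩⟩
    · rintro ⟨hv, hv'⟩
      exact ⟨⟨v, hv⟩, LinearMap.mem_ker.2 (LinearMap.ext fun w => hv' w w.2), rfl⟩
  unfold rk
  omega

lemma rk_bet_zero (W : Submodule F V) (B : κ → V →ₗ[F] V →ₗ[F] F) : rk W (bet B 0) = 0 := by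
  have : W ≤ LK W (bet B 0) := fun v hv => ⟨hv, fun w _ => by simp [bet_apply]⟩
  have := Submodule.finrank_mono this
  unfold rk
  omega

end Abs

end MP_4523ee_co.Fp.Sub
end

-- merged part: Pool.Agent.Work.MP_4523ee_co.Fp.SubGauss
section
/-!
Section 4, counting part: the number of tuples on which a family of bilinear forms vanishes.
-/

set_option autoImplicit false
set_option linter.unusedSectionVars false

namespace MP_4523ee_co.Fp.Sub

open Module Finset

open Classical in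
/-- the indicator of a proposition -/
noncomputable def ind (P : Prop) : ℝ := if P then 1 else 0

lemma ind_pos {P : Prop} (h : P) : ind P = 1 := by simp [ind, h]
lemma ind_neg {P : Prop} (h : ¬ P) : ind P = 0 := by simp [ind, h]
lemma ind_nonneg (P : Prop) : 0 ≤ ind P := by unfold ind; split_ifs <;> norm_num
lemma ind_le_one (P : Prop) : ind P ≤ 1 := by unfold ind; split_ifs <;> norm_num
lemma ind_mono {P Q : Prop} (h : P → Q) : ind P ≤ ind Q := by
  by_cases hP : P
  · rw [ind_pos hP, ind_pos (h hP)]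
  · rw [ind_neg hP]; exact ind_nonneg _
lemma ind_congr {P Q : Prop} (h : P ↔ Q) : ind P = ind Q := by rw [propext h]
lemma ind_exists_le {α : Type} [Fintype α] (P : α → Prop) : ind (∃ a, P a) ≤ ∑ a, ind (P a) := by
  by_cases h : ∃ a, P a
  · obtain ⟨a, ha⟩ := h
    rw [ind_pos ⟨a, ha⟩, ← ind_pos ha]
    exact Finset.single_le_sum (f := fun a => ind (P a)) (fun _ _ => ind_nonneg _) (mem_univ a)
  · rw [ind_neg h]
    exact Finset.sum_nonneg fun _ _ => ind_nonneg _

lemma sum_ind_eq_card {α : Type} [Fintype α] (P : α → Prop) :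
    ∑ a, ind (P a) = (Nat.card {a // P a} : ℝ) := by
  classical
  rw [Nat.card_eq_fintype_card, Fintype.card_subtype, Finset.card_filter]
  push_cast
  refine Finset.sum_congr rfl fun a _ => ?_
  unfold ind
  congr

variable {p : ℕ} [Fact p.Prime]

section
variable {G : Type} [AddCommGroup G] [Module (ZMod p) G] [Fintype G]

lemma card_eq_pow : (Fintype.card G : ℝ) = (p : ℝ) ^ finrank (ZMod p) G := by
  rw [Module.card_eq_pow_finrank (K := ZMod p), ZMod.card]
  push_cast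
  rfl

lemma sum_ind_mem (S : Submodule (ZMod p) G) :
    ∑ x, ind (x ∈ S) = (p : ℝ) ^ finrank (ZMod p) S := by
  rw [sum_ind_eq_card]
  have := Module.natCard_eq_pow_finrank (K := ZMod p) (V := S)
  rw [Nat.card_zmod] at this
  exact_mod_cast this

lemma p_pos : (0 : ℝ) < p := by exact_mod_cast (Fact.out : p.Prime).pos
lemma one_le_p : (1 : ℝ) ≤ p := by exact_mod_cast (Fact.out : p.Prime).one_lt.le

lemma sum_psi_lin (f : G →ₗ[ZMod p] ZMod p) :
    ∑ x, ZMod.stdAddChar (f x) = (ind (f = 0) : ℂ) * Fintype.card G := by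
  classical
  by_cases hf : f = 0
  · subst hf
    rw [ind_pos rfl]
    simp
  · rw [ind_neg hf]
    have h : (ZMod.stdAddChar (N := p)).compAddMonoidHom f.toAddMonoidHom ≠ 1 := by
      intro h
      apply hf
      ext x
      have := DFunLike.congr_fun h x
      simp only [AddChar.compAddMonoidHom_apply, AddChar.one_apply] at this
      exact ZMod.injective_stdAddChar (by simpa using this)
    have := AddChar.sum_eq_zero_of_ne_one h
    simpa using this

lemma norm_psi (t : ZMod p) : ‖ZMod.stdAddChar t‖ = 1 := by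
  rw [ZMod.stdAddChar_apply]
  exact Circle.norm_coe _

lemma conj_psi (t : ZMod p) : (starRingEnd ℂ) (ZMod.stdAddChar t) = ZMod.stdAddChar (-t) := by
  rw [AddChar.map_neg_eq_conj]

lemma quad_bound (q : G → ZMod p) (b : G → G →ₗ[ZMod p] ZMod p)
    (hq : ∀ x h, q (x + h) = q x + q h + b h x) :
    ‖∑ x, ZMod.stdAddChar (q x)‖ ^ 2 ≤ Fintype.card G * ∑ h, ind (b h = 0) := by
  have h1 : (∑ x, ZMod.stdAddChar (q x)) * (starRingEnd ℂ) (∑ x, ZMod.stdAddChar (q x)) =
      ∑ h, ZMod.stdAddChar (q h) * ((ind (b h = 0) : ℂ) * Fintype.card G) := by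
    rw [map_sum, Finset.mul_sum]
    have : ∀ x, (∑ y, ZMod.stdAddChar (q y)) * (starRingEnd ℂ) (ZMod.stdAddChar (q x)) =
        ∑ h, ZMod.stdAddChar (q h) * ZMod.stdAddChar (b h x) := by
      intro x
      rw [← Equiv.sum_comp (Equiv.addLeft x), Finset.sum_mul]
      refine Finset.sum_congr rfl fun h _ => ?_
      rw [conj_psi, ← AddChar.map_add_eq_mul, ← AddChar.map_add_eq_mul]
      congr 1
      simp only [Equiv.coe_addLeft, hq]
      ring
    rw [Finset.sum_congr rfl fun x _ => this x, Finset.sum_comm]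
    refine Finset.sum_congr rfl fun h _ => ?_
    rw [← Finset.mul_sum, sum_psi_lin]
  have h2 : ‖∑ x, ZMod.stdAddChar (q x)‖ ^ 2 =
      ‖(∑ x, ZMod.stdAddChar (q x)) * (starRingEnd ℂ) (∑ x, ZMod.stdAddChar (q x))‖ := by
    rw [norm_mul, Complex.norm_conj, sq]
  rw [h2, h1, Finset.mul_sum]
  refine (norm_sum_le _ _).trans (Finset.sum_le_sum fun h _ => ?_)
  rw [norm_mul, norm_psi, norm_mul, one_mul, Complex.norm_real, Real.norm_of_nonneg (ind_nonneg _),
    Complex.norm_natCast, mul_comm]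

end

section
variable {W : Type} [AddCommGroup W] [Module (ZMod p) W] [Fintype W]
  {J : Type} [Fintype J] [DecidableEq J]

lemma hr_count (β : J → W →ₗ[ZMod p] W →ₗ[ZMod p] ZMod p) (t0 : J) (r : ℕ)
    (hr : r ≤ finrank (ZMod p) (LinearMap.range (β t0))) :
    ∑ U : J → W, ind (∑ t, β t (U t) = 0) ≤ Fintype.card (J → W) / (p : ℝ) ^ r := by
  set Φ : (J → W) →ₗ[ZMod p] (W →ₗ[ZMod p] ZMod p) := ∑ t, (β t).comp (LinearMap.proj t) with hΦ
  have hΦa : ∀ U, Φ U = ∑ t, β t (U t) := fun U => by simp [hΦ, LinearMap.sum_apply]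
  have h1 : ∑ U : J → W, ind (∑ t, β t (U t) = 0) = ∑ U : J → W, ind (U ∈ LinearMap.ker Φ) :=
    Finset.sum_congr rfl fun U _ => ind_congr (by rw [LinearMap.mem_ker, hΦa])
  have h2 : LinearMap.range (β t0) ≤ LinearMap.range Φ := by
    rintro _ ⟨w, rfl⟩
    refine ⟨Pi.single t0 w, ?_⟩
    rw [hΦa, Finset.sum_eq_single t0]
    · simp
    · intro b _ hb
      simp [Pi.single_eq_of_ne hb]
    · simp
  have h3 := Submodule.finrank_mono h2
  have h4 := LinearMap.finrank_range_add_finrank_ker Φ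
  rw [h1, sum_ind_mem, card_eq_pow (p := p), le_div_iff₀ (pow_pos p_pos _), ← pow_add]
  exact pow_le_pow_right₀ one_le_p (by omega)

lemma nongen_count {κ : Type} [Fintype κ] [DecidableEq κ]
    (B : κ → W →ₗ[ZMod p] W →ₗ[ZMod p] ZMod p) (A : (κ → ZMod p) → Prop) (r : ℕ)
    (hA : ∀ α, ¬ A α → r ≤ finrank (ZMod p) (LinearMap.range (bet B α))) :
    ∑ U : J → W, ind (∃ α : J → κ → ZMod p, ∑ t, bet B (α t) (U t) = 0 ∧ ∃ t, ¬ A (α t)) ≤
      Fintype.card (J → κ → ZMod p) * (Fintype.card (J → W) / (p : ℝ) ^ r) := by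
  refine (Finset.sum_le_sum fun U _ => ind_exists_le _).trans ?_
  rw [Finset.sum_comm]
  refine (Finset.sum_le_card_nsmul _ _ (Fintype.card (J → W) / (p : ℝ) ^ r) fun α _ => ?_).trans
    (by simp)
  by_cases h : ∃ t, ¬ A (α t)
  · obtain ⟨t0, ht0⟩ := h
    refine le_trans (Finset.sum_le_sum fun U _ => ind_mono fun h => h.1) ?_
    exact hr_count (fun t => bet B (α t)) t0 r (hA _ ht0)
  · rw [Finset.sum_eq_zero fun U _ => ind_neg fun h' => h h'.2]
    have := p_pos (p := p)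
    positivity

variable {I : Type} [Fintype I] [DecidableEq I]

/-- the forms and their transposes -/
def dbl {V : Type} [AddCommGroup V] [Module (ZMod p) V] (B : I → V →ₗ[ZMod p] V →ₗ[ZMod p] ZMod p) :
    I ⊕ I → V →ₗ[ZMod p] V →ₗ[ZMod p] ZMod p := Sum.elim B fun i => (B i).flip

lemma bet_dbl {V : Type} [AddCommGroup V] [Module (ZMod p) V]
    (B : I → V →ₗ[ZMod p] V →ₗ[ZMod p] ZMod p) (a b : I → ZMod p) (v w : V) :
    bet (dbl B) (Sum.elim a b) v w = ∑ i, a i * B i v w + ∑ i, b i * B i w v := by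
  simp [bet_apply, dbl, Fintype.sum_sum_type]

/-- the quadratic form with coefficients `θ` -/
def qf (B : I → W →ₗ[ZMod p] W →ₗ[ZMod p] ZMod p) (θ : J → J → I → ZMod p) (U : J → W) : ZMod p :=
  ∑ s, ∑ t, ∑ i, θ s t i * B i (U s) (U t)

lemma polar_eq (B : I → W →ₗ[ZMod p] W →ₗ[ZMod p] ZMod p) (θ : J → J → I → ZMod p) (H U : J → W) :
    ∑ t, (∑ s, bet (dbl B) (Sum.elim (θ s t) (θ t s)) (H s)) (U t) =
      ∑ s, ∑ t, ∑ i, θ s t i * B i (H s) (U t) + ∑ s, ∑ t, ∑ i, θ s t i * B i (U s) (H t) := by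
  simp only [LinearMap.sum_apply, bet_dbl, Finset.sum_add_distrib]
  rw [Finset.sum_comm]

lemma ind_vanish (B : I → W →ₗ[ZMod p] W →ₗ[ZMod p] ZMod p) (U : J → W) :
    ∑ θ : J → J → I → ZMod p, ZMod.stdAddChar (qf B θ U) =
      (ind (∀ i s t, B i (U s) (U t) = 0) : ℂ) * Fintype.card (J → J → I → ZMod p) := by
  let f : (J → J → I → ZMod p) →ₗ[ZMod p] ZMod p :=
    { toFun := fun θ => qf B θ U
      map_add' := fun a b => by simp [qf, add_mul, Finset.sum_add_distrib]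
      map_smul' := fun c a => by simp [qf, Finset.mul_sum, mul_assoc] }
  have h := sum_psi_lin f
  have h2 : f = 0 ↔ ∀ i s t, B i (U s) (U t) = 0 := by
    constructor
    · intro hf i s t
      have := LinearMap.congr_fun hf (Pi.single s (Pi.single t (Pi.single i 1)))
      change qf B _ U = 0 at this
      unfold qf at this
      rw [Finset.sum_eq_single s, Finset.sum_eq_single t, Finset.sum_eq_single i] at this
      · simpa using this
      · intro b _ hb
        simp [Pi.single_eq_of_ne hb]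
      · simp
      · intro b _ hb
        simp [Pi.single_eq_of_ne hb]
      · simp
      · intro b _ hb
        simp [Pi.single_eq_of_ne hb]
      · simp
    · intro hz
      refine LinearMap.ext fun θ => ?_
      change qf B θ U = 0
      simp [qf, hz]
  rw [ind_congr h2] at h
  exact h

lemma gauss_count (hp2 : p ≠ 2) (B : I → W →ₗ[ZMod p] W →ₗ[ZMod p] ZMod p)
    (A : (I ⊕ I → ZMod p) → Prop) (r : ℕ) (hA0 : ∀ α, A α → bet (dbl B) α = 0)
    (hA : ∀ α, ¬ A α → r ≤ finrank (ZMod p) (LinearMap.range (bet (dbl B) α))) :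
    |∑ U : J → W, ind (∀ i s t, B i (U s) (U t) = 0) - Fintype.card (J → W) *
      ((∑ θ : J → J → I → ZMod p, ind (∀ s t, A (Sum.elim (θ s t) (θ t s)))) /
        Fintype.card (J → J → I → ZMod p))| ≤
      Fintype.card (J → W) * Real.sqrt (1 / (p : ℝ) ^ r) := by
  have h2 : (2 : ZMod p) ≠ 0 := by
    intro h
    have : ((2 : ℕ) : ZMod p) = 0 := by exact_mod_cast h
    rw [ZMod.natCast_eq_zero_iff] at this
    exact hp2 ((Nat.prime_dvd_prime_iff_eq Fact.out Nat.prime_two).1 this)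
  set c : ℝ := (Fintype.card (J → W) : ℝ) with hc
  set n : ℝ := (Fintype.card (J → J → I → ZMod p) : ℝ) with hn
  have hc0 : 0 < c := by rw [hc]; exact_mod_cast Fintype.card_pos
  have hn0 : 0 < n := by rw [hn]; exact_mod_cast Fintype.card_pos
  have key : ∀ θ : J → J → I → ZMod p,
      ‖∑ U : J → W, ZMod.stdAddChar (qf B θ U) -
        ((c * ind (∀ s t, A (Sum.elim (θ s t) (θ t s))) : ℝ) : ℂ)‖ ≤
        c * Real.sqrt (1 / (p : ℝ) ^ r) := by
    intro θ
    by_cases hθ : ∀ s t, A (Sum.elim (θ s t) (θ t s))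
    · have hq : ∀ U, qf B θ U = 0 := by
        intro U
        have h3 := polar_eq B θ U U
        rw [Finset.sum_eq_zero fun t _ => by
          rw [Finset.sum_eq_zero fun s _ => by rw [hA0 _ (hθ s t)]; rfl]; rfl] at h3
        have h4 : 2 * qf B θ U = 0 := by rw [two_mul]; exact h3.symm
        exact (mul_eq_zero.1 h4).resolve_left h2
      rw [ind_pos hθ]
      simp only [hq, AddChar.map_zero_eq_one, Finset.sum_const, Finset.card_univ, nsmul_eq_mul,
        mul_one]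
      rw [hc, Complex.ofReal_natCast, sub_self, norm_zero]
      positivity
    · rw [ind_neg hθ, mul_zero, Complex.ofReal_zero, sub_zero]
      push Not at hθ
      obtain ⟨s0, t0, hst⟩ := hθ
      let b : (J → W) → (J → W) →ₗ[ZMod p] ZMod p := fun H =>
        ∑ t, (∑ s, bet (dbl B) (Sum.elim (θ s t) (θ t s)) (H s)).comp (LinearMap.proj t)
      have hb : ∀ H U, b H U = ∑ t, (∑ s, bet (dbl B) (Sum.elim (θ s t) (θ t s)) (H s)) (U t) := by
        intro H U
        simp only [b, LinearMap.sum_apply, LinearMap.comp_apply, LinearMap.proj_apply]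
      have h3 := quad_bound (qf B θ) b (fun x h => by
        rw [hb, polar_eq]
        simp only [qf, Pi.add_apply, map_add, LinearMap.add_apply, mul_add, Finset.sum_add_distrib]
        ring)
      have h4 : ∑ H, ind (b H = 0) ≤ c / (p : ℝ) ^ r := by
        refine le_trans (Finset.sum_le_sum fun H _ => ind_mono (Q :=
          ∑ s, bet (dbl B) (Sum.elim (θ s t0) (θ t0 s)) (H s) = 0) fun h => ?_)
          (hr_count (fun s => bet (dbl B) (Sum.elim (θ s t0) (θ t0 s))) s0 r (hA _ hst))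
        refine LinearMap.ext fun w => ?_
        have := LinearMap.congr_fun h (Pi.single t0 w)
        rw [hb, Finset.sum_eq_single t0] at this
        · simpa using this
        · intro t _ ht
          rw [Pi.single_eq_of_ne ht, map_zero]
        · simp
      have h5 : ‖∑ U : J → W, ZMod.stdAddChar (qf B θ U)‖ ^ 2 ≤
          (c * Real.sqrt (1 / (p : ℝ) ^ r)) ^ 2 := by
        have hp := p_pos (p := p)
        rw [mul_pow, Real.sq_sqrt (by positivity)]
        refine h3.trans ?_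
        calc c * ∑ H, ind (b H = 0) ≤ c * (c / (p : ℝ) ^ r) := by gcongr
          _ = c ^ 2 * (1 / (p : ℝ) ^ r) := by ring
      exact (pow_le_pow_iff_left₀ (norm_nonneg _) (by positivity) two_ne_zero).1 h5
  have main : (((∑ U : J → W, ind (∀ i s t, B i (U s) (U t) = 0) - c *
      ((∑ θ : J → J → I → ZMod p, ind (∀ s t, A (Sum.elim (θ s t) (θ t s)))) / n)) * n : ℝ) : ℂ) =
      ∑ θ : J → J → I → ZMod p, (∑ U : J → W, ZMod.stdAddChar (qf B θ U) -
        ((c * ind (∀ s t, A (Sum.elim (θ s t) (θ t s))) : ℝ) : ℂ)) := by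
    rw [Finset.sum_sub_distrib, Finset.sum_comm]
    simp only [ind_vanish]
    rw [sub_mul, mul_assoc, div_mul_cancel₀ _ hn0.ne', Finset.sum_mul, Finset.mul_sum]
    push_cast
    rw [hn]
    push_cast
    rfl
  have h6 := congrArg norm main
  rw [Complex.norm_real, Real.norm_eq_abs, abs_mul, abs_of_pos hn0] at h6
  have h7 := (norm_sum_le _ _).trans
    (Finset.sum_le_card_nsmul Finset.univ _ _ fun θ _ => key θ)
  rw [← h6, Finset.card_univ, nsmul_eq_mul, ← hn, mul_comm n] at h7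
  exact le_of_mul_le_mul_right h7 hn0

end

end MP_4523ee_co.Fp.Sub
end

-- merged part: Pool.Agent.Work.MP_4523ee_co.Fp.SubLoc
section
/-!
Section 4, local part: the subspace `V1`, the bilinear forms at a point and their change on a tile.
-/

set_option autoImplicit false
set_option linter.unusedSectionVars false

namespace MP_4523ee_co.Fp.Sub

open Module Finset Matrix
open Pool.Agent.Work.MP_4523ee_co.Fp hiding ind

variable {p : ℕ} [Fact p.Prime] {X : Type} [AddCommGroup X] [Module (ZMod p) X]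
  {ν J : Type} [Fintype ν] [DecidableEq ν] [Fintype J] [DecidableEq J]

section act
variable {a b c : Type} [Fintype a] [Fintype b] [Fintype c]

/-- the action as a linear map -/
def actM (U : Matrix b a (ZMod p)) : (a → X) →ₗ[ZMod p] (b → X) where
  toFun := act U
  map_add' l m := by
    funext i
    simp [act, smul_add, Finset.sum_add_distrib]
  map_smul' t l := by
    funext i
    simp only [act, Pi.smul_apply, RingHom.id_apply, Finset.smul_sum]
    exact Finset.sum_congr rfl fun j _ => smul_comm _ _ _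

lemma actM_apply (U : Matrix b a (ZMod p)) (l : a → X) : actM U l = act U l := rfl

lemma s_act_add (U : Matrix b a (ZMod p)) (l m : a → X) : act U (l + m) = act U l + act U m :=
  (actM U).map_add l m

lemma s_act_zero (U : Matrix b a (ZMod p)) : act U (0 : a → X) = 0 := (actM U).map_zero

lemma s_add_act (U U' : Matrix b a (ZMod p)) (l : a → X) :
    act (U + U') l = act U l + act U' l := by
  funext i
  simp [act, add_smul, Finset.sum_add_distrib]

lemma s_act_mul (U : Matrix c b (ZMod p)) (U' : Matrix b a (ZMod p)) (l : a → X) :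
    act (U * U') l = act U (act U' l) := by
  funext i
  simp only [act, Matrix.mul_apply, Finset.sum_smul, Finset.smul_sum, mul_smul]
  exact Finset.sum_comm

end act

/-- `v ⊗ x` -/
def ten : (ν → ZMod p) →ₗ[ZMod p] X →ₗ[ZMod p] (ν → X) :=
  LinearMap.mk₂ (ZMod p) (fun v x i => v i • x)
    (fun a b x => by funext i; simp [add_smul])
    (fun c a x => by funext i; simp [mul_smul])
    (fun a x y => by funext i; simp)
    (fun c a x => by funext i; exact smul_comm _ _ _)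

lemma ten_apply (v : ν → ZMod p) (x : X) (i : ν) : ten v x i = v i • x := rfl

/-- contraction -/
def dotl : (ν → ZMod p) →ₗ[ZMod p] (ν → X) →ₗ[ZMod p] X :=
  LinearMap.mk₂ (ZMod p) (fun v y => ∑ i, v i • y i)
    (fun a b x => by simp [add_smul, Finset.sum_add_distrib])
    (fun c a x => by simp [mul_smul, Finset.smul_sum])
    (fun a x y => by simp [Finset.sum_add_distrib])
    (fun c a x => by
      simp only [Pi.smul_apply, Finset.smul_sum]
      exact Finset.sum_congr rfl fun j _ => smul_comm _ _ _)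

lemma dotl_apply (v : ν → ZMod p) (y : ν → X) : dotl v y = ∑ i, v i • y i := rfl

lemma act_T (U : Matrix ν J (ZMod p)) (y : ν → X) (t : J) : act Uᵀ y t = dotl (Uᵀ t) y := rfl

lemma act_eq_sum (U : Matrix ν J (ZMod p)) (w : J → X) : act U w = ∑ t, ten (Uᵀ t) (w t) := by
  funext i
  simp [act, ten_apply, Finset.sum_apply]

lemma act_single (U : Matrix ν J (ZMod p)) (t : J) (x : X) :
    act U (Pi.single t x) = ten (Uᵀ t) x := by
  rw [act_eq_sum, Finset.sum_eq_single t]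
  · simp
  · intro b _ hb
    simp [Pi.single_eq_of_ne hb]
  · simp

/-- the map `(y, z) ↦ z - M y` -/
def del (M : SymM p ν) : GX X ν →ₗ[ZMod p] (ν → X) :=
  LinearMap.snd _ _ _ - (actM M.1).comp (LinearMap.fst _ _ _)

lemma del_apply (M : SymM p ν) (τ : GX X ν) : del M τ = τ.2 - act M.1 τ.1 := rfl

lemma del_tile (M : SymM p ν) (U : Matrix ν J (ZMod p)) (N : SymM p J) (τ : GX X ν) :
    del (M + cj U N) τ = del M τ - act U (act N.1 (act Uᵀ τ.1)) := by
  rw [del_apply, del_apply]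
  have : (M + cj U N).1 = M.1 + U * N.1 * Uᵀ := rfl
  rw [this, s_add_act, s_act_mul, s_act_mul, sub_sub]

lemma del_tile0 (M : SymM p ν) (U : Matrix ν J (ZMod p)) (N : SymM p J) {τ : GX X ν}
    (h : act Uᵀ τ.1 = 0) : del (M + cj U N) τ = del M τ := by
  rw [del_tile, h, s_act_zero, s_act_zero, sub_zero]

variable {Λ : Submodule (ZMod p) (GX X ν)} {M : SymM p ν} {U : Matrix ν J (ZMod p)}

lemma SG_iff : SG Λ M U ↔ (∀ w : J → X, ∃ τ ∈ Λ, del M τ = act U w ∧ act Uᵀ τ.1 = 0) ∧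
    ∀ τ ∈ Λ, (∃ w : J → X, del M τ = act U w) → act Uᵀ τ.1 = 0 := Iff.rfl

lemma SG_tile (h : SG Λ M U) (N : SymM p J) : SG Λ (M + cj U N) U := by
  rw [SG_iff] at h ⊢
  refine ⟨fun w => ?_, fun τ hτ ⟨w, hw⟩ => ?_⟩
  · obtain ⟨τ, hτ, h1, h2⟩ := h.1 w
    exact ⟨τ, hτ, by rw [del_tile0 M U N h2, h1], h2⟩
  · refine h.2 τ hτ ⟨w + act N.1 (act Uᵀ τ.1), ?_⟩
    rw [s_act_add, ← hw, del_tile, sub_add_cancel]

lemma K_tile (h : SG Λ M U) (N : SymM p J) {τ : GX X ν} (hτ : τ ∈ Λ) :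
    del (M + cj U N) τ = 0 ↔ del M τ = 0 := by
  constructor
  · intro h0
    have h1 := (SG_iff.1 (SG_tile h N)).2 τ hτ ⟨0, by rw [h0, s_act_zero]⟩
    rw [← del_tile0 M U N h1, h0]
  · intro h0
    have h1 := (SG_iff.1 h).2 τ hτ ⟨0, by rw [h0, s_act_zero]⟩
    rw [del_tile0 M U N h1, h0]

lemma I_tile (h : SG Λ M U) (N : SymM p J) (m : ν → X) :
    (∃ τ ∈ Λ, del (M + cj U N) τ = m) ↔ ∃ τ ∈ Λ, del M τ = m := by
  constructor
  · rintro ⟨τ, hτ, rfl⟩
    obtain ⟨σ, hσ, h1, -⟩ := (SG_iff.1 h).1 (act N.1 (act Uᵀ τ.1))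
    exact ⟨τ - σ, Λ.sub_mem hτ hσ, by rw [map_sub, h1, del_tile]⟩
  · rintro ⟨τ, hτ, rfl⟩
    obtain ⟨σ, hσ, h1, h2⟩ := (SG_iff.1 h).1 (act N.1 (act Uᵀ τ.1))
    exact ⟨τ + σ, Λ.add_mem hτ hσ, by
      rw [map_add, del_tile0 M U N h2, h1, del_tile, sub_add_cancel]⟩

/-- the subspace on which the forms are defined -/
def V1 (Λ : Submodule (ZMod p) (GX X ν)) (M : SymM p ν) : Submodule (ZMod p) (ν → ZMod p) where
  carrier := {v | (∀ x : X, ∃ τ ∈ Λ, del M τ = ten v x) ∧ ∀ τ ∈ Λ, del M τ = 0 → dotl v τ.1 = 0}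
  add_mem' := by
    rintro a b ⟨ha, ha'⟩ ⟨hb, hb'⟩
    refine ⟨fun x => ?_, fun τ hτ h0 => by simp [ha' τ hτ h0, hb' τ hτ h0]⟩
    obtain ⟨τ, hτ, h1⟩ := ha x
    obtain ⟨σ, hσ, h2⟩ := hb x
    exact ⟨τ + σ, Λ.add_mem hτ hσ, by simp [h1, h2]⟩
  zero_mem' := ⟨fun x => ⟨0, Λ.zero_mem, by simp⟩, fun τ _ _ => by simp⟩
  smul_mem' := by
    rintro c a ⟨ha, ha'⟩
    refine ⟨fun x => ?_, fun τ hτ h0 => by simp [ha' τ hτ h0]⟩
    obtain ⟨τ, hτ, h1⟩ := ha x
    exact ⟨c • τ, Λ.smul_mem c hτ, by simp [h1]⟩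

lemma mem_V1 {v : ν → ZMod p} : v ∈ V1 Λ M ↔
    (∀ x : X, ∃ τ ∈ Λ, del M τ = ten v x) ∧ ∀ τ ∈ Λ, del M τ = 0 → dotl v τ.1 = 0 := Iff.rfl

lemma V1_tile (h : SG Λ M U) (N : SymM p J) : V1 Λ (M + cj U N) = V1 Λ M := by
  ext v
  rw [mem_V1, mem_V1]
  refine and_congr (forall_congr' fun x => I_tile h N _) ?_
  exact forall_congr' fun τ => forall_congr' fun hτ => by rw [K_tile h N hτ]

/-- a linear section of `del M` on `Λ` -/
noncomputable def sec (Λ : Submodule (ZMod p) (GX X ν)) (M : SymM p ν) : (ν → X) →ₗ[ZMod p] Λ :=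
  Classical.choose (exists_ginv ((del M).domRestrict Λ))

/-- the first coordinate of the section -/
noncomputable def ysec (Λ : Submodule (ZMod p) (GX X ν)) (M : SymM p ν) :
    (ν → X) →ₗ[ZMod p] (ν → X) :=
  (LinearMap.fst _ _ _).comp (Λ.subtype.comp (sec Λ M))

lemma dotl_ysec {τ : GX X ν} (hτ : τ ∈ Λ) {v : ν → ZMod p} (hv : v ∈ V1 Λ M) :
    dotl v (ysec Λ M (del M τ)) = dotl v τ.1 := by
  have h : del M (sec Λ M (del M τ)).1 = del M τ :=
    Classical.choose_spec (exists_ginv ((del M).domRestrict Λ)) ⟨τ, hτ⟩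
  have h2 := hv.2 ((sec Λ M (del M τ)).1 - τ) (Λ.sub_mem (sec Λ M (del M τ)).2 hτ)
    (by rw [map_sub, h, sub_self])
  rw [Prod.fst_sub, map_sub, sub_eq_zero] at h2
  exact h2

variable {I : Type} [Fintype I] [DecidableEq I]

/-- the bilinear forms at the point `M` -/
noncomputable def Bf (bs : Basis I (ZMod p) X) (Λ : Submodule (ZMod p) (GX X ν)) (M : SymM p ν)
    (ab : I × I) : (ν → ZMod p) →ₗ[ZMod p] (ν → ZMod p) →ₗ[ZMod p] ZMod p :=
  LinearMap.mk₂ (ZMod p) (fun v w => bs.coord ab.2 (dotl w (ysec Λ M (ten v (bs ab.1)))))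
    (fun a b x => by simp)
    (fun c a x => by simp)
    (fun a x y => by simp)
    (fun c a x => by simp)

lemma Bf_apply (bs : Basis I (ZMod p) X) (ab : I × I) (v w : ν → ZMod p) :
    Bf bs Λ M ab v w = bs.coord ab.2 (dotl w (ysec Λ M (ten v (bs ab.1)))) := rfl

lemma Bf_zero (bs : Basis I (ZMod p) X) {v w : ν → ZMod p} (h : ∀ ab, Bf bs Λ M ab v w = 0)
    (x : X) : dotl w (ysec Λ M (ten v x)) = 0 := by
  have h1 : (dotl w).comp ((ysec Λ M).comp (ten v)) = 0 := by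
    refine bs.ext fun a => ?_
    refine bs.forall_coord_eq_zero_iff.1 fun b => ?_
    exact h (a, b)
  exact LinearMap.congr_fun h1 x

lemma SG_of (bs : Basis I (ZMod p) X) (hU : ∀ t, Uᵀ t ∈ V1 Λ M)
    (hB : ∀ ab s t, Bf bs Λ M ab (Uᵀ s) (Uᵀ t) = 0) : SG Λ M U := by
  have key : ∀ τ ∈ Λ, (∃ w : J → X, del M τ = act U w) → act Uᵀ τ.1 = 0 := by
    rintro τ hτ ⟨w, hw⟩
    funext t
    rw [act_T, ← dotl_ysec hτ (hU t), hw, act_eq_sum, map_sum, map_sum]
    exact Finset.sum_eq_zero fun s _ => Bf_zero bs (fun ab => hB ab s t) _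
  refine SG_iff.2 ⟨fun w => ?_, key⟩
  choose σ hσ hσ' using fun t => (hU t).1 (w t)
  have h1 : del M (∑ t, σ t) = act U w := by
    rw [map_sum, act_eq_sum]
    exact Finset.sum_congr rfl fun t _ => hσ' t
  have h2 : ∑ t, σ t ∈ Λ := Λ.sum_mem fun t _ => hσ t
  exact ⟨_, h2, h1, key _ h2 ⟨w, h1⟩⟩

/-- the form at the new point in terms of a preimage at the old point -/
lemma tile_val (h : SG Λ M U) (N : SymM p J) {v w : ν → ZMod p} (hv : v ∈ V1 Λ M)
    (hw : w ∈ V1 Λ M) (x : X) :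
    dotl w (ysec Λ (M + cj U N) (ten v x)) = dotl w (ysec Λ M (ten v x)) +
      dotl w (ysec Λ M (act U (act N.1 (act Uᵀ (Classical.choose (hv.1 x)).1)))) := by
  obtain ⟨hτ, h0⟩ := Classical.choose_spec (hv.1 x)
  set τ := Classical.choose (hv.1 x)
  obtain ⟨σ, hσ, h1, h2⟩ := (SG_iff.1 h).1 (act N.1 (act Uᵀ τ.1))
  have h3 : del (M + cj U N) (τ + σ) = ten v x := by
    rw [map_add, del_tile0 M U N h2, h1, del_tile, sub_add_cancel, h0]
  have hw' : w ∈ V1 Λ (M + cj U N) := by rw [V1_tile h N]; exact hw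
  rw [← h1, dotl_ysec hσ hw]
  conv_lhs => rw [← h3]
  rw [dotl_ysec (Λ.add_mem hτ hσ) hw', ← h0, dotl_ysec hτ hw, Prod.fst_add, map_add]

lemma tile_left (h : SG Λ M U) (hU : ∀ t, Uᵀ t ∈ V1 Λ M) (N : SymM p J) {v w : ν → ZMod p}
    (hv : v ∈ V1 Λ M) (hw : w ∈ V1 Λ M) (x : X)
    (hz : ∀ t, dotl (Uᵀ t) (ysec Λ M (ten v x)) = 0) :
    dotl w (ysec Λ (M + cj U N) (ten v x)) = dotl w (ysec Λ M (ten v x)) := by
  obtain ⟨hτ, h0⟩ := Classical.choose_spec (hv.1 x)
  have : act Uᵀ (Classical.choose (hv.1 x)).1 = 0 := by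
    funext t
    rw [act_T, ← dotl_ysec hτ (hU t), h0]
    exact hz t
  rw [tile_val h N hv hw, this, s_act_zero, s_act_zero, map_zero, map_zero, add_zero]

lemma tile_right (h : SG Λ M U) (N : SymM p J) {v w : ν → ZMod p}
    (hv : v ∈ V1 Λ M) (hw : w ∈ V1 Λ M) (x : X)
    (hz : ∀ t x, dotl w (ysec Λ M (ten (Uᵀ t) x)) = 0) :
    dotl w (ysec Λ (M + cj U N) (ten v x)) = dotl w (ysec Λ M (ten v x)) := by
  rw [tile_val h N hv hw, act_eq_sum, map_sum, map_sum, Finset.sum_eq_zero fun t _ => hz t _,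
    add_zero]

lemma rel_tile (bs : Basis I (ZMod p) X) (hU : ∀ t, Uᵀ t ∈ V1 Λ M)
    (hB : ∀ ab s t, Bf bs Λ M ab (Uᵀ s) (Uᵀ t) = 0) (N : SymM p J) :
    Rel (V1 Λ M) (dbl (Bf bs Λ M)) (dbl (Bf bs Λ (M + cj U N))) (fun t => Uᵀ t) := by
  have h := SG_of bs hU hB
  constructor
  · rintro (ab | ab) t v hv
    · show Bf bs Λ (M + cj U N) ab (Uᵀ t) v = Bf bs Λ M ab (Uᵀ t) v
      rw [Bf_apply, Bf_apply,
        tile_left h hU N (hU t) hv _ fun s => Bf_zero bs (fun ab => hB ab t s) _]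
    · show Bf bs Λ (M + cj U N) ab v (Uᵀ t) = Bf bs Λ M ab v (Uᵀ t)
      rw [Bf_apply, Bf_apply,
        tile_right h N hv (hU t) _ fun s x => Bf_zero bs (fun ab => hB ab s t) _]
  · rintro v hv hz (ab | ab) w hw
    · show Bf bs Λ (M + cj U N) ab v w = Bf bs Λ M ab v w
      rw [Bf_apply, Bf_apply,
        tile_left h hU N hv hw _ fun s => Bf_zero bs (fun ab => hz (Sum.inr ab) s) _]
    · show Bf bs Λ (M + cj U N) ab w v = Bf bs Λ M ab w v
      rw [Bf_apply, Bf_apply,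
        tile_right h N hw hv _ fun s x => Bf_zero bs (fun ab => hz (Sum.inl ab) s) _]

/-- the kernel `K_M` -/
def Kr (Λ : Submodule (ZMod p) (GX X ν)) (M : SymM p ν) : Submodule (ZMod p) (GX X ν) :=
  Λ ⊓ LinearMap.ker (del M)

lemma Kr_tile (h : SG Λ M U) (N : SymM p J) : Kr Λ (M + cj U N) = Kr Λ M := by
  ext τ
  exact and_congr_right fun hτ => K_tile h N hτ

lemma codim_V1 (bs : Basis I (ZMod p) X) (c0 k1 : ℕ)
    (hΛ : Fintype.card ν * Fintype.card I ≤ finrank (ZMod p) Λ + c0)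
    (hK : finrank (ZMod p) (Kr Λ M) ≤ k1) :
    Fintype.card ν ≤ finrank (ZMod p) (V1 Λ M) + Fintype.card I * (c0 + 2 * k1) := by
  have : FiniteDimensional (ZMod p) X := Module.Finite.of_basis bs
  have hX : finrank (ZMod p) X = Fintype.card I := Module.finrank_eq_card_basis bs
  have hY : finrank (ZMod p) (ν → X) = Fintype.card ν * Fintype.card I := by
    rw [Module.finrank_pi_fintype]
    simp [hX]
  have hV : finrank (ZMod p) (⊤ : Submodule (ZMod p) (ν → ZMod p)) = Fintype.card ν := by simp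
  have h1 := finrank_eq_inf_ker_add_map Λ (del M)
  change _ = finrank (ZMod p) (Kr Λ M) + _ at h1
  set T : I → Submodule (ZMod p) (ν → ZMod p) := fun a => (Λ.map (del M)).comap (ten.flip (bs a))
    with hT
  have h2 := finrank_le_of_inter ⊤ T (c0 + k1) Finset.univ (fun a _ => ⟨le_top, by
    have := finrank_le_inf_comap ⊤ (ten.flip (bs a) : (ν → ZMod p) →ₗ[ZMod p] (ν → X))
      (Λ.map (del M))
    rw [top_inf_eq] at this
    change _ ≤ finrank (ZMod p) (T a) + _ at this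
    omega⟩)
  let g : (ν → ZMod p) →ₗ[ZMod p] (Kr Λ M →ₗ[ZMod p] X) :=
    dotl.compl₂ ((LinearMap.fst _ _ _).comp (Kr Λ M).subtype)
  have h3 := finrank_le_inf_ker' (⊤ ⊓ Finset.univ.inf T) g
  rw [Module.finrank_linearMap, hX] at h3
  have h4 : (⊤ ⊓ Finset.univ.inf T) ⊓ LinearMap.ker g ≤ V1 Λ M := by
    rintro v ⟨⟨-, hv⟩, hg⟩
    refine ⟨fun x => ?_, fun τ hτ h0 => ?_⟩
    · have h5 : ∀ a, ten v (bs a) ∈ Λ.map (del M) := fun a =>
        (Finset.inf_le (f := T) (Finset.mem_univ a)) hv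
      have h6 : ten v x ∈ Λ.map (del M) := by
        rw [← bs.sum_repr x, map_sum]
        exact Submodule.sum_mem _ fun a _ => by
          rw [map_smul]; exact Submodule.smul_mem _ _ (h5 a)
      exact h6
    · exact LinearMap.congr_fun (LinearMap.mem_ker.1 hg) ⟨τ, hτ, h0⟩
  have h7 := Submodule.finrank_mono h4
  have h8 : finrank (ZMod p) (Kr Λ M) * Fintype.card I ≤ k1 * Fintype.card I :=
    Nat.mul_le_mul_right _ hK
  rw [Finset.card_univ] at h2
  have : Fintype.card I * (c0 + 2 * k1) = Fintype.card I * (c0 + k1) + k1 * Fintype.card I := by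
    ring
  omega

end MP_4523ee_co.Fp.Sub
end

-- merged part: Pool.Agent.Work.MP_4523ee_co.Fp.SubCnt
section
/-!
Section 4, counting at one point: good, generic and injective tuples.
-/

set_option autoImplicit false
set_option linter.unusedSectionVars false

namespace MP_4523ee_co.Fp.Sub

open Module Finset Matrix
open Pool.Agent.Work.MP_4523ee_co.Fp hiding ind

variable {p : ℕ} [Fact p.Prime] {V : Type} [AddCommGroup V] [Module (ZMod p) V] [Fintype V]
  {J I : Type} [Fintype J] [DecidableEq J] [Fintype I] [DecidableEq I]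

lemma sum_restrict (W : Submodule (ZMod p) V) (P : (J → V) → Prop) :
    ∑ u : J → V, ind ((∀ t, u t ∈ W) ∧ P u) = ∑ u : J → W, ind (P fun t => (u t : V)) := by
  rw [sum_ind_eq_card, sum_ind_eq_card]
  congr 1
  exact Nat.card_congr
    { toFun := fun u => ⟨fun t => ⟨u.1 t, u.2.1 t⟩, u.2.2⟩
      invFun := fun u => ⟨fun t => (u.1 t : V), fun t => (u.1 t).2, u.2⟩
      left_inv := fun u => rfl
      right_inv := fun u => rfl }

lemma card_fun_le (W : Submodule (ZMod p) V) :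
    (Fintype.card (J → W) : ℝ) ≤ Fintype.card (J → V) := by
  exact_mod_cast Fintype.card_le_of_injective (fun (u : J → W) t => (u t : V))
    fun a b h => funext fun t => Subtype.ext (congrFun h t)

/-- the model value of the probability of a good tuple -/
noncomputable def phi (J : Type) [Fintype J] [DecidableEq J] (W : Submodule (ZMod p) V)
    (B : I → V →ₗ[ZMod p] V →ₗ[ZMod p] ZMod p) (r : ℕ) : ℝ :=
  ((p : ℝ) ^ finrank (ZMod p) (V2 W (dbl B) r)) ^ Fintype.card J / Fintype.card (J → V) *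
    ((∑ θ : J → J → I → ZMod p,
      ind (∀ s t, rk W (bet (dbl B) (Sum.elim (θ s t) (θ t s))) < r)) /
        Fintype.card (J → J → I → ZMod p))

lemma phi_congr {W : Submodule (ZMod p) V} {B B' : I → V →ₗ[ZMod p] V →ₗ[ZMod p] ZMod p} {r : ℕ}
    (hA : ∀ α, rk W (bet (dbl B') α) < r ↔ rk W (bet (dbl B) α) < r)
    (hf : finrank (ZMod p) (V2 W (dbl B') r) = finrank (ZMod p) (V2 W (dbl B) r)) :
    phi J W B' r = phi J W B r := by
  unfold phi
  rw [hf]
  congr 2
  exact Finset.sum_congr rfl fun θ _ => ind_congr (forall₂_congr fun s t => hA _)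

lemma phi_ge (W : Submodule (ZMod p) V) (B : I → V →ₗ[ZMod p] V →ₗ[ZMod p] ZMod p) (r q : ℕ)
    (hr : 0 < r) (hq : finrank (ZMod p) V ≤ finrank (ZMod p) (V2 W (dbl B) r) + q) :
    (1 / (p : ℝ) ^ q) ^ Fintype.card J / Fintype.card (J → J → I → ZMod p) ≤ phi J W B r := by
  have hp := p_pos (p := p)
  have h1 : (1 : ℝ) ≤ ∑ θ : J → J → I → ZMod p,
      ind (∀ s t, rk W (bet (dbl B) (Sum.elim (θ s t) (θ t s))) < r) := by
    refine le_trans ?_ (Finset.single_le_sum (f := fun θ : J → J → I → ZMod p =>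
      ind (∀ s t, rk W (bet (dbl B) (Sum.elim (θ s t) (θ t s))) < r))
      (fun _ _ => ind_nonneg _) (Finset.mem_univ 0))
    refine (ind_pos fun s t => ?_).ge
    have : (Sum.elim ((0 : J → J → I → ZMod p) s t) ((0 : J → J → I → ZMod p) t s) :
        I ⊕ I → ZMod p) = 0 := by
      funext k
      rcases k with k | k <;> rfl
    rw [this, rk_bet_zero]
    exact hr
  have h2 : (1 / (p : ℝ) ^ q) ^ Fintype.card J ≤
      ((p : ℝ) ^ finrank (ZMod p) (V2 W (dbl B) r)) ^ Fintype.card J / Fintype.card (J → V) := by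
    rw [Fintype.card_fun]
    push_cast
    rw [← div_pow, card_eq_pow (p := p)]
    refine pow_le_pow_left₀ (by positivity) ?_ _
    rw [div_le_div_iff₀ (by positivity) (by positivity), one_mul, ← pow_add]
    exact pow_le_pow_right₀ one_le_p hq
  have h3 : (0 : ℝ) < Fintype.card (J → J → I → ZMod p) := by exact_mod_cast Fintype.card_pos
  unfold phi
  rw [div_eq_mul_one_div]
  exact mul_le_mul h2 (div_le_div_of_nonneg_right h1 h3.le) (by positivity) (by positivity)

lemma bet_restrict {κ : Type} [Fintype κ] (W : Submodule (ZMod p) V)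
    (B : κ → V →ₗ[ZMod p] V →ₗ[ZMod p] ZMod p) (α : κ → ZMod p) :
    bet (fun k => (B k).compl₁₂ W.subtype W.subtype) α =
      (bet B α).compl₁₂ W.subtype W.subtype := by
  ext v w
  simp [bet_apply]

lemma dbl_restrict (W : Submodule (ZMod p) V) (B : I → V →ₗ[ZMod p] V →ₗ[ZMod p] ZMod p) :
    dbl (fun i => (B i).compl₁₂ W.subtype W.subtype) =
      fun k => (dbl B k).compl₁₂ W.subtype W.subtype := by
  funext k
  rcases k with k | k <;> rfl

lemma high_rank {κ : Type} [Fintype κ] [DecidableEq κ] {W : Submodule (ZMod p) V}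
    {B : κ → V →ₗ[ZMod p] V →ₗ[ZMod p] ZMod p} {r R' s : ℕ} (hg : Gap W B r R')
    (hs : 2 * (Fintype.card (κ → ZMod p) * r) + s ≤ R') (α : κ → ZMod p)
    (hα : ¬ rk W (bet B α) < r) :
    s ≤ finrank (ZMod p) (LinearMap.range
      (bet (fun k => (B k).compl₁₂ (V2 W B r).subtype (V2 W B r).subtype) α)) := by
  rw [bet_restrict, ← rk_eq_range]
  have h1 := rk_restrict W (V2 W B r) (V2_le _ _ _) _ (codim_V2 W B r) (bet B α)
  have h2 := (hg α).resolve_left hα
  omega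

lemma cnt_good (hp2 : p ≠ 2) {W : Submodule (ZMod p) V}
    {B : I → V →ₗ[ZMod p] V →ₗ[ZMod p] ZMod p} {r R' s : ℕ} (hg : Gap W (dbl B) r R')
    (hs : 2 * (Fintype.card (I ⊕ I → ZMod p) * r) + s ≤ R') :
    |∑ u : J → V, ind ((∀ t, u t ∈ V2 W (dbl B) r) ∧ ∀ i a b, B i (u a) (u b) = 0) -
      Fintype.card (J → V) * phi J W B r| ≤
        Fintype.card (J → V) * Real.sqrt (1 / (p : ℝ) ^ s) := by
  have h := gauss_count (J := J) hp2
    (fun i => (B i).compl₁₂ (V2 W (dbl B) r).subtype (V2 W (dbl B) r).subtype)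
    (fun α => rk W (bet (dbl B) α) < r) s
    (fun α hα => by
      rw [dbl_restrict, bet_restrict]
      exact LinearMap.ext fun v => LinearMap.ext fun w => v.2.2 α hα w w.2.1)
    (fun α hα => by
      rw [dbl_restrict]
      exact high_rank hg hs α hα)
  have h0 : (0 : ℝ) < Fintype.card (J → V) := by exact_mod_cast Fintype.card_pos
  have h1 : (Fintype.card (J → V) : ℝ) * phi J W B r = Fintype.card (J → V2 W (dbl B) r) *
      ((∑ θ : J → J → I → ZMod p,
        ind (∀ s t, rk W (bet (dbl B) (Sum.elim (θ s t) (θ t s))) < r)) /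
          Fintype.card (J → J → I → ZMod p)) := by
    unfold phi
    rw [← mul_assoc, mul_div_cancel₀ _ h0.ne', Fintype.card_fun (α := J) (β := V2 W (dbl B) r)]
    push_cast
    rw [card_eq_pow (p := p) (G := V2 W (dbl B) r)]
  rw [sum_restrict, h1]
  exact h.trans (mul_le_mul_of_nonneg_right (card_fun_le _) (Real.sqrt_nonneg _))

lemma cnt_nongen {κ : Type} [Fintype κ] [DecidableEq κ] {W : Submodule (ZMod p) V}
    {B : κ → V →ₗ[ZMod p] V →ₗ[ZMod p] ZMod p} {r R' s : ℕ} (hg : Gap W B r R')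
    (hs : 2 * (Fintype.card (κ → ZMod p) * r) + s ≤ R') :
    ∑ u : J → V, ind ((∀ t, u t ∈ V2 W B r) ∧ ¬ Generic W B r u) ≤
      Fintype.card (J → V) * (Fintype.card (J → κ → ZMod p) / (p : ℝ) ^ s) := by
  have hp := p_pos (p := p)
  have h := nongen_count (J := J)
    (fun k => (B k).compl₁₂ (V2 W B r).subtype (V2 W B r).subtype)
    (fun α => rk W (bet B α) < r) s (high_rank hg hs)
  rw [sum_restrict]
  refine le_trans (Finset.sum_le_sum fun u _ => ind_mono fun hu => ?_) (h.trans ?_)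
  · unfold Generic at hu
    push Not at hu
    obtain ⟨α, h1, t, ht⟩ := hu
    refine ⟨α, LinearMap.ext fun v => ?_, t, not_lt.2 ht⟩
    have := h1 v v.2
    simpa [LinearMap.sum_apply, bet_restrict] using this
  · have := card_fun_le (J := J) (V2 W B r)
    calc (Fintype.card (J → κ → ZMod p) : ℝ) * (Fintype.card (J → V2 W B r) / (p : ℝ) ^ s)
        ≤ Fintype.card (J → κ → ZMod p) * (Fintype.card (J → V) / (p : ℝ) ^ s) := by gcongr
      _ = _ := by ring

lemma cnt_dep : ∑ u : J → V, ind (∃ x : J → ZMod p, x ≠ 0 ∧ ∑ t, x t • u t = 0) ≤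
    Fintype.card (J → V) * (Fintype.card (J → ZMod p) / Fintype.card V) := by
  have hp := p_pos (p := p)
  refine (Finset.sum_le_sum fun U _ => ind_exists_le _).trans ?_
  rw [Finset.sum_comm]
  refine (Finset.sum_le_card_nsmul _ _ ((Fintype.card (J → V) : ℝ) / Fintype.card V)
    fun x _ => ?_).trans (by rw [Finset.card_univ, nsmul_eq_mul]; apply le_of_eq; ring)
  by_cases hx : x = 0
  · rw [Finset.sum_eq_zero fun U _ => ind_neg fun h' => h'.1 hx]
    positivity
  · obtain ⟨t0, ht0⟩ := Function.ne_iff.1 hx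
    set Φ : (J → V) →ₗ[ZMod p] V := ∑ t, x t • LinearMap.proj t with hΦ
    have hΦa : ∀ U, Φ U = ∑ t, x t • U t := fun U => by simp [hΦ, LinearMap.sum_apply]
    have h2 : LinearMap.range Φ = ⊤ := by
      rw [LinearMap.range_eq_top]
      intro w
      refine ⟨Pi.single t0 ((x t0)⁻¹ • w), ?_⟩
      rw [hΦa, Finset.sum_eq_single t0]
      · rw [Pi.single_eq_same, smul_smul, mul_inv_cancel₀ ht0, one_smul]
      · intro b _ hb
        simp [Pi.single_eq_of_ne hb]
      · simp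
    have h4 := LinearMap.finrank_range_add_finrank_ker Φ
    rw [h2, finrank_top] at h4
    refine le_trans (Finset.sum_le_sum fun U _ => ind_mono (Q := U ∈ LinearMap.ker Φ)
      fun h => by rw [LinearMap.mem_ker, hΦa]; exact h.2) ?_
    rw [sum_ind_mem, card_eq_pow (p := p), card_eq_pow (p := p) (G := V),
      le_div_iff₀ (by positivity), ← pow_add]
    exact pow_le_pow_right₀ one_le_p (by omega)

lemma windows (R : ℕ → ℕ) (hR : Monotone R) (x m : ℕ) :
    ∑ i ∈ Finset.range m, ind (R i ≤ x ∧ x < R (i + 1)) ≤ ind (x < R m) := by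
  induction m with
  | zero => simpa using ind_nonneg _
  | succ m ih =>
    rw [Finset.sum_range_succ]
    have h1 := hR (Nat.le_succ m)
    by_cases h : x < R m
    · rw [ind_neg (P := R m ≤ x ∧ x < R (m + 1)) (fun h' => by omega), add_zero]
      exact ih.trans (ind_mono fun _ => lt_of_lt_of_le h h1)
    · rw [ind_neg h] at ih
      have := ind_mono (P := R m ≤ x ∧ x < R (m + 1)) (Q := x < R (m + 1)) fun h' => h'.2
      linarith

lemma gap_windows {κ : Type} [Fintype κ] [DecidableEq κ] (W : Submodule (ZMod p) V)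
    (B : κ → V →ₗ[ZMod p] V →ₗ[ZMod p] ZMod p) (R : ℕ → ℕ) (hR : Monotone R) (m : ℕ) :
    ∑ i ∈ Finset.range m, ind (¬ Gap W B (R i) (R (i + 1))) ≤ Fintype.card (κ → ZMod p) := by
  calc ∑ i ∈ Finset.range m, ind (¬ Gap W B (R i) (R (i + 1)))
      ≤ ∑ i ∈ Finset.range m, ∑ α : κ → ZMod p,
          ind (R i ≤ rk W (bet B α) ∧ rk W (bet B α) < R (i + 1)) := by
        refine Finset.sum_le_sum fun i _ => le_trans (ind_mono fun h => ?_) (ind_exists_le _)
        unfold Gap at h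
        push Not at h
        exact h
    _ ≤ ∑ _α : κ → ZMod p, (1 : ℝ) := by
        rw [Finset.sum_comm]
        exact Finset.sum_le_sum fun α _ => (windows R hR _ m).trans (ind_le_one _)
    _ = _ := by simp

end MP_4523ee_co.Fp.Sub
end

-- merged part: Pool.Agent.Work.MP_4523ee_co.Fp.SubKB
section
/-!
Section 4, KB: the mean size of the kernel `K_M`.
-/

set_option autoImplicit false
set_option linter.unusedSectionVars false

namespace MP_4523ee_co.Fp.Sub

open Module Finset Matrix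
open Pool.Agent.Work.MP_4523ee_co.Fp hiding ind

variable {p : ℕ} [Fact p.Prime] {X : Type} [AddCommGroup X] [Module (ZMod p) X] [Fintype X]
  {ν : Type} [Fintype ν] [DecidableEq ν]

lemma fibre_le {G Y : Type} [AddCommGroup G] [Module (ZMod p) G] [Fintype G] [AddCommGroup Y]
    [Module (ZMod p) Y] (L : G →ₗ[ZMod p] Y) (z : Y) :
    ∑ x, ind (L x = z) ≤ (p : ℝ) ^ finrank (ZMod p) (LinearMap.ker L) := by
  by_cases h : ∃ x0, L x0 = z
  · obtain ⟨x0, rfl⟩ := h
    rw [← sum_ind_mem, ← Equiv.sum_comp (Equiv.addRight x0)]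
    refine le_of_eq (Finset.sum_congr rfl fun x _ => ind_congr ?_)
    simp
  · rw [Finset.sum_eq_zero fun x _ => ind_neg fun h' => h ⟨x, h'⟩]
    have := p_pos (p := p)
    positivity

/-- `M ↦ M y` on symmetric matrices -/
def Ly (y : ν → X) : SymM p ν →ₗ[ZMod p] (ν → X) where
  toFun M := act M.1 y
  map_add' a b := s_add_act _ _ _
  map_smul' c a := by
    funext i
    simp [act, mul_smul, Finset.smul_sum]

lemma finrank_pi_sub (E : Submodule (ZMod p) X) :
    Fintype.card ν * finrank (ZMod p) E ≤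
      finrank (ZMod p) (Submodule.pi Set.univ fun _ : ν => E) := by
  let f : (ν → E) →ₗ[ZMod p] (Submodule.pi Set.univ fun _ : ν => E) :=
    { toFun := fun z => ⟨fun i => (z i : X), fun i _ => (z i).2⟩
      map_add' := fun a b => rfl
      map_smul' := fun c a => rfl }
  have hf : Function.Injective f := by
    intro a b h
    funext i
    exact Subtype.ext (congrFun (congrArg Subtype.val h) i)
  have := LinearMap.finrank_le_finrank_of_injective hf
  rw [Module.finrank_pi_fintype] at this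
  simpa using this

lemma range_Ly (y : ν → X) :
    Fintype.card ν * finrank (ZMod p) (Submodule.span (ZMod p) (Set.range y)) ≤
      finrank (ZMod p) (LinearMap.range (Ly (p := p) y)) + finrank (ZMod p) X ^ 2 := by
  set E := Submodule.span (ZMod p) (Set.range y) with hE
  let c : (ν → X) →ₗ[ZMod p] (Module.Dual (ZMod p) X →ₗ[ZMod p] X) :=
    LinearMap.mk₂ (ZMod p) (fun z φ => ∑ j, φ (z j) • y j)
      (fun a b x => by simp [add_smul, Finset.sum_add_distrib])
      (fun c a x => by simp [mul_smul, Finset.smul_sum])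
      (fun a x y => by simp [add_smul, Finset.sum_add_distrib])
      (fun c a x => by simp [mul_smul, Finset.smul_sum])
  have h1 := finrank_le_inf_ker' (Submodule.pi Set.univ fun _ : ν => E) c
  rw [Module.finrank_linearMap, Subspace.dual_finrank_eq] at h1
  obtain ⟨g, hg⟩ := exists_ginv (dotl.flip y : (ν → ZMod p) →ₗ[ZMod p] X)
  have hg' : ∀ x ∈ E, dotl (g x) y = x := by
    intro x hx
    obtain ⟨v, rfl⟩ := (Submodule.mem_span_range_iff_exists_fun (ZMod p)).1 hx
    exact hg v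
  have h2 : (Submodule.pi Set.univ fun _ : ν => E) ⊓ LinearMap.ker c ≤
      LinearMap.range (Ly (p := p) y) := by
    rintro z ⟨hz, hc⟩
    let m : Matrix ν ν (ZMod p) := Matrix.of fun i j => g (z i) j
    refine ⟨⟨m + mᵀ, ?_⟩, ?_⟩
    · show (m + mᵀ)ᵀ = m + mᵀ
      rw [transpose_add, transpose_transpose, add_comm]
    · show act (m + mᵀ) y = z
      rw [s_add_act]
      funext i
      have e1 : act m y i = z i := hg' (z i) (hz i trivial)
      have e2 : act mᵀ y i = 0 :=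
        LinearMap.congr_fun (LinearMap.mem_ker.1 hc) ((LinearMap.proj i).comp g)
      rw [Pi.add_apply, e1, e2, add_zero]
  have h3 := Submodule.finrank_mono h2
  have h4 := finrank_pi_sub (ν := ν) E
  rw [sq]
  omega

lemma prob_eq (y z : ν → X) :
    ∑ M : SymM p ν, ind (act M.1 y = z) ≤ Fintype.card (SymM p ν) *
      (p : ℝ) ^ (finrank (ZMod p) X ^ 2) /
        ((p : ℝ) ^ finrank (ZMod p) (Submodule.span (ZMod p) (Set.range y))) ^ Fintype.card ν := by
  have hp := p_pos (p := p)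
  refine (fibre_le (Ly y) z).trans ?_
  rw [card_eq_pow (p := p), le_div_iff₀ (by positivity), ← pow_mul, ← pow_add, ← pow_add]
  refine pow_le_pow_right₀ one_le_p ?_
  have h1 := LinearMap.finrank_range_add_finrank_ker (Ly (p := p) y)
  have h2 := range_Ly (p := p) y
  rw [mul_comm] at h2
  omega

lemma card_submodule_le [Fintype (Submodule (ZMod p) X)] :
    Fintype.card (Submodule (ZMod p) X) ≤ 2 ^ Fintype.card X := by
  classical
  rw [← Fintype.card_set]
  exact Fintype.card_le_of_injective (fun E => (E : Set X)) SetLike.coe_injective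

lemma kb (Λ : Submodule (ZMod p) (GX X ν)) (T : ℝ) (hT0 : 0 ≤ T)
    (hT : ∀ E : Submodule (ZMod p) X, (p : ℝ) ^ finrank (ZMod p) (Λ ⊓ pw ν E :
      Submodule (ZMod p) (GX X ν)) ≤ T * ((p : ℝ) ^ finrank (ZMod p) E) ^ Fintype.card ν) :
    ∑ M : SymM p ν, (p : ℝ) ^ finrank (ZMod p) (Kr Λ M) ≤ Fintype.card (SymM p ν) *
      (2 ^ Fintype.card X * (p : ℝ) ^ (finrank (ZMod p) X ^ 2) * T) := by
  classical
  have hp := p_pos (p := p)
  have : Finite (Submodule (ZMod p) X) :=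
    Finite.of_injective (fun E => (E : Set X)) SetLike.coe_injective
  let _ : Fintype (Submodule (ZMod p) X) := Fintype.ofFinite _
  set c : ℝ := (Fintype.card (SymM p ν) : ℝ) * (p : ℝ) ^ (finrank (ZMod p) X ^ 2) with hc
  have hc0 : 0 ≤ c := by positivity
  have h1 : ∀ τ : GX X ν, ∑ M : SymM p ν, ind (τ ∈ Kr Λ M) ≤
      ∑ E : Submodule (ZMod p) X, ind (τ ∈ Λ ⊓ pw ν E) *
        (c / ((p : ℝ) ^ finrank (ZMod p) E) ^ Fintype.card ν) := by
    intro τ
    have hnn : ∀ E : Submodule (ZMod p) X, 0 ≤ ind (τ ∈ Λ ⊓ pw ν E) *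
        (c / ((p : ℝ) ^ finrank (ZMod p) E) ^ Fintype.card ν) := fun E =>
      mul_nonneg (ind_nonneg _) (by positivity)
    by_cases h : ∃ M : SymM p ν, τ ∈ Kr Λ M
    · obtain ⟨M0, h0, h0'⟩ := h
      refine le_trans ?_ (Finset.single_le_sum (fun E _ => hnn E)
        (Finset.mem_univ (Submodule.span (ZMod p) (Set.range τ.1))))
      have hz : τ.2 = act M0.1 τ.1 := sub_eq_zero.1 (LinearMap.mem_ker.1 h0')
      have hm : τ ∈ Λ ⊓ pw ν (Submodule.span (ZMod p) (Set.range τ.1)) := by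
        refine ⟨h0, fun i _ => Submodule.subset_span ⟨i, rfl⟩, fun i _ => ?_⟩
        rw [hz]
        exact Submodule.sum_mem _ fun j _ =>
          Submodule.smul_mem _ _ (Submodule.subset_span ⟨j, rfl⟩)
      rw [ind_pos hm, one_mul]
      refine le_trans (Finset.sum_le_sum fun M _ => ind_mono fun h => ?_) (prob_eq τ.1 τ.2)
      exact (sub_eq_zero.1 (LinearMap.mem_ker.1 h.2)).symm
    · rw [Finset.sum_eq_zero fun M _ => ind_neg fun h' => h ⟨M, h'⟩]
      exact Finset.sum_nonneg fun E _ => hnn E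
  calc ∑ M : SymM p ν, (p : ℝ) ^ finrank (ZMod p) (Kr Λ M)
      = ∑ τ : GX X ν, ∑ M : SymM p ν, ind (τ ∈ Kr Λ M) := by
        rw [Finset.sum_comm]
        exact Finset.sum_congr rfl fun M _ => (sum_ind_mem _).symm
    _ ≤ ∑ τ : GX X ν, ∑ E : Submodule (ZMod p) X, ind (τ ∈ Λ ⊓ pw ν E) *
        (c / ((p : ℝ) ^ finrank (ZMod p) E) ^ Fintype.card ν) :=
        Finset.sum_le_sum fun τ _ => h1 τ
    _ = ∑ E : Submodule (ZMod p) X, (p : ℝ) ^ finrank (ZMod p) (Λ ⊓ pw ν E :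
        Submodule (ZMod p) (GX X ν)) * (c / ((p : ℝ) ^ finrank (ZMod p) E) ^ Fintype.card ν) := by
        rw [Finset.sum_comm]
        refine Finset.sum_congr rfl fun E _ => ?_
        rw [← Finset.sum_mul, sum_ind_mem]
    _ ≤ ∑ _E : Submodule (ZMod p) X, T * c := by
        refine Finset.sum_le_sum fun E _ => ?_
        have hq : (0 : ℝ) < ((p : ℝ) ^ finrank (ZMod p) E) ^ Fintype.card ν := by positivity
        refine (mul_le_mul_of_nonneg_right (hT E) (by positivity)).trans (le_of_eq ?_)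
        field_simp
    _ ≤ 2 ^ Fintype.card X * (T * c) := by
        rw [Finset.sum_const, Finset.card_univ, nsmul_eq_mul]
        refine mul_le_mul_of_nonneg_right ?_ (by positivity)
        exact_mod_cast card_submodule_le
    _ = _ := by rw [hc]; ring

end MP_4523ee_co.Fp.Sub
end

-- merged part: Pool.Agent.Work.MP_4523ee_co.Fp.SubMain
section
/-!
Section 4, assembly: the weight on tiles adapted to a subspace.
-/

set_option autoImplicit false
set_option linter.unusedSectionVars false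

namespace MP_4523ee_co.Fp.Sub

open Module Finset Matrix
open Pool.Agent.Work.MP_4523ee_co.Fp hiding ind
open scoped BigOperators

variable {p : ℕ} [Fact p.Prime] {X : Type} [AddCommGroup X] [Module (ZMod p) X] [Fintype X]
  {ν J I : Type} [Fintype ν] [DecidableEq ν] [Fintype J] [DecidableEq J] [Fintype I]
  [DecidableEq I]

lemma expect_T (g : (J → ν → ZMod p) → ℝ) :
    𝔼 U : Matrix ν J (ZMod p), g (fun t => Uᵀ t) =
      (∑ u : J → ν → ZMod p, g u) / Fintype.card (J → ν → ZMod p) := by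
  let e : Matrix ν J (ZMod p) ≃ (J → ν → ZMod p) :=
    { toFun := fun U t => Uᵀ t
      invFun := fun u => Matrix.of fun i t => u t i
      left_inv := fun U => rfl
      right_inv := fun u => rfl }
  rw [Fintype.expect_eq_sum_div_card, Fintype.card_congr e]
  congr 1
  exact Fintype.sum_equiv e _ _ fun U => rfl

lemma inj_of_indep (U : Matrix ν J (ZMod p))
    (h : ¬ ∃ x : J → ZMod p, x ≠ 0 ∧ ∑ t, x t • Uᵀ t = 0) : Inj U := by
  intro a b hab
  by_contra hne
  refine h ⟨a - b, sub_ne_zero.2 hne, ?_⟩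
  have : U *ᵥ (a - b) = 0 := by rw [Matrix.mulVec_sub, hab, sub_self]
  rw [← this]
  funext i
  simp [Matrix.mulVec, dotProduct, Finset.sum_apply, mul_comm]

/-- the vectors lie in `V2` and the forms vanish on them -/
def Good (bs : Basis I (ZMod p) X) (Λ : Submodule (ZMod p) (GX X ν)) (r : ℕ) (M : SymM p ν)
    (u : J → ν → ZMod p) : Prop :=
  (∀ t, u t ∈ V2 (V1 Λ M) (dbl (Bf bs Λ M)) r) ∧ ∀ ab a b, Bf bs Λ M ab (u a) (u b) = 0

/-- the vectors lie in `V2` and are not generic -/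
def Bad (bs : Basis I (ZMod p) X) (Λ : Submodule (ZMod p) (GX X ν)) (r : ℕ) (M : SymM p ν)
    (u : J → ν → ZMod p) : Prop :=
  (∀ t, u t ∈ V2 (V1 Λ M) (dbl (Bf bs Λ M)) r) ∧ ¬ Generic (V1 Λ M) (dbl (Bf bs Λ M)) r u

/-- small kernel and a gap of ranks -/
def Pt (bs : Basis I (ZMod p) X) (Λ : Submodule (ZMod p) (GX X ν)) (k1 a b : ℕ) (M : SymM p ν) :
    Prop := finrank (ZMod p) (Kr Λ M) ≤ k1 ∧ Gap (V1 Λ M) (dbl (Bf bs Λ M)) a b

/-- the weight -/
noncomputable def wt (bs : Basis I (ZMod p) X) (Λ : Submodule (ZMod p) (GX X ν)) (k1 a b r : ℕ)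
    (M : SymM p ν) (u : J → ν → ZMod p) : ℝ :=
  ind (Pt bs Λ k1 a b M ∧ Good bs Λ r M u ∧ ¬ Bad bs Λ r M u ∧
    ¬ ∃ x : J → ZMod p, x ≠ 0 ∧ ∑ t, x t • u t = 0) / phi J (V1 Λ M) (Bf bs Λ M) r

section
variable (bs : Basis I (ZMod p) X) (Λ : Submodule (ZMod p) (GX X ν)) {k1 R R' s : ℕ} {μ ε : ℝ}

lemma wt_ne {a b r : ℕ} {M : SymM p ν} {u : J → ν → ZMod p} (h : wt bs Λ k1 a b r M u ≠ 0) :
    Pt bs Λ k1 a b M ∧ Good bs Λ r M u ∧ ¬ Bad bs Λ r M u ∧
      ¬ ∃ x : J → ZMod p, x ≠ 0 ∧ ∑ t, x t • u t = 0 := by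
  by_contra hc
  refine h ?_
  unfold wt
  rw [ind_neg hc, zero_div]

lemma tile_bound (hR : R + Fintype.card J * Fintype.card ((I × I) ⊕ (I × I)) ≤ R') (hμ : 0 < μ)
    (hφ : ∀ M, finrank (ZMod p) (Kr Λ M) ≤ k1 → μ ≤ phi J (V1 Λ M) (Bf bs Λ M)
      (R + Fintype.card J * Fintype.card ((I × I) ⊕ (I × I))))
    (M : SymM p ν) (U : Matrix ν J (ZMod p)) (N : SymM p J) :
    wt bs Λ k1 R (R' + Fintype.card J * Fintype.card ((I × I) ⊕ (I × I)))
        (R + Fintype.card J * Fintype.card ((I × I) ⊕ (I × I))) M (fun t => Uᵀ t) ≤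
      ind (Pt bs Λ k1 (R + Fintype.card J * Fintype.card ((I × I) ⊕ (I × I))) R' (M + cj U N)) *
        (ind (Good bs Λ (R + Fintype.card J * Fintype.card ((I × I) ⊕ (I × I))) (M + cj U N)
            fun t => Uᵀ t) / phi J (V1 Λ (M + cj U N)) (Bf bs Λ (M + cj U N))
              (R + Fintype.card J * Fintype.card ((I × I) ⊕ (I × I))) +
          ind (Bad bs Λ (R + Fintype.card J * Fintype.card ((I × I) ⊕ (I × I))) (M + cj U N)
            fun t => Uᵀ t) / μ) := by
  set Q := Fintype.card J * Fintype.card ((I × I) ⊕ (I × I)) with hQ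
  unfold wt
  by_cases h : Pt bs Λ k1 R (R' + Q) M ∧ Good bs Λ (R + Q) M (fun t => Uᵀ t) ∧
      ¬ Bad bs Λ (R + Q) M (fun t => Uᵀ t) ∧
      ¬ ∃ x : J → ZMod p, x ≠ 0 ∧ ∑ t, x t • Uᵀ t = 0
  · rw [ind_pos h]
    obtain ⟨⟨hK, hgap⟩, ⟨hu, hB⟩, hbad, -⟩ := h
    have hU : ∀ t, Uᵀ t ∈ V1 Λ M := fun t => (hu t).1
    have hSG := SG_of bs hU hB
    have hrel := rel_tile bs hU hB N
    have hV := V1_tile hSG N
    have hA := hrel.low_iff hgap hR
    have hgen : Generic (V1 Λ M) (dbl (Bf bs Λ M)) (R + Q) fun t => Uᵀ t := by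
      by_contra hc
      exact hbad ⟨hu, hc⟩
    have hu' : ∀ t, Uᵀ t ∈ V2 (V1 Λ M) (dbl (Bf bs Λ (M + cj U N))) (R + Q) :=
      fun t => hrel.mem_V2 hA (hu t)
    have hK' : finrank (ZMod p) (Kr Λ (M + cj U N)) ≤ k1 := by rw [Kr_tile hSG N]; exact hK
    have h1 : Pt bs Λ k1 (R + Q) R' (M + cj U N) := ⟨hK', by rw [hV]; exact hrel.gap hgap⟩
    have h2 : Good bs Λ (R + Q) (M + cj U N) fun t => Uᵀ t :=
      ⟨by rw [hV]; exact hu', fun ab a b => (hrel.h1 (Sum.inl ab) a _ (hU b)).trans (hB ab a b)⟩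
    have hφ' := hφ _ hK'
    have hφ0 := hφ _ hK
    rw [ind_pos h1, ind_pos h2, one_mul]
    by_cases hb : Bad bs Λ (R + Q) (M + cj U N) fun t => Uᵀ t
    · rw [ind_pos hb]
      have e1 : 1 / phi J (V1 Λ M) (Bf bs Λ M) (R + Q) ≤ 1 / μ := one_div_le_one_div_of_le hμ hφ0
      have e2 : 0 ≤ 1 / phi J (V1 Λ (M + cj U N)) (Bf bs Λ (M + cj U N)) (R + Q) :=
        (one_div_pos.2 (hμ.trans_le hφ')).le
      linarith
    · have hgen' : Generic (V1 Λ M) (dbl (Bf bs Λ (M + cj U N))) (R + Q) fun t => Uᵀ t := by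
        by_contra hc
        exact hb ⟨h2.1, by rw [hV]; exact hc⟩
      rw [ind_neg hb, zero_div, add_zero, hV,
        phi_congr hA (hrel.finrank_V2 hA hu hgen hgen')]
  · rw [ind_neg h, zero_div]
    by_cases h1 : Pt bs Λ k1 (R + Q) R' (M + cj U N)
    · have := hμ.trans_le (hφ _ h1.1)
      exact mul_nonneg (ind_nonneg _) (add_nonneg (div_nonneg (ind_nonneg _) this.le)
        (div_nonneg (ind_nonneg _) hμ.le))
    · rw [ind_neg h1, zero_mul]

lemma marg_bound (hp2 : p ≠ 2) {r : ℕ} (hμ : 0 < μ) (hε : 0 ≤ ε)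
    (hφ : ∀ M, finrank (ZMod p) (Kr Λ M) ≤ k1 → μ ≤ phi J (V1 Λ M) (Bf bs Λ M) r)
    (hs : 2 * (Fintype.card ((I × I) ⊕ (I × I) → ZMod p) * r) + s ≤ R')
    (h1 : Real.sqrt (1 / (p : ℝ) ^ s) ≤ ε * μ)
    (h2 : (Fintype.card (J → (I × I) ⊕ (I × I) → ZMod p) : ℝ) / (p : ℝ) ^ s ≤ ε * μ)
    (M : SymM p ν) :
    (∑ u : J → ν → ZMod p, ind (Pt bs Λ k1 r R' M) *
      (ind (Good bs Λ r M u) / phi J (V1 Λ M) (Bf bs Λ M) r + ind (Bad bs Λ r M u) / μ)) /
        Fintype.card (J → ν → ZMod p) ≤ 1 + 2 * ε := by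
  have h0 : (0 : ℝ) < Fintype.card (J → ν → ZMod p) := by exact_mod_cast Fintype.card_pos
  by_cases h : Pt bs Λ k1 r R' M
  · have hφ' := hφ _ h.1
    have hφ0 := hμ.trans_le hφ'
    have e1 := (abs_le.1 (cnt_good (J := J) hp2 h.2 hs)).2
    have e2 := cnt_nongen (J := J) h.2 hs
    rw [ind_pos h]
    simp only [one_mul]
    rw [Finset.sum_add_distrib, ← Finset.sum_div, ← Finset.sum_div, div_le_iff₀ h0]
    set c : ℝ := (Fintype.card (J → ν → ZMod p) : ℝ)
    have e3 : (∑ u : J → ν → ZMod p, ind (Good bs Λ r M u)) / phi J (V1 Λ M) (Bf bs Λ M) r ≤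
        (1 + ε) * c := by
      rw [div_le_iff₀ hφ0]
      have : c * Real.sqrt (1 / (p : ℝ) ^ s) ≤ c * (ε * phi J (V1 Λ M) (Bf bs Λ M) r) :=
        mul_le_mul_of_nonneg_left (h1.trans (mul_le_mul_of_nonneg_left hφ' hε)) h0.le
      unfold Good
      linarith
    have e4 : (∑ u : J → ν → ZMod p, ind (Bad bs Λ r M u)) / μ ≤ ε * c := by
      rw [div_le_iff₀ hμ]
      have := mul_le_mul_of_nonneg_left h2 h0.le
      unfold Bad
      linarith
    linarith
  · rw [ind_neg h]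
    simp only [zero_mul, Finset.sum_const_zero, zero_div]
    linarith

lemma low_bound (hp2 : p ≠ 2) {a b r : ℕ} (hμ : 0 < μ) (hε : 0 ≤ ε) (har : a ≤ r) (hb : R' ≤ b)
    (hφ : ∀ M, finrank (ZMod p) (Kr Λ M) ≤ k1 → μ ≤ phi J (V1 Λ M) (Bf bs Λ M) r)
    (hs : 2 * (Fintype.card ((I × I) ⊕ (I × I) → ZMod p) * r) + s ≤ R')
    (h1 : Real.sqrt (1 / (p : ℝ) ^ s) ≤ ε * μ)
    (h2 : (Fintype.card (J → (I × I) ⊕ (I × I) → ZMod p) : ℝ) / (p : ℝ) ^ s ≤ ε * μ)
    (h3 : (Fintype.card (J → ZMod p) : ℝ) / Fintype.card (ν → ZMod p) ≤ ε * μ)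
    (M : SymM p ν) (h : Pt bs Λ k1 a b M) :
    1 - 3 * ε ≤ (∑ u : J → ν → ZMod p, wt bs Λ k1 a b r M u) /
      Fintype.card (J → ν → ZMod p) := by
  have h0 : (0 : ℝ) < Fintype.card (J → ν → ZMod p) := by exact_mod_cast Fintype.card_pos
  have hφ' := hφ _ h.1
  have hφ0 := hμ.trans_le hφ'
  have hg : Gap (V1 Λ M) (dbl (Bf bs Λ M)) r R' := fun α =>
    (h.2 α).imp (fun h => lt_of_lt_of_le h har) (fun h => hb.trans h)
  have e1 := (abs_le.1 (cnt_good (J := J) hp2 hg hs)).1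
  have e2 := cnt_nongen (J := J) hg hs
  have e3 := cnt_dep (p := p) (J := J) (V := ν → ZMod p)
  have e4 : ∀ u : J → ν → ZMod p, ind (Good bs Λ r M u) - ind (Bad bs Λ r M u) -
      ind (∃ x : J → ZMod p, x ≠ 0 ∧ ∑ t, x t • u t = 0) ≤
      ind (Pt bs Λ k1 a b M ∧ Good bs Λ r M u ∧ ¬ Bad bs Λ r M u ∧
        ¬ ∃ x : J → ZMod p, x ≠ 0 ∧ ∑ t, x t • u t = 0) := by
    intro u
    have a1 := ind_le_one (Good bs Λ r M u)
    have a2 := ind_nonneg (Bad bs Λ r M u)
    have a3 := ind_nonneg (∃ x : J → ZMod p, x ≠ 0 ∧ ∑ t, x t • u t = 0)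
    have a4 := ind_nonneg (Pt bs Λ k1 a b M ∧ Good bs Λ r M u ∧ ¬ Bad bs Λ r M u ∧
        ¬ ∃ x : J → ZMod p, x ≠ 0 ∧ ∑ t, x t • u t = 0)
    by_cases b1 : Good bs Λ r M u
    · by_cases b2 : Bad bs Λ r M u
      · rw [ind_pos b2]; linarith
      · by_cases b3 : ∃ x : J → ZMod p, x ≠ 0 ∧ ∑ t, x t • u t = 0
        · rw [ind_pos b3]; linarith
        · rw [ind_pos (P := Pt bs Λ k1 a b M ∧ Good bs Λ r M u ∧ ¬ Bad bs Λ r M u ∧
            ¬ ∃ x : J → ZMod p, x ≠ 0 ∧ ∑ t, x t • u t = 0) ⟨h, b1, b2, b3⟩]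
          linarith
    · rw [ind_neg b1]; linarith
  have e5 := Finset.sum_le_sum fun u (_ : u ∈ Finset.univ) => e4 u
  rw [Finset.sum_sub_distrib, Finset.sum_sub_distrib] at e5
  unfold wt
  rw [← Finset.sum_div, le_div_iff₀ h0, le_div_iff₀ hφ0]
  refine le_trans ?_ e5
  set c : ℝ := (Fintype.card (J → ν → ZMod p) : ℝ)
  have hm : ε * μ ≤ ε * phi J (V1 Λ M) (Bf bs Λ M) r := mul_le_mul_of_nonneg_left hφ' hε
  have f1 := mul_le_mul_of_nonneg_left (h1.trans hm) h0.le
  have f2 := mul_le_mul_of_nonneg_left (h2.trans hm) h0.le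
  have f3 := mul_le_mul_of_nonneg_left (h3.trans hm) h0.le
  unfold Good Bad
  linarith

end

lemma exists_pow_small (C δ : ℝ) (hδ : 0 < δ) : ∃ s : ℕ, ∀ n, s ≤ n → C / (p : ℝ) ^ n ≤ δ := by
  have hp := p_pos (p := p)
  have h1 : (1 : ℝ) < p := by exact_mod_cast (Fact.out : p.Prime).one_lt
  obtain ⟨s, hs⟩ := pow_unbounded_of_one_lt (C / δ) h1
  refine ⟨s, fun n hn => ?_⟩
  rw [div_le_iff₀ (by positivity), mul_comm, ← div_le_iff₀ hδ]
  exact hs.le.trans (pow_le_pow_right₀ h1.le hn)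

theorem sub_dim (hp2 : p ≠ 2) (ρ J : ℕ) (c T ε : ℝ) (hc : 0 < c) (hε : 0 < ε) (hε1 : ε ≤ 1 / 3) :
    ∃ n0 : ℕ, ∀ (ν : Type) [Fintype ν] [DecidableEq ν], n0 ≤ Fintype.card ν →
    ∀ (X : Type) [AddCommGroup X] [Module (ZMod p) X] [Fintype X], finrank (ZMod p) X = ρ →
    ∀ Λ : Submodule (ZMod p) (GX X ν),
    c * (Fintype.card X : ℝ) ^ Fintype.card ν ≤ Fintype.card Λ →
    (∀ E : Submodule (ZMod p) X,
      (Fintype.card ↥(Λ ⊓ pw ν E) : ℝ) ≤ T * (Fintype.card E : ℝ) ^ Fintype.card ν) →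
    ∃ w : SymM p ν → Matrix ν (Fin J) (ZMod p) → ℝ, (∀ M U, 0 ≤ w M U) ∧
      (∀ M U, w M U ≠ 0 → Inj U ∧ SG Λ M U) ∧ 1 - 5 * ε ≤ 𝔼 M, 𝔼 U, w M U ∧
      ∀ M, marg (fun U => U) w M ≤ 1 + 2 * ε := by
  have hp := p_pos (p := p)
  set Q := Fintype.card (Fin J) * Fintype.card ((Fin ρ × Fin ρ) ⊕ (Fin ρ × Fin ρ)) with hQ
  set nα := Fintype.card ((Fin ρ × Fin ρ) ⊕ (Fin ρ × Fin ρ) → ZMod p) with hnα
  obtain ⟨c0, hc0⟩ := exists_pow_small (p := p) 1 c hc
  obtain ⟨k1, hk1⟩ := exists_pow_small (p := p) (2 ^ (p ^ ρ) * (p : ℝ) ^ (ρ ^ 2) * T) ε hε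
  set μ : ℕ → ℝ := fun R => (1 / (p : ℝ) ^ (ρ * (c0 + 2 * k1) + nα * (R + Q))) ^
    Fintype.card (Fin J) / Fintype.card (Fin J → Fin J → Fin ρ × Fin ρ → ZMod p) with hμ
  have hμ0 : ∀ R, 0 < μ R := fun R => by
    have : (0 : ℝ) < Fintype.card (Fin J → Fin J → Fin ρ × Fin ρ → ZMod p) := by
      exact_mod_cast Fintype.card_pos
    simp only [hμ]
    positivity
  have hsx : ∀ R, ∃ s : ℕ, Real.sqrt (1 / (p : ℝ) ^ s) ≤ ε * μ R ∧
      (Fintype.card (Fin J → (Fin ρ × Fin ρ) ⊕ (Fin ρ × Fin ρ) → ZMod p) : ℝ) / (p : ℝ) ^ s ≤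
        ε * μ R := by
    intro R
    have h0 : 0 < ε * μ R := mul_pos hε (hμ0 R)
    obtain ⟨s1, h1⟩ := exists_pow_small (p := p) 1 ((ε * μ R) ^ 2) (by positivity)
    obtain ⟨s2, h2⟩ := exists_pow_small (p := p)
      (Fintype.card (Fin J → (Fin ρ × Fin ρ) ⊕ (Fin ρ × Fin ρ) → ZMod p) : ℝ) _ h0
    exact ⟨max s1 s2, Real.sqrt_le_iff.2 ⟨h0.le, h1 _ (le_max_left _ _)⟩, h2 _ (le_max_right _ _)⟩
  choose s hs1 hs2 using hsx
  let R : ℕ → ℕ := fun i => Nat.rec 1 (fun _ x => 2 * (nα * (x + Q)) + s x + (x + Q) + Q) i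
  have hRs : ∀ i, R (i + 1) = 2 * (nα * (R i + Q)) + s (R i) + (R i + Q) + Q := fun i => rfl
  have hRm : Monotone R := monotone_nat_of_le_succ fun i => by rw [hRs]; omega
  have hR1 : ∀ i, 1 ≤ R i := fun i => hRm (Nat.zero_le i)
  obtain ⟨m, hm⟩ := exists_nat_gt ((nα : ℝ) / ε)
  have hm0 : (0 : ℝ) < m := lt_of_le_of_lt (by positivity) hm
  have hnx : ∀ i, ∃ n1 : ℕ, ∀ n, n1 ≤ n →
      (Fintype.card (Fin J → ZMod p) : ℝ) / (p : ℝ) ^ n ≤ ε * μ (R i) := fun i =>
    exists_pow_small _ _ (mul_pos hε (hμ0 _))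
  choose n1 hn1 using hnx
  refine ⟨(Finset.range m).sup n1, fun ν _ _ hν X _ _ _ hX Λ hΛ hT => ?_⟩
  let bs : Basis (Fin ρ) (ZMod p) X := Module.finBasisOfFinrankEq (ZMod p) X hX
  have hS : (0 : ℝ) < Fintype.card (SymM p ν) := by exact_mod_cast Fintype.card_pos
  have hΛ' : Fintype.card ν * Fintype.card (Fin ρ) ≤ finrank (ZMod p) Λ + c0 := by
    rw [card_eq_pow (p := p) (G := X), card_eq_pow (p := p) (G := Λ), hX, ← pow_mul] at hΛ
    have h1 := hc0 c0 le_rfl
    have h2 : (p : ℝ) ^ (ρ * Fintype.card ν) ≤ (p : ℝ) ^ (finrank (ZMod p) Λ + c0) := by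
      rw [pow_add, ← div_le_iff₀ (by positivity), div_eq_mul_one_div, mul_comm]
      exact (mul_le_mul_of_nonneg_right h1 (by positivity)).trans hΛ
    have h3 : (1 : ℝ) < p := by exact_mod_cast (Fact.out : p.Prime).one_lt
    rw [Fintype.card_fin, mul_comm]
    exact (pow_le_pow_iff_right₀ h3).1 h2
  have hT0 : 0 ≤ T := by
    have h1 := hT ⊥
    have h2 : (0 : ℝ) < (Fintype.card (⊥ : Submodule (ZMod p) X) : ℝ) ^ Fintype.card ν :=
      pow_pos (by exact_mod_cast Fintype.card_pos) _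
    exact nonneg_of_mul_nonneg_left ((Nat.cast_nonneg _).trans h1) h2
  have hkb := kb Λ T hT0 (fun E => by
    have := hT E
    rwa [card_eq_pow (p := p), card_eq_pow (p := p) (G := E)] at this)
  have hXc : Fintype.card X = p ^ ρ := by
    rw [Module.card_eq_pow_finrank (K := ZMod p), ZMod.card, hX]
  rw [hXc, hX] at hkb
  have hK : ∑ M : SymM p ν, ind (¬ finrank (ZMod p) (Kr Λ M) ≤ k1) ≤
      Fintype.card (SymM p ν) * ε := by
    calc ∑ M : SymM p ν, ind (¬ finrank (ZMod p) (Kr Λ M) ≤ k1)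
        ≤ ∑ M : SymM p ν, (p : ℝ) ^ finrank (ZMod p) (Kr Λ M) / (p : ℝ) ^ k1 := by
          refine Finset.sum_le_sum fun M _ => ?_
          by_cases h : finrank (ZMod p) (Kr Λ M) ≤ k1
          · rw [ind_neg (not_not.2 h)]
            positivity
          · rw [ind_pos h, one_le_div (by positivity)]
            exact pow_le_pow_right₀ one_le_p (not_le.1 h).le
      _ ≤ Fintype.card (SymM p ν) * (2 ^ (p ^ ρ) * (p : ℝ) ^ (ρ ^ 2) * T) / (p : ℝ) ^ k1 := by
          rw [← Finset.sum_div]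
          exact div_le_div_of_nonneg_right hkb (by positivity)
      _ ≤ _ := by
          rw [mul_div_assoc]
          exact mul_le_mul_of_nonneg_left (hk1 k1 le_rfl) hS.le
  obtain ⟨i, hi, hG⟩ : ∃ i ∈ Finset.range m, ∑ M : SymM p ν,
      ind (¬ Gap (V1 Λ M) (dbl (Bf bs Λ M)) (R i) (R (i + 1))) ≤ Fintype.card (SymM p ν) * ε := by
    refine Finset.exists_le_of_sum_le ⟨0, Finset.mem_range.2 (by exact_mod_cast hm0)⟩ ?_
    rw [Finset.sum_comm]
    refine (Finset.sum_le_sum fun M _ => gap_windows _ _ R hRm m).trans ?_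
    rw [Finset.sum_const, Finset.sum_const, Finset.card_univ, Finset.card_range, nsmul_eq_mul,
      nsmul_eq_mul, ← hnα, mul_left_comm]
    rw [div_lt_iff₀ hε] at hm
    exact mul_le_mul_of_nonneg_left hm.le hS.le
  set R' := 2 * (nα * (R i + Q)) + s (R i) + (R i + Q) with hR'
  have hRi : R (i + 1) = R' + Q := hRs i
  rw [hRi] at hG
  have hφ : ∀ M, finrank (ZMod p) (Kr Λ M) ≤ k1 →
      μ (R i) ≤ phi (Fin J) (V1 Λ M) (Bf bs Λ M) (R i + Q) := by
    intro M hM
    refine phi_ge _ _ _ _ (by have := hR1 i; omega) ?_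
    have h1 := codim_V1 bs c0 k1 hΛ' hM
    have h2 := codim_V2 (V1 Λ M) (dbl (Bf bs Λ M)) (R i + Q)
    rw [Fintype.card_fin] at h1
    rw [← hnα] at h2
    rw [Module.finrank_fintype_fun_eq_card]
    omega
  have h3 : (Fintype.card (Fin J → ZMod p) : ℝ) / Fintype.card (ν → ZMod p) ≤ ε * μ (R i) := by
    have := hn1 i (Fintype.card ν) ((Finset.le_sup (f := n1) hi).trans hν)
    rwa [card_eq_pow (p := p) (G := ν → ZMod p), Module.finrank_fintype_fun_eq_card]
  have hw0 : ∀ M (u : Fin J → ν → ZMod p), 0 ≤ wt bs Λ k1 (R i) (R' + Q) (R i + Q) M u := by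
    intro M u
    unfold wt
    by_cases h : finrank (ZMod p) (Kr Λ M) ≤ k1
    · exact div_nonneg (ind_nonneg _) ((hμ0 _).le.trans (hφ M h))
    · rw [ind_neg fun h' => h h'.1.1, zero_div]
  refine ⟨fun M U => wt bs Λ k1 (R i) (R' + Q) (R i + Q) M fun t => Uᵀ t, fun M U => hw0 M _,
    fun M U h => ?_, ?_, fun M => ?_⟩
  · obtain ⟨-, ⟨hu, hB⟩, -, hx⟩ := wt_ne bs Λ h
    exact ⟨inj_of_indep U hx, SG_of bs (fun t => (hu t).1) hB⟩
  · have e1 : ∀ M : SymM p ν, (1 - 3 * ε) * (1 - ind (¬ finrank (ZMod p) (Kr Λ M) ≤ k1) -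
        ind (¬ Gap (V1 Λ M) (dbl (Bf bs Λ M)) (R i) (R' + Q))) ≤
        𝔼 U : Matrix ν (Fin J) (ZMod p), wt bs Λ k1 (R i) (R' + Q) (R i + Q) M fun t => Uᵀ t := by
      intro M
      by_cases h : Pt bs Λ k1 (R i) (R' + Q) M
      · rw [ind_neg (not_not.2 h.1), ind_neg (not_not.2 h.2), sub_zero, sub_zero, mul_one,
          expect_T]
        exact low_bound bs Λ hp2 (hμ0 _) hε.le (Nat.le_add_right _ _) (Nat.le_add_right _ _) hφ
          (by rw [← hnα]; omega) (hs1 _) (hs2 _) h3 M h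
      · refine le_trans (mul_nonpos_of_nonneg_of_nonpos (by linarith) ?_)
          (Finset.expect_nonneg fun U _ => hw0 M _)
        have a1 := ind_nonneg (¬ finrank (ZMod p) (Kr Λ M) ≤ k1)
        have a2 := ind_nonneg (¬ Gap (V1 Λ M) (dbl (Bf bs Λ M)) (R i) (R' + Q))
        by_cases h1 : finrank (ZMod p) (Kr Λ M) ≤ k1
        · rw [ind_pos (P := ¬ Gap (V1 Λ M) (dbl (Bf bs Λ M)) (R i) (R' + Q)) fun h2 => h ⟨h1, h2⟩]
          linarith
        · rw [ind_pos h1]
          linarith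
    rw [Fintype.expect_eq_sum_div_card, le_div_iff₀ hS]
    refine le_trans ?_ (Finset.sum_le_sum fun M _ => e1 M)
    rw [← Finset.mul_sum, Finset.sum_sub_distrib, Finset.sum_sub_distrib, Finset.sum_const,
      Finset.card_univ, nsmul_eq_mul, mul_one]
    have e2 : (1 - 3 * ε) * (Fintype.card (SymM p ν) * (1 - 2 * ε)) ≤ (1 - 3 * ε) *
        (Fintype.card (SymM p ν) - ∑ M : SymM p ν, ind (¬ finrank (ZMod p) (Kr Λ M) ≤ k1) -
          ∑ M : SymM p ν, ind (¬ Gap (V1 Λ M) (dbl (Bf bs Λ M)) (R i) (R' + Q))) :=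
      mul_le_mul_of_nonneg_left (by linarith) (by linarith)
    refine le_trans ?_ e2
    have e3 : 0 ≤ (Fintype.card (SymM p ν) : ℝ) * ε ^ 2 := by positivity
    nlinarith
  · refine le_trans ?_ (marg_bound (J := Fin J) (k1 := k1) (R' := R') bs Λ hp2 (hμ0 (R i)) hε.le hφ
      (by rw [← hnα]; omega) (hs1 _) (hs2 _) M)
    rw [← expect_T]
    unfold marg
    refine Finset.expect_le_expect fun U _ => ?_
    refine Finset.expect_le Finset.univ_nonempty fun N _ => ?_
    have := tile_bound (k1 := k1) (R := R i) (R' := R') bs Λ (by rw [← hQ]; omega) (hμ0 (R i)) hφ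
      (M - cj U N) U N
    rw [sub_add_cancel] at this
    exact this

end MP_4523ee_co.Fp.Sub
end

-- merged part: Pool.Agent.Work.MP_4523ee_co.Fp.SubI
section
/-!
Interface of section 4: tiling along a subspace.
-/

set_option autoImplicit false
set_option linter.unusedSectionVars false

namespace Pool.Agent.Work.MP_4523ee_co.Fp

open Finset Matrix
open scoped BigOperators ComplexConjugate

variable {p : ℕ} [Fact p.Prime]

lemma SG_ker {X : Type} [AddCommGroup X] [Module (ZMod p) X] {ν ν' : Type} [Fintype ν]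
    [DecidableEq ν] [Fintype ν'] [DecidableEq ν'] {Λ : Submodule (ZMod p) (GX X ν)}
    {M : SymM p ν} {U : Matrix ν ν' (ZMod p)} (h : SG Λ M U) (N : SymM p ν') {τ : GX X ν}
    (hτ : τ ∈ Λ) : τ.2 = act (M + cj U N).1 τ.1 ↔ τ.2 = act M.1 τ.1 := by
  have := MP_4523ee_co.Fp.Sub.K_tile h N hτ
  rwa [MP_4523ee_co.Fp.Sub.del_apply, MP_4523ee_co.Fp.Sub.del_apply, sub_eq_zero,
    sub_eq_zero] at this

theorem SUBK (hp : p ≠ 2) (k J : ℕ) (c T ε : ℝ) (hc : 0 < c) (hε : 0 < ε) : ∃ n0 : ℕ,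
    ∀ (ν : Type) [Fintype ν] [DecidableEq ν], n0 ≤ Fintype.card ν →
    ∀ (X : Type) [AddCommGroup X] [Module (ZMod p) X] [Fintype X], Fintype.card X ≤ k →
    ∀ Λ : Submodule (ZMod p) (GX X ν),
    c * (Fintype.card X : ℝ) ^ Fintype.card ν ≤ Fintype.card Λ →
    (∀ E : Submodule (ZMod p) X,
      (Fintype.card ↥(Λ ⊓ pw ν E) : ℝ) ≤ T * (Fintype.card E : ℝ) ^ Fintype.card ν) →
    ∃ w : SymM p ν → Matrix ν (Fin J) (ZMod p) → ℝ, (∀ M U, 0 ≤ w M U) ∧
      (∀ M U, w M U ≠ 0 → Inj U ∧ SG Λ M U) ∧ 1 - ε ≤ 𝔼 M, 𝔼 U, w M U ∧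
      ∀ M, marg (fun U => U) w M ≤ 1 + ε := by
  have h0 : 0 < min ε 1 / 5 := div_pos (lt_min hε one_pos) (by norm_num)
  have h1 : min ε 1 / 5 ≤ 1 / 3 := by linarith [min_le_right ε 1]
  have h2 := min_le_left ε 1
  choose n0 hn0 using fun ρ => MP_4523ee_co.Fp.Sub.sub_dim hp ρ J c T _ hc h0 h1
  refine ⟨(Finset.range (k + 1)).sup n0, fun ν _ _ hν X _ _ _ hX Λ hΛ hT => ?_⟩
  have hρ : Module.finrank (ZMod p) X < k + 1 := by
    rw [Module.card_eq_pow_finrank (K := ZMod p), ZMod.card] at hX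
    have := Nat.lt_pow_self (n := Module.finrank (ZMod p) X) (Fact.out : p.Prime).one_lt
    omega
  obtain ⟨w, a1, a2, a3, a4⟩ := hn0 _ ν
    ((Finset.le_sup (f := n0) (Finset.mem_range.2 hρ)).trans hν) X rfl Λ hΛ hT
  exact ⟨w, a1, a2, by linarith, fun M => by linarith [a4 M]⟩

end Pool.Agent.Work.MP_4523ee_co.Fp
end

-- merged part: Pool.Agent.Work.MP_4523ee_co.Fp.End
section
/-!
Base case, passage from the bilinear bound to Claim, the final contradiction (paper section 0).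
-/

set_option autoImplicit false
set_option linter.unusedSectionVars false

namespace Pool.Agent.Work.MP_4523ee_co.Fp

open Finset Matrix
open scoped BigOperators ComplexConjugate

variable {p : ℕ} [Fact p.Prime]

variable {ν : Type} [Fintype ν] [DecidableEq ν]

lemma end_rank {Q : SymM p ν} (h : Q.1.rank = 0) : Q = 0 := by
  have h1 : LinearMap.range Q.1.mulVecLin = ⊥ := Submodule.finrank_eq_zero.1 h
  have h2 := LinearMap.range_eq_bot.1 h1
  refine Subtype.ext (Matrix.ext fun i j => ?_)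
  have h3 := congrFun (LinearMap.congr_fun h2 (Pi.single j 1)) i
  simpa using h3

lemma end_fc (hp : p ≠ 2) (t : Finset (SymM p ν)) (c : SymM p ν → ℂ) (Q : SymM p ν) :
    fc (fun M => ∑ R ∈ t, c R * chQ R.1 M) Q = ∑ R ∈ t, if R = Q then c R else 0 := by
  simp only [fc, sum_mul, expect_sum_comm, mul_assoc, ← mul_expect]
  refine sum_congr rfl fun R _ => ?_
  split_ifs with h
  · subst h
    have h2 : ∀ M : SymM p ν, chQ R.1 M * conj (chQ R.1 M) = 1 := fun M => by
      rw [Complex.mul_conj, Complex.normSq_eq_norm_sq, norm_chQ]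
      simp
    simp only [h2, Fintype.expect_const, mul_one]
  · rw [expect_chQ_mul_conj hp R Q h, mul_zero]

lemma end_en (hp : p ≠ 2) (t : Finset (SymM p ν)) (c : SymM p ν → ℂ) :
    en (fun M => ∑ R ∈ t, c R * chQ R.1 M) = ∑ R ∈ t, ‖c R‖ ^ 2 := by
  rw [parseval_en hp]
  simp only [end_fc hp, sum_ite_eq']
  rw [← sum_filter_add_sum_filter_not univ (· ∈ t), filter_mem_eq_inter, univ_inter,
    sum_eq_zero (s := filter _ _) fun Q hQ => by simp [(mem_filter.1 hQ).2], add_zero]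
  exact sum_congr rfl fun Q hQ => by rw [if_pos hQ]

lemma end_lev (hp : p ≠ 2) (s : ℕ) (c : SymM p ν → ℂ) :
    Lev s fun M => ∑ R : SymM p ν with R.1.rank ≤ s, c R * chQ R.1 M :=
  Lev_sum _ c (fun R => chQ R.1) fun R hR _ => Lev_chQ hp R (mem_filter.1 hR).2

lemma end_en_fA (A : Set (SymM p ν)) : √(en (fA A)) ≤ 1 :=
  Real.sqrt_le_one.2 (Finset.expect_le univ_nonempty fun M _ =>
    pow_le_one₀ (norm_nonneg _) (norm_fA_le A M))

lemma end_fA (A : Set (SymM p ν)) : 𝔼 M, fA A M = ((dens A - aS p : ℝ) : ℂ) := by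
  simp only [fA]
  rw [← Complex.ofReal_expect, expect_sub_distrib, Fintype.expect_const, dens]

theorem claim_zero (hp : p ≠ 2) : Claim p 0 := by
  intro ε hε
  obtain ⟨J, hJ⟩ := UB (p := p) ε hε
  refine ⟨ε, hε, J, fun ν _ _ hn A hA G hG => ?_⟩
  have h1 : ∀ M, G M = fc G 0 := fun M => by
    rw [fourier_inv hp G M, sum_eq_single 0 (fun Q _ hQ => ?_) (by simp)]
    · simp
    · have : fc G Q = 0 := hG Q (Nat.pos_of_ne_zero fun h => hQ (end_rank h))
      rw [this, zero_mul]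
  have h2 : en G = ‖fc G 0‖ ^ 2 := by
    rw [en, expect_congr rfl fun M _ => by rw [h1 M], Fintype.expect_const]
  rw [h2, Real.sqrt_sq (norm_nonneg _), expect_congr rfl fun M _ => by rw [h1 M], ← expect_mul,
    norm_mul, end_fA, Complex.norm_real, Real.norm_eq_abs]
  refine mul_le_mul_of_nonneg_right (abs_le.2 ⟨?_, ?_⟩) (norm_nonneg _)
  · linarith [hA.2]
  · linarith [hJ ν hn A hA.1]

/-- a symmetric matrix of rank `r` is a Gram matrix (use the range of `Q` and a basis of it) -/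
lemma exists_gram (Q : SymM p ν) {r : ℕ} (h : Q.1.rank = r) :
    ∃ S : Matrix (Fin r) (Fin r) (ZMod p), SymB (Matrix.toLinearMap₂' (ZMod p) S) ∧
      NdB (Matrix.toLinearMap₂' (ZMod p) S) ∧ ∃ l : ν → Fin r → ZMod p,
      Submodule.span (ZMod p) (Set.range l) = ⊤ ∧
      gram (Matrix.toLinearMap₂' (ZMod p) S) l = Q.1 := by
  let f := Q.1.mulVecLin
  let b := Module.finBasisOfFinrankEq (ZMod p) (LinearMap.range f) h
  choose x hx using fun a => (b a).2
  let T : (ν → ZMod p) →ₗ[ZMod p] Fin r → ZMod p := b.equivFun.toLinearMap ∘ₗ f.rangeRestrict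
  let X : Matrix ν (Fin r) (ZMod p) := Matrix.of fun i a => x a i
  have hT : Function.Surjective T := b.equivFun.surjective.comp f.surjective_rangeRestrict
  have hs : ∀ u v, u ⬝ᵥ Q.1 *ᵥ v = Q.1 *ᵥ u ⬝ᵥ v := fun u v => by
    rw [dotProduct_mulVec, ← mulVec_transpose, SymM_T]
  have h1 : ∀ y, Q.1 *ᵥ (X *ᵥ T y) = Q.1 *ᵥ y := fun y => by
    have h2 : X *ᵥ T y = ∑ a, T y a • x a := by
      funext i
      simp [X, mulVec, dotProduct, mul_comm]
    have h3 := congrArg Subtype.val (b.sum_equivFun (f.rangeRestrict y))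
    rw [Submodule.coe_sum] at h3
    show f (X *ᵥ T y) = f y
    rw [h2, map_sum]
    refine Eq.trans (sum_congr rfl fun a _ => ?_) h3
    rw [map_smul, hx]
    rfl
  have h4 : ∀ u v, Matrix.toLinearMap₂' (ZMod p) (Xᵀ * Q.1 * X) u v =
      X *ᵥ u ⬝ᵥ Q.1 *ᵥ (X *ᵥ v) := fun u v => by
    rw [Matrix.toLinearMap₂'_apply', ← mulVec_mulVec, ← mulVec_mulVec, dotProduct_mulVec,
      vecMul_transpose]
  have h5 : ∀ y z, Matrix.toLinearMap₂' (ZMod p) (Xᵀ * Q.1 * X) (T y) (T z) = y ⬝ᵥ Q.1 *ᵥ z :=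
    fun y z => by rw [h4, h1, hs, h1, hs]
  refine ⟨Xᵀ * Q.1 * X, fun u v => by rw [h4, h4, hs, dotProduct_comm], fun u hu => ?_,
    fun i => T (Pi.single i 1), ?_, ?_⟩
  · obtain ⟨y, rfl⟩ := hT u
    have h6 : f.rangeRestrict y = 0 := Subtype.ext (funext fun i => by
      have h7 := hu (T (Pi.single i 1))
      rw [h5, hs, dotProduct_single, mul_one] at h7
      exact h7)
    show b.equivFun (f.rangeRestrict y) = 0
    rw [h6, map_zero]
  · rw [eq_top_iff]
    intro u _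
    obtain ⟨y, rfl⟩ := hT u
    rw [LinearMap.pi_apply_eq_sum_univ T y]
    refine Submodule.sum_mem _ fun i _ => Submodule.smul_mem _ _ (Submodule.subset_span ⟨i, ?_⟩)
    exact congrArg T (funext fun j => by simp [Pi.single_apply, eq_comm])
  · ext i j
    show Matrix.toLinearMap₂' (ZMod p) _ (T _) (T _) = _
    rw [h5]
    simp

lemma end_surj {X ι : Type} [AddCommGroup X] [Module (ZMod p) X] [Fintype X] [Fintype ι]
    [DecidableEq ι] {l : ν → X} (hl : Submodule.span (ZMod p) (Set.range l) = ⊤) (e : ι → X) :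
    dens {κ : Matrix ι ν (ZMod p) | act κ l = e} = (Fintype.card (ι → X) : ℝ)⁻¹ := by
  let f : Matrix ι ν (ZMod p) →ₗ[ZMod p] (ι → X) :=
    { toFun := fun κ => act κ l
      map_add' := fun U V => add_act U V l
      map_smul' := fun c U => funext fun i => by simp [act, smul_sum, mul_smul] }
  refine dens_fibre_surj f (fun z => ?_) e
  choose c hc using fun i => (Submodule.mem_span_range_iff_exists_fun (ZMod p)).1
    (hl.ge (Submodule.mem_top (x := z i)))
  exact ⟨Matrix.of c, funext hc⟩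

lemma end_slice {r : ℕ} {c : ℝ} (hc : 0 ≤ c) {A : Set (SymM p ν)}
    (h : Data p r r ν fun X₁ X₂ _ _ _ _ _ _ β₁ β₂ e κ =>
      ∀ (a₁ : (ν → X₁) → ℂ) (a₂ : (ν → X₂) → ℂ), OnSl κ (fun i => (e i).1) a₁ →
        OnSl κ (fun i => (e i).2) a₂ →
        ‖𝔼 M, fA A M * (FF β₁ a₁ M * FF β₂ a₂ M)‖ ≤ c * (√(nsq a₁) * √(nsq a₂)))
    {β : Bil p (Fin r → ZMod p)} (hs : SymB β) (hn : NdB β) (κ : Matrix (Fin r) ν (ZMod p)) :
    ∑ l : ν → Fin r → ZMod p, ind {κ | act κ l = fun i => Pi.single i 1} κ *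
      ‖𝔼 M, fA A M * chi β M l‖ ^ 2 ≤ c ^ 2 := by
  let a : (ν → Fin r → ZMod p) → ℂ := fun l =>
    (ind {κ | act κ l = fun i => Pi.single i 1} κ : ℝ) * conj (𝔼 M, fA A M * chi β M l)
  have hsp : Submodule.span (ZMod p) (Set.range fun i : Fin r =>
      ((Pi.single i 1, PUnit.unit) : (Fin r → ZMod p) × PUnit)) = ⊤ := by
    rw [eq_top_iff]
    intro u _
    refine (Submodule.mem_span_range_iff_exists_fun (ZMod p)).2 ⟨u.1, Prod.ext ?_ rfl⟩
    funext j
    simp [Prod.fst_sum, Pi.single_apply]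
  have h1 := h (Fin r → ZMod p) PUnit β 0 _ κ hs hn (fun _ _ => rfl) (fun _ _ => rfl) (by simp)
    (by simp [Module.finrank_zero_of_subsingleton]) hsp a (fun _ => 1) (fun l hl => by
      by_contra hc
      exact hl (by
        simp only [a]
        rw [ind_of_not (A := {κ | act κ l = fun i => Pi.single i 1}) hc]
        simp)) fun _ _ => Subsingleton.elim _ _
  have h2 : ∀ M : SymM p ν, FF (0 : Bil p PUnit) (fun _ => 1) M = 1 := fun M => by
    rw [FF, Fintype.sum_unique, one_mul]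
    exact zero_chQ M
  have h3 : nsq (fun _ : ν → PUnit => (1 : ℂ)) = 1 := by simp [nsq]
  set E := ∑ l : ν → Fin r → ZMod p, ind {κ | act κ l = fun i => Pi.single i 1} κ *
    ‖𝔼 M, fA A M * chi β M l‖ ^ 2 with hE
  have h4 : nsq a = E := sum_congr rfl fun l _ => by
    simp only [a]
    rw [norm_mul, Complex.norm_conj, mul_pow]
    by_cases hl : κ ∈ {κ | act κ l = fun i => Pi.single i 1}
    · rw [ind_of_mem hl]
      simp
    · rw [ind_of_not hl]
      simp
  have h5 : 𝔼 M, fA A M * (FF β a M * FF (0 : Bil p PUnit) (fun _ => 1) M) = (E : ℂ) := by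
    simp only [h2, mul_one]
    simp only [FF, mul_sum, expect_sum_comm, hE, Complex.ofReal_sum]
    refine sum_congr rfl fun l _ => ?_
    simp only [mul_left_comm _ (a l), ← mul_expect]
    simp only [a]
    rw [mul_assoc, Complex.conj_mul']
    push_cast
    rfl
  have h6 : 0 ≤ E := h4 ▸ nsq_nonneg a
  rw [h5, h4, h3, Real.sqrt_one, mul_one, Complex.norm_real, Real.norm_of_nonneg h6] at h1
  have h7 := Real.sq_sqrt h6
  have h8 := Real.sqrt_nonneg E
  nlinarith [sq_nonneg (c - √E)]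

lemma end_energy {r : ℕ} {c : ℝ} (hc : 0 ≤ c) {A : Set (SymM p ν)}
    (h : Data p r r ν fun X₁ X₂ _ _ _ _ _ _ β₁ β₂ e κ =>
      ∀ (a₁ : (ν → X₁) → ℂ) (a₂ : (ν → X₂) → ℂ), OnSl κ (fun i => (e i).1) a₁ →
        OnSl κ (fun i => (e i).2) a₂ →
        ‖𝔼 M, fA A M * (FF β₁ a₁ M * FF β₂ a₂ M)‖ ≤ c * (√(nsq a₁) * √(nsq a₂))) :
    ∑ Q : SymM p ν with Q.1.rank = r, ‖𝔼 M, fA A M * chQ Q.1 M‖ ^ 2 ≤
      (Fintype.card (Fin r → Fin r → ZMod p) * c) ^ 2 := by
  classical
  let H : Matrix ν ν (ZMod p) → ℝ := fun Q => ‖𝔼 M, fA A M * chQ Q M‖ ^ 2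
  let B : (Fin r → Fin r → ZMod p) → Bil p (Fin r → ZMod p) := fun S =>
    Matrix.toLinearMap₂' (ZMod p) (Matrix.of S)
  let s : Finset (Fin r → Fin r → ZMod p) := univ.filter fun S => SymB (B S) ∧ NdB (B S)
  let t : Finset (ν → Fin r → ZMod p) :=
    univ.filter fun l => Submodule.span (ZMod p) (Set.range l) = ⊤
  set K : ℝ := ((Fintype.card (Fin r → Fin r → ZMod p) : ℕ) : ℝ) with hK
  have hK0 : 0 < K := Nat.cast_pos.2 Fintype.card_pos
  have h1 : ∀ S ∈ s, ∑ l ∈ t, H (gram (B S) l) ≤ K * c ^ 2 := fun S hS => by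
    have h2 := Finset.expect_le (s := univ) univ_nonempty fun κ _ =>
      end_slice hc h (mem_filter.1 hS).2.1 (mem_filter.1 hS).2.2 κ
    rw [expect_sum_comm] at h2
    simp only [← expect_mul] at h2
    rw [← inv_mul_le_iff₀ hK0, mul_sum]
    refine le_trans (le_trans (sum_le_sum fun l hl => ?_) (sum_le_univ_sum_of_nonneg fun l =>
      mul_nonneg (expect_nonneg fun κ _ => ind_nonneg _ _) (sq_nonneg _))) h2
    exact mul_le_mul_of_nonneg_right (end_surj (mem_filter.1 hl).2 _).ge (sq_nonneg _)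
  calc ∑ Q : SymM p ν with Q.1.rank = r, H Q.1
      = ∑ Q ∈ (univ.filter fun Q : SymM p ν => Q.1.rank = r).image Subtype.val, H Q :=
        (sum_image Subtype.val_injective.injOn).symm
    _ ≤ ∑ Q ∈ (s ×ˢ t).image fun z => gram (B z.1) z.2, H Q := by
        refine sum_le_sum_of_subset_of_nonneg (fun Q hQ => ?_) fun _ _ _ => sq_nonneg _
        obtain ⟨Q', hQ', rfl⟩ := mem_image.1 hQ
        obtain ⟨S, a1, a2, l, a3, a4⟩ := exists_gram Q' (mem_filter.1 hQ').2
        exact mem_image.2 ⟨(S, l), mem_product.2 ⟨mem_filter.2 ⟨mem_univ _, a1, a2⟩,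
          mem_filter.2 ⟨mem_univ _, a3⟩⟩, a4⟩
    _ ≤ ∑ z ∈ s ×ˢ t, H (gram (B z.1) z.2) := sum_image_le_of_nonneg fun _ _ => sq_nonneg _
    _ = ∑ S ∈ s, ∑ l ∈ t, H (gram (B S) l) := sum_product _ _ _
    _ ≤ s.card • (K * c ^ 2) := sum_le_card_nsmul _ _ _ h1
    _ ≤ (K * c) ^ 2 := by
        have h3 : (s.card : ℝ) ≤ K := Nat.cast_le.2 (card_le_univ s)
        rw [nsmul_eq_mul]
        nlinarith [mul_le_mul_of_nonneg_right h3 (mul_nonneg hK0.le (sq_nonneg c))]

/-- take the second space trivial (`PUnit`), average over the slice matrix -/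
theorem claim_succ (hp : p ≠ 2) {r : ℕ} (hC : Claim p r)
    (hB : ∀ c : ℝ, 0 < c → Bnd p (r + 1) (r + 1) c) : Claim p (r + 1) := by
  intro ε hε
  set K : ℝ := ((Fintype.card (Fin (r + 1) → Fin (r + 1) → ZMod p) : ℕ) : ℝ) with hK
  have hK0 : 0 < K := Nat.cast_pos.2 Fintype.card_pos
  have hc : 0 < ε / 2 / K := by positivity
  refine ((hC (ε / 2) (half_pos hε)).and (hB _ hc)).mono fun ν _ _ A h G hG => ?_
  have h1 := h.1 _ (end_lev hp r (fc G))
  have h2 := end_energy hc.le h.2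
  rw [← hK, mul_div_cancel₀ _ hK0.ne'] at h2
  have h3 : ∀ t : Finset (SymM p ν), √(∑ Q ∈ t, ‖fc G Q‖ ^ 2) ≤ √(en G) := fun t => by
    rw [parseval_en hp]
    exact Real.sqrt_le_sqrt (sum_le_univ_sum_of_nonneg fun _ => sq_nonneg _)
  have h4 : ∀ M, G M = ∑ Q : SymM p ν with Q.1.rank ≤ r, fc G Q * chQ Q.1 M +
      ∑ Q : SymM p ν with Q.1.rank = r + 1, fc G Q * chQ Q.1 M := fun M => by
    rw [sum_filter, sum_filter, ← sum_add_distrib]
    refine (fourier_inv hp G M).trans (sum_congr rfl fun Q _ => ?_)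
    rcases lt_trichotomy Q.1.rank (r + 1) with a | a | a
    · rw [if_pos (by omega), if_neg a.ne, add_zero]
    · rw [if_neg (by omega), if_pos a, zero_add]
    · have : fc G Q = 0 := hG Q a
      simp [this]
  have h5 : ‖𝔼 M, fA A M * ∑ Q : SymM p ν with Q.1.rank = r + 1, fc G Q * chQ Q.1 M‖ ≤
      √(en G) * (ε / 2) := by
    simp only [mul_sum, expect_sum_comm, mul_left_comm _ (fc G _), ← mul_expect]
    refine (norm_sum_le _ _).trans ?_
    simp only [norm_mul]
    refine (Real.sum_mul_le_sqrt_mul_sqrt _ _ _).trans (mul_le_mul (h3 _) ?_ (Real.sqrt_nonneg _)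
      (Real.sqrt_nonneg _))
    exact Real.sqrt_le_iff.2 ⟨(half_pos hε).le, h2⟩
  rw [end_en hp] at h1
  rw [expect_congr rfl fun M _ => by rw [h4 M, mul_add], expect_add_distrib]
  have h6 := mul_le_mul_of_nonneg_left (h3 (univ.filter fun Q => Q.1.rank ≤ r)) (half_pos hε).le
  refine (norm_add_le _ _).trans ?_
  linarith

theorem bnd_one (hp : p ≠ 2) (r r₁ : ℕ) : Bnd p r r₁ 1 := by
  refine ⟨1, one_pos, 0, fun ν _ _ _ A _ X₁ X₂ _ _ _ _ _ _ β₁ β₂ e κ s₁ n₁ s₂ n₂ _ _ he a₁ a₂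
    h₁ h₂ => ?_⟩
  refine (norm_expect_mul_le _ _).trans ?_
  rw [en_FF_mul hp s₁ n₁ s₂ n₂ he h₁ h₂, Real.sqrt_mul (nsq_nonneg _)]
  exact mul_le_mul_of_nonneg_right (end_en_fA A) (by positivity)

lemma end_chQ_sqv (Q : Matrix ν ν (ZMod p)) (x : ν → ZMod p) :
    chQ Q (sqv x) = ee (x ⬝ᵥ Q *ᵥ x) := by
  unfold chQ
  congr 1
  simp only [sqv, vecMulVec_apply, dotProduct, mulVec, mul_sum]
  exact sum_congr rfl fun i _ => sum_congr rfl fun j _ => by ring

lemma gauss_le (hp : p ≠ 2) (Q : SymM p ν) :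
    ‖𝔼 x : ν → ZMod p, chQ Q.1 (sqv x)‖ ^ 2 ≤ ((p : ℝ) ^ Q.1.rank)⁻¹ := by
  have hs : ∀ u v, u ⬝ᵥ Q.1 *ᵥ v = v ⬝ᵥ Q.1 *ᵥ u := fun u v => by
    rw [dotProduct_mulVec, ← mulVec_transpose, SymM_T, dotProduct_comm]
  have h1 : (𝔼 x : ν → ZMod p, chQ Q.1 (sqv x)) * conj (𝔼 x : ν → ZMod p, chQ Q.1 (sqv x)) =
      𝔼 z : ν → ZMod p, ee (z ⬝ᵥ Q.1 *ᵥ z) * 𝔼 y : ν → ZMod p, ee (y ⬝ᵥ (2 : ZMod p) • Q.1 *ᵥ z) := by
    rw [map_expect (starRingEnd ℂ), expect_mul_expect, expect_comm]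
    simp only [mul_expect]
    rw [expect_comm]
    conv_rhs => rw [expect_comm]
    rw [expect_comm]
    refine expect_congr rfl fun y _ => ?_
    refine (Fintype.expect_equiv (Equiv.addLeft y) _ _ fun z => ?_).symm
    rw [end_chQ_sqv, end_chQ_sqv, conj_ee, ← ee_add, ← ee_add]
    congr 1
    simp only [Equiv.coe_addLeft, mulVec_add, add_dotProduct, dotProduct_add, dotProduct_smul,
      smul_eq_mul, hs z y]
    ring
  have h2 : ∀ z : ν → ZMod p, ‖ee (z ⬝ᵥ Q.1 *ᵥ z) *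
      𝔼 y : ν → ZMod p, ee (y ⬝ᵥ (2 : ZMod p) • Q.1 *ᵥ z)‖ ≤
      ind {z | Q.1.mulVecLin.rangeRestrict z = 0} z := fun z => by
    rw [norm_mul, norm_ee, one_mul]
    by_cases hz : Q.1 *ᵥ z = 0
    · rw [ind_of_mem (A := {z | Q.1.mulVecLin.rangeRestrict z = 0}) (x := z) (Subtype.ext hz), hz]
      simp
    · obtain ⟨i, hi⟩ := Function.ne_iff.1 hz
      let φ : (ν → ZMod p) →+ ZMod p :=
        { toFun := fun y => y ⬝ᵥ (2 : ZMod p) • Q.1 *ᵥ z
          map_zero' := zero_dotProduct _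
          map_add' := fun u v => add_dotProduct u v _ }
      have h3 := expect_ee_hom φ fun h0 => by
        have h4 := DFunLike.congr_fun h0 (Pi.single i 1)
        change Pi.single i 1 ⬝ᵥ (2 : ZMod p) • Q.1 *ᵥ z = 0 at h4
        rw [single_dotProduct, one_mul, Pi.smul_apply, smul_eq_mul] at h4
        exact hi ((mul_eq_zero.1 h4).resolve_left (two_ne hp))
      exact (congrArg norm h3).trans_le (norm_zero.trans_le (ind_nonneg _ _))
  have h5 := dens_fibre_surj _ Q.1.mulVecLin.surjective_rangeRestrict 0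
  rw [card_eq_pow (p := p), Nat.cast_pow] at h5
  have h6 := congrArg norm h1
  rw [norm_mul, Complex.norm_conj, ← sq] at h6
  rw [h6]
  exact RCLike.norm_expect_le (K := ℂ).trans ((expect_le_expect fun z _ => h2 z).trans h5.le)

theorem aS_eq_zero (hp : p ≠ 2) (hC : ∀ s, Claim p s) : aS p = 0 := by
  refine le_antisymm (not_lt.1 fun ha => ?_) aS_nonneg
  have hp1 : (1 : ℝ) < p := Nat.one_lt_cast.2 (Fact.out : p.Prime).one_lt
  have hε : 0 < aS p ^ 2 / 8 := by positivity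
  have key : ∀ δ : ℝ, 0 < δ → ∃ s : ℕ, ∀ m, s ≤ m → ((p : ℝ) ^ m)⁻¹ ≤ δ := fun δ hδ => by
    obtain ⟨s, hs⟩ := pow_unbounded_of_one_lt δ⁻¹ hp1
    exact ⟨s, fun m hm => inv_le_of_inv_le₀ hδ (hs.le.trans (pow_le_pow_right₀ hp1.le hm))⟩
  obtain ⟨s, hs⟩ := key _ (pow_pos hε 2)
  obtain ⟨n0, hn0⟩ := key _ hε
  obtain ⟨n, A, h1, hn, hA⟩ := ((hC s _ hε).and (Ev_basic _ (half_pos ha) n0)).exists
  let u : SymM p (Fin n) → ℂ := fun M => (ind A M : ℝ)
  let c : SymM p (Fin n) → ℂ := fun Q => fc u Q * 𝔼 x : Fin n → ZMod p, chQ Q.1 (sqv x)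
  have hu : ∑ Q, ‖fc u Q‖ ^ 2 ≤ 1 := by
    rw [← parseval_en hp]
    refine Finset.expect_le univ_nonempty fun M _ => pow_le_one₀ (norm_nonneg _) ?_
    rw [Complex.norm_real, Real.norm_of_nonneg (ind_nonneg _ _)]
    exact ind_le_one _ _
  have hc : ∀ (t : Finset (SymM p (Fin n))) (δ : ℝ), 0 ≤ δ →
      (∀ Q ∈ t, ((p : ℝ) ^ Q.1.rank)⁻¹ ≤ δ ^ 2) → √(en fun M => ∑ Q ∈ t, c Q * chQ Q.1 M) ≤ δ :=
    fun t δ hδ h => by
      rw [end_en hp]
      refine Real.sqrt_le_iff.2 ⟨hδ, ?_⟩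
      calc ∑ Q ∈ t, ‖c Q‖ ^ 2 ≤ ∑ Q ∈ t, ‖fc u Q‖ ^ 2 * δ ^ 2 := sum_le_sum fun Q hQ => by
            rw [norm_mul, mul_pow]
            exact mul_le_mul_of_nonneg_left ((gauss_le hp Q).trans (h Q hQ)) (sq_nonneg _)
        _ ≤ ∑ Q, ‖fc u Q‖ ^ 2 * δ ^ 2 := sum_le_univ_sum_of_nonneg fun _ => by positivity
        _ ≤ δ ^ 2 := by
            rw [← sum_mul]
            exact mul_le_of_le_one_left (sq_nonneg _) hu
  have h2 : ∀ M, ((𝔼 x : Fin n → ZMod p, ind A (M + sqv x) : ℝ) : ℂ) =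
      ∑ Q : SymM p (Fin n) with Q.1.rank ≤ s, c Q * chQ Q.1 M +
        ∑ Q : SymM p (Fin n) with ¬ Q.1.rank ≤ s, c Q * chQ Q.1 M := fun M => by
    rw [sum_filter_add_sum_filter_not, Complex.ofReal_expect,
      expect_congr rfl fun x _ => fourier_inv hp u (M + sqv x), expect_sum_comm]
    refine sum_congr rfl fun Q _ => ?_
    simp only [chQ_add, ← mul_assoc, ← mul_expect, c]
    ring
  have h3 := (h1 _ (end_lev hp s c)).trans (mul_le_of_le_one_right hε.le (hc _ 1 zero_le_one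
    fun Q _ => by rw [one_pow]; exact inv_le_one_of_one_le₀ (one_le_pow₀ hp1.le)))
  have h4 := (norm_expect_mul_le (fA A) _).trans (mul_le_mul (end_en_fA A)
    (hc (univ.filter fun Q => ¬ Q.1.rank ≤ s) _ hε.le fun Q hQ =>
      hs _ (not_le.1 (mem_filter.1 hQ).2).le) (Real.sqrt_nonneg _) zero_le_one)
  have h5 := (norm_add_le _ _).trans (add_le_add h3 h4)
  rw [← expect_add_distrib] at h5
  simp only [← mul_add, ← h2, fA, ← Complex.ofReal_mul] at h5
  rw [← Complex.ofReal_expect, Complex.norm_real, Real.norm_eq_abs] at h5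
  simp only [sub_mul, expect_sub_distrib, ← mul_expect] at h5
  have h6 : 𝔼 M, 𝔼 x : Fin n → ZMod p, ind A (M + sqv x) = dens A := by
    rw [expect_comm]
    have : ∀ x : Fin n → ZMod p, 𝔼 M, ind A (M + sqv x) = dens A := fun x =>
      Fintype.expect_equiv (Equiv.addRight (sqv x)) _ _ fun _ => rfl
    simp only [this, Fintype.expect_const]
  have h7 : 𝔼 M, ind A M * 𝔼 x : Fin n → ZMod p, ind A (M + sqv x) ≤ aS p ^ 2 / 8 := by
    refine Finset.expect_le univ_nonempty fun M _ => ?_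
    by_cases hM : M ∈ A
    · have h8 := dens_fibre_surj (LinearMap.id : (Fin n → ZMod p) →ₗ[ZMod p] (Fin n → ZMod p))
        Function.surjective_id 0
      rw [Fintype.card_fun, ZMod.card, Nat.cast_pow] at h8
      rw [ind_of_mem hM, one_mul]
      refine le_trans (expect_le_expect fun x _ => ?_) (h8.le.trans (hn0 _ hn))
      by_cases hx : x = 0
      · rw [ind_of_mem (A := {x | LinearMap.id x = 0}) hx]
        exact ind_le_one _ _
      · rw [ind_of_not (hA.1 M x hx hM)]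
        exact ind_nonneg _ _
    · rw [ind_of_not hM, zero_mul]
      exact hε.le
  rw [h6] at h5
  have h9 := mul_le_mul_of_nonneg_left hA.2 ha.le
  have h10 := (abs_le.1 h5).1
  nlinarith

/-- from the universal case to every quadratic map: `φ x = L (x xᵀ)`, average over translates -/
theorem quad_of_aS (hp : p ≠ 2) (h : aS p = 0) (δ : ℝ) (hδ : 0 < δ) :
    ∃ n0 : ℕ, ∀ n : ℕ, n0 ≤ n → ∀ (W : Type) [AddCommGroup W] [Module (ZMod p) W] [Fintype W]
      (φ : QuadraticMap (ZMod p) (Fin n → ZMod p) W) (A : Finset W),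
      δ * Fintype.card W ≤ A.card → ∃ a ∈ A, ∃ x : Fin n → ZMod p, x ≠ 0 ∧ a + φ x ∈ A := by
  obtain ⟨J, hJ⟩ := UB (p := p) _ (half_pos hδ)
  refine ⟨J, fun n hn W _ _ _ φ A hA => ?_⟩
  by_contra hc
  push Not at hc
  let L : SymM p (Fin n) → W := fun M => ∑ i, ∑ j, ((2 : ZMod p)⁻¹ * M.1 i j) •
    φ.polarBilin (Pi.single i 1) (Pi.single j 1)
  have hL : ∀ M x, L (M + sqv x) = L M + φ x := fun M x => by
    have h1 : ∑ i, x i • (Pi.single i 1 : Fin n → ZMod p) = x := by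
      funext j
      simp [Pi.single_apply]
    have h2 : φ.polarBilin x x = ∑ i, ∑ j, (x i * x j) •
        φ.polarBilin (Pi.single i 1) (Pi.single j 1) := by
      conv_lhs => rw [← h1]
      simp only [map_sum, map_smul, LinearMap.sum_apply, LinearMap.smul_apply, smul_sum, smul_smul]
      rw [sum_comm]
      exact sum_congr rfl fun i _ => sum_congr rfl fun j _ => by rw [mul_comm]
    have h3 : φ x = (2 : ZMod p)⁻¹ • φ.polarBilin x x := by
      rw [QuadraticMap.polarBilin_apply_apply, QuadraticMap.polar_self, two_smul,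
        ← two_smul (ZMod p), smul_smul, inv_mul_cancel₀ (two_ne hp), one_smul]
    rw [h3, h2]
    simp only [L, smul_sum, smul_smul, ← sum_add_distrib, ← add_smul, ← mul_add]
    rfl
  have h4 : ∀ w : W, dens {M | w + L M ∈ A} ≤ δ / 2 := fun w => by
    have := hJ (Fin n) (by simpa using hn) {M | w + L M ∈ A} fun M x hx h1 h2 =>
      hc _ h1 x hx (by rw [add_assoc, ← hL]; exact h2)
    rwa [h, zero_add] at this
  have h5 : 𝔼 w : W, dens {M | w + L M ∈ A} = dens (A : Set W) := by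
    unfold dens
    rw [expect_comm]
    have : ∀ M, 𝔼 w : W, ind {M | w + L M ∈ A} M = 𝔼 w : W, ind (A : Set W) w := fun M =>
      Fintype.expect_equiv (Equiv.addRight (L M)) _ _ fun _ => rfl
    simp only [this, Fintype.expect_const]
  have h6 := Finset.expect_le (s := univ) univ_nonempty fun w _ => h4 w
  have h7 : (0 : ℝ) < Fintype.card W := Nat.cast_pos.2 Fintype.card_pos
  rw [h5, dens_eq_card, div_le_iff₀ h7] at h6
  have h8 : (Nat.card (A : Set W) : ℝ) = A.card := by simp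
  nlinarith

end Pool.Agent.Work.MP_4523ee_co.Fp
end
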