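import Mathlib
import Pool.Agent.Work.MP_4523ee_co.Fp.End

-- merged part: Pool.Agent.Work.MP_4523ee_co.Fp.PoA
section
/-!
Generic tools for the Poisson count: Bonferroni, counting lemma, Parseval bound.
-/

set_option autoImplicit false
set_option linter.unusedSectionVars false

namespace Pool.Agent.Work.MP_4523ee_co.Fp.Po

open Finset Matrix
open scoped BigOperators ComplexConjugate

variable {p : ℕ} [Fact p.Prime]

lemma bonf (H n : ℕ) :
    |(if H = 0 then (1 : ℝ) else 0) - ∑ j ∈ range (n + 1), (-1) ^ j * (H.choose j : ℝ)| ≤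
      H.choose (n + 1) := by
  rcases H with _ | H
  · rw [sum_range_succ']
    simp
  · have h := @Int.alternating_sum_range_choose_eq_choose H n
    have h2 : ∑ j ∈ range (n + 1), (-1 : ℝ) ^ j * ((H + 1).choose j : ℝ) =
        (-1) ^ n * (H.choose n : ℝ) := by exact_mod_cast h
    rw [h2, if_neg (Nat.succ_ne_zero H), zero_sub, abs_neg, abs_mul, abs_pow, abs_neg, abs_one,
      one_pow, one_mul, abs_of_nonneg (Nat.cast_nonneg _), Nat.choose_succ_succ]
    push_cast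
    linarith [(Nat.cast_nonneg (H.choose (n + 1)) : (0 : ℝ) ≤ _)]

theorem poisson (μm γ : ℝ) (hγ : 0 < γ) : ∃ m : ℕ, ∃ δ : ℝ, 0 < δ ∧
    ∀ (Ω : Type) [Fintype Ω] [Nonempty Ω] (H : Ω → ℕ) (μ : ℝ), 0 ≤ μ → μ ≤ μm →
      (∀ j ≤ m, |𝔼 x, ((H x).descFactorial j : ℝ) - μ ^ j| ≤ δ) →
      |dens {x | H x = 0} - Real.exp (-μ)| ≤ γ := by
  have h1 : ∀ᶠ n : ℕ in Filter.atTop, μm ^ n / (n.factorial : ℝ) < γ / 6 :=
    (FloorSemiring.tendsto_pow_div_factorial_atTop μm).eventually (gt_mem_nhds (by positivity))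
  obtain ⟨n0, hn0⟩ := Filter.eventually_atTop.1 h1
  obtain ⟨n1, hn1⟩ := exists_nat_ge (2 * μm)
  set n := max n0 n1 with hn
  refine ⟨n + 1, γ / (2 * (n + 2)), by positivity, fun Ω _ _ H μ h0 hμ hH => ?_⟩
  set δ := γ / (2 * ((n : ℝ) + 2)) with hδ
  have hδ0 : 0 < δ := by positivity
  have hch : ∀ j ≤ n + 1, |𝔼 x, ((H x).choose j : ℝ) - μ ^ j / j.factorial| ≤ δ := by
    intro j hj
    have hf : (1 : ℝ) ≤ j.factorial := by exact_mod_cast Nat.factorial_pos j
    have e : 𝔼 x, ((H x).choose j : ℝ) = (𝔼 x, ((H x).descFactorial j : ℝ)) / j.factorial := by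
      rw [expect_div]
      refine expect_congr rfl fun x _ => ?_
      rw [Nat.descFactorial_eq_factorial_mul_choose]
      push_cast
      field_simp
    rw [e, ← sub_div, abs_div, abs_of_pos (by positivity : (0 : ℝ) < j.factorial)]
    exact (div_le_self (abs_nonneg _) hf).trans (hH j hj)
  have htail : μ ^ (n + 1) / ((n + 1).factorial : ℝ) ≤ γ / 6 := by
    refine le_trans ?_ (hn0 (n + 1) (by omega)).le
    gcongr
  have hexp : |Real.exp (-μ) - ∑ j ∈ range (n + 1), (-μ) ^ j / (j.factorial : ℝ)| ≤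
      μ ^ (n + 1) / ((n + 1).factorial : ℝ) * 2 := by
    have hb := @Complex.exp_bound' ((-μ : ℝ) : ℂ) (n + 1) (by
      rw [Complex.norm_real, Real.norm_eq_abs, abs_neg, abs_of_nonneg h0,
        div_le_iff₀ (by positivity)]
      have : (n1 : ℝ) ≤ n := by exact_mod_cast le_max_right n0 n1
      push_cast
      linarith)
    rw [Complex.norm_real, Real.norm_eq_abs, abs_neg, abs_of_nonneg h0] at hb
    have e : (Complex.exp ((-μ : ℝ) : ℂ) - ∑ j ∈ range (n + 1), ((-μ : ℝ) : ℂ) ^ j / j.factorial) =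
        ((Real.exp (-μ) - ∑ j ∈ range (n + 1), (-μ) ^ j / (j.factorial : ℝ) : ℝ) : ℂ) := by
      push_cast
      rfl
    rwa [e, Complex.norm_real, Real.norm_eq_abs] at hb
  have hb : |dens {x | H x = 0} - ∑ j ∈ range (n + 1), (-1) ^ j * 𝔼 x, ((H x).choose j : ℝ)| ≤
      𝔼 x, ((H x).choose (n + 1) : ℝ) := by
    have e : dens {x | H x = 0} - ∑ j ∈ range (n + 1), (-1) ^ j * 𝔼 x, ((H x).choose j : ℝ) =
        𝔼 x, ((if H x = 0 then (1 : ℝ) else 0) -
          ∑ j ∈ range (n + 1), (-1) ^ j * ((H x).choose j : ℝ)) := by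
      rw [expect_sub_distrib, expect_sum_comm]
      congr 1
      · unfold dens ind
        exact expect_congr rfl fun x _ => by simp
      · exact sum_congr rfl fun j _ => by rw [mul_expect]
    rw [e]
    exact (Finset.abs_expect_le _ _).trans (expect_le_expect fun x _ => bonf _ _)
  have hs : |∑ j ∈ range (n + 1), (-1) ^ j * 𝔼 x, ((H x).choose j : ℝ) -
      ∑ j ∈ range (n + 1), (-μ) ^ j / (j.factorial : ℝ)| ≤ (n + 1) * δ := by
    rw [← sum_sub_distrib]
    refine (abs_sum_le_sum_abs _ _).trans ?_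
    refine (sum_le_card_nsmul _ _ δ fun j hj => ?_).trans (by simp)
    have e : (-1) ^ j * 𝔼 x, ((H x).choose j : ℝ) - (-μ) ^ j / (j.factorial : ℝ) =
        (-1) ^ j * (𝔼 x, ((H x).choose j : ℝ) - μ ^ j / j.factorial) := by
      rw [neg_pow μ]; ring
    rw [e, abs_mul, abs_pow, abs_neg, abs_one, one_pow, one_mul]
    exact hch j (by have := mem_range.1 hj; omega)
  have h5 := (abs_le.1 (hch (n + 1) le_rfl)).2
  have h6 : ((n : ℝ) + 2) * δ = γ / 2 := by rw [hδ]; field_simp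
  rw [abs_le] at hb hs hexp ⊢
  constructor <;> linarith [hb.1, hb.2, hs.1, hs.2, hexp.1, hexp.2]

section count
variable {A ι : Type} [Fintype A] [Fintype ι] [DecidableEq ι]

lemma sum_update {R : Type} [CommRing R] (F : (ι → A) → R) (i : ι) :
    ∑ t : ι → A, ∑ a : A, F (Function.update t i a) = Fintype.card A * ∑ t, F t := by
  let e : (ι → A) × A ≃ (ι → A) × A :=
    { toFun := fun q => (Function.update q.1 i q.2, q.1 i)
      invFun := fun q => (Function.update q.1 i q.2, q.1 i)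
      left_inv := fun q => by simp
      right_inv := fun q => by simp }
  rw [← Fintype.sum_prod_type', Fintype.sum_equiv e (fun q => F (Function.update q.1 i q.2))
    (fun q => F q.1) (fun q => rfl), Fintype.sum_prod_type]
  simp [mul_sum]

theorem count_edges [LinearOrder ι] (K : A → A → ℝ) (Q B : ℝ) (hQ : 1 ≤ Q) (hB : 0 ≤ B)
    (hK : ∀ a b, |K a b| ≤ Q)
    (hcut : ∀ f g : A → ℝ, (∀ a, |f a| ≤ 1) → (∀ a, |g a| ≤ 1) →
      |∑ a, ∑ b, f a * g b * (K a b - 1)| ≤ B)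
    (E : Finset (ι × ι)) (hE : ∀ e ∈ E, e.1 < e.2) :
    (Fintype.card A : ℝ) ^ 2 *
        |∑ t : ι → A, ∏ e ∈ E, K (t e.1) (t e.2) - (Fintype.card A : ℝ) ^ Fintype.card ι| ≤
      #E * Q ^ (2 * #E) * B * (Fintype.card A : ℝ) ^ Fintype.card ι := by
  classical
  induction E using Finset.induction_on with
  | empty => simp
  | insert e E he ih =>
    have ih' := ih fun e' h => hE e' (mem_insert_of_mem h)
    obtain ⟨i, j⟩ := e
    have hij : i < j := hE _ (mem_insert_self _ _)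
    have hQ0 : 0 < Q := by linarith
    have hP : ∀ (E' : Finset (ι × ι)), E' ⊆ E → ∀ t : ι → A,
        |(∏ e ∈ E', K (t e.1) (t e.2)) / Q ^ #E| ≤ 1 := by
      intro E' hE' t
      rw [abs_div, abs_of_pos (pow_pos hQ0 _), div_le_one (pow_pos hQ0 _), abs_prod]
      refine (prod_le_prod (g := fun _ => Q) (fun e _ => abs_nonneg _) fun e _ => hK _ _).trans ?_
      rw [prod_const]
      exact pow_le_pow_right₀ hQ (card_le_card hE')
    have key : (Fintype.card A : ℝ) ^ 2 *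
        |∑ t : ι → A, (K (t i) (t j) - 1) * ∏ e ∈ E, K (t e.1) (t e.2)| ≤
        Q ^ (2 * #E) * B * (Fintype.card A : ℝ) ^ Fintype.card ι := by
      set F : (ι → A) → ℝ := fun t => (K (t i) (t j) - 1) * ∏ e ∈ E, K (t e.1) (t e.2) with hF
      have e1 : (Fintype.card A : ℝ) ^ 2 * ∑ t, F t =
          ∑ t : ι → A, ∑ a, ∑ b, F (Function.update (Function.update t i a) j b) := by
        rw [sum_update (fun t => ∑ b, F (Function.update t j b)) i, sum_update F j]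
        ring
      have e2 : ∀ t : ι → A, |∑ a, ∑ b, F (Function.update (Function.update t i a) j b)| ≤
          Q ^ (2 * #E) * B := by
        intro t
        have h := hcut
          (fun a => (∏ e ∈ E.filter (fun e => e.1 ≠ j ∧ e.2 ≠ j),
            K (Function.update t i a e.1) (Function.update t i a e.2)) / Q ^ #E)
          (fun b => (∏ e ∈ E.filter (fun e => ¬ (e.1 ≠ j ∧ e.2 ≠ j)),
            K (Function.update t j b e.1) (Function.update t j b e.2)) / Q ^ #E)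
          (fun a => hP _ (filter_subset _ _) _) (fun b => hP _ (filter_subset _ _) _)
        have e3 : ∑ a, ∑ b, F (Function.update (Function.update t i a) j b) = Q ^ (2 * #E) *
            ∑ a, ∑ b, (∏ e ∈ E.filter (fun e => e.1 ≠ j ∧ e.2 ≠ j),
              K (Function.update t i a e.1) (Function.update t i a e.2)) / Q ^ #E *
            ((∏ e ∈ E.filter (fun e => ¬ (e.1 ≠ j ∧ e.2 ≠ j)),
              K (Function.update t j b e.1) (Function.update t j b e.2)) / Q ^ #E) *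
              (K a b - 1) := by
          rw [mul_sum]
          refine sum_congr rfl fun a _ => ?_
          rw [mul_sum]
          refine sum_congr rfl fun b _ => ?_
          have g1 : ∏ e ∈ E.filter (fun e => e.1 ≠ j ∧ e.2 ≠ j),
              K (Function.update (Function.update t i a) j b e.1)
                (Function.update (Function.update t i a) j b e.2) =
              ∏ e ∈ E.filter (fun e => e.1 ≠ j ∧ e.2 ≠ j),
              K (Function.update t i a e.1) (Function.update t i a e.2) := by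
            refine prod_congr rfl fun e he' => ?_
            obtain ⟨-, h1, h2⟩ := mem_filter.1 he'
            rw [Function.update_of_ne h1, Function.update_of_ne h2]
          have g2 : ∏ e ∈ E.filter (fun e => ¬ (e.1 ≠ j ∧ e.2 ≠ j)),
              K (Function.update (Function.update t i a) j b e.1)
                (Function.update (Function.update t i a) j b e.2) =
              ∏ e ∈ E.filter (fun e => ¬ (e.1 ≠ j ∧ e.2 ≠ j)),
              K (Function.update t j b e.1) (Function.update t j b e.2) := by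
            refine prod_congr rfl fun e he' => ?_
            obtain ⟨h0, h1⟩ := mem_filter.1 he'
            have hlt := hE e (mem_insert_of_mem h0)
            have hne : e ≠ (i, j) := fun h => he (h ▸ h0)
            have n1 : e.1 ≠ i := by
              intro h
              by_cases h2 : e.2 = j
              · exact hne (Prod.ext h h2)
              · exact h1 ⟨by rw [h]; exact hij.ne, h2⟩
            have n2 : e.2 ≠ i := by
              intro h
              refine h1 ⟨?_, by rw [h]; exact hij.ne⟩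
              intro h2
              rw [h, h2] at hlt
              exact lt_asymm hij hlt
            have u : ∀ k, k ≠ i → Function.update (Function.update t i a) j b k =
                Function.update t j b k := by
              intro k hk
              by_cases hkj : k = j
              · subst hkj; simp
              · rw [Function.update_of_ne hkj, Function.update_of_ne hkj, Function.update_of_ne hk]
            rw [u _ n1, u _ n2]
          simp only [hF]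
          rw [← prod_filter_mul_prod_filter_not E (fun e => e.1 ≠ j ∧ e.2 ≠ j), g1, g2,
            Function.update_self, Function.update_of_ne hij.ne, Function.update_self, two_mul,
            pow_add]
          field_simp
        rw [e3, abs_mul, abs_of_pos (pow_pos hQ0 _)]
        gcongr
      have e4 : (Fintype.card A : ℝ) ^ 2 * |∑ t, F t| = |(Fintype.card A : ℝ) ^ 2 * ∑ t, F t| := by
        rw [abs_mul, abs_of_nonneg (by positivity : (0 : ℝ) ≤ (Fintype.card A : ℝ) ^ 2)]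
      rw [e4, e1]
      refine (abs_sum_le_sum_abs _ _).trans ?_
      refine (sum_le_card_nsmul _ _ _ fun t _ => e2 t).trans ?_
      simp [mul_comm]
    have e5 : ∑ t : ι → A, ∏ e ∈ insert (i, j) E, K (t e.1) (t e.2) -
        (Fintype.card A : ℝ) ^ Fintype.card ι =
        ∑ t : ι → A, (K (t i) (t j) - 1) * ∏ e ∈ E, K (t e.1) (t e.2) +
        (∑ t : ι → A, ∏ e ∈ E, K (t e.1) (t e.2) - (Fintype.card A : ℝ) ^ Fintype.card ι) := by
      simp only [prod_insert he, sub_mul, one_mul, sum_sub_distrib]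
      ring
    rw [e5, card_insert_of_notMem he]
    have hq : Q ^ (2 * #E) ≤ Q ^ (2 * (#E + 1)) := pow_le_pow_right₀ hQ (by omega)
    have hN : (0 : ℝ) ≤ B * (Fintype.card A : ℝ) ^ Fintype.card ι := by positivity
    have h7 := mul_le_mul_of_nonneg_left (abs_add_le
      (∑ t : ι → A, (K (t i) (t j) - 1) * ∏ e ∈ E, K (t e.1) (t e.2))
      (∑ t : ι → A, ∏ e ∈ E, K (t e.1) (t e.2) - (Fintype.card A : ℝ) ^ Fintype.card ι))
      (by positivity : (0 : ℝ) ≤ (Fintype.card A : ℝ) ^ 2)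
    have h8 := mul_le_mul_of_nonneg_right hq hN
    have h9 := mul_le_mul_of_nonneg_left h8 (Nat.cast_nonneg (#E) : (0 : ℝ) ≤ _)
    push_cast
    nlinarith

end count

/-- Parseval bound -/
lemma pars {G X : Type} [AddCommGroup G] [Fintype G] (T : Finset X) (ψ : X → G →+ ZMod p)
    (h : X → ℂ) (hh : ∀ x, ‖h x‖ ≤ 1) (R : X → X → Prop) [DecidableRel R]
    (hR : ∀ x ∈ T, ∀ y ∈ T, ψ x = ψ y → R x y) :
    ∑ σ, ‖∑ x ∈ T, h x * ee (ψ x σ)‖ ^ 2 ≤
      Fintype.card G * (#{q ∈ T ×ˢ T | R q.1 q.2} : ℝ) := by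
  have e1 : ((∑ σ, ‖∑ x ∈ T, h x * ee (ψ x σ)‖ ^ 2 : ℝ) : ℂ) =
      ∑ q ∈ T ×ˢ T, h q.1 * conj (h q.2) * ∑ σ, ee ((ψ q.1 - ψ q.2) σ) := by
    push_cast
    simp only [← Complex.mul_conj', map_sum, map_mul, conj_ee, sum_mul_sum]
    rw [sum_comm, sum_product]
    refine sum_congr rfl fun x _ => ?_
    rw [sum_comm]
    refine sum_congr rfl fun y _ => ?_
    rw [mul_sum]
    refine sum_congr rfl fun σ _ => ?_
    rw [AddMonoidHom.sub_apply, sub_eq_add_neg, ee_add]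
    ring
  have e2 : ‖∑ q ∈ T ×ˢ T, h q.1 * conj (h q.2) * ∑ σ, ee ((ψ q.1 - ψ q.2) σ)‖ ≤
      ∑ q ∈ T ×ˢ T, if R q.1 q.2 then (Fintype.card G : ℝ) else 0 := by
    refine (norm_sum_le _ _).trans (sum_le_sum fun q hq => ?_)
    split_ifs with hr
    · rw [norm_mul, norm_mul, Complex.norm_conj]
      have : ‖∑ σ, ee ((ψ q.1 - ψ q.2) σ)‖ ≤ Fintype.card G :=
        (norm_sum_le _ _).trans (by simp)
      calc _ ≤ 1 * 1 * (Fintype.card G : ℝ) := by gcongr <;> exact hh _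
        _ = _ := by ring
    · have hne : ψ q.1 - ψ q.2 ≠ 0 := fun h0 =>
        hr (hR _ (mem_product.1 hq).1 _ (mem_product.1 hq).2 (sub_eq_zero.1 h0))
      have h0 := expect_ee_hom _ hne
      rw [Fintype.expect_eq_sum_div_card, div_eq_zero_iff] at h0
      rcases h0 with h0 | h0
      · rw [h0]; simp
      · exact absurd h0 (by exact_mod_cast Fintype.card_ne_zero)
  rw [← e1, Complex.norm_real, Real.norm_eq_abs, ← sum_filter] at e2
  refine (le_abs_self _).trans (e2.trans ?_)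
  simp [mul_comm]

end Pool.Agent.Work.MP_4523ee_co.Fp.Po
end

-- merged part: Pool.Agent.Work.MP_4523ee_co.Fp.PoB
section
/-!
Poisson count: definitions and the probabilities of the joint events (PE, PU).
-/

set_option autoImplicit false
set_option linter.unusedSectionVars false

namespace Pool.Agent.Work.MP_4523ee_co.Fp.Po

open Finset Matrix
open scoped BigOperators ComplexConjugate

variable {p : ℕ} [Fact p.Prime]

abbrev TT (p : ℕ) (ρ : ℕ) (ν : Type) := GX (Fin ρ → ZMod p) ν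

abbrev Mx (p : ℕ) (a b : Type) := Matrix a b (ZMod p)

abbrev OM (p : ℕ) (ρ : ℕ) (J : Type) := Mx p J (Fin ρ) × Mx p J (Fin ρ)

abbrev WW (p : ℕ) [Fact p.Prime] (ν J : Type) := SymM p ν × Mx p ν J

/-- `d = p ^ n` -/
noncomputable def dd (p : ℕ) (ν : Type) [Fintype ν] : ℝ := (p : ℝ) ^ Fintype.card ν

/-- probability of one event -/
noncomputable def qq (p ρ : ℕ) (ν J : Type) [Fintype ν] [Fintype J] : ℝ :=
  (p : ℝ) ^ (ρ ^ 2) / ((p : ℝ) ^ (ρ + 1).choose 2 * (p : ℝ) ^ (Fintype.card J * ρ) * dd p ν ^ ρ)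

/-- increasing pairs -/
def EE (j : ℕ) : Finset (Fin j × Fin j) := univ.filter fun e => e.1 < e.2

variable {ν J : Type} [Fintype ν] [DecidableEq ν] [Fintype J] [DecidableEq J] {ρ : ℕ}

def yM (τ : TT p ρ ν) : Mx p ν (Fin ρ) := Matrix.of τ.1

def zM (τ : TT p ρ ν) : Mx p ν (Fin ρ) := Matrix.of τ.2

/-- right multiplication of a tuple by a square matrix -/
def rm (τ : TT p ρ ν) (g : Mx p (Fin ρ) (Fin ρ)) : TT p ρ ν :=
  (fun i => τ.1 i ᵥ* g, fun i => τ.2 i ᵥ* g)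

/-- the event -/
def Hd (τ : TT p ρ ν) (ω : OM p ρ J) (m : WW p ν J) : Prop :=
  m.2ᵀ * yM τ = ω.1 ∧ m.1.1 * yM τ + m.2 * ω.2 = zM τ

/-- symplectic Gram matrix of two tuples -/
def om (τ τ' : TT p ρ ν) : Mx p (Fin ρ) (Fin ρ) := (yM τ)ᵀ * zM τ' - (zM τ)ᵀ * yM τ'

def oc (ω ω' : OM p ρ J) : Mx p (Fin ρ) (Fin ρ) := ω.1ᵀ * ω'.2 - ω.2ᵀ * ω'.1

open Classical in
/-- compatibility kernel -/
noncomputable def KK (τ τ' : TT p ρ ν) (ω ω' : OM p ρ J) : ℝ :=
  if om τ τ' = oc ω ω' then (p : ℝ) ^ (ρ ^ 2) else 0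

/-- the columns of the first components are dependent -/
def Dep {ι : Type} [Fintype ι] (t : ι → TT p ρ ν) : Prop :=
  ∃ c : ι → Fin ρ → ZMod p, c ≠ 0 ∧ ∑ k, yM (t k) *ᵥ c k = 0

/-- every proper subfamily is independent -/
def Mn {ι : Type} [Fintype ι] (t : ι → TT p ρ ν) : Prop :=
  ∀ c : ι → Fin ρ → ZMod p, ∑ k, yM (t k) *ᵥ c k = 0 → (∃ k, c k = 0) → c = 0

/-- light family of small energy -/
structure Good (b : ℝ) (S : Finset (TT p ρ ν)) : Prop where
  r0 : 0 < ρ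
  b0 : 0 < b
  b1 : b ≤ 1
  fam : Fam (b ^ 2) S
  card : (#S : ℝ) ≤ dd p ν ^ ρ
  en : (Finset.addEnergy S S : ℝ) ≤ b ^ 8 * dd p ν ^ (3 * ρ)

lemma one_le_p : (1 : ℝ) ≤ p := by exact_mod_cast (Fact.out : p.Prime).one_lt.le

lemma one_le_dd : 1 ≤ dd p ν := one_le_pow₀ one_le_p

lemma dd_pos : 0 < dd p ν := lt_of_lt_of_le one_pos one_le_dd

lemma act_eq (M : Mx p ν ν) (τ : TT p ρ ν) : τ.2 = act M τ.1 ↔ M * yM τ = zM τ := by
  have : Matrix.of (act M τ.1) = M * yM τ := by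
    ext i a
    simp [act, yM, Matrix.mul_apply]
  rw [← this, zM, Matrix.of.apply_eq_iff_eq, eq_comm]

lemma spn_eq (τ : TT p ρ ν) :
    spn τ = LinearMap.range ((yM τ).mulVecLin.prod (zM τ).mulVecLin) := by
  rw [LinearMap.range_eq_map, ← (Pi.basisFun (ZMod p) (Fin ρ)).span_eq, Submodule.map_span,
    ← Set.range_comp, spn]
  congr 2
  funext a
  refine Prod.ext ?_ ?_
  · funext i
    simp [yM]
  · funext i
    simp [zM]

lemma Good.inj {b : ℝ} {S : Finset (TT p ρ ν)} (h : Good b S) {τ : TT p ρ ν} (hτ : τ ∈ S) :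
    Inj (yM τ) := Matrix.mulVec_injective_iff.2 (h.fam.indep τ hτ)

lemma finrank_spn {τ : TT p ρ ν} (h : Inj (yM τ)) : Module.finrank (ZMod p) (spn τ) = ρ := by
  rw [spn_eq, LinearMap.finrank_range_of_inj fun a b e => h (congrArg Prod.fst e)]
  simp

lemma Good.om_self {b : ℝ} {S : Finset (TT p ρ ν)} (h : Good b S) {τ : TT p ρ ν} (hτ : τ ∈ S) :
    om τ τ = 0 := by
  ext a b
  have k := h.fam.symm τ hτ a b
  simp only [om, yM, zM, Matrix.sub_apply, Matrix.mul_apply, transpose_apply, of_apply,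
    Matrix.zero_apply]
  rw [k, sub_eq_zero]
  exact Finset.sum_congr rfl fun i _ => mul_comm _ _

lemma Hd_unique {τ : TT p ρ ν} {ω ω' : OM p ρ J} {m : WW p ν J} (hU : Inj m.2) (h : Hd τ ω m)
    (h' : Hd τ ω' m) : ω = ω' := by
  refine Prod.ext (h.1.symm.trans h'.1) ?_
  have k : m.2 * ω.2 = m.2 * ω'.2 := add_left_cancel (h.2.trans h'.2.symm)
  ext i a
  have e : m.2 *ᵥ (fun i => ω.2 i a) = m.2 *ᵥ fun i => ω'.2 i a := by
    funext j
    exact congrFun (congrFun k j) a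
  exact congrFun (hU e) i

lemma card_SymM (κ : Type) [Fintype κ] [DecidableEq κ] :
    Fintype.card (SymM p κ) = p ^ (Fintype.card κ + 1).choose 2 := by
  let e : SymM p κ ≃ {f : κ → κ → ZMod p // ∀ a b, f a b = f b a} :=
    ⟨fun M => ⟨fun a b => M.1 a b, fun a b => congrFun (congrFun (SymM_T M) b) a⟩,
      fun f => ⟨Matrix.of f.1, Matrix.ext fun a b => f.2 b a⟩, fun _ => rfl, fun _ => rfl⟩
  rw [Fintype.card_congr (e.trans Sym2.lift), Fintype.card_fun, ZMod.card, Sym2.card]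

lemma pa_card_Mx (a b : Type) [Fintype a] [DecidableEq a] [Fintype b] [DecidableEq b] :
    Fintype.card (Mx p a b) = p ^ (Fintype.card a * Fintype.card b) := by
  rw [card_eq_pow (p := p), Module.finrank_matrix, Module.finrank_self, mul_one]

lemma pa_left {κ : Type} [Fintype κ] [DecidableEq κ] (Y : Mx p ν κ) (hY : Inj Y) :
    ∃ L : Mx p κ ν, L * Y = 1 := by
  obtain ⟨g, hg⟩ := LinearMap.exists_leftInverse_of_injective (Matrix.toLin' Y)
    (LinearMap.ker_eq_bot.2 hY)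
  refine ⟨LinearMap.toMatrix' g, ?_⟩
  have := congrArg LinearMap.toMatrix' hg
  rwa [LinearMap.toMatrix'_comp, LinearMap.toMatrix'_toLin', LinearMap.toMatrix'_id] at this

def paPhi {κ : Type} (Y : Mx p ν κ) (W : Mx p J κ) :
    WW p ν J →ₗ[ZMod p] Mx p J κ × Mx p ν κ where
  toFun m := (m.2ᵀ * Y, m.1.1 * Y + m.2 * W)
  map_add' a b := by
    refine Prod.ext ?_ ?_
    · simp only [Prod.snd_add, Prod.fst_add, transpose_add, Matrix.add_mul]
    · simp only [Prod.snd_add, Prod.fst_add, Submodule.coe_add, Matrix.add_mul]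
      abel
  map_smul' c a := by
    refine Prod.ext ?_ ?_
    · simp only [Prod.smul_snd, Prod.smul_fst, transpose_smul, Matrix.smul_mul, RingHom.id_apply]
    · simp only [Prod.smul_snd, Prod.smul_fst, Submodule.coe_smul, Matrix.smul_mul,
        RingHom.id_apply, smul_add]

def paPsi {κ : Type} (Y : Mx p ν κ) (W : Mx p J κ) :
    (Mx p J κ × Mx p ν κ) →ₗ[ZMod p] Mx p κ κ where
  toFun x := Yᵀ * x.2 - x.1ᵀ * W
  map_add' a b := by
    simp only [Prod.snd_add, Prod.fst_add, transpose_add, Matrix.add_mul, Matrix.mul_add]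
    abel
  map_smul' c a := by
    simp only [Prod.smul_snd, Prod.smul_fst, transpose_smul, Matrix.smul_mul, Matrix.mul_smul,
      RingHom.id_apply, smul_sub]

lemma pa_mem {κ : Type} (Y : Mx p ν κ) (W : Mx p J κ) (m : WW p ν J) :
    paPhi Y W m ∈ (SymM p κ).comap (paPsi Y W) := by
  show (Yᵀ * (m.1.1 * Y + m.2 * W) - (m.2ᵀ * Y)ᵀ * W)ᵀ =
    Yᵀ * (m.1.1 * Y + m.2 * W) - (m.2ᵀ * Y)ᵀ * W
  have e : Yᵀ * (m.1.1 * Y + m.2 * W) - (m.2ᵀ * Y)ᵀ * W = Yᵀ * (m.1.1 * Y) := by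
    rw [Matrix.mul_add, transpose_mul, transpose_transpose, Matrix.mul_assoc, add_sub_cancel_right]
  rw [e, transpose_mul, transpose_mul, transpose_transpose, SymM_T, Matrix.mul_assoc]

lemma pa_surj {κ : Type} [Fintype κ] [DecidableEq κ] {Y : Mx p ν κ} (W : Mx p J κ)
    {L : Mx p κ ν} (hL : L * Y = 1) :
    Function.Surjective ((paPhi Y W).codRestrict _ (pa_mem Y W)) := by
  rintro ⟨⟨Yb, Z⟩, hx⟩
  have hS : (Yᵀ * Z - Ybᵀ * W)ᵀ = Yᵀ * Z - Ybᵀ * W := hx
  have hL' : Yᵀ * Lᵀ = 1 := by rw [← transpose_mul, hL, transpose_one]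
  obtain ⟨Z1, hZ⟩ : ∃ Z1 : Mx p ν κ, Z1 = Z - Lᵀ * Ybᵀ * W := ⟨_, rfl⟩
  have h1 : Yᵀ * Z1 = Yᵀ * Z - Ybᵀ * W := by
    rw [hZ, Matrix.mul_sub, Matrix.mul_assoc, ← Matrix.mul_assoc Yᵀ, hL', Matrix.one_mul]
  rw [← h1] at hS
  have h2 : Z1ᵀ * Y = Yᵀ * Z1 := by rw [← hS, transpose_mul, transpose_transpose]
  refine ⟨(⟨Z1 * L + Lᵀ * Z1ᵀ - Lᵀ * (Yᵀ * Z1 * L), ?_⟩, Lᵀ * Ybᵀ), Subtype.ext (Prod.ext ?_ ?_)⟩
  · show (Z1 * L + Lᵀ * Z1ᵀ - Lᵀ * (Yᵀ * Z1 * L))ᵀ = Z1 * L + Lᵀ * Z1ᵀ - Lᵀ * (Yᵀ * Z1 * L)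
    rw [transpose_sub, transpose_add, transpose_mul, transpose_mul, transpose_mul, transpose_mul,
      hS, transpose_transpose, transpose_transpose, add_comm, Matrix.mul_assoc]
  · show (Lᵀ * Ybᵀ)ᵀ * Y = Yb
    rw [transpose_mul, transpose_transpose, transpose_transpose, Matrix.mul_assoc, hL,
      Matrix.mul_one]
  · show (Z1 * L + Lᵀ * Z1ᵀ - Lᵀ * (Yᵀ * Z1 * L)) * Y + Lᵀ * Ybᵀ * W = Z
    rw [Matrix.sub_mul, Matrix.add_mul, Matrix.mul_assoc Z1, hL, Matrix.mul_one,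
      Matrix.mul_assoc Lᵀ Z1ᵀ, h2, Matrix.mul_assoc Lᵀ (Yᵀ * Z1 * L), Matrix.mul_assoc (Yᵀ * Z1), hL,
      Matrix.mul_one, add_sub_cancel_right, hZ, sub_add_cancel]

lemma pa_card {κ : Type} [Fintype κ] [DecidableEq κ] {Y : Mx p ν κ} (W : Mx p J κ)
    {L : Mx p κ ν} (hL : L * Y = 1) :
    Fintype.card ((SymM p κ).comap (paPsi Y W)) * p ^ (Fintype.card κ ^ 2) =
      p ^ (Fintype.card κ + 1).choose 2 * p ^ (Fintype.card J * Fintype.card κ) *
        (p ^ Fintype.card ν) ^ Fintype.card κ := by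
  have hL' : Yᵀ * Lᵀ = 1 := by rw [← transpose_mul, hL, transpose_one]
  have hs : Function.Surjective (paPsi Y W) := fun A => ⟨(0, Lᵀ * A), by
    show Yᵀ * (Lᵀ * A) - (0 : Mx p J κ)ᵀ * W = A
    rw [← Matrix.mul_assoc, hL', Matrix.one_mul, transpose_zero, Matrix.zero_mul, sub_zero]⟩
  have hs2 : Function.Surjective ((SymM p κ).mkQ ∘ₗ paPsi Y W) :=
    (Submodule.mkQ_surjective _).comp hs
  have h1 := LinearMap.finrank_range_add_finrank_ker ((SymM p κ).mkQ ∘ₗ paPsi Y W)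
  rw [LinearMap.range_eq_top.2 hs2, finrank_top, LinearMap.ker_comp, Submodule.ker_mkQ] at h1
  have h2 := Submodule.finrank_quotient_add_finrank (SymM p κ)
  have h3 := card_SymM (p := p) κ
  rw [card_eq_pow (p := p)] at h3
  have h4 := Nat.pow_right_injective (Fact.out : p.Prime).two_le h3
  rw [Module.finrank_prod] at h1
  simp only [Module.finrank_matrix, Module.finrank_self, mul_one] at h1 h2
  rw [card_eq_pow (p := p), ← pow_mul, ← pow_add, ← pow_add, ← pow_add, sq]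
  congr 1
  omega

open Classical in
/-- exact probability for independent columns -/
lemma PE0 {κ : Type} [Fintype κ] [DecidableEq κ] (Y Z : Mx p ν κ) (Yb W : Mx p J κ) (hY : Inj Y) :
    dens {m : WW p ν J | m.2ᵀ * Y = Yb ∧ m.1.1 * Y + m.2 * W = Z} =
      if Yᵀ * Z - Zᵀ * Y = Ybᵀ * W - Wᵀ * Yb then
        (p : ℝ) ^ (Fintype.card κ ^ 2) / ((p : ℝ) ^ (Fintype.card κ + 1).choose 2 *
          (p : ℝ) ^ (Fintype.card J * Fintype.card κ) * dd p ν ^ Fintype.card κ) else 0 := by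
  obtain ⟨L, hL⟩ := pa_left Y hY
  have hiff : (Yb, Z) ∈ (SymM p κ).comap (paPsi Y W) ↔
      Yᵀ * Z - Zᵀ * Y = Ybᵀ * W - Wᵀ * Yb := by
    show (Yᵀ * Z - Ybᵀ * W)ᵀ = Yᵀ * Z - Ybᵀ * W ↔ _
    rw [transpose_sub, transpose_mul, transpose_mul, transpose_transpose, transpose_transpose,
      eq_comm, sub_eq_sub_iff_sub_eq_sub]
  split_ifs with hc
  · have h1 := dens_fibre_surj _ (pa_surj W hL) ⟨(Yb, Z), hiff.2 hc⟩
    have e : {m : WW p ν J | m.2ᵀ * Y = Yb ∧ m.1.1 * Y + m.2 * W = Z} =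
        {x | (paPhi Y W).codRestrict _ (pa_mem Y W) x = ⟨(Yb, Z), hiff.2 hc⟩} := by
      ext m
      exact ⟨fun h => Subtype.ext (Prod.ext h.1 h.2), fun h =>
        ⟨congrArg (fun x => x.1.1) h, congrArg (fun x => x.1.2) h⟩⟩
    have h2 : (Fintype.card ((SymM p κ).comap (paPsi Y W)) : ℝ) * (p : ℝ) ^ (Fintype.card κ ^ 2) =
        (p : ℝ) ^ (Fintype.card κ + 1).choose 2 * (p : ℝ) ^ (Fintype.card J * Fintype.card κ) *
          dd p ν ^ Fintype.card κ := by
      unfold dd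
      exact_mod_cast pa_card W hL
    have h3 : (0 : ℝ) < p := lt_of_lt_of_le one_pos one_le_p
    have h4 : (Fintype.card ((SymM p κ).comap (paPsi Y W)) : ℝ) ≠ 0 :=
      Nat.cast_ne_zero.2 Fintype.card_ne_zero
    rw [e, h1, ← h2]
    field_simp
  · have e : {m : WW p ν J | m.2ᵀ * Y = Yb ∧ m.1.1 * Y + m.2 * W = Z} = ∅ := by
      refine Set.eq_empty_of_forall_notMem fun m hm => hc (hiff.1 ?_)
      rw [← hm.1, ← hm.2]
      exact pa_mem Y W m
    rw [e]
    simp [dens, ind]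

/-- the columns of a family of matrices, glued -/
def glue {a : Type} {j : ℕ} (f : Fin j → Mx p a (Fin ρ)) : Mx p a (Fin j × Fin ρ) :=
  Matrix.of fun i q => f q.1 i q.2

lemma glue_inj {a : Type} {j : ℕ} {f g : Fin j → Mx p a (Fin ρ)} :
    glue f = glue g ↔ ∀ k, f k = g k := by
  constructor
  · intro h k
    ext i c
    exact congrFun (congrFun h i) (k, c)
  · intro h
    rw [funext h]

lemma mul_glue {a b : Type} [Fintype b] {j : ℕ} (A : Mx p a b) (f : Fin j → Mx p b (Fin ρ)) :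
    A * glue f = glue fun k => A * f k := by
  ext i q
  simp [glue, Matrix.mul_apply]

lemma glue_add {a : Type} {j : ℕ} (f g : Fin j → Mx p a (Fin ρ)) :
    glue f + glue g = glue fun k => f k + g k := by
  ext i q
  simp [glue]

lemma glue_mulVec {a : Type} {j : ℕ} (f : Fin j → Mx p a (Fin ρ))
    (c : Fin j × Fin ρ → ZMod p) : glue f *ᵥ c = ∑ k, f k *ᵥ fun b => c (k, b) := by
  funext i
  simp [glue, mulVec, dotProduct, Fintype.sum_prod_type, Finset.sum_apply]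

lemma glue_tr {a : Type} [Fintype a] {j : ℕ} (f g : Fin j → Mx p a (Fin ρ))
    (q q' : Fin j × Fin ρ) : ((glue f)ᵀ * glue g) q q' = ((f q.1)ᵀ * g q'.1) q.2 q'.2 := by
  simp [glue, Matrix.mul_apply]

lemma om_swap (τ τ' : TT p ρ ν) : om τ' τ = -(om τ τ')ᵀ := by
  simp only [om, transpose_sub, transpose_mul, transpose_transpose, neg_sub]

lemma oc_swap (ω ω' : OM p ρ J) : oc ω' ω = -(oc ω ω')ᵀ := by
  simp only [oc, transpose_sub, transpose_mul, transpose_transpose, neg_sub]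

lemma card_EE (j : ℕ) : #(EE j) = j.choose 2 := by
  have := Finset.card_product_filter_lt (s := (univ : Finset (Fin j)))
  rw [univ_product_univ, card_univ, Fintype.card_fin] at this
  exact this

lemma expo (j ρ : ℕ) : ρ ^ 2 * j + ρ ^ 2 * j.choose 2 + (j * ρ + 1).choose 2 =
    (j * ρ) ^ 2 + (ρ + 1).choose 2 * j := by
  have h : ((ρ ^ 2 * j + ρ ^ 2 * j.choose 2 + (j * ρ + 1).choose 2 : ℕ) : ℚ) =
      (((j * ρ) ^ 2 + (ρ + 1).choose 2 * j : ℕ) : ℚ) := by
    push_cast [Nat.cast_choose_two]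
    ring
  exact_mod_cast h

lemma Hd_glue {j : ℕ} (τ : Fin j → TT p ρ ν) (ω : Fin j → OM p ρ J) (m : WW p ν J) :
    (∀ k, Hd (τ k) (ω k) m) ↔ m.2ᵀ * glue (fun k => yM (τ k)) = glue (fun k => (ω k).1) ∧
      m.1.1 * glue (fun k => yM (τ k)) + m.2 * glue (fun k => (ω k).2) =
        glue fun k => zM (τ k) := by
  rw [mul_glue, mul_glue, mul_glue, glue_add, glue_inj, glue_inj, ← forall_and]
  rfl

theorem PE {j : ℕ} (τ : Fin j → TT p ρ ν) (ω : Fin j → OM p ρ J) (h : ¬ Dep τ)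
    (h1 : ∀ k, om (τ k) (τ k) = 0) (h2 : ∀ k, oc (ω k) (ω k) = 0) :
    dens {m : WW p ν J | ∀ k, Hd (τ k) (ω k) m} =
      qq p ρ ν J ^ j * ∏ e ∈ EE j, KK (τ e.1) (τ e.2) (ω e.1) (ω e.2) := by
  classical
  have hY : Inj (glue fun k => yM (τ k)) := by
    intro c c' hc
    have h0 : glue (fun k => yM (τ k)) *ᵥ (c - c') = 0 := by
      rw [mulVec_sub, sub_eq_zero]
      exact hc
    rw [glue_mulVec] at h0
    by_contra hne
    refine h ⟨fun k b => (c - c') (k, b), fun h3 => hne ?_, h0⟩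
    rw [← sub_eq_zero]
    funext q
    exact congrFun (congrFun h3 q.1) q.2
  have hc : ((glue fun k => yM (τ k))ᵀ * (glue fun k => zM (τ k)) -
      (glue fun k => zM (τ k))ᵀ * (glue fun k => yM (τ k)) =
      (glue fun k => (ω k).1)ᵀ * (glue fun k => (ω k).2) -
        (glue fun k => (ω k).2)ᵀ * (glue fun k => (ω k).1)) ↔
      ∀ e ∈ EE j, om (τ e.1) (τ e.2) = oc (ω e.1) (ω e.2) := by
    constructor
    · intro h3 e _
      ext a b
      have := congrFun (congrFun h3 (e.1, a)) (e.2, b)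
      simp only [Matrix.sub_apply, glue_tr] at this
      exact this
    · intro h3
      have h4 : ∀ k k', om (τ k) (τ k') = oc (ω k) (ω k') := by
        intro k k'
        rcases lt_trichotomy k k' with hl | rfl | hl
        · exact h3 (k, k') (mem_filter.2 ⟨mem_univ _, hl⟩)
        · rw [h1, h2]
        · rw [om_swap, oc_swap, h3 (k', k) (mem_filter.2 ⟨mem_univ _, hl⟩)]
      ext q q'
      simp only [Matrix.sub_apply, glue_tr]
      exact congrFun (congrFun (h4 q.1 q'.1) q.2) q'.2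
  rw [Set.ext fun m => Hd_glue τ ω m]
  refine (PE0 _ _ _ _ hY).trans ?_
  by_cases hE : ∀ e ∈ EE j, om (τ e.1) (τ e.2) = oc (ω e.1) (ω e.2)
  · have hK : ∀ e ∈ EE j, KK (τ e.1) (τ e.2) (ω e.1) (ω e.2) = (p : ℝ) ^ (ρ ^ 2) :=
      fun e he => if_pos (hE e he)
    rw [if_pos (hc.2 hE), prod_congr rfl hK, prod_const, card_EE, Fintype.card_prod,
      Fintype.card_fin, Fintype.card_fin, qq]
    have hp : (0 : ℝ) < p := lt_of_lt_of_le one_pos one_le_p
    have hd : 0 < dd p ν := dd_pos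
    have e : (p : ℝ) ^ (ρ ^ 2 * j) * p ^ (ρ ^ 2 * j.choose 2) * p ^ (j * ρ + 1).choose 2 =
        p ^ (j * ρ) ^ 2 * p ^ ((ρ + 1).choose 2 * j) := by
      rw [← pow_add, ← pow_add, ← pow_add, expo]
    rw [div_pow, mul_pow (_ * _ : ℝ), mul_pow (_ ^ _ : ℝ), ← pow_mul, ← pow_mul, ← pow_mul,
      ← pow_mul, ← pow_mul, mul_assoc (Fintype.card J), mul_comm ρ j, div_mul_eq_mul_div,
      div_eq_div_iff (by positivity) (by positivity)]
    linear_combination (-(p : ℝ) ^ (Fintype.card J * (j * ρ)) * dd p ν ^ (j * ρ)) * e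
  · rw [if_neg fun h3 => hE (hc.1 h3)]
    obtain ⟨e, he⟩ := not_forall.1 hE
    obtain ⟨he, hn⟩ := Classical.not_imp.1 he
    have hK : KK (τ e.1) (τ e.2) (ω e.1) (ω e.2) = 0 := if_neg hn
    rw [prod_eq_zero he hK, mul_zero]

lemma PU0 {κ : Type} [Fintype κ] [DecidableEq κ] (Y Z : Mx p ν κ) (W : Mx p J κ)
    (h : ∀ c, Y *ᵥ c = 0 → W *ᵥ c = 0 → c = 0) :
    dens {m : WW p ν J | m.1.1 * Y + m.2 * W = Z} ≤
      (p : ℝ) ^ (Fintype.card κ ^ 2) * (dd p ν ^ Fintype.card κ)⁻¹ := by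
  obtain ⟨g, hg⟩ := LinearMap.exists_leftInverse_of_injective (Y.mulVecLin.prod W.mulVecLin)
    (LinearMap.ker_eq_bot'.2 fun c hc => h c (congrArg Prod.fst hc) (congrArg Prod.snd hc))
  have hL : LinearMap.toMatrix' (g ∘ₗ LinearMap.inl _ _ _) * Y +
      LinearMap.toMatrix' (g ∘ₗ LinearMap.inr _ _ _) * W = 1 := by
    refine Matrix.ext_iff_mulVec.2 fun c => ?_
    rw [add_mulVec, ← mulVec_mulVec, ← mulVec_mulVec, LinearMap.toMatrix'_mulVec,
      LinearMap.toMatrix'_mulVec, one_mulVec, LinearMap.comp_apply, LinearMap.comp_apply,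
      ← map_add, LinearMap.inl_apply, LinearMap.inr_apply, Prod.mk_add_mk, add_zero, zero_add]
    exact LinearMap.congr_fun hg c
  generalize LinearMap.toMatrix' (g ∘ₗ LinearMap.inl _ _ _) = L1 at hL
  generalize LinearMap.toMatrix' (g ∘ₗ LinearMap.inr _ _ _) = L2 at hL
  let Φ : WW p ν J →ₗ[ZMod p] Mx p ν κ :=
    { toFun := fun m => m.1.1 * Y + m.2 * W
      map_add' := fun m m' => by
        simp only [Prod.fst_add, Prod.snd_add, Submodule.coe_add, Matrix.add_mul]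
        abel
      map_smul' := fun c m => by
        simp only [Prod.smul_fst, Prod.smul_snd, Submodule.coe_smul, Matrix.smul_mul, smul_add,
          RingHom.id_apply] }
  let Ψ : Mx p ν κ →ₗ[ZMod p] Mx p κ κ :=
    { toFun := fun A => Yᵀ * A
      map_add' := fun A B => Matrix.mul_add _ _ _
      map_smul' := fun c A => Matrix.mul_smul _ _ _ }
  have hle : LinearMap.ker Ψ ≤ LinearMap.range Φ := by
    intro A hA
    have hA' : Aᵀ * Y = 0 := by
      have h0 : Yᵀ * A = 0 := hA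
      rw [← transpose_transpose Y, ← transpose_mul, h0, transpose_zero]
    refine ⟨(⟨A * L1 + (A * L1)ᵀ, ?_⟩, A * L2), ?_⟩
    · show (A * L1 + (A * L1)ᵀ)ᵀ = A * L1 + (A * L1)ᵀ
      rw [transpose_add, transpose_transpose, add_comm]
    · show (A * L1 + (A * L1)ᵀ) * Y + A * L2 * W = A
      rw [Matrix.add_mul, transpose_mul, Matrix.mul_assoc L1ᵀ, hA', Matrix.mul_zero, add_zero,
        Matrix.mul_assoc, Matrix.mul_assoc, ← Matrix.mul_add, hL, Matrix.mul_one]
  have h1 := Submodule.finrank_mono hle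
  have h2 := LinearMap.finrank_range_add_finrank_ker Ψ
  have h3 := Submodule.finrank_le (LinearMap.range Ψ)
  rw [Module.finrank_matrix, Module.finrank_self, mul_one] at h2 h3
  have h4 : dens {m : WW p ν J | Φ m = 0} =
      ((p : ℝ) ^ Module.finrank (ZMod p) (LinearMap.range Φ))⁻¹ := by
    have := dens_fibre_surj Φ.rangeRestrict Φ.surjective_rangeRestrict 0
    rw [card_eq_pow (p := p), Nat.cast_pow] at this
    rw [← this]
    exact congrArg dens (Set.ext fun m => ⟨fun k => Subtype.ext k, fun k => congrArg Subtype.val k⟩)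
  refine (dens_fibre_le Φ Z).trans ?_
  have hp : (0 : ℝ) < p := lt_of_lt_of_le one_pos one_le_p
  rw [h4, dd, ← pow_mul, ← div_eq_mul_inv, inv_eq_one_div,
    div_le_div_iff₀ (by positivity) (by positivity), one_mul, ← pow_add]
  refine pow_le_pow_right₀ one_le_p ?_
  rw [sq]
  omega

theorem PU {j : ℕ} (τ : Fin j → TT p ρ ν) (ω : Fin j → OM p ρ J) :
    dens {m : WW p ν J | ∀ k, Hd (τ k) (ω k) m} ≤
      (p : ℝ) ^ ((j * ρ) ^ 2) * (dd p ν ^ Module.finrank (ZMod p) ↥(⨆ k, spn (τ k)))⁻¹ := by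
  classical
  have hp : (0 : ℝ) < p := lt_of_lt_of_le one_pos one_le_p
  have hd : 0 < dd p ν := dd_pos
  by_cases hne : ∃ m : WW p ν J, ∀ k, Hd (τ k) (ω k) m
  swap
  · have e : {m : WW p ν J | ∀ k, Hd (τ k) (ω k) m} = ∅ :=
      Set.eq_empty_of_forall_notMem fun m hm => hne ⟨m, hm⟩
    rw [e, dens_eq_card]
    simp only [Nat.card_eq_fintype_card, Fintype.card_eq_zero, Nat.cast_zero, zero_div]
    positivity
  obtain ⟨m0, hm0⟩ := hne
  have h0 := ((Hd_glue τ ω m0).1 hm0).2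
  set Y := glue fun k => yM (τ k) with hY
  set Z := glue fun k => zM (τ k) with hZ
  set W := glue fun k => (ω k).2 with hW
  set T := Y.mulVecLin.prod Z.mulVecLin with hT
  have hsup : ⨆ k, spn (τ k) ≤ LinearMap.range T := by
    refine iSup_le fun k => Submodule.span_le.2 ?_
    rintro _ ⟨a, rfl⟩
    refine ⟨Pi.single (k, a) 1, Prod.ext ?_ ?_⟩
    · show Y *ᵥ Pi.single (k, a) 1 = _
      rw [mulVec_single_one]
      rfl
    · show Z *ᵥ Pi.single (k, a) 1 = _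
      rw [mulVec_single_one]
      rfl
  have hr := Submodule.finrank_mono hsup
  have hr2 : Module.finrank (ZMod p) (LinearMap.range T) ≤ j * ρ := by
    have := LinearMap.finrank_range_le T
    rwa [Module.finrank_fintype_fun_eq_card, Fintype.card_prod, Fintype.card_fin,
      Fintype.card_fin] at this
  obtain ⟨σ, hσ⟩ := T.rangeRestrict.exists_rightInverse_of_surjective T.range_rangeRestrict
  let b := (Module.finBasis (ZMod p) (LinearMap.range T)).equivFun.symm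
  set C := LinearMap.toMatrix' (σ ∘ₗ b.toLinearMap) with hC
  have hinj : ∀ c, (Y * C) *ᵥ c = 0 → (W * C) *ᵥ c = 0 → c = 0 := by
    intro c k1 k2
    rw [← mulVec_mulVec] at k1 k2
    have k3 : Z *ᵥ C *ᵥ c = 0 := by
      rw [← h0, add_mulVec, ← mulVec_mulVec, ← mulVec_mulVec, k1, k2, mulVec_zero, mulVec_zero,
        add_zero]
    have k4 : T.rangeRestrict (σ (b c)) = 0 := by
      rw [hC, LinearMap.toMatrix'_mulVec] at k1 k3
      exact Subtype.ext (Prod.ext k1 k3)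
    exact b.map_eq_zero_iff.1 ((LinearMap.congr_fun hσ (b c)).symm.trans k4)
  refine (dens_mono ?_).trans ((PU0 (Y * C) (Z * C) (W * C) hinj).trans ?_)
  · intro m hm
    have k : m.1.1 * Y + m.2 * W = Z := ((Hd_glue τ ω m).1 hm).2
    show m.1.1 * (Y * C) + m.2 * (W * C) = Z * C
    rw [← k, Matrix.add_mul, Matrix.mul_assoc, Matrix.mul_assoc]
  · rw [Fintype.card_fin]
    refine mul_le_mul (pow_le_pow_right₀ one_le_p (Nat.pow_le_pow_left hr2 2))
      (inv_anti₀ (by positivity) (pow_le_pow_right₀ one_le_dd hr)) (by positivity) (by positivity)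

end Pool.Agent.Work.MP_4523ee_co.Fp.Po
end

-- merged part: Pool.Agent.Work.MP_4523ee_co.Fp.PoC
section
/-!
Poisson count: Fourier bounds.
-/

set_option autoImplicit false
set_option linter.unusedSectionVars false

namespace Pool.Agent.Work.MP_4523ee_co.Fp.Po

open Finset Matrix
open scoped BigOperators ComplexConjugate

variable {p : ℕ} [Fact p.Prime]

variable {ν J : Type} [Fintype ν] [DecidableEq ν] [Fintype J] [DecidableEq J] {ρ : ℕ}
variable {b : ℝ} {S : Finset (TT p ρ ν)}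

/-- lightness in matrix form -/
lemma Good.light_rm (h : Good b S) (g : Mx p (Fin ρ) (Fin ρ)) (h0 : 0 < g.rank) (h1 : g.rank < ρ)
    (σ : TT p ρ ν) : (#{τ ∈ S | rm τ g = σ} : ℝ) ≤ b ^ 2 * dd p ν ^ (ρ - g.rank) := by
  classical
  rcases (S.filter fun τ => rm τ g = σ).eq_empty_or_nonempty with h2 | ⟨τ0, h2⟩
  · rw [h2, card_empty, Nat.cast_zero]
    have := dd_pos (p := p) (ν := ν)
    positivity
  obtain ⟨a, rfl⟩ := mem_filter.1 h2
  have hinj : Function.Injective ((yM τ0).mulVecLin.prod (zM τ0).mulVecLin) := fun x y e =>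
    h.inj a (congrArg Prod.fst e)
  have e1 : Module.finrank (ZMod p) ((LinearMap.range g.mulVecLin).map
      ((yM τ0).mulVecLin.prod (zM τ0).mulVecLin)) = g.rank :=
    (Submodule.equivMapOfInjective _ hinj _).finrank_eq.symm
  have h3 := h.fam.light _ (e1 ▸ h0) (e1 ▸ h1)
  rw [e1] at h3
  refine le_trans (Nat.cast_le.2 (card_le_card fun τ hτ => ?_)) h3
  obtain ⟨c, d⟩ := mem_filter.1 hτ
  refine mem_filter.2 ⟨c, ?_⟩
  rintro _ ⟨_, ⟨x, rfl⟩, rfl⟩
  have d1 : yM τ * g = yM τ0 * g := congrArg yM d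
  have d2 : zM τ * g = zM τ0 * g := congrArg zM d
  rw [spn_eq]
  refine ⟨g *ᵥ x, Prod.ext ?_ ?_⟩
  · show yM τ *ᵥ (g *ᵥ x) = yM τ0 *ᵥ (g *ᵥ x)
    rw [mulVec_mulVec, mulVec_mulVec, d1]
  · show zM τ *ᵥ (g *ᵥ x) = zM τ0 *ᵥ (g *ᵥ x)
    rw [mulVec_mulVec, mulVec_mulVec, d2]

/-- the symplectic pairing with a tuple -/
def pcA_psi (τ : TT p ρ ν) : TT p ρ ν →+ ZMod p :=
  AddMonoidHom.mk' (fun σ => ∑ i, (σ.1 i ⬝ᵥ τ.2 i - σ.2 i ⬝ᵥ τ.1 i)) fun σ σ' => by
    rw [← sum_add_distrib]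
    exact sum_congr rfl fun i _ => by
      simp only [Prod.fst_add, Prod.snd_add, Pi.add_apply, add_dotProduct]; ring

lemma pcA_apply (τ σ : TT p ρ ν) : pcA_psi τ σ = ∑ i, (σ.1 i ⬝ᵥ τ.2 i - σ.2 i ⬝ᵥ τ.1 i) := rfl

lemma pcA_add (τ τ' σ : TT p ρ ν) : pcA_psi (τ + τ') σ = pcA_psi τ σ + pcA_psi τ' σ := by
  simp only [pcA_apply, ← sum_add_distrib]
  exact sum_congr rfl fun i _ => by
    simp only [Prod.fst_add, Prod.snd_add, Pi.add_apply, dotProduct_add]; ring

lemma pcA_rm (τ σ : TT p ρ ν) (α : Mx p (Fin ρ) (Fin ρ)) :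
    pcA_psi τ (rm σ α) = pcA_psi (rm τ αᵀ) σ := by
  simp only [pcA_apply, rm, vecMul_transpose, dotProduct_mulVec]

lemma pcA_inj {τ τ' : TT p ρ ν} (h : ∀ σ, pcA_psi τ σ = pcA_psi τ' σ) : τ = τ' := by
  refine Prod.ext (funext fun i => funext fun a => ?_) (funext fun i => funext fun a => ?_)
  · have := h (0, Pi.single i (Pi.single a 1))
    rw [pcA_apply, pcA_apply, sum_eq_single i (fun k _ hk => by simp [hk]) (by simp),
      sum_eq_single i (fun k _ hk => by simp [hk]) (by simp)] at this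
    simpa using this
  · have := h (Pi.single i (Pi.single a 1), 0)
    rw [pcA_apply, pcA_apply, sum_eq_single i (fun k _ hk => by simp [hk]) (by simp),
      sum_eq_single i (fun k _ hk => by simp [hk]) (by simp)] at this
    simpa using this

lemma pcA_om (α : Mx p (Fin ρ) (Fin ρ)) (τ τ' : TT p ρ ν) :
    ∑ s, ∑ t, α s t * om τ τ' s t = pcA_psi τ' (rm τ α) := by
  simp only [pcA_apply, rm, om, yM, zM, Matrix.sub_apply, Matrix.mul_apply, transpose_apply,
    of_apply, vecMul, dotProduct, ← sum_sub_distrib, mul_sum, sum_mul]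
  rw [sum_comm]
  conv_rhs => rw [sum_comm]
  refine sum_congr rfl fun t _ => ?_
  rw [sum_comm]
  exact sum_congr rfl fun i _ => sum_congr rfl fun s _ => by ring

/-- bilinear bound -/
theorem BIL (h : Good b S) (α : Mx p (Fin ρ) (Fin ρ)) (hα : α ≠ 0) (f g : TT p ρ ν → ℂ)
    (hf : ∀ τ, ‖f τ‖ ≤ 1) (hg : ∀ τ, ‖g τ‖ ≤ 1) :
    ‖∑ τ ∈ S, ∑ τ' ∈ S, f τ * g τ' * ee (∑ s, ∑ t, α s t * om τ τ' s t)‖ ≤
      b ^ 2 * dd p ν ^ (2 * ρ) := by
  classical
  have hd := dd_pos (p := p) (ν := ν)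
  have hb := h.b0
  set gh : TT p ρ ν → ℂ := fun σ => ∑ τ' ∈ S, g τ' * ee (pcA_psi τ' σ) with hgh
  have h1 : ‖∑ τ ∈ S, ∑ τ' ∈ S, f τ * g τ' * ee (∑ s, ∑ t, α s t * om τ τ' s t)‖ ≤
      ∑ τ ∈ S, ‖gh (rm τ α)‖ := by
    refine (norm_sum_le _ _).trans (sum_le_sum fun τ _ => ?_)
    simp only [pcA_om, mul_assoc, ← mul_sum, norm_mul]
    exact mul_le_of_le_one_left (norm_nonneg _) (hf τ)
  refine h1.trans ?_
  have hcard : ∀ r : ℕ, (((p ^ r) ^ Fintype.card ν * (p ^ r) ^ Fintype.card ν : ℕ) : ℝ) =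
      dd p ν ^ (2 * r) := fun r => by
    rw [dd]; push_cast; ring
  rcases (rank_le_width α).eq_or_lt with hr | hr
  · have hu : IsUnit α := by
      rw [← Matrix.linearIndependent_cols_iff_isUnit, linearIndependent_iff_card_eq_finrank_span,
        Fintype.card_fin, Set.finrank, ← rank_eq_finrank_span_cols, hr]
    have hv := Matrix.vecMul_injective_iff_isUnit.2 hu
    have hinj : Function.Injective fun τ : TT p ρ ν => rm τ α := fun τ τ' e =>
      Prod.ext (funext fun i => hv (congrFun (congrArg Prod.fst e) i))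
        (funext fun i => hv (congrFun (congrArg Prod.snd e) i))
    refine le_of_pow_le_pow_left₀ (n := 4) (by norm_num) (by positivity) ?_
    have h2 : (∑ τ ∈ S, ‖gh (rm τ α)‖) ^ 4 ≤ (#S : ℝ) ^ 3 * ∑ τ ∈ S, ‖gh (rm τ α)‖ ^ 4 :=
      pow_sum_le_card_mul_sum_pow (fun _ _ => norm_nonneg _) 3
    have h3 : ∑ τ ∈ S, ‖gh (rm τ α)‖ ^ 4 ≤ ∑ σ, ‖gh σ‖ ^ 4 := by
      rw [← sum_image (f := fun σ => ‖gh σ‖ ^ 4) fun x _ y _ e => hinj e]
      exact sum_le_sum_of_subset_of_nonneg (subset_univ _) fun _ _ _ => by positivity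
    have h4 := pars (S ×ˢ S) (fun q => pcA_psi (q.1 + q.2)) (fun q => g q.1 * g q.2)
      (fun q => by rw [norm_mul]; exact mul_le_one₀ (hg _) (norm_nonneg _) (hg _))
      (fun q q' => q.1 + q.2 = q'.1 + q'.2) fun q _ q' _ e =>
        pcA_inj fun σ => DFunLike.congr_fun e σ
    have h5 : ∀ σ, ‖gh σ‖ ^ 4 =
        ‖∑ q ∈ S ×ˢ S, g q.1 * g q.2 * ee (pcA_psi (q.1 + q.2) σ)‖ ^ 2 := fun σ => by
      have : ∑ q ∈ S ×ˢ S, g q.1 * g q.2 * ee (pcA_psi (q.1 + q.2) σ) = gh σ * gh σ := by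
        rw [hgh, sum_mul_sum, sum_product]
        refine sum_congr rfl fun x _ => sum_congr rfl fun y _ => ?_
        rw [pcA_add, ee_add]; ring
      rw [this, norm_mul]; ring
    rw [← addEnergy_eq_card_filter, ← sum_congr rfl fun σ _ => h5 σ] at h4
    have h6 : (Fintype.card (TT p ρ ν) : ℝ) = dd p ν ^ (2 * ρ) := by
      rw [← hcard]; simp
    rw [h6] at h4
    have h7 := h.card
    have h8 := h.en
    calc _ ≤ _ := h2
      _ ≤ (dd p ν ^ ρ) ^ 3 * (dd p ν ^ (2 * ρ) * (b ^ 8 * dd p ν ^ (3 * ρ))) := by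
          gcongr
          exact h3.trans (h4.trans (by gcongr))
      _ = _ := by ring
  · have hr0 : 0 < α.rank := Nat.pos_of_ne_zero fun e => hα (by
      have h2 := Submodule.finrank_eq_zero.1 e
      rw [LinearMap.range_eq_bot] at h2
      exact Matrix.ext_of_mulVec_single fun i =>
        (show α *ᵥ Pi.single i 1 = 0 from DFunLike.congr_fun h2 (Pi.single i 1)).trans
          (zero_mulVec _).symm)
    obtain ⟨k, hk⟩ : ∃ k, ρ = α.rank + k := Nat.exists_eq_add_of_le hr.le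
    have hk' : ρ - α.rank = k := by omega
    obtain ⟨E, hE, hm⟩ : ∃ E : Submodule (ZMod p) (Fin ρ → ZMod p),
        Module.finrank (ZMod p) E = α.rank ∧ ∀ τ : TT p ρ ν, rm τ α ∈ pw ν E :=
      ⟨LinearMap.range αᵀ.mulVecLin, rank_transpose α, fun τ => mem_pw.2
        ⟨fun i => ⟨τ.1 i, mulVec_transpose α _⟩, fun i => ⟨τ.2 i, mulVec_transpose α _⟩⟩⟩
    refine le_of_pow_le_pow_left₀ (n := 2) (by norm_num) (by positivity) ?_
    have h2 : (∑ τ ∈ S, ‖gh (rm τ α)‖) ^ 2 ≤ #S * ∑ τ ∈ S, ‖gh (rm τ α)‖ ^ 2 :=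
      sq_sum_le_card_mul_sum_sq
    have h3 : ∑ τ ∈ S, ‖gh (rm τ α)‖ ^ 2 ≤ b ^ 2 * dd p ν ^ k * ∑ σ : pw ν E, ‖gh σ.1‖ ^ 2 := by
      rw [mul_sum, ← sum_fiberwise (s := S) (g := fun τ => (⟨rm τ α, hm τ⟩ : pw ν E))]
      refine sum_le_sum fun σ _ => ?_
      have e : ∀ τ ∈ S.filter fun τ => (⟨rm τ α, hm τ⟩ : pw ν E) = σ, rm τ α = σ.1 :=
        fun τ hτ => congrArg Subtype.val (mem_filter.1 hτ).2
      rw [sum_congr rfl fun τ hτ => by rw [e τ hτ], sum_const, nsmul_eq_mul, ← hk']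
      gcongr
      exact le_trans (Nat.cast_le.2 (card_le_card fun τ hτ => mem_filter.2
        ⟨(mem_filter.1 hτ).1, e τ hτ⟩)) (h.light_rm α hr0 hr σ.1)
    have h4 := pars (G := pw ν E) S (fun τ => (pcA_psi τ).comp (pw ν E).subtype.toAddMonoidHom) g hg
      (fun τ τ' => rm τ αᵀ = rm τ' αᵀ) fun τ _ τ' _ e => pcA_inj fun σ => by
        rw [← pcA_rm, ← pcA_rm]
        exact DFunLike.congr_fun e ⟨_, hm σ⟩
    have h5 : (#{q ∈ S ×ˢ S | rm q.1 αᵀ = rm q.2 αᵀ} : ℝ) ≤ #S * (b ^ 2 * dd p ν ^ k) := by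
      rw [card_filter, sum_product_right]
      push_cast
      refine (sum_le_card_nsmul _ _ (b ^ 2 * dd p ν ^ k) fun τ _ => ?_).trans_eq (nsmul_eq_mul _ _)
      have := h.light_rm αᵀ (by rwa [rank_transpose]) (by rwa [rank_transpose]) (rm τ αᵀ)
      rw [rank_transpose, hk', card_filter] at this
      exact_mod_cast this
    have h6 : (Fintype.card (pw ν E) : ℝ) = dd p ν ^ (2 * α.rank) := by
      rw [← hcard, card_pw, card_eq_pow (p := p), hE]
    rw [h6] at h4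
    have h7 := h.card
    calc _ ≤ _ := h2
      _ ≤ dd p ν ^ ρ * (b ^ 2 * dd p ν ^ k *
            (dd p ν ^ (2 * α.rank) * (dd p ν ^ ρ * (b ^ 2 * dd p ν ^ k)))) := by
          gcongr
          refine h3.trans ?_
          gcongr
          exact h4.trans (by gcongr; exact h5.trans (by gcongr))
      _ = _ := by
          generalize α.rank = r at hk
          subst hk
          ring

lemma pocB_orth (D : Mx p (Fin ρ) (Fin ρ)) :
    ∑ α : Mx p (Fin ρ) (Fin ρ), ee (∑ s, ∑ t, α s t * D s t) =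
      if D = 0 then (p : ℂ) ^ (ρ ^ 2) else 0 := by
  split_ifs with h
  · simp only [h, Matrix.zero_apply, mul_zero, sum_const_zero, ee_zero, sum_const, card_univ,
      nsmul_eq_mul, mul_one]
    rw [show Fintype.card (Mx p (Fin ρ) (Fin ρ)) = Fintype.card (Fin ρ → Fin ρ → ZMod p) from rfl]
    simp [← pow_mul, sq]
  · let φ : Mx p (Fin ρ) (Fin ρ) →+ ZMod p := AddMonoidHom.mk' (fun α => ∑ s, ∑ t, α s t * D s t)
      fun α β => by simp only [Matrix.add_apply, add_mul, sum_add_distrib]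
    have h1 := expect_ee_hom φ fun h0 => h (by
      ext s t
      have := DFunLike.congr_fun h0 (Matrix.single s t 1)
      simpa [φ, Matrix.single, ite_and] using this)
    rw [Fintype.expect_eq_sum_div_card, div_eq_zero_iff] at h1
    exact h1.resolve_right (by exact_mod_cast Fintype.card_ne_zero)

lemma pocB_KK (τ τ' : TT p ρ ν) (ω ω' : OM p ρ J) : ((KK τ τ' ω ω' - 1 : ℝ) : ℂ) =
    ∑ α ∈ univ.erase (0 : Mx p (Fin ρ) (Fin ρ)),
      ee (-∑ s, ∑ t, α s t * oc ω ω' s t) * ee (∑ s, ∑ t, α s t * om τ τ' s t) := by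
  have h := pocB_orth (om τ τ' - oc ω ω')
  rw [← add_sum_erase _ _ (mem_univ 0)] at h
  simp only [Matrix.zero_apply, zero_mul, sum_const_zero, ee_zero, sub_eq_zero, Matrix.sub_apply,
    mul_sub, sum_sub_distrib] at h
  simp only [← ee_add, neg_add_eq_sub]
  rw [eq_sub_of_add_eq' h, KK]
  split_ifs <;> simp

lemma pocB_bil (h : Good b S) (α : Mx p (Fin ρ) (Fin ρ)) (hα : α ≠ 0) (f g : S → ℝ)
    (hf : ∀ τ, |f τ| ≤ 1) (hg : ∀ τ, |g τ| ≤ 1) :
    ‖∑ τ : S, ∑ τ' : S, (f τ : ℂ) * g τ' * ee (∑ s, ∑ t, α s t * om τ.1 τ'.1 s t)‖ ≤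
      b * dd p ν ^ (2 * ρ) := by
  have k : ∀ f : S → ℝ, (∀ τ, |f τ| ≤ 1) → ∀ τ : TT p ρ ν,
      ‖if h : τ ∈ S then (f ⟨τ, h⟩ : ℂ) else 0‖ ≤ 1 := fun f hf τ => by
    split_ifs
    · exact (Complex.norm_real _).trans_le (hf _)
    · simp
  have h1 := BIL h α hα _ _ (k f hf) (k g hg)
  simp only [← sum_coe_sort S, Finset.coe_mem, dite_true, Subtype.coe_eta] at h1
  refine h1.trans (mul_le_mul_of_nonneg_right ?_ (pow_pos dd_pos _).le)
  nlinarith [h.b0, h.b1]

/-- cut norm of the compatibility kernel -/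
theorem CUT (h : Good b S) (Ω : Finset (OM p ρ J)) (f g : S × Ω → ℝ) (hf : ∀ a, |f a| ≤ 1)
    (hg : ∀ a, |g a| ≤ 1) :
    |∑ a : S × Ω, ∑ a' : S × Ω, f a * g a' * (KK a.1.1 a'.1.1 a.2.1 a'.2.1 - 1)| ≤
      (p : ℝ) ^ (ρ ^ 2) * b * ((Fintype.card (OM p ρ J) : ℝ) * dd p ν ^ ρ) ^ 2 := by
  have e : ((∑ a : S × Ω, ∑ a' : S × Ω, f a * g a' * (KK a.1.1 a'.1.1 a.2.1 a'.2.1 - 1) : ℝ) : ℂ) =
      ∑ ω : Ω, ∑ ω' : Ω, ∑ α ∈ univ.erase (0 : Mx p (Fin ρ) (Fin ρ)),
        ee (-∑ s, ∑ t, α s t * oc ω.1 ω'.1 s t) * ∑ τ : S, ∑ τ' : S,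
          (f (τ, ω) : ℂ) * g (τ', ω') * ee (∑ s, ∑ t, α s t * om τ.1 τ'.1 s t) := by
    simp only [Complex.ofReal_sum, Complex.ofReal_mul, pocB_KK, Fintype.sum_prod_type_right,
      mul_sum _ _ (_ : ℂ)]
    refine sum_congr rfl fun ω _ => sum_comm.trans (sum_congr rfl fun ω' _ => ?_)
    rw [sum_comm (s := univ.erase 0)]
    refine sum_congr rfl fun τ _ => sum_comm.trans (sum_congr rfl fun α _ => ?_)
    exact sum_congr rfl fun τ' _ => by ring
  have hb := h.b0.le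
  have hd := (dd_pos (p := p) (ν := ν)).le
  have c1 : (Fintype.card Ω : ℝ) ≤ Fintype.card (OM p ρ J) := by
    exact_mod_cast Fintype.card_subtype_le _
  have c2 : (#(univ.erase (0 : Mx p (Fin ρ) (Fin ρ))) : ℝ) ≤ (p : ℝ) ^ (ρ ^ 2) := by
    have := card_le_univ (univ.erase (0 : Mx p (Fin ρ) (Fin ρ)))
    rw [show Fintype.card (Mx p (Fin ρ) (Fin ρ)) = Fintype.card (Fin ρ → Fin ρ → ZMod p) from rfl,
      Fintype.card_fun, Fintype.card_fun, ZMod.card, Fintype.card_fin, ← pow_mul, ← sq] at this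
    exact_mod_cast this
  rw [← Real.norm_eq_abs, ← Complex.norm_real, e]
  calc _ ≤ ∑ _ω : Ω, ∑ _ω' : Ω, ∑ _α ∈ univ.erase (0 : Mx p (Fin ρ) (Fin ρ)),
        b * dd p ν ^ (2 * ρ) := by
        refine norm_sum_le_of_le _ fun ω _ => norm_sum_le_of_le _ fun ω' _ =>
          norm_sum_le_of_le _ fun α hα => ?_
        rw [norm_mul, norm_ee, one_mul]
        exact pocB_bil h α (ne_of_mem_erase hα) _ _ (fun _ => hf _) fun _ => hg _
    _ = #(univ.erase (0 : Mx p (Fin ρ) (Fin ρ))) * b * (Fintype.card Ω * dd p ν ^ ρ) ^ 2 := by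
        simp only [sum_const, card_univ, nsmul_eq_mul]
        ring
    _ ≤ _ := by gcongr

theorem YFIB (h : Good b S) (c : Fin ρ → ZMod p) (hc : c ≠ 0) (v : ν → ZMod p) :
    (#{τ ∈ S | yM τ *ᵥ c = v} : ℝ) ≤ b * dd p ν ^ ρ := by
  have h1 := BIL h (vecMulVec c c) (fun h0 => hc (by simpa using h0))
    (fun τ => if yM τ *ᵥ c = v then ee (zM τ *ᵥ c ⬝ᵥ v) else 0)
    (fun τ => if yM τ *ᵥ c = v then ee (-(v ⬝ᵥ zM τ *ᵥ c)) else 0)
    (fun τ => by split_ifs <;> simp) (fun τ => by split_ifs <;> simp)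
  have e : ∀ τ τ' : TT p ρ ν, ∑ s, ∑ t, vecMulVec c c s t * om τ τ' s t =
      yM τ *ᵥ c ⬝ᵥ zM τ' *ᵥ c - zM τ *ᵥ c ⬝ᵥ yM τ' *ᵥ c := fun τ τ' => by
    have : ∑ s, ∑ t, vecMulVec c c s t * om τ τ' s t = c ⬝ᵥ om τ τ' *ᵥ c := by
      simp only [vecMulVec_apply, dotProduct, mulVec, mul_sum]
      exact sum_congr rfl fun s _ => sum_congr rfl fun t _ => by ring
    rw [this, om, sub_mulVec, dotProduct_sub, ← mulVec_mulVec, ← mulVec_mulVec, dotProduct_mulVec,
      dotProduct_mulVec c, vecMul_transpose, vecMul_transpose]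
  have e2 : ∀ τ τ' : TT p ρ ν, (if yM τ *ᵥ c = v then ee (zM τ *ᵥ c ⬝ᵥ v) else 0) *
      (if yM τ' *ᵥ c = v then ee (-(v ⬝ᵥ zM τ' *ᵥ c)) else 0) *
      ee (∑ s, ∑ t, vecMulVec c c s t * om τ τ' s t) =
      (if yM τ *ᵥ c = v then 1 else 0) * if yM τ' *ᵥ c = v then 1 else 0 := fun τ τ' => by
    split_ifs with a1 a2
    · rw [e, a1, a2, ← ee_add, ← ee_add, mul_one, ← ee_zero (p := p)]
      exact congrArg ee (by ring)
    all_goals simp
  simp only [e2, ← mul_sum, ← sum_mul, sum_boole, norm_mul, Complex.norm_natCast] at h1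
  refine le_of_sq_le_sq ?_ (mul_pos h.b0 (pow_pos dd_pos _)).le
  rw [sq, mul_pow, ← pow_mul, mul_comm ρ]
  exact h1

lemma pocB_fib {A B G : Type} [Fintype G] [DecidableEq G] (s : Finset A) (t : Finset B)
    (u : A → G) (v : B → G) :
    #{q ∈ s ×ˢ t | u q.1 = v q.2} = ∑ x, #{a ∈ s | u a = x} * #{b ∈ t | v b = x} := by
  rw [card_eq_sum_card_fiberwise (f := fun q => u q.1) (t := univ) fun _ _ => mem_univ _]
  refine sum_congr rfl fun x _ => ?_
  rw [← card_product]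
  refine congrArg card (Finset.ext fun q => ?_)
  simp only [mem_filter, mem_product]
  constructor
  · rintro ⟨⟨⟨a1, a2⟩, a3⟩, a4⟩
    exact ⟨⟨a1, a4⟩, a2, a3 ▸ a4⟩
  · rintro ⟨⟨a1, a4⟩, a2, a3⟩
    exact ⟨⟨⟨a1, a2⟩, a4.trans a3.symm⟩, a4⟩

lemma pocB_cnt {G : Type} [AddCommGroup G] [Fintype G] [DecidableEq G] (S : Finset G)
    (f g : G →+ G) (hf : Function.Injective f) (hg : Function.Injective g) (c : G) :
    #{q ∈ S ×ˢ S | f q.1 + g q.2 + c ∈ S} ^ 2 ≤ #S * Finset.addEnergy S S := by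
  have E : ∀ f : G →+ G, Function.Injective f →
      ∑ x, #{a ∈ S ×ˢ S | f a.1 - f a.2 = x} ^ 2 = Finset.addEnergy S S := fun f hf => by
    simp only [sq]
    rw [← pocB_fib]
    refine card_equiv ((Equiv.refl _).prodCongr (Equiv.prodComm _ _)) fun w => ?_
    simp only [mem_filter, mem_product, ← map_sub, hf.eq_iff, sub_eq_sub_iff_add_eq_add,
      Equiv.prodCongr_apply, Prod.map_fst, Prod.map_snd, Equiv.coe_refl, id, Equiv.prodComm_apply,
      Prod.fst_swap, Prod.snd_swap, add_comm w.2.1, and_comm (a := w.2.1 ∈ S)]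
  have Q : ∑ x, #{q ∈ S ×ˢ S | f q.1 + g q.2 + c = x} ^ 2 =
      ∑ x, #{a ∈ S ×ˢ S | f a.1 - f a.2 = x} * #{a ∈ S ×ˢ S | g a.1 - g a.2 = x} := by
    simp only [sq]
    rw [← pocB_fib, ← pocB_fib]
    refine card_equiv ⟨fun w => ((w.1.1, w.2.1), w.2.2, w.1.2),
      fun w => ((w.1.1, w.2.2), w.1.2, w.2.1), fun _ => rfl, fun _ => rfl⟩ fun w => ?_
    simp only [mem_filter, mem_product, sub_eq_sub_iff_add_eq_add, add_left_inj, Equiv.coe_fn_mk,
      add_comm (g w.2.2)]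
    tauto
  have A : 2 * ∑ x, #{q ∈ S ×ˢ S | f q.1 + g q.2 + c = x} ^ 2 ≤
      Finset.addEnergy S S + Finset.addEnergy S S := by
    rw [Q, mul_sum]
    nth_rewrite 1 [← E f hf]
    rw [← E g hg, ← sum_add_distrib]
    exact sum_le_sum fun x _ => by rw [← mul_assoc]; exact two_mul_le_add_sq _ _
  rw [← sum_card_fiberwise_eq_card_filter]
  refine sq_sum_le_card_mul_sum_sq.trans (Nat.mul_le_mul_left _ ?_)
  refine (sum_le_sum_of_subset (subset_univ S)).trans (by omega)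

/-- right multiplication as an additive map -/
def pocB_rm (g : Mx p (Fin ρ) (Fin ρ)) : TT p ρ ν →+ TT p ρ ν :=
  AddMonoidHom.mk' (fun τ => rm τ g) fun a a' =>
    Prod.ext (funext fun i => add_vecMul g (a.1 i) (a'.1 i))
      (funext fun i => add_vecMul g (a.2 i) (a'.2 i))

lemma pocB_rm_inj {g : Mx p (Fin ρ) (Fin ρ)} (h : Inj g) :
    Function.Injective (pocB_rm (ν := ν) g) := fun _ _ e =>
  have k := vecMul_injective_iff_isUnit.2 (mulVec_injective_iff_isUnit.1 h)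
  Prod.ext (funext fun i => k (congrFun (congrArg Prod.fst e) i))
    (funext fun i => k (congrFun (congrArg Prod.snd e) i))

theorem CNT3 (h : Good b S) (g₁ g₂ : Mx p (Fin ρ) (Fin ρ)) (h₁ : Inj g₁) (h₂ : Inj g₂)
    (c : TT p ρ ν) :
    (#{q ∈ S ×ˢ S | rm q.1 g₁ + rm q.2 g₂ + c ∈ S} : ℝ) ≤ b * dd p ν ^ (2 * ρ) := by
  have h1 : (#{q ∈ S ×ˢ S | rm q.1 g₁ + rm q.2 g₂ + c ∈ S} : ℝ) ^ 2 ≤
      #S * Finset.addEnergy S S := by
    exact_mod_cast pocB_cnt S _ _ (pocB_rm_inj h₁) (pocB_rm_inj h₂) c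
  have hd := dd_pos (p := p) (ν := ν)
  have h2 : b ^ 8 ≤ b ^ 2 := pow_le_pow_of_le_one h.b0.le h.b1 (by norm_num)
  refine le_of_sq_le_sq (h1.trans ?_) (mul_pos h.b0 (pow_pos hd _)).le
  calc _ ≤ dd p ν ^ ρ * (b ^ 2 * dd p ν ^ (3 * ρ)) :=
        mul_le_mul h.card (h.en.trans (by gcongr)) (by positivity) (by positivity)
    _ = _ := by ring

end Pool.Agent.Work.MP_4523ee_co.Fp.Po
end

-- merged part: Pool.Agent.Work.MP_4523ee_co.Fp.PoD
section
/-!
Poisson count: sums over dependent tuples.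
-/

set_option autoImplicit false
set_option linter.unusedSectionVars false

namespace Pool.Agent.Work.MP_4523ee_co.Fp.Po

open Finset Matrix
open scoped BigOperators ComplexConjugate

variable {p : ℕ} [Fact p.Prime]

variable {ν : Type} [Fintype ν] [DecidableEq ν] {ρ : ℕ}
variable {b : ℝ} {S : Finset (TT p ρ ν)}

open Classical in
lemma PoDA_fib (Z : SV p ν) (r : ℕ) (hZ : Module.finrank (ZMod p) Z ≤ r) (T : Finset (TT p ρ ν))
    {c : ℝ} (hc : 0 ≤ c) (hf : ∀ τ ∈ T, (#{τ' ∈ T | spn τ' ⊓ Z = spn τ ⊓ Z} : ℝ) *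
      dd p ν ^ Module.finrank (ZMod p) ↥(spn τ ⊓ Z) ≤ c) :
    ∑ τ ∈ T, dd p ν ^ Module.finrank (ZMod p) ↥(spn τ ⊓ Z) ≤ 2 ^ p ^ r * c := by
  have h1 : #(T.image fun τ => spn τ ⊓ Z) ≤ 2 ^ p ^ r := by
    refine (card_le_card_of_injOn (t := univ) (fun W : SV p ν => {z : Z | z.1 ∈ W})
      (fun _ _ => mem_coe.2 (mem_univ _)) ?_).trans ?_
    · intro W hW W' hW' k
      obtain ⟨τ, -, rfl⟩ := mem_image.1 (mem_coe.1 hW)
      obtain ⟨τ', -, rfl⟩ := mem_image.1 (mem_coe.1 hW')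
      ext x
      have := fun hx : x ∈ Z => Set.ext_iff.1 k ⟨x, hx⟩
      exact ⟨fun hx => (this hx.2).1 hx, fun hx => (this hx.2).2 hx⟩
    · rw [card_univ, Fintype.card_set, card_eq_pow (p := p)]
      exact Nat.pow_le_pow_right two_pos
        (Nat.pow_le_pow_right (Fact.out : p.Prime).pos hZ)
  rw [sum_comp (fun W : SV p ν => dd p ν ^ Module.finrank (ZMod p) W) fun τ => spn τ ⊓ Z]
  refine (sum_le_card_nsmul _ _ c fun W hW => ?_).trans ?_
  · obtain ⟨τ, hτ, rfl⟩ := mem_image.1 hW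
    rw [nsmul_eq_mul]
    exact hf τ hτ
  · rw [nsmul_eq_mul]
    exact mul_le_mul_of_nonneg_right (by exact_mod_cast h1) hc

open Classical in
lemma PoDA_mid (h : Good b S) (Z W : SV p ν) (h0 : 0 < Module.finrank (ZMod p) W)
    (h1 : Module.finrank (ZMod p) W < ρ) {T : Finset (TT p ρ ν)} (hT : T ⊆ S) :
    (#{τ' ∈ T | spn τ' ⊓ Z = W} : ℝ) * dd p ν ^ Module.finrank (ZMod p) W ≤ b * dd p ν ^ ρ := by
  have h2 : (#{τ' ∈ T | spn τ' ⊓ Z = W} : ℝ) ≤ #(S.filter fun τ => W ≤ spn τ) := by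
    have : {τ' ∈ T | spn τ' ⊓ Z = W} ⊆ S.filter fun τ => W ≤ spn τ := fun τ k => by
      rw [mem_filter] at k ⊢
      exact ⟨hT k.1, k.2 ▸ inf_le_left⟩
    exact_mod_cast card_le_card this
  have h3 : b ^ 2 ≤ b := by nlinarith [h.b0, h.b1]
  have h4 := (pow_pos (dd_pos (p := p) (ν := ν)) ρ).le
  calc _ ≤ b ^ 2 * dd p ν ^ (ρ - Module.finrank (ZMod p) W) *
        dd p ν ^ Module.finrank (ZMod p) W :=
        mul_le_mul_of_nonneg_right (h2.trans (h.fam.light W h0 h1)) (pow_pos dd_pos _).le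
    _ = b ^ 2 * dd p ν ^ ρ := by rw [mul_assoc, ← pow_add, Nat.sub_add_cancel h1.le]
    _ ≤ _ := by gcongr

theorem STEP1 (h : Good b S) (Z : SV p ν) (r : ℕ) (hZ : Module.finrank (ZMod p) Z ≤ r) :
    ∑ τ ∈ S, dd p ν ^ Module.finrank (ZMod p) ↥(spn τ ⊓ Z) ≤ 3 * 2 ^ p ^ r * dd p ν ^ ρ := by
  classical
  have h4 := (pow_pos (dd_pos (p := p) (ν := ν)) ρ).le
  refine (PoDA_fib Z r hZ S h4 fun τ hτ => ?_).trans ?_
  · rcases Nat.eq_zero_or_pos (Module.finrank (ZMod p) ↥(spn τ ⊓ Z)) with h0 | h0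
    · rw [h0, pow_zero, mul_one]
      exact le_trans (by exact_mod_cast card_filter_le _ _) h.card
    · rcases lt_or_ge (Module.finrank (ZMod p) ↥(spn τ ⊓ Z)) ρ with h1 | h1
      · exact (PoDA_mid h Z _ h0 h1 Subset.rfl).trans (mul_le_of_le_one_left h4 h.b1)
      · have h2 : ∀ τ' ∈ S, spn τ' ⊓ Z = spn τ ⊓ Z → spn τ ⊓ Z = spn τ' := fun τ' k k' =>
          Submodule.eq_of_le_of_finrank_le (k' ▸ inf_le_left) (by rwa [finrank_spn (h.inj k)])
        have h3 : #{τ' ∈ S | spn τ' ⊓ Z = spn τ ⊓ Z} ≤ 1 := card_le_one.2 fun a ha a' ha' => by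
          rw [mem_filter] at ha ha'
          exact h.fam.inj a ha.1 a' ha'.1 ((h2 a ha.1 ha.2).symm.trans (h2 a' ha'.1 ha'.2))
        have h5 : Module.finrank (ZMod p) ↥(spn τ ⊓ Z) = ρ := by
          rw [h2 τ hτ rfl, finrank_spn (h.inj hτ)]
        rw [h5]
        exact mul_le_of_le_one_left h4 (by exact_mod_cast h3)
  · have : (0 : ℝ) ≤ 2 ^ p ^ r * dd p ν ^ ρ := by positivity
    linarith

theorem STEP2 (h : Good b S) (Z : SV p ν) (r : ℕ) (hZ : Module.finrank (ZMod p) Z ≤ r) :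
    ∑ τ ∈ S with 0 < Module.finrank (ZMod p) ↥(spn τ ⊓ Z) ∧
      Module.finrank (ZMod p) ↥(spn τ ⊓ Z) < ρ, dd p ν ^ Module.finrank (ZMod p) ↥(spn τ ⊓ Z) ≤
      2 ^ p ^ r * b * dd p ν ^ ρ := by
  rw [mul_assoc]
  exact PoDA_fib Z r hZ _ (mul_pos h.b0 (pow_pos dd_pos _)).le fun τ hτ =>
    PoDA_mid h Z _ (mem_filter.1 hτ).2.1 (mem_filter.1 hτ).2.2 (filter_subset _ _)

lemma PoDA_mom (h : Good b S) (r m : ℕ) : ∀ Z : SV p ν, Module.finrank (ZMod p) Z + m * ρ ≤ r →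
    ∑ u : Fin m → S, (dd p ν ^ Module.finrank (ZMod p) ↥(Z ⊔ ⨆ k, spn (u k).1))⁻¹ ≤
      (3 * 2 ^ p ^ r) ^ m * (dd p ν ^ Module.finrank (ZMod p) Z)⁻¹ := by
  have hd := dd_pos (p := p) (ν := ν)
  induction m with
  | zero =>
    intro Z _
    rw [Fintype.sum_unique, iSup_of_empty, sup_bot_eq, pow_zero, one_mul]
  | succ m ih =>
    intro Z hZ
    rw [← (Fin.consEquiv fun _ : Fin (m + 1) => S).sum_comp, Fintype.sum_prod_type]
    have h1 : ∀ (τ : S) (u : Fin m → S),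
        Z ⊔ ⨆ k, spn ((Fin.consEquiv fun _ : Fin (m + 1) => S) (τ, u) k).1 =
          (spn τ.1 ⊔ Z) ⊔ ⨆ k, spn (u k).1 := fun τ u => by
      rw [sup_comm (spn τ.1), sup_assoc]
      refine congrArg _ (le_antisymm (iSup_le fun k => ?_) (sup_le ?_ (iSup_le fun k => ?_)))
      · refine Fin.cases le_sup_left (fun k => ?_) k
        exact le_sup_of_le_right (le_iSup (fun k => spn (u k).1) k)
      · exact le_iSup_of_le 0 le_rfl
      · exact le_iSup_of_le k.succ le_rfl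
    have h2 : ∀ τ : S, Module.finrank (ZMod p) ↥(spn τ.1 ⊔ Z) +
        Module.finrank (ZMod p) ↥(spn τ.1 ⊓ Z) = ρ + Module.finrank (ZMod p) Z := fun τ => by
      rw [Submodule.finrank_sup_add_finrank_inf_eq, finrank_spn (h.inj τ.2)]
    have h3 : ∀ τ : S, (dd p ν ^ Module.finrank (ZMod p) ↥(spn τ.1 ⊔ Z))⁻¹ =
        dd p ν ^ Module.finrank (ZMod p) ↥(spn τ.1 ⊓ Z) *
          ((dd p ν ^ ρ)⁻¹ * (dd p ν ^ Module.finrank (ZMod p) Z)⁻¹) := fun τ => by
      rw [← mul_inv, ← pow_add, ← h2 τ, pow_add]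
      field_simp
    have h4 := STEP1 h Z r (by omega)
    rw [← sum_coe_sort S] at h4
    calc _ ≤ ∑ τ : S, (3 * 2 ^ p ^ r) ^ m *
          (dd p ν ^ Module.finrank (ZMod p) ↥(spn τ.1 ⊔ Z))⁻¹ := sum_le_sum fun τ _ => by
          refine le_trans (le_of_eq (sum_congr rfl fun u _ => by rw [h1])) (ih _ ?_)
          have := h2 τ
          rw [add_mul] at hZ
          omega
      _ = (3 * 2 ^ p ^ r) ^ m * ((∑ τ : S, dd p ν ^ Module.finrank (ZMod p) ↥(spn τ.1 ⊓ Z)) *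
          ((dd p ν ^ ρ)⁻¹ * (dd p ν ^ Module.finrank (ZMod p) Z)⁻¹)) := by
          simp only [h3]
          rw [← mul_sum, ← sum_mul]
      _ ≤ (3 * 2 ^ p ^ r) ^ m * ((3 * 2 ^ p ^ r * dd p ν ^ ρ) *
          ((dd p ν ^ ρ)⁻¹ * (dd p ν ^ Module.finrank (ZMod p) Z)⁻¹)) := by gcongr
      _ = _ := by rw [pow_succ]; field_simp

theorem MOM (h : Good b S) (m : ℕ) :
    ∑ u : Fin m → S, (dd p ν ^ Module.finrank (ZMod p) ↥(⨆ k, spn (u k).1))⁻¹ ≤
      (3 * 2 ^ p ^ (m * ρ)) ^ m := by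
  exact le_trans (le_of_eq (sum_congr rfl fun u _ => by rw [bot_sup_eq]))
    ((PoDA_mom h (m * ρ) m ⊥ (by simp)).trans_eq (by simp))

open Classical in
lemma PoDA_dep (h : Good b S) {n : ℕ} (c : Fin (n + 1) → Fin ρ → ZMod p) (k : Fin (n + 1))
    (hc : c k ≠ 0) : (#{u : Fin (n + 1) → S | ∑ i, yM (u i).1 *ᵥ c i = 0} : ℝ) ≤
      b * (dd p ν ^ ρ) ^ (n + 1) := by
  rw [card_filter]
  push_cast
  rw [← (Fin.insertNthEquiv (fun _ : Fin (n + 1) => S) k).sum_comp, Fintype.sum_prod_type, sum_comm]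
  calc _ ≤ ∑ _u : Fin n → S, b * dd p ν ^ ρ := sum_le_sum fun u _ => by
        refine le_trans (le_of_eq ?_)
          (YFIB h (c k) hc (-∑ i, yM (u i).1 *ᵥ c (k.succAbove i)))
        rw [card_filter, ← sum_coe_sort S]
        push_cast
        refine sum_congr rfl fun τ _ => if_congr ?_ rfl rfl
        rw [Fin.sum_univ_succAbove _ k, eq_neg_iff_add_eq_zero]
        simp [Fin.insertNthEquiv]
    _ = (#S : ℝ) ^ n * (b * dd p ν ^ ρ) := by simp
    _ ≤ (dd p ν ^ ρ) ^ n * (b * dd p ν ^ ρ) := by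
        have := (mul_pos h.b0 (pow_pos (dd_pos (p := p) (ν := ν)) ρ)).le
        have := h.card
        gcongr
    _ = _ := by ring

open Classical in
theorem DEPC (h : Good b S) (j : ℕ) :
    (#{u : Fin j → S | Dep fun k => (u k).1} : ℝ) ≤ (p : ℝ) ^ (j * ρ) * b * (dd p ν ^ ρ) ^ j := by
  have h0 : 0 ≤ b * (dd p ν ^ ρ) ^ j := (mul_pos h.b0 (pow_pos (pow_pos dd_pos _) _)).le
  have h1 : ({u : Fin j → S | Dep fun k => (u k).1} : Finset _) ⊆
      (univ.filter fun c : Fin j → Fin ρ → ZMod p => c ≠ 0).biUnion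
        fun c => {u : Fin j → S | ∑ i, yM (u i).1 *ᵥ c i = 0} := fun u hu => by
    obtain ⟨c, hc, k⟩ := (mem_filter.1 hu).2
    exact mem_biUnion.2 ⟨c, mem_filter.2 ⟨mem_univ _, hc⟩, mem_filter.2 ⟨mem_univ _, k⟩⟩
  have h2 := (card_le_card h1).trans card_biUnion_le
  calc _ ≤ ∑ c ∈ univ.filter fun c : Fin j → Fin ρ → ZMod p => c ≠ 0,
        (#{u : Fin j → S | ∑ i, yM (u i).1 *ᵥ c i = 0} : ℝ) := by exact_mod_cast h2
    _ ≤ #(univ.filter fun c : Fin j → Fin ρ → ZMod p => c ≠ 0) • (b * (dd p ν ^ ρ) ^ j) :=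
        sum_le_card_nsmul _ _ _ fun c hc => by
          obtain ⟨k, hk⟩ := Function.ne_iff.1 (mem_filter.1 hc).2
          rcases j with _ | n
          · exact k.elim0
          · exact PoDA_dep h c k hk
    _ ≤ _ := by
        rw [nsmul_eq_mul, mul_assoc]
        refine mul_le_mul_of_nonneg_right ?_ h0
        have := card_filter_le (univ : Finset (Fin j → Fin ρ → ZMod p)) fun c => c ≠ 0
        simp only [card_univ, Fintype.card_fun, ZMod.card, Fintype.card_fin] at this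
        rw [mul_comm, pow_mul]
        exact_mod_cast this

/-- the linear combinations of the columns of a family of tuples -/
def pdL {n : ℕ} (t : Fin n → TT p ρ ν) :
    (Fin n → Fin ρ → ZMod p) →ₗ[ZMod p] (ν → ZMod p) × (ν → ZMod p) :=
  ∑ k, ((yM (t k)).mulVecLin.prod (zM (t k)).mulVecLin) ∘ₗ LinearMap.proj k

lemma pdL_apply {n : ℕ} (t : Fin n → TT p ρ ν) (c : Fin n → Fin ρ → ZMod p) :
    pdL t c = (∑ k, yM (t k) *ᵥ c k, ∑ k, zM (t k) *ᵥ c k) := by
  rw [pdL, LinearMap.sum_apply]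
  refine Prod.ext ?_ ?_
  · rw [Prod.fst_sum]; rfl
  · rw [Prod.snd_sum]; rfl

lemma pdL_range {n : ℕ} (t : Fin n → TT p ρ ν) : ⨆ k, spn (t k) = LinearMap.range (pdL t) := by
  refine le_antisymm (iSup_le fun k => ?_) ?_
  · rw [spn_eq]
    rintro _ ⟨c, rfl⟩
    refine ⟨Pi.single k c, ?_⟩
    rw [pdL, LinearMap.sum_apply, sum_eq_single k (fun j _ hj => by simp [hj]) (by simp)]
    simp
  · rintro _ ⟨c, rfl⟩
    rw [pdL, LinearMap.sum_apply]
    refine Submodule.sum_mem _ fun k _ => Submodule.mem_iSup_of_mem k ?_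
    rw [spn_eq]
    exact ⟨c k, rfl⟩

lemma pdL_dom (n : ℕ) : Module.finrank (ZMod p) (Fin n → Fin ρ → ZMod p) = n * ρ := by
  rw [Module.finrank_pi_fintype]
  simp

lemma pdL_le {n : ℕ} (t : Fin n → TT p ρ ν) :
    Module.finrank (ZMod p) ↥(⨆ k, spn (t k)) ≤ n * ρ := by
  rw [pdL_range, ← pdL_dom (p := p) n]
  exact LinearMap.finrank_range_le _

lemma pdL_eq {n : ℕ} (t : Fin (n + 1) → TT p ρ ν) (h : Mn t) :
    Module.finrank (ZMod p) ↥(⨆ k : Fin n, spn (t k.succ)) = n * ρ := by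
  rw [pdL_range, ← pdL_dom (p := p) n]
  refine LinearMap.finrank_range_of_inj ((injective_iff_map_eq_zero _).2 fun c hc => ?_)
  rw [pdL_apply] at hc
  have k := h (Fin.cons 0 c) (by
    rw [Fin.sum_univ_succ]
    simpa using congrArg Prod.fst hc) ⟨0, rfl⟩
  funext j
  exact congrFun k j.succ

lemma pdL_rep {n : ℕ} (t : Fin (n + 1) → TT p ρ ν) (h : Mn t)
    (hl : spn (t 0) ≤ ⨆ k : Fin n, spn (t k.succ)) :
    ∃ g : Fin n → Mx p (Fin ρ) (Fin ρ), (∀ k, Inj (g k)) ∧ t 0 = ∑ k, rm (t k.succ) (g k) := by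
  rw [pdL_range] at hl
  choose c hc using fun a : Fin ρ => hl (Submodule.subset_span ⟨a, rfl⟩)
  simp only [pdL_apply, Prod.mk.injEq] at hc
  have hy : yM (t 0) = ∑ k : Fin n, yM (t k.succ) * Matrix.of fun s a => c a k s := by
    ext i a
    have := congrFun (hc a).1 i
    rw [Finset.sum_apply] at this
    rw [Matrix.sum_apply]
    exact this.symm
  refine ⟨fun k => Matrix.of fun s a => c a k s, fun k => ?_, Prod.ext ?_ ?_⟩
  · refine (injective_iff_map_eq_zero (Matrix.mulVecLin _)).2 fun v hv => ?_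
    have k0 := h (Fin.cons (-v) fun k => (Matrix.of fun s a => c a k s) *ᵥ v) (by
      rw [Fin.sum_univ_succ]
      simp only [Fin.cons_zero, Fin.cons_succ, mulVec_mulVec]
      rw [mulVec_neg, hy, sum_mulVec, neg_add_cancel]) ⟨k.succ, hv⟩
    exact neg_eq_zero.1 (congrFun k0 0)
  · funext i a
    have := congrFun (hc a).1 i
    rw [Finset.sum_apply] at this
    rw [Prod.fst_sum, Finset.sum_apply, Finset.sum_apply]
    exact this.symm
  · funext i a
    have := congrFun (hc a).2 i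
    rw [Finset.sum_apply] at this
    rw [Prod.snd_sum, Finset.sum_apply, Finset.sum_apply]
    exact this.symm

open Classical in
lemma pdL_cnt (h : Good b S) (m : ℕ) (g : Fin (m + 2) → Mx p (Fin ρ) (Fin ρ))
    (hg : ∀ k, Inj (g k)) :
    (#{u : Fin (m + 3) → S | (u 0).1 = ∑ k, rm (u k.succ).1 (g k)} : ℝ) ≤
      b * (dd p ν ^ ρ) ^ (m + 2) := by
  have h1 : #{u : Fin (m + 3) → S | (u 0).1 = ∑ k, rm (u k.succ).1 (g k)} ≤
      #((univ : Finset (Fin m → S)).sigma fun w => {q ∈ S ×ˢ S |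
        rm q.1 (g 0) + rm q.2 (g 1) + ∑ k, rm (w k).1 (g k.succ.succ) ∈ S}) := by
    refine card_le_card_of_injOn
      (fun u => ⟨fun k => u k.succ.succ.succ, (u 1).1, (u 2).1⟩) (fun u hu => ?_) ?_
    · have e := (mem_filter.1 (mem_coe.1 hu)).2
      rw [Fin.sum_univ_succ, Fin.sum_univ_succ, ← add_assoc] at e
      refine mem_coe.2 (mem_sigma.2 ⟨mem_univ _, mem_filter.2
        ⟨mem_product.2 ⟨(u 1).2, (u 2).2⟩, ?_⟩⟩)
      have := (u 0).2
      rw [e] at this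
      exact this
    · intro u hu u' hu' e
      have e1 := (mem_filter.1 (mem_coe.1 hu)).2
      have e2 := (mem_filter.1 (mem_coe.1 hu')).2
      obtain ⟨e3, e4⟩ := Sigma.mk.inj_iff.1 e
      have e5 := eq_of_heq e4
      have e6 : ∀ k : Fin (m + 2), u k.succ = u' k.succ := fun k => by
        refine Fin.cases (Subtype.ext (congrArg Prod.fst e5)) (fun k => ?_) k
        exact Fin.cases (Subtype.ext (congrArg Prod.snd e5)) (fun k => congrFun e3 k) k
      funext k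
      refine Fin.cases (Subtype.ext ?_) e6 k
      rw [e1, e2]
      exact sum_congr rfl fun k _ => by rw [e6]
  rw [card_sigma] at h1
  have hd := dd_pos (p := p) (ν := ν)
  have hb := h.b0
  calc _ ≤ ∑ w : Fin m → S, (#{q ∈ S ×ˢ S |
        rm q.1 (g 0) + rm q.2 (g 1) + ∑ k, rm (w k).1 (g k.succ.succ) ∈ S} : ℝ) := by
        exact_mod_cast h1
    _ ≤ ∑ _w : Fin m → S, b * dd p ν ^ (2 * ρ) := sum_le_sum fun w _ => by
        convert CNT3 h _ _ (hg 0) (hg 1) (∑ k, rm (w k).1 (g k.succ.succ))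
    _ = (#S : ℝ) ^ m * (b * dd p ν ^ (2 * ρ)) := by simp
    _ ≤ (dd p ν ^ ρ) ^ m * (b * dd p ν ^ (2 * ρ)) := by
        have := h.card
        gcongr
    _ = _ := by ring

open Classical in
/-- the first member lies in the span of the others -/
theorem FULLC (h : Good b S) (n : ℕ) :
    (#{u : Fin (n + 1) → S | Function.Injective u ∧ Mn (fun k => (u k).1) ∧
      spn (u 0).1 ≤ ⨆ k : Fin n, spn (u k.succ).1} : ℝ) ≤
      (p : ℝ) ^ (ρ ^ 2 * n) * b * (dd p ν ^ ρ) ^ n := by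
  have hd := dd_pos (p := p) (ν := ν)
  have hb := h.b0
  have h0 : 0 ≤ (p : ℝ) ^ (ρ ^ 2 * n) * b * (dd p ν ^ ρ) ^ n := by positivity
  rcases n with _ | _ | m
  · rw [card_eq_zero.2 (filter_eq_empty_iff.2 fun u _ hu => ?_), Nat.cast_zero]
    · exact h0
    · have h1 := Submodule.finrank_mono hu.2.2
      have h2 := pdL_le fun k : Fin 0 => (u k.succ).1
      rw [finrank_spn (h.inj (u 0).2)] at h1
      have := h.r0
      omega
  · rw [card_eq_zero.2 (filter_eq_empty_iff.2 fun u _ hu => ?_), Nat.cast_zero]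
    · exact h0
    · have h1 : spn (u 0).1 ≤ spn (u (Fin.succ 0)).1 :=
        hu.2.2.trans (iSup_le fun k => by rw [Fin.fin_one_eq_zero k])
      have h2 := Submodule.eq_of_le_of_finrank_le h1
        (by rw [finrank_spn (h.inj (u _).2), finrank_spn (h.inj (u _).2)])
      exact absurd (hu.1 (Subtype.ext (h.fam.inj _ (u _).2 _ (u _).2 h2))) (Fin.succ_ne_zero _).symm
  · have h1 : ({u : Fin (m + 1 + 1 + 1) → S | Function.Injective u ∧ Mn (fun k => (u k).1) ∧
        spn (u 0).1 ≤ ⨆ k : Fin (m + 1 + 1), spn (u k.succ).1} : Finset _) ⊆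
        (univ.filter fun g : Fin (m + 2) → Mx p (Fin ρ) (Fin ρ) => ∀ k, Inj (g k)).biUnion
          fun g => {u : Fin (m + 3) → S | (u 0).1 = ∑ k, rm (u k.succ).1 (g k)} := fun u hu => by
      obtain ⟨-, a1, a2⟩ := (mem_filter.1 hu).2
      obtain ⟨g, a3, a4⟩ := pdL_rep _ a1 a2
      exact mem_biUnion.2 ⟨g, mem_filter.2 ⟨mem_univ _, a3⟩, mem_filter.2 ⟨mem_univ _, a4⟩⟩
    have h2 := (card_le_card h1).trans card_biUnion_le
    calc _ ≤ ∑ g ∈ univ.filter fun g : Fin (m + 2) → Mx p (Fin ρ) (Fin ρ) => ∀ k, Inj (g k),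
          (#{u : Fin (m + 3) → S | (u 0).1 = ∑ k, rm (u k.succ).1 (g k)} : ℝ) := by
          exact_mod_cast h2
      _ ≤ #(univ.filter fun g : Fin (m + 2) → Mx p (Fin ρ) (Fin ρ) => ∀ k, Inj (g k)) •
          (b * (dd p ν ^ ρ) ^ (m + 2)) :=
          sum_le_card_nsmul _ _ _ fun g hg => pdL_cnt h m g (mem_filter.1 hg).2
      _ ≤ _ := by
          rw [nsmul_eq_mul, mul_assoc]
          refine mul_le_mul_of_nonneg_right ?_ (by positivity)
          have := card_filter_le (univ : Finset (Fin (m + 2) → Mx p (Fin ρ) (Fin ρ)))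
            fun g => ∀ k, Inj (g k)
          rw [card_univ, Fintype.card_fun, pa_card_Mx, Fintype.card_fin, Fintype.card_fin, ← sq,
            ← pow_mul] at this
          exact_mod_cast this

open Classical in
lemma pdL_mid (h : Good b S) (n : ℕ) :
    ∑ u : Fin (n + 1) → S, (if 0 < Module.finrank (ZMod p)
        ↥(spn (u 0).1 ⊓ ⨆ k : Fin n, spn (u k.succ).1) ∧ Module.finrank (ZMod p)
        ↥(spn (u 0).1 ⊓ ⨆ k : Fin n, spn (u k.succ).1) < ρ then dd p ν ^ Module.finrank (ZMod p)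
        ↥(spn (u 0).1 ⊓ ⨆ k : Fin n, spn (u k.succ).1) else 0) ≤
      2 ^ p ^ (n * ρ) * b * (dd p ν ^ ρ) ^ (n + 1) := by
  have hd := dd_pos (p := p) (ν := ν)
  have hb := h.b0
  rw [← (Fin.consEquiv fun _ : Fin (n + 1) => S).sum_comp, Fintype.sum_prod_type, sum_comm]
  calc _ ≤ ∑ _w : Fin n → S, 2 ^ p ^ (n * ρ) * b * dd p ν ^ ρ := sum_le_sum fun w _ => by
        have := STEP2 h _ _ (pdL_le fun k => (w k).1)
        rw [sum_filter, ← sum_coe_sort S] at this
        exact this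
    _ = (#S : ℝ) ^ n * (2 ^ p ^ (n * ρ) * b * dd p ν ^ ρ) := by simp
    _ ≤ (dd p ν ^ ρ) ^ n * (2 ^ p ^ (n * ρ) * b * dd p ν ^ ρ) := by
        have := h.card
        gcongr
    _ = _ := by ring

open Classical in
theorem MINSUM (h : Good b S) (n : ℕ) :
    ∑ u : Fin (n + 1) → S with Function.Injective u ∧ Dep (fun k => (u k).1) ∧
      Mn (fun k => (u k).1), (dd p ν ^ Module.finrank (ZMod p) ↥(⨆ k, spn (u k).1))⁻¹ ≤
      ((p : ℝ) ^ ((n + 1) * ρ) + 2 ^ p ^ (n * ρ) + (p : ℝ) ^ (ρ ^ 2 * n)) * b := by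
  have hd := dd_pos (p := p) (ν := ν)
  have hD : 0 < (dd p ν ^ ρ) ^ (n + 1) := by positivity
  have h1 := DEPC h (n + 1)
  have h2 := pdL_mid h n
  have h3 := mul_le_mul_of_nonneg_right (FULLC h n) (pow_pos hd ρ).le
  rw [card_filter] at h1 h3
  push_cast at h1 h3
  rw [sum_mul] at h3
  refine le_of_mul_le_mul_right ?_ hD
  rw [sum_filter, sum_mul]
  have h4 := add_le_add (add_le_add h1 h2) h3
  rw [← sum_add_distrib, ← sum_add_distrib] at h4
  refine le_trans (sum_le_sum fun u _ => ?_) (h4.trans_eq (by ring))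
  by_cases hu : Function.Injective u ∧ Dep (fun k => (u k).1) ∧ Mn (fun k => (u k).1)
  · have a1 := pdL_eq _ hu.2.2
    have a2 : (⨆ k, spn (u k).1) = spn (u 0).1 ⊔ ⨆ k : Fin n, spn (u k.succ).1 := by
      refine le_antisymm (iSup_le fun k => ?_) (sup_le ?_ (iSup_le fun k => ?_))
      · refine Fin.cases le_sup_left (fun k => ?_) k
        exact le_sup_of_le_right (le_iSup (fun k : Fin n => spn (u k.succ).1) k)
      · exact le_iSup (fun k => spn (u k).1) 0
      · exact le_iSup (fun k => spn (u k).1) k.succ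
    have a3 := Submodule.finrank_sup_add_finrank_inf_eq (spn (u 0).1)
      (⨆ k : Fin n, spn (u k.succ).1)
    have a4 := finrank_spn (h.inj (u 0).2)
    have a5 : Module.finrank (ZMod p) ↥(spn (u 0).1 ⊓ ⨆ k : Fin n, spn (u k.succ).1) = ρ →
        spn (u 0).1 ≤ ⨆ k : Fin n, spn (u k.succ).1 := fun e =>
      inf_eq_left.1 (Submodule.eq_of_le_of_finrank_le inf_le_left (by rw [a4, e]))
    have a6 : Module.finrank (ZMod p) ↥(spn (u 0).1 ⊓ ⨆ k : Fin n, spn (u k.succ).1) ≤ ρ :=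
      (Submodule.finrank_mono inf_le_left).trans_eq a4
    rw [a1, a4, ← a2] at a3
    rw [if_pos hu, if_pos hu.2.1]
    generalize Module.finrank (ZMod p) ↥(spn (u 0).1 ⊓ ⨆ k : Fin n, spn (u k.succ).1) = s at *
    have a7 : (dd p ν ^ Module.finrank (ZMod p) ↥(⨆ k, spn (u k).1))⁻¹ * (dd p ν ^ ρ) ^ (n + 1) =
        dd p ν ^ s := by
      rw [← pow_mul, show ρ * (n + 1) = ρ + n * ρ by ring, ← a3, pow_add]
      field_simp
    rw [a7]
    rcases Nat.eq_zero_or_pos s with rfl | a8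
    · rw [pow_zero, add_assoc]
      exact le_add_of_nonneg_right (by split_ifs <;> positivity)
    · rcases a6.lt_or_eq with a9 | a9
      · rw [if_pos ⟨a8, a9⟩]
        have : 0 ≤ (if Function.Injective u ∧ Mn (fun k => (u k).1) ∧
          spn (u 0).1 ≤ ⨆ k : Fin n, spn (u k.succ).1 then (1 : ℝ) else 0) * dd p ν ^ ρ := by
          split_ifs <;> positivity
        linarith
      · rw [if_neg (by omega), if_pos ⟨hu.1, hu.2.2, a5 a9⟩, a9]
        linarith
  · rw [if_neg hu, zero_mul]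
    split_ifs <;> positivity

end Pool.Agent.Work.MP_4523ee_co.Fp.Po
end

-- merged part: Pool.Agent.Work.MP_4523ee_co.Fp.PoE
section
/-!
Poisson count: factorial moments and the theorem PO.
-/

set_option autoImplicit false
set_option linter.unusedSectionVars false

namespace Pool.Agent.Work.MP_4523ee_co.Fp.Po

open Finset Matrix
open scoped BigOperators ComplexConjugate

variable {p : ℕ} [Fact p.Prime]

section gen
variable {A B : Type} [Fintype A] [Fintype B]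

open Classical in
lemma card_tuples (P : A → Prop) (j : ℕ) :
    #{t : Fin j → A | ∀ k, P (t k)} = #{a | P a} ^ j := by
  have : (univ.filter fun t : Fin j → A => ∀ k, P (t k)) =
      Fintype.piFinset fun _ => univ.filter P := by
    ext t
    simp
  rw [this, Fintype.card_piFinset_const]

open Classical in
lemma card_inj_tuples (P : A → Prop) (j : ℕ) :
    #{t : Fin j → A | Function.Injective t ∧ ∀ k, P (t k)} = (#{a | P a}).descFactorial j := by
  have h := @Fintype.card_embedding_eq (Fin j) {a // P a} _ _ _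
  rw [Fintype.card_fin, Fintype.card_subtype] at h
  rw [← h, ← Fintype.card_subtype]
  refine Fintype.card_congr
    { toFun := fun t => ⟨fun k => ⟨t.1 k, t.2.2 k⟩, fun k k' e => t.2.1 (congrArg Subtype.val e)⟩
      invFun := fun e => ⟨fun k => (e k).1, fun k k' h => e.injective (Subtype.ext h),
        fun k => (e k).2⟩
      left_inv := fun t => rfl
      right_inv := fun e => rfl }

lemma sum_fst (j : ℕ) (F : (Fin j → A) → ℝ) :
    ∑ t : Fin j → A × B, F (fun k => (t k).1) = (Fintype.card B : ℝ) ^ j * ∑ u, F u := by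
  rw [Fintype.sum_equiv (Equiv.arrowProdEquivProdArrow (Fin j) (fun _ => A) (fun _ => B))
    (fun t => F fun k => (t k).1) (fun q => F q.1) (fun t => rfl), Fintype.sum_prod_type]
  simp [mul_sum]

lemma sum_fst' (j : ℕ) (F : (Fin j → A) → ℝ) (P : (Fin j → A) → Prop) [DecidablePred P]
    [DecidablePred fun t : Fin j → A × B => P fun k => (t k).1] :
    ∑ t : Fin j → A × B with P (fun k => (t k).1), F (fun k => (t k).1) =
      (Fintype.card B : ℝ) ^ j * ∑ u with P u, F u := by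
  rw [sum_filter, sum_filter, ← sum_fst j fun u => if P u then F u else 0]
  exact sum_congr rfl fun t _ => by congr

lemma expect_card {W : Type} [Fintype W] (R : A → W → Prop) (P : A → Prop) [DecidablePred P]
    [∀ m, DecidablePred fun t => P t ∧ R t m] :
    𝔼 m, (#{t | P t ∧ R t m} : ℝ) = ∑ t with P t, dens {m | R t m} := by
  unfold dens
  rw [← expect_sum_comm]
  refine expect_congr rfl fun m _ => ?_
  rw [card_filter, sum_filter]
  push_cast
  refine sum_congr rfl fun t _ => ?_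
  by_cases h1 : P t <;> by_cases h2 : R t m <;> simp [ind, h1, h2]

lemma count_edges' (K : A → A → ℝ) (Q β N : ℝ) (hQ : 1 ≤ Q) (hβ : 0 ≤ β)
    (hN : (Fintype.card A : ℝ) ≤ N) (hK : ∀ a b, |K a b| ≤ Q)
    (hcut : ∀ f g : A → ℝ, (∀ a, |f a| ≤ 1) → (∀ a, |g a| ≤ 1) →
      |∑ a, ∑ b, f a * g b * (K a b - 1)| ≤ β * N ^ 2) (j : ℕ) :
    |∑ t : Fin j → A, ∏ e ∈ EE j, K (t e.1) (t e.2) - (Fintype.card A : ℝ) ^ j| ≤
      #(EE j) * Q ^ (2 * #(EE j)) * β * N ^ j := by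
  have hN0 : 0 ≤ N := (Nat.cast_nonneg _).trans hN
  rcases (EE j).eq_empty_or_nonempty with he | ⟨e, he⟩
  · simp [he]
  have hj : 2 ≤ j := by
    have h1 : e.1 < e.2 := (mem_filter.1 he).2
    have h2 := e.2.2
    have h3 : e.1.1 < e.2.1 := h1
    omega
  obtain ⟨i, rfl⟩ := Nat.exists_eq_add_of_le' hj
  rcases isEmpty_or_nonempty A with hA | hA
  · simp only [univ_eq_empty, sum_empty, Fintype.card_eq_zero, Nat.cast_zero, zero_sub, abs_neg]
    rw [zero_pow (by omega), abs_zero]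
    positivity
  have ha : (0 : ℝ) < Fintype.card A := by exact_mod_cast Fintype.card_pos
  have h := count_edges K Q (β * N ^ 2) hQ (by positivity) hK hcut (EE (i + 2))
    fun e he => (mem_filter.1 he).2
  rw [Fintype.card_fin] at h
  refine le_of_mul_le_mul_left (h.trans ?_) (pow_pos ha 2)
  have : (Fintype.card A : ℝ) ^ i ≤ N ^ i := pow_le_pow_left₀ ha.le hN i
  calc _ = (#(EE (i + 2)) * Q ^ (2 * #(EE (i + 2))) * β * N ^ 2 * (Fintype.card A : ℝ) ^ 2) *
        (Fintype.card A : ℝ) ^ i := by ring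
    _ ≤ (#(EE (i + 2)) * Q ^ (2 * #(EE (i + 2))) * β * N ^ 2 * (Fintype.card A : ℝ) ^ 2) *
        N ^ i := by gcongr
    _ = _ := by ring

end gen

section
variable {ν J : Type} [Fintype ν] [DecidableEq ν] [Fintype J] [DecidableEq J] {ρ : ℕ}

open Classical in
/-- number of events that hold -/
noncomputable def HH (S : Finset (TT p ρ ν)) (Ω : Finset (OM p ρ J)) (m : WW p ν J) : ℕ :=
  #{a : S × Ω | Hd a.1.1 a.2.1 m}

/-- dependent events hold together -/
def Bad (S : Finset (TT p ρ ν)) (Ω : Finset (OM p ρ J)) (j : ℕ) : Set (WW p ν J) :=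
  {m | ∃ t : Fin j → S × Ω, Function.Injective t ∧ Dep (fun k => (t k).1.1) ∧
    ∀ k, Hd (t k).1.1 (t k).2.1 m}

lemma card_Om (Ω : Finset (OM p ρ J)) : (Fintype.card Ω : ℝ) ≤ Fintype.card (OM p ρ J) := by
  exact_mod_cast Fintype.card_subtype_le _

lemma qq_nonneg : 0 ≤ qq p ρ ν J := by
  have := @dd_pos p _ ν _ _
  unfold qq
  positivity

lemma qq_le : qq p ρ ν J * dd p ν ^ ρ ≤ (p : ℝ) ^ (ρ ^ 2) := by
  have h0 := @dd_pos p _ ν _ _
  have h1 : (1 : ℝ) ≤ (p : ℝ) ^ (ρ + 1).choose 2 * (p : ℝ) ^ (Fintype.card J * ρ) :=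
    one_le_mul_of_one_le_of_one_le (one_le_pow₀ one_le_p) (one_le_pow₀ one_le_p)
  unfold qq
  rw [div_mul_eq_mul_div, mul_div_mul_right _ _ (pow_pos h0 _).ne']
  exact div_le_self (by positivity) h1

lemma inj_of_not_Dep (hρ : 0 < ρ) {j : ℕ} {τ : Fin j → TT p ρ ν} (h : ¬ Dep τ) :
    Function.Injective τ := by
  intro k k' e
  by_contra hne
  refine h ⟨Pi.single k 1 - Pi.single k' 1, fun h0 => ?_, ?_⟩
  · have := congrFun (congrFun h0 k) ⟨0, hρ⟩
    simp [Pi.single_eq_of_ne hne] at this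
  · have u : ∀ i : Fin j, ∑ x, yM (τ x) *ᵥ (Pi.single i 1 : Fin j → Fin ρ → ZMod p) x =
        yM (τ i) *ᵥ 1 := by
      intro i
      rw [sum_eq_single i (fun x _ hx => by rw [Pi.single_eq_of_ne hx, mulVec_zero]) (by simp),
        Pi.single_eq_same]
    simp only [Pi.sub_apply, mulVec_sub, sum_sub_distrib, u, e, sub_self]

lemma Dep_succAbove {n : ℕ} {τ : Fin (n + 1) → TT p ρ ν} (h : ¬ Mn τ) :
    ∃ k0 : Fin (n + 1), Dep fun k => τ (k0.succAbove k) := by
  unfold Mn at h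
  push Not at h
  obtain ⟨c, h1, ⟨k0, h2⟩, h3⟩ := h
  refine ⟨k0, fun k => c (k0.succAbove k), fun h0 => h3 ?_, ?_⟩
  · funext k
    rcases Fin.eq_self_or_eq_succAbove k0 k with rfl | ⟨i, rfl⟩
    · exact h2
    · exact congrFun h0 i
  · rw [Fin.sum_univ_succAbove _ k0, h2, mulVec_zero, zero_add] at h1
    exact h1

end

section
variable (ρ : ℕ) (J : Type) [Fintype J] [DecidableEq J]

theorem HM (j : ℕ) : ∃ C : ℝ, 0 ≤ C ∧ ∀ (ν : Type) [Fintype ν] [DecidableEq ν] (b : ℝ)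
    (S : Finset (TT p ρ ν)), Good b S → ∀ Ω : Finset (OM p ρ J),
    𝔼 m, (HH S Ω m : ℝ) ^ j ≤ C := by
  classical
  refine ⟨(p : ℝ) ^ ((j * ρ) ^ 2) * ((Fintype.card (OM p ρ J) : ℝ) ^ j *
    (3 * 2 ^ p ^ (j * ρ)) ^ j), by positivity, fun ν _ _ b S h Ω => ?_⟩
  have e : 𝔼 m, (HH S Ω m : ℝ) ^ j =
      ∑ t : Fin j → S × Ω, dens {m | ∀ k, Hd (t k).1.1 (t k).2.1 m} := by
    have := expect_card (fun (t : Fin j → S × Ω) m => ∀ k, Hd (t k).1.1 (t k).2.1 m)
      fun _ => True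
    simp only [true_and, filter_true] at this
    rw [← this]
    refine expect_congr rfl fun m _ => ?_
    rw [HH, ← Nat.cast_pow, ← card_tuples]
  rw [e]
  refine (sum_le_sum fun t _ => PU (fun k => (t k).1.1) fun k => (t k).2.1).trans ?_
  rw [← mul_sum, sum_fst j fun u : Fin j → S =>
    (dd p ν ^ Module.finrank (ZMod p) ↥(⨆ k, spn (u k).1))⁻¹]
  have h0 := @dd_pos p _ ν _ _
  gcongr
  · exact Fintype.card_subtype_le _
  · exact MOM h j

theorem BAD (j : ℕ) : ∃ C : ℝ, 0 ≤ C ∧ ∀ (ν : Type) [Fintype ν] [DecidableEq ν] (b : ℝ)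
    (S : Finset (TT p ρ ν)), Good b S → ∀ Ω : Finset (OM p ρ J),
    dens (Bad S Ω j ∩ {m | Inj m.2}) ≤ C * b := by
  classical
  induction j with
  | zero =>
    refine ⟨0, le_rfl, fun ν _ _ b S h Ω => ?_⟩
    rw [zero_mul]
    refine (dens_le_sum (∅ : Finset Unit) _ (fun _ => ∅) ?_).trans (by simp)
    rintro m ⟨⟨t, -, ⟨c, hc, -⟩, -⟩, -⟩
    exact absurd (Subsingleton.elim _ _) hc
  | succ n ih =>
    obtain ⟨C, hC, ih⟩ := ih
    refine ⟨C + (p : ℝ) ^ (((n + 1) * ρ) ^ 2) * ((Fintype.card (OM p ρ J) : ℝ) ^ (n + 1) *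
      ((p : ℝ) ^ ((n + 1) * ρ) + 2 ^ p ^ (n * ρ) + (p : ℝ) ^ (ρ ^ 2 * n))), by positivity,
      fun ν _ _ b S h Ω => ?_⟩
    let P : (Fin (n + 1) → S) → Prop := fun u => Function.Injective u ∧
      Dep (fun k => (u k).1) ∧ Mn (fun k => (u k).1)
    have h1 := dens_le_sum (insertNone (univ.filter fun t : Fin (n + 1) → S × Ω =>
      P fun k => (t k).1)) (Bad S Ω (n + 1) ∩ {m | Inj m.2})
      (fun o => o.elim (Bad S Ω n ∩ {m | Inj m.2}) fun t => {m | ∀ k, Hd (t k).1.1 (t k).2.1 m})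
      (by
        rintro m ⟨⟨t, t1, t2, t3⟩, hm⟩
        by_cases hM : Mn fun k => (t k).1.1
        · refine ⟨some t, some_mem_insertNone.2 (mem_filter.2 ⟨mem_univ _, ?_, t2, hM⟩), t3⟩
          intro k k' e
          refine t1 (Prod.ext e (Subtype.ext (Hd_unique hm (t3 k) ?_)))
          have e' : (t k).1 = (t k').1 := e
          rw [e']
          exact t3 k'
        · obtain ⟨k0, hk⟩ := Dep_succAbove hM
          exact ⟨none, none_mem_insertNone, ⟨fun k => t (k0.succAbove k),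
            t1.comp Fin.succAbove_right_injective, hk, fun k => t3 _⟩, hm⟩)
    rw [sum_insertNone] at h1
    refine h1.trans ?_
    rw [add_mul]
    refine add_le_add (ih ν b S h Ω) ?_
    refine (sum_le_sum fun t _ => PU (fun k => (t k).1.1) fun k => (t k).2.1).trans ?_
    rw [← mul_sum, mul_assoc, mul_assoc, sum_fst' (n + 1) (fun u : Fin (n + 1) → S =>
      (dd p ν ^ Module.finrank (ZMod p) ↥(⨆ k, spn (u k).1))⁻¹) P]
    have h0 := @dd_pos p _ ν _ _
    gcongr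
    · exact Fintype.card_subtype_le _
    · convert MINSUM h n

open Classical in
theorem MAIN (j : ℕ) : ∃ C : ℝ, 0 ≤ C ∧ ∀ (ν : Type) [Fintype ν] [DecidableEq ν] (b : ℝ)
    (S : Finset (TT p ρ ν)), Good b S → ∀ Ω : Finset (OM p ρ J), (∀ ω ∈ Ω, oc ω ω = 0) →
    |∑ t : Fin j → S × Ω with ¬ Dep (fun k => (t k).1.1), dens {m | ∀ k, Hd (t k).1.1 (t k).2.1 m} -
      (qq p ρ ν J * (#S * #Ω)) ^ j| ≤ C * b := by
  set Q : ℝ := (p : ℝ) ^ (ρ ^ 2) with hQ
  have hQ1 : 1 ≤ Q := one_le_pow₀ one_le_p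
  set c : ℝ := (Fintype.card (OM p ρ J) : ℝ) with hc
  have hc0 : 0 ≤ c := Nat.cast_nonneg _
  refine ⟨(Q * c) ^ j * (#(EE j) * Q ^ (2 * #(EE j)) * Q + Q ^ #(EE j) * (p : ℝ) ^ (j * ρ)),
    by positivity, fun ν _ _ b S h Ω hΩ => ?_⟩
  have h0 := @dd_pos p _ ν _ _
  have hb := h.b0
  let K : S × Ω → S × Ω → ℝ := fun a a' => KK a.1.1 a'.1.1 a.2.1 a'.2.1
  have hK0 : ∀ a a', 0 ≤ K a a' := fun a a' => by
    simp only [K, KK]
    split_ifs <;> positivity
  have hK1 : ∀ a a', K a a' ≤ Q := fun a a' => by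
    simp only [K, KK]
    split_ifs
    · exact le_rfl
    · linarith
  have hA : (Fintype.card (S × Ω) : ℝ) = #S * #Ω := by simp
  have hN : (Fintype.card (S × Ω) : ℝ) ≤ c * dd p ν ^ ρ := by
    rw [hA, mul_comm]
    have := card_Om Ω
    rw [Fintype.card_coe] at this
    exact mul_le_mul this h.card (Nat.cast_nonneg _) hc0
  have h1 := count_edges' K Q (Q * b) (c * dd p ν ^ ρ) hQ1 (by positivity) hN
    (fun a a' => by rw [abs_of_nonneg (hK0 a a')]; exact hK1 a a') (CUT h Ω) j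
  have h2 : ∑ t : Fin j → S × Ω with ¬ Dep (fun k => (t k).1.1),
      dens {m | ∀ k, Hd (t k).1.1 (t k).2.1 m} = qq p ρ ν J ^ j *
      ∑ t : Fin j → S × Ω with ¬ Dep (fun k => (t k).1.1), ∏ e ∈ EE j, K (t e.1) (t e.2) := by
    rw [mul_sum]
    exact sum_congr rfl fun t ht => PE _ _ (mem_filter.1 ht).2 (fun k => h.om_self (t k).1.2)
      fun k => hΩ _ (t k).2.2
  have h3 := sum_filter_add_sum_filter_not (univ : Finset (Fin j → S × Ω))
    (fun t => Dep fun k => (t k).1.1) fun t => ∏ e ∈ EE j, K (t e.1) (t e.2)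
  have h4 : 0 ≤ ∑ t : Fin j → S × Ω with Dep (fun k => (t k).1.1),
      ∏ e ∈ EE j, K (t e.1) (t e.2) :=
    sum_nonneg fun t _ => prod_nonneg fun e _ => hK0 _ _
  have h5 : ∑ t : Fin j → S × Ω with Dep (fun k => (t k).1.1), ∏ e ∈ EE j, K (t e.1) (t e.2) ≤
      Q ^ #(EE j) * (p : ℝ) ^ (j * ρ) * b * (c * dd p ν ^ ρ) ^ j := by
    have g1 : ∀ t : Fin j → S × Ω, ∏ e ∈ EE j, K (t e.1) (t e.2) ≤ Q ^ #(EE j) := fun t =>
      (prod_le_prod (g := fun _ => Q) (fun e _ => hK0 _ _) fun e _ => hK1 _ _).trans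
        (by rw [prod_const])
    refine (sum_le_sum fun t _ => g1 t).trans ?_
    rw [sum_filter, sum_fst j fun u : Fin j → S => if Dep (fun k => (u k).1) then Q ^ #(EE j)
      else 0, ← sum_filter, sum_const, nsmul_eq_mul]
    calc _ ≤ c ^ j * (((p : ℝ) ^ (j * ρ) * b * (dd p ν ^ ρ) ^ j) * Q ^ #(EE j)) := by
          gcongr
          · exact card_Om Ω
          · exact DEPC h j
      _ = _ := by ring
  have hq := @qq_nonneg p _ ν J _ _ _ _ ρ
  have h6 : (qq p ρ ν J * (c * dd p ν ^ ρ)) ^ j ≤ (Q * c) ^ j := by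
    refine pow_le_pow_left₀ (by positivity) ?_ j
    have := mul_le_mul_of_nonneg_right (@qq_le p _ ν J _ _ _ _ ρ) hc0
    linarith
  rw [h2, mul_pow, ← mul_sub, abs_mul, abs_of_nonneg (pow_nonneg hq j), ← hA]
  calc _ ≤ qq p ρ ν J ^ j * ((#(EE j) * Q ^ (2 * #(EE j)) * Q + Q ^ #(EE j) * (p : ℝ) ^ (j * ρ)) *
        b * (c * dd p ν ^ ρ) ^ j) := by
        gcongr
        rw [abs_le] at h1 ⊢
        constructor <;> nlinarith [h1.1, h1.2]
    _ = (qq p ρ ν J * (c * dd p ν ^ ρ)) ^ j * ((#(EE j) * Q ^ (2 * #(EE j)) * Q +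
        Q ^ #(EE j) * (p : ℝ) ^ (j * ρ)) * b) := by ring
    _ ≤ (Q * c) ^ j * ((#(EE j) * Q ^ (2 * #(EE j)) * Q +
        Q ^ #(EE j) * (p : ℝ) ^ (j * ρ)) * b) := by gcongr
    _ = _ := by ring

theorem FM (j : ℕ) (δ : ℝ) (hδ : 0 < δ) : ∃ b0 : ℝ, 0 < b0 ∧ ∃ n0 : ℕ,
    ∀ (ν : Type) [Fintype ν] [DecidableEq ν], n0 ≤ Fintype.card ν → ∀ b : ℝ, b ≤ b0 →
    ∀ S : Finset (TT p ρ ν), Good b S → ∀ Ω : Finset (OM p ρ J), (∀ ω ∈ Ω, oc ω ω = 0) →
    |𝔼 m, ((HH S Ω m).descFactorial j : ℝ) - (qq p ρ ν J * (#S * #Ω)) ^ j| ≤ δ := by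
  classical
  obtain ⟨C1, hC1, H1⟩ := @HM p _ ρ J _ _ (2 * j)
  obtain ⟨C2, hC2, H2⟩ := @BAD p _ ρ J _ _ j
  obtain ⟨C3, hC3, H3⟩ := @MAIN p _ ρ J _ _ j
  set ε := δ / (4 * (C1 + 1)) with hε
  have hε0 : 0 < ε := by positivity
  obtain ⟨n0, hn0⟩ := pow_unbounded_of_one_lt ((p : ℝ) ^ Fintype.card J / (ε * δ / 4))
    (by exact_mod_cast (Fact.out : p.Prime).one_lt : (1 : ℝ) < p)
  refine ⟨min (δ / (4 * (C3 + 1))) (ε * δ / (4 * (C2 + 1))), by positivity, n0,
    fun ν _ _ hn b hb S h Ω hΩ => ?_⟩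
  have hb0 := h.b0
  have e1 : 𝔼 m, ((HH S Ω m).descFactorial j : ℝ) =
      ∑ t : Fin j → S × Ω with Function.Injective t, dens {m | ∀ k, Hd (t k).1.1 (t k).2.1 m} := by
    rw [← expect_card (fun (t : Fin j → S × Ω) m => ∀ k, Hd (t k).1.1 (t k).2.1 m)]
    refine expect_congr rfl fun m _ => ?_
    rw [HH, ← card_inj_tuples]
  have e2 := sum_filter_add_sum_filter_not
    (univ.filter fun t : Fin j → S × Ω => Function.Injective t)
    (fun t => Dep fun k => (t k).1.1) fun t => dens {m | ∀ k, Hd (t k).1.1 (t k).2.1 m}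
  have e3 : ((univ.filter fun t : Fin j → S × Ω => Function.Injective t).filter
      fun t => ¬ Dep fun k => (t k).1.1) = univ.filter fun t => ¬ Dep fun k => (t k).1.1 := by
    ext t
    simp only [mem_filter, mem_univ, true_and, and_iff_right_iff_imp]
    intro hd k k' e
    exact inj_of_not_Dep h.r0 hd (by simp only [e])
  rw [e3, filter_filter,
    ← expect_card (fun (t : Fin j → S × Ω) m => ∀ k, Hd (t k).1.1 (t k).2.1 m)] at e2
  have r0 : 0 ≤ 𝔼 m : WW p ν J, (#{t : Fin j → S × Ω | (Function.Injective t ∧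
      Dep fun k => (t k).1.1) ∧ ∀ k, Hd (t k).1.1 (t k).2.1 m} : ℝ) :=
    expect_nonneg fun m _ => Nat.cast_nonneg _
  have r1 : 𝔼 m : WW p ν J, (#{t : Fin j → S × Ω | (Function.Injective t ∧
      Dep fun k => (t k).1.1) ∧ ∀ k, Hd (t k).1.1 (t k).2.1 m} : ℝ) ≤
      ε * 𝔼 m, (HH S Ω m : ℝ) ^ (2 * j) + ε⁻¹ * dens (Bad S Ω j) := by
    rw [dens, mul_expect, mul_expect, ← expect_add_distrib]
    refine expect_le_expect fun m _ => ?_
    by_cases hm : m ∈ Bad S Ω j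
    · have g1 : (#{t : Fin j → S × Ω | (Function.Injective t ∧ Dep fun k => (t k).1.1) ∧
          ∀ k, Hd (t k).1.1 (t k).2.1 m} : ℝ) ≤ (HH S Ω m : ℝ) ^ j := by
        rw [HH, ← Nat.cast_pow, ← card_tuples, Nat.cast_le]
        refine card_le_card fun t ht => ?_
        simp only [mem_filter, mem_univ, true_and] at ht ⊢
        exact ht.2
      refine g1.trans ?_
      rw [ind_of_mem hm, mul_one, mul_comm 2 j, pow_mul]
      set x := (HH S Ω m : ℝ) ^ j
      have g2 : ε * ε⁻¹ = 1 := mul_inv_cancel₀ hε0.ne'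
      have g3 : 0 < ε⁻¹ := inv_pos.2 hε0
      nlinarith [mul_nonneg hε0.le (sq_nonneg (x - ε⁻¹)), mul_nonneg hε0.le (sq_nonneg x)]
    · rw [ind_of_not hm, mul_zero, add_zero, filter_eq_empty_iff.2, card_empty, Nat.cast_zero]
      · positivity
      · exact fun t _ ht => hm ⟨t, ht.1.1, ht.1.2, ht.2⟩
  have r2 : dens (Bad S Ω j) ≤ C2 * b + ε * δ / 4 := by
    have g1 := dens_le_sum (univ : Finset Bool) (Bad S Ω j)
      (fun o => o.rec {m | ¬ Inj m.2} (Bad S Ω j ∩ {m | Inj m.2})) fun m hm => by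
        by_cases hI : Inj m.2
        · exact ⟨true, mem_univ _, hm, hI⟩
        · exact ⟨false, mem_univ _, hI⟩
    rw [Fintype.sum_bool] at g1
    refine g1.trans (add_le_add (H2 ν b S h Ω) ?_)
    have g2 : dens {m : WW p ν J | ¬ Inj m.2} = dens {U : Mx p ν J | ¬ Inj U} := by
      unfold dens
      rw [← univ_product_univ, expect_product]
      exact Fintype.expect_const (ι := SymM p ν) (𝔼 U : Mx p ν J, ind {U | ¬ Inj U} U)
    refine (g2.trans_le dens_not_inj').trans ?_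
    have g3 : (p : ℝ) ^ n0 ≤ (p : ℝ) ^ Fintype.card ν := pow_le_pow_right₀ one_le_p hn
    have g4 : (0 : ℝ) < (p : ℝ) ^ Fintype.card ν := @dd_pos p _ ν _ _
    rw [div_lt_iff₀ (by positivity)] at hn0
    rw [div_le_iff₀ g4]
    have := mul_le_mul_of_nonneg_right g3 (by positivity : 0 ≤ ε * δ / 4)
    linarith
  have r3 := H1 ν b S h Ω
  have r4 := H3 ν b S h Ω hΩ
  have b1 : C3 * b ≤ δ / 4 := by
    have := (le_div_iff₀ (by positivity)).1 (hb.trans (min_le_left _ _))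
    nlinarith
  have b2 : C2 * b ≤ ε * δ / 4 := by
    have := (le_div_iff₀ (by positivity)).1 (hb.trans (min_le_right _ _))
    nlinarith
  have b3 : ε * C1 ≤ δ / 4 := by
    have : ε * (4 * (C1 + 1)) = δ := by rw [hε]; field_simp
    nlinarith
  have b4 : ε⁻¹ * dens (Bad S Ω j) ≤ δ / 2 := by
    rw [inv_mul_le_iff₀ hε0]
    linarith
  have b5 := mul_le_mul_of_nonneg_left r3 hε0.le
  rw [e1, ← e2]
  rw [abs_le] at r4 ⊢
  constructor <;> linarith [r4.1, r4.2]

end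

theorem PO (ρ : ℕ) (J : Type) [Fintype J] [DecidableEq J] (γ : ℝ) (hγ : 0 < γ) :
    ∃ b0 : ℝ, 0 < b0 ∧ ∃ n0 : ℕ, ∀ (ν : Type) [Fintype ν] [DecidableEq ν], n0 ≤ Fintype.card ν →
    ∀ b : ℝ, b ≤ b0 → ∀ S : Finset (TT p ρ ν), Good b S → ∀ Ω : Finset (OM p ρ J),
    (∀ ω ∈ Ω, oc ω ω = 0) →
    |dens {m : WW p ν J | ∀ τ ∈ S, ∀ ω ∈ Ω, ¬ Hd τ ω m} - Real.exp (-(qq p ρ ν J * (#S * #Ω)))| ≤
      γ := by
  classical
  obtain ⟨m0, δ, hδ, H⟩ := poisson ((p : ℝ) ^ (ρ ^ 2) * Fintype.card (OM p ρ J)) γ hγ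
  choose b0 hb0 n0 F using fun j => @FM p _ ρ J _ _ j δ hδ
  refine ⟨(range (m0 + 1)).inf' nonempty_range_add_one b0, (lt_inf'_iff _).2 fun j _ => hb0 j,
    (range (m0 + 1)).sup n0, fun ν _ _ hn b hb S h Ω hΩ => ?_⟩
  have hq := @qq_nonneg p _ ν J _ _ _ _ ρ
  have e : {m : WW p ν J | ∀ τ ∈ S, ∀ ω ∈ Ω, ¬ Hd τ ω m} = {m | HH S Ω m = 0} := by
    ext m
    simp only [HH, Set.mem_ofPred_eq, card_eq_zero, filter_eq_empty_iff, mem_univ, true_imp_iff]
    exact ⟨fun g a => g _ a.1.2 _ a.2.2, fun g τ hτ ω hω => @g (⟨τ, hτ⟩, ⟨ω, hω⟩)⟩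
  rw [e]
  refine H _ _ _ (by positivity) ?_ fun j hj => ?_
  · have g1 := card_Om Ω
    rw [Fintype.card_coe] at g1
    have g2 := (mul_le_mul_of_nonneg_left h.card hq).trans qq_le
    rw [← mul_assoc]
    exact mul_le_mul g2 g1 (Nat.cast_nonneg _) (by positivity)
  · have hj' : j ∈ range (m0 + 1) := mem_range.2 (by omega)
    exact F j ν ((le_sup hj').trans hn) b (hb.trans (inf'_le _ hj')) S h Ω hΩ

end Pool.Agent.Work.MP_4523ee_co.Fp.Po
end
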