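import Mathlib
import Pool.Agent.Work.MP_4523ee_co.Fp.End

-- merged part: Pool.Agent.Work.MP_4523ee_co.Fp.Weyl
section
/-!
Weyl calculus (paper section 1).
-/

set_option autoImplicit false
set_option linter.unusedSectionVars false

namespace Pool.Agent.Work.MP_4523ee_co.Fp

open Finset Matrix
open scoped BigOperators ComplexConjugate

variable {p : ℕ} [Fact p.Prime]

variable {X : Type} [AddCommGroup X] [Module (ZMod p) X]
variable {ν : Type} [Fintype ν] [DecidableEq ν]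

lemma sy_add_left (β : Bil p X) (x x' y : GX X ν) :
    sy β (x + x') y = sy β x y + sy β x' y := by
  simp only [sy, Prod.fst_add, Prod.snd_add, bt_add_left]; ring

lemma sy_add_right (β : Bil p X) (x y y' : GX X ν) :
    sy β x (y + y') = sy β x y + sy β x y' := by
  simp only [sy, Prod.fst_add, Prod.snd_add, bt_add_right]; ring

lemma sy_smul_left (β : Bil p X) (c : ZMod p) (x y : GX X ν) :
    sy β (c • x) y = c * sy β x y := by
  simp only [sy, Prod.smul_fst, Prod.smul_snd, bt_smul_left]; ring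

lemma sy_smul_right (β : Bil p X) (c : ZMod p) (x y : GX X ν) :
    sy β x (c • y) = c * sy β x y := by
  simp only [sy, Prod.smul_fst, Prod.smul_snd, bt_smul_right]; ring

lemma sy_anti {β : Bil p X} (hβ : SymB β) (x y : GX X ν) : sy β x y = -sy β y x := by
  rw [sy, sy, bt_comm hβ x.1, bt_comm hβ x.2]; ring

lemma sy_self {β : Bil p X} (hβ : SymB β) (x : GX X ν) : sy β x x = 0 := by
  rw [sy, bt_comm hβ x.1, sub_self]

lemma sy_nd {β : Bil p X} (hβ : SymB β) (hn : NdB β) (x : GX X ν) (h : ∀ y, sy β x y = 0) :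
    x = 0 := by
  refine Prod.ext (bt_nd hn _ fun v => ?_) (bt_nd hn _ fun v => ?_)
  · simpa [sy] using h (0, v)
  · simpa [sy] using h (v, 0)

/-- the symplectic form as a bilinear map -/
def syL (β : Bil p X) (ν : Type) [Fintype ν] [DecidableEq ν] : Bil p (GX X ν) :=
  LinearMap.mk₂ (ZMod p) (sy β) (sy_add_left β) (sy_smul_left β) (sy_add_right β)
    (sy_smul_right β)

@[simp] lemma syL_apply (β : Bil p X) (x y : GX X ν) : syL β ν x y = sy β x y := rfl

lemma sy_pw_of_iso {β : Bil p X} {N : Submodule (ZMod p) X} (h : Iso β N) (x y : pw ν N) :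
    sy β ((pw ν N).subtype x) ((pw ν N).subtype y) = 0 := by
  have hx := mem_pw.1 x.2
  have hy := mem_pw.1 y.2
  have a : bt β x.1.1 y.1.2 = 0 := sum_eq_zero fun i _ => h _ (hx.1 i) _ (hy.2 i)
  have b : bt β x.1.2 y.1.1 = 0 := sum_eq_zero fun i _ => h _ (hx.2 i) _ (hy.1 i)
  show bt β x.1.1 y.1.2 - bt β x.1.2 y.1.1 = 0
  rw [a, b, sub_zero]

@[simp] lemma W_zero (β : Bil p X) (a : (ν → X) → ℂ) : W β 0 a = a := by
  funext l
  simp [W]

lemma W_W (hp : p ≠ 2) {β : Bil p X} (hβ : SymB β) (x y : GX X ν) (a : (ν → X) → ℂ) :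
    W β x (W β y a) = fun l => ee (2⁻¹ * sy β x y) * W β (x + y) a l := by
  funext l
  simp only [W, Prod.fst_add, Prod.snd_add, ← mul_assoc, ← ee_add, add_assoc l]
  congr 2
  have h2 := two_ne hp
  simp only [sy, bt_add_left, bt_add_right, bt_comm hβ x.1 y.2]
  field_simp
  ring

lemma W_comm (hp : p ≠ 2) {β : Bil p X} (hβ : SymB β) (x y : GX X ν) (a : (ν → X) → ℂ) :
    W β x (W β y a) = fun l => ee (sy β x y) * W β y (W β x a) l := by
  rw [W_W hp hβ, W_W hp hβ, add_comm y x]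
  funext l
  rw [← mul_assoc, ← ee_add, sy_anti hβ y x]
  congr 2
  have h2 := two_ne hp
  field_simp
  ring

lemma W_smul (β : Bil p X) (x : GX X ν) (c : ℂ) (a : (ν → X) → ℂ) :
    W β x (fun l => c * a l) = fun l => c * W β x a l := by
  funext l
  simp only [W]; ring

lemma W_sum (β : Bil p X) (x : GX X ν) {I : Type} (s : Finset I) (a : I → (ν → X) → ℂ) :
    W β x (fun l => ∑ i ∈ s, a i l) = fun l => ∑ i ∈ s, W β x (a i) l := by
  funext l
  simp only [W, mul_sum]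

lemma W_expect (β : Bil p X) (x : GX X ν) {I : Type} [Fintype I] (c : I → ℂ)
    (a : I → (ν → X) → ℂ) :
    W β x (fun l => 𝔼 i, c i * a i l) = fun l => 𝔼 i, c i * W β x (a i) l := by
  funext l
  simp only [W, mul_expect]
  exact expect_congr rfl fun i _ => by ring

lemma W_neg_conj (β : Bil p X) (x : GX X ν) (a : (ν → X) → ℂ) :
    W (-β) x (fun l => conj (a l)) = fun l => conj (W β x a l) := by
  funext l
  have h : ∀ u v : ν → X, bt (-β) u v = -bt β u v := fun u v => by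
    simp only [bt, LinearMap.neg_apply, sum_neg_distrib]
  simp only [W, map_mul, conj_ee, h]
  congr 2
  ring

section Pj
variable {L : Type} [AddCommGroup L] [Module (ZMod p) L] [Fintype L]
  {β : Bil p X} {j : L →ₗ[ZMod p] GX X ν}

lemma W_Pj (hp : p ≠ 2) (hβ : SymB β) (hj : ∀ x y, sy β (j x) (j y) = 0)
    (φ : Module.Dual (ZMod p) L) (a : (ν → X) → ℂ) (x : L) :
    W β (j x) (Pj β j φ a) = fun l => ee (φ x) * Pj β j φ a l := by
  unfold Pj
  rw [W_expect]
  funext l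
  simp only [W_W hp hβ, hj, mul_zero, ee_zero, one_mul, mul_expect]
  refine Fintype.expect_equiv (Equiv.addLeft x) _ _ fun y => ?_
  simp only [Equiv.coe_addLeft, map_add, ← mul_assoc, ← ee_add]
  congr 2
  ring

lemma Pj_of_eigen (φ : Module.Dual (ZMod p) L) (a : (ν → X) → ℂ)
    (h : ∀ x, W β (j x) a = fun l => ee (φ x) * a l) : Pj β j φ a = a := by
  funext l
  simp only [Pj, h, ← mul_assoc, ← ee_add, neg_add_cancel, ee_zero, one_mul]
  exact Fintype.expect_const _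

lemma Pj_Pj (hp : p ≠ 2) (hβ : SymB β) (hj : ∀ x y, sy β (j x) (j y) = 0)
    (φ : Module.Dual (ZMod p) L) (a : (ν → X) → ℂ) : Pj β j φ (Pj β j φ a) = Pj β j φ a := by
  exact Pj_of_eigen φ _ (W_Pj hp hβ hj φ a)

lemma sum_Pj (a : (ν → X) → ℂ) (l : ν → X) :
    ∑ φ : Module.Dual (ZMod p) L, Pj β j φ a l = a l := by
  classical
  unfold Pj
  rw [← expect_sum_comm]
  have h : ∀ x : L, ∑ φ : Module.Dual (ZMod p) L, ee (-φ x) * W β (j x) a l =
      if x = 0 then (Fintype.card L : ℂ) * a l else 0 := fun x => by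
    rw [← sum_mul]
    split_ifs with h
    · simp [h, card_dual]
    · simp only [← map_neg]
      rw [sum_ee_dual _ (neg_ne_zero.2 h), zero_mul]
  have h0 : (Fintype.card L : ℂ) ≠ 0 := by exact_mod_cast Fintype.card_ne_zero
  simp only [h, Fintype.expect_eq_sum_div_card, sum_ite_eq', mem_univ, if_true]
  field_simp

/-- Weyl operators permute the projections -/
lemma W_Pj_comm (hp : p ≠ 2) (hβ : SymB β) (φ : Module.Dual (ZMod p) L) (a : (ν → X) → ℂ)
    (y : GX X ν) :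
    W β y (Pj β j φ a) = Pj β j (φ - (syL β ν y).comp j) (W β y a) := by
  unfold Pj
  rw [W_expect]
  funext l
  refine expect_congr rfl fun x _ => ?_
  rw [W_comm hp hβ y]
  simp only [← mul_assoc, ← ee_add, LinearMap.sub_apply, LinearMap.comp_apply, syL_apply]
  congr 2
  ring

lemma Pj_expect (φ : Module.Dual (ZMod p) L) {I : Type} [Fintype I] (c : I → ℂ)
    (a : I → (ν → X) → ℂ) :
    Pj β j φ (fun l => 𝔼 i, c i * a i l) = fun l => 𝔼 i, c i * Pj β j φ (a i) l := by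
  funext l
  simp only [Pj, W_expect, mul_expect]
  rw [expect_comm]
  exact expect_congr rfl fun i _ => expect_congr rfl fun x _ => by ring

variable [Fintype X]

lemma weyl_ip_mul {α : Type} [Fintype α] (c : ℂ) (a b : α → ℂ) :
    ip a (fun l => c * b l) = c * ip a b := by
  simp only [ip, mul_sum]
  exact sum_congr rfl fun l _ => by ring

lemma weyl_ip_expect {α I : Type} [Fintype α] [Fintype I] (c : I → ℂ) (a : α → ℂ)
    (b : I → α → ℂ) : ip a (fun l => 𝔼 i, c i * b i l) = 𝔼 i, c i * ip a (b i) := by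
  simp only [ip, mul_expect, mul_sum]
  rw [expect_sum_comm]
  exact sum_congr rfl fun l _ => expect_congr rfl fun i _ => by ring

lemma ip_W_W (β : Bil p X) (x : GX X ν) (a b : (ν → X) → ℂ) :
    ip (W β x a) (W β x b) = ip a b := by
  unfold ip
  refine Fintype.sum_equiv (Equiv.addRight x.1) _ _ fun l => ?_
  simp only [W, map_mul, conj_ee, Equiv.coe_addRight]
  rw [mul_mul_mul_comm, ← ee_add, neg_add_cancel, ee_zero, one_mul]

lemma nsq_W (β : Bil p X) (x : GX X ν) (a : (ν → X) → ℂ) : nsq (W β x a) = nsq a := by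
  have h := ip_W_W β x a a
  rw [ip_self, ip_self] at h
  exact_mod_cast h

lemma ip_W (hp : p ≠ 2) (hβ : SymB β) (x : GX X ν) (a b : (ν → X) → ℂ) :
    ip a (W β x b) = ip (W β (-x) a) b := by
  rw [← ip_W_W β (-x) a, W_W hp hβ, neg_add_cancel, W_zero]
  have h : sy β (-x) x = 0 := by
    have := sy_smul_left β (-1) x x
    rwa [neg_one_smul, sy_self hβ, mul_zero] at this
  simp only [h, mul_zero, ee_zero, one_mul]

lemma norm_Xi_le (β : Bil p X) (a : (ν → X) → ℂ) (x : GX X ν) : ‖Xi β a x‖ ≤ nsq a := by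
  have h := norm_ip_le a (W β x a)
  rwa [nsq_W, Real.mul_self_sqrt (nsq_nonneg a)] at h

lemma ip_Pj_eq (φ : Module.Dual (ZMod p) L) (a b : (ν → X) → ℂ) :
    ip b (Pj β j φ a) = 𝔼 x : L, ee (-φ x) * ip b (W β (j x) a) := by
  exact weyl_ip_expect _ b _

lemma ip_Pj (hp : p ≠ 2) (hβ : SymB β) (φ : Module.Dual (ZMod p) L) (a b : (ν → X) → ℂ) :
    ip a (Pj β j φ b) = ip (Pj β j φ a) b := by
  rw [← ip_conj b (Pj β j φ a), ip_Pj_eq, ip_Pj_eq, map_expect]
  refine Fintype.expect_equiv (Equiv.neg L) _ _ fun x => ?_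
  simp only [Equiv.neg_apply, map_mul, map_neg, conj_ee, neg_neg, ip_conj]
  rw [ip_W hp hβ]

lemma nsq_Pj (hp : p ≠ 2) (hβ : SymB β) (hj : ∀ x y, sy β (j x) (j y) = 0)
    (φ : Module.Dual (ZMod p) L) (a : (ν → X) → ℂ) :
    (nsq (Pj β j φ a) : ℂ) = ip a (Pj β j φ a) := by
  rw [← ip_self, ← ip_Pj hp hβ, Pj_Pj hp hβ hj]

lemma sum_nsq_Pj (hp : p ≠ 2) (hβ : SymB β) (hj : ∀ x y, sy β (j x) (j y) = 0)
    (a : (ν → X) → ℂ) : ∑ φ : Module.Dual (ZMod p) L, nsq (Pj β j φ a) = nsq a := by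
  have h : ∑ φ : Module.Dual (ZMod p) L, (nsq (Pj β j φ a) : ℂ) = nsq a := by
    simp only [nsq_Pj hp hβ hj]
    rw [← ip_self]
    unfold ip
    rw [sum_comm]
    exact sum_congr rfl fun l _ => by rw [← mul_sum, sum_Pj]
  exact_mod_cast h

lemma nsq_Pj_le (hp : p ≠ 2) (hβ : SymB β) (hj : ∀ x y, sy β (j x) (j y) = 0)
    (φ : Module.Dual (ZMod p) L) (a : (ν → X) → ℂ) : nsq (Pj β j φ a) ≤ nsq a := by
  rw [← sum_nsq_Pj hp hβ hj a]
  exact single_le_sum (f := fun φ => nsq (Pj β j φ a)) (fun _ _ => nsq_nonneg _) (mem_univ φ)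

/-- a smaller group has a larger projection -/
lemma nsq_Pj_le_comp (hp : p ≠ 2) (hβ : SymB β) (hj : ∀ x y, sy β (j x) (j y) = 0)
    {L' : Type} [AddCommGroup L'] [Module (ZMod p) L'] [Fintype L'] (i : L' →ₗ[ZMod p] L)
    (φ : Module.Dual (ZMod p) L) (a : (ν → X) → ℂ) :
    nsq (Pj β j φ a) ≤ nsq (Pj β (j.comp i) (φ.comp i) a) := by
  have h1 : Pj β (j.comp i) (φ.comp i) (Pj β j φ a) = Pj β j φ a :=
    Pj_of_eigen _ _ fun x => W_Pj hp hβ hj φ a (i x)
  have h2 : (nsq (Pj β j φ a) : ℂ) = ip (Pj β (j.comp i) (φ.comp i) a) (Pj β j φ a) := by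
    rw [nsq_Pj hp hβ hj, ← ip_Pj hp hβ, h1]
  have h3 := norm_ip_sq_le (Pj β (j.comp i) (φ.comp i) a) (Pj β j φ a)
  rw [← h2, Complex.norm_real, Real.norm_eq_abs, sq_abs, sq] at h3
  rcases (nsq_nonneg (Pj β j φ a)).eq_or_lt with h | h
  · rw [← h]; exact nsq_nonneg _
  · exact le_of_mul_le_mul_right h3 h

/-- Parseval along `j` -/
lemma weyl_parseval (a b : (ν → X) → ℂ) : 𝔼 x : L, ‖ip b (W β (j x) a)‖ ^ 2 =
    ∑ φ : Module.Dual (ZMod p) L, ‖ip b (Pj β j φ a)‖ ^ 2 := by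
  rw [parseval_dual_sq (p := p)]
  simp only [ip_Pj_eq]

lemma weyl_shift (hp : p ≠ 2) (hβ : SymB β) (hj : ∀ x y, sy β (j x) (j y) = 0)
    (a b : (ν → X) → ℂ) (z : GX X ν) : 𝔼 x : L, ‖ip b (W β (z + j x) a)‖ ^ 2 ≤
      ∑ φ : Module.Dual (ZMod p) L,
        nsq (Pj β j (φ - (syL β ν z).comp j) b) * nsq (Pj β j φ a) := by
  have h1 : ∀ x, ‖ip b (W β (z + j x) a)‖ = ‖ip (W β (-z) b) (W β (j x) a)‖ := fun x => by
    rw [← ip_W hp hβ, W_W hp hβ, weyl_ip_mul, norm_mul, norm_ee, one_mul]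
  simp only [h1]
  rw [weyl_parseval]
  refine sum_le_sum fun φ _ => ?_
  have h2 : ip (W β (-z) b) (Pj β j φ a) =
      ip (Pj β j (φ - (syL β ν z).comp j) b) (W β z (Pj β j φ a)) := by
    rw [← ip_W hp hβ, ← ip_Pj hp hβ, ← W_Pj_comm hp hβ, Pj_Pj hp hβ hj]
  rw [h2, ← nsq_W β z (Pj β j φ a)]
  exact norm_ip_sq_le _ _

lemma nsq_Pj_sq_le (hp : p ≠ 2) (hβ : SymB β) (hj : ∀ x y, sy β (j x) (j y) = 0)
    (φ : Module.Dual (ZMod p) L) (a : (ν → X) → ℂ) :
    nsq (Pj β j φ a) ^ 2 ≤ 𝔼 x : L, ‖Xi β a (j x)‖ ^ 2 := by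
  unfold Xi
  rw [weyl_parseval]
  have h : nsq (Pj β j φ a) ^ 2 = ‖ip a (Pj β j φ a)‖ ^ 2 := by
    rw [← nsq_Pj hp hβ hj, Complex.norm_real, Real.norm_eq_abs, sq_abs]
  rw [h]
  exact single_le_sum (f := fun φ => ‖ip a (Pj β j φ a)‖ ^ 2) (fun _ _ => by positivity)
    (mem_univ φ)

end Pj

variable [Fintype X] {β : Bil p X}

lemma weyl_sum_hom {H : Type} [AddCommGroup H] [Fintype H] (φ : H →+ ZMod p) (h : φ ≠ 0) :
    ∑ x : H, ee (φ x) = 0 := by
  have h1 := expect_ee_hom φ h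
  rw [Fintype.expect_eq_sum_div_card, div_eq_zero_iff] at h1
  exact h1.resolve_right (by exact_mod_cast Fintype.card_ne_zero)

open Classical in
lemma weyl_sum_bt (hβ : SymB β) (hn : NdB β) (w : ν → X) : ∑ v : ν → X, ee (bt β v w) =
    if w = 0 then (Fintype.card X : ℂ) ^ Fintype.card ν else 0 := by
  split_ifs with h
  · simp [h]
  · refine weyl_sum_hom (AddMonoidHom.mk' (fun v => bt β v w) fun u v => bt_add_left β u v w)
      fun e => h (bt_nd hn w fun v => ?_)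
    rw [bt_comm hβ]
    exact DFunLike.congr_fun e v

theorem moyal (hβ : SymB β) (hn : NdB β) (a b a' b' : (ν → X) → ℂ) :
    ∑ y : GX X ν, ip a (W β y b) * conj (ip a' (W β y b')) =
      (Fintype.card X : ℂ) ^ Fintype.card ν * (ip a a' * ip b' b) := by
  classical
  have h1 : ∀ (u v l l' : ν → X),
      conj (a l) * W β (u, v) b l * conj (conj (a' l') * W β (u, v) b' l') =
        ee (bt β v (l - l')) * (conj (a l) * a' l' * (conj (b' (l' + u)) * b (l + u))) := by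
    intro u v l l'
    have e : ee (bt β v (l - l')) = ee (bt β v l + 2⁻¹ * bt β v u) *
        ee (-(bt β v l' + 2⁻¹ * bt β v u)) := by
      rw [← ee_add, sub_eq_add_neg, bt_add_right, bt_neg_right]
      congr 1
      ring
    simp only [W, map_mul, conj_ee, Complex.conj_conj, e]
    ring
  have h2 : ∀ u : ν → X, ∑ v, ip a (W β (u, v) b) * conj (ip a' (W β (u, v) b')) =
      (Fintype.card X : ℂ) ^ Fintype.card ν *
        ∑ l, conj (a l) * a' l * (conj (b' (l + u)) * b (l + u)) := fun u => by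
    simp only [ip, map_sum, sum_mul_sum, h1]
    rw [sum_comm, mul_sum]
    refine sum_congr rfl fun l _ => ?_
    rw [sum_comm]
    simp only [← sum_mul, weyl_sum_bt hβ hn, sub_eq_zero, ite_mul, zero_mul, sum_ite_eq, mem_univ,
      if_true]
  rw [Fintype.sum_prod_type]
  simp only [h2]
  rw [← mul_sum, sum_comm]
  congr 1
  simp only [← mul_sum]
  unfold ip
  rw [sum_mul]
  refine sum_congr rfl fun l _ => ?_
  congr 1
  exact Fintype.sum_equiv (Equiv.addLeft l) _ _ fun u => rfl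

lemma sum_Xi_sq (hβ : SymB β) (hn : NdB β) (a : (ν → X) → ℂ) :
    ∑ y : GX X ν, ‖Xi β a y‖ ^ 2 = (Fintype.card X : ℝ) ^ Fintype.card ν * nsq a ^ 2 := by
  have h := moyal hβ hn a a a a
  simp only [Complex.mul_conj', ip_self] at h
  have h2 : ∑ y : GX X ν, ((‖Xi β a y‖ : ℂ)) ^ 2 =
      (Fintype.card X : ℂ) ^ Fintype.card ν * (nsq a : ℂ) ^ 2 := by rw [sq (nsq a : ℂ)]; exact h
  exact_mod_cast h2

theorem self_dual (hp : p ≠ 2) (hβ : SymB β) (hn : NdB β) (a : (ν → X) → ℂ) (x : GX X ν) :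
    ∑ y : GX X ν, ((‖Xi β a y‖ ^ 2 : ℝ) : ℂ) * ee (sy β y x) =
      (Fintype.card X : ℂ) ^ Fintype.card ν * ((‖Xi β a x‖ ^ 2 : ℝ) : ℂ) := by
  have h := moyal hβ hn (W β x a) (W β x a) a a
  have h1 : ∀ y, ip (W β x a) (W β y (W β x a)) = ee (sy β y x) * Xi β a y := fun y => by
    rw [W_comm hp hβ y, weyl_ip_mul, ip_W_W, Xi]
  rw [← ip_conj a (W β x a)] at h
  simp only [h1] at h
  simp only [Complex.ofReal_pow, ← Complex.mul_conj']
  rw [mul_comm (Xi β a x)]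
  refine Eq.trans (sum_congr rfl fun y _ => ?_) h
  rw [Xi]; ring

lemma coset_sum_le (hp : p ≠ 2) (hβ : SymB β) (hn : NdB β) (a : (ν → X) → ℂ)
    (H : Submodule (ZMod p) (GX X ν)) (z : GX X ν) :
    ∑ x : H, ‖Xi β a (x.1 + z)‖ ^ 2 ≤ ∑ x : H, ‖Xi β a x.1‖ ^ 2 := by
  classical
  have hD : (0 : ℝ) < (Fintype.card X : ℝ) ^ Fintype.card ν := by
    have : 0 < Fintype.card X := Fintype.card_pos
    positivity
  have h1 : ∀ y : GX X ν, ∃ s : ℝ, 0 ≤ s ∧ ∑ x : H, ee (sy β y x.1) = s := fun y => by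
    by_cases h : (syL β ν y).comp H.subtype = 0
    · refine ⟨Fintype.card H, by positivity, ?_⟩
      have : ∀ x : H, sy β y x.1 = 0 := fun x => DFunLike.congr_fun h x
      simp [this]
    · exact ⟨0, le_rfl, weyl_sum_hom ((syL β ν y).comp H.subtype).toAddMonoidHom fun e =>
        h (LinearMap.ext fun x => DFunLike.congr_fun e x)⟩
  choose s hs0 hs using h1
  have h2 : ∀ z : GX X ν, (((Fintype.card X : ℝ) ^ Fintype.card ν *
      ∑ x : H, ‖Xi β a (x.1 + z)‖ ^ 2 : ℝ) : ℂ) =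
      ∑ y, ((‖Xi β a y‖ ^ 2 * s y : ℝ) : ℂ) * ee (sy β y z) := fun z => by
    rw [Complex.ofReal_mul, Complex.ofReal_sum, mul_sum]
    simp only [Complex.ofReal_pow (Fintype.card X : ℝ), Complex.ofReal_natCast,
      ← self_dual hp hβ hn]
    rw [sum_comm]
    refine sum_congr rfl fun y _ => ?_
    rw [Complex.ofReal_mul, ← hs, mul_sum, sum_mul]
    exact sum_congr rfl fun x _ => by rw [sy_add_right, ee_add, mul_assoc]
  refine le_of_mul_le_mul_left ?_ hD
  have h3 := h2 0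
  have h4 : ∀ y : GX X ν, sy β y 0 = 0 := fun y => (syL β ν y).map_zero
  simp only [add_zero, h4, ee_zero, mul_one, ← Complex.ofReal_sum, Complex.ofReal_inj] at h3
  rw [h3]
  refine (le_abs_self _).trans ?_
  rw [← Real.norm_eq_abs, ← Complex.norm_real, h2]
  refine (norm_sum_le _ _).trans (le_of_eq (sum_congr rfl fun y _ => ?_))
  rw [norm_mul, norm_ee, mul_one, Complex.norm_real, Real.norm_eq_abs,
    abs_of_nonneg (mul_nonneg (by positivity) (hs0 y))]

section CO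
variable {H : Type} [AddCommGroup H] [Module (ZMod p) H] [Fintype H]

lemma weyl_co (hp : p ≠ 2) (hβ : SymB β) (j : H →ₗ[ZMod p] GX X ν) (L : Submodule (ZMod p) H)
    (hL : ∀ x ∈ L, ∀ y ∈ L, sy β (j x) (j y) = 0) (a : (ν → X) → ℂ) :
    ∑ x : H, ‖Xi β a (j x)‖ ^ 2 ≤ ∑ φ : Module.Dual (ZMod p) L,
      (∑ x : H, nsq (Pj β (j.comp L.subtype) (φ - (syL β ν (j x)).comp (j.comp L.subtype)) a)) *
        nsq (Pj β (j.comp L.subtype) φ a) := by
  have h1 : ∑ x : H, ‖Xi β a (j x)‖ ^ 2 =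
      ∑ x : H, 𝔼 y : L, ‖ip a (W β (j x + j.comp L.subtype y) a)‖ ^ 2 := by
    rw [← expect_sum_comm]
    have : ∀ y : L, ∑ x : H, ‖ip a (W β (j x + j.comp L.subtype y) a)‖ ^ 2 =
        ∑ x : H, ‖Xi β a (j x)‖ ^ 2 := fun y =>
      Fintype.sum_equiv (Equiv.addRight y.1) _ _ fun x => by
        simp only [Equiv.coe_addRight, map_add]; rfl
    simp only [this]
    exact (Fintype.expect_const _).symm
  rw [h1]
  refine (sum_le_sum fun x _ => weyl_shift (j := j.comp L.subtype) hp hβ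
    (fun x y => hL _ x.2 _ y.2) a a (j x)).trans (le_of_eq ?_)
  rw [sum_comm]
  simp only [sum_mul]

/-- (CO), first bound -/
theorem CO1 (hp : p ≠ 2) (hβ : SymB β) (j : H →ₗ[ZMod p] GX X ν) (L : Submodule (ZMod p) H)
    (hL : ∀ x ∈ L, ∀ y ∈ L, sy β (j x) (j y) = 0)
    (hmax : ∀ x, (∀ y ∈ L, sy β (j x) (j y) = 0) → x ∈ L) (a : (ν → X) → ℂ) :
    ∑ x : H, ‖Xi β a (j x)‖ ^ 2 ≤ Fintype.card L * nsq a ^ 2 := by
  classical
  have hj : ∀ x y : L, sy β (j.comp L.subtype x) (j.comp L.subtype y) = 0 :=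
    fun x y => hL _ x.2 _ y.2
  refine (weyl_co hp hβ j L hL a).trans ?_
  rw [sq, ← mul_assoc]
  conv_rhs => rw [← sum_nsq_Pj hp hβ hj a, mul_sum]
  refine sum_le_sum fun φ _ => mul_le_mul_of_nonneg_right ?_ (nsq_nonneg _)
  rw [mul_sum, ← sum_fiberwise (s := univ)
    (g := fun x => φ - (syL β ν (j x)).comp (j.comp L.subtype))]
  refine sum_le_sum fun ψ _ => ?_
  rw [sum_congr rfl fun x hx => by rw [(mem_filter.1 hx).2], sum_const, nsmul_eq_mul]
  refine mul_le_mul_of_nonneg_right (Nat.cast_le.2 ?_) (nsq_nonneg _)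
  rcases (univ.filter fun x => φ - (syL β ν (j x)).comp (j.comp L.subtype) = ψ).eq_empty_or_nonempty
    with h | ⟨x0, h⟩
  · rw [h]; exact Nat.zero_le _
  · have key : ∀ x ∈ univ.filter fun x => φ - (syL β ν (j x)).comp (j.comp L.subtype) = ψ,
        x - x0 ∈ L := by
      intro x hx
      refine hmax _ fun y hy => ?_
      have e := DFunLike.congr_fun ((mem_filter.1 hx).2.trans (mem_filter.1 h).2.symm) ⟨y, hy⟩
      simp only [LinearMap.sub_apply, LinearMap.comp_apply, Submodule.subtype_apply,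
        sub_right_inj] at e
      rw [← syL_apply, map_sub, map_sub, LinearMap.sub_apply, e, sub_self]
    rw [← card_univ]
    refine card_le_card_of_injOn (fun x => if h : x - x0 ∈ L then ⟨x - x0, h⟩ else 0)
      (fun _ _ => mem_coe.2 (mem_univ _)) fun x hx x' hx' e => ?_
    simp only [dif_pos (key x hx), dif_pos (key x' hx'), Subtype.mk.injEq, sub_left_inj] at e
    exact e

/-- (CO), second bound -/
theorem CO2 (hp : p ≠ 2) (hβ : SymB β) (j : H →ₗ[ZMod p] GX X ν) (L : Submodule (ZMod p) H)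
    (hL : ∀ x ∈ L, ∀ y ∈ L, sy β (j x) (j y) = 0) (a : (ν → X) → ℂ) (q : ℝ)
    (hq : ∀ φ, nsq (Pj β (j.comp L.subtype) φ a) ≤ q) :
    ∑ x : H, ‖Xi β a (j x)‖ ^ 2 ≤ Fintype.card H * (q * nsq a) := by
  refine (weyl_co hp hβ j L hL a).trans ?_
  rw [← mul_assoc]
  conv_rhs => rw [← sum_nsq_Pj (j := j.comp L.subtype) hp hβ (fun x y => hL _ x.2 _ y.2) a, mul_sum]
  refine sum_le_sum fun φ _ => mul_le_mul_of_nonneg_right ?_ (nsq_nonneg _)
  refine (sum_le_sum fun x _ => hq _).trans (le_of_eq ?_)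
  rw [sum_const, card_univ, nsmul_eq_mul]

end CO

/-- (CO) for a family indexed by `D^ν × D^ν` whose commutator is `± β` on a nondegenerate `D` -/
theorem CO_nd (hp : p ≠ 2) (hβ : SymB β) {Z : Type} [AddCommGroup Z] [Module (ZMod p) Z]
    [Fintype Z] {γ : Bil p Z} (hγ : SymB γ) {D : Submodule (ZMod p) Z} (hD : NdOn γ D)
    (j : pw ν D →ₗ[ZMod p] GX X ν) (c : ZMod p) (hc : c ≠ 0)
    (hj : ∀ x y, sy β (j x) (j y) = c * sy γ x.1 y.1) (a : (ν → X) → ℂ) :
    ∑ x : pw ν D, ‖Xi β a (j x)‖ ^ 2 ≤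
      (Fintype.card D : ℝ) ^ Fintype.card ν * nsq a ^ 2 := by
  classical
  let L : Submodule (ZMod p) (pw ν D) :=
    LinearMap.ker ((LinearMap.snd (ZMod p) _ _).comp (pw ν D).subtype)
  have hm : ∀ x : pw ν D, x ∈ L ↔ x.1.2 = 0 := fun x => Iff.rfl
  refine (CO1 hp hβ j L (fun x hx y hy => ?_) (fun x hx => ?_) a).trans ?_
  · rw [hj, sy, (hm x).1 hx, (hm y).1 hy]
    simp
  · refine (hm x).2 (funext fun i => hD _ ((mem_pw.1 x.2).2 i) fun d hd => ?_)
    have hy : ((Pi.single i d, 0) : GX Z ν) ∈ pw ν D := mem_pw.2 ⟨fun k => by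
      by_cases h : k = i
      · subst h; simpa using hd
      · simp [h], fun k => D.zero_mem⟩
    have h1 := hx ⟨_, hy⟩ ((hm _).2 rfl)
    rw [hj, mul_eq_zero] at h1
    have h2 := h1.resolve_left hc
    simp only [sy, bt_zero_right, zero_sub, neg_eq_zero] at h2
    rw [bt, sum_eq_single i (fun k _ h => by simp [h]) (by simp)] at h2
    simpa using h2
  · refine mul_le_mul_of_nonneg_right ?_ (sq_nonneg _)
    have h1 : Fintype.card L ≤ Fintype.card (ν → D) := Fintype.card_le_of_injective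
      (fun x i => ⟨x.1.1.1 i, (mem_pw.1 x.1.2).1 i⟩) fun x y e => Subtype.ext (Subtype.ext
        (Prod.ext (funext fun i => congrArg Subtype.val (congrFun e i))
          (((hm _).1 x.2).trans ((hm _).1 y.2).symm)))
    rw [Fintype.card_fun] at h1
    exact_mod_cast h1

end Pool.Agent.Work.MP_4523ee_co.Fp
end

-- merged part: Pool.Agent.Work.MP_4523ee_co.Fp.Prim
section
/-!
Primitive vectors: inheritance, conjugation, PUR, product test (paper sections 1 and 8).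
-/

set_option autoImplicit false
set_option linter.unusedSectionVars false

namespace Pool.Agent.Work.MP_4523ee_co.Fp

open Finset Matrix
open scoped BigOperators ComplexConjugate

variable {p : ℕ} [Fact p.Prime]

variable {X : Type} [AddCommGroup X] [Module (ZMod p) X] [Fintype X]
variable {ν ν' : Type} [Fintype ν] [DecidableEq ν] [Fintype ν'] [DecidableEq ν'] {β : Bil p X}

lemma GG.mono {θ θ' : ℝ} (h : θ ≤ θ') {a : (ν → X) → ℂ} (ha : GG β θ a) : GG β θ' a := by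
  exact fun N h1 h2 φ => (ha N h1 h2 φ).trans h

lemma Prim.mono {θ θ' : ℝ} (h0 : 0 ≤ θ) (h : θ ≤ θ') {a : (ν → X) → ℂ} (ha : Prim β θ a) :
    Prim β θ' a := by
  exact ⟨ha.1, ha.2.1.mono h, fun D h1 h2 h3 => (ha.2.2.1 D h1 h2 h3).trans
    (mul_le_mul_of_nonneg_right (pow_le_pow_left₀ h0 h 2) (by positivity)),
    ha.2.2.2.trans (mul_le_mul_of_nonneg_right h (by positivity))⟩

lemma GG.avg (hp : p ≠ 2) (hβ : SymB β) {θ : ℝ} {a : (ν → X) → ℂ} (ha : GG β θ a) {I : Type}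
    [Fintype I] [Nonempty I] (c : I → ℂ) (hc : ∀ i, ‖c i‖ ≤ 1) (y : I → GX X ν) :
    GG β θ fun l => 𝔼 i, c i * W β (y i) a l := by
  intro N h1 h2 φ
  rw [Pj_expect]
  refine (mul_le_mul_of_nonneg_left (nsq_expect_le c hc _) (by positivity)).trans ?_
  rw [Finset.mul_expect]
  refine expect_le univ_nonempty fun i _ => ?_
  have k := W_Pj_comm hp hβ (j := (pw ν N).subtype)
    (φ + (syL β ν (y i)).comp (pw ν N).subtype) a (y i)
  rw [add_sub_cancel_right] at k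
  rw [← k, nsq_W]
  exact ha N h1 h2 _

lemma prim_ip_smul {α : Type} [Fintype α] (a b : α → ℂ) (c : ℂ) :
    ip a (fun l => c * b l) = c * ip a b := by
  simp only [ip, mul_sum]
  exact sum_congr rfl fun l _ => by ring

lemma prim_ip_comm {α : Type} [Fintype α] (a b : α → ℂ) : ‖ip a b‖ = ‖ip b a‖ := by
  rw [← ip_conj, RCLike.norm_conj]

lemma prim_ip_avg {α I : Type} [Fintype α] [Fintype I] (c : I → ℂ) (hc : ∀ i, ‖c i‖ ≤ 1)
    (b : α → ℂ) (f : I → α → ℂ) : ‖ip b fun l => 𝔼 i, c i * f i l‖ ≤ 𝔼 i, ‖ip b (f i)‖ := by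
  have e : (ip b fun l => 𝔼 i, c i * f i l) = 𝔼 i, c i * ip b (f i) := by
    simp only [← prim_ip_smul]
    simp only [ip, Finset.mul_expect, expect_sum_comm]
  rw [e]
  refine (RCLike.norm_expect_le (K := ℂ)).trans (expect_le_expect fun i _ => ?_)
  rw [norm_mul]
  exact mul_le_of_le_one_left (norm_nonneg _) (hc i)

lemma prim_jensen {I : Type} [Fintype I] [Nonempty I] (f : I → ℝ) :
    (𝔼 i, f i) ^ 2 ≤ 𝔼 i, f i ^ 2 := by
  simpa using expect_mul_sq_le_sq_mul_sq univ f fun _ => 1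

lemma prim_Xi_avg (hp : p ≠ 2) (hβ : SymB β) (a : (ν → X) → ℂ) {I : Type} [Fintype I]
    (c : I → ℂ) (hc : ∀ i, ‖c i‖ ≤ 1) (y : I → GX X ν) (x : GX X ν) :
    ‖Xi β (fun l => 𝔼 i, c i * W β (y i) a l) x‖ ≤
      𝔼 q : I × I, ‖Xi β a (x + (y q.1 - y q.2))‖ := by
  rw [Xi, W_expect, ← univ_product_univ, expect_product]
  refine (prim_ip_avg c hc _ _).trans (expect_le_expect fun k _ => ?_)
  rw [prim_ip_comm]
  refine (prim_ip_avg c hc _ _).trans (expect_le_expect fun i _ => le_of_eq ?_)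
  have e := ip_W hp hβ (-y i) a (W β x (W β (y k) a))
  rw [neg_neg] at e
  rw [prim_ip_comm, ← e, W_W hp hβ x, W_smul, W_W hp hβ, prim_ip_smul, prim_ip_smul, norm_mul,
    norm_mul, norm_ee, norm_ee, one_mul, one_mul, Xi]
  congr 3
  abel

lemma Prim.avg (hp : p ≠ 2) (hβ : SymB β) (hn : NdB β) {θ : ℝ} {a : (ν → X) → ℂ}
    (ha : Prim β θ a) {I : Type} [Fintype I] [Nonempty I] (c : I → ℂ) (hc : ∀ i, ‖c i‖ ≤ 1)
    (y : I → GX X ν) : Prim β θ fun l => 𝔼 i, c i * W β (y i) a l := by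
  have h2 : ∀ x, ‖Xi β (fun l => 𝔼 i, c i * W β (y i) a l) x‖ ^ 2 ≤
      𝔼 q : I × I, ‖Xi β a (x + (y q.1 - y q.2))‖ ^ 2 := fun x =>
    (pow_le_pow_left₀ (norm_nonneg _) (prim_Xi_avg hp hβ a c hc y x) 2).trans (prim_jensen _)
  refine ⟨(nsq_expect_le c hc _).trans (expect_le univ_nonempty fun i _ => ?_),
    ha.2.1.avg hp hβ c hc y, fun D h1 h3 h4 => ?_, ?_⟩
  · rw [nsq_W]
    exact ha.1
  · refine (sum_le_sum fun x _ => h2 x.1).trans ?_
    rw [← expect_sum_comm]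
    exact expect_le univ_nonempty fun q _ =>
      (coset_sum_le hp hβ hn a _ _).trans (ha.2.2.1 D h1 h3 h4)
  · have h4 : ∀ x, ‖Xi β (fun l => 𝔼 i, c i * W β (y i) a l) x‖ ^ 4 ≤
        𝔼 q : I × I, ‖Xi β a (x + (y q.1 - y q.2))‖ ^ 4 := fun x => by
      have := (pow_le_pow_left₀ (sq_nonneg _) (h2 x) 2).trans (prim_jensen _)
      simpa only [← pow_mul] using this
    refine (sum_le_sum fun x _ => h4 x).trans ?_
    rw [← expect_sum_comm]
    refine expect_le univ_nonempty fun q _ => le_trans (le_of_eq ?_) ha.2.2.2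
    exact Equiv.sum_comp (Equiv.addRight (y q.1 - y q.2)) fun x => ‖Xi β a x‖ ^ 4

lemma cut_eq_avg (hβ : SymB β) (hn : NdB β) (U : Matrix ν' ν (ZMod p)) (s : ν' → X)
    (a : (ν → X) → ℂ) :
    cut U s a = fun l => 𝔼 w : ν' → X, ee (-bt β w s) * W β (0, act Uᵀ w) a l := by
  funext l
  have e : ∀ w : ν' → X, ee (-bt β w s) * W β (0, act Uᵀ w) a l =
      ee (bt β w (act U l - s)) * a l := fun w => by
    rw [W, bt_zero_right, mul_zero, add_zero, add_zero, bt_act, transpose_transpose, ← mul_assoc,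
      ← ee_add, sub_eq_add_neg, bt_add_right, bt_neg_right, add_comm]
  simp only [e]
  rw [← Finset.expect_mul, cut]
  by_cases h : act U l = s
  · simp [h]
  · rw [if_neg h]
    have k := expect_ee_hom (AddMonoidHom.mk' (fun w : ν' → X => bt β w (act U l - s))
      fun u v => bt_add_left β u v _) fun k => h (sub_eq_zero.1 (bt_nd hn _ fun v => by
        rw [bt_comm hβ]
        exact DFunLike.congr_fun k v))
    rw [show (𝔼 w : ν' → X, ee (bt β w (act U l - s))) = 0 from k, zero_mul]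

lemma GG.cut (hp : p ≠ 2) (hβ : SymB β) (hn : NdB β) {θ : ℝ} {a : (ν → X) → ℂ} (ha : GG β θ a)
    (U : Matrix ν' ν (ZMod p)) (s : ν' → X) : GG β θ (cut U s a) := by
  rw [cut_eq_avg hβ hn]
  exact ha.avg hp hβ _ (fun _ => (norm_ee _).le) _

lemma Prim.cut (hp : p ≠ 2) (hβ : SymB β) (hn : NdB β) {θ : ℝ} {a : (ν → X) → ℂ}
    (ha : Prim β θ a) (U : Matrix ν' ν (ZMod p)) (s : ν' → X) : Prim β θ (cut U s a) := by
  rw [cut_eq_avg hβ hn]
  exact ha.avg hp hβ hn _ (fun _ => (norm_ee _).le) _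

lemma prim_nsq_conj {α : Type} [Fintype α] (a : α → ℂ) : nsq (fun l => conj (a l)) = nsq a := by
  simp only [nsq, RCLike.norm_conj]

lemma prim_Xi_conj (a : (ν → X) → ℂ) (x : GX X ν) :
    ‖Xi (-β) (fun l => conj (a l)) x‖ = ‖Xi β a x‖ := by
  rw [Xi, W_neg_conj, Xi, ← RCLike.norm_conj (ip a _)]
  simp only [ip, map_sum, map_mul]

lemma GG.conj {θ : ℝ} {a : (ν → X) → ℂ} (ha : GG β θ a) : GG (-β) θ fun l => conj (a l) := by
  intro N h1 h2 φ
  have e : (Pj (-β) (pw ν N).subtype φ fun l => conj (a l)) =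
      fun l => conj (Pj β (pw ν N).subtype (-φ) a l) := by
    funext l
    simp only [Pj, W_neg_conj, expect_eq_sum_div_card, map_div₀, map_sum, map_mul, conj_ee,
      map_natCast, LinearMap.neg_apply, neg_neg]
  rw [e, prim_nsq_conj]
  exact ha N h1 (fun x hx y hy => neg_eq_zero.1 (h2 x hx y hy)) _

lemma Prim.conj {θ : ℝ} {a : (ν → X) → ℂ} (ha : Prim β θ a) :
    Prim (-β) θ fun l => conj (a l) := by
  refine ⟨(prim_nsq_conj a).trans_le ha.1, ha.2.1.conj, fun D h1 h2 h3 => ?_, ?_⟩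
  · simp only [prim_Xi_conj]
    exact ha.2.2.1 D h1 h2 fun x hx k => h3 x hx fun y hy => neg_eq_zero.2 (k y hy)
  · simp only [PP, prim_Xi_conj]
    exact ha.2.2.2

/-- every subspace is its radical plus a nondegenerate complement -/
lemma exists_rad_compl (hβ : SymB β) (D : Submodule (ZMod p) X) :
    ∃ N D₁ : Submodule (ZMod p) X, N ⊔ D₁ = D ∧ N ⊓ D₁ = ⊥ ∧ (∀ x ∈ N, ∀ y ∈ D, β x y = 0) ∧
      NdOn β D₁ ∧ (N = ⊥ ↔ NdOn β D) := by
  let N := D ⊓ LinearMap.BilinForm.orthogonal β D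
  have hN : ∀ x, x ∈ N ↔ x ∈ D ∧ ∀ y ∈ D, β x y = 0 := fun x =>
    and_congr_right fun _ => forall₂_congr fun y _ => by rw [hβ x y]
  obtain ⟨C, hC⟩ := N.exists_isCompl
  have h1 : N ⊔ C ⊓ D = D := by
    rw [← sup_inf_assoc_of_le _ (inf_le_left : N ≤ D), hC.sup_eq_top, top_inf_eq]
  have h2 : N ⊓ (C ⊓ D) = ⊥ := by rw [← inf_assoc, hC.inf_eq_bot, bot_inf_eq]
  refine ⟨N, C ⊓ D, h1, h2, fun x hx => ((hN x).1 hx).2, fun x hx k => ?_, ?_, fun k => ?_⟩
  · refine (Submodule.eq_bot_iff _).1 h2 x ⟨(hN x).2 ⟨hx.2, fun y hy => ?_⟩, hx⟩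
    obtain ⟨u, hu, v, hv, rfl⟩ := Submodule.mem_sup.1 (h1.ge hy)
    rw [map_add, k v hv, hβ, ((hN u).1 hu).2 x hx.2, add_zero]
  · exact fun k x hx k' => (Submodule.eq_bot_iff _).1 k x ((hN x).2 ⟨hx, k'⟩)
  · exact (Submodule.eq_bot_iff _).2 fun x hx => k x ((hN x).1 hx).1 ((hN x).1 hx).2

lemma prim_sum_le {A B : Type} [Fintype A] [Fintype B] (f : B → A) (hf : Function.Surjective f)
    (g : A → ℝ) (hg : ∀ a, 0 ≤ g a) : ∑ a, g a ≤ ∑ b, g (f b) := by
  calc ∑ a, g a = ∑ b ∈ univ.map ⟨_, Function.injective_surjInv hf⟩, g (f b) := by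
        simp only [sum_map, Function.Embedding.coeFn_mk, Function.surjInv_eq]
    _ ≤ _ := sum_le_sum_of_subset_of_nonneg (subset_univ _) fun b _ _ => hg _

theorem PUR (hp : p ≠ 2) (hβ : SymB β) {a : (ν → X) → ℂ} (ha : nsq a ≤ 1) (hG : GG β 1 a)
    (E : Submodule (ZMod p) X) :
    ∑ x : pw ν E, ‖Xi β a x.1‖ ^ 2 ≤ (Fintype.card E : ℝ) ^ Fintype.card ν := by
  obtain ⟨N, D, h1, h2, h3, h4, -⟩ := exists_rad_compl hβ E
  have hN : N ≤ E := h1 ▸ le_sup_left
  have hD : D ≤ E := h1 ▸ le_sup_right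
  have hI : Iso β N := fun x hx y hy => h3 x hx y (hN hy)
  have hj := sy_pw_of_iso (ν := ν) hI
  have hs : ∀ (x : pw ν D) (y : pw ν N), sy β x.1 y.1 = 0 := fun x y => by
    have a1 := mem_pw.1 x.2
    have a2 := mem_pw.1 y.2
    rw [sy, bt, bt, sum_eq_zero, sum_eq_zero, sub_zero]
    · exact fun i _ => (hβ _ _).trans (h3 _ (a2.1 i) _ (hD (a1.2 i)))
    · exact fun i _ => (hβ _ _).trans (h3 _ (a2.2 i) _ (hD (a1.1 i)))
  let f : pw ν D × pw ν N → pw ν E := fun q => ⟨q.1.1 + q.2.1, mem_pw.2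
    ⟨fun i => E.add_mem (hD ((mem_pw.1 q.1.2).1 i)) (hN ((mem_pw.1 q.2.2).1 i)),
      fun i => E.add_mem (hD ((mem_pw.1 q.1.2).2 i)) (hN ((mem_pw.1 q.2.2).2 i))⟩⟩
  have hf : Function.Surjective f := fun x => by
    choose u hu v hv e using fun i => Submodule.mem_sup.1 (h1.ge ((mem_pw.1 x.2).1 i))
    choose u' hu' v' hv' e' using fun i => Submodule.mem_sup.1 (h1.ge ((mem_pw.1 x.2).2 i))
    exact ⟨(⟨(v, v'), mem_pw.2 ⟨hv, hv'⟩⟩, ⟨(u, u'), mem_pw.2 ⟨hu, hu'⟩⟩), Subtype.ext (Prod.ext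
      (funext fun i => (add_comm _ _).trans (e i)) (funext fun i => (add_comm _ _).trans (e' i)))⟩
  have hc : (Fintype.card N : ℝ) * Fintype.card D ≤ Fintype.card E := by
    have := Fintype.card_le_of_injective
      (fun q : N × D => (⟨q.1.1 + q.2.1, E.add_mem (hN q.1.2) (hD q.2.2)⟩ : E)) fun q q' e => by
        have e1 : q.1.1 + q.2.1 = q'.1.1 + q'.2.1 := congrArg Subtype.val e
        have e2 : q.1.1 - q'.1.1 = q'.2.1 - q.2.1 := by
          rw [sub_eq_sub_iff_add_eq_add, e1, add_comm]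
        have e3 := (Submodule.eq_bot_iff _).1 h2 _
          ⟨N.sub_mem q.1.2 q'.1.2, e2 ▸ D.sub_mem q'.2.2 q.2.2⟩
        exact Prod.ext (Subtype.ext (sub_eq_zero.1 e3))
          (Subtype.ext (sub_eq_zero.1 (e2 ▸ e3)).symm)
    rw [Fintype.card_prod] at this
    exact_mod_cast this
  have hq : ∀ φ, (Fintype.card N : ℝ) ^ Fintype.card ν * nsq (Pj β (pw ν N).subtype φ a) ≤ 1 :=
    fun φ => by
      by_cases k : N = ⊥
      · have : Fintype.card N = 1 := by
          rw [Fintype.card_eq_one_iff]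
          exact ⟨0, fun y => Subtype.ext ((Submodule.eq_bot_iff _).1 k y.1 y.2)⟩
        rw [this, Nat.cast_one, one_pow, one_mul]
        exact (nsq_Pj_le hp hβ hj φ a).trans ha
      · exact hG N k hI φ
  have key : ∀ x : pw ν D, ∑ y : pw ν N, ‖Xi β a (x.1 + y.1)‖ ^ 2 = Fintype.card (pw ν N) *
      ∑ φ : Module.Dual (ZMod p) (pw ν N), ‖Xi β (Pj β (pw ν N).subtype φ a) x.1‖ ^ 2 := by
    intro x
    have k := parseval_dual_sq (p := p) fun y : pw ν N => ip (W β (-x.1) a) (W β y.1 a)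
    have e1 : ∀ y : pw ν N, ‖ip (W β (-x.1) a) (W β y.1 a)‖ = ‖Xi β a (x.1 + y.1)‖ := fun y => by
      rw [← ip_W hp hβ, W_W hp hβ, prim_ip_smul, norm_mul, norm_ee, one_mul, Xi]
    have e2 : ∀ φ : Module.Dual (ZMod p) (pw ν N),
        𝔼 y : pw ν N, ee (-φ y) * ip (W β (-x.1) a) (W β y.1 a) =
          Xi β (Pj β (pw ν N).subtype φ a) x.1 := fun φ => by
      have k2 := W_Pj_comm hp hβ (j := (pw ν N).subtype) φ (Pj β (pw ν N).subtype φ a) x.1
      rw [show (syL β ν x.1).comp (pw ν N).subtype = 0 from LinearMap.ext (hs x), sub_zero,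
        Pj_Pj hp hβ hj] at k2
      rw [Xi, ← ip_Pj hp hβ, ← k2, ip_W hp hβ, ip_Pj_eq]
      rfl
    simp only [e1, e2] at k
    rw [← k, Fintype.expect_eq_sum_div_card, mul_div_cancel₀]
    exact_mod_cast Fintype.card_ne_zero
  refine (prim_sum_le f hf _ fun _ => sq_nonneg _).trans ?_
  rw [Fintype.sum_prod_type]
  simp only [f, key]
  rw [← mul_sum, sum_comm, card_pw]
  have b1 : ∀ φ : Module.Dual (ZMod p) (pw ν N), (Fintype.card N : ℝ) ^ Fintype.card ν *
      ∑ x : pw ν D, ‖Xi β (Pj β (pw ν N).subtype φ a) x.1‖ ^ 2 ≤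
      (Fintype.card D : ℝ) ^ Fintype.card ν * nsq (Pj β (pw ν N).subtype φ a) := fun φ => by
    refine (mul_le_mul_of_nonneg_left (CO_nd hp hβ hβ h4 (pw ν D).subtype 1 one_ne_zero
      (fun x y => (one_mul _).symm) _) (by positivity)).trans ?_
    rw [mul_left_comm, sq, ← mul_assoc ((Fintype.card N : ℝ) ^ _)]
    exact mul_le_mul_of_nonneg_left (mul_le_of_le_one_left (nsq_nonneg _) (hq φ)) (by positivity)
  have b2 := sum_le_sum fun φ (_ : φ ∈ univ) => b1 φ
  rw [← mul_sum, ← mul_sum, sum_nsq_Pj hp hβ hj] at b2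
  push_cast
  rw [mul_assoc]
  refine (mul_le_mul_of_nonneg_left (b2.trans (mul_le_of_le_one_right (by positivity) ha))
    (by positivity)).trans ?_
  rw [← mul_pow]
  exact pow_le_pow_left₀ (by positivity) hc _

/-- `u` is a product across `D` and `D'` -/
def IsProd (D D' : Submodule (ZMod p) X) (u : (ν → X) → ℂ) : Prop :=
  ∃ g h : (ν → X) → ℂ, ∀ x m : ν → X, (∀ i, x i ∈ D) → (∀ i, m i ∈ D') → u (x + m) = g x * h m

/-- orthogonal complement of a nondegenerate subspace -/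
lemma exists_orth (hβ : SymB β) (hn : NdB β) {D : Submodule (ZMod p) X} (hD : NdOn β D) :
    ∃ D' : Submodule (ZMod p) X, IsCompl D D' ∧ (∀ x ∈ D, ∀ y ∈ D', β x y = 0) ∧ NdOn β D' := by
  have hC : IsCompl D (LinearMap.BilinForm.orthogonal β D) :=
    LinearMap.BilinForm.isCompl_orthogonal_of_restrict_nondegenerate
      (fun x y h => (hβ y x).trans h)
      ⟨fun x h => Subtype.ext (hD x.1 x.2 fun y hy => h ⟨y, hy⟩),
        fun x h => Subtype.ext (hD x.1 x.2 fun y hy => (hβ _ _).trans (h ⟨y, hy⟩))⟩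
  refine ⟨_, hC, fun x hx y hy => hy x hx, fun x hx k => hn x fun y => ?_⟩
  obtain ⟨u, hu, v, hv, rfl⟩ := Submodule.mem_sup.1 (hC.sup_eq_top.ge (Submodule.mem_top (x := y)))
  rw [map_add, k v hv, hβ, hx u hu, add_zero]

/-- small overlap with all product vectors gives small purity -/
theorem SS_of_test (hβ : SymB β) (hn : NdB β) {θ : ℝ} (hθ : 0 ≤ θ) {a : (ν → X) → ℂ}
    (ha : nsq a ≤ 1)
    (h : ∀ D D' : Submodule (ZMod p) X, D ≠ ⊥ → D ≠ ⊤ → NdOn β D → NdOn β D' → IsCompl D D' →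
      (∀ x ∈ D, ∀ y ∈ D', β x y = 0) → ∀ u, IsProd D D' u → ‖ip u a‖ ≤ θ * √(nsq u)) :
    SS β θ a := by
  intro D h1 h2 h3
  obtain ⟨D', hC, ho, h4⟩ := exists_orth hβ hn h3
  let e := Submodule.prodEquivOfIsCompl D D' hC
  let Φ : (ν → D') × (ν → D) ≃ (ν → X) :=
    ⟨fun q i => e (q.2 i, q.1 i), fun l => (fun i => (e.symm (l i)).2, fun i => (e.symm (l i)).1),
      fun q => by simp only [LinearEquiv.symm_apply_apply], fun l => by
        simp only [Prod.mk.eta, LinearEquiv.apply_symm_apply]⟩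
  have hΦ : ∀ q i, Φ q i = (q.2 i).1 + (q.1 i).1 := fun q i => rfl
  let A : (ν → D') → (ν → D) → ℂ := fun m x => a (Φ (m, x))
  let γ : Bil p D := β.compl₁₂ D.subtype D.subtype
  have hγ : SymB γ := fun x y => hβ x.1 y.1
  have hγ' : NdB γ := fun x k => Subtype.ext (h3 x.1 x.2 fun y hy => k ⟨y, hy⟩)
  let f : GX D ν → pw ν D := fun z => ⟨(fun i => (z.1 i).1, fun i => (z.2 i).1),
    mem_pw.2 ⟨fun i => (z.1 i).2, fun i => (z.2 i).2⟩⟩
  have hf : Function.Surjective f := fun x =>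
    ⟨(fun i => ⟨_, (mem_pw.1 x.2).1 i⟩, fun i => ⟨_, (mem_pw.1 x.2).2 i⟩), rfl⟩
  have e1 : ∀ z, Xi β a (f z).1 = ∑ m, ip (A m) (W γ z (A m)) := fun z => by
    rw [Xi, ip, ← Φ.sum_comp, Fintype.sum_prod_type]
    refine sum_congr rfl fun m _ => sum_congr rfl fun x _ => ?_
    have a1 : bt β (f z).1.2 (Φ (m, x)) = bt γ z.2 x := sum_congr rfl fun i _ => by
      rw [hΦ, map_add, ho _ (z.2 i).2 _ (m i).2, add_zero]
      rfl
    have a2 : Φ (m, x) + (f z).1.1 = Φ (m, x + z.1) := funext fun i => by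
      rw [Pi.add_apply, hΦ, hΦ, add_right_comm]
      rfl
    rw [W, W, a1, a2]
    rfl
  have e2 : ∑ z : GX D ν, ‖Xi β a (f z).1‖ ^ 2 = (Fintype.card D : ℝ) ^ Fintype.card ν *
      ∑ m, ∑ m', ‖ip (A m) (A m')‖ ^ 2 := by
    apply Complex.ofReal_injective
    push_cast
    simp only [← Complex.mul_conj', e1, map_sum, sum_mul_sum]
    rw [sum_comm, mul_sum]
    refine sum_congr rfl fun m _ => ?_
    rw [sum_comm, mul_sum]
    refine sum_congr rfl fun m' _ => ?_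
    rw [moyal hγ hγ', ip_conj]
  have e3 : ∀ g : (ν → D) → ℂ, ∑ m, ‖ip g (A m)‖ ^ 2 ≤ θ ^ 2 * nsq g := fun g => by
    have k := h D D' h1 h2 h3 h4 hC ho (fun l => g (Φ.symm l).2 * ip g (A (Φ.symm l).1))
      ⟨fun l => g (Φ.symm l).2, fun l => ip g (A (Φ.symm l).1), fun x m hx hm => by
        have b1 : (Φ.symm (x + m)).2 = (Φ.symm x).2 := funext fun i => by
          change (e.symm (x i + m i)).1 = (e.symm (x i)).1
          rw [map_add, Prod.fst_add,
            (Submodule.prodEquivOfIsCompl_symm_apply_fst_eq_zero D D' hC).2 (hm i), add_zero]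
        have b2 : (Φ.symm (x + m)).1 = (Φ.symm m).1 := funext fun i => by
          change (e.symm (x i + m i)).2 = (e.symm (m i)).2
          rw [map_add, Prod.snd_add,
            (Submodule.prodEquivOfIsCompl_symm_apply_snd_eq_zero D D' hC).2 (hx i), zero_add]
        simp only [b1, b2]⟩
    have c1 : ip (fun l => g (Φ.symm l).2 * ip g (A (Φ.symm l).1)) a =
        ((∑ m, ‖ip g (A m)‖ ^ 2 : ℝ) : ℂ) := by
      rw [ip, ← Φ.sum_comp, Fintype.sum_prod_type]
      push_cast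
      refine sum_congr rfl fun m _ => ?_
      rw [← Complex.mul_conj']
      simp only [Equiv.symm_apply_apply, map_mul, mul_right_comm _ (conj (ip g (A m)))]
      rw [← sum_mul]
      rfl
    have c2 : nsq (fun l => g (Φ.symm l).2 * ip g (A (Φ.symm l).1)) =
        nsq g * ∑ m, ‖ip g (A m)‖ ^ 2 := by
      rw [nsq, ← Φ.sum_comp, Fintype.sum_prod_type, mul_sum]
      refine sum_congr rfl fun m _ => ?_
      simp only [Equiv.symm_apply_apply, norm_mul, mul_pow]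
      rw [← sum_mul, nsq]
    have S0 : 0 ≤ ∑ m, ‖ip g (A m)‖ ^ 2 := by positivity
    rw [c1, c2, Complex.norm_real, Real.norm_of_nonneg S0] at k
    have k2 := pow_le_pow_left₀ S0 k 2
    rw [mul_pow, Real.sq_sqrt (mul_nonneg (nsq_nonneg g) S0), sq, ← mul_assoc] at k2
    rcases S0.eq_or_lt with k3 | k3
    · rw [← k3]
      exact mul_nonneg (sq_nonneg _) (nsq_nonneg g)
    · exact le_of_mul_le_mul_right k2 k3
  refine (prim_sum_le f hf _ fun _ => sq_nonneg _).trans ?_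
  rw [e2, mul_comm]
  refine mul_le_mul_of_nonneg_right ((sum_le_sum fun m _ => e3 (A m)).trans ?_) (by positivity)
  rw [← mul_sum]
  refine mul_le_of_le_one_right (sq_nonneg _) (le_trans (le_of_eq ?_) ha)
  rw [nsq, ← Φ.sum_comp, Fintype.sum_prod_type]
  rfl

end Pool.Agent.Work.MP_4523ee_co.Fp
end

-- merged part: Pool.Agent.Work.MP_4523ee_co.Fp.PrS
section
/-!
Test (S) of paper section 8: product vectors.
-/

set_option autoImplicit false
set_option linter.unusedSectionVars false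

namespace Pool.Agent.Work.MP_4523ee_co.Fp

open Finset Matrix
open scoped BigOperators ComplexConjugate

variable {p : ℕ} [Fact p.Prime]

/-- apply the bound for the spaces `D` and `D' × X₂` -/
theorem TS (hp : p ≠ 2) {r r₁ : ℕ} (hB : ∀ u, 1 ≤ u → u < r₁ → ∀ c : ℝ, 0 < c → Bnd p r u c)
    (ε : ℝ) (hε : 0 < ε) :
    Ev p fun ν _ _ A => Data p r r₁ ν fun X₁ X₂ _ _ _ _ _ _ β₁ β₂ e κ =>
        ∀ D D' : Submodule (ZMod p) X₁, D ≠ ⊥ → D ≠ ⊤ → NdOn β₁ D → NdOn β₁ D' → IsCompl D D' →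
          (∀ x ∈ D, ∀ y ∈ D', β₁ x y = 0) → ∀ u : (ν → X₁) → ℂ, IsProd D D' u →
          ∀ a₂ : (ν → X₂) → ℂ, OnSl κ (fun i => (e i).2) a₂ →
          ‖𝔼 M, fA A M * (FF β₁ (cut κ (fun i => (e i).1) u) M * FF β₂ a₂ M)‖ ≤
            ε * (√(nsq u) * √(nsq a₂)) := by
  refine (Ev.all (Finset.Ico 1 r₁) (fun u hu => hB u (mem_Ico.1 hu).1 (mem_Ico.1 hu).2 ε hε)).mono
    fun ν _ _ A hA X₁ X₂ _ _ _ _ _ _ β₁ β₂ e κ s1 n1 s2 n2 hr1 hr he D D' hb ht nD nD' hC ho u hu
      a₂ ha₂ => ?_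
  obtain ⟨g, h, hu⟩ := hu
  let T := Submodule.prodEquivOfIsCompl D D' hC
  have hTa : ∀ x : D × D', T x = (x.1 : X₁) + (x.2 : X₁) := fun x =>
    Submodule.coe_prodEquivOfIsCompl' D D' hC x
  let βD : Bil p D := β₁.compl₁₂ D.subtype D.subtype
  let βE : Bil p D' := β₁.compl₁₂ D'.subtype D'.subtype
  have hT : ∀ x y : D × D', bp βD βE x y = β₁ (T x) (T y) := by
    intro x y
    rw [bp_apply, hTa, hTa]
    simp only [map_add, LinearMap.add_apply]
    rw [ho _ x.1.2 _ y.2.2, s1 (x.2 : X₁) (y.1 : X₁), ho _ y.1.2 _ x.2.2, add_zero, zero_add]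
    rfl
  let eD : Fin r → D := fun i => (T.symm (e i).1).1
  let eE : Fin r → D' := fun i => (T.symm (e i).1).2
  let a : (ν → D) → ℂ := cut κ eD fun x => g fun i => (x i : X₁)
  let b : (ν → D') → ℂ := cut κ eE fun x => h fun i => (x i : X₁)
  have hab : (fun l : ν → D × D' => cut κ (fun i => (e i).1) u fun i => T (l i)) = tp a b := by
    funext l
    have h1 : (act κ fun i => T (l i)) = fun j => T (act κ l j) := by
      funext j
      simp only [act, map_sum, map_smul]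
    have h2 : ((act κ fun i => T (l i)) = fun i => (e i).1) ↔
        (act κ (fun i => (l i).1) = eD ∧ act κ (fun i => (l i).2) = eE) := by
      rw [h1]
      constructor
      · intro h3
        have h4 : ∀ j, act κ l j = T.symm (e j).1 := fun j => by
          rw [← congrFun h3 j, LinearEquiv.symm_apply_apply]
        refine ⟨funext fun j => ?_, funext fun j => ?_⟩
        · show _ = (T.symm (e j).1).1
          rw [← h4]
          simp only [act, Prod.fst_sum, Prod.smul_fst]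
        · show _ = (T.symm (e j).1).2
          rw [← h4]
          simp only [act, Prod.snd_sum, Prod.smul_snd]
      · rintro ⟨h3, h4⟩
        funext j
        have h5 : act κ l j = T.symm (e j).1 := by
          refine Prod.ext ?_ ?_
          · refine Eq.trans ?_ (congrFun h3 j)
            simp only [act, Prod.fst_sum, Prod.smul_fst]
          · refine Eq.trans ?_ (congrFun h4 j)
            simp only [act, Prod.snd_sum, Prod.smul_snd]
        rw [h5, LinearEquiv.apply_symm_apply]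
    have h6 : (u fun i => T (l i)) = g (fun i => ((l i).1 : X₁)) * h fun i => ((l i).2 : X₁) := by
      rw [← hu _ _ (fun i => (l i).1.2) fun i => (l i).2.2]
      exact congrArg u (funext fun i => hTa _)
    simp only [tp, a, b, cut]
    by_cases h7 : act κ (fun i => (l i).1) = eD
    · by_cases h8 : act κ (fun i => (l i).2) = eE
      · rw [if_pos (h2.2 ⟨h7, h8⟩), if_pos h7, if_pos h8, h6]
      · rw [if_neg (fun h9 => h8 (h2.1 h9).2), if_neg h8, mul_zero]
    · rw [if_neg (fun h9 => h7 (h2.1 h9).1), if_neg h7, zero_mul]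
  have hF : ∀ M : SymM p ν, FF β₁ (cut κ (fun i => (e i).1) u) M * FF β₂ a₂ M =
      FF βD a M * FF (bp βE β₂) (tp b a₂) M := fun M => by
    rw [← FF_equiv β₁ (bp βD βE) T hT, hab, FF_tp, FF_tp, mul_assoc]
  have hN : nsq a * nsq b ≤ nsq u := by
    rw [← nsq_tp, ← hab]
    exact (nsq_equiv T.toEquiv _).le.trans (nsq_cut_le _ _ _)
  have hd1 : 1 ≤ Module.finrank (ZMod p) D := Submodule.one_le_finrank_iff.2 hb
  have hd2 : Module.finrank (ZMod p) D < r₁ := hr1 ▸ Submodule.finrank_lt ht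
  have hd3 := Submodule.finrank_add_eq_of_isCompl hC
  let Φ : (X₁ × X₂) ≃ₗ[ZMod p] D × (D' × X₂) :=
    (T.symm.prodCongr (LinearEquiv.refl (ZMod p) X₂)).trans (LinearEquiv.prodAssoc _ _ _ _)
  have hsp : Submodule.span (ZMod p) (Set.range fun i => Φ (e i)) = ⊤ := by
    have h1 := congrArg (Submodule.map Φ.toLinearMap) he
    rw [Submodule.map_span, Submodule.map_top, LinearEquiv.range, ← Set.range_comp] at h1
    exact h1
  have key := hA _ (mem_Ico.2 ⟨hd1, hd2⟩) D (D' × X₂) βD (bp βE β₂) (fun i => Φ (e i)) κ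
    (fun x y => s1 _ _) (fun x hx => Subtype.ext (nD _ x.2 fun y hy => hx ⟨y, hy⟩))
    (SymB_bp (fun x y => s1 _ _) s2)
    (NdB_bp (fun x hx => Subtype.ext (nD' _ x.2 fun y hy => hx ⟨y, hy⟩)) n2) rfl
    (by rw [Module.finrank_prod]; omega) hsp a (tp b a₂) (OnSl_cut _ _ _)
    (OnSl_tp (e := fun i => (Φ (e i)).2) (OnSl_cut _ _ _) ha₂)
  simp only [hF]
  refine key.trans (mul_le_mul_of_nonneg_left ?_ hε.le)
  rw [nsq_tp, Real.sqrt_mul (nsq_nonneg _), ← mul_assoc, ← Real.sqrt_mul (nsq_nonneg _)]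
  exact mul_le_mul_of_nonneg_right (Real.sqrt_le_sqrt hN) (Real.sqrt_nonneg _)

end Pool.Agent.Work.MP_4523ee_co.Fp
end

-- merged part: Pool.Agent.Work.MP_4523ee_co.Fp.PB
section
/-!
The two party peeling bound PB (paper section 2).
-/

set_option autoImplicit false
set_option linter.unusedSectionVars false

namespace Pool.Agent.Work.MP_4523ee_co.Fp

open Finset Matrix
open scoped BigOperators ComplexConjugate

variable {p : ℕ} [Fact p.Prime]

variable {X Y : Type} [AddCommGroup X] [Module (ZMod p) X] [Fintype X] [AddCommGroup Y]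
  [Module (ZMod p) Y] [Fintype Y]
variable {ν : Type} [Fintype ν] [DecidableEq ν]

/-- `g` is an admissible constant for the vector `ψ` and the subspace `D` -/
def PBc (β : Bil p X) (ψ : (ν → X) → ℂ) (D : Submodule (ZMod p) X) (g : ℝ) : Prop :=
  (¬ NdOn β D ∧ GG β g ψ) ∨ (NdOn β D ∧ 0 ≤ g ∧
    ∑ x : pw ν D, ‖Xi β ψ x.1‖ ^ 2 ≤ g ^ 2 * (Fintype.card D : ℝ) ^ Fintype.card ν)

lemma PBc_one (hp : p ≠ 2) {β : Bil p X} (hβ : SymB β) {ψ : (ν → X) → ℂ} (h1 : nsq ψ ≤ 1)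
    (hG : GG β 1 ψ) (D : Submodule (ZMod p) X) : PBc β ψ D 1 := by
  by_cases h : NdOn β D
  · refine Or.inr ⟨h, zero_le_one, ?_⟩
    rw [one_pow, one_mul]
    exact PUR hp hβ h1 hG D
  · exact Or.inl ⟨h, hG⟩

lemma PBc_prim {β : Bil p X} {ψ : (ν → X) → ℂ} {θ : ℝ} (hθ : 0 ≤ θ) (h : Prim β θ ψ)
    {D : Submodule (ZMod p) X} (hD : ¬ (NdOn β D ∧ (D = ⊥ ∨ D = ⊤))) : PBc β ψ D θ := by
  by_cases h' : NdOn β D
  · exact Or.inr ⟨h', hθ, h.2.2.1 D (fun e => hD ⟨h', Or.inl e⟩) (fun e => hD ⟨h', Or.inr e⟩) h'⟩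
  · exact Or.inl ⟨h', h.2.1⟩

/-- Cauchy-Schwarz and (CO) on a nondegenerate subspace -/
lemma PB_nd (hp : p ≠ 2) {B : Bil p Y} (hB : SymB B) {β : Bil p X} (hβ : SymB β)
    {D : Submodule (ZMod p) X} (hD : NdOn β D) (J : GX X ν →ₗ[ZMod p] GX Y ν)
    (hJ : ∀ x ∈ pw ν D, ∀ y ∈ pw ν D, sy B (J x) (J y) = -sy β x y) (Φ : (ν → Y) → ℂ)
    (ψ : (ν → X) → ℂ) {g : ℝ} (hg : 0 ≤ g)
    (h : ∑ x : pw ν D, ‖Xi β ψ x.1‖ ^ 2 ≤ g ^ 2 * (Fintype.card D : ℝ) ^ Fintype.card ν) :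
    (Fintype.card D : ℝ) ^ Fintype.card ν * ‖𝔼 x : pw ν D, Xi B Φ (J x.1) * Xi β ψ x.1‖ ≤
      g * nsq Φ := by
  have h1 := CO_nd hp hB hβ hD (J.comp (pw ν D).subtype) (-1) (by simp)
    (fun x y => by rw [neg_one_mul]; exact hJ x.1 x.2 y.1 y.2) Φ
  have h2 := norm_expect_mul_le (fun x : pw ν D => Xi B Φ (J x.1)) fun x : pw ν D => Xi β ψ x.1
  have hQ : (0 : ℝ) < (Fintype.card D : ℝ) ^ Fintype.card ν :=
    pow_pos (by exact_mod_cast Fintype.card_pos) _
  have hc : (Fintype.card (pw ν D) : ℝ) =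
      (Fintype.card D : ℝ) ^ Fintype.card ν * (Fintype.card D : ℝ) ^ Fintype.card ν := by
    rw [card_pw]
    push_cast
    rfl
  generalize (Fintype.card D : ℝ) ^ Fintype.card ν = Q at *
  have hn := nsq_nonneg Φ
  have h3 : en (fun x : pw ν D => Xi B Φ (J x.1)) ≤ nsq Φ ^ 2 / Q := by
    rw [en, Fintype.expect_eq_sum_div_card, hc, div_le_div_iff₀ (by positivity) hQ]
    have := mul_le_mul_of_nonneg_right h1 hQ.le
    simp only [LinearMap.comp_apply, Submodule.subtype_apply] at this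
    linarith
  have h4 : en (fun x : pw ν D => Xi β ψ x.1) ≤ g ^ 2 / Q := by
    rw [en, Fintype.expect_eq_sum_div_card, hc, div_le_div_iff₀ (by positivity) hQ]
    have := mul_le_mul_of_nonneg_right h hQ.le
    linarith
  have h5 : √(en fun x : pw ν D => Xi B Φ (J x.1)) * √(en fun x : pw ν D => Xi β ψ x.1) ≤
      g * nsq Φ / Q := by
    rw [← Real.sqrt_mul (en_nonneg _)]
    refine Real.sqrt_le_iff.2 ⟨by positivity, ?_⟩
    refine (mul_le_mul h3 h4 (en_nonneg _) (by positivity)).trans (le_of_eq ?_)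
    field_simp
  have h6 := mul_le_mul_of_nonneg_left (h2.trans h5) hQ.le
  rwa [mul_div_cancel₀ _ hQ.ne'] at h6

/-- Fourier coefficient of `Xi` along a commuting family -/
lemma PB_four (hp : p ≠ 2) {β : Bil p X} (hβ : SymB β) {L : Type} [AddCommGroup L]
    [Module (ZMod p) L] [Fintype L] {j : L →ₗ[ZMod p] GX X ν}
    (hj : ∀ x y, sy β (j x) (j y) = 0) (φ : Module.Dual (ZMod p) L) (a : (ν → X) → ℂ)
    (y : GX X ν) (hy : ∀ x, sy β (j x) y = 0) :
    𝔼 x : L, ee (-φ x) * Xi β a (j x + y) = Xi β (Pj β j φ a) y := by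
  have h1 : ∀ x, W β (j x + y) a = W β (j x) (W β y a) := fun x => by
    rw [W_W hp hβ, hy, mul_zero, ee_zero]
    simp
  have h2 : (syL β ν y).comp j = 0 := by
    ext x
    rw [LinearMap.comp_apply, syL_apply, sy_anti hβ, hy]
    simp
  simp only [Xi, h1]
  rw [← ip_Pj_eq, W_Pj_comm hp hβ, h2, sub_zero, ← ip_Pj hp hβ, Pj_Pj hp hβ hj]

lemma PB_split {N D₁ D : Submodule (ZMod p) X} (h1 : N ⊔ D₁ = D) (h2 : N ⊓ D₁ = ⊥)
    (F : GX X ν → ℂ) :
    𝔼 x : pw ν D, F x.1 = 𝔼 y : pw ν D₁, 𝔼 x : pw ν N, F (x.1 + y.1) := by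
  have a1 : N ≤ D := h1 ▸ le_sup_left
  have a2 : D₁ ≤ D := h1 ▸ le_sup_right
  let f : pw ν D₁ × pw ν N → pw ν D := fun q => ⟨q.2.1 + q.1.1, mem_pw.2
    ⟨fun i => D.add_mem (a1 ((mem_pw.1 q.2.2).1 i)) (a2 ((mem_pw.1 q.1.2).1 i)),
      fun i => D.add_mem (a1 ((mem_pw.1 q.2.2).2 i)) (a2 ((mem_pw.1 q.1.2).2 i))⟩⟩
  have key : ∀ a a' b b' : X, a ∈ N → a' ∈ N → b ∈ D₁ → b' ∈ D₁ → a + b = a' + b' → a = a' := by
    intro a a' b b' c1 c2 c3 c4 e
    have e2 : a - a' = b' - b := by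
      rw [sub_eq_sub_iff_add_eq_add, e, add_comm]
    have : a - a' ∈ N ⊓ D₁ := ⟨N.sub_mem c1 c2, e2 ▸ D₁.sub_mem c4 c3⟩
    rw [h2, Submodule.mem_bot] at this
    exact sub_eq_zero.1 this
  have hf : Function.Bijective f := by
    constructor
    · rintro ⟨y, x⟩ ⟨y', x'⟩ e
      have e1 : x.1 + y.1 = x'.1 + y'.1 := congrArg Subtype.val e
      have e2 : x.1 = x'.1 := Prod.ext
        (funext fun i => key _ _ _ _ ((mem_pw.1 x.2).1 i) ((mem_pw.1 x'.2).1 i)
          ((mem_pw.1 y.2).1 i) ((mem_pw.1 y'.2).1 i) (congrFun (congrArg Prod.fst e1) i))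
        (funext fun i => key _ _ _ _ ((mem_pw.1 x.2).2 i) ((mem_pw.1 x'.2).2 i)
          ((mem_pw.1 y.2).2 i) ((mem_pw.1 y'.2).2 i) (congrFun (congrArg Prod.snd e1) i))
      rw [e2] at e1
      exact Prod.ext (Subtype.ext (add_left_cancel e1)) (Subtype.ext e2)
    · intro z
      have hz : ∀ d ∈ D, ∃ a ∈ N, ∃ b ∈ D₁, a + b = d := fun d hd =>
        Submodule.mem_sup.1 (h1 ▸ hd)
      choose a c1 b c2 c3 using fun i => hz _ ((mem_pw.1 z.2).1 i)
      choose a' c4 b' c5 c6 using fun i => hz _ ((mem_pw.1 z.2).2 i)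
      exact ⟨(⟨(b, b'), mem_pw.2 ⟨c2, c5⟩⟩, ⟨(a, a'), mem_pw.2 ⟨c1, c4⟩⟩),
        Subtype.ext (Prod.ext (funext c3) (funext c6))⟩
  rw [← expect_product', univ_product_univ]
  exact (Fintype.expect_bijective f hf _ _ fun _ => rfl).symm

lemma PB_card {N D₁ D : Submodule (ZMod p) X} (h1 : N ⊔ D₁ = D) (h2 : N ⊓ D₁ = ⊥) :
    Fintype.card D = Fintype.card N * Fintype.card D₁ := by
  have h := Submodule.finrank_sup_add_finrank_inf_eq N D₁
  rw [h1, h2, finrank_bot, add_zero] at h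
  rw [card_eq_pow (p := p) (L := D), card_eq_pow (p := p) (L := N),
    card_eq_pow (p := p) (L := D₁), h, pow_add]

lemma PB_sy_zero {β : Bil p X} {N D : Submodule (ZMod p) X}
    (h : ∀ x ∈ N, ∀ y ∈ D, β x y = 0) {x y : GX X ν} (hx : x ∈ pw ν N) (hy : y ∈ pw ν D) :
    sy β x y = 0 := by
  have a1 : bt β x.1 y.2 = 0 :=
    sum_eq_zero fun i _ => h _ ((mem_pw.1 hx).1 i) _ ((mem_pw.1 hy).2 i)
  have a2 : bt β x.2 y.1 = 0 :=
    sum_eq_zero fun i _ => h _ ((mem_pw.1 hx).2 i) _ ((mem_pw.1 hy).1 i)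
  rw [sy, a1, a2, sub_zero]

lemma PB_pw_mono {N D : Submodule (ZMod p) X} (h : N ≤ D) {x : GX X ν} (hx : x ∈ pw ν N) :
    x ∈ pw ν D := mem_pw.2 ⟨fun i => h ((mem_pw.1 hx).1 i), fun i => h ((mem_pw.1 hx).2 i)⟩

lemma PB_key (hp : p ≠ 2) {B : Bil p Y} (hB : SymB B) {β : Bil p X} (hβ : SymB β)
    {D : Submodule (ZMod p) X} (J : GX X ν →ₗ[ZMod p] GX Y ν)
    (hJ : ∀ x ∈ pw ν D, ∀ y ∈ pw ν D, sy B (J x) (J y) = -sy β x y) (Φ : (ν → Y) → ℂ)
    (ψ : (ν → X) → ℂ) {g : ℝ} (hg : PBc β ψ D g) :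
    (Fintype.card D : ℝ) ^ Fintype.card ν * ‖𝔼 x : pw ν D, Xi B Φ (J x.1) * Xi β ψ x.1‖ ≤
      g * nsq Φ := by
  rcases hg with ⟨hn, hG⟩ | ⟨hn, h0, hg⟩
  swap
  · exact PB_nd hp hB hβ hn J hJ Φ ψ h0 hg
  obtain ⟨N, D₁, h1, h2, h3, h4, h5⟩ := exists_rad_compl hβ D
  have a1 : N ≤ D := h1 ▸ le_sup_left
  have a2 : D₁ ≤ D := h1 ▸ le_sup_right
  have hN : Iso β N := fun x hx y hy => h3 x hx y (a1 hy)
  have b1 : ∀ (x : pw ν N) (y : GX X ν), y ∈ pw ν D → sy β ((pw ν N).subtype x) y = 0 :=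
    fun x y hy => PB_sy_zero h3 x.2 hy
  have b2 : ∀ (x : pw ν N) (y : GX X ν), y ∈ pw ν D →
      sy B ((J.comp (pw ν N).subtype) x) (J y) = 0 := fun x y hy => by
    have := hJ x.1 (PB_pw_mono a1 x.2) y hy
    rw [PB_sy_zero h3 x.2 hy, neg_zero] at this
    exact this
  have b3 : ∀ x y : pw ν N, sy β ((pw ν N).subtype x) ((pw ν N).subtype y) = 0 :=
    fun x y => b1 x y.1 (PB_pw_mono a1 y.2)
  have b4 : ∀ x y : pw ν N,
      sy B ((J.comp (pw ν N).subtype) x) ((J.comp (pw ν N).subtype) y) = 0 :=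
    fun x y => b2 x y.1 (PB_pw_mono a1 y.2)
  have c1 : ∀ y : pw ν D₁, 𝔼 x : pw ν N, Xi B Φ (J (x.1 + y.1)) * Xi β ψ (x.1 + y.1) =
      ∑ φ : Module.Dual (ZMod p) (pw ν N),
        Xi B (Pj B (J.comp (pw ν N).subtype) (-φ) Φ) (J y.1) *
          Xi β (Pj β (pw ν N).subtype φ ψ) y.1 := by
    intro y
    rw [parseval_dual (p := p)]
    refine sum_congr rfl fun φ _ => ?_
    rw [← PB_four hp hB b4 (-φ) Φ (J y.1) fun x => b2 x y.1 (PB_pw_mono a2 y.2),
      ← PB_four hp hβ b3 φ ψ y.1 fun x => b1 x y.1 (PB_pw_mono a2 y.2)]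
    simp only [map_add, LinearMap.neg_apply, neg_neg, LinearMap.comp_apply, Submodule.subtype_apply]
  rw [PB_split h1 h2 fun x => Xi B Φ (J x) * Xi β ψ x]
  simp only [c1]
  rw [expect_sum_comm, PB_card h1 h2, Nat.cast_mul, mul_pow,
    ← sum_nsq_Pj hp hB b4 Φ, ← Equiv.sum_comp (Equiv.neg _) fun φ : Module.Dual (ZMod p) (pw ν N) =>
      nsq (Pj B (J.comp (pw ν N).subtype) φ Φ), mul_sum]
  refine (mul_le_mul_of_nonneg_left (norm_sum_le _ _) (by positivity)).trans ?_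
  rw [mul_sum]
  refine sum_le_sum fun φ _ => ?_
  have d1 := PB_nd hp hB hβ h4 J
    (fun x hx y hy => hJ x (PB_pw_mono a2 hx) y (PB_pw_mono a2 hy))
    (Pj B (J.comp (pw ν N).subtype) (-φ) Φ) (Pj β (pw ν N).subtype φ ψ) (nsq_nonneg _)
    (by
      rw [mul_comm]
      exact CO_nd hp hβ hβ h4 (pw ν D₁).subtype 1 one_ne_zero (fun x y => by rw [one_mul]; rfl) _)
  have d2 := hG N (fun e => hn (h5.1 e)) hN φ
  rw [mul_assoc]
  refine (mul_le_mul_of_nonneg_left d1 (by positivity)).trans ?_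
  rw [← mul_assoc]
  exact mul_le_mul_of_nonneg_right d2 (nsq_nonneg _)

/-- a linear map applied to every coordinate -/
def PB_lift (ν : Type) (f : X →ₗ[ZMod p] Y) : GX X ν →ₗ[ZMod p] GX Y ν :=
  (f.compLeft ν).prodMap (f.compLeft ν)

lemma PB_sum (ι : X →ₗ[ZMod p] Y) (π : Y →ₗ[ZMod p] X) (h1 : ∀ x, π (ι x) = x)
    (F : (ν → Y) → ℂ) (hF : ∀ (l : ν → Y) (m : ν → X), F (l + fun i => ι (m i)) = F l)
    (h : (ν → X) → ℂ) :
    (Fintype.card X : ℂ) ^ Fintype.card ν * ∑ l, F l * h (fun i => π (l i)) =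
      (∑ l, F l) * ∑ m, h m := by
  have a1 : ∀ m : ν → X, ∑ l, F l * h (fun i => π (l i)) =
      ∑ l, F l * h ((fun i => π (l i)) + m) := fun m => by
    rw [← Equiv.sum_comp (Equiv.addRight fun i => ι (m i))]
    refine sum_congr rfl fun l _ => ?_
    rw [Equiv.coe_addRight, hF]
    refine congrArg (fun t => F l * h t) (funext fun i => ?_)
    simp [h1]
  calc (Fintype.card X : ℂ) ^ Fintype.card ν * ∑ l, F l * h (fun i => π (l i))
      = ∑ _m : ν → X, ∑ l, F l * h (fun i => π (l i)) := by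
        rw [sum_const, card_univ, Fintype.card_fun, nsmul_eq_mul, Nat.cast_pow]
    _ = ∑ m : ν → X, ∑ l, F l * h ((fun i => π (l i)) + m) := sum_congr rfl fun m _ => a1 m
    _ = (∑ l, F l) * ∑ m, h m := by
        rw [sum_comm, sum_mul]
        refine sum_congr rfl fun l _ => ?_
        rw [← mul_sum, ← Equiv.sum_comp (Equiv.addLeft fun i => π (l i)) h]
        rfl

lemma PB_Xi {B : Bil p Y} (hB : SymB B) {β : Bil p X}
    (ι : X →ₗ[ZMod p] Y) (π : Y →ₗ[ZMod p] X) (h1 : ∀ x, π (ι x) = x)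
    (h2 : ∀ x y, B (ι x) y = β x (π y)) (Φ : (ν → Y) → ℂ)
    (hΦ : ∀ (l : ν → Y) (m : ν → X), Φ (l + fun i => ι (m i)) = Φ l) (ψ : (ν → X) → ℂ)
    (z : GX Y ν) (hz1 : ∀ i, π (z.1 i) = 0) (hz2 : ∀ i, π (z.2 i) = 0) (y : GX X ν) :
    (Fintype.card X : ℂ) ^ Fintype.card ν *
        Xi B (fun l => Φ l * ψ fun i => π (l i)) (z + PB_lift ν ι y) =
      Xi B Φ z * Xi β ψ y := by
  have b0 : ∀ m : ν → X, bt B z.2 (fun i => ι (m i)) = 0 := fun m =>
    sum_eq_zero fun i _ => by rw [hB, h2, hz2, map_zero]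
  have b1 : ∀ (v : ν → X) (l : ν → Y), bt B (fun i => ι (v i)) l = bt β v fun i => π (l i) :=
    fun v l => sum_congr rfl fun i _ => h2 _ _
  have e1 : (z + PB_lift ν ι y).1 = z.1 + fun i => ι (y.1 i) := rfl
  have e2 : (z + PB_lift ν ι y).2 = z.2 + fun i => ι (y.2 i) := rfl
  have a1 : ∀ l, W B (z + PB_lift ν ι y) (fun l => Φ l * ψ fun i => π (l i)) l =
      W B z Φ l * W β y ψ fun i => π (l i) := fun l => by
    have c1 : (fun i => π ((z.1 + fun i => ι (y.1 i)) i)) = y.1 := funext fun i => by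
      simp [h1, hz1]
    have c2 : (fun i => π ((l + (z.1 + fun i => ι (y.1 i))) i)) = (fun i => π (l i)) + y.1 :=
      funext fun i => by simp [h1, hz1]
    simp only [W]
    rw [e1, e2, bt_add_left, bt_add_left, b1, b1, c1, c2, bt_add_right, b0, ← add_assoc l, hΦ]
    rw [mul_mul_mul_comm, ← ee_add]
    congr 2
    ring
  have a2 := PB_sum ι π h1 (fun l => conj (Φ l) * W B z Φ l) (fun l m => by
    simp only [W]
    rw [hΦ, bt_add_right, b0, add_zero, add_right_comm l, hΦ]) fun m => conj (ψ m) * W β y ψ m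
  simp only [Xi, ip]
  rw [← a2]
  congr 1
  refine sum_congr rfl fun l _ => ?_
  rw [a1, map_mul]
  ring

theorem PB (hp : p ≠ 2) {B : Bil p Y} (hB : SymB B) {β : Bil p X} (hβ : SymB β)
    (ι : X →ₗ[ZMod p] Y) (π : Y →ₗ[ZMod p] X) (h1 : ∀ x, π (ι x) = x)
    (h2 : ∀ x y, B (ι x) y = β x (π y)) (S : Submodule (ZMod p) Y) (hS : Iso B S)
    (hinj : ∀ s ∈ S, π s = 0 → s = 0) (Φ : (ν → Y) → ℂ)
    (hΦ : ∀ (l : ν → Y) (m : ν → X), Φ (l + fun i => ι (m i)) = Φ l) (ψ : (ν → X) → ℂ) {g : ℝ}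
    (hg : PBc β ψ (S.map π) g) :
    (Fintype.card S : ℝ) ^ Fintype.card ν *
        nsq (Pj B (pw ν S).subtype 0 fun l => Φ l * ψ fun i => π (l i)) ≤
      g * (nsq Φ / (Fintype.card X : ℝ) ^ Fintype.card ν) := by
  obtain ⟨σ, s1, s2⟩ : ∃ σ : X →ₗ[ZMod p] Y, (∀ d ∈ S.map π, σ d ∈ S) ∧ ∀ s ∈ S, σ (π s) = s := by
    obtain ⟨r, hr⟩ := (π.comp S.subtype).exists_leftInverse_of_injective
      (LinearMap.ker_eq_bot'.2 fun s hs => Subtype.ext (hinj s.1 s.2 hs))
    exact ⟨S.subtype.comp r, fun d _ => (r d).2, fun s hs =>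
      congrArg Subtype.val (LinearMap.congr_fun hr ⟨s, hs⟩)⟩
  have s3 : ∀ d ∈ S.map π, π (σ d) = d := by
    rintro _ ⟨s, hs, rfl⟩
    rw [s2 s hs]
  have s4 : ∀ a ∈ S.map π, ∀ b ∈ S.map π, B ((σ - ι) a) ((σ - ι) b) = -β a b := by
    intro a ha b hb
    simp only [LinearMap.sub_apply, map_sub]
    rw [hS _ (s1 a ha) _ (s1 b hb), hB (σ a) (ι b), h2, h2, h2, s3 a ha, s3 b hb, h1, hβ b a]
    ring
  have hk := PB_key hp hB hβ (D := S.map π) (PB_lift ν (σ - ι)) (fun x hx y hy => by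
    have a1 : bt B (PB_lift ν (σ - ι) x).1 (PB_lift ν (σ - ι) y).2 = -bt β x.1 y.2 := by
      rw [bt, bt, ← sum_neg_distrib]
      exact sum_congr rfl fun i _ => s4 _ ((mem_pw.1 hx).1 i) _ ((mem_pw.1 hy).2 i)
    have a2 : bt B (PB_lift ν (σ - ι) x).2 (PB_lift ν (σ - ι) y).1 = -bt β x.2 y.1 := by
      rw [bt, bt, ← sum_neg_distrib]
      exact sum_congr rfl fun i _ => s4 _ ((mem_pw.1 hx).2 i) _ ((mem_pw.1 hy).1 i)
    rw [sy, sy, a1, a2]
    ring) Φ ψ hg
  have hc : Fintype.card S = Fintype.card (S.map π) := Fintype.card_congr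
    ⟨fun s => ⟨π s.1, s.1, s.2, rfl⟩, fun d => ⟨σ d.1, s1 d.1 d.2⟩,
      fun s => Subtype.ext (s2 s.1 s.2), fun d => Subtype.ext (s3 d.1 d.2)⟩
  let e : pw ν (S.map π) ≃ pw ν S :=
    ⟨fun y => ⟨PB_lift ν σ y.1, mem_pw.2 ⟨fun i => s1 _ ((mem_pw.1 y.2).1 i),
        fun i => s1 _ ((mem_pw.1 y.2).2 i)⟩⟩,
      fun x => ⟨PB_lift ν π x.1, mem_pw.2 ⟨fun i => ⟨_, (mem_pw.1 x.2).1 i, rfl⟩,
        fun i => ⟨_, (mem_pw.1 x.2).2 i, rfl⟩⟩⟩,
      fun y => Subtype.ext (Prod.ext (funext fun i => s3 _ ((mem_pw.1 y.2).1 i))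
        (funext fun i => s3 _ ((mem_pw.1 y.2).2 i))),
      fun x => Subtype.ext (Prod.ext (funext fun i => s2 _ ((mem_pw.1 x.2).1 i))
        (funext fun i => s2 _ ((mem_pw.1 x.2).2 i)))⟩
  have he : (Fintype.card X : ℂ) ^ Fintype.card ν *
      (nsq (Pj B (pw ν S).subtype 0 fun l => Φ l * ψ fun i => π (l i)) : ℂ) =
      𝔼 y : pw ν (S.map π), Xi B Φ (PB_lift ν (σ - ι) y.1) * Xi β ψ y.1 := by
    rw [nsq_Pj hp hB (sy_pw_of_iso hS), ip_Pj_eq, mul_expect]
    refine (Fintype.expect_equiv e _ _ fun y => ?_).symm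
    rw [← PB_Xi hB ι π h1 h2 Φ hΦ ψ (PB_lift ν (σ - ι) y.1)
      (fun i => by
        show π (σ (y.1.1 i) - ι (y.1.1 i)) = 0
        rw [map_sub, s3 _ ((mem_pw.1 y.2).1 i), h1, sub_self])
      (fun i => by
        show π (σ (y.1.2 i) - ι (y.1.2 i)) = 0
        rw [map_sub, s3 _ ((mem_pw.1 y.2).2 i), h1, sub_self]) y.1]
    have a1 : PB_lift ν (σ - ι) y.1 + PB_lift ν ι y.1 = (pw ν S).subtype (e y) :=
      Prod.ext (funext fun i => sub_add_cancel _ _) (funext fun i => sub_add_cancel _ _)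
    rw [a1, LinearMap.zero_apply, neg_zero, ee_zero, one_mul]
    rfl
  have hQ : (0 : ℝ) < (Fintype.card X : ℝ) ^ Fintype.card ν :=
    pow_pos (by exact_mod_cast Fintype.card_pos) _
  rw [← he, norm_mul, norm_pow, Complex.norm_natCast, Complex.norm_real,
    Real.norm_of_nonneg (nsq_nonneg _)] at hk
  rw [hc, ← mul_div_assoc, le_div_iff₀ hQ]
  linarith

end Pool.Agent.Work.MP_4523ee_co.Fp
end

-- merged part: Pool.Agent.Work.MP_4523ee_co.Fp.Val
section
/-!
Values of isotropic subspaces on product vectors (paper section 2, VAL).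
-/

set_option autoImplicit false
set_option linter.unusedSectionVars false

namespace Pool.Agent.Work.MP_4523ee_co.Fp

open Finset Matrix
open scoped BigOperators ComplexConjugate

variable {p : ℕ} [Fact p.Prime]

variable {X : Type} [AddCommGroup X] [Module (ZMod p) X]
variable {K : Type} [Fintype K] [DecidableEq K]

/-- the form on the sum of the parties -/
def BK (β : K → Bil p X) : Bil p (K → X) :=
  ∑ j, (β j).compl₁₂ (LinearMap.proj j) (LinearMap.proj j)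

lemma BK_apply (β : K → Bil p X) (x y : K → X) : BK β x y = ∑ j, β j (x j) (y j) := by
  simp only [BK, LinearMap.sum_apply, LinearMap.compl₁₂_apply, LinearMap.proj_apply]

lemma SymB_BK {β : K → Bil p X} (h : ∀ j, SymB (β j)) : SymB (BK β) := by
  intro x y
  rw [BK_apply, BK_apply]
  exact sum_congr rfl fun j _ => h j _ _

/-- elements of `T` supported in `I` -/
def TI (T : Submodule (ZMod p) (K → X)) (I : Finset K) : Submodule (ZMod p) (K → X) :=
  T ⊓ Submodule.pi {j | j ∉ I} fun _ => ⊥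

lemma mem_TI {T : Submodule (ZMod p) (K → X)} {I : Finset K} {t : K → X} :
    t ∈ TI T I ↔ t ∈ T ∧ ∀ j, j ∉ I → t j = 0 := by
  simp only [TI, Submodule.mem_inf, Submodule.mem_pi, Set.mem_ofPred_eq, Submodule.mem_bot]

/-- the forms of the plus and of the minus parties -/
def sgB (β : Bil p X) (K₀ : Type) : K₀ ⊕ K₀ → Bil p X := Sum.elim (fun _ => β) fun _ => -β

/-- the pairing subspace -/
def Tσ (p : ℕ) [Fact p.Prime] (X : Type) [AddCommGroup X] [Module (ZMod p) X] {K₀ : Type}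
    (σ : Equiv.Perm K₀) : Submodule (ZMod p) (K₀ ⊕ K₀ → X) where
  carrier := {t | ∀ i, t (Sum.inr (σ i)) = t (Sum.inl i)}
  add_mem' := fun {a b} ha hb i => by
    have h1 := ha i
    have h2 := hb i
    simp only [Pi.add_apply, h1, h2]
  zero_mem' := fun _ => rfl
  smul_mem' := fun c a ha i => by
    have h1 := ha i
    simp only [Pi.smul_apply, h1]

lemma va_single (β : K → Bil p X) (j : K) (x : X) (t : K → X) :
    BK β (Pi.single j x) t = β j x (t j) := by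
  rw [BK_apply, sum_eq_single j]
  · rw [Pi.single_eq_same]
  · intro i _ hi
    rw [Pi.single_eq_of_ne hi, map_zero, LinearMap.zero_apply]
  · exact fun h => absurd (mem_univ j) h

lemma va_ne [Nontrivial X] {β : Bil p X} (hn : NdB β) : ∃ x y, β x y ≠ 0 := by
  obtain ⟨x, hx⟩ := exists_ne (0 : X)
  by_contra h
  push Not at h
  exact hx (hn x (h x))

lemma va_two (hp : p ≠ 2) [Nontrivial X] {β : Bil p X} (hn : NdB β)
    (h : ∀ x y, β x y + β x y = 0) : False := by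
  obtain ⟨x, y, hxy⟩ := va_ne hn
  have h2 := h x y
  rw [← two_mul] at h2
  exact hxy ((mul_eq_zero.mp h2).resolve_left (two_ne hp))

/-- the diagonal on one pair -/
def vaP {K₀ : Type} [DecidableEq K₀] (a b : K₀) (x : X) : K₀ ⊕ K₀ → X :=
  Pi.single (Sum.inl a) x + Pi.single (Sum.inr b) x

lemma va_pair (β : Bil p X) {K₀ : Type} [Fintype K₀] [DecidableEq K₀] (a b : K₀) (x : X)
    (t : K₀ ⊕ K₀ → X) :
    BK (sgB β K₀) (vaP a b x) t = β x (t (Sum.inl a)) - β x (t (Sum.inr b)) := by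
  rw [vaP, map_add, LinearMap.add_apply, va_single, va_single, sub_eq_add_neg]
  rfl

lemma va_eq {β : Bil p X} (hβ : SymB β) (hn : NdB β) {K₀ : Type} [Fintype K₀] [DecidableEq K₀]
    {T : Submodule (ZMod p) (K₀ ⊕ K₀ → X)} (hT : Iso (BK (sgB β K₀)) T) {a b : K₀}
    (h : ∀ x, vaP a b x ∈ T) {t : K₀ ⊕ K₀ → X} (ht : t ∈ T) : t (Sum.inr b) = t (Sum.inl a) := by
  refine (sub_eq_zero.mp (hn _ fun y => ?_)).symm
  rw [hβ, map_sub, ← va_pair]
  exact hT _ (h y) _ ht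

lemma va_top {T : Submodule (ZMod p) (K → X)} {I : Finset K} {j : K} (hj : j ∈ I)
    (h0 : TI T I ≠ ⊥) (h : TI T (I.erase j) = ⊥)
    (h1 : (TI T (insert j (I.erase j))).map (LinearMap.proj j) = ⊥ ∨
      (TI T (insert j (I.erase j))).map (LinearMap.proj j) = ⊤) :
    (∀ t ∈ TI T I, t j = 0 → t = 0) ∧ (TI T I).map (LinearMap.proj j) = ⊤ := by
  have h2 : ∀ t ∈ TI T I, t j = 0 → t = 0 := fun t ht htj => by
    have : t ∈ TI T (I.erase j) := mem_TI.mpr ⟨(mem_TI.mp ht).1, fun i hi => by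
      by_cases hij : i = j
      · rw [hij, htj]
      · exact (mem_TI.mp ht).2 i fun h3 => hi (mem_erase.mpr ⟨hij, h3⟩)⟩
    rwa [h, Submodule.mem_bot] at this
  rw [insert_erase hj] at h1
  refine ⟨h2, h1.resolve_left fun h3 => h0 ?_⟩
  refine (Submodule.eq_bot_iff _).mpr fun t ht => h2 t ht ?_
  exact (Submodule.eq_bot_iff _).mp h3 _ (Submodule.mem_map_of_mem ht)

lemma va_find (hp : p ≠ 2) [Nontrivial X] {β : Bil p X} (hn : NdB β)
    {K₀ : Type} [Fintype K₀] [DecidableEq K₀] {T : Submodule (ZMod p) (K₀ ⊕ K₀ → X)}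
    (hT : Iso (BK (sgB β K₀)) T) (hΔ : ∀ x : X, (fun _ => x) ∈ T)
    (h1 : ∀ I j, j ∉ I → (TI T (insert j I)).map (LinearMap.proj j) = ⊥ ∨
        (TI T (insert j I)).map (LinearMap.proj j) = ⊤)
    (h2 : ∀ I, TI T I ≠ ⊥ → (∀ j ∈ I, TI T (I.erase j) = ⊥) → I.card ≤ 2)
    {J : Finset (K₀ ⊕ K₀)} (hJ : TI T J ≠ ⊥) :
    ∃ a b, Sum.inl a ∈ J ∧ Sum.inr b ∈ J ∧ ∀ x, vaP a b x ∈ T := by
  classical
  obtain ⟨I, hI, hmin⟩ := exists_min_image (J.powerset.filter fun I => TI T I ≠ ⊥) card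
    ⟨J, mem_filter.mpr ⟨mem_powerset_self J, hJ⟩⟩
  obtain ⟨hIJ, hI0⟩ := mem_filter.mp hI
  rw [mem_powerset] at hIJ
  have hm : ∀ j ∈ I, TI T (I.erase j) = ⊥ := fun j hj => by
    by_contra h
    have := hmin _ (mem_filter.mpr ⟨mem_powerset.mpr ((erase_subset j I).trans hIJ), h⟩)
    have := card_erase_lt_of_mem hj
    omega
  have hs : ∀ j ∈ I, ∀ x, ∃ t, t ∈ T ∧ (∀ i, i ∉ I → t i = 0) ∧ t j = x := fun j hj x => by
    have h3 := (va_top hj hI0 (hm j hj) (h1 _ j (notMem_erase j I))).2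
    obtain ⟨t, ht, htx⟩ := (Submodule.eq_top_iff'.mp h3) x
    exact ⟨t, (mem_TI.mp ht).1, (mem_TI.mp ht).2, htx⟩
  have hB : ∀ t, (∀ i, i ∉ I → t i = 0) → ∀ u,
      BK (sgB β K₀) t u = ∑ i ∈ I, sgB β K₀ i (t i) (u i) := fun t ht u => by
    rw [BK_apply]
    exact (sum_subset (subset_univ I) fun i _ hi => by
      rw [ht i hi, map_zero, LinearMap.zero_apply]).symm
  have hc := h2 I hI0 hm
  have hne : I.Nonempty := by
    rw [nonempty_iff_ne_empty]
    rintro rfl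
    exact hI0 ((Submodule.eq_bot_iff _).mpr fun t ht =>
      funext fun j => (mem_TI.mp ht).2 j (notMem_empty j))
  have hsame : ∀ γ : Bil p X, NdB γ → ¬ ∀ i ∈ I, sgB β K₀ i = γ := fun γ hγ hall => by
    have hB' : ∀ t ∈ T, (∀ i, i ∉ I → t i = 0) → ∀ u ∈ T, ∑ i ∈ I, γ (t i) (u i) = 0 :=
      fun t ht ht' u hu => by
        rw [← hT t ht u hu, hB t ht' u]
        exact sum_congr rfl fun i hi => by rw [hall i hi]
    rcases (show I.card = 1 ∨ I.card = 2 by have := hne.card_pos; omega) with h3 | h3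
    · obtain ⟨i, rfl⟩ := card_eq_one.mp h3
      obtain ⟨x, y, hxy⟩ := va_ne hγ
      obtain ⟨t, a1, a2, a3⟩ := hs i (mem_singleton_self i) x
      have := hB' t a1 a2 _ (hΔ y)
      rw [sum_singleton, a3] at this
      exact hxy this
    · obtain ⟨i, j, hij, rfl⟩ := card_eq_two.mp h3
      have hg : ∀ t ∈ T, (∀ k, k ∉ ({i, j} : Finset (K₀ ⊕ K₀)) → t k = 0) → t j = -t i :=
        fun t ht ht' => by
          refine eq_neg_of_add_eq_zero_right (hγ _ fun y => ?_)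
          have := hB' t ht ht' _ (hΔ y)
          rwa [sum_pair hij, ← LinearMap.add_apply, ← map_add] at this
      refine va_two hp hγ fun x y => ?_
      obtain ⟨t, a1, a2, a3⟩ := hs i (by simp) x
      obtain ⟨u, b1, b2, b3⟩ := hs i (by simp) y
      have := hB' t a1 a2 u b1
      rw [sum_pair hij, hg t a1 a2, hg u b1 b2, a3, b3] at this
      simpa using this
  have hl : ∃ a, Sum.inl a ∈ I := by
    by_contra h
    refine hsame (-β) (fun x hx => hn x fun y => neg_eq_zero.mp (hx y)) ?_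
    rintro (a | a) ha
    · exact absurd ⟨a, ha⟩ h
    · rfl
  have hr : ∃ b, Sum.inr b ∈ I := by
    by_contra h
    refine hsame β hn ?_
    rintro (a | a) ha
    · rfl
    · exact absurd ⟨a, ha⟩ h
  obtain ⟨a, ha⟩ := hl
  obtain ⟨b, hb⟩ := hr
  have hab : (Sum.inl a : K₀ ⊕ K₀) ≠ Sum.inr b := Sum.inl_ne_inr
  have hIe : I = {Sum.inl a, Sum.inr b} :=
    (eq_of_subset_of_card_le (by simp [insert_subset_iff, ha, hb])
      (by rw [card_pair hab]; exact hc)).symm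
  refine ⟨a, b, hIJ ha, hIJ hb, fun x => ?_⟩
  obtain ⟨t, a1, a2, a3⟩ := hs _ ha x
  have a4 : t (Sum.inr b) = x := by
    refine (sub_eq_zero.mp (hn _ fun y => ?_)).symm
    have := hT t a1 _ (hΔ y)
    rw [hB t a2, hIe, sum_pair hab, a3] at this
    rw [map_sub, LinearMap.sub_apply, sub_eq_add_neg]
    exact this
  have a5 : vaP a b x = t := by
    funext k
    by_cases hk : k ∈ I
    · rw [hIe, mem_insert, mem_singleton] at hk
      rcases hk with rfl | rfl
      · simp [vaP, a3]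
      · simp [vaP, a4]
    · rw [a2 k hk]
      rw [hIe, mem_insert, mem_singleton, not_or] at hk
      simp [vaP, hk.1, hk.2]
  rwa [a5]

/-- linear algebra: without a gain the subspace is a pairing -/
theorem struct_pairing (hp : p ≠ 2) [Nontrivial X] {β : Bil p X} (hβ : SymB β) (hn : NdB β)
    {K₀ : Type} [Fintype K₀] [DecidableEq K₀] (T : Submodule (ZMod p) (K₀ ⊕ K₀ → X))
    (hT : Iso (BK (sgB β K₀)) T) (hΔ : ∀ x : X, (fun _ => x) ∈ T)
    (h1 : ∀ I j, j ∉ I → NdOn β ((TI T (insert j I)).map (LinearMap.proj j)) ∧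
      ((TI T (insert j I)).map (LinearMap.proj j) = ⊥ ∨
        (TI T (insert j I)).map (LinearMap.proj j) = ⊤))
    (h2 : ∀ I, TI T I ≠ ⊥ → (∀ j ∈ I, TI T (I.erase j) = ⊥) → I.card ≤ 2) :
    ∃ σ : Equiv.Perm K₀, T = Tσ p X σ := by
  have key : ∀ (n : ℕ) (J : Finset (K₀ ⊕ K₀)), J.card ≤ n →
      (∀ x : X, (fun k => if k ∈ J then x else 0) ∈ T) →
      ∀ a, Sum.inl a ∈ J → ∃ b, ∀ x, vaP a b x ∈ T := by
    intro n
    induction n with
    | zero =>
      intro J hJ _ a ha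
      have := card_pos.mpr ⟨_, ha⟩
      omega
    | succ n ih =>
      intro J hJ hd a ha
      obtain ⟨x0, hx0⟩ := exists_ne (0 : X)
      have hJ0 : TI T J ≠ ⊥ := fun h => by
        have h3 := (Submodule.eq_bot_iff _).mp h _
          (mem_TI.mpr ⟨hd x0, fun j hj => if_neg hj⟩)
        have h4 := congrFun h3 (Sum.inl a)
        rw [if_pos ha] at h4
        exact hx0 h4
      obtain ⟨a0, b0, c1, c2, c3⟩ :=
        va_find hp hn hT hΔ (fun I j hj => (h1 I j hj).2) h2 hJ0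
      by_cases haa : a = a0
      · exact ⟨b0, haa ▸ c3⟩
      · refine ih ((J.erase (Sum.inl a0)).erase (Sum.inr b0)) ?_ (fun x => ?_) a
          (by simp [ha, haa])
        · have := card_erase_lt_of_mem c1
          have := card_erase_le (s := J.erase (Sum.inl a0)) (a := Sum.inr b0)
          omega
        · have h3 := T.sub_mem (hd x) (c3 x)
          refine (congrArg (· ∈ T) (funext fun k => ?_)).mp h3
          by_cases k1 : k = Sum.inl a0
          · simp [vaP, k1, c1]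
          · by_cases k2 : k = Sum.inr b0
            · simp [vaP, k2, c2]
            · simp [vaP, k1, k2]
  choose f hf using fun a => key _ univ le_rfl (fun x => by simpa using hΔ x) a (mem_univ _)
  have hinj : Function.Injective f := fun a a' haa => by
    by_contra hne
    obtain ⟨x0, hx0⟩ := exists_ne (0 : X)
    have h3 := va_eq hβ hn hT (hf a) (hf a' x0)
    rw [haa] at h3
    simp [vaP, hne] at h3
    exact hx0 h3
  let σ : Equiv.Perm K₀ := Equiv.ofBijective f (Finite.injective_iff_bijective.mp hinj)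
  refine ⟨σ, le_antisymm (fun t ht i => va_eq hβ hn hT (hf i) ht) fun t ht => ?_⟩
  have h3 : t = ∑ a, vaP a (σ a) (t (Sum.inl a)) := by
    funext k
    rw [Finset.sum_apply]
    rcases k with k | k
    · simp [vaP, Pi.single_apply]
    · obtain ⟨i, rfl⟩ := σ.surjective k
      simp [vaP, Pi.single_apply, ht i]
  rw [h3]
  exact T.sum_mem fun a _ => hf a _

lemma Tσ_iso (β : Bil p X) {K₀ : Type} [Fintype K₀] [DecidableEq K₀] (σ : Equiv.Perm K₀) :
    Iso (BK (sgB β K₀)) (Tσ p X σ) := by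
  intro x hx y hy
  rw [BK_apply, Fintype.sum_sum_type,
    ← Equiv.sum_comp σ fun i => sgB β K₀ (Sum.inr i) (x (Sum.inr i)) (y (Sum.inr i)),
    ← sum_add_distrib]
  refine sum_eq_zero fun i _ => ?_
  rw [hx i, hy i]
  exact add_neg_cancel _

lemma va_mem {K₀ : Type} [DecidableEq K₀] (σ : Equiv.Perm K₀) (a : K₀) (x : X) :
    vaP a (σ a) x ∈ Tσ p X σ := fun i => by
  simp [vaP, Pi.single_apply]

lemma Tσ_max {β : Bil p X} (hβ : SymB β) (hn : NdB β) {K₀ : Type} [Fintype K₀] [DecidableEq K₀]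
    (σ : Equiv.Perm K₀) (T : Submodule (ZMod p) (K₀ ⊕ K₀ → X)) (hT : Iso (BK (sgB β K₀)) T)
    (h : Tσ p X σ ≤ T) : T = Tσ p X σ := by
  exact le_antisymm (fun t ht i => va_eq hβ hn hT (fun x => h (va_mem σ i x)) ht) h

lemma Tσ_inj [Nontrivial X] {K₀ : Type} [Fintype K₀] [DecidableEq K₀] (σ σ' : Equiv.Perm K₀)
    (h : Tσ p X σ = Tσ p X σ') : σ = σ' := by
  ext a
  obtain ⟨x0, hx0⟩ := exists_ne (0 : X)
  have h1 : vaP a (σ a) x0 ∈ Tσ p X σ' := h ▸ va_mem σ a x0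
  have h2 := h1 a
  by_contra hne
  simp [vaP, Ne.symm hne] at h2
  exact hx0 h2.symm

variable [Fintype X] {ν : Type} [Fintype ν] [DecidableEq ν]

def tens (ψ : K → (ν → X) → ℂ) : (ν → K → X) → ℂ := fun l => ∏ j, ψ j fun i => l i j

noncomputable def valT (T : Submodule (ZMod p) (K → X)) (Ψ : (ν → K → X) → ℂ) : ℂ :=
  ∑ l : ν → K → X, (ind {l : ν → K → X | ∀ i, l i ∈ T} l : ℂ) * Ψ l

/-- the vector of party `j` if `j ∈ I`, the point mass at zero otherwise -/
noncomputable def psiI (ψ : K → (ν → X) → ℂ) (I : Finset K) (j : K) : (ν → X) → ℂ :=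
  if j ∈ I then ψ j else fun l => (ind {0} l : ℂ)

noncomputable def ValI (β : K → Bil p X) (ψ : K → (ν → X) → ℂ) (T : Submodule (ZMod p) (K → X))
    (I : Finset K) : ℝ :=
  (Fintype.card (TI T I) : ℝ) ^ Fintype.card ν *
    nsq (Pj (BK β) (pw ν (TI T I)).subtype 0 (tens (psiI ψ I)))

variable {β : K → Bil p X} {ψ : K → (ν → X) → ℂ} {T : Submodule (ZMod p) (K → X)}

lemma ValB_sum {R : Type} [CommSemiring R] (f : K → (ν → X) → R) :
    ∑ l : ν → K → X, ∏ j, f j (fun i => l i j) = ∏ j, ∑ m, f j m := by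
  rw [Fintype.prod_sum]
  exact Fintype.sum_equiv (Equiv.piComm _) _ _ fun _ => rfl

lemma ValB_nsq (φ : K → (ν → X) → ℂ) : nsq (tens φ) = ∏ j, nsq (φ j) := by
  simp only [nsq, tens, norm_prod, ← prod_pow]
  exact ValB_sum fun j m => ‖φ j m‖ ^ 2

lemma ValB_ind_sq {α : Type} (A : Set α) (x : α) : ‖(ind A x : ℂ)‖ ^ 2 = ind A x := by
  by_cases h : x ∈ A
  · simp [ind_of_mem h]
  · simp [ind_of_not h]

lemma ValB_delta {α : Type} [Fintype α] (z : α) : ∑ x, ind {z} x = 1 := by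
  rw [sum_eq_single z (fun x _ h => ind_of_not (A := {z}) h) fun h => absurd (mem_univ z) h]
  exact ind_of_mem (A := {z}) rfl

lemma ValB_nsq_delta : nsq (fun l : ν → X => (ind {0} l : ℂ)) = 1 := by
  simp only [nsq, ValB_ind_sq, ValB_delta]

/-- the component of a point of the phase space -/
def ValB_pr (j : K) (x : GX (K → X) ν) : GX X ν := (fun i => x.1 i j, fun i => x.2 i j)

lemma ValB_bt (u v : ν → K → X) :
    bt (BK β) u v = ∑ j, bt (β j) (fun i => u i j) fun i => v i j := by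
  simp only [bt, BK_apply]
  exact sum_comm

lemma ValB_Xi (φ : K → (ν → X) → ℂ) (x : GX (K → X) ν) :
    Xi (BK β) (tens φ) x = ∏ j, Xi (β j) (φ j) (ValB_pr j x) := by
  simp only [Xi, ip]
  rw [← ValB_sum]
  refine sum_congr rfl fun l _ => ?_
  simp only [W, tens, ValB_bt, mul_sum, ← sum_add_distrib, ee_sum, map_prod, ← prod_mul_distrib]
  rfl

lemma ValB_Pj_sub {Y : Type} [AddCommGroup Y] [Module (ZMod p) Y] [Fintype Y] (hp : p ≠ 2)
    {B : Bil p Y} (hB : SymB B) {N N' : Submodule (ZMod p) Y} (h : N ≤ N') (hN : Iso B N')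
    (a : (ν → Y) → ℂ) :
    Pj B (pw ν N).subtype 0 (Pj B (pw ν N').subtype 0 a) = Pj B (pw ν N').subtype 0 a :=
  Pj_of_eigen _ _ fun x => W_Pj hp hB (sy_pw_of_iso hN) 0 a
    ⟨x.1, mem_pw.2 ⟨fun i => h ((mem_pw.1 x.2).1 i), fun i => h ((mem_pw.1 x.2).2 i)⟩⟩

lemma ValB_Pj_le {Y : Type} [AddCommGroup Y] [Module (ZMod p) Y] [Fintype Y] (hp : p ≠ 2)
    {B : Bil p Y} (hB : SymB B) {N S N' : Submodule (ZMod p) Y} (h : N ≤ N') (h' : S ≤ N')
    (hN : Iso B N') (a : (ν → Y) → ℂ) :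
    nsq (Pj B (pw ν N').subtype 0 a) ≤
      nsq (Pj B (pw ν S).subtype 0 (Pj B (pw ν N).subtype 0 a)) := by
  have h1 := nsq_Pj hp hB (sy_pw_of_iso (ν := ν) hN) 0 a
  have h2 := norm_ip_sq_le (Pj B (pw ν S).subtype 0 (Pj B (pw ν N).subtype 0 a))
    (Pj B (pw ν N').subtype 0 a)
  rw [← ip_Pj hp hB, ValB_Pj_sub hp hB h' hN, ← ip_Pj hp hB, ValB_Pj_sub hp hB h hN, ← h1,
    Complex.norm_real, Real.norm_eq_abs, sq_abs, sq] at h2
  rcases (nsq_nonneg (Pj B (pw ν N').subtype 0 a)).eq_or_lt with h3 | h3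
  · exact h3 ▸ nsq_nonneg _
  · exact le_of_mul_le_mul_right h2 h3

lemma ValB_iso (hT : Iso (BK β) T) (I : Finset K) : Iso (BK β) (TI T I) :=
  fun x hx y hy => hT x (mem_TI.1 hx).1 y (mem_TI.1 hy).1

lemma ValB_single (j : K) (x : X) (y : K → X) : BK β (Pi.single j x) y = β j x (y j) := by
  rw [BK_apply, sum_eq_single j (fun k _ h => by simp [Pi.single_eq_of_ne h])
    fun h => absurd (mem_univ j) h, Pi.single_eq_same]

/-- a factor that only sees the party `j` commutes with the projection -/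
lemma ValB_Pj_mul {N : Submodule (ZMod p) (K → X)} {j : K} (hN : ∀ t ∈ N, t j = 0)
    (Φ : (ν → K → X) → ℂ) (a : (ν → X) → ℂ) :
    Pj (BK β) (pw ν N).subtype 0 (fun l => Φ l * a fun i => l i j) =
      fun l => Pj (BK β) (pw ν N).subtype 0 Φ l * a fun i => l i j := by
  funext l
  simp only [Pj, W]
  rw [expect_mul]
  refine expect_congr rfl fun x _ => ?_
  have h : (fun i => (l + ((pw ν N).subtype x).1) i j) = fun i => l i j := funext fun i => by
    have := hN _ ((mem_pw.1 x.2).1 i)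
    simp only [Pi.add_apply, Submodule.subtype_apply, this, add_zero]
  rw [h]
  ring

lemma ValB_Pj_inv (hβ : ∀ j, SymB (β j)) {N : Submodule (ZMod p) (K → X)} {j : K}
    (hN : ∀ t ∈ N, t j = 0) {Φ : (ν → K → X) → ℂ}
    (hΦ : ∀ (l : ν → K → X) (m : ν → X), Φ (l + fun i => Pi.single j (m i)) = Φ l)
    (l : ν → K → X) (m : ν → X) :
    Pj (BK β) (pw ν N).subtype 0 Φ (l + fun i => Pi.single j (m i)) =
      Pj (BK β) (pw ν N).subtype 0 Φ l := by
  simp only [Pj, W]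
  refine expect_congr rfl fun x _ => ?_
  have h : bt (BK β) ((pw ν N).subtype x).2 (fun i => Pi.single j (m i)) = 0 := by
    rw [bt_comm (SymB_BK hβ)]
    refine sum_eq_zero fun i _ => ?_
    rw [ValB_single, show ((pw ν N).subtype x).2 i j = 0 from hN _ ((mem_pw.1 x.2).2 i), map_zero]
  rw [bt_add_right, h, add_zero, add_right_comm l, hΦ]

lemma ValB_nsq_inv {j : K} {Φ : (ν → K → X) → ℂ}
    (hΦ : ∀ (l : ν → K → X) (m : ν → X), Φ (l + fun i => Pi.single j (m i)) = Φ l) :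
    nsq Φ = (Fintype.card X : ℝ) ^ Fintype.card ν *
      nsq fun l => Φ l * (ind {0} fun i => l i j : ℝ) := by
  have h : ∀ m : ν → X, nsq (fun l => Φ l * (ind {0} fun i => l i j : ℝ)) =
      ∑ l, ‖Φ l‖ ^ 2 * ind {-fun i => l i j} m := fun m => by
    refine (Fintype.sum_equiv (Equiv.addRight fun i => Pi.single j (m i)) _ _ fun l => ?_).symm
    simp only [Equiv.coe_addRight]
    rw [hΦ, norm_mul, mul_pow, ValB_ind_sq]
    congr 1
    have h1 : (fun i => (l + fun i => Pi.single j (m i) : ν → K → X) i j) =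
        (fun i => l i j) + m := funext fun i => by simp
    rw [h1]
    by_cases h2 : m = -fun i => l i j
    · rw [ind_of_mem (A := {_}) h2, ind_of_mem (by simp [h2])]
    · rw [ind_of_not (A := {_}) h2,
        ind_of_not (A := {0}) fun h3 => h2 (eq_neg_of_add_eq_zero_right h3)]
  have h2 := sum_congr (rfl (a := univ)) fun m _ => h m
  rw [sum_comm, sum_const, card_univ, Fintype.card_fun, nsmul_eq_mul] at h2
  simp only [← mul_sum, ValB_delta, mul_one] at h2
  rw [← Nat.cast_pow, h2, nsq]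

lemma ValI_nonneg (I : Finset K) : 0 ≤ ValI β ψ T I :=
  mul_nonneg (by positivity) (nsq_nonneg _)

lemma ValI_empty : ValI β ψ T ∅ = 1 := by
  have h0 : ∀ t ∈ TI T ∅, t = 0 := fun t ht => funext fun j => (mem_TI.1 ht).2 j (notMem_empty j)
  have h1 : Fintype.card (TI T ∅) = 1 :=
    Fintype.card_eq_one_iff.2 ⟨0, fun t => Subtype.ext (h0 _ t.2)⟩
  rw [ValI, h1, Pj_of_eigen, ValB_nsq]
  · simp [psiI, ValB_nsq_delta]
  · intro x
    have h2 : (pw ν (TI T ∅)).subtype x = 0 := Prod.ext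
      (funext fun i => h0 _ ((mem_pw.1 x.2).1 i)) (funext fun i => h0 _ ((mem_pw.1 x.2).2 i))
    rw [h2]
    simp

theorem ValI_step (hp : p ≠ 2) (hβ : ∀ j, SymB (β j)) (hT : Iso (BK β) T) {I : Finset K} {j : K}
    (hj : j ∉ I) {g : ℝ} (hg : PBc (β j) (ψ j) ((TI T (insert j I)).map (LinearMap.proj j)) g) :
    ValI β ψ T (insert j I) ≤ g * ValI β ψ T I := by
  have hB := SymB_BK hβ
  have h0 : ∀ t ∈ TI T I, t j = 0 := fun t ht => (mem_TI.1 ht).2 j hj
  have hle : TI T I ≤ TI T (insert j I) := fun t ht => mem_TI.2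
    ⟨(mem_TI.1 ht).1, fun k hk => (mem_TI.1 ht).2 k fun h => hk (mem_insert_of_mem h)⟩
  obtain ⟨C, hC⟩ := (TI T I).exists_isCompl
  obtain ⟨S, hS⟩ : ∃ S, S = C ⊓ TI T (insert j I) := ⟨_, rfl⟩
  have hS1 : S ≤ TI T (insert j I) := hS ▸ inf_le_right
  have hS2 : TI T I ⊔ S = TI T (insert j I) := by
    rw [hS, ← sup_inf_assoc_of_le _ hle, hC.sup_eq_top, top_inf_eq]
  have hS3 : TI T I ⊓ S = ⊥ := by rw [hS, ← inf_assoc, hC.inf_eq_bot, bot_inf_eq]
  have hc : Fintype.card (TI T (insert j I)) = Fintype.card (TI T I) * Fintype.card S := by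
    have := Submodule.finrank_sup_add_finrank_inf_eq (TI T I) S
    rw [hS2, hS3, finrank_bot, add_zero] at this
    rw [card_eq_pow (p := p), card_eq_pow (p := p), card_eq_pow (p := p), this, pow_add]
  have hm : (TI T (insert j I)).map (LinearMap.proj j) = S.map (LinearMap.proj j) := by
    have h1 : (TI T I).map (LinearMap.proj j) = ⊥ :=
      eq_bot_iff.2 fun x ⟨t, ht, e⟩ => e ▸ h0 t ht
    rw [← hS2, Submodule.map_sup, h1, bot_sup_eq]
  obtain ⟨Φ, hΦ⟩ : ∃ Φ : (ν → K → X) → ℂ,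
      Φ = fun l => ∏ k ∈ univ.erase j, psiI ψ I k fun i => l i k := ⟨_, rfl⟩
  have hΦ1 : ∀ (l : ν → K → X) (m : ν → X), Φ (l + fun i => Pi.single j (m i)) = Φ l :=
    fun l m => by
      rw [hΦ]
      refine prod_congr rfl fun k hk => congrArg _ (funext fun i => ?_)
      simp [Pi.single_eq_of_ne (ne_of_mem_erase hk)]
  have hΦ2 : tens (psiI ψ (insert j I)) = fun l => Φ l * ψ j fun i => l i j := funext fun l => by
    rw [hΦ, tens, ← prod_erase_mul _ _ (mem_univ j), psiI, if_pos (mem_insert_self j I)]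
    refine congrArg (· * _) (prod_congr rfl fun k hk => ?_)
    simp only [psiI, mem_insert, ne_of_mem_erase hk, false_or]
  have hΦ3 : tens (psiI ψ I) = fun l => Φ l * (ind {0} fun i => l i j : ℝ) := funext fun l => by
    rw [hΦ, tens, ← prod_erase_mul _ _ (mem_univ j), psiI, if_neg hj]
  have h1 := ValB_Pj_inv hβ h0 hΦ1
  have h2 := PB hp hB (hβ j) (LinearMap.single (ZMod p) (fun _ => X) j) (LinearMap.proj j)
    (fun x => Pi.single_eq_same (M := fun _ => X) j x) (ValB_single j) S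
    (fun x hx y hy => ValB_iso hT _ x (hS1 hx) y (hS1 hy))
    (fun t ht e => by
      have h3 : t ∈ TI T I ⊓ S := ⟨mem_TI.2 ⟨(mem_TI.1 (hS1 ht)).1, fun k hk => by
        by_cases h4 : k = j
        · exact h4 ▸ e
        · exact (mem_TI.1 (hS1 ht)).2 k fun h => (mem_insert.1 h).elim h4 hk⟩, ht⟩
      rwa [hS3] at h3) _ h1 (ψ j) (hm ▸ hg)
  have h3 := ValB_Pj_le hp hB hle hS1 (ValB_iso hT _) (tens (psiI ψ (insert j I)))
  have h4 : (0 : ℝ) < (Fintype.card X : ℝ) ^ Fintype.card ν := by positivity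
  rw [ValB_nsq_inv h1, mul_div_cancel_left₀ _ h4.ne'] at h2
  rw [ValI, ValI, hc, hΦ3, ValB_Pj_mul h0 Φ fun l => (ind {0} l : ℂ), Nat.cast_mul, mul_pow,
    mul_assoc, mul_left_comm g]
  refine mul_le_mul_of_nonneg_left (le_trans ?_ h2) (by positivity)
  refine mul_le_mul_of_nonneg_left (h3.trans_eq ?_) (by positivity)
  rw [hΦ2, ValB_Pj_mul h0]
  rfl

theorem valT_sq_le (hp : p ≠ 2) (hβ : ∀ j, SymB (β j)) (hT : Iso (BK β) T) :
    ‖valT T (tens ψ)‖ ^ 2 ≤ ValI β ψ T univ := by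
  have h1 : TI T univ = T := by
    ext t
    simp [mem_TI]
  have h2 : psiI ψ univ = ψ := funext fun j => if_pos (mem_univ j)
  obtain ⟨A, hA⟩ : ∃ A, A = {l : ν → K → X | ∀ i, l i ∈ T} := ⟨_, rfl⟩
  have hA1 : ∀ l : ν → K → X, (∀ i, l i ∈ T) → ind A l = 1 := fun l h => ind_of_mem (hA ▸ h)
  have hA0 : ∀ l : ν → K → X, (¬ ∀ i, l i ∈ T) → ind A l = 0 := fun l h => ind_of_not (hA ▸ h)
  obtain ⟨u, hu⟩ : ∃ u : (ν → K → X) → ℂ, u = fun l => (ind A l : ℂ) := ⟨_, rfl⟩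
  have h3 : Pj (BK β) (pw ν T).subtype 0 u = u := Pj_of_eigen _ _ fun x => funext fun l => by
    obtain ⟨a, b⟩ := mem_pw.1 x.2
    by_cases h : ∀ i, l i ∈ T
    · have c : ∀ v : ν → K → X, (∀ i, v i ∈ T) → bt (BK β) x.1.2 v = 0 :=
        fun v hv => sum_eq_zero fun i _ => hT _ (b i) _ (hv i)
      have d : ∀ i, (l + x.1.1) i ∈ T := fun i => T.add_mem (h i) (a i)
      simp only [W, hu, Submodule.subtype_apply, c l h, c _ a, hA1 _ h, hA1 _ d]
      simp
    · have d : ¬ ∀ i, (l + x.1.1) i ∈ T := fun e => h fun i => (T.add_mem_iff_left (a i)).1 (e i)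
      simp only [W, hu, Submodule.subtype_apply, hA0 _ h, hA0 _ d]
      simp
  have h4 : nsq u = (Fintype.card T : ℝ) ^ Fintype.card ν := by
    have a : ∀ l : ν → K → X, ind A l = ∏ i, ind (T : Set (K → X)) (l i) := fun l => by
      by_cases h : ∀ i, l i ∈ T
      · rw [hA1 l h, prod_eq_one fun i _ => ind_of_mem (A := (T : Set (K → X))) (h i)]
      · obtain ⟨i, hi⟩ := not_forall.1 h
        rw [hA0 l h, prod_eq_zero (mem_univ i) (ind_of_not (A := (T : Set (K → X))) hi)]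
    have b : ∑ y, ind (T : Set (K → X)) y = Fintype.card T := by
      classical
      simp [ind, Fintype.card_subtype]
    simp only [nsq, hu, ValB_ind_sq]
    simp only [a]
    rw [← Fintype.prod_sum fun _ y => ind (T : Set (K → X)) y, b, prod_const, card_univ]
  have h5 : valT T (tens ψ) = ip u (tens ψ) := by simp [valT, ip, hu, hA]
  rw [ValI, h1, h2, h5, ← h3, ← ip_Pj hp (SymB_BK hβ), ← h4]
  exact norm_ip_sq_le _ _

lemma ValB_bij {N : Submodule (ZMod p) (K → X)} {j : K} (hi : ∀ t ∈ N, t j = 0 → t = 0)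
    (hs : N.map (LinearMap.proj j) = ⊤) :
    Function.Bijective (fun t : N => t.1 j) ∧
      Function.Bijective fun x : pw ν N => ValB_pr j x.1 := by
  have h1 : ∀ t ∈ N, ∀ t' ∈ N, t j = t' j → t = t' := fun t ht t' ht' e =>
    sub_eq_zero.1 (hi _ (N.sub_mem ht ht') (sub_eq_zero.2 e))
  have h2 : ∀ y : X, ∃ t ∈ N, t j = y := fun y =>
    Submodule.mem_map.1 (hs ▸ Submodule.mem_top : y ∈ N.map (LinearMap.proj j))
  choose f hf1 hf2 using h2
  refine ⟨⟨fun t t' e => Subtype.ext (h1 _ t.2 _ t'.2 e), fun y => ⟨⟨f y, hf1 y⟩, hf2 y⟩⟩,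
    fun x x' e => Subtype.ext (Prod.ext (funext fun i => ?_) (funext fun i => ?_)), fun y =>
    ⟨⟨(fun i => f (y.1 i), fun i => f (y.2 i)), mem_pw.2 ⟨fun i => hf1 _, fun i => hf1 _⟩⟩,
      Prod.ext (funext fun i => hf2 _) (funext fun i => hf2 _)⟩⟩
  · exact h1 _ ((mem_pw.1 x.2).1 i) _ ((mem_pw.1 x'.2).1 i) (congrFun (congrArg Prod.fst e) i)
  · exact h1 _ ((mem_pw.1 x.2).2 i) _ ((mem_pw.1 x'.2).2 i) (congrFun (congrArg Prod.snd e) i)

theorem ValI_triple (hp : p ≠ 2) (hβ : ∀ j, SymB (β j)) (hn : ∀ j, NdB (β j))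
    (hT : Iso (BK β) T) {I : Finset K} (hI : 3 ≤ I.card)
    (hinj : ∀ j ∈ I, ∀ t ∈ TI T I, t j = 0 → t = 0)
    (hsurj : ∀ j ∈ I, (TI T I).map (LinearMap.proj j) = ⊤) {θ : ℝ}
    (h1 : ∀ j, nsq (ψ j) ≤ 1) (hP : ∀ j, PP (β j) θ (ψ j)) : ValI β ψ T I ≤ √θ := by
  obtain ⟨a, ha, b, hb, c, hc, hab, hac, hbc⟩ := two_lt_card.1 hI
  have hbij := fun j hj => ValB_bij (ν := ν) (hinj j hj) (hsurj j hj)
  obtain ⟨D, hD⟩ : ∃ D : ℝ, D = (Fintype.card X : ℝ) ^ Fintype.card ν := ⟨_, rfl⟩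
  have hD0 : 0 < D := by rw [hD]; positivity
  have hcard : (Fintype.card (GX X ν) : ℝ) = D * D := by
    rw [Fintype.card_prod, Fintype.card_fun, hD]
    push_cast
    rfl
  obtain ⟨F, hF⟩ : ∃ F : K → pw ν (TI T I) → ℝ,
      F = fun j x => ‖Xi (β j) (psiI ψ I j) (ValB_pr j x.1)‖ := ⟨_, rfl⟩
  have hF0 : ∀ j x, 0 ≤ F j x := fun j x => hF ▸ norm_nonneg _
  have hF1 : ∀ j x, F j x ≤ 1 := fun j x => by
    rw [hF]
    refine (norm_Xi_le _ _ _).trans ?_
    unfold psiI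
    split_ifs
    exacts [h1 j, ValB_nsq_delta.le]
  have hE : ∀ j ∈ I, ∀ k, 𝔼 x, F j x ^ k = (∑ y, ‖Xi (β j) (ψ j) y‖ ^ k) / (D * D) :=
    fun j hj k => by
      rw [← hcard, ← Fintype.expect_eq_sum_div_card]
      refine Fintype.expect_bijective _ (hbij j hj).2 _ _ fun x => ?_
      simp only [hF, psiI, if_pos hj]
  have h2 : 𝔼 x, F a x ^ 2 ≤ 1 / D := by
    rw [hE a ha, sum_Xi_sq (hβ a) (hn a), ← hD, mul_div_mul_left _ _ hD0.ne']
    exact div_le_div_of_nonneg_right (pow_le_one₀ (nsq_nonneg _) (h1 a)) hD0.le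
  have h4 : ∀ j ∈ I, 𝔼 x, (F j x ^ 2) ^ 2 ≤ θ / D := fun j hj => by
    simp only [← pow_mul]
    rw [hE j hj, ← mul_div_mul_right θ D hD0.ne']
    exact div_le_div_of_nonneg_right (hD ▸ hP j) (by positivity)
  have h5 : 0 ≤ θ / D := (expect_nonneg fun x _ => by positivity).trans (h4 a ha)
  have h6 : 𝔼 x, (F b x * F c x) ^ 2 ≤ θ / D := by
    simp only [mul_pow]
    refine (expect_mul_le_sqrt _ _).trans ((mul_le_mul (Real.sqrt_le_sqrt (h4 b hb))
      (Real.sqrt_le_sqrt (h4 c hc)) (by positivity) (by positivity)).trans_eq ?_)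
    exact Real.mul_self_sqrt h5
  have h7 : nsq (Pj (BK β) (pw ν (TI T I)).subtype 0 (tens (psiI ψ I))) ≤
      𝔼 x, F a x * (F b x * F c x) := by
    have e := congrArg norm (nsq_Pj hp (SymB_BK hβ) (sy_pw_of_iso (ν := ν) (ValB_iso hT I)) 0
      (tens (psiI ψ I)))
    rw [Complex.norm_real, Real.norm_of_nonneg (nsq_nonneg _), ip_Pj_eq] at e
    rw [e]
    refine (RCLike.norm_expect_le (K := ℂ)).trans (expect_le_expect fun x _ => ?_)
    have e1 : ‖ee (-(0 : Module.Dual (ZMod p) (pw ν (TI T I))) x) * ip (tens (psiI ψ I))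
        (W (BK β) ((pw ν (TI T I)).subtype x) (tens (psiI ψ I)))‖ = ∏ j, F j x := by
      rw [norm_mul, norm_ee, one_mul, ← Xi, ValB_Xi, norm_prod, hF]
      rfl
    rw [e1, ← prod_pair (f := fun j => F j x) hbc,
      ← prod_insert (f := fun j => F j x) (by simp [hab, hac])]
    exact prod_le_prod_of_subset_of_le_one (subset_univ _) (fun j _ => hF0 j x)
      fun j _ _ => hF1 j x
  have h8 := h7.trans ((expect_mul_le_sqrt _ _).trans (mul_le_mul (Real.sqrt_le_sqrt h2)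
    (Real.sqrt_le_sqrt h6) (by positivity) (by positivity)))
  rw [ValI, Fintype.card_of_bijective (hbij a ha).1, ← hD]
  refine (mul_le_mul_of_nonneg_left h8 hD0.le).trans_eq ?_
  rw [Real.sqrt_div' _ hD0.le, Real.sqrt_div' _ hD0.le, Real.sqrt_one, div_mul_div_comm,
    Real.mul_self_sqrt hD0.le, one_mul, mul_div_cancel₀ _ hD0.ne']

lemma ValI_anti (hp : p ≠ 2) (hβ : ∀ j, SymB (β j)) (hT : Iso (BK β) T)
    (h1 : ∀ j, nsq (ψ j) ≤ 1) (hG : ∀ j, GG (β j) 1 (ψ j)) {I I' : Finset K} (h : I ⊆ I') :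
    ValI β ψ T I' ≤ ValI β ψ T I := by
  have key : ∀ J : Finset K, ValI β ψ T (J ∪ I) ≤ ValI β ψ T I := fun J => by
    induction J using Finset.induction_on with
    | empty => rw [empty_union]
    | insert j J _ ih =>
      rw [insert_union]
      by_cases hj : j ∈ J ∪ I
      · rwa [insert_eq_of_mem hj]
      · exact (ValI_step hp hβ hT hj (PBc_one hp (hβ j) (h1 j) (hG j) _)).trans
          ((one_mul _).trans_le ih)
  exact union_eq_left.2 h ▸ key I'

theorem valT_le_one (hp : p ≠ 2) (hβ : ∀ j, SymB (β j)) (hT : Iso (BK β) T)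
    (h1 : ∀ j, nsq (ψ j) ≤ 1) (hG : ∀ j, GG (β j) 1 (ψ j)) : ‖valT T (tens ψ)‖ ≤ 1 :=
  (sq_le_one_iff₀ (norm_nonneg _)).1 ((valT_sq_le hp hβ hT).trans
    ((ValI_anti hp hβ hT h1 hG (empty_subset _)).trans_eq ValI_empty))

lemma diag_mem_of_valT {ι : Type} {κ : Matrix ι ν (ZMod p)} {e : ι → X}
    (he : Submodule.span (ZMod p) (Set.range e) = ⊤) (hs : ∀ j, OnSl κ e (ψ j))
    (h : valT T (tens ψ) ≠ 0) (x : X) : (fun _ => x) ∈ T := by
  obtain ⟨l, -, hl⟩ := exists_ne_zero_of_sum_ne_zero h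
  have h1 : ∀ i, l i ∈ T := by
    by_contra h2
    exact hl (by rw [ind_of_not (A := {l : ν → K → X | ∀ i, l i ∈ T}) h2]; simp)
  have h2 : ∀ j, act κ (fun i => l i j) = e := fun j =>
    hs j _ (prod_ne_zero_iff.mp (right_ne_zero_of_mul hl) j (mem_univ j))
  have h3 : Submodule.span (ZMod p) (Set.range e) ≤
      T.comap (LinearMap.pi fun _ : K => LinearMap.id) := by
    refine Submodule.span_le.mpr ?_
    rintro _ ⟨a, rfl⟩
    have h4 : (LinearMap.pi fun _ : K => (LinearMap.id : X →ₗ[ZMod p] X)) (e a) =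
        ∑ i, κ a i • l i := by
      funext j
      rw [Finset.sum_apply]
      exact (congrFun (h2 j) a).symm
    show _ ∈ T
    rw [h4]
    exact T.sum_mem fun i _ => T.smul_mem _ (h1 i)
  exact h3 (he ▸ Submodule.mem_top)

theorem valT_struct (hp : p ≠ 2) [Nontrivial X] {β : Bil p X} (hβ : SymB β) (hn : NdB β)
    {K₀ : Type} [Fintype K₀] [DecidableEq K₀] {ψ : K₀ ⊕ K₀ → (ν → X) → ℂ} {θ : ℝ} (h0 : 0 ≤ θ)
    (h1 : θ ≤ 1) (hψ : ∀ j, Prim (sgB β K₀ j) θ (ψ j)) {ι : Type} {κ : Matrix ι ν (ZMod p)}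
    {e : ι → X} (he : Submodule.span (ZMod p) (Set.range e) = ⊤) (hs : ∀ j, OnSl κ e (ψ j))
    {T : Submodule (ZMod p) (K₀ ⊕ K₀ → X)} (hT : Iso (BK (sgB β K₀)) T) :
    ‖valT T (tens ψ)‖ ^ 2 ≤ √θ ∨ ∃ σ : Equiv.Perm K₀, T = Tσ p X σ := by
  refine or_iff_not_imp_left.mpr fun hlt => ?_
  have hS : ∀ j, SymB (sgB β K₀ j) := by
    rintro (j | j)
    · exact hβ
    · exact fun x y => congrArg Neg.neg (hβ x y)
  have hN : ∀ j, NdB (sgB β K₀ j) := by
    rintro (j | j)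
    · exact hn
    · exact fun x hx => hn x fun y => neg_eq_zero.mp (hx y)
  have hO : ∀ j D, NdOn β D → NdOn (sgB β K₀ j) D := by
    rintro (j | j) D hD
    · exact hD
    · exact fun x hx h => hD x hx fun y hy => neg_eq_zero.mp (h y hy)
  have hO' : ∀ j D, NdOn (sgB β K₀ j) D → NdOn β D := by
    rintro (j | j) D hD
    · exact hD
    · exact fun x hx h => hD x hx fun y hy => neg_eq_zero.mpr (h y hy)
  have h2 : ∀ j, nsq (ψ j) ≤ 1 := fun j => (hψ j).1
  have hG : ∀ j, GG (sgB β K₀ j) 1 (ψ j) := fun j N a b φ => ((hψ j).2.1 N a b φ).trans h1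
  have hv : ∀ I, ¬ ValI (sgB β K₀) ψ T I ≤ √θ := fun I hI =>
    hlt ((valT_sq_le hp hS hT).trans ((ValI_anti hp hS hT h2 hG (subset_univ I)).trans hI))
  have h3 : ∀ I j, j ∉ I → NdOn β ((TI T (insert j I)).map (LinearMap.proj j)) ∧
      ((TI T (insert j I)).map (LinearMap.proj j) = ⊥ ∨
        (TI T (insert j I)).map (LinearMap.proj j) = ⊤) := fun I j hj => by
    by_contra h4
    have h5 := ValI_step hp hS hT hj
      (PBc_prim h0 (hψ j) fun h6 => h4 ⟨hO' j _ h6.1, h6.2⟩)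
    have h6 := ValI_anti hp hS hT h2 hG (empty_subset I)
    rw [ValI_empty] at h6
    refine hv (insert j I) (h5.trans ((mul_le_of_le_one_right h0 h6).trans ?_))
    exact Real.le_sqrt_of_sq_le (by nlinarith)
  refine struct_pairing hp hβ hn T hT (diag_mem_of_valT he hs fun h => hlt ?_) h3
    fun I hI hm => ?_
  · rw [h]
    simp
  · by_contra h4
    have h5 := fun j (hj : j ∈ I) => va_top hj hI (hm j hj) (h3 _ j (notMem_erase j I)).2
    exact hv I (ValI_triple hp hS hN hT (by omega) (fun j hj => (h5 j hj).1)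
      (fun j hj => (h5 j hj).2) h2 fun j => (hψ j).2.2.2)

lemma valT_Tσ {K₀ : Type} [Fintype K₀] [DecidableEq K₀] (σ : Equiv.Perm K₀)
    (a a' : K₀ → (ν → X) → ℂ) :
    valT (Tσ p X σ) (tens (Sum.elim a fun i l => conj (a' i l))) =
      ∏ i, ip (a' (σ i)) (a i) := by
  simp only [ip]
  rw [Fintype.prod_sum, valT]
  refine (Fintype.sum_of_injective
    (fun (f : K₀ → ν → X) (i : ν) => Sum.elim (fun k => f k i) fun k => f (σ.symm k) i)
    (fun f g h => funext fun k => funext fun i => congrFun (congrFun h i) (Sum.inl k)) _ _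
    (fun l hl => ?_) fun f => ?_).symm
  · rw [ind_of_not, Complex.ofReal_zero, zero_mul]
    refine fun h => hl ⟨fun k i => l i (Sum.inl k), funext fun i => funext ?_⟩
    rintro (k | k)
    · rfl
    · have := h i (σ.symm k)
      rw [σ.apply_symm_apply] at this
      exact this.symm
  · rw [ind_of_mem, Complex.ofReal_one, one_mul, tens, Fintype.prod_sum_type, prod_mul_distrib,
      mul_comm]
    · congr 1
      refine Fintype.prod_equiv σ _ _ fun i => ?_
      simp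
    · intro i k
      simp

end Pool.Agent.Work.MP_4523ee_co.Fp
end

-- merged part: Pool.Agent.Work.MP_4523ee_co.Fp.Wick
section
/-!
Wick formula and moment bound (paper section 2).
-/

set_option autoImplicit false
set_option linter.unusedSectionVars false

namespace Pool.Agent.Work.MP_4523ee_co.Fp

open Finset Matrix
open scoped BigOperators ComplexConjugate

variable {p : ℕ} [Fact p.Prime]

section
variable {X : Type} [AddCommGroup X] [Module (ZMod p) X] [Fintype X]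
variable {ν : Type} [Fintype ν] [DecidableEq ν] {K : Type} [Fintype K] [DecidableEq K]

lemma prod_FF (β : K → Bil p X) (ψ : K → (ν → X) → ℂ) (M : SymM p ν) :
    ∏ j, FF (β j) (ψ j) M = FF (BK β) (tens ψ) M := by
  unfold FF
  rw [Finset.prod_univ_sum, Fintype.piFinset_univ]
  refine Fintype.sum_equiv (Equiv.piComm fun (_ : K) (_ : ν) => X) _ _ fun f => ?_
  rw [Finset.prod_mul_distrib]
  congr 1
  unfold chi chQ
  rw [← ee_sum]
  congr 1
  simp only [gram, Matrix.of_apply, BK_apply, Finset.mul_sum]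
  rw [Finset.sum_comm]
  refine Finset.sum_congr rfl fun i _ => ?_
  rw [Finset.sum_comm]
  rfl

lemma wick_iso_span {Y : Type} [AddCommGroup Y] [Module (ZMod p) Y] (B : Bil p Y) (l : ν → Y) :
    Iso B (Submodule.span (ZMod p) (Set.range l)) ↔ gram B l = 0 := by
  constructor
  · intro h
    ext i j
    exact h _ (Submodule.subset_span ⟨i, rfl⟩) _ (Submodule.subset_span ⟨j, rfl⟩)
  · intro h x hx y hy
    have h0 : ∀ i j, B (l i) (l j) = 0 := fun i j => congrFun (congrFun h i) j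
    have h1 : ∀ j, B x (l j) = 0 := fun j => by
      have : Submodule.span (ZMod p) (Set.range l) ≤ LinearMap.ker (B.flip (l j)) := by
        rw [Submodule.span_le]
        rintro _ ⟨i, rfl⟩
        exact h0 i j
      exact this hx
    have : Submodule.span (ZMod p) (Set.range l) ≤ LinearMap.ker (B x) := by
      rw [Submodule.span_le]
      rintro _ ⟨j, rfl⟩
      exact h1 j
    exact this hy

/-- the mean of `FF` is the sum over families spanning an isotropic subspace -/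
lemma expect_FF (hp : p ≠ 2) {Y : Type} [AddCommGroup Y] [Module (ZMod p) Y] [Fintype Y]
    {B : Bil p Y} (hB : SymB B) (Ψ : (ν → Y) → ℂ) :
    𝔼 M, FF B Ψ M = ∑ l : ν → Y,
      (ind {l : ν → Y | Iso B (Submodule.span (ZMod p) (Set.range l))} l : ℂ) * Ψ l := by
  unfold FF
  rw [Finset.expect_sum_comm]
  refine Finset.sum_congr rfl fun l _ => ?_
  rw [← Finset.mul_expect, mul_comm]
  congr 1
  by_cases h : gram B l = 0
  · rw [ind_of_mem (show l ∈ {l : ν → Y | Iso B (Submodule.span (ZMod p) (Set.range l))} from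
      (wick_iso_span B l).2 h)]
    simp only [chi, h, zero_chQ]
    rw [Finset.expect_const Finset.univ_nonempty]
    simp
  · rw [ind_of_not (show l ∉ {l : ν → Y | Iso B (Submodule.span (ZMod p) (Set.range l))} from
      fun h' => h ((wick_iso_span B l).1 h'))]
    unfold chi
    rw [expect_chQ hp]
    · simp
    · rw [gram_symm hB, ← two_smul (ZMod p)]
      intro h2
      rcases smul_eq_zero.1 h2 with h3 | h3
      · exact two_ne hp h3
      · exact h h3

/-- Moebius form of inclusion-exclusion: there are bounded integer coefficients, equal to one on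
maximal isotropic subspaces and supported on isotropic ones. (Either inclusion-exclusion over the
maximal isotropic subspaces, or downward induction `c T = 1 - ∑ T' > T, c T'`.) -/
lemma exists_moebius {Y : Type} [AddCommGroup Y] [Module (ZMod p) Y] [Fintype Y] (B : Bil p Y) :
    ∃ (s : Finset (Submodule (ZMod p) Y)) (c : Submodule (ZMod p) Y → ℤ),
      (∀ T, T ∈ s ↔ Iso B T) ∧
      (∀ T ∈ s, (∀ T' ∈ s, T ≤ T' → T' = T) → c T = 1) ∧
      (∑ T ∈ s, |c T| ≤ 2 ^ 2 ^ Fintype.card Y) ∧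
      ∀ S : Submodule (ZMod p) Y, ∑ T ∈ s, (c T : ℝ) * ind {T | S ≤ T} T = ind {S | Iso B S} S := by
  classical
  have : Finite (Submodule (ZMod p) Y) :=
    Finite.of_injective (fun T : Submodule (ZMod p) Y => (T : Set Y)) SetLike.coe_injective
  let _ : Fintype (Submodule (ZMod p) Y) := Fintype.ofFinite _
  set s : Finset (Submodule (ZMod p) Y) := univ.filter fun T => Iso B T with hs
  have hms : ∀ T, T ∈ s ↔ Iso B T := fun T => by simp [hs]
  set mx : Finset (Submodule (ZMod p) Y) := s.filter fun T => ∀ T' ∈ s, T ≤ T' → T' = T with hmx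
  set PW : Finset (Finset (Submodule (ZMod p) Y)) := mx.powerset.erase ∅ with hPW
  have hinf : ∀ A ∈ PW, A.inf id ∈ s := by
    intro A hA
    rw [hPW, mem_erase, mem_powerset] at hA
    obtain ⟨T, hT⟩ := Finset.nonempty_iff_ne_empty.2 hA.1
    have h1 : Iso B T := (hms T).1 (mem_filter.1 (hA.2 hT)).1
    have h2 : A.inf id ≤ T := Finset.inf_le (f := id) hT
    exact (hms _).2 fun x hx y hy => h1 x (h2 hx) y (h2 hy)
  refine ⟨s, fun T => ∑ A ∈ PW.filter (fun A => A.inf id = T), -(-1) ^ A.card, hms, ?_, ?_, ?_⟩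
  · intro T hT hmax
    have : PW.filter (fun A => A.inf id = T) = {{T}} := by
      ext A
      simp only [mem_filter, mem_singleton, hPW, mem_erase, mem_powerset]
      constructor
      · rintro ⟨⟨h1, h2⟩, h3⟩
        refine Finset.eq_singleton_iff_nonempty_unique_mem.2
          ⟨Finset.nonempty_iff_ne_empty.2 h1, fun T' hT' => ?_⟩
        exact hmax T' (mem_filter.1 (h2 hT')).1 (h3 ▸ Finset.inf_le (f := id) hT')
      · rintro rfl
        refine ⟨⟨by simp, ?_⟩, by simp⟩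
        rw [singleton_subset_iff]
        exact mem_filter.2 ⟨hT, hmax⟩
    simp [this]
  · calc ∑ T ∈ s, |∑ A ∈ PW.filter (fun A => A.inf id = T), -(-1 : ℤ) ^ A.card|
        ≤ ∑ T ∈ s, ∑ A ∈ PW.filter (fun A => A.inf id = T), (1 : ℤ) := by
          refine sum_le_sum fun T _ => (abs_sum_le_sum_abs _ _).trans (le_of_eq ?_)
          refine sum_congr rfl fun A _ => ?_
          simp
      _ = ∑ A ∈ PW, (1 : ℤ) := sum_fiberwise_of_maps_to hinf _
      _ ≤ 2 ^ 2 ^ Fintype.card Y := by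
          rw [sum_const, nsmul_eq_mul, mul_one]
          have h1 : PW.card ≤ 2 ^ mx.card := by
            rw [← card_powerset]
            exact card_erase_le
          have h2 : mx.card ≤ 2 ^ Fintype.card Y := by
            refine (card_le_univ _).trans ?_
            rw [← Nat.card_eq_fintype_card]
            exact card_submodule_le
          exact_mod_cast h1.trans (Nat.pow_le_pow_right (by norm_num) h2)
  · intro S
    have e1 : ∑ T ∈ s, ((∑ A ∈ PW.filter (fun A => A.inf id = T), -(-1 : ℤ) ^ A.card : ℤ) : ℝ) *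
        ind {T | S ≤ T} T =
        ∑ A ∈ PW, (-(-1 : ℝ) ^ A.card) * ind {T | S ≤ T} (A.inf id) := by
      rw [← sum_fiberwise_of_maps_to hinf]
      refine sum_congr rfl fun T _ => ?_
      push_cast
      rw [sum_mul]
      refine sum_congr rfl fun A hA => ?_
      rw [(mem_filter.1 hA).2]
    rw [e1]
    set mS := mx.filter fun T => S ≤ T with hmS
    have e2 : ∑ A ∈ mx.powerset, (-(-1 : ℝ) ^ A.card) * ind {T | S ≤ T} (A.inf id) =
        -∑ A ∈ mS.powerset, (-1 : ℝ) ^ A.card := by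
      have : mS.powerset = mx.powerset.filter fun A => S ≤ A.inf id := by
        ext A
        simp only [mem_powerset, mem_filter, hmS, Finset.le_inf_iff, id]
        constructor
        · intro h
          exact ⟨fun T hT => (mem_filter.1 (h hT)).1, fun T hT => (mem_filter.1 (h hT)).2⟩
        · rintro ⟨h1, h2⟩ T hT
          exact mem_filter.2 ⟨h1 hT, h2 T hT⟩
      rw [this, sum_filter, ← sum_neg_distrib]
      refine sum_congr rfl fun A _ => ?_
      by_cases h : S ≤ A.inf id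
      · rw [ind_of_mem (show A.inf id ∈ {T | S ≤ T} from h), if_pos h, mul_one]
      · rw [ind_of_not (show A.inf id ∉ {T | S ≤ T} from h), if_neg h, mul_zero, neg_zero]
    have e3 := Finset.sum_erase_add mx.powerset
      (fun A => (-(-1 : ℝ) ^ A.card) * ind {T | S ≤ T} (A.inf id)) (empty_mem_powerset mx)
    rw [e2] at e3
    simp only [card_empty, pow_zero, inf_empty] at e3
    rw [ind_of_mem (show (⊤ : Submodule (ZMod p) Y) ∈ {T | S ≤ T} from (le_top : S ≤ ⊤))] at e3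
    have e4 : ∑ A ∈ mS.powerset, (-1 : ℝ) ^ A.card = if mS = ∅ then 1 else 0 := by
      have := Finset.sum_powerset_neg_one_pow_card (x := mS)
      exact_mod_cast this
    rw [e4] at e3
    by_cases h : Iso B S
    · rw [ind_of_mem (show S ∈ {S | Iso B S} from h)]
      obtain ⟨T, hST, hT⟩ := Finset.exists_le_maximal s ((hms S).2 h)
      have : mS ≠ ∅ := by
        refine Finset.nonempty_iff_ne_empty.1 ⟨T, mem_filter.2 ⟨mem_filter.2 ⟨hT.1, ?_⟩, hST⟩⟩
        exact fun T' hT' hle => le_antisymm (hT.2 hT' hle) hle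
      rw [if_neg this] at e3
      linarith
    · rw [ind_of_not (show S ∉ {S | Iso B S} from h)]
      have : mS = ∅ := by
        rw [eq_empty_iff_forall_notMem]
        intro T hT
        have h1 := mem_filter.1 hT
        have h2 : Iso B T := (hms T).1 (mem_filter.1 h1.1).1
        exact h fun x hx y hy => h2 x (h1.2 hx) y (h1.2 hy)
      rw [if_pos this] at e3
      linarith

/-- the mean of a product as a signed sum of values of isotropic subspaces -/
lemma wick_expand (hp : p ≠ 2) {β : K → Bil p X} (hβ : ∀ j, SymB (β j))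
    (ψ : K → (ν → X) → ℂ) (s : Finset (Submodule (ZMod p) (K → X)))
    (c : Submodule (ZMod p) (K → X) → ℤ)
    (h : ∀ S : Submodule (ZMod p) (K → X),
      ∑ T ∈ s, (c T : ℝ) * ind {T | S ≤ T} T = ind {S | Iso (BK β) S} S) :
    𝔼 M, ∏ j, FF (β j) (ψ j) M = ∑ T ∈ s, (c T : ℂ) * valT T (tens ψ) := by
  simp only [prod_FF]
  rw [expect_FF hp (SymB_BK hβ)]
  simp only [valT, mul_sum]
  rw [sum_comm]
  refine sum_congr rfl fun l _ => ?_
  have h1 := h (Submodule.span (ZMod p) (Set.range l))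
  have h2 : ind {l : ν → K → X | Iso (BK β) (Submodule.span (ZMod p) (Set.range l))} l =
      ind {S | Iso (BK β) S} (Submodule.span (ZMod p) (Set.range l)) := rfl
  rw [h2, ← h1]
  push_cast
  rw [sum_mul]
  refine sum_congr rfl fun T _ => ?_
  rw [mul_assoc]
  congr 3
  by_cases hl : ∀ i, l i ∈ T
  · rw [ind_of_mem (show l ∈ {l : ν → K → X | ∀ i, l i ∈ T} from hl), ind_of_mem]
    show Submodule.span (ZMod p) (Set.range l) ≤ T
    rw [Submodule.span_le]
    rintro _ ⟨i, rfl⟩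
    exact hl i
  · rw [ind_of_not (show l ∉ {l : ν → K → X | ∀ i, l i ∈ T} from hl), ind_of_not]
    exact fun hle => hl fun i => hle (Submodule.subset_span ⟨i, rfl⟩)

lemma wick_prod {K₀ : Type} [Fintype K₀] [DecidableEq K₀] (β : Bil p X)
    (a a' : K₀ → (ν → X) → ℂ) (M : SymM p ν) :
    ∏ i, (FF β (a i) M * conj (FF β (a' i) M)) =
      ∏ j, FF (sgB β K₀ j) (Sum.elim a (fun i l => conj (a' i l)) j) M := by
  rw [Fintype.prod_sum_type, prod_mul_distrib]
  congr 1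
  exact prod_congr rfl fun i _ => (FF_neg_conj β (a' i) M).symm

lemma wick_sym {K₀ : Type} {β : Bil p X} (hβ : SymB β) (j : K₀ ⊕ K₀) : SymB (sgB β K₀ j) := by
  rcases j with j | j
  · exact hβ
  · intro x y
    show -β x y = -β y x
    rw [hβ x y]

lemma wick_const {K₀ : Type} [Fintype K₀] [DecidableEq K₀] {m k : ℕ} (hX : Fintype.card X ≤ k)
    (hK : Fintype.card K₀ ≤ m) :
    (2 : ℤ) ^ 2 ^ Fintype.card (K₀ ⊕ K₀ → X) ≤ 2 ^ 2 ^ k ^ (2 * m) := by
  have h1 : 1 ≤ k := le_trans Fintype.card_pos hX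
  have h2 : Fintype.card (K₀ ⊕ K₀ → X) ≤ k ^ (2 * m) := by
    rw [Fintype.card_fun, Fintype.card_sum]
    exact (Nat.pow_le_pow_left hX _).trans (Nat.pow_le_pow_right h1 (by omega))
  exact pow_le_pow_right₀ (by norm_num) (Nat.pow_le_pow_right (by norm_num) h2)

lemma wick_bound {α : Type} (s : Finset α) (c : α → ℤ) (v : α → ℂ) {t : ℝ} {N : ℤ} (ht : 0 ≤ t)
    (hv : ∀ T ∈ s, ‖v T‖ ≤ t) (hc : ∑ T ∈ s, |c T| ≤ N) :
    ‖∑ T ∈ s, (c T : ℂ) * v T‖ ≤ N * t := by
  refine (norm_sum_le _ _).trans ?_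
  have h1 : ∑ T ∈ s, ‖(c T : ℂ) * v T‖ ≤ ∑ T ∈ s, ((|c T| : ℤ) : ℝ) * t := by
    refine sum_le_sum fun T hT => ?_
    rw [norm_mul, Complex.norm_intCast, Int.cast_abs]
    exact mul_le_mul_of_nonneg_left (hv T hT) (abs_nonneg _)
  refine h1.trans ?_
  rw [← sum_mul]
  refine mul_le_mul_of_nonneg_right ?_ ht
  exact_mod_cast hc

end

theorem wick (hp : p ≠ 2) (m k : ℕ) : ∃ C : ℝ, 0 < C ∧
    ∀ (X : Type) [AddCommGroup X] [Module (ZMod p) X] [Fintype X] [Nontrivial X],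
    Fintype.card X ≤ k → ∀ (K₀ : Type) [Fintype K₀] [DecidableEq K₀], Fintype.card K₀ ≤ m →
    ∀ (ν : Type) [Fintype ν] [DecidableEq ν] (β : Bil p X), SymB β → NdB β →
    ∀ θ : ℝ, 0 ≤ θ → θ ≤ 1 → ∀ (ι : Type) (κ : Matrix ι ν (ZMod p)) (e : ι → X),
    Submodule.span (ZMod p) (Set.range e) = ⊤ → ∀ a a' : K₀ → (ν → X) → ℂ,
    (∀ i, Prim β θ (a i) ∧ OnSl κ e (a i)) → (∀ i, Prim β θ (a' i) ∧ OnSl κ e (a' i)) →
    ‖𝔼 M, ∏ i, (FF β (a i) M * conj (FF β (a' i) M)) -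
      ∑ σ : Equiv.Perm K₀, ∏ i, ip (a' (σ i)) (a i)‖ ≤ C * √(√θ) := by
  refine ⟨((2 ^ 2 ^ k ^ (2 * m) : ℤ) : ℝ), by positivity, ?_⟩
  intro X _ _ _ _ hX K₀ _ _ hK ν _ _ β hβ hn θ h0 h1 ι κ e he a a' ha ha'
  classical
  obtain ⟨s, c, hs, hc1, hc, hsum⟩ := exists_moebius (BK (sgB β K₀))
  simp only [wick_prod]
  rw [wick_expand hp (wick_sym hβ) _ s c hsum]
  set ψ : K₀ ⊕ K₀ → (ν → X) → ℂ := Sum.elim a fun i l => conj (a' i l) with hψ
  set P : Finset (Submodule (ZMod p) (K₀ ⊕ K₀ → X)) := univ.image fun σ => Tσ p X σ with hP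
  have hPs : P ⊆ s := by
    intro T hT
    obtain ⟨σ, -, rfl⟩ := mem_image.1 hT
    exact (hs _).2 (Tσ_iso β σ)
  have e1 : ∑ T ∈ P, (c T : ℂ) * valT T (tens ψ) =
      ∑ σ : Equiv.Perm K₀, ∏ i, ip (a' (σ i)) (a i) := by
    rw [hP, sum_image fun σ _ σ' _ h => Tσ_inj σ σ' h]
    refine sum_congr rfl fun σ _ => ?_
    rw [hc1 _ ((hs _).2 (Tσ_iso β σ)) fun T' hT' hle => Tσ_max hβ hn σ T' ((hs _).1 hT') hle,
      hψ, valT_Tσ]
    simp
  rw [← sum_sdiff hPs, e1, add_sub_cancel_right]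
  refine wick_bound _ c _ (Real.sqrt_nonneg _) (fun T hT => ?_) ?_
  · have hT' := mem_sdiff.1 hT
    have hpr : ∀ j, Prim (sgB β K₀ j) θ (ψ j) := by
      rintro (j | j)
      · exact (ha j).1
      · exact (ha' j).1.conj
    have hsl : ∀ j, OnSl κ e (ψ j) := by
      rintro (j | j)
      · exact (ha j).2
      · intro l hl
        refine (ha' j).2 l fun h => hl ?_
        show conj (a' j l) = 0
        rw [h, map_zero]
    rcases valT_struct hp hβ hn h0 h1 hpr he hsl ((hs T).1 hT'.1) with h | ⟨σ, h⟩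
    · exact Real.le_sqrt_of_sq_le h
    · exact absurd (mem_image.2 ⟨σ, mem_univ _, h.symm⟩) hT'.2
  · refine le_trans ?_ (hc.trans (wick_const hX hK))
    exact sum_le_sum_of_subset_of_nonneg sdiff_subset fun _ _ _ => abs_nonneg _

theorem MB (hp : p ≠ 2) (m k : ℕ) : ∃ C : ℝ, 0 < C ∧
    ∀ (X : Type) [AddCommGroup X] [Module (ZMod p) X] [Fintype X],
    Fintype.card X ≤ k → ∀ (ν : Type) [Fintype ν] [DecidableEq ν] (β : Bil p X), SymB β →
    ∀ a : (ν → X) → ℂ, nsq a ≤ 1 → GG β 1 a → 𝔼 M, ‖FF β a M‖ ^ (2 * m) ≤ C := by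
  refine ⟨((2 ^ 2 ^ k ^ (2 * m) : ℤ) : ℝ), by positivity, ?_⟩
  intro X _ _ _ hX ν _ _ β hβ a ha hG
  classical
  obtain ⟨s, c, hs, -, hc, hsum⟩ := exists_moebius (BK (sgB β (Fin m)))
  have e1 : (((𝔼 M, ‖FF β a M‖ ^ (2 * m) : ℝ)) : ℂ) =
      𝔼 M : SymM p ν, ∏ _i : Fin m, (FF β a M * conj (FF β a M)) := by
    rw [Complex.ofReal_expect]
    refine Finset.expect_congr rfl fun M _ => ?_
    rw [prod_const, card_univ, Fintype.card_fin, Complex.mul_conj', pow_mul]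
    push_cast
    rfl
  have e2 := wick_prod (K₀ := Fin m) β (fun _ => a) fun _ => a
  simp only [e2] at e1
  rw [wick_expand hp (wick_sym hβ) _ s c hsum] at e1
  have e3 := wick_bound s c
    (fun T => valT T (tens (Sum.elim (fun _ : Fin m => a) fun (_ : Fin m) l => conj (a l))))
    zero_le_one (fun T hT => valT_le_one hp (wick_sym hβ) ((hs T).1 hT) ?_ ?_)
    (hc.trans (wick_const hX (Fintype.card_fin m).le))
  · rw [← e1, Complex.norm_real, mul_one] at e3
    exact (le_abs_self _).trans e3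
  · rintro (j | j)
    · exact ha
    · show nsq (fun l => conj (a l)) ≤ 1
      simpa [nsq] using ha
  · rintro (j | j)
    · exact hG
    · exact hG.conj

end Pool.Agent.Work.MP_4523ee_co.Fp
end
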