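import Mathlib
import Pool.Agent.Work.MP_4523ee_co.Fp.PoE
import Pool.Agent.Work.MP_4523ee_co.Fp.End
import Pool.Agent.Work.MP_4523ee_co.Fp.Wick

-- merged part: Pool.Agent.Work.MP_4523ee_co.Fp.PoZ
section
/-!
Poisson tile: the theorem AVOID.
-/

set_option autoImplicit false
set_option linter.unusedSectionVars false

namespace Pool.Agent.Work.MP_4523ee_co.Fp.Po

open Finset Matrix
open scoped BigOperators ComplexConjugate

variable {p : ℕ} [Fact p.Prime]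

lemma poz_abs {A : Type} [Fintype A] [Nonempty A] (r : A → ℝ) (X : Set A)
    (hX : ∀ a, r a * ind X a = r a) (μ0 μ1 g : ℝ)
    (h0 : |dens X - Real.exp (-μ0)| ≤ g) (h1 : |𝔼 a, r a - Real.exp (-μ1)| ≤ g)
    (h2 : |𝔼 a, r a ^ 2 - Real.exp (-(2 * μ1 - μ0))| ≤ g) :
    𝔼 a, |Real.exp (μ1 - μ0) * r a - ind X a| ≤ (Real.exp (μ1 - μ0) + 1) * √g := by
  set c := Real.exp (μ1 - μ0) with hc
  have c0 : 0 < c := Real.exp_pos _
  have e1 : c * Real.exp (-μ1) = Real.exp (-μ0) := by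
    rw [hc, ← Real.exp_add]; congr 1; ring
  have e2 : c ^ 2 * Real.exp (-(2 * μ1 - μ0)) = Real.exp (-μ0) := by
    rw [hc, sq, ← Real.exp_add, ← Real.exp_add]; congr 1; ring
  have hi : ∀ a, ind X a ^ 2 = ind X a := fun a => by
    unfold ind
    split_ifs <;> norm_num
  have e3 : 𝔼 a, |c * r a - ind X a| ^ 2 = c ^ 2 * 𝔼 a, r a ^ 2 - 2 * c * 𝔼 a, r a + dens X := by
    rw [dens, Finset.mul_expect, Finset.mul_expect, ← Finset.expect_sub_distrib,
      ← Finset.expect_add_distrib]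
    refine Finset.expect_congr rfl fun a _ => ?_
    rw [sq_abs]
    linear_combination (-2 * c) * hX a + hi a
  have e4 : 𝔼 a, |c * r a - ind X a| ^ 2 ≤ (c + 1) ^ 2 * g := by
    rw [e3]
    have a0 := (abs_le.1 h0).2
    have a1 := mul_le_mul_of_nonneg_left (abs_le.1 h1).1 (by positivity : 0 ≤ 2 * c)
    have a2 := mul_le_mul_of_nonneg_left (abs_le.1 h2).2 (by positivity : 0 ≤ c ^ 2)
    nlinarith [a0, a1, a2, e1, e2]
  have e5 := ch_cs (fun a => |c * r a - ind X a|) fun _ => (1 : ℝ)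
  simp only [mul_one, one_pow, Fintype.expect_const, Real.sqrt_one] at e5
  refine e5.trans ((Real.sqrt_le_sqrt e4).trans_eq ?_)
  rw [Real.sqrt_mul (sq_nonneg _), Real.sqrt_sq (by positivity)]

lemma poz_dens2 {A B : Type} [Fintype A] [Fintype B] (E : Set (A × B)) :
    dens E = 𝔼 a, 𝔼 b, ind E (a, b) := by
  rw [dens, ← Finset.univ_product_univ, Finset.expect_product]

lemma poz_ind {A B : Type} {E : Set A} {F : Set B} {a : A} {b : B} (h : a ∈ E ↔ b ∈ F) :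
    ind E a = ind F b := by
  by_cases k : b ∈ F
  · rw [ind_of_mem k, ind_of_mem (h.2 k)]
  · rw [ind_of_not k, ind_of_not fun q => k (h.1 q)]

section
variable {ν K : Type} [Fintype ν] [DecidableEq ν] [Fintype K] [DecidableEq K] {ρ : ℕ}

/-- the tile misses all the events -/
def pozMs (S : Finset (TT p ρ ν)) (K : Type) [Fintype K] [DecidableEq K] (M : SymM p ν) :
    Set (Mx p ν K) := {U | ∀ N : SymM p K, M + cj U N ∈ X0 S}

open Classical in
noncomputable def pozO0 (p ρ : ℕ) [Fact p.Prime] (K : Type) [Fintype K] [DecidableEq K] :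
    Finset (OM p ρ K) := univ.filter fun ω => ω.2 = 0

open Classical in
noncomputable def pozO1 (p ρ : ℕ) [Fact p.Prime] (K : Type) [Fintype K] [DecidableEq K] :
    Finset (OM p ρ K) := univ.filter fun ω => ∃ N : SymM p K, ω.2 = N.1 * ω.1

/-- splitting of the rows -/
def pozE (p ρ : ℕ) (K : Type) : OM p ρ K × OM p ρ K ≃ OM p ρ (K ⊕ K) where
  toFun x := (fromRows x.1.1 x.2.1, fromRows x.1.2 x.2.2)
  invFun ω := ((ω.1.toRows₁, ω.2.toRows₁), (ω.1.toRows₂, ω.2.toRows₂))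
  left_inv x := by simp
  right_inv ω := by simp

open Classical in
noncomputable def pozO2 (p ρ : ℕ) [Fact p.Prime] (K : Type) [Fintype K] [DecidableEq K] :
    Finset (OM p ρ (K ⊕ K)) :=
  ((pozO1 p ρ K ×ˢ pozO0 p ρ K) ∪ (pozO0 p ρ K ×ˢ pozO1 p ρ K)).map (pozE p ρ K).toEmbedding

lemma poz_m0 {ω : OM p ρ K} : ω ∈ pozO0 p ρ K ↔ ω.2 = 0 := by simp [pozO0]

lemma poz_m1 {ω : OM p ρ K} : ω ∈ pozO1 p ρ K ↔ ∃ N : SymM p K, ω.2 = N.1 * ω.1 := by
  simp only [pozO1, mem_filter, mem_univ, true_and]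

lemma poz_sub : pozO0 p ρ K ⊆ pozO1 p ρ K := fun ω h =>
  poz_m1.2 ⟨0, by rw [poz_m0.1 h]; simp⟩

lemma poz_oc1 {ω : OM p ρ K} (h : ω ∈ pozO1 p ρ K) : oc ω ω = 0 := by
  obtain ⟨N, hN⟩ := poz_m1.1 h
  rw [oc, hN, transpose_mul, SymM_T, Matrix.mul_assoc, sub_self]

lemma poz_oc2 {ω : OM p ρ (K ⊕ K)} (h : ω ∈ pozO2 p ρ K) : oc ω ω = 0 := by
  classical
  obtain ⟨x, hx, rfl⟩ := Finset.mem_map.1 h
  have e : oc ((pozE p ρ K).toEmbedding x) ((pozE p ρ K).toEmbedding x) =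
      oc x.1 x.1 + oc x.2 x.2 := by
    show (fromRows x.1.1 x.2.1)ᵀ * fromRows x.1.2 x.2.2 -
      (fromRows x.1.2 x.2.2)ᵀ * fromRows x.1.1 x.2.1 = _
    rw [transpose_fromRows, transpose_fromRows, fromCols_mul_fromRows, fromCols_mul_fromRows, oc, oc]
    abel
  rw [e]
  rcases Finset.mem_union.1 hx with k | k <;> rw [Finset.mem_product] at k
  · rw [poz_oc1 k.1, poz_oc1 (poz_sub k.2), add_zero]
  · rw [poz_oc1 (poz_sub k.1), poz_oc1 k.2, add_zero]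

lemma poz_c0 : (#(pozO0 p ρ K) : ℝ) = (p : ℝ) ^ (Fintype.card K * ρ) := by
  classical
  have e : pozO0 p ρ K = (univ : Finset (Mx p K (Fin ρ))) ×ˢ {0} := by
    ext ω
    rw [poz_m0, Finset.mem_product, Finset.mem_singleton]
    exact ⟨fun h => ⟨mem_univ _, h⟩, fun h => h.2⟩
  rw [e, Finset.card_product, Finset.card_singleton, mul_one, Finset.card_univ]
  have : Fintype.card (Mx p K (Fin ρ)) = p ^ (Fintype.card K * ρ) := by
    rw [show Fintype.card (Mx p K (Fin ρ)) = Fintype.card (K → Fin ρ → ZMod p) from rfl,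
      Fintype.card_fun, Fintype.card_fun, ZMod.card, Fintype.card_fin, ← pow_mul, mul_comm]
  rw [this]
  push_cast
  rfl

lemma poz_c2 : (#(pozO2 p ρ K) : ℝ) =
    #(pozO0 p ρ K) * (2 * #(pozO1 p ρ K) - #(pozO0 p ρ K)) := by
  classical
  have e : (pozO1 p ρ K ×ˢ pozO0 p ρ K) ∩ (pozO0 p ρ K ×ˢ pozO1 p ρ K) =
      pozO0 p ρ K ×ˢ pozO0 p ρ K := by
    rw [Finset.product_inter_product, Finset.inter_eq_right.2 poz_sub,
      Finset.inter_eq_left.2 poz_sub]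
  have h := Finset.card_union_add_card_inter (pozO1 p ρ K ×ˢ pozO0 p ρ K)
    (pozO0 p ρ K ×ˢ pozO1 p ρ K)
  rw [e, Finset.card_product, Finset.card_product, Finset.card_product] at h
  have h' : (#((pozO1 p ρ K ×ˢ pozO0 p ρ K) ∪ (pozO0 p ρ K ×ˢ pozO1 p ρ K)) : ℝ) +
      #(pozO0 p ρ K) * #(pozO0 p ρ K) =
      #(pozO1 p ρ K) * #(pozO0 p ρ K) + #(pozO0 p ρ K) * #(pozO1 p ρ K) := by exact_mod_cast h
  rw [pozO2, Finset.card_map]
  linear_combination h'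

lemma poz_qq : qq p ρ ν (K ⊕ K) * #(pozO0 p ρ K) = qq p ρ ν K := by
  have h1 : (0 : ℝ) < p := lt_of_lt_of_le one_pos one_le_p
  have h2 := dd_pos (p := p) (ν := ν)
  rw [poz_c0, qq, qq, Fintype.card_sum, add_mul, pow_add]
  field_simp

lemma poz_qq0 : 0 ≤ qq p ρ ν K := by
  have h2 := dd_pos (p := p) (ν := ν)
  unfold qq
  positivity

lemma poz_qS {S : Finset (TT p ρ ν)} (h : (#S : ℝ) ≤ dd p ν ^ ρ) :
    qq p ρ ν K * #S ≤ (p : ℝ) ^ (ρ ^ 2) := by
  have h1 : (0 : ℝ) < p := lt_of_lt_of_le one_pos one_le_p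
  have h2 := dd_pos (p := p) (ν := ν)
  have h3 : (1 : ℝ) ≤ (p : ℝ) ^ (ρ + 1).choose 2 * (p : ℝ) ^ (Fintype.card K * ρ) :=
    one_le_mul_of_one_le_of_one_le (one_le_pow₀ one_le_p) (one_le_pow₀ one_le_p)
  refine (mul_le_mul_of_nonneg_left h poz_qq0).trans ?_
  rw [qq, div_mul_eq_mul_div, div_le_iff₀ (by positivity)]
  exact mul_le_mul_of_nonneg_left (le_mul_of_one_le_left (by positivity) h3) (by positivity)

lemma poz_X0 (S : Finset (TT p ρ ν)) (M : SymM p ν) :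
    M ∈ X0 S ↔ ∀ τ ∈ S, M.1 * yM τ ≠ zM τ :=
  forall₂_congr fun τ _ => not_congr (act_eq M.1 τ)

lemma poz_cj (M : SymM p ν) (U : Mx p ν K) (N : SymM p K) (y : Mx p ν (Fin ρ)) :
    (M + cj U N).1 * y = M.1 * y + U * (N.1 * (Uᵀ * y)) := by
  show (M.1 + U * N.1 * Uᵀ) * y = _
  rw [Matrix.add_mul, Matrix.mul_assoc, Matrix.mul_assoc]

lemma poz_h0 (S : Finset (TT p ρ ν)) (M : SymM p ν) (U : Mx p ν K) :
    (∀ τ ∈ S, ∀ ω ∈ pozO0 p ρ K, ¬ Hd τ ω (M, U)) ↔ M ∈ X0 S := by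
  rw [poz_X0]
  refine forall₂_congr fun τ _ => ⟨fun h k => ?_, fun h ω hω k => ?_⟩
  · exact h (Uᵀ * yM τ, 0) (poz_m0.2 rfl) ⟨rfl, by simpa using k⟩
  · have := k.2
    rw [poz_m0.1 hω] at this
    exact h (by simpa using this)

lemma poz_h1 (S : Finset (TT p ρ ν)) (M : SymM p ν) (U : Mx p ν K) :
    (∀ τ ∈ S, ∀ ω ∈ pozO1 p ρ K, ¬ Hd τ ω (M, U)) ↔ U ∈ pozMs S K M := by
  constructor
  · intro h N
    rw [poz_X0]
    intro τ hτ k
    rw [poz_cj] at k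
    exact h τ hτ (Uᵀ * yM τ, N.1 * (Uᵀ * yM τ)) (poz_m1.2 ⟨N, rfl⟩) ⟨rfl, k⟩
  · intro h τ hτ ω hω k
    obtain ⟨N, hN⟩ := poz_m1.1 hω
    refine (poz_X0 S _).1 (h N) τ hτ ?_
    have k1 : Uᵀ * yM τ = ω.1 := k.1
    rw [poz_cj, k1, ← hN]
    exact k.2

lemma poz_Hd (τ : TT p ρ ν) (x : OM p ρ K × OM p ρ K) (M : SymM p ν) (U V : Mx p ν K) :
    Hd τ (pozE p ρ K x) (M, fromCols U V) ↔
      Uᵀ * yM τ = x.1.1 ∧ Vᵀ * yM τ = x.2.1 ∧ M.1 * yM τ + (U * x.1.2 + V * x.2.2) = zM τ := by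
  show (fromCols U V)ᵀ * yM τ = fromRows x.1.1 x.2.1 ∧
    M.1 * yM τ + fromCols U V * fromRows x.1.2 x.2.2 = zM τ ↔ _
  rw [transpose_fromCols, fromRows_mul, fromRows_ext_iff, fromCols_mul_fromRows, and_assoc]

lemma poz_h2 (S : Finset (TT p ρ ν)) (M : SymM p ν) (U V : Mx p ν K) :
    (∀ τ ∈ S, ∀ ω ∈ pozO2 p ρ K, ¬ Hd τ ω (M, fromCols U V)) ↔
      U ∈ pozMs S K M ∧ V ∈ pozMs S K M := by
  classical
  rw [← poz_h1, ← poz_h1]
  constructor
  · intro h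
    refine ⟨fun τ hτ ω hω k => ?_, fun τ hτ ω hω k => ?_⟩
    · refine h τ hτ (pozE p ρ K (ω, (Vᵀ * yM τ, 0))) (Finset.mem_map.2 ⟨_, Finset.mem_union_left _
        (Finset.mem_product.2 ⟨hω, poz_m0.2 rfl⟩), rfl⟩) ((poz_Hd ..).2 ⟨k.1, rfl, ?_⟩)
      simpa using k.2
    · refine h τ hτ (pozE p ρ K ((Uᵀ * yM τ, 0), ω)) (Finset.mem_map.2 ⟨_, Finset.mem_union_right _
        (Finset.mem_product.2 ⟨poz_m0.2 rfl, hω⟩), rfl⟩) ((poz_Hd ..).2 ⟨rfl, k.1, ?_⟩)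
      simpa using k.2
  · intro h τ hτ ω hω k
    obtain ⟨x, hx, rfl⟩ := Finset.mem_map.1 hω
    obtain ⟨k1, k2, k3⟩ := (poz_Hd τ x M U V).1 k
    rcases Finset.mem_union.1 hx with q | q <;> rw [Finset.mem_product] at q
    · rw [poz_m0.1 q.2, Matrix.mul_zero, add_zero] at k3
      exact h.1 τ hτ x.1 q.1 ⟨k1, k3⟩
    · rw [poz_m0.1 q.1, Matrix.mul_zero, zero_add] at k3
      exact h.2 τ hτ x.2 q.2 ⟨k2, k3⟩

/-- splitting of the columns -/
def pozC (p : ℕ) (ν K : Type) : Mx p ν K × Mx p ν K ≃ Mx p ν (K ⊕ K) where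
  toFun x := fromCols x.1 x.2
  invFun U := (U.toCols₁, U.toCols₂)
  left_inv x := by simp
  right_inv U := by simp

lemma poz_d0 (S : Finset (TT p ρ ν)) :
    dens {m : WW p ν K | ∀ τ ∈ S, ∀ ω ∈ pozO0 p ρ K, ¬ Hd τ ω m} = dens (X0 S) := by
  rw [poz_dens2, dens]
  refine Finset.expect_congr rfl fun M _ => ?_
  have e : ∀ U : Mx p ν K, ind {m : WW p ν K | ∀ τ ∈ S, ∀ ω ∈ pozO0 p ρ K, ¬ Hd τ ω m} (M, U) =
      ind (X0 S) M := fun U => poz_ind (poz_h0 S M U)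
  simp only [e, Fintype.expect_const]

lemma poz_d1 (S : Finset (TT p ρ ν)) :
    dens {m : WW p ν K | ∀ τ ∈ S, ∀ ω ∈ pozO1 p ρ K, ¬ Hd τ ω m} =
      𝔼 M, dens (pozMs S K M) := by
  rw [poz_dens2]
  refine Finset.expect_congr rfl fun M _ => ?_
  exact Finset.expect_congr rfl fun U _ => poz_ind (poz_h1 S M U)

lemma poz_d2 (S : Finset (TT p ρ ν)) :
    dens {m : WW p ν (K ⊕ K) | ∀ τ ∈ S, ∀ ω ∈ pozO2 p ρ K, ¬ Hd τ ω m} =
      𝔼 M, dens (pozMs S K M) ^ 2 := by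
  rw [poz_dens2]
  refine Finset.expect_congr rfl fun M _ => ?_
  rw [sq, dens, Finset.expect_mul_expect, ← Finset.expect_product', Finset.univ_product_univ]
  symm
  refine Fintype.expect_equiv (pozC p ν K) _ _ fun x => ?_
  have e : (M, pozC p ν K x) ∈
      {m : WW p ν (K ⊕ K) | ∀ τ ∈ S, ∀ ω ∈ pozO2 p ρ K, ¬ Hd τ ω m} ↔
      x.1 ∈ pozMs S K M ∧ x.2 ∈ pozMs S K M := poz_h2 S M x.1 x.2
  by_cases a : x.1 ∈ pozMs S K M
  · by_cases b : x.2 ∈ pozMs S K M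
    · rw [ind_of_mem a, ind_of_mem b, mul_one, ind_of_mem (e.2 ⟨a, b⟩)]
    · rw [ind_of_not b, mul_zero, ind_of_not fun q => b (e.1 q).2]
  · rw [ind_of_not a, zero_mul, ind_of_not fun q => a (e.1 q).1]

lemma poz_r (S : Finset (TT p ρ ν)) (M : SymM p ν) :
    dens (pozMs S K M) * ind (X0 S) M = dens (pozMs S K M) := by
  by_cases h : M ∈ X0 S
  · rw [ind_of_mem h, mul_one]
  · have e : dens (pozMs S K M) = 0 := by
      rw [dens, Finset.expect_congr rfl fun U _ => ind_of_not (A := pozMs S K M) (x := U)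
        fun q => h (by simpa using q 0), Fintype.expect_const]
    rw [e, zero_mul]

lemma poz_inv (S : Finset (TT p ρ ν)) (M : SymM p ν) (U : Mx p ν K) (N : SymM p K) :
    U ∈ pozMs S K (M + cj U N) ↔ U ∈ pozMs S K M := by
  constructor
  · intro h N'
    have := h (N' - N)
    rwa [add_assoc, ← cj_add, add_sub_cancel] at this
  · intro h N'
    rw [add_assoc, ← cj_add]
    exact h _

lemma poz_loss (E : Set (Mx p ν K)) (c x : ℝ) (hc : 0 ≤ c) :
    |𝔼 U, c * (ind E U * ind {U : Mx p ν K | Inj U} U) - x| ≤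
      |c * dens E - x| + c * dens {U : Mx p ν K | ¬ Inj U} := by
  have h : |𝔼 U, c * (ind E U * ind {U : Mx p ν K | Inj U} U) - c * dens E| ≤
      c * dens {U : Mx p ν K | ¬ Inj U} := by
    rw [dens, dens, Finset.mul_expect, Finset.mul_expect, ← Finset.expect_sub_distrib]
    refine (Finset.abs_expect_le _ _).trans (Finset.expect_le_expect fun U _ => ?_)
    by_cases k : Inj U
    · rw [ind_of_mem (A := {U : Mx p ν K | Inj U}) k, mul_one, sub_self, abs_zero]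
      exact mul_nonneg hc (ind_nonneg _ _)
    · rw [ind_of_not (A := {U : Mx p ν K | Inj U}) k,
        ind_of_mem (A := {U : Mx p ν K | ¬ Inj U}) k, mul_zero, mul_zero, zero_sub, abs_neg,
        abs_of_nonneg (mul_nonneg hc (ind_nonneg _ _))]
      exact mul_le_mul_of_nonneg_left (ind_le_one _ _) hc
  have := abs_sub_le (𝔼 U, c * (ind E U * ind {U : Mx p ν K | Inj U} U)) (c * dens E) x
  linarith

end

theorem AVOID' (ρ J : ℕ) (hρ : 0 < ρ) (γ : ℝ) (hγ : 0 < γ) :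
    ∃ lam : ℝ, 0 < lam ∧ ∃ κ : ℝ, 0 < κ ∧ ∃ n0 : ℕ, ∀ (ν : Type) [Fintype ν] [DecidableEq ν],
    n0 ≤ Fintype.card ν → ∀ S : Finset (GX (Fin ρ → ZMod p) ν), Fam lam S →
    (#S : ℝ) ≤ ((p : ℝ) ^ Fintype.card ν) ^ ρ →
    (Finset.addEnergy S S : ℝ) ≤ κ * ((p : ℝ) ^ Fintype.card ν) ^ (3 * ρ) →
    ∃ w : SymM p ν → Matrix ν (Fin J) (ZMod p) → ℝ, (∀ M U, 0 ≤ w M U) ∧
      (∀ M U, w M U ≠ 0 → Inj U) ∧ 𝔼 M, |marg (fun U => U) w M - ind (X0 S) M| ≤ γ := by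
  obtain ⟨C, hC⟩ : ∃ C : ℝ, C = Real.exp ((p : ℝ) ^ (ρ ^ 2) * #(pozO1 p ρ (Fin J))) := ⟨_, rfl⟩
  have C0 : 0 < C := hC ▸ Real.exp_pos _
  obtain ⟨g, hg⟩ : ∃ g : ℝ, g = γ / 2 / (C + 1) := ⟨_, rfl⟩
  have g0 : 0 < g := by rw [hg]; positivity
  obtain ⟨b1, hb1, n1, H1⟩ := PO (p := p) ρ (Fin J) (g ^ 2) (by positivity)
  obtain ⟨b2, hb2, n2, H2⟩ := PO (p := p) ρ (Fin J ⊕ Fin J) (g ^ 2) (by positivity)
  have p1 : (1 : ℝ) < p := by exact_mod_cast (Fact.out : p.Prime).one_lt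
  obtain ⟨n3, hn3⟩ := pow_unbounded_of_one_lt (C * (p : ℝ) ^ J / (γ / 2)) p1
  obtain ⟨b, hb⟩ : ∃ b : ℝ, b = min 1 (min b1 b2) := ⟨_, rfl⟩
  have b0 : 0 < b := by rw [hb]; exact lt_min one_pos (lt_min hb1 hb2)
  refine ⟨b ^ 2, by positivity, b ^ 8, by positivity, max n1 (max n2 n3), ?_⟩
  intro ν _ _ hn S hF hS hE
  have G : Good b S := ⟨hρ, b0, hb ▸ min_le_left _ _, hF, hS, hE⟩
  have l1 : b ≤ b1 := hb ▸ (min_le_right _ _).trans (min_le_left _ _)
  have l2 : b ≤ b2 := hb ▸ (min_le_right _ _).trans (min_le_right _ _)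
  have m1 : n1 ≤ Fintype.card ν := (le_max_left _ _).trans hn
  have m2 : n2 ≤ Fintype.card ν := ((le_max_left _ _).trans (le_max_right _ _)).trans hn
  have m3 : n3 ≤ Fintype.card ν := ((le_max_right _ _).trans (le_max_right _ _)).trans hn
  have P0 := H1 ν m1 b l1 S G (pozO0 p ρ (Fin J)) fun ω h => poz_oc1 (poz_sub h)
  have P1 := H1 ν m1 b l1 S G (pozO1 p ρ (Fin J)) fun ω h => poz_oc1 h
  have P2 := H2 ν m2 b l2 S G (pozO2 p ρ (Fin J)) fun ω h => poz_oc2 h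
  rw [poz_d0] at P0
  rw [poz_d1] at P1
  obtain ⟨μ0, h0⟩ : ∃ μ0 : ℝ, μ0 = qq p ρ ν (Fin J) * (#S * #(pozO0 p ρ (Fin J))) := ⟨_, rfl⟩
  obtain ⟨μ1, h1⟩ : ∃ μ1 : ℝ, μ1 = qq p ρ ν (Fin J) * (#S * #(pozO1 p ρ (Fin J))) := ⟨_, rfl⟩
  have h2 : qq p ρ ν (Fin J ⊕ Fin J) * (#S * #(pozO2 p ρ (Fin J))) = 2 * μ1 - μ0 := by
    rw [h0, h1, poz_c2, ← poz_qq (K := Fin J)]
    ring
  rw [poz_d2, h2] at P2
  rw [← h0] at P0
  rw [← h1] at P1
  have A := poz_abs (fun M => dens (pozMs S (Fin J) M)) (X0 S) (poz_r S) μ0 μ1 (g ^ 2)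
    P0 P1 P2
  rw [Real.sqrt_sq g0.le] at A
  have q0 : 0 ≤ qq p ρ ν (Fin J) := poz_qq0
  have cC : Real.exp (μ1 - μ0) ≤ C := by
    rw [hC]
    refine Real.exp_le_exp.2 ?_
    have a : 0 ≤ μ0 := by rw [h0]; positivity
    have a' : μ1 ≤ (p : ℝ) ^ (ρ ^ 2) * #(pozO1 p ρ (Fin J)) := by
      rw [h1, ← mul_assoc]
      exact mul_le_mul_of_nonneg_right (poz_qS hS) (Nat.cast_nonneg _)
    linarith
  obtain ⟨c, hc⟩ : ∃ c : ℝ, c = Real.exp (μ1 - μ0) := ⟨_, rfl⟩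
  have c0 : 0 < c := hc ▸ Real.exp_pos _
  rw [← hc] at A cC
  refine ⟨fun M U => c * (ind (pozMs S (Fin J) M) U * ind {U : Mx p ν (Fin J) | Inj U} U),
    fun M U => mul_nonneg c0.le (mul_nonneg (ind_nonneg _ _) (ind_nonneg _ _)),
    fun M U h => ?_, ?_⟩
  · by_contra k
    refine h ?_
    show c * (ind (pozMs S (Fin J) M) U * ind {U : Mx p ν (Fin J) | Inj U} U) = 0
    rw [ind_of_not (A := {U : Mx p ν (Fin J) | Inj U}) k, mul_zero, mul_zero]
  · have e : ∀ M : SymM p ν, marg (fun U : Mx p ν (Fin J) => U)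
        (fun M U => c * (ind (pozMs S (Fin J) M) U * ind {U : Mx p ν (Fin J) | Inj U} U)) M =
        𝔼 U, c * (ind (pozMs S (Fin J) M) U * ind {U : Mx p ν (Fin J) | Inj U} U) := fun M =>
      marg_of_inv _ _ (fun M U N => by rw [poz_ind (poz_inv S M U N)]) M
    have B : c * dens {U : Mx p ν (Fin J) | ¬ Inj U} ≤ γ / 2 := by
      have d1 := dens_not_inj' (p := p) (ν := ν) (ν' := Fin J)
      rw [Fintype.card_fin] at d1
      have d2 : (p : ℝ) ^ n3 ≤ (p : ℝ) ^ Fintype.card ν := pow_le_pow_right₀ p1.le m3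
      have d3 : (0 : ℝ) < (p : ℝ) ^ Fintype.card ν := by positivity
      have d4 := (div_lt_iff₀ (by positivity : 0 < γ / 2)).1 (hn3.trans_le d2)
      refine (mul_le_mul cC d1 (dens_nonneg _) C0.le).trans ?_
      rw [← mul_div_assoc, div_le_iff₀ d3]
      linarith
    have A2 : (c + 1) * g ≤ γ / 2 := by
      rw [hg, mul_div_assoc', div_le_iff₀ (by positivity)]
      nlinarith
    simp only [e]
    refine (Finset.expect_le_expect fun M _ => poz_loss _ c _ c0.le).trans ?_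
    rw [Finset.expect_add_distrib, Fintype.expect_const]
    linarith

end Pool.Agent.Work.MP_4523ee_co.Fp.Po
end

-- merged part: Pool.Agent.Work.MP_4523ee_co.Fp.PoJ
section
/-!
Section 5: the Poisson tile.
-/

set_option autoImplicit false
set_option linter.unusedSectionVars false

namespace Pool.Agent.Work.MP_4523ee_co.Fp

open Finset Matrix
open scoped BigOperators ComplexConjugate

variable {p : ℕ} [Fact p.Prime]

theorem AVOID (_hp : p ≠ 2) (ρ J : ℕ) (hρ : 0 < ρ) (γ : ℝ) (hγ : 0 < γ) :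
    ∃ lam : ℝ, 0 < lam ∧ ∃ κ : ℝ, 0 < κ ∧ ∃ n0 : ℕ, ∀ (ν : Type) [Fintype ν] [DecidableEq ν],
    n0 ≤ Fintype.card ν → ∀ S : Finset (GX (Fin ρ → ZMod p) ν), Fam lam S →
    (#S : ℝ) ≤ ((p : ℝ) ^ Fintype.card ν) ^ ρ →
    (Finset.addEnergy S S : ℝ) ≤ κ * ((p : ℝ) ^ Fintype.card ν) ^ (3 * ρ) →
    ∃ w : SymM p ν → Matrix ν (Fin J) (ZMod p) → ℝ, (∀ M U, 0 ≤ w M U) ∧
      (∀ M U, w M U ≠ 0 → Inj U) ∧ 𝔼 M, |marg (fun U => U) w M - ind (X0 S) M| ≤ γ :=
  Po.AVOID' ρ J hρ γ hγ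

end Pool.Agent.Work.MP_4523ee_co.Fp
end

-- merged part: Pool.Agent.Work.MP_4523ee_co.Fp.FR
section
/-!
FR: large additive energy in a vector space over `ZMod p` gives a subspace of comparable size that
holds a positive proportion of the set (Balog-Szemeredi-Gowers, then Ruzsa in bounded torsion).
-/

set_option autoImplicit false
set_option linter.unusedSectionVars false

namespace MP_4523ee_co.Fp

open Finset
open scoped Pointwise

section
variable {G : Type} [AddCommGroup G] [DecidableEq G]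

/-- the number of common neighbours -/
def fr_cod {α : Type} (A : Finset α) (E : α → α → Prop) [DecidableRel E] (a a' : α) : ℕ :=
  #(A.filter fun c => E a c ∧ E a' c)

lemma fr_drc {α : Type} [DecidableEq α] (A : Finset α) (E : α → α → Prop) [DecidableRel E]
    (κ : ℕ) (hA : A.Nonempty) (hκ : 0 < κ)
    (he : #A ^ 2 ≤ 2 * κ * ∑ c ∈ A, #(A.filter fun a => E a c)) :
    ∃ N ⊆ A, #A ≤ 4 * κ * #N ∧
      16 * ∑ a ∈ N, #(N.filter fun a' => 128 * κ ^ 2 * fr_cod A E a a' < #A) ≤ #N ^ 2 := by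
  have h0 := hA.card_pos
  set N : α → Finset α := fun c => A.filter fun a => E a c with hN
  set bad : α → ℕ := fun c =>
    ∑ a ∈ N c, #((N c).filter fun a' => 128 * κ ^ 2 * fr_cod A E a a' < #A) with hbad
  have h1 : (∑ c ∈ A, #(N c)) ^ 2 ≤ #A * ∑ c ∈ A, #(N c) ^ 2 := sq_sum_le_card_mul_sum_sq
  have h2 : #A ^ 3 ≤ 4 * κ ^ 2 * ∑ c ∈ A, #(N c) ^ 2 := by
    refine Nat.le_of_mul_le_mul_left ?_ h0
    calc #A * #A ^ 3 = (#A ^ 2) ^ 2 := by ring
      _ ≤ (2 * κ * ∑ c ∈ A, #(N c)) ^ 2 := Nat.pow_le_pow_left he 2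
      _ = 4 * κ ^ 2 * (∑ c ∈ A, #(N c)) ^ 2 := by ring
      _ ≤ 4 * κ ^ 2 * (#A * ∑ c ∈ A, #(N c) ^ 2) := Nat.mul_le_mul_left _ h1
      _ = _ := by ring
  have h3 : ∑ c ∈ A, bad c = ∑ a ∈ A, ∑ a' ∈ A,
      if 128 * κ ^ 2 * fr_cod A E a a' < #A then fr_cod A E a a' else 0 := by
    have e : ∀ c, bad c = ∑ a ∈ A, ∑ a' ∈ A,
        if 128 * κ ^ 2 * fr_cod A E a a' < #A then (if E a c ∧ E a' c then 1 else 0)
          else 0 := fun c => by
      simp only [hbad, hN, sum_filter, card_filter]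
      refine sum_congr rfl fun a _ => ?_
      by_cases ha : E a c
      · rw [if_pos ha]
        refine sum_congr rfl fun a' _ => ?_
        by_cases ha' : E a' c <;> simp [ha, ha']
      · simp [ha]
    simp only [e]
    rw [sum_comm]
    refine sum_congr rfl fun a _ => ?_
    rw [sum_comm]
    refine sum_congr rfl fun a' _ => ?_
    by_cases h : 128 * κ ^ 2 * fr_cod A E a a' < #A
    · simp only [if_pos h]
      rw [fr_cod, card_filter]
    · simp only [if_neg h, sum_const_zero]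
  have h4 : 128 * κ ^ 2 * ∑ c ∈ A, bad c ≤ #A ^ 3 := by
    rw [h3, mul_sum]
    calc _ ≤ ∑ a ∈ A, ∑ a' ∈ A, #A := by
          refine sum_le_sum fun a _ => ?_
          rw [mul_sum]
          refine sum_le_sum fun a' _ => ?_
          split_ifs with h
          · exact h.le
          · simp
      _ = _ := by simp only [sum_const, smul_eq_mul]; ring
  have h5 : ∃ c ∈ A, #A ^ 2 + 128 * κ ^ 2 * bad c ≤ 8 * κ ^ 2 * #(N c) ^ 2 := by
    refine exists_le_of_sum_le hA ?_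
    rw [sum_add_distrib, ← mul_sum, ← mul_sum, sum_const, smul_eq_mul]
    calc #A * #A ^ 2 + 128 * κ ^ 2 * ∑ c ∈ A, bad c ≤ #A ^ 3 + #A ^ 3 :=
          Nat.add_le_add (le_of_eq (by ring)) h4
      _ ≤ 4 * κ ^ 2 * ∑ c ∈ A, #(N c) ^ 2 + 4 * κ ^ 2 * ∑ c ∈ A, #(N c) ^ 2 :=
          Nat.add_le_add h2 h2
      _ = _ := by ring
  obtain ⟨c, -, hc⟩ := h5
  refine ⟨N c, filter_subset _ _, ?_, ?_⟩
  · refine (Nat.pow_le_pow_iff_left two_ne_zero).1 ?_
    calc #A ^ 2 ≤ 8 * κ ^ 2 * #(N c) ^ 2 := le_trans (Nat.le_add_right _ _) hc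
      _ ≤ 8 * κ ^ 2 * #(N c) ^ 2 + 8 * κ ^ 2 * #(N c) ^ 2 := Nat.le_add_right _ _
      _ = _ := by ring
  · refine Nat.le_of_mul_le_mul_left (c := 8 * κ ^ 2) ?_ (by positivity)
    calc 8 * κ ^ 2 * (16 * bad c) = 128 * κ ^ 2 * bad c := by ring
      _ ≤ _ := le_trans (Nat.le_add_left _ _) hc

lemma fr_half {α : Type} [DecidableEq α] (N : Finset α) (f : α → ℕ)
    (h : 16 * ∑ a ∈ N, f a ≤ #N ^ 2) : #N ≤ 2 * #(N.filter fun a => 4 * f a ≤ #N) := by
  have h1 := card_filter_add_card_filter_not (s := N) fun a => 4 * f a ≤ #N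
  have h2 : #(N.filter fun a => ¬ 4 * f a ≤ #N) * #N ≤ 4 * ∑ a ∈ N, f a := by
    rw [mul_sum, ← smul_eq_mul, ← sum_const]
    refine (sum_le_sum fun a ha => (not_le.1 (mem_filter.1 ha).2).le).trans ?_
    exact sum_le_sum_of_subset (filter_subset _ _)
  rcases Nat.eq_zero_or_pos #N with h0 | h0
  · omega
  have h3 : 4 * #(N.filter fun a => ¬ 4 * f a ≤ #N) ≤ #N := by
    refine Nat.le_of_mul_le_mul_right ?_ h0
    calc 4 * #(N.filter fun a => ¬ 4 * f a ≤ #N) * #N ≤ 4 * (4 * ∑ a ∈ N, f a) := by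
          rw [mul_assoc]; exact Nat.mul_le_mul_left _ h2
      _ = 16 * ∑ a ∈ N, f a := by ring
      _ ≤ #N ^ 2 := h
      _ = _ := sq _
  omega

lemma fr_paths (A P M : Finset G) (a a' : G) :
    ∑ m ∈ M, fr_cod A (fun a c => -a + c ∈ P) a m *
      fr_cod A (fun a c => -a + c ∈ P) a' m ≤
      #((P ×ˢ P ×ˢ P ×ˢ P).filter fun q => q.1 + -q.2.1 + q.2.2.1 + -q.2.2.2 = -a + a') := by
  simp only [fr_cod, ← card_product]
  rw [← card_sigma]
  refine card_le_card_of_injOn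
    (fun t => (-a + t.2.1, -t.1 + t.2.1, -t.1 + t.2.2, -a' + t.2.2)) (fun t ht => ?_)
    fun t _ t' _ e => ?_
  · obtain ⟨-, h2⟩ := mem_sigma.1 (mem_coe.1 ht)
    obtain ⟨h3, h4⟩ := mem_product.1 h2
    have h5 := (mem_filter.1 h3).2
    have h6 := (mem_filter.1 h4).2
    refine mem_coe.2 (mem_filter.2 ⟨?_, ?_⟩)
    · exact mem_product.2 ⟨h5.1, mem_product.2 ⟨h5.2, mem_product.2 ⟨h6.2, h6.1⟩⟩⟩
    · simp only [neg_add_rev, neg_neg]; abel
  · obtain ⟨m, b, b'⟩ := t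
    obtain ⟨m', c, c'⟩ := t'
    simp only [Prod.mk.injEq, add_right_inj] at e
    obtain ⟨rfl, e2, -, rfl⟩ := e
    rw [neg_injective (add_right_cancel e2)]

lemma fr_En (A : Finset G) :
    addEnergy A A = ∑ c ∈ A, ∑ a ∈ A, #(A.filter fun b => b + (-a + c) ∈ A) := by
  simp only [← card_sigma]
  unfold addEnergy
  refine card_bij (fun x _ => ⟨x.1.1, x.1.2, x.2.1⟩) (fun x hx => ?_) (fun x hx y hy e => ?_)
    fun t ht => ?_
  · obtain ⟨h1, h2⟩ := mem_filter.1 hx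
    simp only [mem_product] at h1
    simp only [mem_sigma, mem_filter]
    refine ⟨h1.1.1, h1.1.2, h1.2.1, ?_⟩
    have : x.2.1 + (-x.1.2 + x.1.1) = x.2.2 := by
      rw [← add_right_inj x.1.2, ← h2]; abel
    rw [this]; exact h1.2.2
  · obtain ⟨⟨a, b⟩, c, d⟩ := x
    obtain ⟨⟨a', b'⟩, c', d'⟩ := y
    have h2 := (mem_filter.1 hx).2
    have h3 := (mem_filter.1 hy).2
    simp only [Sigma.mk.injEq, heq_eq_eq] at e
    obtain ⟨rfl, rfl, rfl⟩ := e
    simp only at h2 h3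
    rw [add_left_cancel (h2.symm.trans h3)]
  · obtain ⟨c, a, b⟩ := t
    simp only [mem_sigma, mem_filter] at ht
    refine ⟨((c, a), b, b + (-a + c)), mem_filter.2 ⟨?_, ?_⟩, rfl⟩
    · simp only [mem_product]
      exact ⟨⟨ht.1, ht.2.1⟩, ht.2.2.1, ht.2.2.2⟩
    · simp only; abel

lemma fr_sum_r (A P : Finset G) : ∑ γ ∈ P, #(A.filter fun b => b + γ ∈ A) ≤ #A * #A := by
  simp only [card_filter]
  rw [sum_comm, ← smul_eq_mul, ← sum_const]
  refine sum_le_sum fun b _ => ?_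
  rw [← card_filter]
  exact card_le_card_of_injOn (fun γ => b + γ) (fun γ h => (mem_filter.1 (mem_coe.1 h)).2)
    fun _ _ _ _ e => add_left_cancel e

theorem fr_bsg (A : Finset G) (κ : ℕ) (hA : A.Nonempty) (hE : #A ^ 3 ≤ κ * addEnergy A A) :
    ∃ A' ⊆ A, #A ≤ 8 * κ * #A' ∧ #(-A' + A') ≤ 2 ^ 24 * κ ^ 10 * #A' := by
  have h0 := hA.card_pos
  have hκ : 0 < κ := Nat.pos_of_ne_zero fun h => by
    rw [h, zero_mul] at hE
    exact absurd hE (not_le.2 (by positivity))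
  set P : Finset G := (-A + A).filter fun γ => #A ≤ 2 * κ * #(A.filter fun b => b + γ ∈ A)
    with hP
  have hP1 : #P ≤ 2 * κ * #A := by
    refine Nat.le_of_mul_le_mul_right ?_ h0
    calc #P * #A = ∑ γ ∈ P, #A := by rw [sum_const, smul_eq_mul]
      _ ≤ ∑ γ ∈ P, 2 * κ * #(A.filter fun b => b + γ ∈ A) :=
          sum_le_sum fun γ h => (mem_filter.1 h).2
      _ = 2 * κ * ∑ γ ∈ P, #(A.filter fun b => b + γ ∈ A) := by rw [mul_sum]
      _ ≤ 2 * κ * (#A * #A) := Nat.mul_le_mul_left _ (fr_sum_r A P)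
      _ = _ := by ring
  have he : #A ^ 2 ≤ 2 * κ * ∑ c ∈ A, #(A.filter fun a => -a + c ∈ P) := by
    have h1 : 2 * κ * addEnergy A A ≤
        #A * (2 * κ * ∑ c ∈ A, #(A.filter fun a => -a + c ∈ P)) + #A ^ 3 := by
      calc 2 * κ * addEnergy A A = ∑ c ∈ A, ∑ a ∈ A, 2 * κ * #(A.filter fun b => b + (-a + c) ∈ A) := by
            simp only [fr_En, mul_sum]
        _ ≤ ∑ c ∈ A, ∑ a ∈ A, (#A * (2 * κ * if -a + c ∈ P then 1 else 0) + #A) := by
            refine sum_le_sum fun c hc => sum_le_sum fun a ha => ?_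
            split_ifs with h
            · refine le_trans ?_ (Nat.le_add_right _ _)
              rw [mul_one, mul_comm #A]
              exact Nat.mul_le_mul_left _ (card_filter_le _ _)
            · refine le_trans ?_ (Nat.le_add_left _ _)
              by_contra h'
              exact h (mem_filter.2 ⟨add_mem_add (neg_mem_neg ha) hc, (not_le.1 h').le⟩)
        _ = _ := by
            simp only [sum_add_distrib, ← mul_sum, ← card_filter, sum_const, smul_eq_mul]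
            ring
    refine Nat.le_of_mul_le_mul_left ?_ h0
    have h2 : #A * #A ^ 2 = #A ^ 3 := by ring
    have h3 : 2 * κ * addEnergy A A = 2 * (κ * addEnergy A A) := by ring
    omega
  obtain ⟨N, hNA, hN1, hN2⟩ := fr_drc A (fun a c => -a + c ∈ P) κ hA hκ he
  set cod := fr_cod A fun a c => -a + c ∈ P with hcod
  have hN3 := fr_half N _ hN2
  set A' := N.filter fun a => 4 * #(N.filter fun a' => 128 * κ ^ 2 * cod a a' < #A) ≤ #N
    with hA'
  have hN0 : 0 < #N := Nat.pos_of_ne_zero fun h => by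
    rw [h] at hN1
    omega
  have hk : #A ≤ 8 * κ * #A' :=
    calc #A ≤ 4 * κ * #N := hN1
      _ ≤ 4 * κ * (2 * #A') := Nat.mul_le_mul_left _ hN3
      _ = _ := by ring
  refine ⟨A', (filter_subset _ _).trans hNA, hk, ?_⟩
  have h1 : ∀ d ∈ -A' + A', #N * #A ^ 2 ≤ 2 * (128 * κ ^ 2) ^ 2 *
      #((P ×ˢ P ×ˢ P ×ˢ P).filter fun q => q.1 + -q.2.1 + q.2.2.1 + -q.2.2.2 = d) := by
    intro d hd
    obtain ⟨x, hx, a', ha', rfl⟩ := mem_add.1 hd
    obtain ⟨a, ha, rfl⟩ := mem_neg.1 hx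
    set M := N.filter fun m => #A ≤ 128 * κ ^ 2 * cod a m ∧ #A ≤ 128 * κ ^ 2 * cod a' m with hM
    have m1 : #N ≤ 2 * #M := by
      have s1 : N ⊆ M ∪ (N.filter (fun m => 128 * κ ^ 2 * cod a m < #A) ∪
          N.filter fun m => 128 * κ ^ 2 * cod a' m < #A) := fun m hm => by
        simp only [hM, mem_union, mem_filter, hm, true_and]
        omega
      have s2 := (card_le_card s1).trans ((card_union_le _ _).trans
        (Nat.add_le_add_left (card_union_le _ _) _))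
      have s3 := (mem_filter.1 ha).2
      have s4 := (mem_filter.1 ha').2
      omega
    calc #N * #A ^ 2 ≤ 2 * #M * #A ^ 2 := Nat.mul_le_mul_right _ m1
      _ = 2 * ∑ m ∈ M, #A * #A := by rw [sum_const, smul_eq_mul]; ring
      _ ≤ 2 * ∑ m ∈ M, (128 * κ ^ 2 * cod a m) * (128 * κ ^ 2 * cod a' m) :=
          Nat.mul_le_mul_left _ (sum_le_sum fun m hm =>
            Nat.mul_le_mul (mem_filter.1 hm).2.1 (mem_filter.1 hm).2.2)
      _ = 2 * (128 * κ ^ 2) ^ 2 * ∑ m ∈ M, cod a m * cod a' m := by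
          rw [mul_sum, mul_sum]
          exact sum_congr rfl fun m _ => by ring
      _ ≤ _ := Nat.mul_le_mul_left _ (fr_paths A P M a a')
  have h2 : ∑ d ∈ -A' + A',
      #((P ×ˢ P ×ˢ P ×ˢ P).filter fun q => q.1 + -q.2.1 + q.2.2.1 + -q.2.2.2 = d) ≤ #P ^ 4 := by
    rw [sum_card_fiberwise_eq_card_filter]
    refine (card_filter_le _ _).trans (le_of_eq ?_)
    simp only [card_product]
    ring
  refine Nat.le_of_mul_le_mul_right (c := #N * #A ^ 2) ?_ (by positivity)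
  calc #(-A' + A') * (#N * #A ^ 2) = ∑ d ∈ -A' + A', #N * #A ^ 2 := by
        rw [sum_const, smul_eq_mul]
    _ ≤ _ := sum_le_sum h1
    _ ≤ 2 * (128 * κ ^ 2) ^ 2 * #P ^ 4 := by
        rw [← mul_sum]
        exact Nat.mul_le_mul_left _ h2
    _ ≤ 2 * (128 * κ ^ 2) ^ 2 * (2 * κ * #A) ^ 4 :=
        Nat.mul_le_mul_left _ (Nat.pow_le_pow_left hP1 4)
    _ = 2 ^ 19 * κ ^ 8 * #A ^ 2 * (#A * #A) := by ring
    _ ≤ 2 ^ 19 * κ ^ 8 * #A ^ 2 * ((4 * κ * #N) * (8 * κ * #A')) :=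
        Nat.mul_le_mul_left _ (Nat.mul_le_mul hN1 hk)
    _ = _ := by ring

end

/-- Ruzsa: small difference set in bounded torsion, the span is small -/
theorem fr_ruzsa (p : ℕ) [Fact p.Prime] {G : Type} [AddCommGroup G] [Module (ZMod p) G] [Finite G]
    [DecidableEq G] (A : Finset G) (K : ℕ) (hA : A.Nonempty) (hK : #(-A + A) ≤ K * #A) :
    Nat.card (Submodule.span (ZMod p) (A : Set G)) ≤ p ^ (K ^ 4) * (K * #A) := by
  have h0 : (0 : ℚ≥0) < #A := by exact_mod_cast hA.card_pos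
  have hD : #(A - A) ≤ K * #A := by
    rwa [sub_eq_neg_add]
  have h1 : #(3 • A - 1 • A) ≤ K ^ 4 * #A := by
    have h2 := pluennecke_ruzsa_inequality_nsmul_sub_nsmul_sub hA A 3 1
    have h3 : (#(A - A) / #A : ℚ≥0) ≤ K := by
      rw [div_le_iff₀ h0]; exact_mod_cast hD
    have h4 : (#(3 • A - 1 • A) : ℚ≥0) ≤ (K : ℚ≥0) ^ 4 * #A :=
      h2.trans (by gcongr)
    exact_mod_cast h4
  have h2 : A - A + A + A = 3 • A - 1 • A := by
    rw [one_nsmul, succ_nsmul, two_nsmul, sub_eq_add_neg, sub_eq_add_neg]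
    ac_rfl
  obtain ⟨F, -, hF, hcov⟩ := ruzsa_covering_add (A := A - A + A) (B := A) (K := (K ^ 4 : ℕ)) hA
    (by rw [h2]; exact_mod_cast h1)
  have hF' : #F ≤ K ^ 4 := by exact_mod_cast hF
  set W := Submodule.span (ZMod p) (F : Set G) with hW
  have hstep : ∀ a ∈ A, ∀ w ∈ W, ∀ d ∈ A - A, ∃ w' ∈ W, ∃ d' ∈ A - A, a + (w + d) = w' + d' := by
    intro a ha w hw d hd
    obtain ⟨f, hf, d', hd', e⟩ := mem_add.1 (hcov (add_mem_add hd ha))
    refine ⟨w + f, W.add_mem hw (Submodule.subset_span hf), d', hd', ?_⟩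
    rw [add_assoc w, e]; abel
  have hall : ∀ x ∈ Submodule.span (ZMod p) (A : Set G), ∀ w ∈ W, ∀ d ∈ A - A,
      ∃ w' ∈ W, ∃ d' ∈ A - A, x + (w + d) = w' + d' := by
    intro x hx
    induction hx using Submodule.span_induction with
    | mem x hx => exact hstep x hx
    | zero => exact fun w hw d hd => ⟨w, hw, d, hd, zero_add _⟩
    | add x y _ _ ix iy =>
      intro w hw d hd
      obtain ⟨w1, h1, d1, h2, e⟩ := iy w hw d hd
      obtain ⟨w2, h3, d2, h4, e'⟩ := ix w1 h1 d1 h2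
      exact ⟨w2, h3, d2, h4, by rw [add_assoc, e, e']⟩
    | smul c x _ ix =>
      have : ∀ n : ℕ, ∀ w ∈ W, ∀ d ∈ A - A, ∃ w' ∈ W, ∃ d' ∈ A - A,
          n • x + (w + d) = w' + d' := by
        intro n
        induction n with
        | zero => exact fun w hw d hd => ⟨w, hw, d, hd, by rw [zero_nsmul, zero_add]⟩
        | succ n ih =>
          intro w hw d hd
          obtain ⟨w1, h1, d1, h2, e⟩ := ix w hw d hd
          obtain ⟨w2, h3, d2, h4, e'⟩ := ih w1 h1 d1 h2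
          exact ⟨w2, h3, d2, h4, by rw [succ_nsmul, add_assoc, e, e']⟩
      have e : c • x = c.val • x := by
        rw [← Nat.cast_smul_eq_nsmul (ZMod p), ZMod.natCast_zmod_val]
      rw [e]; exact this _
  have hWc : Nat.card W ≤ p ^ (K ^ 4) := by
    have : Module.Finite (ZMod p) W := Module.Finite.of_finite
    rw [Module.natCard_eq_pow_finrank (K := ZMod p), Nat.card_zmod]
    exact Nat.pow_le_pow_right (Fact.out : p.Prime).pos
      ((finrank_span_finset_le_card F).trans hF')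
  obtain ⟨a0, ha0⟩ := hA
  have hz : (0 : G) ∈ A - A := by simpa using sub_mem_sub ha0 ha0
  have hex : ∀ x : Submodule.span (ZMod p) (A : Set G), ∃ y : W × (A - A : Finset G),
      (x : G) = y.1 + y.2 := fun x => by
    obtain ⟨w, hw, d, hd, e⟩ := hall x x.2 0 W.zero_mem 0 hz
    exact ⟨(⟨w, hw⟩, ⟨d, hd⟩), by simpa using e⟩
  choose g hg using hex
  have hinj : Function.Injective g := fun x y e => Subtype.ext (by rw [hg, hg, e])
  calc _ ≤ Nat.card (W × (A - A : Finset G)) := Nat.card_le_card_of_injective g hinj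
    _ = Nat.card W * #(A - A) := by rw [Nat.card_prod]; simp
    _ ≤ _ := Nat.mul_le_mul hWc hD

open Classical in
/-- FR -/
theorem fr (p : ℕ) [Fact p.Prime] (κ : ℝ) (hκ : 0 < κ) : ∃ C : ℝ, 0 < C ∧
    ∀ (G : Type) [AddCommGroup G] [Module (ZMod p) G] [Finite G] [DecidableEq G] (S : Finset G),
      S.Nonempty → κ * (#S : ℝ) ^ 3 ≤ addEnergy S S →
      ∃ H : Submodule (ZMod p) G, (Nat.card H : ℝ) ≤ C * #S ∧
        (#S : ℝ) ≤ C * #(S.filter fun x => x ∈ H) := by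
  obtain ⟨k, hk⟩ := exists_nat_ge (1 / κ)
  set K : ℕ := 2 ^ 24 * k ^ 10 with hKd
  refine ⟨(p ^ (K ^ 4) * K + 8 * k + 1 : ℕ), by positivity, fun G _ _ _ _ S hS hE => ?_⟩
  have h1 : #S ^ 3 ≤ k * addEnergy S S := by
    have h2 : (1 : ℝ) ≤ k * κ := by rwa [div_le_iff₀ hκ] at hk
    have h3 : (#S : ℝ) ^ 3 ≤ k * addEnergy S S :=
      calc (#S : ℝ) ^ 3 = 1 * (#S : ℝ) ^ 3 := (one_mul _).symm
        _ ≤ k * κ * (#S : ℝ) ^ 3 := by gcongr
        _ = k * (κ * (#S : ℝ) ^ 3) := by ring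
        _ ≤ _ := by gcongr
    exact_mod_cast h3
  obtain ⟨A, hAS, a1, a2⟩ := fr_bsg S k hS h1
  have hA : A.Nonempty := by
    rw [← card_pos]
    have := hS.card_pos
    rcases Nat.eq_zero_or_pos #A with h | h
    · rw [h] at a1; omega
    · exact h
  refine ⟨Submodule.span (ZMod p) (A : Set G), ?_, ?_⟩
  · have h2 := fr_ruzsa p A K hA a2
    have h3 : Nat.card (Submodule.span (ZMod p) (A : Set G)) ≤
        (p ^ (K ^ 4) * K + 8 * k + 1) * #S :=
      calc _ ≤ _ := h2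
        _ = p ^ (K ^ 4) * K * #A := by ring
        _ ≤ _ := Nat.mul_le_mul (by omega) (card_le_card hAS)
    exact_mod_cast h3
  · have h2 : #A ≤ #(S.filter fun x => x ∈ Submodule.span (ZMod p) (A : Set G)) :=
      card_le_card fun x hx => mem_filter.2 ⟨hAS hx, Submodule.subset_span hx⟩
    have h3 : #S ≤ (p ^ (K ^ 4) * K + 8 * k + 1) *
        #(S.filter fun x => x ∈ Submodule.span (ZMod p) (A : Set G)) :=
      a1.trans (Nat.mul_le_mul (by omega) h2)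
    exact_mod_cast h3

end MP_4523ee_co.Fp
end

-- merged part: Pool.Agent.Work.MP_4523ee_co.Fp.LC
section
/-!
Light families of deficient tiles are small (paper section 6, LC).
-/

set_option autoImplicit false
set_option linter.unusedSectionVars false

namespace Pool.Agent.Work.MP_4523ee_co.Fp

open Finset Matrix
open scoped BigOperators ComplexConjugate

variable {p : ℕ} [Fact p.Prime]

section
variable {ν : Type} [Fintype ν] [DecidableEq ν] {ρ : ℕ}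

lemma Fam.mono {lam lam' : ℝ} (h : lam ≤ lam') {S S' : Finset (GX (Fin ρ → ZMod p) ν)}
    (hS : S' ⊆ S) (hF : Fam lam S) : Fam lam' S' := by
  classical
  refine ⟨fun τ h => hF.indep τ (hS h), fun τ h => hF.symm τ (hS h),
    fun τ h τ' h' => hF.inj τ (hS h) τ' (hS h'), fun Z h1 h2 => ?_⟩
  refine le_trans ?_ ((hF.light Z h1 h2).trans (by gcongr))
  exact Nat.cast_le.2 (card_le_card (filter_subset_filter _ hS))

lemma Fam.finrank {lam : ℝ} {S : Finset (GX (Fin ρ → ZMod p) ν)} (hF : Fam lam S)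
    {τ : GX (Fin ρ → ZMod p) ν} (h : τ ∈ S) : Module.finrank (ZMod p) (spn τ) = ρ := by
  have h1 : LinearIndependent (ZMod p) fun a : Fin ρ =>
      ((fun i => τ.1 i a, fun i => τ.2 i a) : (ν → ZMod p) × (ν → ZMod p)) :=
    LinearIndependent.of_comp (LinearMap.fst _ _ _) (hF.indep τ h)
  rw [spn, finrank_span_eq_card h1, Fintype.card_fin]

open Classical in
/-- choose a basis of every member -/
lemma exists_Fam (lam : ℝ) (𝒴 : Finset (SV p ν))
    (h : ∀ Y ∈ 𝒴, Module.finrank (ZMod p) Y = ρ ∧ (CY Y).Nonempty)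
    (hl : ∀ Z : SV p ν, 0 < Module.finrank (ZMod p) Z → Module.finrank (ZMod p) Z < ρ →
      (#(𝒴.filter fun Y => Z ≤ Y) : ℝ) ≤
        lam * ((p : ℝ) ^ Fintype.card ν) ^ (ρ - Module.finrank (ZMod p) Z)) :
    ∃ S : Finset (GX (Fin ρ → ZMod p) ν), Fam lam S ∧ #S = #𝒴 ∧ ∀ τ ∈ S, spn τ ∈ 𝒴 := by
  have hb : ∀ Y ∈ 𝒴, ∃ τ : GX (Fin ρ → ZMod p) ν, spn τ = Y ∧
      (LinearIndependent (ZMod p) fun (a : Fin ρ) (i : ν) => τ.1 i a) ∧
      ∀ a b, ∑ i, τ.1 i a * τ.2 i b = ∑ i, τ.1 i b * τ.2 i a := by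
    intro Y hY
    obtain ⟨h1, h2⟩ := h Y hY
    let b := Module.finBasisOfFinrankEq (ZMod p) Y h1
    refine ⟨(fun i a => (b a).1.1 i, fun i a => (b a).1.2 i), ?_, ?_,
      fun a a' => CY_symm h2 (b a).2 (b a').2⟩
    · have e : (Set.range fun a : Fin ρ => ((b a).1 : (ν → ZMod p) × (ν → ZMod p))) =
          Y.subtype '' Set.range b := by rw [← Set.range_comp]; rfl
      show Submodule.span (ZMod p) (Set.range fun a : Fin ρ => (b a).1) = Y
      rw [e, Submodule.span_image, b.span_eq, Submodule.map_subtype_top]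
    · exact b.linearIndependent.map' ((LinearMap.fst _ _ _).comp Y.subtype)
        (LinearMap.ker_eq_bot'.2 fun q hq => Subtype.ext (CY_fst h2 q.2 hq))
  choose! t ht1 ht2 ht3 using hb
  have hinj : Set.InjOn t 𝒴 := fun Y hY Y' hY' e => by rw [← ht1 Y hY, e, ht1 Y' hY']
  refine ⟨𝒴.image t, ⟨fun τ hτ => ?_, fun τ hτ => ?_, fun τ hτ τ' hτ' e => ?_, fun Z h1 h2 => ?_⟩,
    card_image_of_injOn hinj, fun τ hτ => ?_⟩
  · obtain ⟨Y, hY, rfl⟩ := mem_image.1 hτ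
    exact ht2 Y hY
  · obtain ⟨Y, hY, rfl⟩ := mem_image.1 hτ
    exact ht3 Y hY
  · obtain ⟨Y, hY, rfl⟩ := mem_image.1 hτ
    obtain ⟨Y', hY', rfl⟩ := mem_image.1 hτ'
    rw [ht1 Y hY, ht1 Y' hY'] at e
    rw [e]
  · refine le_trans (Nat.cast_le.2 ?_) (hl Z h1 h2)
    refine le_trans (card_le_card fun τ hτ => ?_) (card_image_le (f := t))
    obtain ⟨h3, h4⟩ := mem_filter.1 hτ
    obtain ⟨Y, hY, rfl⟩ := mem_image.1 h3
    exact mem_image_of_mem _ (mem_filter.2 ⟨hY, ht1 Y hY ▸ h4⟩)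
  · obtain ⟨Y, hY, rfl⟩ := mem_image.1 hτ
    rw [ht1 Y hY]; exact hY

end

open Classical in
/-- the subspaces of a subspace of dimension `ρ` -/
lemma LCa_subs {ν : Type} [Fintype ν] [DecidableEq ν] {ρ : ℕ} (Y : SV p ν)
    (h : Module.finrank (ZMod p) Y = ρ) :
    ∃ T : Finset (SV p ν), (∀ Z, Z ≤ Y → Z ∈ T) ∧ #T ≤ 2 ^ p ^ ρ := by
  have : Finite (Submodule (ZMod p) Y) :=
    Finite.of_injective (fun L : Submodule (ZMod p) Y => (L : Set Y)) SetLike.coe_injective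
  have := Fintype.ofFinite (Submodule (ZMod p) Y)
  refine ⟨univ.image (Submodule.map Y.subtype), fun Z hZ => mem_image.2
    ⟨Z.comap Y.subtype, mem_univ _, by rw [Submodule.map_comap_subtype, inf_eq_right.2 hZ]⟩, ?_⟩
  refine card_image_le.trans ?_
  rw [card_univ, ← Nat.card_eq_fintype_card, ← h, ← card_eq_pow]
  exact card_submodule_le

/-- PAIR -/
theorem PAIR (hp : p ≠ 2) (ρ : ℕ) : ∃ C : ℝ, 0 < C ∧ ∀ (ν : Type) [Fintype ν] [DecidableEq ν]
    (lam ε₁ : ℝ), 0 ≤ lam → ∀ S : Finset (GX (Fin ρ → ZMod p) ν), Fam lam S →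
    (∀ τ ∈ S, (CY (spn τ)).Nonempty) → (#S : ℝ) ≤ ε₁ * ((p : ℝ) ^ Fintype.card ν) ^ ρ →
    dens (X0 S) ≤ 1 - (1 - C * (ε₁ + lam)) * ∑ τ ∈ S, dens (CY (spn τ)) := by
  classical
  refine ⟨2 ^ p ^ ρ * (p : ℝ) ^ ((2 * ρ) ^ 2), by
    have := (Fact.out : p.Prime).pos
    positivity, fun ν _ _ lam ε₁ hlam S hF hne hS => ?_⟩
  have hp1 : (1 : ℝ) ≤ p := by exact_mod_cast (Fact.out : p.Prime).pos
  set d : ℝ := (p : ℝ) ^ Fintype.card ν with hd
  have hd0 : 0 < d := by positivity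
  have hε : 0 ≤ ε₁ := by
    have : (0 : ℝ) ≤ ε₁ * d ^ ρ := le_trans (by positivity) hS
    exact nonneg_of_mul_nonneg_left this (by positivity)
  have h1 : ∀ τ ∈ S, ∑ τ' ∈ S.erase τ, dens (CY (spn τ) ∩ CY (spn τ')) ≤
      2 ^ p ^ ρ * (p : ℝ) ^ ((2 * ρ) ^ 2) * (ε₁ + lam) * dens (CY (spn τ)) := by
    intro τ hτ
    have hr := hF.finrank hτ
    have hge := dens_CY_ge (hne τ hτ)
    rw [hr] at hge
    obtain ⟨T, hT1, hT2⟩ := LCa_subs (spn τ) hr
    rw [← sum_fiberwise_of_maps_to (t := T) (g := fun τ' => spn τ ⊓ spn τ')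
      fun τ' _ => hT1 _ inf_le_left]
    have h2 : ∀ Z ∈ T, ∑ τ' ∈ (S.erase τ).filter (fun τ' => spn τ ⊓ spn τ' = Z),
        dens (CY (spn τ) ∩ CY (spn τ')) ≤
          (p : ℝ) ^ ((2 * ρ) ^ 2) * (ε₁ + lam) * dens (CY (spn τ)) := by
      intro Z _
      rcases ((S.erase τ).filter fun τ' => spn τ ⊓ spn τ' = Z).eq_empty_or_nonempty with h | h
      · rw [h, sum_empty]
        have := dens_nonneg (CY (spn τ))
        positivity
      obtain ⟨τ0, h0⟩ := h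
      have hlt : Module.finrank (ZMod p) Z < ρ := by
        obtain ⟨a, b⟩ := mem_filter.1 h0
        obtain ⟨a1, a2⟩ := mem_erase.1 a
        by_contra hc
        have e1 : Z = spn τ := Submodule.eq_of_le_of_finrank_le (b ▸ inf_le_left) (by omega)
        have e2 : Z = spn τ0 := Submodule.eq_of_le_of_finrank_le (b ▸ inf_le_right)
          (by rw [hF.finrank a2]; omega)
        exact a1 (hF.inj _ a2 _ hτ (e2.symm.trans e1))
      have h3 : ∀ τ' ∈ (S.erase τ).filter (fun τ' => spn τ ⊓ spn τ' = Z),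
          dens (CY (spn τ) ∩ CY (spn τ')) ≤ (p : ℝ) ^ ((2 * ρ) ^ 2) *
            ((d ^ (ρ - Module.finrank (ZMod p) Z))⁻¹ * (d ^ ρ)⁻¹) := by
        intro τ' h'
        obtain ⟨a, b⟩ := mem_filter.1 h'
        rw [← CY_sup]
        rcases (CY (spn τ ⊔ spn τ')).eq_empty_or_nonempty with h | h
        · rw [h, dens_eq_card]
          simp only [Nat.card_eq_fintype_card, Fintype.card_eq_zero, Nat.cast_zero, zero_div]
          positivity
        have e := Submodule.finrank_sup_add_finrank_inf_eq (spn τ) (spn τ')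
        rw [hr, hF.finrank (mem_of_mem_erase a), b] at e
        have e2 : Module.finrank (ZMod p) ↥(spn τ ⊔ spn τ') =
            ρ - Module.finrank (ZMod p) Z + ρ := by omega
        refine (dens_CY_le hp h).trans ?_
        rw [e2, pow_add d, mul_inv]
        gcongr
        omega
      have h4 : (#((S.erase τ).filter fun τ' => spn τ ⊓ spn τ' = Z) : ℝ) ≤
          (ε₁ + lam) * d ^ (ρ - Module.finrank (ZMod p) Z) := by
        rcases Nat.eq_zero_or_pos (Module.finrank (ZMod p) Z) with h | h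
        · rw [h, Nat.sub_zero]
          refine le_trans (Nat.cast_le.2 (card_le_card
            ((filter_subset _ _).trans (erase_subset _ _)))) (hS.trans ?_)
          gcongr
          linarith
        · refine le_trans (Nat.cast_le.2 (card_le_card fun τ' h' => ?_))
            ((hF.light Z h hlt).trans (by gcongr; linarith))
          obtain ⟨a, b⟩ := mem_filter.1 h'
          exact mem_filter.2 ⟨mem_of_mem_erase a, b ▸ inf_le_right⟩
      calc _ ≤ _ := sum_le_card_nsmul _ _ _ h3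
        _ ≤ (ε₁ + lam) * d ^ (ρ - Module.finrank (ZMod p) Z) * ((p : ℝ) ^ ((2 * ρ) ^ 2) *
            ((d ^ (ρ - Module.finrank (ZMod p) Z))⁻¹ * (d ^ ρ)⁻¹)) := by
            rw [nsmul_eq_mul]; gcongr
        _ = (p : ℝ) ^ ((2 * ρ) ^ 2) * (ε₁ + lam) * (d ^ ρ)⁻¹ := by field_simp
        _ ≤ _ := by gcongr
    refine (sum_le_card_nsmul _ _ _ h2).trans ?_
    have h5 : (#T : ℝ) ≤ 2 ^ p ^ ρ := by exact_mod_cast hT2
    have := dens_nonneg (CY (spn τ))
    rw [nsmul_eq_mul, mul_assoc, mul_assoc, mul_assoc]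
    gcongr
  have h6 : ∀ M, ind (X0 S) M ≤ 1 - ∑ τ ∈ S, ind (CY (spn τ)) M +
      ∑ τ ∈ S, ∑ τ' ∈ S.erase τ, ind (CY (spn τ) ∩ CY (spn τ')) M := by
    intro M
    have e : ∑ τ ∈ S, ∑ τ' ∈ S.erase τ, ind (CY (spn τ) ∩ CY (spn τ')) M =
        (∑ τ ∈ S, ind (CY (spn τ)) M) ^ 2 - ∑ τ ∈ S, ind (CY (spn τ)) M := by
      rw [sq, sum_mul_sum, ← sum_sub_distrib]
      refine sum_congr rfl fun τ hτ => ?_
      rw [← add_sum_erase _ _ hτ, ← ind_inter, Set.inter_self, add_sub_cancel_left]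
      simp only [ind_inter]
    rw [e]
    by_cases h : M ∈ X0 S
    · have : ∑ τ ∈ S, ind (CY (spn τ)) M = 0 := sum_eq_zero fun τ hτ =>
        ind_of_not fun c => h τ hτ ((mem_CY_spn τ M).1 c)
      rw [this, ind_of_mem h]; norm_num
    · rw [ind_of_not h]
      nlinarith [sq_nonneg (∑ τ ∈ S, ind (CY (spn τ)) M - 1)]
  have h7 : dens (X0 S) ≤ 1 - ∑ τ ∈ S, dens (CY (spn τ)) +
      ∑ τ ∈ S, ∑ τ' ∈ S.erase τ, dens (CY (spn τ) ∩ CY (spn τ')) := by
    refine (expect_le_expect fun M _ => h6 M).trans (le_of_eq ?_)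
    simp only [expect_add_distrib, expect_sub_distrib, expect_sum_comm, Fintype.expect_const, dens]
  have h8 := sum_le_sum h1
  rw [← mul_sum] at h8
  linarith

section KB
variable {ν : Type} [Fintype ν] [DecidableEq ν] {ρ : ℕ}

/-- a linear form applied to all rows -/
def LCa_col (τ : GX (Fin ρ → ZMod p) ν) :
    Module.Dual (ZMod p) (Fin ρ → ZMod p) →ₗ[ZMod p] (ν → ZMod p) × (ν → ZMod p) where
  toFun f := (fun i => f (τ.1 i), fun i => f (τ.2 i))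
  map_add' _ _ := rfl
  map_smul' _ _ := rfl

lemma LCa_col_eq (τ : GX (Fin ρ → ZMod p) ν) (f : Module.Dual (ZMod p) (Fin ρ → ZMod p)) :
    LCa_col τ f = ∑ a, f (fun j => if a = j then 1 else 0) •
      ((fun i => τ.1 i a, fun i => τ.2 i a) : (ν → ZMod p) × (ν → ZMod p)) := by
  refine Prod.ext (funext fun i => ?_) (funext fun i => ?_)
  · show f (τ.1 i) = _
    rw [LinearMap.pi_apply_eq_sum_univ]
    simp only [Prod.fst_sum, Finset.sum_apply, Prod.smul_fst, Pi.smul_apply, smul_eq_mul, mul_comm]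
  · show f (τ.2 i) = _
    rw [LinearMap.pi_apply_eq_sum_univ]
    simp only [Prod.snd_sum, Finset.sum_apply, Prod.smul_snd, Pi.smul_apply, smul_eq_mul, mul_comm]

lemma LCa_col_mem (τ : GX (Fin ρ → ZMod p) ν) (f : Module.Dual (ZMod p) (Fin ρ → ZMod p)) :
    LCa_col τ f ∈ spn τ := by
  rw [LCa_col_eq]
  exact Submodule.sum_mem _ fun a _ => Submodule.smul_mem _ _ (Submodule.subset_span ⟨a, rfl⟩)

lemma LCa_col_inj {τ : GX (Fin ρ → ZMod p) ν}
    (h : LinearIndependent (ZMod p) fun (a : Fin ρ) (i : ν) => τ.1 i a) :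
    Function.Injective (LCa_col τ) := by
  refine (injective_iff_map_eq_zero _).2 fun f hf => ?_
  have h1 := congrArg Prod.fst hf
  rw [LCa_col_eq, Prod.fst_sum] at h1
  have h2 := Fintype.linearIndependent_iff.1 h _ h1
  refine LinearMap.ext fun x => ?_
  rw [LinearMap.pi_apply_eq_sum_univ]
  simp only [h2, smul_zero, sum_const_zero, LinearMap.zero_apply]

open Classical in
/-- a light family has few members in a coset of `pw ν E` -/
lemma LCa_coset {S : Finset (GX (Fin ρ → ZMod p) ν)} (hF : Fam 1 S)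
    {E : Submodule (ZMod p) (Fin ρ → ZMod p)} (h0 : E ≠ ⊥) (h1 : E ≠ ⊤)
    (x : GX (Fin ρ → ZMod p) ν) :
    (#(S.filter fun τ => x - τ ∈ pw ν E) : ℝ) ≤ (Fintype.card E : ℝ) ^ Fintype.card ν := by
  rcases (S.filter fun τ => x - τ ∈ pw ν E).eq_empty_or_nonempty with h | ⟨τ0, h⟩
  · rw [h, card_empty, Nat.cast_zero]; positivity
  obtain ⟨a, b⟩ := mem_filter.1 h
  have e1 : Module.finrank (ZMod p) (E.dualAnnihilator.map (LCa_col τ0)) =
      Module.finrank (ZMod p) E.dualAnnihilator :=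
    (Submodule.equivMapOfInjective _ (LCa_col_inj (hF.indep τ0 a)) _).finrank_eq.symm
  have e2 := Subspace.finrank_add_finrank_dualAnnihilator_eq E
  rw [Module.finrank_fin_fun] at e2
  have e3 : 0 < Module.finrank (ZMod p) E := Nat.pos_of_ne_zero fun c =>
    h0 (Submodule.finrank_eq_zero.1 c)
  have e4 : Module.finrank (ZMod p) E < ρ := by
    have := Submodule.finrank_lt h1
    rwa [Module.finrank_fin_fun] at this
  have h2 := hF.light (E.dualAnnihilator.map (LCa_col τ0)) (by omega) (by omega)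
  rw [e1, one_mul, show ρ - Module.finrank (ZMod p) E.dualAnnihilator =
    Module.finrank (ZMod p) E by omega] at h2
  rw [card_eq_pow (p := p), Nat.cast_pow, ← pow_mul, mul_comm, pow_mul]
  refine le_trans (Nat.cast_le.2 (card_le_card fun τ hτ => ?_)) h2
  obtain ⟨c, d⟩ := mem_filter.1 hτ
  refine mem_filter.2 ⟨c, ?_⟩
  rintro _ ⟨f, hf, rfl⟩
  have h3 : τ0 - τ ∈ pw ν E := by
    have := (pw ν E).sub_mem d b
    rwa [sub_sub_sub_cancel_left] at this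
  have h4 := mem_pw.1 h3
  have h5 := (Submodule.mem_dualAnnihilator f).1 hf
  have h6 : LCa_col τ0 f = LCa_col τ f := Prod.ext
    (funext fun i => sub_eq_zero.1 ((map_sub f _ _).symm.trans (h5 _ (h4.1 i))))
    (funext fun i => sub_eq_zero.1 ((map_sub f _ _).symm.trans (h5 _ (h4.2 i))))
  rw [h6]
  exact LCa_col_mem τ f

lemma LCa_KB {c C : ℝ} (hc : 0 < c) {S : Finset (GX (Fin ρ → ZMod p) ν)} (hF : Fam 1 S)
    (hS : c * ((p : ℝ) ^ Fintype.card ν) ^ ρ ≤ #S)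
    {Λ : Submodule (ZMod p) (GX (Fin ρ → ZMod p) ν)} (hΛ : ∀ τ ∈ S, τ ∈ Λ)
    (hC : (Fintype.card Λ : ℝ) ≤ C * ((p : ℝ) ^ Fintype.card ν) ^ ρ)
    (E : Submodule (ZMod p) (Fin ρ → ZMod p)) : (Fintype.card ↥(Λ ⊓ pw ν E) : ℝ) ≤
      (|C| / c + |C| + 1) * (Fintype.card E : ℝ) ^ Fintype.card ν := by
  classical
  have hp0 : (0 : ℝ) < p := by exact_mod_cast (Fact.out : p.Prime).pos
  have hE : (1 : ℝ) ≤ (Fintype.card E : ℝ) ^ Fintype.card ν :=
    one_le_pow₀ (by exact_mod_cast Fintype.card_pos)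
  have a0 : 0 ≤ |C| / c := by positivity
  have a1 := abs_nonneg C
  have hC' : (Fintype.card Λ : ℝ) ≤ |C| * ((p : ℝ) ^ Fintype.card ν) ^ ρ :=
    hC.trans (by gcongr; exact le_abs_self C)
  by_cases h0 : E = ⊥
  · have : Fintype.card ↥(Λ ⊓ pw ν E) ≤ 1 := Fintype.card_le_one_iff.2 fun x y => by
      have hz : ∀ z : ↥(Λ ⊓ pw ν E), z.1 = 0 := fun z => by
        have := mem_pw.1 z.2.2
        subst h0
        exact Prod.ext (funext fun i => this.1 i) (funext fun i => this.2 i)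
      exact Subtype.ext ((hz x).trans (hz y).symm)
    have h2 : (Fintype.card ↥(Λ ⊓ pw ν E) : ℝ) ≤ 1 := by exact_mod_cast this
    nlinarith
  by_cases h1 : E = ⊤
  · have h2 : Fintype.card ↥(Λ ⊓ pw ν E) ≤ Fintype.card Λ := Fintype.card_le_of_injective
      (fun x => ⟨x.1, x.2.1⟩) fun x y e => Subtype.ext (congrArg Subtype.val e :)
    have h3 : (Fintype.card E : ℝ) ^ Fintype.card ν = ((p : ℝ) ^ Fintype.card ν) ^ ρ := by
      rw [card_eq_pow (p := p), h1, finrank_top, Module.finrank_fin_fun, Nat.cast_pow, ← pow_mul,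
        ← pow_mul, mul_comm]
    rw [← h3] at hC'
    have h4 : (Fintype.card ↥(Λ ⊓ pw ν E) : ℝ) ≤ Fintype.card Λ := by exact_mod_cast h2
    nlinarith
  have h2 : (#S : ℝ) * Fintype.card ↥(Λ ⊓ pw ν E) ≤
      Fintype.card Λ * (Fintype.card E : ℝ) ^ Fintype.card ν := by
    calc (#S : ℝ) * Fintype.card ↥(Λ ⊓ pw ν E) = ∑ τ ∈ S, (Fintype.card ↥(Λ ⊓ pw ν E) : ℝ) := by
          rw [sum_const, nsmul_eq_mul]
      _ ≤ ∑ τ ∈ S, (#(univ.filter fun x : Λ => x.1 - τ ∈ pw ν E) : ℝ) := by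
          refine sum_le_sum fun τ hτ => Nat.cast_le.2 ?_
          rw [← card_univ]
          refine card_le_card_of_injOn (fun y => ⟨y.1 + τ, Λ.add_mem y.2.1 (hΛ τ hτ)⟩)
            (fun y _ => mem_coe.2 (mem_filter.2 ⟨mem_univ _, by simpa using y.2.2⟩))
            fun y _ y' _ e => Subtype.ext (add_right_cancel (congrArg Subtype.val e :))
      _ = ∑ x : Λ, (#(S.filter fun τ => x.1 - τ ∈ pw ν E) : ℝ) := by
          simp only [card_filter]
          push_cast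
          exact sum_comm
      _ ≤ ∑ x : Λ, (Fintype.card E : ℝ) ^ Fintype.card ν :=
          sum_le_sum fun x _ => LCa_coset hF h0 h1 x.1
      _ = _ := by rw [sum_const, card_univ, nsmul_eq_mul]
  have h3 : (Fintype.card ↥(Λ ⊓ pw ν E) : ℝ) ≤ |C| / c * (Fintype.card E : ℝ) ^ Fintype.card ν := by
    rw [div_mul_eq_mul_div, le_div_iff₀ hc]
    refine le_of_mul_le_mul_right (a := ((p : ℝ) ^ Fintype.card ν) ^ ρ) ?_ (by positivity)
    calc _ = c * ((p : ℝ) ^ Fintype.card ν) ^ ρ * Fintype.card ↥(Λ ⊓ pw ν E) := by ring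
      _ ≤ #S * Fintype.card ↥(Λ ⊓ pw ν E) := by gcongr
      _ ≤ _ := h2
      _ ≤ |C| * ((p : ℝ) ^ Fintype.card ν) ^ ρ * (Fintype.card E : ℝ) ^ Fintype.card ν := by gcongr
      _ = _ := by ring
  nlinarith

end KB

/-- structured case: a tile weight whose marginal is close to the indicator of `X0 S` -/
theorem AVOID_sub (hp : p ≠ 2) (ρ J : ℕ) (c C γ : ℝ) (hc : 0 < c) (hγ : 0 < γ) : ∃ n0 : ℕ,
    ∀ (ν : Type) [Fintype ν] [DecidableEq ν], n0 ≤ Fintype.card ν →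
    ∀ S : Finset (GX (Fin ρ → ZMod p) ν), Fam 1 S →
    c * ((p : ℝ) ^ Fintype.card ν) ^ ρ ≤ #S →
    ∀ Λ : Submodule (ZMod p) (GX (Fin ρ → ZMod p) ν), (∀ τ ∈ S, τ ∈ Λ) →
    (Fintype.card Λ : ℝ) ≤ C * ((p : ℝ) ^ Fintype.card ν) ^ ρ →
    ∃ w : SymM p ν → Matrix ν (Fin J) (ZMod p) → ℝ, (∀ M U, 0 ≤ w M U) ∧
      (∀ M U, w M U ≠ 0 → Inj U) ∧ 𝔼 M, |marg (fun U => U) w M - ind (X0 S) M| ≤ γ := by
  classical
  obtain ⟨n0, hsub⟩ := SUBK hp (p ^ ρ) J c (|C| / c + |C| + 1) (min (γ / 3) 1) hc (by positivity)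
  refine ⟨n0, fun ν _ _ hn S hF hS Λ hΛ hC => ?_⟩
  have hX : Fintype.card (Fin ρ → ZMod p) = p ^ ρ := by simp
  have hXn : (Fintype.card (Fin ρ → ZMod p) : ℝ) ^ Fintype.card ν =
      ((p : ℝ) ^ Fintype.card ν) ^ ρ := by
    rw [hX, Nat.cast_pow, ← pow_mul, ← pow_mul, mul_comm]
  have hSΛ : #S ≤ Fintype.card Λ := by
    rw [← Fintype.card_coe]
    exact Fintype.card_le_of_injective (fun τ => ⟨τ.1, hΛ _ τ.2⟩) fun x y e =>
      Subtype.ext (congrArg Subtype.val e :)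
  obtain ⟨w, w0, w1, w2, w3⟩ := hsub ν hn (Fin ρ → ZMod p) hX.le Λ
    (by rw [hXn]; exact hS.trans (Nat.cast_le.2 hSΛ)) (LCa_KB hc hF hS hΛ hC)
  refine ⟨fun M U => w M U * ind (X0 S) M, fun M U => mul_nonneg (w0 M U) (ind_nonneg _ _),
    fun M U h => (w1 M U (left_ne_zero_of_mul h)).1, ?_⟩
  have h1 : ∀ M, marg (fun U => U) (fun M U => w M U * ind (X0 S) M) M =
      marg (fun U => U) w M * ind (X0 S) M := by
    intro M
    simp only [marg, expect_mul]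
    refine expect_congr rfl fun U _ => expect_congr rfl fun N _ => ?_
    by_cases h : w (M - cj U N) U = 0
    · rw [h, zero_mul, zero_mul]
    · have h2 := fun τ (hτ : τ ∈ S) => SG_ker (w1 _ _ h).2 N (hΛ τ hτ)
      simp only [sub_add_cancel] at h2
      congr 1
      by_cases h3 : M ∈ X0 S
      · rw [ind_of_mem h3, ind_of_mem (A := X0 S) fun τ hτ e => h3 τ hτ ((h2 τ hτ).2 e)]
      · rw [ind_of_not h3, ind_of_not (A := X0 S) fun h4 => h3 fun τ hτ e =>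
          h4 τ hτ ((h2 τ hτ).1 e)]
  have h2 := (close_of_le (marg (fun U => U) w) (by positivity) (min_le_right (γ / 3) 1)
    (marg_nonneg _ w w0) w3 (by rw [expect_marg]; exact w2)).1
  have h3 := min_le_left (γ / 3) 1
  refine le_trans (expect_le_expect fun M _ => ?_) (h2.trans (by linarith))
  rw [h1, ← sub_one_mul, abs_mul, abs_of_nonneg (ind_nonneg _ _)]
  exact mul_le_of_le_one_right (abs_nonneg _) (ind_le_one _ _)

/-- a tile weight close to the indicator of `X0 S` bounds the mass of a deficient family -/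
lemma lcB_core {ν : Type} [Fintype ν] [DecidableEq ν] {ρ J : ℕ} {A : Set (SymM p ν)}
    {η γ δ : ℝ} {S : Finset (GX (Fin ρ → ZMod p) ν)} (hA : NE γ A) (hγ0 : 0 ≤ γ) (hγ : γ ≤ 1)
    (hD : ∀ τ ∈ S, Dfc η A (spn τ)) (hδ0 : 0 ≤ δ) (hδ : δ ≤ η / 2)
    (hP : dens (X0 S) ≤ 1 - (1 - δ) * ∑ τ ∈ S, dens (CY (spn τ)))
    (hUB : ∀ A' : Set (SymM p (Fin J)), Ind A' → dens A' ≤ aS p + γ)
    (hw : ∃ w : SymM p ν → Matrix ν (Fin J) (ZMod p) → ℝ, (∀ M U, 0 ≤ w M U) ∧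
      (∀ M U, w M U ≠ 0 → Inj U) ∧ 𝔼 M, |marg (fun U => U) w M - ind (X0 S) M| ≤ γ) :
    η * ∑ τ ∈ S, dens (CY (spn τ)) ≤ 10 * γ := by
  obtain ⟨w, h0, hI, hc⟩ := hw
  have a0 := aS_nonneg (p := p)
  have a1 := aS_le_one (p := p)
  have hμ : 0 ≤ ∑ τ ∈ S, dens (CY (spn τ)) := sum_nonneg fun _ _ => dens_nonneg _
  have h1 : dens (A ∩ (X0 S)ᶜ) ≤ (aS p - η) * ∑ τ ∈ S, dens (CY (spn τ)) := by
    rw [mul_sum]
    refine (dens_le_sum S _ (fun τ => A ∩ CY (spn τ)) fun M hM => ?_).trans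
      (sum_le_sum fun τ hτ => (hD τ hτ).le)
    by_contra h
    exact hM.2 fun τ hτ e => h ⟨τ, hτ, hM.1, (mem_CY_spn τ M).2 e⟩
  have h2 : dens A ≤ 𝔼 M, marg (fun U => U) w M * ind A M +
      𝔼 M, |marg (fun U => U) w M - ind (X0 S) M| + dens (A ∩ (X0 S)ᶜ) := by
    rw [dens, dens, ← expect_add_distrib, ← expect_add_distrib]
    refine expect_le_expect fun M _ => ?_
    have m0 := marg_nonneg (fun U => U) w h0 M
    have m1 := neg_abs_le (marg (fun U => U) w M - ind (X0 S) M)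
    have m2 := abs_nonneg (marg (fun U => U) w M - ind (X0 S) M)
    have m3 := ind_nonneg (A ∩ (X0 S)ᶜ) M
    by_cases hM : M ∈ A
    · by_cases hX : M ∈ X0 S
      · rw [ind_of_mem hX] at m1 ⊢
        rw [ind_of_mem hM]
        linarith
      · rw [ind_of_mem hM, ind_of_mem (show M ∈ A ∩ (X0 S)ᶜ from ⟨hM, hX⟩)]
        linarith
    · rw [ind_of_not hM]
      linarith
  have h3 : 𝔼 M, marg (fun U => U) w M ≤
      dens (X0 S) + 𝔼 M, |marg (fun U => U) w M - ind (X0 S) M| := by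
    rw [dens, ← expect_add_distrib]
    exact expect_le_expect fun M _ => by
      linarith [le_abs_self (marg (fun U => U) w M - ind (X0 S) M)]
  have h4 := marg_dens_le (fun U => U) w hA.1 hUB h0 hI
  have h5 : (aS p + γ) * 𝔼 M, marg (fun U => U) w M ≤ (aS p + γ) * (dens (X0 S) + γ) :=
    mul_le_mul_of_nonneg_left (by linarith) (by linarith)
  have h6 := mul_le_mul_of_nonneg_left hP a0
  have h7 := mul_le_mul_of_nonneg_left (dens_le_one (X0 S)) hγ0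
  have h8 := mul_le_mul_of_nonneg_left a1 hγ0
  have h9 := mul_le_mul_of_nonneg_left hγ hγ0
  have h10 := mul_le_mul_of_nonneg_left a1 (mul_nonneg hδ0 hμ)
  have h11 := mul_le_mul_of_nonneg_right hδ hμ
  have h12 := hA.2
  nlinarith

/-- the mass of a family is at least its normalised size -/
lemma lcB_mass {ν : Type} [Fintype ν] [DecidableEq ν] {ρ : ℕ} {lam c : ℝ}
    {S : Finset (GX (Fin ρ → ZMod p) ν)} (hF : Fam lam S) (hN : ∀ τ ∈ S, (CY (spn τ)).Nonempty)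
    (hc : c * ((p : ℝ) ^ Fintype.card ν) ^ ρ ≤ #S) : c ≤ ∑ τ ∈ S, dens (CY (spn τ)) := by
  have hp0 : (0 : ℝ) < p := Nat.cast_pos.2 (Fact.out : p.Prime).pos
  have h := card_nsmul_le_sum S (fun τ => dens (CY (spn τ))) (((p : ℝ) ^ Fintype.card ν) ^ ρ)⁻¹
    fun τ hτ => by
      have := dens_CY_ge (hN τ hτ)
      rwa [hF.finrank hτ] at this
  rw [nsmul_eq_mul, ← div_eq_mul_inv] at h
  exact ((le_div_iff₀ (by positivity)).2 hc).trans h

open Classical in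
theorem LC (hp : p ≠ 2) (ρ : ℕ) (hρ : 0 < ρ) (ε η : ℝ) (hε : 0 < ε) (hη : 0 < η) :
    ∃ lam : ℝ, 0 < lam ∧ Ev p fun ν _ _ A => ∀ 𝒴 : Finset (SV p ν),
      (∀ Y ∈ 𝒴, Module.finrank (ZMod p) Y = ρ ∧ Dfc η A Y) →
      (∀ Z : SV p ν, 0 < Module.finrank (ZMod p) Z → Module.finrank (ZMod p) Z < ρ →
        (#(𝒴.filter fun Y => Z ≤ Y) : ℝ) ≤
          lam * ((p : ℝ) ^ Fintype.card ν) ^ (ρ - Module.finrank (ZMod p) Z)) →
      (#𝒴 : ℝ) ≤ ε * ((p : ℝ) ^ Fintype.card ν) ^ ρ := by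
  obtain ⟨C, hC, hP⟩ := PAIR hp ρ
  obtain ⟨e, he, he1, he2, he3⟩ : ∃ e : ℝ, 0 < e ∧ e ≤ ε ∧ e ≤ 1 ∧ e ≤ η / (4 * C) :=
    ⟨min (min ε 1) (η / (4 * C)), by positivity, (min_le_left _ _).trans (min_le_left _ _),
      (min_le_left _ _).trans (min_le_right _ _), min_le_right _ _⟩
  obtain ⟨g₁, hg₁, hg₁1, hg₁2⟩ : ∃ g : ℝ, 0 < g ∧ g ≤ 1 ∧ g ≤ η * (e / 2) / 20 :=
    ⟨min 1 (η * (e / 2) / 20), by positivity, min_le_left _ _, min_le_right _ _⟩
  obtain ⟨J₁, hJ₁⟩ := UB (p := p) g₁ hg₁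
  obtain ⟨l₁, hl₁, κ, hκ, n₁, hAv⟩ := AVOID hp ρ J₁ hρ g₁ hg₁
  obtain ⟨C₂, hC₂, hfr⟩ := _root_.MP_4523ee_co.Fp.fr p κ hκ
  obtain ⟨g₂, hg₂, hg₂1, hg₂2⟩ : ∃ g : ℝ, 0 < g ∧ g ≤ 1 ∧ g ≤ η * (e / 2 / C₂) / 20 :=
    ⟨min 1 (η * (e / 2 / C₂) / 20), by positivity, min_le_left _ _, min_le_right _ _⟩
  obtain ⟨J₂, hJ₂⟩ := UB (p := p) g₂ hg₂
  obtain ⟨n₂, hAs⟩ := AVOID_sub hp ρ J₂ (e / 2 / C₂) C₂ g₂ (by positivity) hg₂
  obtain ⟨n₃, hn₃⟩ := exists_nat_ge (1 / e)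
  obtain ⟨lam, hl, hl1, hl2, hl3⟩ : ∃ l : ℝ, 0 < l ∧ l ≤ l₁ ∧ l ≤ 1 ∧ l ≤ η / (4 * C) :=
    ⟨min (min l₁ 1) (η / (4 * C)), by positivity, (min_le_left _ _).trans (min_le_left _ _),
      (min_le_left _ _).trans (min_le_right _ _), min_le_right _ _⟩
  have hδ : C * (e + lam) ≤ η / 2 := by
    rw [le_div_iff₀ (by positivity)] at he3 hl3
    linarith
  refine ⟨lam, hl, min g₁ g₂, lt_min hg₁ hg₂, max n₁ (max n₂ n₃),
    fun ν _ _ hn A hA 𝒴 hY hL => ?_⟩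
  by_contra hbig
  rw [not_le] at hbig
  have hp1 : 1 < p := (Fact.out : p.Prime).one_lt
  obtain ⟨D, hD⟩ : ∃ D : ℝ, D = ((p : ℝ) ^ Fintype.card ν) ^ ρ := ⟨_, rfl⟩
  have hD1 : (n₃ : ℝ) ≤ D := by
    have h1 : n₃ ≤ (p ^ Fintype.card ν) ^ ρ :=
      (((le_max_right _ _).trans (le_max_right _ _)).trans hn).trans
        ((Nat.lt_pow_self hp1).le.trans (Nat.le_self_pow hρ.ne' _))
    rw [hD]
    exact_mod_cast h1
  have hD0 : 0 < D := lt_of_lt_of_le (by positivity) (hn₃.trans hD1)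
  have heD : 1 ≤ e * D := by
    have := hn₃.trans hD1
    rwa [div_le_iff₀ he, mul_comm] at this
  obtain ⟨S, hS, hc, hm⟩ := exists_Fam lam 𝒴 (fun Y h => ⟨(hY Y h).1, (hY Y h).2.nonempty⟩) hL
  obtain ⟨S₁, hS₁, hc₁⟩ := exists_subset_card_eq (s := S) (n := ⌊e * D⌋₊) (by
    refine Nat.floor_le_of_le ?_
    rw [hc, hD]
    exact (mul_le_mul_of_nonneg_right he1 (hD ▸ hD0.le)).trans hbig.le)
  have hup : (#S₁ : ℝ) ≤ e * D := hc₁ ▸ Nat.floor_le (by positivity)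
  have hlo : e / 2 * D ≤ #S₁ := by
    have h1 := Nat.lt_floor_add_one (e * D)
    have h2 : (1 : ℝ) ≤ ⌊e * D⌋₊ := by exact_mod_cast (Nat.one_le_floor_iff _).2 heD
    rw [hc₁]
    linarith
  have hupD : (#S₁ : ℝ) ≤ D := hup.trans (mul_le_of_le_one_left hD0.le he2)
  have key : ∀ (T : Finset (GX (Fin ρ → ZMod p) ν)) (c g : ℝ) (J : ℕ), T ⊆ S₁ → 0 < c → 0 < g →
      g ≤ 1 → g ≤ η * c / 20 → NE g A → c * D ≤ #T →
      (∀ A' : Set (SymM p (Fin J)), Ind A' → dens A' ≤ aS p + g) →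
      ¬ ∃ w : SymM p ν → Matrix ν (Fin J) (ZMod p) → ℝ, (∀ M U, 0 ≤ w M U) ∧
        (∀ M U, w M U ≠ 0 → Inj U) ∧ 𝔼 M, |marg (fun U => U) w M - ind (X0 T) M| ≤ g := by
    intro T c g J hT hc0 hg0 hg1 hg2 hAg hcT hU hw
    have hF : Fam lam T := hS.mono le_rfl (hT.trans hS₁)
    have hd : ∀ τ ∈ T, Dfc η A (spn τ) := fun τ h => (hY _ (hm τ (hS₁ (hT h)))).2
    have hN : ∀ τ ∈ T, (CY (spn τ)).Nonempty := fun τ h => (hd τ h).nonempty
    have h1 := lcB_core hAg hg0.le hg1 hd (by positivity) hδ (hP ν lam e hl.le T hF hN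
      (hD ▸ (Nat.cast_le.2 (card_le_card hT)).trans hup)) hU hw
    have h2 := mul_le_mul_of_nonneg_left (lcB_mass hF hN (hD ▸ hcT)) hη.le
    have h3 := mul_pos hη hc0
    linarith
  rcases le_total (Finset.addEnergy S₁ S₁ : ℝ) (κ * D ^ 3) with hE | hE
  · refine key S₁ (e / 2) g₁ J₁ Subset.rfl (by positivity) hg₁ hg₁1 hg₁2
      (hA.mono (min_le_left _ _)) hlo (hJ₁ _ (Fintype.card_fin _).ge) ?_
    refine hAv ν ((le_max_left _ _).trans hn) S₁ (hS.mono hl1 hS₁) (hD ▸ hupD) ?_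
    rwa [mul_comm 3 ρ, pow_mul, ← hD]
  · obtain ⟨H, hH1, hH2⟩ := hfr _ S₁
      (card_pos.1 (Nat.cast_pos.1 (lt_of_lt_of_le (by positivity) hlo)))
      ((mul_le_mul_of_nonneg_left (pow_le_pow_left₀ (Nat.cast_nonneg _) hupD 3) hκ.le).trans hE)
    have hT : e / 2 / C₂ * D ≤ #(S₁.filter fun x => x ∈ H) := by
      rw [div_mul_eq_mul_div, div_le_iff₀' hC₂]
      exact hlo.trans hH2
    refine key _ (e / 2 / C₂) g₂ J₂ (filter_subset _ _) (by positivity) hg₂ hg₂1 hg₂2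
      (hA.mono (min_le_right _ _)) hT (hJ₂ _ (Fintype.card_fin _).ge) ?_
    refine hAs ν (((le_max_left _ _).trans (le_max_right _ _)).trans hn) _
      (hS.mono hl2 ((filter_subset _ _).trans hS₁)) (hD ▸ hT) H
      (fun τ h => (mem_filter.1 h).2) ?_
    rw [← Nat.card_eq_fintype_card, ← hD]
    exact hH1.trans (mul_le_mul_of_nonneg_left hupD hC₂.le)

end Pool.Agent.Work.MP_4523ee_co.Fp
end

-- merged part: Pool.Agent.Work.MP_4523ee_co.Fp.ClB
section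
/-!
Cleaning (paper section 6): proofs of Q, CL and of its use on one tile.
-/

set_option autoImplicit false
set_option linter.unusedSectionVars false

namespace Pool.Agent.Work.MP_4523ee_co.Fp

open Finset Matrix
open scoped BigOperators ComplexConjugate

variable {p : ℕ} [Fact p.Prime]

/-- the counting statement of Q with its parameters -/
def clB_QS (p : ℕ) [Fact p.Prime] (j : ℕ) (ε η η' : ℝ) (n0 : ℕ) : Prop :=
  ∀ (ν : Type) [Fintype ν] [DecidableEq ν], n0 ≤ Fintype.card ν →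
    ∀ A : Set (SymM p ν), NE η' A → ∀ 𝒴 : Finset (SV p ν),
      (∀ Y ∈ 𝒴, Module.finrank (ZMod p) Y = j ∧ Dfc η A Y ∧
        ∀ S, ⊥ < S → S < Y → ¬ Dfc η' A S) →
      (#𝒴 : ℝ) ≤ ε * ((p : ℝ) ^ Fintype.card ν) ^ j

lemma clB_QS.mono {j : ℕ} {ε η η' η'' : ℝ} {n0 n1 : ℕ} (h : clB_QS p j ε η η' n0) (h1 : η'' ≤ η')
    (h2 : n0 ≤ n1) : clB_QS p j ε η η'' n1 := fun ν _ _ hn A hA 𝒴 h𝒴 =>
  h ν (h2.trans hn) A (hA.mono h1) 𝒴 fun Y hY =>
    ⟨(h𝒴 Y hY).1, (h𝒴 Y hY).2.1, fun S a b c => (h𝒴 Y hY).2.2 S a b (c.mono h1)⟩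

lemma clB_unif {ε η : ℝ} (R : ℕ)
    (h : ∀ j, 0 < j → j ≤ R → ∃ η' : ℝ, 0 < η' ∧ ∃ n0, clB_QS p j ε η η' n0) :
    ∃ η' : ℝ, 0 < η' ∧ ∃ n0, ∀ j, 0 < j → j ≤ R → clB_QS p j ε η η' n0 := by
  induction R with
  | zero => exact ⟨1, one_pos, 0, fun j h1 h2 => by omega⟩
  | succ R ih =>
    obtain ⟨a, ha, n, hn⟩ := ih fun j h1 h2 => h j h1 (by omega)
    obtain ⟨b, hb, m, hm⟩ := h (R + 1) (by omega) le_rfl
    refine ⟨min a b, lt_min ha hb, max n m, fun j h1 h2 => ?_⟩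
    rcases Nat.lt_or_ge j (R + 1) with h3 | h3
    · exact (hn j h1 (by omega)).mono (min_le_left _ _) (le_max_left _ _)
    · obtain rfl : j = R + 1 := by omega
      exact hm.mono (min_le_right _ _) (le_max_right _ _)

lemma clB_above {i : ℕ} {ε η η' : ℝ} {n0 : ℕ} (hQ : clB_QS p i ε η η' n0) (hε : 0 ≤ ε) {ν : Type}
    [Fintype ν] [DecidableEq ν] {A : Set (SymM p ν)} (hA : Ind A) {Z : SV p ν}
    (hn : n0 + Module.finrank (ZMod p) Z ≤ Fintype.card ν) (hD : ¬ Dfc η' A Z)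
    (𝒴 : Finset (SV p ν))
    (h : ∀ Y ∈ 𝒴, Z ≤ Y ∧ Module.finrank (ZMod p) Y = i + Module.finrank (ZMod p) Z ∧
      Dfc η A Y ∧ ∀ S, Z < S → S < Y → ¬ Dfc η' A S) :
    (#𝒴 : ℝ) ≤ ε * ((p : ℝ) ^ Fintype.card ν) ^ i := by
  classical
  have hp1 : (1 : ℝ) ≤ p := by exact_mod_cast (Fact.out : p.Prime).one_le
  rcases 𝒴.eq_empty_or_nonempty with rfl | ⟨Y0, hY0⟩
  · rw [card_empty, Nat.cast_zero]
    positivity
  have hZ : (CY Z).Nonempty := ((h Y0 hY0).2.2.1.nonempty).mono (CY_anti (h Y0 hY0).1)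
  obtain ⟨m, M₀, U, Φ, h1, -, -, -, -, h6, h7, h8, -, h10, h11, h12⟩ := TR hZ
  have hinj : Function.Injective Φ := fun a b hab =>
    le_antisymm ((h6 a b).1 hab.le) ((h6 b a).1 hab.ge)
  have hlt : ∀ a b, a < b → Φ a < Φ b := fun a b hab =>
    lt_of_le_of_ne ((h6 a b).2 hab.le) fun e => hab.ne (hinj e)
  have k1 := hQ (Fin m) (by rw [Fintype.card_fin]; omega) (res A M₀ U) (h12 η' A hA hD)
    (𝒴.preimage Φ hinj.injOn) fun Y hY => by
      obtain ⟨-, a2, a3, a4⟩ := h _ (mem_preimage.1 hY)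
      refine ⟨by rw [h8] at a2; omega, (h11 η A Y).1 a3, fun S b1 b2 b3 => ?_⟩
      exact a4 (Φ S) (h7 ▸ hlt _ _ b1) (hlt _ _ b2) ((h11 η' A S).2 b3)
  have k2 : 𝒴 ⊆ (𝒴.preimage Φ hinj.injOn).image Φ := fun Y hY => by
    obtain ⟨W, rfl⟩ := h10 Y (h Y hY).1 (h Y hY).2.2.1.nonempty
    exact mem_image_of_mem _ (mem_preimage.2 hY)
  have k3 : (#𝒴 : ℝ) ≤ #(𝒴.preimage Φ hinj.injOn) := by
    exact_mod_cast (card_le_card k2).trans card_image_le
  refine (k3.trans k1).trans (mul_le_mul_of_nonneg_left ?_ hε)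
  rw [Fintype.card_fin]
  exact pow_le_pow_left₀ (by positivity) (pow_le_pow_right₀ hp1 (by omega)) _

theorem clB_Q (hp : p ≠ 2) (j : ℕ) : 0 < j → ∀ ε η : ℝ, 0 < ε → 0 < η →
    ∃ η' : ℝ, 0 < η' ∧ ∃ n0 : ℕ, clB_QS p j ε η η' n0 := by
  induction j using Nat.strong_induction_on with
  | _ j ih =>
    intro hj ε η hε hη
    classical
    obtain ⟨lam, hlam, ηL, hηL, nL, hL⟩ := LC hp j hj ε η hε hη
    obtain ⟨η', hη', n0, hQ⟩ := clB_unif (p := p) (ε := lam) (η := η) (j - 1)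
      fun i h1 h2 => ih i (by omega) h1 lam η hlam hη
    refine ⟨min ηL η', lt_min hηL hη', max nL (n0 + j), fun ν _ _ hn A hA 𝒴 h𝒴 => ?_⟩
    refine hL ν ((le_max_left _ _).trans hn) A (hA.mono (min_le_left _ _)) 𝒴
      (fun Y hY => ⟨(h𝒴 Y hY).1, (h𝒴 Y hY).2.1⟩) fun Z h1 h2 => ?_
    have hZ0 : ⊥ < Z := bot_lt_iff_ne_bot.2 fun e => by
      rw [e, finrank_bot] at h1
      exact lt_irrefl _ h1
    rcases (𝒴.filter fun Y => Z ≤ Y).eq_empty_or_nonempty with h0 | ⟨Y0, hY0⟩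
    · rw [h0, card_empty, Nat.cast_zero]
      positivity
    obtain ⟨a1, a2⟩ := mem_filter.1 hY0
    have hD : ¬ Dfc (min ηL η') A Z := (h𝒴 Y0 a1).2.2 Z hZ0 (lt_of_le_of_ne a2 fun e => by
      have := (h𝒴 Y0 a1).1
      rw [← e] at this
      omega)
    have hn' := (le_max_right _ _).trans hn
    refine clB_above ((hQ (j - Module.finrank (ZMod p) Z) (by omega) (by omega)).mono
      (min_le_right ηL η') le_rfl) hlam.le hA.1 (by omega) hD _ fun Y hY => ?_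
    obtain ⟨b1, b2⟩ := mem_filter.1 hY
    obtain ⟨c1, c2, c3⟩ := h𝒴 Y b1
    exact ⟨b2, by omega, c2, fun S d1 d2 => c3 S (hZ0.trans d1) d2⟩

lemma clB_cond (hp : p ≠ 2) {ν : Type} [Fintype ν] [DecidableEq ν] {R : ℕ} {Y Y' : SV p ν}
    (hY : Module.finrank (ZMod p) Y ≤ R) (hY' : Module.finrank (ZMod p) Y' ≤ R)
    (hN : (CY Y').Nonempty) :
    dens (CY (Y ⊔ Y')) ≤ (p : ℝ) ^ ((2 * R) ^ 2) * dens (CY Y') /
      ((p : ℝ) ^ Fintype.card ν) ^
        (Module.finrank (ZMod p) Y - Module.finrank (ZMod p) (Y ⊓ Y' : SV p ν)) := by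
  have hp1 : (1 : ℝ) ≤ p := by exact_mod_cast (Fact.out : p.Prime).one_le
  have h0 := dens_nonneg (CY Y')
  rcases (CY (Y ⊔ Y')).eq_empty_or_nonempty with h | h
  · rw [h]
    have : dens (∅ : Set (SymM p ν)) = 0 := by simp [dens, ind]
    rw [this]
    positivity
  have h1 := dens_CY_le hp h
  have h2 := dens_CY_ge hN
  have h3 := Submodule.finrank_sup_add_finrank_inf_eq Y Y'
  have h4 := Submodule.finrank_mono (inf_le_left : Y ⊓ Y' ≤ Y)
  have h5 : Module.finrank (ZMod p) (Y ⊔ Y' : SV p ν) = Module.finrank (ZMod p) Y' +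
      (Module.finrank (ZMod p) Y - Module.finrank (ZMod p) (Y ⊓ Y' : SV p ν)) := by omega
  have h6 : (p : ℝ) ^ (Module.finrank (ZMod p) (Y ⊔ Y' : SV p ν) ^ 2) ≤ (p : ℝ) ^ ((2 * R) ^ 2) :=
    pow_le_pow_right₀ hp1 (Nat.pow_le_pow_left (by omega) 2)
  refine h1.trans ?_
  rw [mul_div_assoc]
  refine mul_le_mul h6 ?_ (by positivity) (by positivity)
  rw [h5, pow_add, mul_inv, ← div_eq_mul_inv]
  exact div_le_div_of_nonneg_right h2 (by positivity)

theorem clB_CL (hp : p ≠ 2) (R : ℕ) (ε η : ℝ) (hε : 0 < ε) (hη : 0 < η) :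
    Ev p fun ν _ _ A => ∃ B : Set (SymM p ν), dens B ≤ ε ∧ ∀ Y : SV p ν,
      Module.finrank (ZMod p) Y ≤ R → (CY Y).Nonempty →
      CY Y ⊆ B ∨ (¬ Dfc η A Y ∧ dens (B ∩ CY Y) ≤ ε * dens (CY Y)) := by
  classical
  have hp1 : (1 : ℝ) ≤ p := by exact_mod_cast (Fact.out : p.Prime).one_le
  set C : ℝ := 2 ^ p ^ R * (R + 1) * (p : ℝ) ^ ((2 * R) ^ 2) with hC
  have hC0 : 0 < C := by positivity
  have hε' : 0 < ε / C := div_pos hε hC0
  have hx : ∀ x : ℝ, ∃ y : ℝ, ∃ n : ℕ, 0 < x → 0 < y ∧ y ≤ x ∧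
      ∀ j, 0 < j → j ≤ R → clB_QS p j (ε / C) x y n := by
    intro x
    by_cases h : 0 < x
    · obtain ⟨y, hy, n, hn⟩ := clB_unif (p := p) (ε := ε / C) (η := x) R
        fun j h1 _ => clB_Q hp j h1 _ _ hε' h
      exact ⟨min x y, n, fun _ => ⟨lt_min h hy, min_le_left _ _,
        fun j h1 h2 => (hn j h1 h2).mono (min_le_right _ _) le_rfl⟩⟩
    · exact ⟨0, 0, fun h' => absurd h' h⟩
  choose g n hg using hx
  let e : ℕ → ℝ := fun k => g^[k] η
  have hes : ∀ k, e (k + 1) = g (e k) := fun k => Function.iterate_succ_apply' g k η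
  have he0 : ∀ k, 0 < e k := fun k => by
    induction k with
    | zero => exact hη
    | succ k ih => rw [hes]; exact (hg _ ih).1
  have hea : Antitone e := antitone_nat_of_succ_le fun k => by rw [hes]; exact (hg _ (he0 k)).2.1
  refine ⟨e R, he0 R, (range (R + 1)).sup (fun k => n (e k)) + R, fun ν _ _ hn A hA => ?_⟩
  have : Finite (SV p ν) := Finite.of_injective
    (fun L : SV p ν => (L : Set ((ν → ZMod p) × (ν → ZMod p)))) SetLike.coe_injective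
  have := Fintype.ofFinite (SV p ν)
  let Bd : SV p ν → Prop := fun Y => 0 < Module.finrank (ZMod p) Y ∧
    Module.finrank (ZMod p) Y ≤ R ∧ Dfc (e (R - Module.finrank (ZMod p) Y)) A Y
  let 𝓜 : Finset (SV p ν) := univ.filter fun Y => Bd Y ∧ ∀ S, S < Y → ¬ Bd S
  let B : Set (SymM p ν) := {M | ∃ Y ∈ 𝓜, M ∈ CY Y}
  have hbot : ¬ Dfc (e R) A (⊥ : SV p ν) := by
    unfold Dfc
    have : dens (Set.univ : Set (SymM p ν)) = 1 := by simp [dens, ind]
    rw [CY_bot, Set.inter_univ, this, mul_one]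
    exact not_lt.2 hA.2
  have hnd : ∀ S : SV p ν, ¬ Bd S → Module.finrank (ZMod p) S ≤ R →
      ¬ Dfc (e (R - Module.finrank (ZMod p) S)) A S := by
    intro S h1 h2 h3
    rcases Nat.eq_zero_or_pos (Module.finrank (ZMod p) S) with h | h
    · rw [h, Nat.sub_zero, Submodule.finrank_eq_zero.1 h] at h3
      exact hbot h3
    · exact h1 ⟨h, h2, h3⟩
  have key : ∀ Y' : SV p ν, Module.finrank (ZMod p) Y' ≤ R → (CY Y').Nonempty →
      (∀ S, S ≤ Y' → ¬ Bd S) → dens (B ∩ CY Y') ≤ ε * dens (CY Y') := by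
    intro Y' h1 h2 h3
    have hd := dens_nonneg (CY Y')
    obtain ⟨T, hT, hTc⟩ := LCa_subs Y' rfl
    have k1 : dens (B ∩ CY Y') ≤ ∑ Y ∈ 𝓜, dens (CY (Y ⊔ Y')) :=
      dens_le_sum 𝓜 _ _ fun M ⟨⟨Y, a1, a2⟩, a3⟩ => ⟨Y, a1, by rw [CY_sup]; exact ⟨a2, a3⟩⟩
    have k2 := Finset.sum_fiberwise_of_maps_to (s := 𝓜) (t := T ×ˢ range (R + 1))
      (g := fun Y => (Y ⊓ Y', Module.finrank (ZMod p) Y))
      (fun Y hY => mem_product.2 ⟨hT _ inf_le_right,
        mem_range.2 (Nat.lt_succ_of_le (mem_filter.1 hY).2.1.2.1)⟩)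
      fun Y => dens (CY (Y ⊔ Y'))
    have k3 : ∀ q ∈ T ×ˢ range (R + 1),
        ∑ Y ∈ 𝓜 with (Y ⊓ Y', Module.finrank (ZMod p) Y) = q, dens (CY (Y ⊔ Y')) ≤
          ε / C * ((p : ℝ) ^ ((2 * R) ^ 2) * dens (CY Y')) := by
      rintro ⟨S, ρ⟩ -
      rcases (𝓜.filter fun Y => (Y ⊓ Y', Module.finrank (ZMod p) Y) = (S, ρ)).eq_empty_or_nonempty
        with h0 | ⟨Y0, hY0⟩
      · rw [h0, sum_empty]
        positivity
      have hm : ∀ Y ∈ 𝓜.filter fun Y => (Y ⊓ Y', Module.finrank (ZMod p) Y) = (S, ρ),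
          Y ⊓ Y' = S ∧ Module.finrank (ZMod p) Y = ρ ∧ Bd Y ∧ ∀ S, S < Y → ¬ Bd S := fun Y hY => by
        obtain ⟨a1, a2⟩ := mem_filter.1 hY
        exact ⟨congrArg Prod.fst a2, congrArg Prod.snd a2, (mem_filter.1 a1).2⟩
      obtain ⟨a1, a2, a3, -⟩ := hm Y0 hY0
      have hSY : S ≤ Y' := a1 ▸ inf_le_right
      have hlt : S < Y0 := lt_of_le_of_ne (a1 ▸ inf_le_left) fun h => h3 Y0 (h ▸ hSY) a3
      have hs : Module.finrank (ZMod p) S < ρ := a2 ▸ Submodule.finrank_lt_finrank_of_lt hlt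
      have hρ : ρ ≤ R := a2 ▸ a3.2.1
      have hQ := (hg _ (he0 (R - ρ))).2.2 (ρ - Module.finrank (ZMod p) S) (by omega) (by omega)
      rw [← hes] at hQ
      have hn' : n (e (R - ρ)) ≤ (range (R + 1)).sup fun k => n (e k) :=
        Finset.le_sup (f := fun k => n (e k)) (mem_range.2 (by omega))
      have hc := clB_above hQ hε'.le hA.1 (Z := S) (by omega)
        (fun h => hnd S (h3 S hSY) (by omega) (h.mono (hea (by omega)))) _ fun Y hY => by
          obtain ⟨b1, b2, b3, b4⟩ := hm Y hY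
          refine ⟨b1 ▸ inf_le_left, by omega, b2 ▸ b3.2.2, fun S' c1 c2 c3 => ?_⟩
          have := Submodule.finrank_lt_finrank_of_lt c2
          exact hnd S' (b4 S' c2) (by omega) (c3.mono (hea (by omega)))
      have hq : (0 : ℝ) < ((p : ℝ) ^ Fintype.card ν) ^ (ρ - Module.finrank (ZMod p) S) := by
        positivity
      refine (Finset.sum_le_card_nsmul _ _ ((p : ℝ) ^ ((2 * R) ^ 2) * dens (CY Y') /
        ((p : ℝ) ^ Fintype.card ν) ^ (ρ - Module.finrank (ZMod p) S)) fun Y hY => ?_).trans ?_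
      · obtain ⟨b1, b2, b3, -⟩ := hm Y hY
        have := clB_cond hp b3.2.1 h1 h2
        rwa [b1, b2] at this
      · rw [nsmul_eq_mul]
        refine (mul_le_mul_of_nonneg_right hc (by positivity)).trans (le_of_eq ?_)
        field_simp
    have k4 := Finset.sum_le_card_nsmul _ _ _ k3
    have k5 : (#(T ×ˢ range (R + 1)) : ℝ) ≤ 2 ^ p ^ R * (R + 1) := by
      rw [card_product, card_range]
      have : #T ≤ 2 ^ p ^ R := hTc.trans (Nat.pow_le_pow_right two_pos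
        (Nat.pow_le_pow_right (Fact.out : p.Prime).pos h1))
      exact_mod_cast Nat.mul_le_mul_right _ this
    rw [k2, nsmul_eq_mul] at k4
    refine (k1.trans k4).trans ((mul_le_mul_of_nonneg_right k5 (by positivity)).trans
      (le_of_eq ?_))
    rw [hC]
    field_simp
  refine ⟨B, ?_, fun Y h1 h2 => ?_⟩
  · have := key ⊥ (by rw [finrank_bot]; exact Nat.zero_le _) (by rw [CY_bot]; exact Set.univ_nonempty)
      fun S hS hb => by
        have h := hb.1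
        rw [le_bot_iff.1 hS, finrank_bot] at h
        exact lt_irrefl _ h
    have h1 : dens (Set.univ : Set (SymM p ν)) = 1 := by simp [dens, ind]
    rwa [CY_bot, Set.inter_univ, h1, mul_one] at this
  · by_cases h : ∃ S, S ≤ Y ∧ Bd S
    · left
      obtain ⟨S, ⟨a1, a2⟩, a3⟩ := (wellFounded_lt (α := SV p ν)).has_min {S | S ≤ Y ∧ Bd S} h
      exact fun M hM => ⟨S, mem_filter.2 ⟨mem_univ _, a2,
        fun S' b1 b2 => a3 S' ⟨b1.le.trans a1, b2⟩ b1⟩, CY_anti a1 hM⟩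
    · right
      have h3 : ∀ S, S ≤ Y → ¬ Bd S := fun S a b => h ⟨S, a, b⟩
      exact ⟨fun hd => hnd Y (h3 Y le_rfl) h1 (hd.mono (hea (Nat.zero_le _))), key Y h1 h2 h3⟩

theorem clB_CLG (hp : p ≠ 2) {s : ℕ} (hC : Claim p s) (R : ℕ) (ε : ℝ) (hε : 0 < ε) :
    Ev p fun ν _ _ A => ∃ B : Set (SymM p ν), dens B ≤ ε ∧ ∀ Y : SV p ν,
      Module.finrank (ZMod p) Y ≤ R → ∀ G : SymM p ν → ℂ,
      (∀ (m : ℕ) (M : SymM p ν) (U : Matrix ν (Fin m) (ZMod p)), (∀ q ∈ Y, Uᵀ *ᵥ q.1 = 0) →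
        Lev s fun N => G (M + cj U N)) →
      ‖𝔼 M, (ind (CY Y) M : ℂ) * (fB A B M * G M)‖ ≤
        ε * (√(dens (CY Y)) * √(𝔼 M, ind (CY Y) M * ‖G M‖ ^ 2)) := by
  obtain ⟨η, hη, n1, h1⟩ := hC (ε / 2) (half_pos hε)
  have hε1 : 0 < min ε ((ε / 2) ^ 2) := lt_min hε (by positivity)
  refine ((clB_CL hp R _ η hε1 hη).and (Ev_basic 1 one_pos (n1 + R))).mono ?_
  rintro ν _ _ A ⟨⟨B, hB, hB'⟩, hn, hA⟩
  refine ⟨B, hB.trans (min_le_left _ _), fun Y hY G hG => ?_⟩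
  have hz : (∀ M, M ∈ CY Y → M ∈ B) → ‖𝔼 M, (ind (CY Y) M : ℂ) * (fB A B M * G M)‖ ≤
      ε * (√(dens (CY Y)) * √(𝔼 M, ind (CY Y) M * ‖G M‖ ^ 2)) := fun h => by
    have : ∀ M, (ind (CY Y) M : ℂ) * (fB A B M * G M) = 0 := fun M => by
      by_cases hM : M ∈ CY Y
      · simp [fB, ind_of_mem (h M hM)]
      · simp [ind_of_not hM]
    simp only [this, Finset.expect_const_zero, norm_zero]
    positivity
  rcases (CY Y).eq_empty_or_nonempty with h0 | h0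
  · exact hz fun M hM => absurd (h0 ▸ hM) (Set.notMem_empty M)
  rcases hB' Y hY h0 with h | ⟨hD, hd⟩
  · exact hz h
  obtain ⟨m, M₀, U, Φ, a1, -, a3, a4, a5, -, -, -, -, -, -, a12⟩ := TR h0
  have hpos : 0 < dens (CY Y) := lt_of_lt_of_le (by
    have := (Fact.out : p.Prime).pos
    positivity) (dens_CY_ge h0)
  have b1 := h1 (Fin m) (by rw [Fintype.card_fin]; omega) (res A M₀ U) (a12 η A hA.1 hD)
    (fun N => G (M₀ + cj U N)) (hG m M₀ U a3)
  have b2 := fA_sub_fB (res A M₀ U) (res B M₀ U) fun N => G (M₀ + cj U N)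
  have b3 : dens (res B M₀ U) ≤ (ε / 2) ^ 2 := by
    have c1 : dens (B ∩ CY Y) = dens (CY Y) * dens (res B M₀ U) := by
      have := a5 (ind B)
      rw [Set.inter_comm, dens]
      simp only [ind_inter]
      exact this
    rw [c1, mul_comm] at hd
    exact (le_of_mul_le_mul_right hd hpos).trans (min_le_right _ _)
  have b4 : √(dens (res B M₀ U)) ≤ ε / 2 := Real.sqrt_le_iff.2 ⟨by positivity, b3⟩
  have b5 : ‖𝔼 N : SymM p (Fin m), fB (res A M₀ U) (res B M₀ U) N * G (M₀ + cj U N)‖ ≤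
      ε * √(en fun N => G (M₀ + cj U N)) := by
    have c1 := norm_sub_le (𝔼 N, fA (res A M₀ U) N * G (M₀ + cj U N))
      (𝔼 N, fA (res A M₀ U) N * G (M₀ + cj U N) -
        𝔼 N, fB (res A M₀ U) (res B M₀ U) N * G (M₀ + cj U N))
    rw [sub_sub_cancel] at c1
    have c2 := mul_le_mul_of_nonneg_right b4 (Real.sqrt_nonneg (en fun N => G (M₀ + cj U N)))
    linarith
  rw [a4, a5, norm_mul, Complex.norm_real, Real.norm_of_nonneg hpos.le, Real.sqrt_mul hpos.le,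
    ← mul_assoc (√(dens (CY Y))), Real.mul_self_sqrt hpos.le, mul_left_comm]
  exact mul_le_mul_of_nonneg_left b5 hpos.le

end Pool.Agent.Work.MP_4523ee_co.Fp
end

-- merged part: Pool.Agent.Work.MP_4523ee_co.Fp.CL
section
/-!
Cleaning (paper section 6: Q, CL) and its use on one tile.
-/

set_option autoImplicit false
set_option linter.unusedSectionVars false

namespace Pool.Agent.Work.MP_4523ee_co.Fp

open Finset Matrix
open scoped BigOperators ComplexConjugate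

variable {p : ℕ} [Fact p.Prime]

/-- `Q(j)` uniformly for `0 < j ≤ J` -/
lemma clA_Q (hp : p ≠ 2) (η : ℝ) (hη : 0 < η) (J : ℕ) : ∀ ε : ℝ, 0 < ε →
    ∃ η' : ℝ, 0 < η' ∧ ∃ n0 : ℕ, ∀ j, 0 < j → j ≤ J →
    ∀ (ν : Type) [Fintype ν] [DecidableEq ν], n0 ≤ Fintype.card ν →
    ∀ A : Set (SymM p ν), NE η' A → ∀ 𝒴 : Finset (SV p ν),
      (∀ Y ∈ 𝒴, Module.finrank (ZMod p) Y = j ∧ Dfc η A Y ∧
        ∀ S, ⊥ < S → S < Y → ¬ Dfc η' A S) →
      (#𝒴 : ℝ) ≤ ε * ((p : ℝ) ^ Fintype.card ν) ^ j := by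
  classical
  induction J with
  | zero => exact fun ε _ => ⟨1, one_pos, 0, fun j h1 h2 => absurd h1 (by omega)⟩
  | succ J ih =>
    intro ε hε
    obtain ⟨lam, hl, η0, h0, n0, hLC⟩ := LC hp (J + 1) J.succ_pos ε η hε hη
    obtain ⟨η1, h1, n1, H1⟩ := ih ε hε
    obtain ⟨η2, h2, n2, H2⟩ := ih lam hl
    obtain ⟨e, he, e0, e1, e2⟩ : ∃ e : ℝ, 0 < e ∧ e ≤ η0 ∧ e ≤ η1 ∧ e ≤ η2 :=
      ⟨min η0 (min η1 η2), lt_min h0 (lt_min h1 h2), min_le_left _ _,
        (min_le_right _ _).trans (min_le_left _ _), (min_le_right _ _).trans (min_le_right _ _)⟩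
    refine ⟨e, he, n0 + n1 + n2 + J, fun j hj hjJ ν _ _ hn A hA 𝒴 hY => ?_⟩
    rcases Nat.lt_or_ge J j with hlt | hle
    swap
    · exact H1 j hj hle ν (by omega) A (hA.mono e1) 𝒴 fun Y hy =>
        ⟨(hY Y hy).1, (hY Y hy).2.1, fun S a b c => (hY Y hy).2.2 S a b (c.mono e1)⟩
    obtain rfl : j = J + 1 := by omega
    refine hLC ν (by omega) A (hA.mono e0) 𝒴 (fun Y hy => ⟨(hY Y hy).1, (hY Y hy).2.1⟩)
      fun Z z0 z1 => ?_
    have hp1 : (1 : ℝ) ≤ p := by exact_mod_cast (Fact.out : p.Prime).one_le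
    rcases (𝒴.filter fun Y => Z ≤ Y).eq_empty_or_nonempty with hE | ⟨Y0, hY0⟩
    · rw [show #(𝒴.filter fun Y => Z ≤ Y) = 0 from by rw [hE, card_empty], Nat.cast_zero]
      positivity
    obtain ⟨a0, a1⟩ := mem_filter.1 hY0
    have zb : ⊥ < Z := bot_lt_iff_ne_bot.2 (Submodule.one_le_finrank_iff.1 z0)
    have zl : Z < Y0 := lt_of_le_of_ne a1 fun h => by
      have := (hY Y0 a0).1
      rw [← h] at this
      omega
    obtain ⟨m, M₀, U, Φ, t1, -, -, -, -, t2, t3, t4, -, t5, t6, t7⟩ :=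
      TR ((hY Y0 a0).2.1.nonempty.mono (CY_anti a1))
    have hinj : Function.Injective Φ := fun x y h =>
      le_antisymm ((t2 x y).1 h.le) ((t2 y x).1 h.ge)
    have hlt' : ∀ x y, x < y → Φ x < Φ y := fun x y h =>
      lt_of_le_of_ne ((t2 x y).2 h.le) fun h' => h.ne (hinj h')
    have hc : #(𝒴.filter fun Y => Z ≤ Y) ≤
        #((𝒴.filter fun Y => Z ≤ Y).preimage Φ hinj.injOn) := by
      refine (card_le_card fun Y hy => ?_).trans (card_image_le (f := Φ))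
      obtain ⟨W, rfl⟩ := t5 Y (mem_filter.1 hy).2 (hY Y (mem_filter.1 hy).1).2.1.nonempty
      exact mem_image_of_mem _ (mem_preimage.2 hy)
    have key := H2 (J + 1 - Module.finrank (ZMod p) Z) (by omega) (by omega) (Fin m)
      (by rw [Fintype.card_fin]; omega) (res A M₀ U)
      ((t7 e A hA.1 ((hY Y0 a0).2.2 Z zb zl)).mono e2)
      ((𝒴.filter fun Y => Z ≤ Y).preimage Φ hinj.injOn) fun W hW => by
        obtain ⟨b1, b2, b3⟩ := hY _ (mem_filter.1 (mem_preimage.1 hW)).1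
        refine ⟨by rw [t4] at b1; omega, (t6 η A W).1 b2, fun S c1 c2 c3 => ?_⟩
        exact b3 (Φ S) (zb.trans (t3 ▸ hlt' _ _ c1)) (hlt' _ _ c2) ((t6 e A S).2 (c3.mono e2))
    refine ((Nat.cast_le.2 hc).trans key).trans (mul_le_mul_of_nonneg_left ?_ hl.le)
    rw [Fintype.card_fin]
    exact pow_le_pow_left₀ (by positivity) (pow_le_pow_right₀ hp1 (by omega)) _

theorem Qj (hp : p ≠ 2) (j : ℕ) (hj : 0 < j) (ε η : ℝ) (hε : 0 < ε) (hη : 0 < η) :
    ∃ η' : ℝ, 0 < η' ∧ ∃ n0 : ℕ, ∀ (ν : Type) [Fintype ν] [DecidableEq ν], n0 ≤ Fintype.card ν →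
    ∀ A : Set (SymM p ν), NE η' A → ∀ 𝒴 : Finset (SV p ν),
      (∀ Y ∈ 𝒴, Module.finrank (ZMod p) Y = j ∧ Dfc η A Y ∧
        ∀ S, ⊥ < S → S < Y → ¬ Dfc η' A S) →
      (#𝒴 : ℝ) ≤ ε * ((p : ℝ) ^ Fintype.card ν) ^ j := by
  obtain ⟨η', h1, n0, h2⟩ := clA_Q hp η hη j ε hε
  exact ⟨η', h1, n0, h2 j hj le_rfl⟩

theorem CL (hp : p ≠ 2) (R : ℕ) (ε η : ℝ) (hε : 0 < ε) (hη : 0 < η) :
    Ev p fun ν _ _ A => ∃ B : Set (SymM p ν), dens B ≤ ε ∧ ∀ Y : SV p ν,
      Module.finrank (ZMod p) Y ≤ R → (CY Y).Nonempty →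
      CY Y ⊆ B ∨ (¬ Dfc η A Y ∧ dens (B ∩ CY Y) ≤ ε * dens (CY Y)) := clB_CL hp R ε η hε hη

theorem CLG (hp : p ≠ 2) {s : ℕ} (hC : Claim p s) (R : ℕ) (ε : ℝ) (hε : 0 < ε) :
    Ev p fun ν _ _ A => ∃ B : Set (SymM p ν), dens B ≤ ε ∧ ∀ Y : SV p ν,
      Module.finrank (ZMod p) Y ≤ R → ∀ G : SymM p ν → ℂ,
      (∀ (m : ℕ) (M : SymM p ν) (U : Matrix ν (Fin m) (ZMod p)), (∀ q ∈ Y, Uᵀ *ᵥ q.1 = 0) →
        Lev s fun N => G (M + cj U N)) →
      ‖𝔼 M, (ind (CY Y) M : ℂ) * (fB A B M * G M)‖ ≤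
        ε * (√(dens (CY Y)) * √(𝔼 M, ind (CY Y) M * ‖G M‖ ^ 2)) := clB_CLG hp hC R ε hε

end Pool.Agent.Work.MP_4523ee_co.Fp
end

-- merged part: Pool.Agent.Work.MP_4523ee_co.Fp.PrP
section
/-!
Test (P) of paper section 8: stabilizer atoms (ATOM of section 4).
-/

set_option autoImplicit false
set_option linter.unusedSectionVars false

namespace Pool.Agent.Work.MP_4523ee_co.Fp

open Finset Matrix
open scoped BigOperators ComplexConjugate

variable {p : ℕ} [Fact p.Prime]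

theorem atom (hp : p ≠ 2) {X : Type} [AddCommGroup X] [Module (ZMod p) X] [Fintype X]
    {ν ν' : Type} [Fintype ν] [DecidableEq ν] [Fintype ν'] [DecidableEq ν'] {β : Bil p X}
    (hβ : SymB β) (hn : NdB β) (u : (ν → X) → ℂ) (M : SymM p ν) (U : Matrix ν ν' (ZMod p))
    (h : ∀ w : ν' → X, ∃ x : GX X ν, (∃ c : ℂ, W β x u = fun l => c * u l) ∧
      x.2 - act M.1 ((2 : ZMod p) • x.1) = act U w ∧ act Uᵀ x.1 = 0) :
    ∃ s₀ : ν' → X, ∀ s, aT β u M U s ≠ 0 → s = s₀ := by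
  have key : ∀ w : ν' → X, ∃ C : ℂ, ∀ s, aT β u M U s = C * ee (-bt β w s) * aT β u M U s := by
    intro w
    obtain ⟨x, ⟨c, h1⟩, h2, h3⟩ := h w
    refine ⟨c * ee (-(2⁻¹ * bt β x.2 x.1)) * chi β M x.1, fun s => ?_⟩
    rw [aT, FF, mul_sum, ← Equiv.sum_comp (Equiv.addRight x.1)]
    refine sum_congr rfl fun l _ => ?_
    have e0 : act Uᵀ (l + x.1) = act Uᵀ l := by rw [act_add, h3, add_zero]
    rw [Equiv.coe_addRight, cut, cut]
    by_cases k : act Uᵀ l = s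
    swap
    · rw [if_neg k, if_neg (e0 ▸ k), zero_mul, zero_mul, mul_zero]
    rw [if_pos k, if_pos (e0.trans k)]
    have e1 : u (l + x.1) = ee (-(bt β x.2 l + 2⁻¹ * bt β x.2 x.1)) * (c * u l) := by
      rw [← congrFun h1 l, W, ← mul_assoc, ← ee_add, neg_add_cancel, ee_zero, one_mul]
    have e2 : bt β w s = bt β x.2 l - 2 * bt β (act M.1 x.1) l := by
      rw [← k, ← bt_act, ← h2, act_smul, sub_eq_add_neg, bt_add_left, bt_neg_left, bt_smul_left,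
        ← sub_eq_add_neg]
    rw [e1, chi_add hβ, e2, neg_add, ee_add, neg_sub, sub_eq_add_neg, ee_add]
    ring
  by_cases h0 : ∃ s, aT β u M U s ≠ 0
  swap
  · exact ⟨0, fun s hs => absurd ⟨s, hs⟩ h0⟩
  obtain ⟨s₀, h0⟩ := h0
  refine ⟨s₀, fun s hs => sub_eq_zero.1 (bt_nd hn _ fun w => ?_)⟩
  obtain ⟨C, hC⟩ := key w
  have a1 : C * ee (-bt β w s) = 1 := (mul_eq_right₀ hs).1 (hC s).symm
  have a2 : C * ee (-bt β w s₀) = 1 := (mul_eq_right₀ h0).1 (hC s₀).symm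
  have a3 : ee (-bt β w s) = ee (-bt β w s₀) :=
    mul_left_cancel₀ (left_ne_zero_of_mul_eq_one a1) (a1.trans a2.symm)
  rw [bt_comm hβ, sub_eq_add_neg, bt_add_right, bt_neg_right, ← ee_eq_one, ee_add, ← a3, ← ee_add,
    add_neg_cancel, ee_zero]

lemma prp_cs {α β : Type} [Fintype α] [Fintype β] (w b e : α → β → ℝ) (hw : ∀ x y, 0 ≤ w x y)
    (he : ∀ x y, 0 ≤ e x y) : 𝔼 x, 𝔼 y, w x y * (b x y * √(e x y)) ≤
      √(𝔼 x, 𝔼 y, w x y * b x y ^ 2) * √(𝔼 x, 𝔼 y, w x y * e x y) := by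
  have k := expect_mul_le_sqrt (fun q : α × β => √(w q.1 q.2) * b q.1 q.2)
    fun q => √(w q.1 q.2) * √(e q.1 q.2)
  have e1 : ∀ x y, √(w x y) * b x y * (√(w x y) * √(e x y)) = w x y * (b x y * √(e x y)) :=
    fun x y => by rw [mul_mul_mul_comm, Real.mul_self_sqrt (hw _ _)]
  simp only [mul_pow, Real.sq_sqrt (hw _ _), Real.sq_sqrt (he _ _), e1] at k
  rw [← univ_product_univ, expect_product, expect_product, expect_product] at k
  exact k

lemma prp_glue {ν ν' : Type} [Fintype ν] [DecidableEq ν] [Fintype ν'] [DecidableEq ν']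
    {A : Set (SymM p ν)} {t η ε₁ : ℝ} (ht : 0 ≤ t) (ht1 : 3 * t ≤ 1) (hη : 0 < η) (hε : 0 ≤ ε₁)
    (hA : NE t A) (hUB : ∀ A' : Set (SymM p ν'), Ind A' → dens A' ≤ aS p + t)
    (w : SymM p ν → Matrix ν ν' (ZMod p) → ℝ) (h0 : ∀ M U, 0 ≤ w M U)
    (hI : ∀ M U, w M U ≠ 0 → Inj U) (h1 : 1 - t ≤ 𝔼 M, 𝔼 U, w M U)
    (h2 : ∀ M, marg (fun U => U) w M ≤ 1 + t) (G : SymM p ν → ℂ)
    (hG : ∀ M U, w M U ≠ 0 → NE η (res A M U) →
      ‖𝔼 N, fA (res A M U) N * G (M + cj U N)‖ ≤ ε₁ * √(en fun N => G (M + cj U N))) :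
    ‖𝔼 M, fA A M * G M‖ ≤
      (√(3 * t) + √(4 * ε₁ ^ 2 + 2 * (3 * t + 15 * t / η)) * √2) * √(en G) := by
  have hρ := marg_nonneg (fun U => U) w h0
  have em := expect_marg (fun U : Matrix ν ν' (ZMod p) => U) w
  obtain ⟨c1, c2⟩ := close_of_le (marg (fun U => U) w) ht (by linarith) hρ h2 (em ▸ h1)
  have mk := MK (fun U : Matrix ν ν' (ZMod p) => U) w ht hη ht1 hA hUB h0 c1 (by
    refine le_trans (le_of_eq (expect_eq_zero fun M _ => expect_eq_zero fun U _ => ?_))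
      (by linarith)
    by_cases k : w M U = 0
    · rw [k, zero_mul]
    · rw [ind_of_not (show U ∉ {U | ¬ Inj U} from fun k' => k' (hI M U k)), mul_zero])
  have fa : ∀ {μ : Type} [Fintype μ] [DecidableEq μ] (B : Set (SymM p μ)), √(en (fA B)) ≤ 1 :=
    fun B => Real.sqrt_le_one.2 (expect_le univ_nonempty fun M _ =>
      pow_le_one₀ (norm_nonneg _) (norm_fA_le B M))
  have e : 𝔼 M, fA A M * G M = (𝔼 M, ((1 - marg (fun U => U) w M : ℝ) * fA A M) * G M) +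
      𝔼 M, (marg (fun U => U) w M : ℂ) * (fA A M * G M) := by
    rw [← expect_add_distrib]
    refine expect_congr rfl fun M _ => ?_
    push_cast
    ring
  rw [e, add_mul]
  refine (norm_add_le _ _).trans (add_le_add ((norm_expect_mul_le _ _).trans
    (mul_le_mul_of_nonneg_right (Real.sqrt_le_sqrt (le_trans (expect_le_expect fun M _ => ?_) c2))
      (Real.sqrt_nonneg _))) ?_)
  · rw [norm_mul, mul_pow, Complex.norm_real, Real.norm_eq_abs, sq_abs, sub_sq_comm]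
    exact mul_le_of_le_one_right (sq_nonneg _) (pow_le_one₀ (norm_nonneg _) (norm_fA_le A M))
  rw [← marg_id (fun U => U) w fun M => fA A M * G M]
  have b : ∀ M U, ‖(w M U : ℂ) * 𝔼 N : SymM p ν', fA A (M + cj U N) * G (M + cj U N)‖ ≤
      w M U * ((ε₁ + ind {U | ¬ (Inj U ∧ NE η (res A M U))} U) *
        √(en fun N => G (M + cj U N))) := fun M U => by
    rw [norm_mul, Complex.norm_real, Real.norm_of_nonneg (h0 M U)]
    by_cases k : w M U = 0
    · rw [k, zero_mul, zero_mul]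
    refine mul_le_mul_of_nonneg_left ?_ (h0 M U)
    by_cases k' : NE η (res A M U)
    · rw [ind_of_not (show U ∉ {U | ¬ (Inj U ∧ NE η (res A M U))} from
        fun k2 => k2 ⟨hI M U k, k'⟩), add_zero]
      exact hG M U k k'
    · rw [ind_of_mem (show U ∈ {U | ¬ (Inj U ∧ NE η (res A M U))} from fun k2 => k' k2.2)]
      refine (norm_expect_mul_le (fA (res A M U)) _).trans
        (mul_le_mul_of_nonneg_right ?_ (Real.sqrt_nonneg _))
      linarith [fa (res A M U)]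
  refine ((RCLike.norm_expect_le (K := ℂ)).trans (expect_le_expect fun M _ =>
    (RCLike.norm_expect_le (K := ℂ)).trans (expect_le_expect fun U _ => b M U))).trans ?_
  refine (prp_cs w _ _ h0 fun _ _ => en_nonneg _).trans ?_
  rw [mul_assoc, ← Real.sqrt_mul zero_le_two]
  refine mul_le_mul (Real.sqrt_le_sqrt ?_) (Real.sqrt_le_sqrt ?_) (Real.sqrt_nonneg _)
    (Real.sqrt_nonneg _)
  · have d : ∀ M U, w M U * (ε₁ + ind {U | ¬ (Inj U ∧ NE η (res A M U))} U) ^ 2 ≤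
        2 * ε₁ ^ 2 * w M U + 2 * (w M U * ind {U | ¬ (Inj U ∧ NE η (res A M U))} U) := by
      intro M U
      have i0 := ind_nonneg {U | ¬ (Inj U ∧ NE η (res A M U))} U
      have i1 := ind_le_one {U | ¬ (Inj U ∧ NE η (res A M U))} U
      generalize ind {U | ¬ (Inj U ∧ NE η (res A M U))} U = i at i0 i1
      have : (ε₁ + i) ^ 2 ≤ 2 * ε₁ ^ 2 + 2 * i := by nlinarith [sq_nonneg (ε₁ - i)]
      nlinarith [mul_le_mul_of_nonneg_left this (h0 M U)]
    refine (expect_le_expect fun M _ => expect_le_expect fun U _ => d M U).trans ?_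
    simp only [expect_add_distrib, ← Finset.mul_expect]
    have d2 : 𝔼 M, 𝔼 U, w M U ≤ 2 :=
      em ▸ expect_le univ_nonempty fun M _ => (h2 M).trans (by linarith)
    rw [show 2 * t + t + 4 * (3 * t) = 15 * t by ring] at mk
    nlinarith [mul_le_mul_of_nonneg_left d2 (sq_nonneg ε₁)]
  · refine (marg_id_real (fun U => U) w fun M => ‖G M‖ ^ 2).trans_le ?_
    rw [en, Finset.mul_expect]
    exact expect_le_expect fun M _ =>
      mul_le_mul_of_nonneg_right ((h2 M).trans (by linarith)) (sq_nonneg _)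

/-- the doubled part of `L` that keeps the slice -/
def prpL {X ν ι : Type} [AddCommGroup X] [Module (ZMod p) X] [Fintype ν] [Fintype ι]
    (L : Submodule (ZMod p) (GX X ν)) (κ : Matrix ι ν (ZMod p)) :
    Submodule (ZMod p) (GX X ν) :=
  L.comap (((2 : ZMod p)⁻¹ • LinearMap.id).prodMap LinearMap.id) ⊓
    LinearMap.ker ((actL X κ).comp (LinearMap.fst _ _ _))

lemma mem_prpL {X ν ι : Type} [AddCommGroup X] [Module (ZMod p) X] [Fintype ν] [Fintype ι]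
    {L : Submodule (ZMod p) (GX X ν)} {κ : Matrix ι ν (ZMod p)} {τ : GX X ν} :
    τ ∈ prpL L κ ↔ ((2 : ZMod p)⁻¹ • τ.1, τ.2) ∈ L ∧ act κ τ.1 = 0 := Iff.rfl

lemma prp_card1 (hp : p ≠ 2) {X ν ι : Type} [AddCommGroup X] [Module (ZMod p) X] [Fintype X]
    [Fintype ν] [DecidableEq ν] [Fintype ι] [DecidableEq ι] (L : Submodule (ZMod p) (GX X ν))
    (κ : Matrix ι ν (ZMod p)) :
    Fintype.card L ≤ Fintype.card X ^ Fintype.card ι * Fintype.card (prpL L κ) := by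
  let f : L →ₗ[ZMod p] (ι → X) := ((actL X κ).comp (LinearMap.fst _ _ _)).comp L.subtype
  rw [card_eq_pow (p := p) (L := L), ← f.finrank_range_add_finrank_ker, pow_add, ← card_eq_pow,
    ← card_eq_pow, ← Fintype.card_fun]
  refine Nat.mul_le_mul (Fintype.card_le_of_injective _ Subtype.val_injective)
    (Fintype.card_le_of_injective (fun x => ⟨((2 : ZMod p) • x.1.1.1, x.1.1.2), mem_prpL.2 ⟨?_, ?_⟩⟩)
      fun x y e => ?_)
  · rw [inv_smul_smul₀ (two_ne hp)]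
    exact x.1.2
  · rw [act_smul, show act κ x.1.1.1 = 0 from x.2, smul_zero]
  · obtain ⟨e1, e2⟩ := Prod.ext_iff.1 (congrArg Subtype.val e)
    exact Subtype.ext (Subtype.ext (Prod.ext (smul_right_injective _ (two_ne hp) e1) e2))

lemma prp_card2 (hp : p ≠ 2) {X ν ι : Type} [AddCommGroup X] [Module (ZMod p) X] [Fintype X]
    [Fintype ν] [DecidableEq ν] [Fintype ι] (L : Submodule (ZMod p) (GX X ν))
    (κ : Matrix ι ν (ZMod p)) (E : Submodule (ZMod p) X) :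
    Fintype.card ↥(prpL L κ ⊓ pw ν E) ≤ Fintype.card ↥(L ⊓ pw ν E) := by
  refine Fintype.card_le_of_injective (fun x => ⟨((2 : ZMod p)⁻¹ • x.1.1, x.1.2),
    (mem_prpL.1 x.2.1).1, mem_pw.2 ⟨fun i => E.smul_mem _ ((mem_pw.1 x.2.2).1 i),
      (mem_pw.1 x.2.2).2⟩⟩) fun x y e => ?_
  obtain ⟨e1, e2⟩ := Prod.ext_iff.1 (congrArg Subtype.val e)
  exact Subtype.ext (Prod.ext (smul_right_injective _ (inv_ne_zero (two_ne hp)) e1) e2)

theorem TP (hp : p ≠ 2) {r r₁ : ℕ} (hr : 0 < r₁) (hC : Claim p (r - 1)) (c ε : ℝ) (hc : 0 < c)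
    (hε : 0 < ε) :
    Ev p fun ν _ _ A => Data p r r₁ ν fun X₁ X₂ _ _ _ _ _ _ β₁ β₂ e κ =>
        ∀ L : Submodule (ZMod p) (GX X₁ ν), (∀ x ∈ L, ∀ y ∈ L, sy β₁ x y = 0) →
          c * (Fintype.card X₁ : ℝ) ^ Fintype.card ν ≤ Fintype.card L →
          (∀ E : Submodule (ZMod p) X₁,
            c ^ 2 * Fintype.card ↥(L ⊓ pw ν E) ≤ (Fintype.card E : ℝ) ^ Fintype.card ν) →
          ∀ (φ : Module.Dual (ZMod p) L) (u : (ν → X₁) → ℂ), Pj β₁ L.subtype φ u = u →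
          ∀ a₂ : (ν → X₂) → ℂ, OnSl κ (fun i => (e i).2) a₂ →
          ‖𝔼 M, fA A M * (FF β₁ (cut κ (fun i => (e i).1) u) M * FF β₂ a₂ M)‖ ≤
            ε * (√(nsq u) * √(nsq a₂)) := by
  obtain ⟨η, hη, n1, h1⟩ := SC hC r₁ (ε / 8) (by positivity)
  have hμ : 0 < min η 1 := lt_min hη one_pos
  obtain ⟨t, ht, t1, t2⟩ : ∃ t : ℝ, 0 < t ∧ 3 * t ≤ 1 ∧ t ≤ ε ^ 2 * min η 1 / 600 :=
    ⟨min (1 / 3) (ε ^ 2 * min η 1 / 600), lt_min (by norm_num) (by positivity),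
      by linarith [min_le_left (1 / 3 : ℝ) (ε ^ 2 * min η 1 / 600)], min_le_right _ _⟩
  obtain ⟨J0, h2⟩ := UB (p := p) t ht
  have p0 : (0 : ℝ) < p := by exact_mod_cast (Fact.out : p.Prime).pos
  obtain ⟨n0, h3⟩ := SUBK hp (p ^ r₁) (n1 + J0 + r₁) (c / ((p : ℝ) ^ r₁) ^ r) (c ^ 2)⁻¹ t
    (by positivity) ht
  refine ⟨t, ht, n0, fun ν _ _ hν A hA X₁ X₂ _ _ _ _ _ _ β₁ β₂ e κ s₁ n₁ s₂ n₂ d₁ d₂ he L hL c1 c2
    φ u hu a₂ ha => ?_⟩
  have hX : Fintype.card X₁ = p ^ r₁ := by rw [card_eq_pow (p := p), d₁]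
  obtain ⟨w, w0, w1, w2, w3⟩ := h3 ν hν X₁ hX.le (prpL L κ)
    (by
      have k : (Fintype.card L : ℝ) ≤ ((p : ℝ) ^ r₁) ^ r * Fintype.card (prpL L κ) := by
        have := prp_card1 hp L κ
        rw [hX, Fintype.card_fin] at this
        exact_mod_cast this
      rw [div_mul_eq_mul_div, div_le_iff₀' (by positivity)]
      exact c1.trans k)
    fun E => by
      rw [le_inv_mul_iff₀ (by positivity)]
      exact le_trans (mul_le_mul_of_nonneg_left (by exact_mod_cast prp_card2 hp L κ E)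
        (by positivity)) (c2 E)
  have hW : ∀ x ∈ L, act κ x.1 = 0 → ∃ c : ℂ, W β₁ x (cut κ (fun i => (e i).1) u) =
      fun l => c * cut κ (fun i => (e i).1) u l := fun x hx k => by
    have k2 := W_Pj hp s₁ (j := L.subtype) (fun x y => hL _ x.2 _ y.2) φ u ⟨x, hx⟩
    rw [hu] at k2
    refine ⟨ee (φ ⟨x, hx⟩), funext fun l => ?_⟩
    have e0 : act κ (l + x.1) = act κ l := by rw [act_add, k, add_zero]
    rw [W, cut, cut]
    by_cases k3 : act κ l = fun i => (e i).1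
    · rw [if_pos k3, if_pos (e0.trans k3)]
      exact congrFun k2 l
    · rw [if_neg k3, if_neg (e0 ▸ k3), mul_zero, mul_zero]
  refine (prp_glue (η := η) (ε₁ := ε / 8) ht.le t1 hη (by positivity) hA
    (h2 (Fin (n1 + J0 + r₁)) (by simp; omega)) w w0 (fun M U k => (w1 M U k).1) w2 w3 _
    fun M U k hN => ?_).trans (mul_le_mul ?_ ?_ (Real.sqrt_nonneg _) hε.le)
  · obtain ⟨s₀, hs⟩ := atom hp s₁ n₁ (cut κ (fun i => (e i).1) u) M U fun v => by
      obtain ⟨τ, a1, a2, a3⟩ := (w1 M U k).2.1 v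
      refine ⟨((2 : ZMod p)⁻¹ • τ.1, τ.2), hW _ (mem_prpL.1 a1).1 ?_, ?_, ?_⟩
      · rw [act_smul, (mem_prpL.1 a1).2, smul_zero]
      · rw [smul_inv_smul₀ (two_ne hp)]
        exact a2
      · rw [act_smul, a3, smul_zero]
    obtain ⟨U₁, b1, b2⟩ := exists_inj_ker (p := p) (ν' := Fin (n1 + J0)) s₀ (by simp [d₁])
    refine h1 (Fin (n1 + J0 + r₁)) (by simp; omega) _ hN (Fin (n1 + J0)) U₁ b1 (by simp)
      (fun N => FF β₁ (cut κ (fun i => (e i).1) u) (M + cj U N) * FF β₂ a₂ (M + cj U N))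
      fun N₀ => ?_
    have b3 : ∀ N, FF β₁ (cut κ (fun i => (e i).1) u) (M + cj U (N₀ + cj U₁ N)) =
        aT β₁ (cut κ (fun i => (e i).1) u) M U s₀ * chi β₁ N₀ s₀ := fun N => by
      rw [FF_tile, FF, sum_eq_single s₀ (fun s _ k => by
        rw [not_not.1 fun k' => k (hs s k'), zero_mul]) (by simp), chi_tile, b2, chi_eq _ N,
        bt_zero_left, ee_zero, mul_one]
    simp only [b3]
    simp only [cj_add, cj_cj, ← add_assoc]
    refine Lev_smul _ (Lev_FF_tile hp s₂ a₂ _ _ fun l _ => (Submodule.finrank_le _).trans ?_)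
    omega
  · have b1 : t ≤ ε ^ 2 / 600 := t2.trans (div_le_div_of_nonneg_right
      (mul_le_of_le_one_right (sq_nonneg _) (min_le_right _ _)) (by norm_num))
    have b2 : 15 * t / η ≤ ε ^ 2 / 40 := by
      rw [div_le_iff₀ hη]
      nlinarith [mul_le_mul_of_nonneg_left (min_le_left η 1) (sq_nonneg ε)]
    have b3 : √(3 * t) ≤ ε / 2 := Real.sqrt_le_iff.2 ⟨by positivity, by nlinarith⟩
    have b4 : √(4 * (ε / 8) ^ 2 + 2 * (3 * t + 15 * t / η)) * √2 ≤ ε / 2 := by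
      rw [← Real.sqrt_mul' _ zero_le_two]
      exact Real.sqrt_le_iff.2 ⟨by positivity, by nlinarith⟩
    linarith
  · rw [en_FF_mul hp s₁ n₁ s₂ n₂ he (OnSl_cut _ _ _) ha, Real.sqrt_mul (nsq_nonneg _)]
    exact mul_le_mul_of_nonneg_right (Real.sqrt_le_sqrt (nsq_cut_le _ _ _)) (Real.sqrt_nonneg _)

end Pool.Agent.Work.MP_4523ee_co.Fp
end

-- merged part: Pool.Agent.Work.MP_4523ee_co.Fp.InvCore
section
/-!
The combinatorial core of the inverse theorem: a self-dual weight `f` with large square sum puts a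
positive proportion of its mass on a subspace of size `O(D)`.
-/

set_option autoImplicit false
set_option linter.unusedSectionVars false

namespace MP_4523ee_co.Fp

open Finset

section
variable {G : Type} [AddCommGroup G] [Fintype G] [DecidableEq G]

/-- the weighted energy of a self-dual weight -/
theorem ic_energy (ψ : G → G → ℂ) (hadd : ∀ y x x', ψ y (x + x') = ψ y x * ψ y x')
    (hneg : ∀ x y, ψ y x = ψ x (-y)) (hsym : ∀ x y, ψ y (-x) = ψ x y) (f : G → ℝ)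
    (hev : ∀ x, f (-x) = f x) (D : ℝ) (hD : 0 < D)
    (hF : ∀ x, ∑ y, (f y : ℂ) * ψ y x = D * f x) :
    ∑ a, ∑ b, ∑ c, f a * f b * f c * f (a + b - c) = D ^ 2 * ∑ y, f y ^ 4 := by
  have h1 : ∀ y, ∑ a, (f a : ℂ) * ψ y a = D * f y := fun y => by
    simp only [hneg _ y, hF, hev]
  have h2 : ∀ y, ∑ a, (f a : ℂ) * ψ y (-a) = D * f y := fun y => by
    simp only [hsym _ y, hF]
  have h3 : (D : ℂ) * ∑ a, ∑ b, ∑ c, (f a : ℂ) * f b * f c * f (a + b - c) =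
      (D : ℂ) * (D ^ 2 * ∑ y, (f y : ℂ) ^ 4) := by
    calc (D : ℂ) * ∑ a, ∑ b, ∑ c, (f a : ℂ) * f b * f c * f (a + b - c)
        = ∑ a, ∑ b, ∑ c, ∑ y, (f y : ℂ) * ((f a * ψ y a) * (f b * ψ y b) * (f c * ψ y (-c))) := by
          simp only [mul_sum]
          refine sum_congr rfl fun a _ => sum_congr rfl fun b _ => sum_congr rfl fun c _ => ?_
          have : (D : ℂ) * ((f a : ℂ) * f b * f c * f (a + b - c)) =
              (f a : ℂ) * f b * f c * ((D : ℂ) * f (a + b - c)) := by ring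
          rw [this, ← hF, mul_sum]
          refine sum_congr rfl fun y _ => ?_
          rw [sub_eq_add_neg, hadd, hadd]; ring
      _ = ∑ y, ∑ a, ∑ b, ∑ c, (f y : ℂ) * ((f a * ψ y a) * (f b * ψ y b) * (f c * ψ y (-c))) := by
          symm
          rw [sum_comm]
          refine sum_congr rfl fun a _ => ?_
          rw [sum_comm]
          refine sum_congr rfl fun b _ => ?_
          rw [sum_comm]
      _ = ∑ y, (f y : ℂ) * ((∑ a, (f a : ℂ) * ψ y a) * (∑ b, (f b : ℂ) * ψ y b) *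
            ∑ c, (f c : ℂ) * ψ y (-c)) := by
          refine sum_congr rfl fun y _ => ?_
          rw [sum_mul_sum, sum_mul, mul_sum]
          refine sum_congr rfl fun a _ => ?_
          rw [sum_mul, mul_sum]
          refine sum_congr rfl fun b _ => ?_
          rw [mul_sum, mul_sum]
      _ = _ := by
          simp only [h1, h2, mul_sum]
          exact sum_congr rfl fun y _ => by ring
  have h4 := mul_left_cancel₀ (by exact_mod_cast hD.ne' : (D : ℂ) ≠ 0) h3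
  exact_mod_cast h4

theorem ic_four (f : G → ℝ) (h0 : ∀ x, 0 ≤ f x) (D ε : ℝ) (hε : 0 < ε)
    (h1 : ∑ x, f x ≤ D) (h2 : ε * D ≤ ∑ x, f x ^ 2) : ε ^ 3 * D / 8 ≤ ∑ x, f x ^ 4 := by
  have h3 : ∀ x, (ε / 2) ^ 2 * f x ^ 2 ≤ f x ^ 4 + (ε / 2) ^ 3 * f x := fun x => by
    have a := h0 x
    rcases le_total (f x) (ε / 2) with h | h
    · have : (ε / 2) ^ 2 * f x * f x ≤ (ε / 2) ^ 2 * (ε / 2) * f x := by gcongr
      have : 0 ≤ f x ^ 4 := by positivity
      nlinarith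
    · have : (ε / 2) ^ 2 * f x ^ 2 ≤ f x ^ 2 * f x ^ 2 := by gcongr
      have : 0 ≤ (ε / 2) ^ 3 * f x := by positivity
      nlinarith
  have h4 := sum_le_sum fun x (_ : x ∈ univ) => h3 x
  rw [sum_add_distrib, ← mul_sum, ← mul_sum] at h4
  have h5 : (ε / 2) ^ 2 * (ε * D) ≤ (ε / 2) ^ 2 * ∑ x, f x ^ 2 := by gcongr
  have h6 : (ε / 2) ^ 3 * ∑ x, f x ≤ (ε / 2) ^ 3 * D := by gcongr
  nlinarith

theorem ic_cut (f : G → ℝ) (h0 : ∀ x, 0 ≤ f x) (h1 : ∀ x, f x ≤ 1) (D t : ℝ) (ht : 0 ≤ t)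
    (hs : ∑ x, f x ≤ D) :
    ∑ a, ∑ b, ∑ c, f a * f b * f c * f (a + b - c) ≤
      addEnergy (univ.filter fun x => t ≤ f x) (univ.filter fun x => t ≤ f x) + 4 * t * D ^ 3 := by
  set S := univ.filter fun x => t ≤ f x with hS
  have hD : 0 ≤ ∑ x, f x := sum_nonneg fun x _ => h0 x
  have e1 : (addEnergy S S : ℝ) = ∑ a, ∑ b, ∑ c,
      if t ≤ f a ∧ t ≤ f b ∧ t ≤ f c ∧ t ≤ f (a + b - c) then (1 : ℝ) else 0 := by
    rw [fr_En]
    push_cast
    simp only [hS, card_filter, sum_filter, mem_filter, mem_univ, true_and]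
    push_cast
    refine sum_congr rfl fun a _ => ?_
    rw [sum_comm]
    by_cases ha : t ≤ f a
    · rw [if_pos ha]
      refine sum_congr rfl fun c _ => ?_
      by_cases hc : t ≤ f c
      · rw [if_pos hc]
        refine sum_congr rfl fun b _ => ?_
        have : b + (-c + a) = a + b - c := by abel
        by_cases hb : t ≤ f b <;> simp [ha, hb, hc, this]
      · simp [hc]
    · simp [ha]
  have e2 : ∀ a b c, f a * f b * f c * f (a + b - c) ≤
      (if t ≤ f a ∧ t ≤ f b ∧ t ≤ f c ∧ t ≤ f (a + b - c) then (1 : ℝ) else 0) +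
      t * (f b * f c * f (a + b - c) + f a * f c * f (a + b - c) + f a * f b * f (a + b - c) +
        f a * f b * f c) := by
    intro a b c
    generalize a + b - c = d
    have a0 := h0 a; have b0 := h0 b; have c0 := h0 c; have d0 := h0 d
    have p1 : 0 ≤ f b * f c * f d := by positivity
    have p2 : 0 ≤ f a * f c * f d := by positivity
    have p3 : 0 ≤ f a * f b * f d := by positivity
    have p4 : 0 ≤ f a * f b * f c := by positivity
    split_ifs with h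
    · have : f a * f b * f c * f d ≤ 1 * 1 * 1 * 1 := by
        have := h1 a; have := h1 b; have := h1 c; have := h1 d
        gcongr
      have : 0 ≤ t * (f b * f c * f d + f a * f c * f d + f a * f b * f d + f a * f b * f c) := by
        positivity
      linarith
    · rw [zero_add]
      simp only [not_and_or, not_le] at h
      have q1 := mul_nonneg ht p1; have q2 := mul_nonneg ht p2
      have q3 := mul_nonneg ht p3; have q4 := mul_nonneg ht p4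
      rcases h with h | h | h | h
      · have := mul_le_mul_of_nonneg_right h.le p1; nlinarith
      · have := mul_le_mul_of_nonneg_right h.le p2; nlinarith
      · have := mul_le_mul_of_nonneg_right h.le p3; nlinarith
      · have := mul_le_mul_of_nonneg_right h.le p4; nlinarith
  have s1 : ∀ b c, ∑ a, f (a + b - c) = ∑ x, f x := fun b c =>
    Fintype.sum_equiv (Equiv.addRight (b - c)) _ _ fun a => by simp [add_sub_assoc]
  have s2 : ∀ a c, ∑ b, f (a + b - c) = ∑ x, f x := fun a c =>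
    Fintype.sum_equiv (Equiv.addRight (a - c)) _ _ fun b => by
      simp only [Equiv.coe_addRight]; congr 1; abel
  have s3 : ∀ a b, ∑ c, f (a + b - c) = ∑ x, f x := fun a b =>
    Fintype.sum_equiv (Equiv.subLeft (a + b)) _ _ fun c => by simp
  have t1 : ∑ a, ∑ b, ∑ c, f b * f c * f (a + b - c) = (∑ x, f x) ^ 3 := by
    rw [sum_comm]
    simp only [fun b => sum_comm (s := univ) (t := univ)
      (f := fun a c => f b * f c * f (a + b - c)), ← mul_sum, s1, ← sum_mul]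
    ring
  have t2 : ∑ a, ∑ b, ∑ c, f a * f c * f (a + b - c) = (∑ x, f x) ^ 3 := by
    simp only [fun a => sum_comm (s := univ) (t := univ)
      (f := fun b c => f a * f c * f (a + b - c)), ← mul_sum, s2, ← sum_mul]
    ring
  have t3 : ∑ a, ∑ b, ∑ c, f a * f b * f (a + b - c) = (∑ x, f x) ^ 3 := by
    simp only [← mul_sum, s3, ← sum_mul]
    ring
  have t4 : ∑ a, ∑ b, ∑ c, f a * f b * f c = (∑ x, f x) ^ 3 := by
    simp only [← mul_sum, ← sum_mul]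
    ring
  have h5 : (∑ x, f x) ^ 3 ≤ D ^ 3 := by gcongr
  calc _ ≤ _ := sum_le_sum fun a _ => sum_le_sum fun b _ => sum_le_sum fun c _ => e2 a b c
    _ = addEnergy S S + 4 * t * (∑ x, f x) ^ 3 := by
      simp only [sum_add_distrib, ← mul_sum]
      rw [← e1]
      simp only [mul_sum] at t1 t2 t3 t4 ⊢
      rw [t1, t2, t3, t4]; ring
    _ ≤ _ := by gcongr

theorem ic_En_le (S : Finset G) : addEnergy S S ≤ #S ^ 3 := by
  rw [fr_En]
  calc _ ≤ ∑ c ∈ S, ∑ a ∈ S, #S := sum_le_sum fun c _ => sum_le_sum fun a _ => card_filter_le _ _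
    _ = _ := by simp only [sum_const, smul_eq_mul]; ring

end

open Classical in
/-- weighted form of FR -/
theorem inv_weight (p : ℕ) [Fact p.Prime] (η : ℝ) (hη : 0 < η) : ∃ C : ℝ, 0 < C ∧
    ∀ (G : Type) [AddCommGroup G] [Module (ZMod p) G] [Fintype G] (f : G → ℝ) (D : ℝ), 0 < D →
      (∀ x, 0 ≤ f x) → (∀ x, f x ≤ 1) → ∑ x, f x ≤ D →
      η * D ^ 3 ≤ ∑ a, ∑ b, ∑ c, f a * f b * f c * f (a + b - c) →
      ∃ H : Submodule (ZMod p) G, (Nat.card H : ℝ) ≤ C * D ∧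
        D ≤ C * ∑ x ∈ univ.filter (fun x => x ∈ H), f x := by
  obtain ⟨C, hC, hfr⟩ := fr p (η ^ 4 / 1024) (by positivity)
  refine ⟨C * (8 / η) * (1 + 2 / η), by positivity, fun G _ _ _ f D hD h0 h1 hs hE => ?_⟩
  have h2 := ic_cut f h0 h1 D (η / 8) (by positivity) hs
  set S := univ.filter fun x => η / 8 ≤ f x with hS
  have h3 : η / 2 * D ^ 3 ≤ addEnergy S S := by linarith
  have h4 : η / 8 * #S ≤ D := by
    calc η / 8 * #S = ∑ x ∈ S, η / 8 := by rw [sum_const, nsmul_eq_mul, mul_comm]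
      _ ≤ ∑ x ∈ S, f x := sum_le_sum fun x hx => (mem_filter.1 hx).2
      _ ≤ ∑ x, f x := sum_le_sum_of_subset_of_nonneg (subset_univ _) fun x _ _ => h0 x
      _ ≤ D := hs
  have h5 : (addEnergy S S : ℝ) ≤ (#S : ℝ) ^ 3 := by exact_mod_cast ic_En_le S
  have h6 : D ≤ (1 + 2 / η) * #S := by
    refine le_of_pow_le_pow_left₀ three_ne_zero (by positivity) ?_
    have a1 : D ^ 3 ≤ 2 / η * (#S : ℝ) ^ 3 := by
      rw [div_mul_eq_mul_div, le_div_iff₀ hη]; linarith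
    have a2 : 2 / η ≤ (1 + 2 / η) ^ 3 := by
      have : 0 < 2 / η := by positivity
      nlinarith [pow_pos this 2, pow_pos this 3]
    rw [mul_pow]
    exact a1.trans (by gcongr)
  have hne : S.Nonempty := by
    rw [← card_pos]
    rcases Nat.eq_zero_or_pos #S with h | h
    · rw [h] at h6; simp at h6; linarith
    · exact h
  obtain ⟨H, a1, a2⟩ := hfr G S hne (by
    have b1 : (η / 8 * #S) ^ 3 ≤ D ^ 3 := by gcongr
    have b2 : η / 2 * (η / 8 * #S) ^ 3 ≤ η / 2 * D ^ 3 := by gcongr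
    calc _ = η / 2 * (η / 8 * #S) ^ 3 := by ring
      _ ≤ _ := b2.trans h3)
  have h7 : (#S : ℝ) ≤ 8 / η * D := by
    rw [div_mul_eq_mul_div, le_div_iff₀ hη]; linarith
  refine ⟨H, ?_, ?_⟩
  · have b1 : (1 : ℝ) ≤ 1 + 2 / η := le_add_of_nonneg_right (by positivity)
    calc _ ≤ C * #S := a1
      _ ≤ C * (8 / η * D) := by gcongr
      _ = C * (8 / η) * 1 * D := by ring
      _ ≤ _ := by gcongr
  · have b1 : η / 8 * #(S.filter fun x => x ∈ H) ≤ ∑ x ∈ univ.filter (fun x => x ∈ H), f x :=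
      calc η / 8 * #(S.filter fun x => x ∈ H) = ∑ x ∈ S.filter (fun x => x ∈ H), η / 8 := by
            rw [sum_const, nsmul_eq_mul, mul_comm]
        _ ≤ ∑ x ∈ S.filter (fun x => x ∈ H), f x :=
            sum_le_sum fun x hx => (mem_filter.1 (mem_filter.1 hx).1).2
        _ ≤ _ := sum_le_sum_of_subset_of_nonneg
            (fun x hx => mem_filter.2 ⟨mem_univ _, (mem_filter.1 hx).2⟩) fun x _ _ => h0 x
    have b2 : (#(S.filter fun x => x ∈ H) : ℝ) ≤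
        8 / η * ∑ x ∈ univ.filter (fun x => x ∈ H), f x := by
      rw [div_mul_eq_mul_div, le_div_iff₀ hη]; linarith
    calc D ≤ (1 + 2 / η) * #S := h6
      _ ≤ (1 + 2 / η) * (C * (8 / η * ∑ x ∈ univ.filter (fun x => x ∈ H), f x)) := by
          gcongr
          exact a2.trans (by gcongr)
      _ = _ := by ring

open Classical in
/-- the core of INV: `f = |Xi| ^ 2`, `ψ y x = e [y, x]` -/
theorem inv_core (p : ℕ) [Fact p.Prime] (ε : ℝ) (hε : 0 < ε) : ∃ C : ℝ, 0 < C ∧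
    ∀ (G : Type) [AddCommGroup G] [Module (ZMod p) G] [Fintype G] (ψ : G → G → ℂ) (f : G → ℝ)
      (D : ℝ), 0 < D → (∀ y x x', ψ y (x + x') = ψ y x * ψ y x') → (∀ x y, ψ y x = ψ x (-y)) →
      (∀ x y, ψ y (-x) = ψ x y) → (∀ x, f (-x) = f x) → (∀ x, 0 ≤ f x) → (∀ x, f x ≤ 1) →
      ∑ x, f x ≤ D → (∀ x, ∑ y, (f y : ℂ) * ψ y x = D * f x) → ε * D ≤ ∑ x, f x ^ 2 →
      ∃ H : Submodule (ZMod p) G, (Nat.card H : ℝ) ≤ C * D ∧
        D ≤ C * ∑ x ∈ univ.filter (fun x => x ∈ H), f x := by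
  obtain ⟨C, hC, h⟩ := inv_weight p (ε ^ 3 / 8) (by positivity)
  refine ⟨C, hC, fun G _ _ _ ψ f D hD a1 a2 a3 a4 h0 h1 hs hF h2 => h G f D hD h0 h1 hs ?_⟩
  rw [ic_energy ψ a1 a2 a3 f a4 D hD hF]
  have := ic_four f h0 D ε hε hs h2
  calc ε ^ 3 / 8 * D ^ 3 = D ^ 2 * (ε ^ 3 * D / 8) := by ring
    _ ≤ _ := by gcongr

end MP_4523ee_co.Fp
end

-- merged part: Pool.Agent.Work.MP_4523ee_co.Fp.Inv
section
/-!
Inverse theorem for the fourth moment of the characteristic function (paper section 3).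
Use MP_4523ee_co.Fp.inv_core of InvCore.lean with self_dual, then CO1, CO2.
-/

set_option autoImplicit false
set_option linter.unusedSectionVars false

namespace Pool.Agent.Work.MP_4523ee_co.Fp

open Finset Matrix
open scoped BigOperators ComplexConjugate

variable {p : ℕ} [Fact p.Prime]

section
variable {X : Type} [AddCommGroup X] [Module (ZMod p) X] [Fintype X]
variable {ν : Type} [Fintype ν] [DecidableEq ν] {β : Bil p X}

lemma exists_max_iso (hβ : SymB β) (H : Submodule (ZMod p) (GX X ν)) :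
    ∃ L : Submodule (ZMod p) (GX X ν), L ≤ H ∧ (∀ x ∈ L, ∀ y ∈ L, sy β x y = 0) ∧
      ∀ x ∈ H, (∀ y ∈ L, sy β x y = 0) → x ∈ L := by
  have : Finite (Submodule (ZMod p) (GX X ν)) :=
    Finite.of_injective (fun L : Submodule (ZMod p) (GX X ν) => (L : Set (GX X ν)))
      SetLike.coe_injective
  obtain ⟨L, hL⟩ := Set.Finite.exists_maximal (Set.toFinite
    {L : Submodule (ZMod p) (GX X ν) | L ≤ H ∧ ∀ x ∈ L, ∀ y ∈ L, sy β x y = 0})
    ⟨⊥, bot_le, fun x hx y _ => by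
      rw [(Submodule.mem_bot _).1 hx, ← syL_apply, map_zero, LinearMap.zero_apply]⟩
  refine ⟨L, hL.1.1, hL.1.2, fun x hH hx => ?_⟩
  have h1 : ∀ u ∈ L ⊔ Submodule.span (ZMod p) {x}, ∀ v ∈ L ⊔ Submodule.span (ZMod p) {x},
      sy β u v = 0 := by
    intro u hu v hv
    obtain ⟨u1, hu1, u2, hu2, rfl⟩ := Submodule.mem_sup.1 hu
    obtain ⟨v1, hv1, v2, hv2, rfl⟩ := Submodule.mem_sup.1 hv
    obtain ⟨s, rfl⟩ := Submodule.mem_span_singleton.1 hu2
    obtain ⟨t, rfl⟩ := Submodule.mem_span_singleton.1 hv2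
    simp only [sy_add_left, sy_add_right, sy_smul_left, sy_smul_right, hL.1.2 u1 hu1 v1 hv1,
      hx v1 hv1, sy_anti hβ u1 x, hx u1 hu1, sy_self hβ, neg_zero, mul_zero, add_zero]
  exact hL.2 ⟨sup_le hL.1.1 ((Submodule.span_singleton_le_iff_mem _ _).2 hH), h1⟩ le_sup_left
    (Submodule.mem_sup_right (Submodule.mem_span_singleton_self x))

lemma card_inf_pw_le (hp : p ≠ 2) (hβ : SymB β) {a : (ν → X) → ℂ} (ha : nsq a ≤ 1)
    (hG : GG β 1 a) {L : Submodule (ZMod p) (GX X ν)} (hL : ∀ x ∈ L, ∀ y ∈ L, sy β x y = 0)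
    {φ : Module.Dual (ZMod p) L} {c : ℝ} (hc : 0 ≤ c) (h : c ≤ nsq (Pj β L.subtype φ a))
    (E : Submodule (ZMod p) X) :
    c ^ 2 * Fintype.card ↥(L ⊓ pw ν E) ≤ (Fintype.card E : ℝ) ^ Fintype.card ν := by
  classical
  let i : ↥(L ⊓ pw ν E) →ₗ[ZMod p] L := Submodule.inclusion inf_le_left
  have hj : ∀ x y : L, sy β (L.subtype x) (L.subtype y) = 0 := fun x y => hL _ x.2 _ y.2
  have h1 := h.trans (nsq_Pj_le_comp hp hβ hj i φ a)
  have h2 := nsq_Pj_sq_le (j := L.subtype.comp i) hp hβ (fun x y => hj _ _) (φ.comp i) a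
  have h3 : c ^ 2 ≤ _ := (pow_le_pow_left₀ hc h1 2).trans h2
  have h0 : (0 : ℝ) < Fintype.card ↥(L ⊓ pw ν E) := by exact_mod_cast Fintype.card_pos
  rw [Fintype.expect_eq_sum_div_card, le_div_iff₀ h0] at h3
  refine h3.trans (le_trans ?_ (PUR hp hβ ha hG E))
  let k : ↥(L ⊓ pw ν E) → pw ν E := fun x => ⟨x.1, x.2.2⟩
  have hk : Function.Injective k := fun x y e => Subtype.ext (congrArg Subtype.val e :)
  calc _ = ∑ x ∈ univ.image k, ‖Xi β a x.1‖ ^ 2 := by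
        rw [sum_image fun x _ y _ e => hk e]; rfl
    _ ≤ _ := sum_le_sum_of_subset_of_nonneg (subset_univ _) fun _ _ _ => by positivity

end

theorem INV (hp : p ≠ 2) (ε : ℝ) (hε : 0 < ε) : ∃ c : ℝ, 0 < c ∧
    ∀ (X : Type) [AddCommGroup X] [Module (ZMod p) X] [Fintype X] (ν : Type) [Fintype ν]
    [DecidableEq ν] (β : Bil p X), SymB β → NdB β → ∀ a : (ν → X) → ℂ, nsq a ≤ 1 → GG β 1 a →
    ¬ PP β ε a → ∃ L : Submodule (ZMod p) (GX X ν), (∀ x ∈ L, ∀ y ∈ L, sy β x y = 0) ∧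
      c * (Fintype.card X : ℝ) ^ Fintype.card ν ≤ Fintype.card L ∧
      (∃ φ : Module.Dual (ZMod p) L, c ≤ nsq (Pj β L.subtype φ a)) ∧
      ∀ E : Submodule (ZMod p) X,
        c ^ 2 * Fintype.card ↥(L ⊓ pw ν E) ≤ (Fintype.card E : ℝ) ^ Fintype.card ν := by
  classical
  obtain ⟨C, hC, hcore⟩ := MP_4523ee_co.Fp.inv_core p ε hε
  refine ⟨(C ^ 2 + C)⁻¹, by positivity, fun X _ _ _ ν _ _ β hβ hn a ha hG hP => ?_⟩
  set D : ℝ := (Fintype.card X : ℝ) ^ Fintype.card ν with hDd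
  have hD : 0 < D := by
    have : 0 < Fintype.card X := Fintype.card_pos
    positivity
  have h0 := nsq_nonneg a
  have hneg : ∀ x y : GX X ν, sy β x (-y) = -sy β x y := fun x y => (syL β ν x).map_neg y
  obtain ⟨H, hH1, hH2⟩ := hcore (GX X ν) (fun y x => ee (sy β y x)) (fun x => ‖Xi β a x‖ ^ 2) D hD
    (fun y x x' => by rw [sy_add_right, ee_add])
    (fun x y => by rw [hneg, sy_anti hβ y x])
    (fun x y => by rw [hneg, sy_anti hβ x y])
    (fun x => by rw [Xi, ip_W hp hβ, neg_neg, ← ip_conj, Complex.norm_conj, Xi])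
    (fun x => by positivity)
    (fun x => pow_le_one₀ (norm_nonneg _) ((norm_Xi_le β a x).trans ha))
    (by
      rw [sum_Xi_sq hβ hn]
      exact mul_le_of_le_one_right hD.le (pow_le_one₀ h0 ha))
    (fun x => by rw [self_dual hp hβ hn, hDd]; push_cast; rfl)
    (by
      simp only [← pow_mul]
      exact (not_le.1 hP).le)
  obtain ⟨L, hLH, hL, hmax⟩ := exists_max_iso hβ H
  have hsum : ∑ x ∈ univ.filter (fun x => x ∈ H), ‖Xi β a x‖ ^ 2 =
      ∑ x : H, ‖Xi β a (H.subtype x)‖ ^ 2 :=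
    sum_subtype _ (fun x => by simp) fun x => ‖Xi β a x‖ ^ 2
  rw [hsum] at hH2
  let L' : Submodule (ZMod p) H := L.comap H.subtype
  have hL' : ∀ x ∈ L', ∀ y ∈ L', sy β (H.subtype x) (H.subtype y) = 0 :=
    fun x hx y hy => hL _ hx _ hy
  let e : L' ≃ₗ[ZMod p] L := Submodule.comapSubtypeEquivOfLe hLH
  have hc1 : (C ^ 2 + C)⁻¹ * C ≤ 1 := by
    rw [inv_mul_le_iff₀ (by positivity)]; nlinarith
  have hc2 : (C ^ 2 + C)⁻¹ * C ^ 2 < 1 := by
    rw [inv_mul_lt_iff₀ (by positivity)]; nlinarith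
  have hc0 : 0 < (C ^ 2 + C)⁻¹ := by positivity
  generalize (C ^ 2 + C)⁻¹ = c at hc0 hc1 hc2 ⊢
  have hφ : ∃ φ : Module.Dual (ZMod p) L, c ≤ nsq (Pj β L.subtype φ a) := by
    by_contra hcon
    push Not at hcon
    have h1 := CO2 hp hβ H.subtype L' hL' a c fun φ => by
      have e1 : Pj β (H.subtype.comp L'.subtype) φ a =
          Pj β L.subtype (φ.comp e.symm.toLinearMap) a := by
        funext l
        refine Fintype.expect_equiv e.toEquiv _ _ fun x => ?_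
        have e2 : φ.comp e.symm.toLinearMap (e.toEquiv x) = φ x := by simp
        rw [e2]; rfl
      rw [e1]
      exact (hcon _).le
    rw [Nat.card_eq_fintype_card] at hH1
    have h2 : (Fintype.card H : ℝ) * (c * nsq a) ≤ C * D * (c * 1) := by gcongr
    have h3 : C * ∑ x : H, ‖Xi β a (H.subtype x)‖ ^ 2 ≤ C * (C * D * (c * 1)) := by
      gcongr; exact h1.trans h2
    nlinarith
  obtain ⟨φ, hφ⟩ := hφ
  refine ⟨L, hL, ?_, ⟨φ, hφ⟩, card_inf_pw_le hp hβ ha hG hL hc0.le hφ⟩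
  have h1 := CO1 hp hβ H.subtype L' hL' (fun x hx => hmax _ x.2 fun y hy =>
    hx ⟨y, hLH hy⟩ hy) a
  rw [Fintype.card_congr e.toEquiv] at h1
  have h2 : (Fintype.card L : ℝ) * nsq a ^ 2 ≤ Fintype.card L :=
    mul_le_of_le_one_right (by positivity) (pow_le_one₀ h0 ha)
  have h3 : D ≤ C * Fintype.card L := hH2.trans (by gcongr; exact h1.trans h2)
  calc c * D ≤ c * (C * Fintype.card L) := by gcongr
    _ = c * C * Fintype.card L := by ring
    _ ≤ 1 * Fintype.card L := by gcongr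
    _ = _ := one_mul _

end Pool.Agent.Work.MP_4523ee_co.Fp
end
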