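import Mathlib
import Pool.Agent.Work.MP_4523ee_co.Fp.Inv
import Pool.Agent.Work.MP_4523ee_co.Fp.Wick
import Pool.Agent.Work.MP_4523ee_co.Fp.End

-- merged part: Pool.Agent.Work.MP_4523ee_co.Fp.PrG
section
/-!
Tests (G) and pos of paper section 8.
-/

set_option autoImplicit false
set_option linter.unusedSectionVars false

namespace Pool.Agent.Work.MP_4523ee_co.Fp

open Finset Matrix
open scoped BigOperators ComplexConjugate

variable {p : ℕ} [Fact p.Prime]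

section aux
variable {X X₂ : Type} [AddCommGroup X] [Module (ZMod p) X] [Fintype X] [AddCommGroup X₂]
  [Module (ZMod p) X₂] [Fintype X₂] {ν ν' : Type} [Fintype ν] [DecidableEq ν] [Fintype ν']
  [DecidableEq ν'] {β : Bil p X} {β₂ : Bil p X₂}

lemma PrG_lev (hp : p ≠ 2) (s₁ : SymB β) (n₁ : NdB β) (s₂ : SymB β₂) {r : ℕ}
    (hr : Module.finrank (ZMod p) X + Module.finrank (ZMod p) X₂ = r) {c : X} (hc : c ≠ 0)
    {v : ν → ZMod p} {u : (ν → X) → ℂ} (hu : ∀ l, u l ≠ 0 → ∀ i, β c (l i) = v i)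
    (a₂ : (ν → X₂) → ℂ) (M : SymM p ν) (U : Matrix ν ν' (ZMod p)) (hU : Uᵀ *ᵥ v = 0) :
    Lev (r - 1) fun N => FF β u (M + cj U N) * FF β₂ a₂ (M + cj U N) := by
  simp only [← FF_tp]
  refine Lev_FF_tile hp (SymB_bp s₁ s₂) _ M U fun l hl => ?_
  have h1 := hu _ (left_ne_zero_of_mul hl)
  have h2 : Submodule.span (ZMod p) (Set.range (act Uᵀ l)) ≤
      LinearMap.ker ((β c).comp (LinearMap.fst _ X X₂)) :=
    Submodule.span_le.2 (Set.range_subset_iff.2 fun t => by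
      show β c (act Uᵀ l t).1 = 0
      rw [← show (Uᵀ *ᵥ v) t = 0 from congrFun hU t]
      simp [act, Prod.fst_sum, mulVec, dotProduct, h1])
  have h3 : Submodule.span (ZMod p) (Set.range (act Uᵀ l)) ≠ ⊤ := fun e =>
    hc (n₁ c fun y => h2 (e ▸ Submodule.mem_top : ((y, 0) : X × X₂) ∈ _))
  have h4 := Submodule.finrank_lt h3
  rw [Module.finrank_prod, hr] at h4
  omega

lemma PrG_ee_inj {s t : ZMod p} (h : ee s = ee t) : s = t := by
  refine sub_eq_zero.1 (ee_eq_one.1 ?_)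
  rw [sub_eq_add_neg, ee_add, h, ← ee_add, add_neg_cancel, ee_zero]

variable {N : Submodule (ZMod p) X} {φ : Module.Dual (ZMod p) (pw ν N)} {u : (ν → X) → ℂ}

lemma PrG_supp (hp : p ≠ 2) (hβ : SymB β) (hN : Iso β N) (hu : Pj β (pw ν N).subtype φ u = u)
    {l l0 : ν → X} (hl : u l ≠ 0) (h0 : u l0 ≠ 0) {w : ν → X} (hw : ∀ i, w i ∈ N) :
    bt β w l = bt β w l0 := by
  have h := W_Pj hp hβ (sy_pw_of_iso hN) φ u ⟨(0, w), mem_pw.2 ⟨fun _ => N.zero_mem, hw⟩⟩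
  rw [hu] at h
  have key : ∀ l, u l ≠ 0 →
      bt β w l = φ ⟨(0, w), mem_pw.2 ⟨fun _ => N.zero_mem, hw⟩⟩ := fun l hl => by
    have h1 := congrFun h l
    simp only [W, Submodule.subtype_apply, bt_zero_right, mul_zero, add_zero] at h1
    exact PrG_ee_inj (mul_right_cancel₀ hl h1)
  rw [key l hl, key l0 h0]

lemma PrG_shift (hp : p ≠ 2) (hβ : SymB β) (hN : Iso β N) (hu : Pj β (pw ν N).subtype φ u = u)
    {κ : Matrix ν' ν (ZMod p)} {e : ν' → X} {M M' : SymM p ν} (hM : FF β (cut κ e u) M ≠ 0)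
    (hM' : FF β (cut κ e u) M' ≠ 0) {l0 : ν → X} (h0 : u l0 ≠ 0) {w : ν → X} (hw : ∀ i, w i ∈ N)
    (hκ : act κ w = 0) : bt β (act M.1 w) l0 = bt β (act M'.1 w) l0 := by
  have h := W_Pj hp hβ (sy_pw_of_iso hN) φ u ⟨(w, 0), mem_pw.2 ⟨hw, fun _ => N.zero_mem⟩⟩
  rw [hu] at h
  obtain ⟨s, hs⟩ : ∃ s, ∀ l, u (l + w) = ee s * u l := ⟨_, fun l => by
    simpa only [W, Submodule.subtype_apply, bt_zero_left, mul_zero, add_zero, ee_zero, one_mul]
      using congrFun h l⟩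
  have key : ∀ M : SymM p ν, FF β (cut κ e u) M ≠ 0 → s + 2 * bt β (act M.1 w) l0 = 0 :=
    fun M hM => by
      have hw' : ∀ i, act M.1 w i ∈ N := fun i => N.sum_mem fun j _ => N.smul_mem _ (hw j)
      have h1 : chi β M w = 1 := by
        rw [chi_eq, show bt β w (act M.1 w) = 0 from
          sum_eq_zero fun i _ => hN _ (hw i) _ (hw' i), ee_zero]
      have h2 : FF β (cut κ e u) M = ee (s + 2 * bt β (act M.1 w) l0) * FF β (cut κ e u) M := by
        conv_lhs => rw [FF, ← Equiv.sum_comp (Equiv.addRight w)]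
        rw [FF, mul_sum]
        refine sum_congr rfl fun l _ => ?_
        have h3 : act κ (l + w) = act κ l := by rw [act_add, hκ, add_zero]
        simp only [Equiv.coe_addRight]
        by_cases h4 : act κ l = e
        · simp only [cut, if_pos h4, if_pos (h3.trans h4), hs]
          by_cases h5 : u l = 0
          · simp [h5]
          · rw [chi_add hβ, h1, PrG_supp hp hβ hN hu h5 h0 hw', ee_add]
            ring
        · simp only [cut, if_neg h4, if_neg (h3 ▸ h4), zero_mul, mul_zero]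
      exact ee_eq_one.1 (mul_right_cancel₀ hM (h2.symm.trans (one_mul _).symm))
  exact mul_left_cancel₀ (two_ne hp) (add_left_cancel ((key M hM).trans (key M' hM').symm))

lemma PrG_perp (κ : Matrix ν' ν (ZMod p)) (z : ν → ZMod p)
    (h : ∀ v, κ *ᵥ v = 0 → ∑ i, v i * z i = 0) : ∃ t : ν' → ZMod p, ∀ j, z j = ∑ a, κ a j * t a := by
  have h1 := mem_span_of_iInf_ker_le_ker (L := fun a => Fintype.linearCombination (ZMod p) (κ a))
    (K := Fintype.linearCombination (ZMod p) z) fun v hv => by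
      simp only [Submodule.mem_iInf, LinearMap.mem_ker, Fintype.linearCombination_apply,
        smul_eq_mul] at hv ⊢
      exact h v (funext fun a => (sum_congr rfl fun i _ => mul_comm _ _).trans (hv a))
  obtain ⟨t, ht⟩ := (Submodule.mem_span_range_iff_exists_fun _).1 h1
  refine ⟨t, fun j => ?_⟩
  have h2 := LinearMap.congr_fun ht (Pi.single j 1)
  simp only [LinearMap.sum_apply, LinearMap.smul_apply, Fintype.linearCombination_apply_single,
    smul_eq_mul, one_mul] at h2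
  exact h2.symm.trans (sum_congr rfl fun a _ => mul_comm _ _)

/-- summation over the tiles -/
lemma PrG_tiles {α Z : Type} [Fintype α] (S : Finset Z) (C : Z → Set α) (f G : α → ℂ) {ε δ : ℝ}
    (hS : ∀ M, G M ≠ 0 → ∑ z ∈ S, ind (C z) M = 1) (hδ : ∀ z, dens (C z) ≤ δ)
    (h : ∀ z, ‖𝔼 M, (ind (C z) M : ℂ) * (f M * G M)‖ ≤
      ε * (√(dens (C z)) * √(𝔼 M, ind (C z) M * ‖G M‖ ^ 2))) :
    ‖𝔼 M, f M * G M‖ ^ 2 ≤ #S * (ε ^ 2 * δ * en G) := by
  have h1 : 𝔼 M, f M * G M = ∑ z ∈ S, 𝔼 M, (ind (C z) M : ℂ) * (f M * G M) := by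
    rw [← expect_sum_comm]
    refine expect_congr rfl fun M _ => ?_
    by_cases hM : G M = 0
    · simp [hM]
    · rw [← sum_mul, ← Complex.ofReal_sum, hS M hM, Complex.ofReal_one, one_mul]
  have h2 : en G = ∑ z ∈ S, 𝔼 M, ind (C z) M * ‖G M‖ ^ 2 := by
    rw [← expect_sum_comm]
    refine expect_congr rfl fun M _ => ?_
    by_cases hM : G M = 0
    · simp [hM]
    · rw [← sum_mul, hS M hM, one_mul]
  rw [h1, h2, mul_sum]
  refine (pow_le_pow_left₀ (norm_nonneg _) (norm_sum_le _ _) 2).trans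
    (sq_sum_le_card_mul_sum_sq.trans (mul_le_mul_of_nonneg_left (sum_le_sum fun z _ => ?_)
      (by positivity)))
  have h3 : 0 ≤ 𝔼 M, ind (C z) M * ‖G M‖ ^ 2 :=
    expect_nonneg fun M _ => mul_nonneg (ind_nonneg _ _) (by positivity)
  refine (pow_le_pow_left₀ (norm_nonneg _) (h z) 2).trans ?_
  rw [mul_pow, mul_pow, Real.sq_sqrt (dens_nonneg _), Real.sq_sqrt h3, mul_assoc]
  exact mul_le_mul_of_nonneg_left (mul_le_mul_of_nonneg_right (hδ z) h3) (by positivity)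

end aux

/-- (G): split `SymM` by the value of `M ↦ (M y(c_a))_a`, `c_a` a basis of `N`, and use `CLG` on
the at most `p ^ (r * finrank N)` tiles on which `FF β₁ (cut κ _ u)` does not vanish -/
theorem TG (hp : p ≠ 2) {r : ℕ} (hr : 0 < r) (hC : Claim p (r - 1)) (ε : ℝ) (hε : 0 < ε) :
    Ev p fun ν _ _ A => ∃ B : Set (SymM p ν), dens B ≤ ε ∧ ∀ r₁ : ℕ,
      Data p r r₁ ν fun X₁ X₂ _ _ _ _ _ _ β₁ β₂ e κ =>
        ∀ N : Submodule (ZMod p) X₁, N ≠ ⊥ → Iso β₁ N → ∀ (φ : Module.Dual (ZMod p) (pw ν N))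
          (u : (ν → X₁) → ℂ), Pj β₁ (pw ν N).subtype φ u = u → ∀ a₂ : (ν → X₂) → ℂ,
          OnSl κ (fun i => (e i).2) a₂ →
          (Fintype.card N : ℝ) ^ Fintype.card ν *
            ‖𝔼 M, fB A B M * (FF β₁ (cut κ (fun i => (e i).1) u) M * FF β₂ a₂ M)‖ ^ 2 ≤
            ε * (nsq u * nsq a₂) := by
  classical
  have hp1 : (1 : ℝ) ≤ p := by exact_mod_cast (Fact.out : p.Prime).one_le
  obtain ⟨P, hP⟩ : ∃ P : ℝ, P = p ^ (r * r + r * r) := ⟨_, rfl⟩
  have hP1 : 1 ≤ P := hP ▸ one_le_pow₀ hp1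
  obtain ⟨ε', hε'⟩ : ∃ ε', ε' = min ε 1 / P := ⟨_, rfl⟩
  have e0 : 0 < ε' := by rw [hε']; positivity
  have e1 : ε' ≤ ε := hε' ▸ (div_le_self (by positivity) hP1).trans (min_le_left _ _)
  have e2 : P * ε' ^ 2 ≤ ε := by
    have : P * ε' ≤ 1 := by
      rw [hε', mul_div_cancel₀ _ (by positivity)]
      exact min_le_right _ _
    rw [sq, ← mul_assoc]
    exact (mul_le_of_le_one_left e0.le this).trans e1
  refine (CLG hp hC r ε' e0).mono fun ν _ _ A ⟨B, hB, h⟩ => ⟨B, hB.trans e1, fun r₁ => ?_⟩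
  intro X₁ X₂ _ _ _ _ _ _ β₁ β₂ e κ s₁ n₁ s₂ n₂ _ hr' he N hN0 hN φ u hu a₂ ha
  have hnn : 0 ≤ ε * (nsq u * nsq a₂) :=
    mul_nonneg hε.le (mul_nonneg (nsq_nonneg _) (nsq_nonneg _))
  by_cases hF : ∀ M, FF β₁ (cut κ (fun i => (e i).1) u) M = 0
  · simpa [hF] using hnn
  obtain ⟨M0, hM0⟩ := not_forall.1 hF
  obtain ⟨l0, -, hl0⟩ := exists_ne_zero_of_sum_ne_zero hM0
  have hcut : ∀ l, cut κ (fun i => (e i).1) u l ≠ 0 → u l ≠ 0 := fun l hl h0 => hl (by
    simp [cut, h0])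
  have h1 := OnSl_cut κ _ u l0 (left_ne_zero_of_mul hl0)
  have h0 := hcut l0 (left_ne_zero_of_mul hl0)
  obtain ⟨k, hk⟩ : ∃ k, Module.finrank (ZMod p) N = k := ⟨_, rfl⟩
  have hk0 : 0 < k := hk ▸ Nat.pos_of_ne_zero fun a => hN0 (Submodule.finrank_eq_zero.1 a)
  have hkr : k ≤ r := hk ▸ N.finrank_le.trans (hr' ▸ Nat.le_add_right _ _)
  have c := Module.finBasisOfFinrankEq (ZMod p) N hk
  obtain ⟨y, hy⟩ : ∃ y : ν → Fin k → ZMod p, y = fun i a => β₁ (c a) (l0 i) := ⟨_, rfl⟩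
  have hli : LinearIndependent (ZMod p) fun (a : Fin k) (i : ν) => y i a := by
    rw [hy]
    refine c.linearIndependent.map' (LinearMap.pi fun i => (β₁.flip (l0 i)).comp N.subtype)
      (LinearMap.ker_eq_bot'.2 fun x hx => Subtype.ext (n₁ _ fun z => ?_))
    have h2 : Submodule.span (ZMod p) (Set.range fun i => (e i).1) ≤ LinearMap.ker (β₁ x) :=
      Submodule.span_le.2 (Set.range_subset_iff.2 fun a => by
        have h3 : ∀ i, β₁ x (l0 i) = 0 := congrFun hx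
        show β₁ x (e a).1 = 0
        rw [← show act κ l0 a = (e a).1 from congrFun h1 a]
        simp [act, h3])
    exact h2 (span_fst he ▸ Submodule.mem_top)
  have hfin : ∀ z, Module.finrank (ZMod p) (spn (y, z)) = k := fun z =>
    (finrank_span_eq_card (LinearIndependent.of_comp (LinearMap.fst _ _ _) hli)).trans
      (Fintype.card_fin k)
  have hv : ∀ l, cut κ (fun i => (e i).1) u l ≠ 0 → ∀ i, β₁ (c ⟨0, hk0⟩) (l i) = y i ⟨0, hk0⟩ :=
    fun l hl i => by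
      have h2 := PrG_supp hp s₁ hN hu (hcut l hl) h0 (w := Pi.single i (c ⟨0, hk0⟩).1) fun j => by
        by_cases hj : j = i
        · simp [hj]
        · simp [Pi.single_eq_of_ne hj]
      have h3 : ∀ l : ν → X₁, bt β₁ (Pi.single i (c ⟨0, hk0⟩).1) l = β₁ (c ⟨0, hk0⟩) (l i) :=
        fun l => by
          rw [bt, sum_eq_single i (fun j _ hj => by simp [Pi.single_eq_of_ne hj])
            fun a => absurd (mem_univ i) a, Pi.single_eq_same]
      rw [h3, h3] at h2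
      rw [h2, hy]
  obtain ⟨S, hS⟩ : ∃ S : Finset (ν → Fin k → ZMod p),
      S = univ.image fun t : Fin r → Fin k → ZMod p => act M0.1 y + act κᵀ t := ⟨_, rfl⟩
  have hS1 : (#S : ℝ) ≤ p ^ (r * r) := by
    have : #S ≤ p ^ (k * r) := by
      rw [hS]
      refine card_image_le.trans_eq ?_
      simp [pow_mul]
    exact (Nat.cast_le.2 this).trans (by
      push_cast
      exact pow_le_pow_right₀ hp1 (Nat.mul_le_mul_right r hkr))
  have hS2 : ∀ M, FF β₁ (cut κ (fun i => (e i).1) u) M ≠ 0 → act M.1 y ∈ S := fun M hM => by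
    have h2 : ∀ (M : SymM p ν) a (v : ν → ZMod p),
        bt β₁ (act M.1 fun i => v i • (c a).1) l0 = ∑ i, v i * act M.1 y i a := fun M a v => by
      rw [bt_act, SymM_T]
      simp only [bt, act, hy, map_smul, map_sum, LinearMap.smul_apply, smul_eq_mul,
        Finset.sum_apply, Pi.smul_apply, mul_sum, mul_left_comm]
    have h3 : ∀ a, ∃ t : Fin r → ZMod p, ∀ j,
        act M.1 y j a - act M0.1 y j a = ∑ s, κ s j * t s := fun a =>
      PrG_perp κ _ fun v hv => by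
        have h4 := PrG_shift hp s₁ hN hu hM hM0 h0 (w := fun i => v i • (c a).1)
          (fun i => N.smul_mem _ (c a).2) (funext fun s => by
            have h5 : ∑ j, κ s j * v j = 0 := congrFun hv s
            simp only [act, smul_smul, ← sum_smul, h5, zero_smul, Pi.zero_apply])
        rw [h2, h2] at h4
        simp only [mul_sub, sum_sub_distrib, h4, sub_self]
    choose t ht using h3
    rw [hS]
    refine mem_image.2 ⟨fun s a => t a s, mem_univ _, funext fun j => funext fun a => ?_⟩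
    rw [eq_add_of_sub_eq' (ht a j)]
    simp [act]
  have h2 := PrG_tiles S (fun z => CY (spn (y, z))) (fB A B)
    (fun M => FF β₁ (cut κ (fun i => (e i).1) u) M * FF β₂ a₂ M)
    (δ := (p : ℝ) ^ (k ^ 2) * (((p : ℝ) ^ Fintype.card ν) ^ k)⁻¹)
    (fun M hM => by
      rw [sum_eq_single_of_mem _ (hS2 M (left_ne_zero_of_mul hM))
        fun z _ hz => ind_of_not fun a => hz ((mem_CY_spn _ _).1 a)]
      exact ind_of_mem ((mem_CY_spn _ _).2 rfl))
    (fun z => by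
      rcases (CY (spn (y, z))).eq_empty_or_nonempty with a | a
      · rw [a, dens]
        simp only [ind_of_not (Set.notMem_empty _), expect_const_zero]
        positivity
      · exact (dens_CY_le hp a).trans_eq (by rw [hfin]))
    fun z => h _ ((hfin z).trans_le hkr)
      (fun M => FF β₁ (cut κ (fun i => (e i).1) u) M * FF β₂ a₂ M) fun m M U hU => PrG_lev hp s₁ n₁ s₂ hr'
      (fun a => c.ne_zero _ (Subtype.ext a)) hv a₂ M U
      (hU _ (Submodule.subset_span ⟨⟨0, hk0⟩, rfl⟩))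
  rw [en_FF_mul hp s₁ n₁ s₂ n₂ he (OnSl_cut _ _ _) ha] at h2
  have h3 : (Fintype.card N : ℝ) ^ Fintype.card ν = (p ^ Fintype.card ν) ^ k := by
    rw [card_eq_pow (p := p), hk, Nat.cast_pow, pow_right_comm]
  have h4 : (0 : ℝ) < (p ^ Fintype.card ν) ^ k := by positivity
  have h5 : (p : ℝ) ^ (k ^ 2) ≤ p ^ (r * r) :=
    pow_le_pow_right₀ hp1 (sq k ▸ Nat.mul_le_mul hkr hkr)
  have h6 := mul_le_mul_of_nonneg_right (nsq_cut_le κ (fun i => (e i).1) u) (nsq_nonneg a₂)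
  have h7 := mul_nonneg (nsq_nonneg (cut κ (fun i => (e i).1) u)) (nsq_nonneg a₂)
  rw [h3]
  refine (mul_le_mul_of_nonneg_left h2 h4.le).trans (le_trans (le_of_eq ?_)
    (mul_le_mul ((mul_le_mul_of_nonneg_right ((mul_le_mul hS1 h5 (by positivity)
      (by positivity)).trans_eq ((pow_add _ _ _).symm.trans hP.symm)) (sq_nonneg ε')).trans e2)
      h6 h7 hε.le))
  field_simp

/-- pos: `SC` with an injective `U` such that `Uᵀ v = 0` -/
theorem TPos (hp : p ≠ 2) {r : ℕ} (hr : 0 < r) (hC : Claim p (r - 1)) (ε : ℝ) (hε : 0 < ε)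
    (r₁ : ℕ) :
    Ev p fun ν _ _ A => Data p r r₁ ν fun X₁ X₂ _ _ _ _ _ _ β₁ β₂ e κ =>
        ∀ c : X₁, c ≠ 0 → ∀ (v : ν → ZMod p) (u : (ν → X₁) → ℂ), OnSl κ (fun i => (e i).1) u →
          (∀ l, u l ≠ 0 → ∀ i, β₁ c (l i) = v i) → ∀ a₂ : (ν → X₂) → ℂ,
          OnSl κ (fun i => (e i).2) a₂ →
          ‖𝔼 M, fA A M * (FF β₁ u M * FF β₂ a₂ M)‖ ≤ ε * (√(nsq u) * √(nsq a₂)) := by
  refine ((SC hC 1 ε hε).and (Ev_basic 1 one_pos 1)).mono fun ν _ _ A ⟨h, hn, _⟩ => ?_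
  intro X₁ X₂ _ _ _ _ _ _ β₁ β₂ e κ s₁ n₁ s₂ n₂ _ hr' he c hc v u hu hv a₂ ha
  obtain ⟨m, hm⟩ : ∃ m, Fintype.card ν = m + 1 := ⟨Fintype.card ν - 1, by omega⟩
  obtain ⟨U, hU, h0⟩ := exists_inj_ker (p := p) (ν' := Fin m) v
    (by rw [Fintype.card_fin, Module.finrank_self, hm])
  have h2 : Uᵀ *ᵥ v = 0 := funext fun t => by
    simpa only [act, smul_eq_mul, mulVec, dotProduct] using congrFun h0 t
  have h1 := h (Fin m) U hU (by rw [Fintype.card_fin, hm]) (fun M => FF β₁ u M * FF β₂ a₂ M)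
    fun M => PrG_lev hp s₁ n₁ s₂ hr' hc hv a₂ M U h2
  rwa [en_FF_mul hp s₁ n₁ s₂ n₂ he hu ha, Real.sqrt_mul (nsq_nonneg _)] at h1

end Pool.Agent.Work.MP_4523ee_co.Fp
end

-- merged part: Pool.Agent.Work.MP_4523ee_co.Fp.Pr
section
/-!
Contracting twice gives a primitive vector (paper section 8).
-/

set_option autoImplicit false
set_option linter.unusedSectionVars false

namespace Pool.Agent.Work.MP_4523ee_co.Fp

open Finset Matrix
open scoped BigOperators ComplexConjugate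

variable {p : ℕ} [Fact p.Prime]

def PrimOut (p : ℕ) [Fact p.Prime] (r r₁ : ℕ) : Prop :=
  ∀ θ ε s₀ : ℝ, 0 < θ → 0 < ε → 0 < s₀ →
    Ev p fun ν _ _ A => Data p r r₁ ν fun X₁ X₂ _ _ _ _ _ _ β₁ β₂ e κ =>
      ∀ (a₁ : (ν → X₁) → ℂ) (a₂ : (ν → X₂) → ℂ), OnSl κ (fun i => (e i).1) a₁ →
        OnSl κ (fun i => (e i).2) a₂ → nsq a₁ = 1 → nsq a₂ = 1 →
        s₀ ≤ ‖𝔼 M, fA A M * (FF β₁ a₁ M * FF β₂ a₂ M)‖ →
        ∃ (b₁ : (ν → X₁) → ℂ) (b₂ : (ν → X₂) → ℂ), OnSl κ (fun i => (e i).1) b₁ ∧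
          OnSl κ (fun i => (e i).2) b₂ ∧ nsq b₁ = 1 ∧ nsq b₂ = 1 ∧ Prim β₁ θ b₁ ∧ Pos β₁ θ b₁ ∧
          GG β₂ 1 b₂ ∧ ‖𝔼 M, fA A M * (FF β₁ a₁ M * FF β₂ a₂ M)‖ - ε ≤
            ‖𝔼 M, fA A M * (FF β₁ b₁ M * FF β₂ b₂ M)‖

lemma pr_cut {X : Type} [AddCommGroup X] [Module (ZMod p) X] {ν ι : Type}
    [Fintype ν] {κ : Matrix ι ν (ZMod p)} {e : ι → X} {a : (ν → X) → ℂ}
    (ha : OnSl κ e a) : cut κ e a = a := by
  funext l
  unfold cut
  split_ifs with h
  · rfl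
  · exact (not_not.1 fun h' => h (ha l h')).symm

/-- one contraction: the unit vector on the slice that represents `u ↦ 𝔼 g * FF β (cut κ e u)` -/
lemma exists_contr {X : Type} [AddCommGroup X] [Module (ZMod p) X] [Fintype X] {ν ι : Type}
    [Fintype ν] [DecidableEq ν] [Fintype ι] [DecidableEq ι] (β : Bil p X)
    (κ : Matrix ι ν (ZMod p)) (e : ι → X) (g : SymM p ν → ℂ) (a : (ν → X) → ℂ)
    (ha : OnSl κ e a) (h1 : nsq a = 1) (h0 : 𝔼 M, g M * FF β a M ≠ 0) :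
    ∃ (b : (ν → X) → ℂ) (s : ℝ), OnSl κ e b ∧ nsq b = 1 ∧ ‖𝔼 M, g M * FF β a M‖ ≤ s ∧
      𝔼 M, g M * FF β b M = s ∧
      ∀ u, (s : ℂ) * ip b u = 𝔼 M, g M * FF β (cut κ e u) M := by
  let ψ := cut κ e fun l => conj (𝔼 M, g M * chi β M l)
  have k1 : ∀ u, ip ψ u = 𝔼 M, g M * FF β (cut κ e u) M := fun u => by
    simp only [FF, mul_sum, ip]
    rw [expect_sum_comm]
    refine sum_congr rfl fun l _ => ?_
    simp only [ψ, cut]
    split_ifs
    · rw [Complex.conj_conj, Finset.expect_mul]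
      exact expect_congr rfl fun M _ => by ring
    · simp
  have k2 : ip ψ a = 𝔼 M, g M * FF β a M := by rw [k1, pr_cut ha]
  have k3 := norm_ip_le ψ a
  rw [k2, h1, Real.sqrt_one, mul_one] at k3
  have hs : 0 < √(nsq ψ) := (norm_pos_iff.2 h0).trans_le k3
  have hs' : ((√(nsq ψ) : ℝ) : ℂ) ≠ 0 := by exact_mod_cast hs.ne'
  have hq := Real.sq_sqrt (nsq_nonneg ψ)
  have hb : OnSl κ e fun l => ((√(nsq ψ) : ℝ) : ℂ)⁻¹ * ψ l := fun l hl =>
    OnSl_cut κ e _ l (right_ne_zero_of_mul hl)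
  refine ⟨_, √(nsq ψ), hb, ?_, k3, ?_, fun u => ?_⟩
  · rw [nsq_smul, norm_inv, Complex.norm_real, Real.norm_of_nonneg hs.le, inv_pow, hq,
      inv_mul_cancel₀ (hq ▸ pow_pos hs 2).ne']
  · rw [← pr_cut hb, ← k1, weyl_ip_mul, ip_self, inv_mul_eq_iff_eq_mul₀ hs', ← sq]
    exact_mod_cast hq.symm
  · rw [← k1, ← ip_conj, weyl_ip_mul, map_mul, ip_conj, map_inv₀, Complex.conj_ofReal,
      mul_inv_cancel_left₀ hs']

lemma pr_sq {x τ : ℝ} (hx : 0 ≤ x) (h0 : 0 ≤ τ) (h1 : τ ≤ 1) (h : x ≤ τ * √x) : x ≤ τ := by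
  have h2 := Real.mul_self_sqrt hx
  have h3 := Real.sqrt_nonneg x
  by_cases h4 : √x ≤ τ <;> nlinarith

lemma pr_G (hp : p ≠ 2) {X : Type} [AddCommGroup X] [Module (ZMod p) X] [Fintype X] {ν : Type}
    [Fintype ν] [DecidableEq ν] {β : Bil p X} (hβ : SymB β) {b : (ν → X) → ℂ} {s t τ : ℝ}
    (hs : 0 < s) (ht : 0 ≤ t) (h1 : t ≤ τ * s) (h2 : τ ≤ 1)
    (h : ∀ N : Submodule (ZMod p) X, N ≠ ⊥ → Iso β N → ∀ (φ : Module.Dual (ZMod p) (pw ν N))
      (u : (ν → X) → ℂ), Pj β (pw ν N).subtype φ u = u →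
      (Fintype.card N : ℝ) ^ Fintype.card ν * ‖(s : ℂ) * ip b u‖ ^ 2 ≤ t ^ 2 * nsq u) :
    GG β τ b := fun N a1 a2 φ => by
  have h3 := h N a1 a2 φ _ (Pj_Pj hp hβ (sy_pw_of_iso a2) φ b)
  rw [← nsq_Pj hp hβ (sy_pw_of_iso a2), norm_mul, Complex.norm_real, Complex.norm_real,
    Real.norm_of_nonneg hs.le, Real.norm_of_nonneg (nsq_nonneg _)] at h3
  have h0 : 0 ≤ τ := nonneg_of_mul_nonneg_left (ht.trans h1) hs
  rcases (nsq_nonneg (Pj β (pw ν N).subtype φ b)).eq_or_lt with h4 | h4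
  · rw [← h4, mul_zero]; exact h0
  generalize nsq (Pj β (pw ν N).subtype φ b) = x at h3 h4 ⊢
  have h5 : t ^ 2 * x ≤ τ * (s ^ 2 * x) :=
    calc _ ≤ (τ * s) ^ 2 * x := by gcongr
      _ = τ * τ * (s ^ 2 * x) := by ring
      _ ≤ τ * 1 * (s ^ 2 * x) := by gcongr
      _ = _ := by ring
  refine le_of_mul_le_mul_right (le_of_eq_of_le ?_ (h3.trans h5)) (by positivity)
  ring

theorem PRIM (hp : p ≠ 2) {r r₁ : ℕ} (hr : 0 < r₁) (hr' : r₁ ≤ r) (hC : Claim p (r - 1))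
    (hB : ∀ u, 1 ≤ u → u < r₁ → ∀ c : ℝ, 0 < c → Bnd p r u c) : PrimOut p r r₁ := by
  intro θ ε s₀ hθ hε hs₀
  obtain ⟨c, hc, hI⟩ := INV hp θ hθ
  obtain ⟨τ, τ0, τ1, τ2, τ3⟩ : ∃ τ : ℝ, 0 < τ ∧ τ ≤ θ ∧ τ ≤ 1 ∧ τ < c :=
    ⟨min (min θ 1) (c / 2), by positivity, (min_le_left _ _).trans (min_le_left _ _),
      (min_le_left _ _).trans (min_le_right _ _), (min_le_right _ _).trans_lt (half_lt_self hc)⟩
  obtain ⟨t, t0, t1, t2⟩ : ∃ t : ℝ, 0 < t ∧ t ≤ τ * s₀ / 4 ∧ t ≤ ε / 2 :=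
    ⟨min (τ * s₀ / 4) (ε / 2), by positivity, min_le_left _ _, min_le_right _ _⟩
  refine (((TG hp (hr.trans_le hr') hC (t ^ 2) (by positivity)).and
    (TPos hp (hr.trans_le hr') hC t t0 r₁)).and ((TS hp hB t t0).and
    (TP hp hr hC c t hc t0))).mono ?_
  rintro ν _ _ A ⟨⟨⟨B, hB1, hG⟩, hP⟩, hS, hT⟩ X₁ X₂ _ _ _ _ _ _ β₁ β₂ e κ s1 n1 s2 n2 d1 d2 he
    a₁ a₂ o1 o2 q1 q2 hl
  have hd : ∀ {u v}, OnSl κ (fun i => (e i).1) u → OnSl κ (fun i => (e i).2) v → nsq v = 1 →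
      ‖𝔼 M, fA A M * (FF β₁ u M * FF β₂ v M) - 𝔼 M, fB A B M * (FF β₁ u M * FF β₂ v M)‖ ≤
        t * √(nsq u) := fun {u v} a b d => by
    refine (fA_sub_fB A B _).trans ?_
    rw [en_FF_mul hp s1 n1 s2 n2 he a b, d, mul_one]
    exact mul_le_mul_of_nonneg_right (Real.sqrt_le_iff.2 ⟨t0.le, hB1⟩) (Real.sqrt_nonneg _)
  have e1 := (norm_sub_norm_le _ _).trans (hd o1 o2 q2)
  rw [q1, Real.sqrt_one, mul_one] at e1
  have t3 : t ≤ s₀ / 4 := by nlinarith
  have w1 : ∀ u v, 𝔼 M, fB A B M * FF β₁ u M * FF β₂ v M =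
      𝔼 M, fB A B M * (FF β₁ u M * FF β₂ v M) := fun u v => by simp only [mul_assoc]
  have w2 : ∀ u v, 𝔼 M, fB A B M * FF β₂ v M * FF β₁ u M =
      𝔼 M, fB A B M * (FF β₁ u M * FF β₂ v M) := fun u v =>
    expect_congr rfl fun M _ => by ring
  obtain ⟨b₂, σ, p1, p2, p3, p4, p5⟩ := exists_contr β₂ κ _ (fun M => fB A B M * FF β₁ a₁ M) a₂ o2
    q2 (by rw [w1, ← norm_pos_iff]; linarith)
  rw [w1] at p3 p4
  have σ0 : s₀ / 2 ≤ σ := by linarith
  obtain ⟨b₁, s, r1, r2, r3, r4, r5⟩ := exists_contr β₁ κ _ (fun M => fB A B M * FF β₂ b₂ M) a₁ o1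
    q1 (by rw [w2, p4]; exact_mod_cast (by linarith : σ ≠ 0))
  rw [w2, p4, Complex.norm_real, Real.norm_of_nonneg (by linarith)] at r3
  rw [w2] at r4
  simp only [w2] at r5
  have s0 : 0 < s := by linarith
  have g1 : GG β₁ τ b₁ := pr_G hp s1 s0 t0.le (by nlinarith) τ2 fun N a1 a2 φ u a3 => by
    have := hG r₁ X₁ X₂ β₁ β₂ e κ s1 n1 s2 n2 d1 d2 he N a1 a2 φ u a3 b₂ p1
    rwa [← r5, p2, mul_one] at this
  have g2 : GG β₂ τ b₂ := pr_G hp s2 (s := σ) (by linarith) t0.le (by nlinarith) τ2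
    fun N a1 a2 φ u a3 => by
      have := hG _ X₂ X₁ β₂ β₁ (fun i => (e i).swap) κ s2 n2 s1 n1 rfl (by omega) (by
        have h := congrArg (Submodule.map (LinearEquiv.prodComm (ZMod p) X₁ X₂).toLinearMap) he
        rwa [Submodule.map_span, Submodule.map_top, LinearEquiv.range, ← Set.range_comp] at h)
        N a1 a2 φ u a3 a₁ o1
      rw [q1, mul_one] at this
      rw [p5, w1]
      simpa only [mul_comm (FF β₁ a₁ _), Prod.fst_swap] using this
  have key : ∀ u, ‖𝔼 M, fA A M * (FF β₁ (cut κ (fun i => (e i).1) u) M * FF β₂ b₂ M)‖ ≤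
      t * (√(nsq u) * √(nsq b₂)) → ‖ip b₁ u‖ ≤ τ * √(nsq u) := fun u h => by
    have h1 := (norm_sub_norm_le _ _).trans ((norm_sub_rev _ _).trans_le
      (hd (OnSl_cut κ _ u) p1 p2))
    have h2 := mul_le_mul_of_nonneg_left
      (Real.sqrt_le_sqrt (nsq_cut_le κ (fun i => (e i).1) u)) t0.le
    rw [← r5, norm_mul, Complex.norm_real, Real.norm_of_nonneg s0.le] at h1
    rw [p2, Real.sqrt_one, mul_one] at h
    have h3 : 2 * t * √(nsq u) ≤ s * τ * √(nsq u) :=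
      mul_le_mul_of_nonneg_right (by nlinarith) (Real.sqrt_nonneg _)
    exact le_of_mul_le_mul_left (by linarith) s0
  have key' : ∀ u, ip b₁ u = nsq u →
      ‖𝔼 M, fA A M * (FF β₁ (cut κ (fun i => (e i).1) u) M * FF β₂ b₂ M)‖ ≤
        t * (√(nsq u) * √(nsq b₂)) → nsq u ≤ τ := fun u h h' => by
    have := key u h'
    rw [h, Complex.norm_real, Real.norm_of_nonneg (nsq_nonneg u)] at this
    exact pr_sq (nsq_nonneg u) τ0.le τ2 this
  refine ⟨b₁, b₂, r1, p1, r2, p2, ⟨r2.le, g1.mono τ1, ?_, ?_⟩, fun x hx v => ?_, g2.mono τ2, ?_⟩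
  · refine SS_of_test s1 n1 hθ.le r2.le fun D D' a1 a2 a3 a4 a5 a6 u hu => ?_
    rw [prim_ip_comm]
    exact (key u (hS X₁ X₂ β₁ β₂ e κ s1 n1 s2 n2 d1 d2 he D D' a1 a2 a3 a4 a5 a6 u hu b₂ p1)).trans
      (mul_le_mul_of_nonneg_right τ1 (Real.sqrt_nonneg _))
  · by_contra hn
    obtain ⟨L, a1, a2, ⟨φ, a3⟩, a4⟩ := hI X₁ ν β₁ s1 n1 b₁ r2.le (g1.mono τ2) hn
    have hj : ∀ x y : L, sy β₁ (L.subtype x) (L.subtype y) = 0 := fun x y => a1 _ x.2 _ y.2
    exact absurd (a3.trans (key' _ (nsq_Pj hp s1 hj φ b₁).symm (hT X₁ X₂ β₁ β₂ e κ s1 n1 s2 n2 d1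
      d2 he L a1 a2 a4 φ _ (Pj_Pj hp s1 hj φ b₁) b₂ p1))) τ3.not_ge
  · let u : (ν → X₁) → ℂ := fun l => (ind {l : ν → X₁ | ∀ i, β₁ x (l i) = v i} l : ℝ) * b₁ l
    have u1 : OnSl κ (fun i => (e i).1) u := fun l hl => r1 l (right_ne_zero_of_mul hl)
    have u2 : ∀ l, u l = b₁ l ∧ ind {l : ν → X₁ | ∀ i, β₁ x (l i) = v i} l = 1 ∨
        u l = 0 ∧ ind {l : ν → X₁ | ∀ i, β₁ x (l i) = v i} l = 0 := fun l => by
      by_cases h : l ∈ {l : ν → X₁ | ∀ i, β₁ x (l i) = v i}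
      · simp [u, ind_of_mem h]
      · simp [u, ind_of_not h]
    refine le_of_eq_of_le (sum_congr rfl fun l _ => ?_) ((key' u ?_ ?_).trans τ1)
    · rcases u2 l with ⟨a, b⟩ | ⟨a, b⟩ <;> simp [a, b]
    · rw [← ip_self]
      refine sum_congr rfl fun l _ => ?_
      rcases u2 l with ⟨a, -⟩ | ⟨a, -⟩ <;> simp [a]
    · rw [pr_cut u1]
      refine hP X₁ X₂ β₁ β₂ e κ s1 n1 s2 n2 d1 d2 he x hx v u u1 (fun l hl => ?_) b₂ p1
      by_contra h
      exact hl (by simp only [u, ind_of_not (A := {l : ν → X₁ | ∀ i, β₁ x (l i) = v i}) h]; simp)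
  · have h1 := (norm_sub_norm_le _ _).trans ((norm_sub_rev _ _).trans_le (hd r1 p1 p2))
    rw [r4, r2, Real.sqrt_one, mul_one, Complex.norm_real, Real.norm_of_nonneg s0.le] at h1
    linarith

end Pool.Agent.Work.MP_4523ee_co.Fp
end

-- merged part: Pool.Agent.Work.MP_4523ee_co.Fp.GU
section
/-!
Most random tiles split the mass of a spread vector evenly (paper section 7, Chebyshev).
-/

set_option autoImplicit false
set_option linter.unusedSectionVars false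

namespace Pool.Agent.Work.MP_4523ee_co.Fp

open Finset Matrix
open scoped BigOperators ComplexConjugate

variable {p : ℕ} [Fact p.Prime]

section helpers
variable {X : Type} [AddCommGroup X] [Module (ZMod p) X] {ν ν' : Type} [Fintype ν]
  [DecidableEq ν] [Fintype ν'] [DecidableEq ν']

/-- `U ↦ act Uᵀ l` as a linear map -/
def guL (ν' : Type) (l : ν → X) : Matrix ν ν' (ZMod p) →ₗ[ZMod p] (ν' → X) where
  toFun U := act Uᵀ l
  map_add' U U' := by
    funext j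
    simp [act, add_smul, Finset.sum_add_distrib]
  map_smul' c U := by
    funext j
    simp [act, mul_smul, Finset.smul_sum]

lemma gu_surj {l : ν → X} (hl : Submodule.span (ZMod p) (Set.range l) = ⊤) :
    Function.Surjective (guL (p := p) ν' l) := by
  intro s
  have h : ∀ j, ∃ c : ν → ZMod p, ∑ i, c i • l i = s j := fun j =>
    (Submodule.mem_span_range_iff_exists_fun (ZMod p)).1 (hl ▸ Submodule.mem_top)
  choose c hc using h
  exact ⟨Matrix.of fun i j => c j i, funext fun j => hc j⟩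

lemma gu_span {ι : Type} {κ : Matrix ι ν (ZMod p)} {e : ι → X}
    (he : Submodule.span (ZMod p) (Set.range e) = ⊤) {l : ν → X}
    (h : (fun k => ∑ j, κ k j • l j) = e) : Submodule.span (ZMod p) (Set.range l) = ⊤ := by
  rw [eq_top_iff, ← he, Submodule.span_le]
  rintro _ ⟨k, rfl⟩
  rw [← h]
  exact Submodule.sum_mem _ fun j _ => Submodule.smul_mem _ _ (Submodule.subset_span ⟨j, rfl⟩)

variable [Fintype X]

lemma gu_dens {l : ν → X} (hl : Submodule.span (ZMod p) (Set.range l) = ⊤) (s : ν' → X) :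
    dens {U : Matrix ν ν' (ZMod p) | act Uᵀ l = s} =
      ((Fintype.card X : ℝ) ^ Fintype.card ν')⁻¹ := by
  have h := dens_fibre_surj (guL (p := p) ν' l) (gu_surj hl) s
  rw [Fintype.card_fun] at h
  push_cast at h
  exact h

lemma gu_dual {β : Bil p X} (hn : NdB β) (φ : Module.Dual (ZMod p) X) : ∃ c, β c = φ := by
  have hi : Function.Injective β := by
    rw [injective_iff_map_eq_zero]
    intro c hc
    exact hn c fun y => by rw [hc]; rfl
  exact (LinearMap.injective_iff_surjective_of_finrank_eq_finrank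
    (Subspace.dual_finrank_eq (K := ZMod p) (V := X)).symm).1 hi φ

lemma gu_bad {β : Bil p X} (hn : NdB β) {l l' : ν → X}
    (hl : Submodule.span (ZMod p) (Set.range l) = ⊤)
    (h : Submodule.span (ZMod p) (Set.range fun i => (l i, l' i)) ≠ ⊤) :
    ∃ c c' : X, c' ≠ 0 ∧ ∀ i, β c' (l' i) = -β c (l i) := by
  obtain ⟨φ, hφ, hb⟩ := Submodule.exists_dual_map_eq_bot_of_lt_top (lt_top_iff_ne_top.2 h)
    inferInstance
  obtain ⟨c, hc⟩ := gu_dual hn (φ ∘ₗ LinearMap.inl (ZMod p) X X)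
  obtain ⟨c', hc'⟩ := gu_dual hn (φ ∘ₗ LinearMap.inr (ZMod p) X X)
  have hs : ∀ x y, φ (x, y) = β c x + β c' y := by
    intro x y
    rw [hc, hc', LinearMap.comp_apply, LinearMap.comp_apply, ← map_add]
    simp
  have h0 : ∀ i, β c (l i) + β c' (l' i) = 0 := by
    intro i
    rw [← hs]
    have : φ (l i, l' i) ∈ Submodule.map φ
        (Submodule.span (ZMod p) (Set.range fun i => (l i, l' i))) :=
      Submodule.mem_map_of_mem (Submodule.subset_span ⟨i, rfl⟩)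
    rwa [hb, Submodule.mem_bot] at this
  refine ⟨c, c', fun hz => hφ ?_, fun i => by linear_combination h0 i⟩
  have h1 : β c = 0 := by
    refine LinearMap.ext_on_range hl fun i => ?_
    have := h0 i
    rw [hz] at this
    simpa using this
  refine LinearMap.ext fun x => ?_
  have := hs x.1 x.2
  rw [h1, hz] at this
  simpa using this

open Classical in
lemma gu_cov {β : Bil p X} (hn : NdB β) {l l' : ν → X}
    (hl : Submodule.span (ZMod p) (Set.range l) = ⊤)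
    (hl' : Submodule.span (ZMod p) (Set.range l') = ⊤) (s : ν' → X) :
    𝔼 U : Matrix ν ν' (ZMod p),
      (ind {U : Matrix ν ν' (ZMod p) | act Uᵀ l = s} U -
          ((Fintype.card X : ℝ) ^ Fintype.card ν')⁻¹) *
        (ind {U : Matrix ν ν' (ZMod p) | act Uᵀ l' = s} U -
          ((Fintype.card X : ℝ) ^ Fintype.card ν')⁻¹) ≤
      ∑ c : X, ∑ c' ∈ univ.filter fun c' : X => c' ≠ 0,
        ind {m : ν → X | ∀ i, β c' (m i) = -β c (l i)} l' := by
  set π : ℝ := ((Fintype.card X : ℝ) ^ Fintype.card ν')⁻¹ with hπ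
  have h1 : 𝔼 U : Matrix ν ν' (ZMod p), ind {U : Matrix ν ν' (ZMod p) | act Uᵀ l = s} U = π :=
    gu_dens hl s
  have h2 : 𝔼 U : Matrix ν ν' (ZMod p), ind {U : Matrix ν ν' (ZMod p) | act Uᵀ l' = s} U = π :=
    gu_dens hl' s
  have e : 𝔼 U : Matrix ν ν' (ZMod p),
      (ind {U : Matrix ν ν' (ZMod p) | act Uᵀ l = s} U - π) *
        (ind {U : Matrix ν ν' (ZMod p) | act Uᵀ l' = s} U - π) =
      dens ({U : Matrix ν ν' (ZMod p) | act Uᵀ l = s} ∩ {U | act Uᵀ l' = s}) - π ^ 2 := by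
    have e1 : ∀ U : Matrix ν ν' (ZMod p),
        (ind {U : Matrix ν ν' (ZMod p) | act Uᵀ l = s} U - π) *
          (ind {U : Matrix ν ν' (ZMod p) | act Uᵀ l' = s} U - π) =
        ind ({U : Matrix ν ν' (ZMod p) | act Uᵀ l = s} ∩ {U | act Uᵀ l' = s}) U -
          π * ind {U : Matrix ν ν' (ZMod p) | act Uᵀ l = s} U -
          π * ind {U : Matrix ν ν' (ZMod p) | act Uᵀ l' = s} U + π ^ 2 := by
      intro U
      rw [ind_inter]
      ring
    simp_rw [e1]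
    rw [Finset.expect_add_distrib, Finset.expect_sub_distrib, Finset.expect_sub_distrib,
      ← Finset.mul_expect, ← Finset.mul_expect, h1, h2, Fintype.expect_const]
    unfold dens
    ring
  rw [e]
  have hnn : ∀ c : X, 0 ≤ ∑ c' ∈ univ.filter fun c' : X => c' ≠ 0,
      ind {m : ν → X | ∀ i, β c' (m i) = -β c (l i)} l' := fun c =>
    Finset.sum_nonneg fun _ _ => ind_nonneg _ _
  by_cases h : Submodule.span (ZMod p) (Set.range fun i => (l i, l' i)) = ⊤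
  · have h3 := gu_dens (ν' := ν') h fun j => (s j, s j)
    have h4 : ({U : Matrix ν ν' (ZMod p) | act Uᵀ l = s} ∩ {U | act Uᵀ l' = s}) =
        {U : Matrix ν ν' (ZMod p) | act Uᵀ (fun i => (l i, l' i)) = fun j => (s j, s j)} := by
      ext U
      simp only [Set.mem_inter_iff, Set.mem_ofPred_eq, funext_iff, act, Prod.ext_iff,
        Prod.fst_sum, Prod.snd_sum, Prod.smul_fst, Prod.smul_snd, forall_and]
    rw [h4, h3, Fintype.card_prod, hπ]
    push_cast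
    rw [mul_pow, mul_inv, ← sq, sub_self]
    exact Finset.sum_nonneg fun c _ => hnn c
  · obtain ⟨c, c', hc', hcc⟩ := gu_bad hn hl h
    have h5 : (1 : ℝ) ≤ ∑ c' ∈ univ.filter fun c' : X => c' ≠ 0,
        ind {m : ν → X | ∀ i, β c' (m i) = -β c (l i)} l' := by
      have h6 : ind {m : ν → X | ∀ i, β c' (m i) = -β c (l i)} l' = 1 := ind_of_mem hcc
      rw [← h6]
      exact Finset.single_le_sum
        (f := fun c' : X => ind {m : ν → X | ∀ i, β c' (m i) = -β c (l i)} l')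
        (fun _ _ => ind_nonneg _ _) (Finset.mem_filter.2 ⟨Finset.mem_univ _, hc'⟩)
    have h7 := Finset.single_le_sum (fun c _ => hnn c) (Finset.mem_univ c)
    have h8 := dens_le_one ({U : Matrix ν ν' (ZMod p) | act Uᵀ l = s} ∩ {U | act Uᵀ l' = s})
    nlinarith [sq_nonneg π]

lemma gu_var {β : Bil p X} (hn : NdB β) {ι : Type} {κ : Matrix ι ν (ZMod p)} {e : ι → X}
    (he : Submodule.span (ZMod p) (Set.range e) = ⊤) {a : (ν → X) → ℂ} (ha : nsq a = 1)
    (hs : OnSl κ e a) {θ : ℝ} (hθ : 0 ≤ θ) (hP : Pos β θ a) (s : ν' → X) :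
    𝔼 U : Matrix ν ν' (ZMod p),
      (nsq (cut Uᵀ s a) - ((Fintype.card X : ℝ) ^ Fintype.card ν')⁻¹) ^ 2 ≤
      (Fintype.card X : ℝ) ^ 2 * θ := by
  classical
  set π : ℝ := ((Fintype.card X : ℝ) ^ Fintype.card ν')⁻¹ with hπ
  have ha' : ∑ l, ‖a l‖ ^ 2 = 1 := ha
  have e1 : ∀ U : Matrix ν ν' (ZMod p), nsq (cut Uᵀ s a) - π =
      ∑ l, ‖a l‖ ^ 2 * (ind {U : Matrix ν ν' (ZMod p) | act Uᵀ l = s} U - π) := by
    intro U
    simp_rw [mul_sub]
    rw [Finset.sum_sub_distrib, ← Finset.sum_mul, ha', one_mul]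
    congr 1
    refine Finset.sum_congr rfl fun l _ => ?_
    by_cases h : act Uᵀ l = s
    · have h1 : ind {U : Matrix ν ν' (ZMod p) | act Uᵀ l = s} U = 1 := ind_of_mem h
      rw [h1, mul_one, cut, if_pos h]
    · have h1 : ind {U : Matrix ν ν' (ZMod p) | act Uᵀ l = s} U = 0 := ind_of_not h
      rw [h1, mul_zero, cut, if_neg h]
      simp
  have e2 : 𝔼 U : Matrix ν ν' (ZMod p), (nsq (cut Uᵀ s a) - π) ^ 2 =
      ∑ l, ‖a l‖ ^ 2 * ∑ l', ‖a l'‖ ^ 2 * 𝔼 U : Matrix ν ν' (ZMod p),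
        (ind {U : Matrix ν ν' (ZMod p) | act Uᵀ l = s} U - π) *
          (ind {U : Matrix ν ν' (ZMod p) | act Uᵀ l' = s} U - π) := by
    simp_rw [e1, sq (∑ l, _ : ℝ), Finset.sum_mul_sum, Finset.expect_sum_comm, Finset.mul_sum,
      Finset.mul_expect]
    refine Finset.sum_congr rfl fun l _ => Finset.sum_congr rfl fun l' _ =>
      Finset.expect_congr rfl fun U _ => by ring
  rw [e2]
  have e3 : ∀ l : ν → X, ‖a l‖ ^ 2 * ∑ l', ‖a l'‖ ^ 2 * 𝔼 U : Matrix ν ν' (ZMod p),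
        (ind {U : Matrix ν ν' (ZMod p) | act Uᵀ l = s} U - π) *
          (ind {U : Matrix ν ν' (ZMod p) | act Uᵀ l' = s} U - π) ≤
      ‖a l‖ ^ 2 * ((Fintype.card X : ℝ) ^ 2 * θ) := by
    intro l
    by_cases hl : a l = 0
    · simp [hl]
    refine mul_le_mul_of_nonneg_left ?_ (sq_nonneg _)
    have hsp := gu_span he (hs l hl)
    calc _ ≤ ∑ l', ‖a l'‖ ^ 2 * ∑ c : X, ∑ c' ∈ univ.filter fun c' : X => c' ≠ 0,
            ind {m : ν → X | ∀ i, β c' (m i) = -β c (l i)} l' := by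
          refine Finset.sum_le_sum fun l' _ => ?_
          by_cases hl' : a l' = 0
          · simp [hl']
          refine mul_le_mul_of_nonneg_left ?_ (sq_nonneg _)
          have h9 := gu_cov hn hsp (gu_span he (hs l' hl')) s
          exact h9
      _ = ∑ c : X, ∑ c' ∈ univ.filter fun c' : X => c' ≠ 0, ∑ l' : ν → X,
            ind {m : ν → X | ∀ i, β c' (m i) = -β c (l i)} l' * ‖a l'‖ ^ 2 := by
          simp_rw [Finset.mul_sum]
          rw [Finset.sum_comm]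
          refine Finset.sum_congr rfl fun c _ => ?_
          rw [Finset.sum_comm]
          exact Finset.sum_congr rfl fun c' _ => Finset.sum_congr rfl fun l' _ => mul_comm _ _
      _ ≤ ∑ _c : X, ∑ _c' : X, θ := by
          refine Finset.sum_le_sum fun c _ => ?_
          refine (Finset.sum_le_sum (g := fun _ => θ) fun c' hc' => ?_).trans
            (Finset.sum_le_sum_of_subset_of_nonneg (Finset.subset_univ _) fun _ _ _ => hθ)
          exact hP c' (Finset.mem_filter.1 hc').2 fun i => -β c (l i)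
      _ = (Fintype.card X : ℝ) ^ 2 * θ := by
          simp only [Finset.sum_const, Finset.card_univ, nsmul_eq_mul]
          ring
  refine (Finset.sum_le_sum fun l _ => e3 l).trans ?_
  rw [← Finset.sum_mul, ha', one_mul]

end helpers

theorem GU {X : Type} [AddCommGroup X] [Module (ZMod p) X] [Fintype X] {ν ν' : Type} [Fintype ν]
    [DecidableEq ν] [Fintype ν'] [DecidableEq ν'] {β : Bil p X} (hβ : SymB β) (hn : NdB β)
    {ι : Type} {κ : Matrix ι ν (ZMod p)} {e : ι → X}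
    (he : Submodule.span (ZMod p) (Set.range e) = ⊤) {a : (ν → X) → ℂ} (ha : nsq a = 1)
    (hs : OnSl κ e a) {θ : ℝ} (hθ : 0 ≤ θ) (hP : Pos β θ a) {δ : ℝ} (hδ : 0 < δ) :
    dens {U : Matrix ν ν' (ZMod p) | ∃ s : ν' → X,
      δ ≤ |nsq (cut Uᵀ s a) - ((Fintype.card X : ℝ) ^ Fintype.card ν')⁻¹|} ≤
      (Fintype.card X : ℝ) ^ Fintype.card ν' * ((Fintype.card X : ℝ) ^ 2 * θ / δ ^ 2) := by
  refine (dens_le_sum (univ : Finset (ν' → X)) _ (fun s => {U : Matrix ν ν' (ZMod p) |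
    δ ^ 2 ≤ (nsq (cut Uᵀ s a) - ((Fintype.card X : ℝ) ^ Fintype.card ν')⁻¹) ^ 2}) ?_).trans ?_
  · rintro U ⟨s, h⟩
    refine ⟨s, Finset.mem_univ _, ?_⟩
    rw [Set.mem_ofPred_eq, ← sq_abs (nsq _ - _)]
    exact pow_le_pow_left₀ hδ.le h 2
  · refine (Finset.sum_le_sum (g := fun _ => (Fintype.card X : ℝ) ^ 2 * θ / δ ^ 2)
      fun s _ => ?_).trans ?_
    · refine (dens_markov (fun U : Matrix ν ν' (ZMod p) =>
        (nsq (cut Uᵀ s a) - ((Fintype.card X : ℝ) ^ Fintype.card ν')⁻¹) ^ 2)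
        (fun _ => sq_nonneg _) (pow_pos hδ 2)).trans ?_
      exact div_le_div_of_nonneg_right (gu_var hn he ha hs hθ hP s) (sq_nonneg _)
    · rw [Finset.sum_const, Finset.card_univ, Fintype.card_fun, nsmul_eq_mul]
      push_cast
      exact le_rfl

end Pool.Agent.Work.MP_4523ee_co.Fp
end

-- merged part: Pool.Agent.Work.MP_4523ee_co.Fp.GtPerm
section
/-!
The formal Gaussian model of section 7: permanents of the two-tile Gram matrix.
-/

set_option autoImplicit false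
set_option linter.unusedSectionVars false

namespace Pool.Agent.Work.MP_4523ee_co.Fp

open Finset Polynomial

/-- the conditional moment polynomial of `X ^ i` -/
noncomputable def Hp (i : ℕ) : ℝ[X] :=
  ∑ k ∈ range (i + 1), C (((i.choose k) ^ 2 * (i - k).factorial : ℕ) : ℝ) * X ^ k

/-- the normalised Gram matrix of two tiles -/
def Gm {S : Type} [DecidableEq S] (π : ℝ) : S ⊕ S → S ⊕ S → ℝ
  | .inl s, .inl t => if s = t then 1 else 0
  | .inr s, .inr t => if s = t then 1 else 0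
  | .inl _, .inr _ => π
  | .inr _, .inl _ => π

lemma gp_meas (N : ℕ) : ∃ (q y z : Fin (N + 1) × Fin (N + 1) → ℝ), ∀ m n, m ≤ N → n ≤ N →
    ∑ o, q o * (y o ^ m * z o ^ n) = if m = n then (m.factorial : ℝ) else 0 := by
  set V : Matrix (Fin (N + 1)) (Fin (N + 1)) ℝ := Matrix.vandermonde fun a => ((a : ℕ) : ℝ)
  have hd : IsUnit V.det := by
    rw [isUnit_iff_ne_zero, Matrix.det_vandermonde_ne_zero_iff]
    intro a b h
    exact Fin.ext (Nat.cast_injective (R := ℝ) h)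
  have h1 : ∀ k m : Fin (N + 1), ∑ a, V⁻¹ k a * ((a : ℕ) : ℝ) ^ (m : ℕ) =
      if k = m then 1 else 0 := fun k m => by
    have := congrFun (congrFun (Matrix.nonsing_inv_mul V hd) k) m
    simpa [Matrix.mul_apply, Matrix.one_apply, V] using this
  refine ⟨fun o => ∑ k : Fin (N + 1), ((k : ℕ).factorial : ℝ) * (V⁻¹ k o.1 * V⁻¹ k o.2),
    fun o => ((o.1 : ℕ) : ℝ), fun o => ((o.2 : ℕ) : ℝ), fun m n hm hn => ?_⟩
  have h2 : ∀ k : Fin (N + 1), ∑ o : Fin (N + 1) × Fin (N + 1),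
      ((k : ℕ).factorial : ℝ) * (V⁻¹ k o.1 * V⁻¹ k o.2) *
        (((o.1 : ℕ) : ℝ) ^ m * ((o.2 : ℕ) : ℝ) ^ n) =
      ((k : ℕ).factorial : ℝ) * ((if k = ⟨m, by omega⟩ then 1 else 0) *
        if k = ⟨n, by omega⟩ then 1 else 0) := fun k => by
    rw [← h1, ← h1, sum_mul_sum, mul_sum, Fintype.sum_prod_type]
    refine sum_congr rfl fun a _ => ?_
    rw [mul_sum]
    exact sum_congr rfl fun b _ => by ring
  simp only [sum_mul]
  rw [sum_comm]
  simp only [h2]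
  rw [sum_eq_single ⟨m, by omega⟩]
  · by_cases h : m = n
    · subst h; simp
    · simp [h]
  · intro b _ hb; simp [hb]
  · simp

lemma gp_cnt {K V : Type} [Fintype K] [DecidableEq K] [Fintype V] [DecidableEq V] (f g : K → V) :
    ∑ σ : Equiv.Perm K, (if g ∘ σ = f then (1 : ℝ) else 0) =
      ∏ v, if #{x | f x = v} = #{x | g x = v} then ((#{x | f x = v}).factorial : ℝ) else 0 := by
  by_cases h : ∀ v, #{x | f x = v} = #{x | g x = v}
  · have e : ∀ v, {x // f x = v} ≃ {x // g x = v} := fun v =>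
      Fintype.equivOfCardEq (by simpa [Fintype.card_subtype] using h v)
    have ht : g ∘ Equiv.ofFiberEquiv e = f := funext fun x => Equiv.ofFiberEquiv_map e x
    rw [← Equiv.sum_comp (Equiv.mulLeft (Equiv.ofFiberEquiv e : Equiv.Perm K))]
    have h3 : ∀ ρ : Equiv.Perm K, (g ∘ (Equiv.mulLeft (Equiv.ofFiberEquiv e : Equiv.Perm K) ρ) = f)
        ↔ f ∘ ρ = f := fun ρ => by
      rw [Equiv.coe_mulLeft, Equiv.Perm.coe_mul, ← Function.comp_assoc, ht]
    simp only [h3, h, if_true]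
    have h4 := DomMulAct.stabilizer_card f
    rw [Fintype.card_subtype] at h4
    rw [sum_boole, h4]
    push_cast
    exact prod_congr rfl fun v _ => by rw [Fintype.card_subtype, h]
  · rw [sum_eq_zero]
    · obtain ⟨v, hv⟩ := not_forall.1 h
      exact (prod_eq_zero (mem_univ v) (if_neg hv)).symm
    · intro σ _
      refine if_neg fun k => h fun v => ?_
      subst k
      exact card_bij (fun x _ => σ x) (by simp) (by simp) fun b hb =>
        ⟨σ.symm b, by simpa using hb, by simp⟩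

lemma gp_iss {Ω : Type} [Fintype Ω] {N : ℕ} {q y z : Ω → ℝ}
    (h : ∀ m n, m ≤ N → n ≤ N →
      ∑ o, q o * (y o ^ m * z o ^ n) = if m = n then (m.factorial : ℝ) else 0)
    {K V : Type} [Fintype K] [DecidableEq K] [Fintype V] [DecidableEq V]
    (hK : Fintype.card K ≤ N) (A B : K → V → ℝ) :
    ∑ ω : V → Ω, (∏ v, q (ω v)) *
        ((∏ x, ∑ v, A x v * y (ω v)) * ∏ x, ∑ v, B x v * z (ω v)) =
      ∑ σ : Equiv.Perm K, ∏ x, ∑ v, A x v * B (σ x) v := by
  have h1 : ∀ f g : K → V, ∑ ω : V → Ω, (∏ v, q (ω v)) *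
      ((∏ x, y (ω (f x))) * ∏ x, z (ω (g x))) =
      ∑ σ : Equiv.Perm K, (if g ∘ σ = f then (1 : ℝ) else 0) := fun f g => by
    rw [gp_cnt]
    have h2 : ∀ v, (if #{x | f x = v} = #{x | g x = v} then ((#{x | f x = v}).factorial : ℝ)
        else 0) = ∑ o, q o * (y o ^ #{x | f x = v} * z o ^ #{x | g x = v}) := fun v =>
      (h _ _ ((card_le_univ _).trans hK) ((card_le_univ _).trans hK)).symm
    simp only [h2]
    rw [Fintype.prod_sum]
    refine sum_congr rfl fun ω _ => ?_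
    rw [prod_mul_distrib, prod_mul_distrib, ← prod_fiberwise univ f, ← prod_fiberwise univ g]
    congr 2
    · refine prod_congr rfl fun v _ => ?_
      rw [← prod_const]
      exact prod_congr rfl fun x hx => by rw [(mem_filter.1 hx).2]
    · refine prod_congr rfl fun v _ => ?_
      rw [← prod_const]
      exact prod_congr rfl fun x hx => by rw [(mem_filter.1 hx).2]
  calc _ = ∑ ω : V → Ω, ∑ f : K → V, ∑ g : K → V, ((∏ x, A x (f x)) * ∏ x, B x (g x)) *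
        ((∏ v, q (ω v)) * ((∏ x, y (ω (f x))) * ∏ x, z (ω (g x)))) := by
        refine sum_congr rfl fun ω _ => ?_
        rw [Fintype.prod_sum, Fintype.prod_sum, sum_mul_sum, mul_sum]
        refine sum_congr rfl fun f _ => ?_
        rw [mul_sum]
        refine sum_congr rfl fun g _ => ?_
        rw [prod_mul_distrib, prod_mul_distrib]; ring
    _ = ∑ f : K → V, ∑ g : K → V, ∑ σ : Equiv.Perm K, ((∏ x, A x (f x)) * ∏ x, B x (g x)) *
        (if g ∘ σ = f then (1 : ℝ) else 0) := by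
        rw [sum_comm]
        refine sum_congr rfl fun f _ => ?_
        rw [sum_comm]
        refine sum_congr rfl fun g _ => ?_
        rw [← mul_sum, h1, mul_sum]
    _ = ∑ σ : Equiv.Perm K, ∑ g : K → V, ∑ f : K → V, ((∏ x, A x (f x)) * ∏ x, B x (g x)) *
        (if g ∘ σ = f then (1 : ℝ) else 0) := by
        rw [sum_comm]
        simp only [sum_comm (s := (univ : Finset (K → V))) (t := (univ : Finset (Equiv.Perm K)))]
    _ = _ := by
        refine sum_congr rfl fun σ _ => ?_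
        rw [Fintype.prod_sum]
        refine Eq.trans (sum_congr rfl fun g _ => ?_)
          (Equiv.sum_comp (Equiv.arrowCongr σ.symm (Equiv.refl V))
            fun f : K → V => ∏ x, A x (f x) * B (σ x) (f x))
        simp only [mul_ite, mul_one, mul_zero, sum_ite_eq, mem_univ, if_true, prod_mul_distrib]
        congr 1
        exact (Equiv.prod_comp σ fun x => B x (g x)).symm

lemma gp_one {Ω : Type} [Fintype Ω] {N : ℕ} {q y z : Ω → ℝ}
    (h : ∀ m n, m ≤ N → n ≤ N →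
      ∑ o, q o * (y o ^ m * z o ^ n) = if m = n then (m.factorial : ℝ) else 0)
    {n : ℕ} (hn : n ≤ N) (a b : ℝ) :
    ∑ o, q o * ((a + y o) * (b + z o)) ^ n = (Hp n).eval (a * b) := by
  calc _ = ∑ o, ∑ k ∈ range (n + 1), ∑ l ∈ range (n + 1),
        (a ^ k * n.choose k * (b ^ l * n.choose l)) * (q o * (y o ^ (n - k) * z o ^ (n - l))) := by
        refine sum_congr rfl fun o _ => ?_
        rw [mul_pow, add_pow, add_pow, sum_mul_sum, mul_sum]
        refine sum_congr rfl fun k _ => ?_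
        rw [mul_sum]
        exact sum_congr rfl fun l _ => by ring
    _ = _ := by
        rw [sum_comm, Hp, eval_finsetSum]
        refine sum_congr rfl fun k hk => ?_
        rw [sum_comm, sum_eq_single k]
        · rw [← mul_sum, h _ _ (by omega) (by omega), if_pos rfl]
          simp only [eval_mul, eval_C, eval_pow, eval_X]
          push_cast; ring
        · intro l hl hlk
          have := mem_range.1 hl
          have := mem_range.1 hk
          rw [← mul_sum, h _ _ (by omega) (by omega), if_neg (by omega), mul_zero]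
        · exact fun k' => (k' hk).elim

lemma Hp_natDegree (i : ℕ) : (Hp i).natDegree ≤ i :=
  natDegree_sum_le_of_forall_le _ _ fun k hk =>
    (natDegree_C_mul_X_pow_le _ _).trans (by have := mem_range.1 hk; omega)

lemma gp_two {Ω : Type} [Fintype Ω] {N : ℕ} {q y z : Ω → ℝ}
    (h : ∀ m n, m ≤ N → n ≤ N →
      ∑ o, q o * (y o ^ m * z o ^ n) = if m = n then (m.factorial : ℝ) else 0)
    {t t' : ℕ} (ht : t + t' ≤ N) :
    ∑ ω : Option Bool → Ω, (∏ v, q (ω v)) *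
      (((y (ω none) + y (ω (some false))) * (z (ω none) - z (ω (some false)))) ^ t *
        ((y (ω none) + y (ω (some true))) * (z (ω none) - z (ω (some true)))) ^ t') =
      if t = t' then (t.factorial : ℝ) * t.factorial else 0 := by
  have h1 := gp_iss h (K := Fin t ⊕ Fin t') (V := Option Bool) (by simpa using ht)
    (fun x v => if v = none then 1 else if v = some x.isRight then 1 else 0)
    (fun x v => if v = none then 1 else if v = some x.isRight then -1 else 0)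
  have h2 := gp_cnt (K := Fin t ⊕ Fin t') (fun x => !x.isRight) fun x => x.isRight
  have c1 : #{x : Fin t ⊕ Fin t' | x.isRight = true} = t' := by
    rw [card_filter, Fintype.sum_sum_type]; simp
  have c2 : #{x : Fin t ⊕ Fin t' | x.isRight = false} = t := by
    rw [card_filter, Fintype.sum_sum_type]; simp
  have h3 : ∀ σ : Equiv.Perm (Fin t ⊕ Fin t'), ∏ x, ∑ v : Option Bool,
      (if v = none then (1 : ℝ) else if v = some x.isRight then 1 else 0) *
        (if v = none then 1 else if v = some (σ x).isRight then -1 else 0) =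
      if (fun x => x.isRight) ∘ σ = fun x => !x.isRight then 1 else 0 := fun σ => by
    have h4 : ∀ b b' : Bool, ∑ v : Option Bool,
        (if v = none then (1 : ℝ) else if v = some b then 1 else 0) *
          (if v = none then 1 else if v = some b' then -1 else 0) =
        if b' = !b then 1 else 0 := by
      intro b b'
      cases b <;> cases b' <;> simp [Fintype.sum_option]
    simp only [h4]
    rw [prod_boole]
    simp [funext_iff]
  simp only [h3] at h1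
  rw [h2] at h1
  simp only [Fintype.prod_bool, Bool.not_eq_true', Bool.not_eq_false', c1, c2] at h1
  refine Eq.trans (sum_congr rfl fun ω _ => ?_) (h1.trans ?_)
  · simp only [Fintype.prod_sum_type, Fintype.sum_option, Fintype.sum_bool]
    simp only [mul_pow]
    congr 1
    simp
    ring
  · by_cases k : t = t'
    · subst k; simp
    · simp [k]

theorem perm_model {S K : Type} [Fintype S] [DecidableEq S] [Fintype K] [DecidableEq K] (π : ℝ)
    (c : K → S ⊕ S) {N : ℕ} (hN : Fintype.card K ≤ N) :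
    ∑ σ : Equiv.Perm K, ∏ x, Gm π (c (σ x)) (c x) = ∑ t ∈ range (N + 1),
      (t.factorial * π ^ t * (∏ s, Hp #{x | c x = .inl s}).coeff t) *
        (t.factorial * π ^ t * (∏ s, Hp #{x | c x = .inr s}).coeff t) := by
  obtain ⟨q, y, z, h⟩ := gp_meas (N + N)
  have h1 := gp_iss h (K := K) (V := (S ⊕ S) ⊕ Option Bool) (by omega)
    (fun x => Sum.elim (fun w => if w = c x then 1 else 0)
      fun v => if v = none then 1 else if v = some (c x).isRight then 1 else 0)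
    (fun x => Sum.elim (fun w => if w = c x then 1 else 0)
      fun v => if v = none then π else if v = some (c x).isRight then -π else 0)
  have h2 : ∀ a b : S ⊕ S, ∑ v : (S ⊕ S) ⊕ Option Bool,
      Sum.elim (fun w => if w = a then (1 : ℝ) else 0)
        (fun v => if v = none then 1 else if v = some a.isRight then 1 else 0) v *
      Sum.elim (fun w => if w = b then (1 : ℝ) else 0)
        (fun v => if v = none then π else if v = some b.isRight then -π else 0) v = Gm π b a := by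
    intro a b
    rw [Fintype.sum_sum_type]
    simp only [Sum.elim_inl, Sum.elim_inr, ite_mul, one_mul, zero_mul, sum_ite_eq', mem_univ,
      if_true]
    rcases a with a | a <;> rcases b with b | b <;> simp [Fintype.sum_option, Gm, eq_comm]
  simp only [h2] at h1
  rw [← h1, ← Equiv.sum_comp (Equiv.sumArrowEquivProdArrow _ _ _).symm, Fintype.sum_prod_type,
    sum_comm]
  have hd : ∀ g : S → S ⊕ S, Function.Injective g → (∏ s, Hp #{x | c x = g s}).natDegree < N + 1 :=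
    fun g hg => by
      refine Nat.lt_succ_of_le ((natDegree_prod_le _ _).trans
        ((sum_le_sum fun s _ => Hp_natDegree _).trans ?_))
      rw [← card_biUnion]
      · exact (card_le_univ _).trans hN
      · intro s _ s' _ hs
        rw [Function.onFun, disjoint_filter]
        exact fun x _ k k' => hs (hg (k.symm.trans k'))
  calc _ = ∑ ω : Option Bool → Fin (N + N + 1) × Fin (N + N + 1), (∏ v, q (ω v)) *
        ((∏ s, Hp #{x | c x = .inl s}).eval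
          ((y (ω none) + y (ω (some false))) * (π * (z (ω none) - z (ω (some false))))) *
        (∏ s, Hp #{x | c x = .inr s}).eval
          ((y (ω none) + y (ω (some true))) * (π * (z (ω none) - z (ω (some true)))))) := by
        refine sum_congr rfl fun ω _ => ?_
        have h3 : ∏ w : S ⊕ S, (Hp #{x | c x = w}).eval ((y (ω none) + y (ω (some w.isRight))) *
            (π * (z (ω none) - z (ω (some w.isRight))))) = _ := Fintype.prod_sum_type _
        rw [eval_prod, eval_prod]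
        simp only [Sum.isRight_inl, Sum.isRight_inr] at h3
        rw [← h3]
        have h4 : ∀ w : S ⊕ S, #{x | c x = w} ≤ N + N := fun w =>
          (card_le_univ _).trans (by omega)
        simp only [← gp_one h (h4 _)]
        rw [Fintype.prod_sum, mul_sum]
        refine sum_congr rfl fun η _ => ?_
        rw [Fintype.prod_sum_type, prod_mul_distrib, ← prod_mul_distrib (s := univ (α := K)),
          ← prod_fiberwise univ c]
        simp only [Equiv.sumArrowEquivProdArrow_symm_apply_inl,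
          Equiv.sumArrowEquivProdArrow_symm_apply_inr]
        rw [mul_comm (∏ w, q (η w)), mul_assoc]
        congr 2
        refine prod_congr rfl fun w _ => ?_
        rw [← prod_const]
        refine prod_congr rfl fun x hx => ?_
        rw [(mem_filter.1 hx).2]
        simp only [Fintype.sum_sum_type (α₁ := S ⊕ S), Sum.elim_inl, Sum.elim_inr, ite_mul, one_mul,
          zero_mul, sum_ite_eq', mem_univ, if_true, Equiv.sumArrowEquivProdArrow_symm_apply_inl,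
          Equiv.sumArrowEquivProdArrow_symm_apply_inr]
        cases w.isRight <;> simp [Fintype.sum_option] <;> ring
    _ = ∑ ω : Option Bool → Fin (N + N + 1) × Fin (N + N + 1), ∑ t ∈ range (N + 1),
        ∑ t' ∈ range (N + 1), ((∏ s, Hp #{x | c x = .inl s}).coeff t * π ^ t *
          ((∏ s, Hp #{x | c x = .inr s}).coeff t' * π ^ t')) * ((∏ v, q (ω v)) *
        (((y (ω none) + y (ω (some false))) * (z (ω none) - z (ω (some false)))) ^ t *
        ((y (ω none) + y (ω (some true))) * (z (ω none) - z (ω (some true)))) ^ t')) := by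
        refine sum_congr rfl fun ω _ => ?_
        rw [eval_eq_sum_range' (hd _ Sum.inl_injective), eval_eq_sum_range' (hd _ Sum.inr_injective),
          sum_mul_sum, mul_sum]
        refine sum_congr rfl fun t _ => ?_
        rw [mul_sum]
        exact sum_congr rfl fun t' _ => by simp only [mul_pow]; ring
    _ = _ := by
        rw [sum_comm]
        refine sum_congr rfl fun t ht => ?_
        have := mem_range.1 ht
        rw [sum_comm, sum_eq_single t]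
        · rw [← mul_sum, gp_two h (by omega), if_pos rfl]; ring
        · intro t' ht' k
          have := mem_range.1 ht'
          rw [← mul_sum, gp_two h (by omega), if_neg k.symm, mul_zero]
        · exact fun k => (k ht).elim

end Pool.Agent.Work.MP_4523ee_co.Fp
end

-- merged part: Pool.Agent.Work.MP_4523ee_co.Fp.GsA
section
/-!
The formal Gaussian model (paper section 7): a permanent with a block structure, and transfer
from monomials to products of polynomials.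
-/

set_option autoImplicit false
set_option linter.unusedSectionVars false

namespace Pool.Agent.Work.MP_4523ee_co.Fp

open Finset Polynomial
open scoped BigOperators Nat

/-- Wick ordering of `X ^ i` -/
noncomputable def qq (i : ℕ) : ℝ[X] :=
  ∑ j ∈ range (i + 1), C ((i.choose j : ℝ) ^ 2 * ((i - j)! : ℝ)) * X ^ j

noncomputable def Lq (h : ℝ[X]) : ℝ[X] := h.sum fun i c => C c * qq i

noncomputable def cT (π : ℝ) (P : ℝ[X]) (t : ℕ) : ℝ := (t ! : ℝ) * π ^ t * P.coeff t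

/-- sum of the absolute values of the coefficients -/
noncomputable def l1 (h : ℝ[X]) : ℝ := h.sum fun _ c => |c|

section
variable {S : Type} [Fintype S] [DecidableEq S]

def lab (i i' : S → ℕ) : (Σ s, Fin (i s)) ⊕ (Σ s, Fin (i' s)) → S ⊕ S :=
  Sum.map Sigma.fst Sigma.fst

/-- normalised model covariance -/
def Cm (π : ℝ) : S ⊕ S → S ⊕ S → ℝ
  | Sum.inl s, Sum.inl s' => if s = s' then 1 else 0
  | Sum.inr s, Sum.inr s' => if s = s' then 1 else 0
  | Sum.inl _, Sum.inr _ => π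
  | Sum.inr _, Sum.inl _ => π

theorem perm_formula (π : ℝ) (i i' : S → ℕ) (T : ℕ) (hT : ∑ s, i s < T) :
    ∑ σ : Equiv.Perm ((Σ s, Fin (i s)) ⊕ (Σ s, Fin (i' s))),
        ∏ x, Cm π (lab i i' (σ x)) (lab i i' x) =
      ∑ t ∈ range T, cT π (∏ s, qq (i s)) t * cT π (∏ s, qq (i' s)) t := by
  have e1 : qq = Hp := funext fun n => by
    unfold qq Hp
    exact sum_congr rfl fun j _ => by push_cast; rfl
  have e2 : Cm (S := S) π = Gm π := by
    funext a b
    rcases a with a | a <;> rcases b with b | b <;> rfl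
  have e3 : ∀ (j : S → ℕ) (s : S), ∑ x : (Σ s, Fin (j s)), (if x.1 = s then 1 else 0) = j s :=
    fun j s => by
      rw [Fintype.sum_sigma, sum_eq_single s] <;> simp +contextual
  have c1 : ∀ s, #{x | lab i i' x = .inl s} = i s := fun s => by
    rw [card_filter, Fintype.sum_sum_type]
    simp only [lab, Sum.map_inl, Sum.map_inr, Sum.inl.injEq, e3, reduceCtorEq, if_false,
      sum_const_zero, add_zero]
  have c2 : ∀ s, #{x | lab i i' x = .inr s} = i' s := fun s => by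
    rw [card_filter, Fintype.sum_sum_type]
    simp only [lab, Sum.map_inl, Sum.map_inr, Sum.inr.injEq, e3, reduceCtorEq, if_false,
      sum_const_zero, zero_add]
  rw [e2, perm_model π (lab i i') (Nat.le_add_right _ T), e1]
  simp only [c1, c2, cT]
  refine (sum_subset (range_subset_range.2 (by omega)) fun t _ ht => ?_).symm
  have h0 : (∏ s, Hp (i s)).natDegree < t :=
    ((natDegree_prod_le _ _).trans (sum_le_sum fun s _ => Hp_natDegree _)).trans_lt
      (hT.trans_le (not_lt.1 fun k => ht (mem_range.2 k)))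
  rw [coeff_eq_zero_of_natDegree_lt h0, mul_zero, zero_mul]

lemma gsaB_prod_close {K : Type} [DecidableEq K] (a b : K → ℂ) {δ : ℝ} (hδ : 0 ≤ δ)
    (hδ1 : δ ≤ 1) (hb : ∀ x, ‖b x‖ ≤ 1) (h : ∀ x, ‖a x - b x‖ ≤ δ) (s : Finset K) :
    ‖∏ x ∈ s, a x - ∏ x ∈ s, b x‖ ≤ (s.card : ℝ) * 2 ^ s.card * δ := by
  induction s using Finset.induction_on with
  | empty => simp
  | insert x s hx ih =>
    rw [Finset.prod_insert hx, Finset.prod_insert hx, Finset.card_insert_of_notMem hx]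
    have ha : ‖a x‖ ≤ 2 := by
      have e : a x = (a x - b x) + b x := by ring
      have := norm_add_le (a x - b x) (b x)
      rw [← e] at this
      linarith [h x, hb x]
    have hP : ‖∏ y ∈ s, b y‖ ≤ 1 := by
      rw [norm_prod]
      exact Finset.prod_le_one (fun y _ => norm_nonneg _) fun y _ => hb y
    have e : a x * ∏ y ∈ s, a y - b x * ∏ y ∈ s, b y =
        a x * (∏ y ∈ s, a y - ∏ y ∈ s, b y) + (a x - b x) * ∏ y ∈ s, b y := by ring
    rw [e]
    have h1 : ‖a x * (∏ y ∈ s, a y - ∏ y ∈ s, b y)‖ ≤ 2 * ((s.card : ℝ) * 2 ^ s.card * δ) := by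
      rw [norm_mul]
      exact mul_le_mul ha ih (norm_nonneg _) (by norm_num)
    have h2 : ‖(a x - b x) * ∏ y ∈ s, b y‖ ≤ δ * 1 := by
      rw [norm_mul]
      exact mul_le_mul (h x) hP (norm_nonneg _) hδ
    have h3 : (1 : ℝ) ≤ 2 ^ s.card := one_le_pow₀ (by norm_num)
    have h4 : δ ≤ 2 ^ s.card * δ := le_mul_of_one_le_left hδ h3
    refine (norm_add_le _ _).trans ?_
    push_cast
    rw [pow_succ]
    nlinarith [h1, h2, h4]

/-- the permanent is Lipschitz -/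
lemma perm_close {K : Type} [Fintype K] [DecidableEq K] (A B : K → K → ℂ) {δ : ℝ} (hδ : 0 ≤ δ)
    (hδ1 : δ ≤ 1) (hB : ∀ x y, ‖B x y‖ ≤ 1) (h : ∀ x y, ‖A x y - B x y‖ ≤ δ) :
    ‖∑ σ : Equiv.Perm K, ∏ x, A (σ x) x - ∑ σ : Equiv.Perm K, ∏ x, B (σ x) x‖ ≤
      (Fintype.card K)! * (Fintype.card K * 2 ^ Fintype.card K * δ) := by
  rw [← Finset.sum_sub_distrib]
  refine (norm_sum_le _ _).trans ?_
  refine (Finset.sum_le_sum (g := fun _ => (Fintype.card K : ℝ) * 2 ^ Fintype.card K * δ)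
    fun σ _ => ?_).trans ?_
  · exact gsaB_prod_close (fun x => A (σ x) x) (fun x => B (σ x) x) hδ hδ1 (fun x => hB _ _)
      (fun x => h _ _) Finset.univ
  · rw [Finset.sum_const, Finset.card_univ, Fintype.card_perm, nsmul_eq_mul]

lemma gsaB_prod_eval (h : S → ℝ[X]) (z : S → ℝ) :
    ∏ s, (h s).eval (z s) = ∑ i ∈ Fintype.piFinset fun s => (h s).support,
      (∏ s, (h s).coeff (i s)) * ∏ s, z s ^ i s := by
  simp_rw [Polynomial.eval_eq_sum, Polynomial.sum_def]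
  rw [Finset.prod_univ_sum]
  exact Finset.sum_congr rfl fun i _ => Finset.prod_mul_distrib

lemma gsaB_cT_prod (π : ℝ) (h : S → ℝ[X]) (t : ℕ) :
    cT π (∏ s, Lq (h s)) t = ∑ i ∈ Fintype.piFinset fun s => (h s).support,
      (∏ s, (h s).coeff (i s)) * cT π (∏ s, qq (i s)) t := by
  have e : ∏ s, Lq (h s) = ∑ i ∈ Fintype.piFinset fun s => (h s).support,
      C (∏ s, (h s).coeff (i s)) * ∏ s, qq (i s) := by
    simp_rw [Lq, Polynomial.sum_def]
    rw [Finset.prod_univ_sum]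
    refine Finset.sum_congr rfl fun i _ => ?_
    rw [Finset.prod_mul_distrib, map_prod]
  rw [e]
  unfold cT
  rw [Polynomial.finsetSum_coeff, Finset.mul_sum]
  refine Finset.sum_congr rfl fun i _ => ?_
  rw [Polynomial.coeff_C_mul]
  ring

lemma gsaB_prod_l1 (h : S → ℝ[X]) :
    ∏ s, l1 (h s) = ∑ i ∈ Fintype.piFinset fun s => (h s).support,
      |∏ s, (h s).coeff (i s)| := by
  simp_rw [l1, Polynomial.sum_def]
  rw [Finset.prod_univ_sum]
  exact Finset.sum_congr rfl fun i _ => (Finset.abs_prod _ _).symm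

theorem poly_transfer {Ω : Type} [Fintype Ω] (Z Z' : Ω → S → ℝ) (π δ : ℝ) (h h' : S → ℝ[X])
    (T : ℕ)
    (hm : ∀ i i' : S → ℕ, (∀ s, i s ≤ (h s).natDegree) → (∀ s, i' s ≤ (h' s).natDegree) →
      |𝔼 ω, (∏ s, Z ω s ^ i s) * ∏ s, Z' ω s ^ i' s -
        ∑ t ∈ range T, cT π (∏ s, qq (i s)) t * cT π (∏ s, qq (i' s)) t| ≤ δ) :
    |𝔼 ω, (∏ s, (h s).eval (Z ω s)) * ∏ s, (h' s).eval (Z' ω s) -
        ∑ t ∈ range T, cT π (∏ s, Lq (h s)) t * cT π (∏ s, Lq (h' s)) t| ≤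
      δ * ((∏ s, l1 (h s)) * ∏ s, l1 (h' s)) := by
  have hE : 𝔼 ω, (∏ s, (h s).eval (Z ω s)) * ∏ s, (h' s).eval (Z' ω s) =
      ∑ i ∈ Fintype.piFinset fun s => (h s).support,
        ∑ i' ∈ Fintype.piFinset fun s => (h' s).support,
          ((∏ s, (h s).coeff (i s)) * ∏ s, (h' s).coeff (i' s)) *
            𝔼 ω, (∏ s, Z ω s ^ i s) * ∏ s, Z' ω s ^ i' s := by
    simp_rw [gsaB_prod_eval, Finset.sum_mul_sum, Finset.expect_sum_comm, Finset.mul_expect]
    refine Finset.sum_congr rfl fun i _ => Finset.sum_congr rfl fun i' _ =>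
      Finset.expect_congr rfl fun ω _ => by ring
  have hC : ∑ t ∈ range T, cT π (∏ s, Lq (h s)) t * cT π (∏ s, Lq (h' s)) t =
      ∑ i ∈ Fintype.piFinset fun s => (h s).support,
        ∑ i' ∈ Fintype.piFinset fun s => (h' s).support,
          ((∏ s, (h s).coeff (i s)) * ∏ s, (h' s).coeff (i' s)) *
            ∑ t ∈ range T, cT π (∏ s, qq (i s)) t * cT π (∏ s, qq (i' s)) t := by
    simp_rw [gsaB_cT_prod, Finset.sum_mul_sum]
    rw [Finset.sum_comm]
    refine Finset.sum_congr rfl fun i _ => ?_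
    rw [Finset.sum_comm]
    refine Finset.sum_congr rfl fun i' _ => ?_
    rw [Finset.mul_sum]
    refine Finset.sum_congr rfl fun t _ => by ring
  rw [hE, hC, ← Finset.sum_sub_distrib, gsaB_prod_l1, gsaB_prod_l1, Finset.sum_mul_sum,
    Finset.mul_sum]
  refine (Finset.abs_sum_le_sum_abs _ _).trans (Finset.sum_le_sum fun i hi => ?_)
  rw [← Finset.sum_sub_distrib, Finset.mul_sum]
  refine (Finset.abs_sum_le_sum_abs _ _).trans (Finset.sum_le_sum fun i' hi' => ?_)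
  rw [← mul_sub, abs_mul, abs_mul, mul_comm δ]
  refine mul_le_mul_of_nonneg_left (hm i i' (fun s => ?_) fun s => ?_) (by positivity)
  · exact Polynomial.le_natDegree_of_mem_supp _ (Fintype.mem_piFinset.1 hi s)
  · exact Polynomial.le_natDegree_of_mem_supp _ (Fintype.mem_piFinset.1 hi' s)

end

lemma Lq_one : Lq 1 = 1 := by
  have h : (1 : ℝ[X]) = monomial 0 1 := rfl
  unfold Lq
  rw [h, Polynomial.sum_monomial_index _ _ (by simp)]
  simp [qq]

end Pool.Agent.Work.MP_4523ee_co.Fp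
end

-- merged part: Pool.Agent.Work.MP_4523ee_co.Fp.GsB
section
/-!
Choice of the polynomial weight (paper section 7). Class D(lam, del): coefficient t bounded by
del * lam ^ t / t!; the product of D(lam, del) and D(mu, eps) lies in D(lam + mu, del * eps).
Lq hh = 1 + h1 X + h2 X ^ 2 with h1 = -(2t - 4t^2)/Z, h2 = t^2/Z, t = 1/100, Z = 4901/5000.
h0 = sum over k ≤ K of (1 - k0) k0 ^ k X ^ k / k!, k0 = g / (1 + g), g = -h1 (1 - π) / π; coefficient
j of Lq h0 is the sum of (1 - k0) k0 ^ k choose k j / j!, increasing to g ^ j / j!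
(`hasSum_choose_mul_geometric_of_norm_lt_one`).
-/

set_option autoImplicit false
set_option linter.unusedSectionVars false

namespace Pool.Agent.Work.MP_4523ee_co.Fp

open Finset Polynomial
open scoped BigOperators Nat

noncomputable def hh : ℝ[X] := C (5000 / 4901 : ℝ) * (1 - C (1 / 100 : ℝ) * X) ^ 2

lemma hh_nonneg (x : ℝ) : 0 ≤ hh.eval x := by
  simp only [hh, eval_mul, eval_C, eval_pow]
  positivity

lemma hh_natDegree : hh.natDegree ≤ 2 := by
  unfold hh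
  compute_degree

noncomputable def gbE (a : ℝ) : PowerSeries ℝ := PowerSeries.rescale a (PowerSeries.exp ℝ)

lemma gbE_coeff (a : ℝ) (t : ℕ) : PowerSeries.coeff t (gbE a) = a ^ t / t ! := by
  simp [gbE, PowerSeries.coeff_rescale, div_eq_mul_inv]

lemma gbE_mul (a b : ℝ) : gbE a * gbE b = gbE (a + b) := PowerSeries.exp_mul_exp_eq_exp_add a b

lemma gbE_zero : gbE 0 = 1 := by simp [gbE]

/-- The domination class. -/
def gbD (l d : ℝ) (f : PowerSeries ℝ) : Prop :=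
  ∀ t, |PowerSeries.coeff t f| ≤ d * (l ^ t / t !)

lemma gbD_mul {l l' d d' : ℝ} {f g : PowerSeries ℝ} (hf : gbD l d f) (hg : gbD l' d' g) :
    gbD (l + l') (d * d') (f * g) := by
  intro t
  rw [PowerSeries.coeff_mul, ← gbE_coeff, ← gbE_mul, PowerSeries.coeff_mul, mul_sum]
  refine (abs_sum_le_sum_abs _ _).trans (sum_le_sum fun p _ => ?_)
  rw [abs_mul, gbE_coeff, gbE_coeff]
  calc _ ≤ (d * (l ^ p.1 / p.1 !)) * (d' * (l' ^ p.2 / p.2 !)) :=
        mul_le_mul (hf _) (hg _) (abs_nonneg _) ((abs_nonneg _).trans (hf _))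
    _ = _ := by ring

lemma gbD_add {l d d' : ℝ} {f g : PowerSeries ℝ} (hf : gbD l d f) (hg : gbD l d' g) :
    gbD l (d + d') (f + g) := by
  intro t
  rw [map_add, add_mul]
  exact (abs_add_le _ _).trans (add_le_add (hf t) (hg t))

lemma gbD_sub {l d d' : ℝ} {f g : PowerSeries ℝ} (hf : gbD l d f) (hg : gbD l d' g) :
    gbD l (d + d') (f - g) := by
  intro t
  rw [map_sub, add_mul]
  exact (abs_sub _ _).trans (add_le_add (hf t) (hg t))

lemma gbD_mono {l l' d d' : ℝ} {f : PowerSeries ℝ} (hf : gbD l d f) (h0 : 0 ≤ l) (hl : l ≤ l')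
    (hd0 : 0 ≤ d) (hd : d ≤ d') : gbD l' d' f := by
  intro t
  refine (hf t).trans ?_
  have : 0 ≤ d' := hd0.trans hd
  gcongr

lemma gbD_E {a b : ℝ} (h : |b| ≤ a) : gbD a 1 (gbE b) := by
  intro t
  rw [gbE_coeff, abs_div, abs_pow, one_mul, Nat.abs_cast]
  gcongr

lemma gbD_pow {a : ℝ} {H : PowerSeries ℝ} (h : gbD a 1 H) (m : ℕ) : gbD (m * a) 1 (H ^ m) := by
  induction m with
  | zero =>
    rw [pow_zero, ← gbE_zero]
    exact gbD_E (by simp)
  | succ m ih =>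
    have := gbD_mul ih h
    rw [pow_succ, Nat.cast_succ, add_mul, one_mul]
    rwa [one_mul] at this

lemma gbD_tele {a l d : ℝ} {H : PowerSeries ℝ} (ha : 0 ≤ a) (hl : 0 ≤ l) (hd : 0 ≤ d)
    (h : gbD a 1 H) (h' : gbD l d (H - gbE (-a))) (m : ℕ) :
    gbD (l + m * a) (m * d) (H ^ m - gbE (-(m * a))) := by
  induction m with
  | zero =>
    intro t
    simp [gbE_zero]
  | succ m ih =>
    have e1 : gbE (-((m + 1 : ℕ) * a)) = gbE (-a) * gbE (-(m * a)) := by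
      rw [gbE_mul]
      congr 1
      push_cast
      ring
    have e2 : H ^ (m + 1) - gbE (-((m + 1 : ℕ) * a)) =
        (H ^ m - gbE (-(m * a))) * H + (H - gbE (-a)) * gbE (-(m * a)) := by
      rw [e1]
      ring
    have hma : 0 ≤ (m : ℝ) * a := by positivity
    have a1 := gbD_mul ih h
    have a2 := gbD_mul h' (gbD_E (a := m * a) (b := -(m * a)) (by rw [abs_neg, abs_of_nonneg hma]))
    have a3 := gbD_add a1 (gbD_mono a2 (by positivity) (le_add_of_nonneg_right ha)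
      (by positivity) le_rfl)
    rw [e2]
    refine gbD_mono a3 (by positivity) (le_of_eq ?_) (by positivity) (le_of_eq ?_)
    · push_cast
      ring
    · push_cast
      ring

lemma gb_Lq_add (p q : ℝ[X]) : Lq (p + q) = Lq p + Lq q :=
  Polynomial.sum_add_index p q _ (fun i => by simp) fun i b c => by rw [C_add, add_mul]

lemma gb_Lq_monomial (i : ℕ) (c : ℝ) : Lq (monomial i c) = C c * qq i :=
  Polynomial.sum_monomial_index c _ (by simp)

lemma gb_Lq_sum (s : Finset ℕ) (f : ℕ → ℝ[X]) : Lq (∑ k ∈ s, f k) = ∑ k ∈ s, Lq (f k) := by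
  induction s using Finset.induction_on with
  | empty => simp [Lq]
  | insert k s hk ih => rw [sum_insert hk, sum_insert hk, gb_Lq_add, ih]

lemma gb_qq_coeff (i j : ℕ) : (qq i).coeff j = (i.choose j : ℝ) ^ 2 * ((i - j)! : ℝ) := by
  simp only [qq, finsetSum_coeff, coeff_C_mul_X_pow]
  rw [sum_ite_eq]
  split_ifs with h
  · rfl
  · rw [Nat.choose_eq_zero_of_lt (by simpa using h)]
    simp

lemma gb_qq_coeff' (i j : ℕ) : (qq i).coeff j = (i ! : ℝ) * (i.choose j / j !) := by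
  rw [gb_qq_coeff]
  rcases le_or_gt j i with h | h
  · have h1 : ((i.choose j * j ! * (i - j)! : ℕ) : ℝ) = i ! := by
      rw [Nat.choose_mul_factorial_mul_factorial h]
    have h2 : (j ! : ℝ) ≠ 0 := by positivity
    rw [← h1]
    push_cast
    field_simp
  · rw [Nat.choose_eq_zero_of_lt h]
    simp

lemma gb_hh_eq : hh = monomial 0 (5000 / 4901 : ℝ) + monomial 1 (-(100 / 4901) : ℝ) +
    monomial 2 (1 / 9802 : ℝ) := by
  refine Polynomial.funext fun x => ?_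
  simp only [hh, eval_mul, eval_C, eval_pow, eval_sub, eval_one, eval_X, eval_add, eval_monomial]
  ring

lemma gb_H_coeff (j : ℕ) : (Lq hh).coeff j =
    if j = 0 then 1 else if j = 1 then -(98 / 4901) else if j = 2 then 1 / 9802 else 0 := by
  rw [gb_hh_eq, gb_Lq_add, gb_Lq_add, gb_Lq_monomial, gb_Lq_monomial, gb_Lq_monomial]
  simp only [coeff_add, coeff_C_mul, gb_qq_coeff]
  match j with
  | 0 => norm_num [Nat.factorial]
  | 1 => norm_num [Nat.factorial]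
  | 2 => norm_num [Nat.factorial]
  | j + 3 =>
    rw [Nat.choose_eq_zero_of_lt (by omega), Nat.choose_eq_zero_of_lt (by omega),
      Nat.choose_eq_zero_of_lt (by omega)]
    simp

lemma gb_H_dom : gbD (98 / 4901) 1 (Lq hh : PowerSeries ℝ) := by
  intro t
  rw [coeff_coe, gb_H_coeff]
  match t with
  | 0 => norm_num
  | 1 => norm_num [abs_of_pos]
  | 2 => norm_num [Nat.factorial, abs_of_pos]
  | j + 3 =>
    rw [if_neg (by omega), if_neg (by omega), if_neg (by omega), abs_zero]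
    positivity

lemma gb_H_sub {l : ℝ} (hl : 1 ≤ l) :
    gbD l ((98 / 4901 / l) ^ 2) ((Lq hh : PowerSeries ℝ) - gbE (-(98 / 4901))) := by
  intro t
  have hl0 : 0 < l := by linarith
  rw [map_sub, coeff_coe, gb_H_coeff, gbE_coeff]
  match t with
  | 0 =>
    simp only [if_true, pow_zero, Nat.factorial_zero, Nat.cast_one, div_one, sub_self, abs_zero]
    positivity
  | 1 =>
    simp only [if_true, one_ne_zero, if_false, pow_one, Nat.factorial_one, Nat.cast_one, div_one,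
      sub_self, abs_zero]
    positivity
  | 2 =>
    have e : (98 / 4901 / l) ^ 2 * (l ^ 2 / (2 ! : ℕ)) = (98 / 4901) ^ 2 / 2 := by
      rw [Nat.factorial_two, Nat.cast_ofNat]
      field_simp
    rw [e, abs_le]
    norm_num [Nat.factorial]
  | j + 3 =>
    rw [if_neg (by omega), if_neg (by omega), if_neg (by omega), zero_sub, abs_neg, abs_div,
      abs_pow, abs_neg, Nat.abs_cast, abs_of_pos (by norm_num), ← mul_div_assoc]
    gcongr
    have e : (98 / 4901 / l) ^ 2 * l ^ (j + 3) = (98 / 4901) ^ 2 * l ^ (j + 1) := by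
      field_simp
      ring
    rw [e, show j + 3 = 2 + (j + 1) by ring, pow_add]
    gcongr
    linarith

lemma gb_hasSum {g : ℝ} (hg : 0 ≤ g) (j : ℕ) :
    HasSum (fun k : ℕ => 1 / (1 + g) * (g / (1 + g)) ^ k * (k.choose j : ℝ)) (g ^ j) := by
  have h0 : 0 < 1 + g := by linarith
  have hr : ‖g / (1 + g)‖ < 1 := by
    rw [Real.norm_eq_abs, abs_of_nonneg (by positivity), div_lt_one h0]
    linarith
  have h1 := (hasSum_choose_mul_geometric_of_norm_lt_one j hr).mul_left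
    (1 / (1 + g) * (g / (1 + g)) ^ j)
  rw [← hasSum_nat_add_iff' j]
  have e1 : ∑ i ∈ range j, 1 / (1 + g) * (g / (1 + g)) ^ i * (i.choose j : ℝ) = 0 :=
    sum_eq_zero fun i hi => by
      rw [Nat.choose_eq_zero_of_lt (mem_range.1 hi)]
      simp
  have e2 : 1 - g / (1 + g) = 1 / (1 + g) := by
    field_simp
    ring
  have e3 : 1 / (1 + g) * (g / (1 + g)) ^ j * (1 / (1 - g / (1 + g)) ^ (j + 1)) = g ^ j := by
    rw [e2, div_pow, div_pow, one_pow, pow_succ]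
    field_simp
  rw [e1, sub_zero, ← e3]
  have e4 : (fun n : ℕ => 1 / (1 + g) * (g / (1 + g)) ^ (n + j) * ((n + j).choose j : ℝ)) =
      fun n : ℕ => 1 / (1 + g) * (g / (1 + g)) ^ j *
        (((n + j).choose j : ℝ) * (g / (1 + g)) ^ n) := by
    funext n
    ring
  rw [e4]
  exact h1

lemma gb_trunc {g l d : ℝ} (hg : 0 ≤ g) (hl : 1 ≤ l) (hgl : g ≤ l * (1 / 5)) (hd : 0 < d) :
    ∃ K : ℕ, ∀ j : ℕ,
      |g ^ j - ∑ k ∈ range K, 1 / (1 + g) * (g / (1 + g)) ^ k * (k.choose j : ℝ)| ≤ d * l ^ j := by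
  obtain ⟨j0, hj0⟩ := exists_pow_lt_of_lt_one hd (show (1 / 5 : ℝ) < 1 by norm_num)
  have h1 : ∀ᶠ K : ℕ in Filter.atTop, ∀ j ∈ range j0,
      g ^ j - d < ∑ k ∈ range K, 1 / (1 + g) * (g / (1 + g)) ^ k * (k.choose j : ℝ) := by
    rw [Filter.eventually_all_finset]
    intro j _
    exact (gb_hasSum hg j).tendsto_sum_nat.eventually (lt_mem_nhds (by linarith))
  obtain ⟨K, hK⟩ := h1.exists
  refine ⟨K, fun j => ?_⟩
  have h2 : ∑ k ∈ range K, 1 / (1 + g) * (g / (1 + g)) ^ k * (k.choose j : ℝ) ≤ g ^ j :=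
    sum_le_hasSum _ (fun k _ => by positivity) (gb_hasSum hg j)
  have h3 : 0 ≤ ∑ k ∈ range K, 1 / (1 + g) * (g / (1 + g)) ^ k * (k.choose j : ℝ) :=
    sum_nonneg fun k _ => by positivity
  rw [abs_of_nonneg (by linarith)]
  have h4 : 1 ≤ l ^ j := one_le_pow₀ hl
  rcases lt_or_ge j j0 with h | h
  · have := hK j (mem_range.2 h)
    nlinarith
  · have h5 : g ^ j ≤ (l * (1 / 5)) ^ j := by gcongr
    have h6 : (1 / 5 : ℝ) ^ j ≤ (1 / 5) ^ j0 := pow_le_pow_of_le_one (by norm_num) (by norm_num) h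
    rw [mul_pow] at h5
    nlinarith

lemma gb_sq_sum {c : ℕ → ℝ} {d : ℝ} (hd0 : 0 ≤ d) (hd : d ≤ 1)
    (h : ∀ t, |c t - if t = 0 then 1 else 0| ≤ d * (1 / 2) ^ t) (T : ℕ) :
    ∑ t ∈ range T, c t ^ 2 ≤ 1 + 4 * d := by
  have h1 : ∀ t, c t ^ 2 ≤ (if t = 0 then 1 + 2 * d else 0) + d * (1 / 2) ^ t := by
    intro t
    have h2 := h t
    split_ifs at h2 ⊢ with ht
    · subst ht
      rw [pow_zero, mul_one] at h2 ⊢
      have := abs_le.1 h2
      nlinarith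
    · rw [sub_zero] at h2
      have h3 : (1 / 2 : ℝ) ^ t ≤ 1 := pow_le_one₀ (by norm_num) (by norm_num)
      have h4 : d * (1 / 2 : ℝ) ^ t ≤ 1 := mul_le_one₀ hd (by positivity) h3
      have h5 : c t ^ 2 = |c t| * |c t| := by rw [abs_mul_abs_self, sq]
      have h6 := abs_nonneg (c t)
      nlinarith
  refine (sum_le_sum fun t _ => h1 t).trans ?_
  rw [sum_add_distrib, ← mul_sum, sum_ite_eq']
  have h2 : ∑ t ∈ range T, (1 / 2 : ℝ) ^ t ≤ 2 := sum_geometric_two_le T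
  have h3 : (if 0 ∈ range T then 1 + 2 * d else 0) ≤ 1 + 2 * d := by
    split_ifs
    · exact le_rfl
    · positivity
  nlinarith

theorem weight_choice (ε : ℝ) (hε : 0 < ε) : ∃ m0 : ℕ, ∀ m : ℕ, m0 ≤ m → ∃ h0 : ℝ[X],
    (∀ x, 0 ≤ x → 0 ≤ h0.eval x) ∧
    |cT ((m : ℝ) + 1)⁻¹ (Lq h0 * Lq hh ^ m) 0 - 1| ≤ ε ∧
    (∀ T, ∑ t ∈ range T, cT ((m : ℝ) + 1)⁻¹ (Lq h0 * Lq hh ^ m) t ^ 2 ≤ 1 + ε) ∧
    1 / 100 - ε ≤ ((m : ℝ) + 1)⁻¹ * cT ((m : ℝ) + 1)⁻¹ (Lq (X * h0) * Lq hh ^ m) 0 := by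
  obtain ⟨d, hd0, hd1, hd2⟩ : ∃ d : ℝ, 0 < d ∧ 8 * d ≤ ε ∧ 8 * d ≤ 1 :=
    ⟨min ε 1 / 8, by positivity, by linarith [min_le_left ε 1], by linarith [min_le_right ε 1]⟩
  obtain ⟨m1, hm1⟩ := exists_nat_ge (1 / d)
  refine ⟨m1 + 9, fun m hm => ?_⟩
  have hm' : (m1 : ℝ) + 9 ≤ m := by exact_mod_cast hm
  have hm10 : (0 : ℝ) ≤ m1 := Nat.cast_nonneg _
  have hm9 : (9 : ℝ) ≤ m := by linarith
  have hmd : 1 ≤ d * m := by
    rw [div_le_iff₀ hd0] at hm1
    nlinarith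
  obtain ⟨l, hl⟩ : ∃ l : ℝ, l = ((m : ℝ) + 1) / 10 := ⟨_, rfl⟩
  obtain ⟨g, hg⟩ : ∃ g : ℝ, g = (m : ℝ) * (98 / 4901) := ⟨_, rfl⟩
  have hl1 : 1 ≤ l := by linarith
  have hg0 : 0 ≤ g := by linarith
  obtain ⟨K, hK⟩ := gb_trunc hg0 hl1 (by linarith) hd0
  obtain ⟨w, hw⟩ : ∃ w : ℕ → ℝ, w = fun k => 1 / (1 + g) * (g / (1 + g)) ^ k := ⟨_, rfl⟩
  have hw0 : ∀ k, 0 ≤ w k := fun k => by
    rw [hw]
    positivity
  have hK' : ∀ j : ℕ, |g ^ j - ∑ k ∈ range K, w k * (k.choose j : ℝ)| ≤ d * l ^ j := by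
    rw [hw]
    exact hK
  have hf : ∀ k : ℕ, (k ! : ℝ) ≠ 0 := fun k => by positivity
  obtain ⟨h0, hh0⟩ : ∃ h0 : ℝ[X], h0 = ∑ k ∈ range K, monomial k (w k / k !) := ⟨_, rfl⟩
  have c1 : ∀ j, (Lq h0).coeff j = (∑ k ∈ range K, w k * (k.choose j : ℝ)) / j ! := by
    intro j
    rw [hh0, gb_Lq_sum, finsetSum_coeff, sum_div]
    refine sum_congr rfl fun k _ => ?_
    rw [gb_Lq_monomial, coeff_C_mul, gb_qq_coeff']
    have := hf k
    have := hf j
    field_simp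
  have c2 : ∑ k ∈ range K, w k * (k.choose 1 : ℝ) ≤ (Lq (X * h0)).coeff 0 := by
    rw [hh0, mul_sum, gb_Lq_sum, finsetSum_coeff]
    refine sum_le_sum fun k _ => ?_
    rw [X_mul_monomial, gb_Lq_monomial, coeff_C_mul, gb_qq_coeff', Nat.factorial_succ]
    have e : w k / k ! * (((k + 1) * k ! : ℕ) * (((k + 1).choose 0 : ℕ) / (0 ! : ℕ) : ℝ)) =
        w k * (k + 1) := by
      have := hf k
      simp only [Nat.choose_zero_right, Nat.factorial_zero, Nat.cast_one, div_one, mul_one]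
      push_cast
      field_simp
    rw [e, Nat.choose_one_right]
    have := hw0 k
    nlinarith
  have dR : gbD l d (gbE g - (Lq h0 : PowerSeries ℝ)) := by
    intro t
    rw [map_sub, coeff_coe, gbE_coeff, c1, ← sub_div, abs_div, Nat.abs_cast, ← mul_div_assoc]
    gcongr
    exact hK' t
  have dS := gbD_tele (by norm_num) (by linarith) (by positivity) gb_H_dom (gb_H_sub hl1) m
  have dP := gbD_pow gb_H_dom m
  rw [← hg] at dS dP
  have hsm : (m : ℝ) * (98 / 4901 / l) ^ 2 ≤ d := by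
    have hl0 : 0 < l := by linarith
    rw [div_pow, ← mul_div_assoc, div_le_iff₀ (by positivity), hl]
    nlinarith
  have d1 := gbD_mul (gbD_E (a := g) (b := g) (abs_of_nonneg hg0).le) dS
  have d2 := gbD_mul dR dP
  have d3 := gbD_sub (gbD_mono d1 (by positivity) le_rfl (by positivity)
    (show _ ≤ d by rwa [one_mul])) (gbD_mono d2 (by positivity)
    (show l + g ≤ g + (l + g) by linarith) (by positivity) (mul_one d).le)
  have e1 : gbE g * ((Lq hh : PowerSeries ℝ) ^ m - gbE (-g)) -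
      (gbE g - (Lq h0 : PowerSeries ℝ)) * (Lq hh : PowerSeries ℝ) ^ m =
      ((Lq h0 * Lq hh ^ m : ℝ[X]) : PowerSeries ℝ) - 1 := by
    have : gbE g * gbE (-g) = 1 := by rw [gbE_mul, add_neg_cancel, gbE_zero]
    rw [Polynomial.coe_mul, Polynomial.coe_pow, ← this]
    ring
  rw [e1] at d3
  have hm0 : (0 : ℝ) < (m : ℝ) + 1 := by positivity
  have key : ∀ t, |cT ((m : ℝ) + 1)⁻¹ (Lq h0 * Lq hh ^ m) t - if t = 0 then 1 else 0| ≤
      (d + d) * (1 / 2) ^ t := by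
    intro t
    have a1 := d3 t
    rw [map_sub, coeff_coe, PowerSeries.coeff_one] at a1
    have a2 : cT ((m : ℝ) + 1)⁻¹ (Lq h0 * Lq hh ^ m) t - (if t = 0 then 1 else 0) =
        (t ! : ℝ) * ((m : ℝ) + 1)⁻¹ ^ t *
          ((Lq h0 * Lq hh ^ m).coeff t - if t = 0 then 1 else 0) := by
      unfold cT
      split_ifs with ht
      · subst ht
        simp
      · ring
    have a3 : ((m : ℝ) + 1)⁻¹ * (g + (l + g)) ≤ 1 / 2 := by
      rw [inv_mul_le_iff₀ hm0]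
      linarith
    rw [a2, abs_mul, abs_of_nonneg (by positivity)]
    calc _ ≤ (t ! : ℝ) * ((m : ℝ) + 1)⁻¹ ^ t * ((d + d) * ((g + (l + g)) ^ t / t !)) := by gcongr
      _ = (d + d) * (((m : ℝ) + 1)⁻¹ * (g + (l + g))) ^ t := by
        have := hf t
        rw [mul_pow]
        field_simp
      _ ≤ (d + d) * (1 / 2) ^ t := by gcongr
  refine ⟨h0, fun x hx => ?_, ?_, fun T => ?_, ?_⟩
  · rw [hh0, eval_finsetSum]
    refine sum_nonneg fun k _ => ?_
    rw [eval_monomial]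
    have := hw0 k
    positivity
  · have := key 0
    rw [if_pos rfl, pow_zero, mul_one] at this
    linarith
  · have := gb_sq_sum (by linarith) (by linarith) key T
    linarith
  · have a1 : cT ((m : ℝ) + 1)⁻¹ (Lq (X * h0) * Lq hh ^ m) 0 = (Lq (X * h0)).coeff 0 := by
      have : (Lq hh ^ m).coeff 0 = 1 := by
        rw [coeff_zero_eq_eval_zero, eval_pow, ← coeff_zero_eq_eval_zero, gb_H_coeff, if_pos rfl,
          one_pow]
      simp only [cT, Nat.factorial_zero, Nat.cast_one, pow_zero, one_mul, mul_coeff_zero, this,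
        mul_one]
    have a2 := (abs_le.1 (hK' 1)).2
    rw [pow_one, pow_one] at a2
    rw [a1, le_inv_mul_iff₀ hm0]
    nlinarith

end Pool.Agent.Work.MP_4523ee_co.Fp
end

-- merged part: Pool.Agent.Work.MP_4523ee_co.Fp.GT
section
/-!
The Gaussian tile (paper section 7).
-/

set_option autoImplicit false
set_option linter.unusedSectionVars false

namespace Pool.Agent.Work.MP_4523ee_co.Fp

open Finset Matrix
open scoped BigOperators ComplexConjugate Nat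

variable {p : ℕ} [Fact p.Prime]

lemma gt_small (A η : ℝ) (hη : 0 < η) : ∃ δ : ℝ, 0 < δ ∧ δ ≤ 1 ∧ A * δ ≤ η := by
  have h1 : 0 < |A| + 1 := by positivity
  refine ⟨min 1 (η / (|A| + 1)), lt_min one_pos (div_pos hη h1), min_le_left _ _, ?_⟩
  have h2 : min 1 (η / (|A| + 1)) ≤ η / (|A| + 1) := min_le_right _ _
  have h3 : 0 < min 1 (η / (|A| + 1)) := lt_min one_pos (div_pos hη h1)
  rw [le_div_iff₀ h1] at h2
  nlinarith [le_abs_self A]

section model
variable {S : Type} [Fintype S] [DecidableEq S] {Ω : Type} [Fintype Ω]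

/-- the Wick formula up to order `n` with error `c` -/
def GtW (n : ℕ) (c : ℝ) (F : S ⊕ S → Ω → ℂ) (G : S ⊕ S → S ⊕ S → ℂ) : Prop :=
  ∀ i i' : S → ℕ, ∑ s, i s + ∑ s, i' s ≤ n →
    ‖𝔼 ω, ∏ x, (F (lab i i' x) ω * conj (F (lab i i' x) ω)) -
      ∑ σ : Equiv.Perm ((Σ s, Fin (i s)) ⊕ (Σ s, Fin (i' s))),
        ∏ x, G (lab i i' (σ x)) (lab i i' x)‖ ≤ c

lemma gt_card (i i' : S → ℕ) :
    Fintype.card ((Σ s, Fin (i s)) ⊕ (Σ s, Fin (i' s))) = ∑ s, i s + ∑ s, i' s := by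
  simp only [Fintype.card_sum, Fintype.card_sigma, Fintype.card_fin]

lemma gt_prod_lab (i i' : S → ℕ) (f : S ⊕ S → ℝ) :
    ∏ x, f (lab i i' x) = (∏ s, f (Sum.inl s) ^ i s) * ∏ s, f (Sum.inr s) ^ i' s := by
  rw [Fintype.prod_sum_type, Fintype.prod_sigma, Fintype.prod_sigma]
  simp only [lab, Sum.map_inl, Sum.map_inr, prod_const, card_univ, Fintype.card_fin]

lemma gt_mom {n : ℕ} {c N : ℝ} {F : S ⊕ S → Ω → ℂ} {G : S ⊕ S → S ⊕ S → ℂ} (h : GtW n c F G)
    (hN : 1 ≤ N) (i i' : S → ℕ) (hi : ∑ s, i s + ∑ s, i' s ≤ n) :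
    ‖((𝔼 ω, (∏ s, (N * ‖F (Sum.inl s) ω‖ ^ 2) ^ i s) * ∏ s, (N * ‖F (Sum.inr s) ω‖ ^ 2) ^ i' s :
      ℝ) : ℂ) - ∑ σ : Equiv.Perm ((Σ s, Fin (i s)) ⊕ (Σ s, Fin (i' s))),
        ∏ x, (N * G (lab i i' (σ x)) (lab i i' x))‖ ≤ N ^ n * c := by
  have h1 := h i i' hi
  have h2 : ((𝔼 ω, (∏ s, (N * ‖F (Sum.inl s) ω‖ ^ 2) ^ i s) *
      ∏ s, (N * ‖F (Sum.inr s) ω‖ ^ 2) ^ i' s : ℝ) : ℂ) = (N : ℂ) ^ (∑ s, i s + ∑ s, i' s) *
      𝔼 ω, ∏ x, (F (lab i i' x) ω * conj (F (lab i i' x) ω)) := by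
    rw [Complex.ofReal_expect, mul_expect]
    refine expect_congr rfl fun ω _ => ?_
    rw [← gt_prod_lab i i' fun y => N * ‖F y ω‖ ^ 2, prod_mul_distrib, prod_const, card_univ,
      gt_card]
    push_cast
    simp only [Complex.mul_conj']
  simp only [prod_mul_distrib (f := fun _ => (N : ℂ)), prod_const, card_univ, gt_card]
  rw [h2, ← mul_sum, ← mul_sub, norm_mul, norm_pow, Complex.norm_real,
    Real.norm_of_nonneg (zero_le_one.trans hN)]
  exact mul_le_mul (pow_le_pow_right₀ hN hi) h1 (norm_nonneg _) (by positivity)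

lemma gt_all {n : ℕ} {c N : ℝ} {F : S ⊕ S → Ω → ℂ} {G : S ⊕ S → S ⊕ S → ℂ} (h : GtW n c F G)
    (hN : 1 ≤ N) (hG : ∀ y x, ‖G y x‖ ≤ 1) (f f' : S → Polynomial ℝ)
    (hf : ∑ s, (f s).natDegree + ∑ s, (f' s).natDegree ≤ n) :
    |𝔼 ω, (∏ s, (f s).eval (N * ‖F (Sum.inl s) ω‖ ^ 2)) *
      ∏ s, (f' s).eval (N * ‖F (Sum.inr s) ω‖ ^ 2)| ≤
      N ^ n * (c + n !) * ((∏ s, l1 (f s)) * ∏ s, l1 (f' s)) := by
  have k := poly_transfer (fun ω s => N * ‖F (Sum.inl s) ω‖ ^ 2)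
    (fun ω s => N * ‖F (Sum.inr s) ω‖ ^ 2) 0 (N ^ n * (c + n !)) f f' 0 fun i i' a1 a2 => by
      have hi : ∑ s, i s + ∑ s, i' s ≤ n :=
        (add_le_add (sum_le_sum fun s _ => a1 s) (sum_le_sum fun s _ => a2 s)).trans hf
      have h1 := gt_mom h hN i i' hi
      have h2 : ‖∑ σ : Equiv.Perm ((Σ s, Fin (i s)) ⊕ (Σ s, Fin (i' s))),
          ∏ x, ((N : ℂ) * G (lab i i' (σ x)) (lab i i' x))‖ ≤ N ^ n * n ! := by
        refine (norm_sum_le_of_le (n := fun _ => N ^ n) _ fun σ _ => ?_).trans ?_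
        · rw [norm_prod]
          refine (prod_le_prod (g := fun _ => N) (fun _ _ => norm_nonneg _) fun x _ => ?_).trans ?_
          · rw [norm_mul, Complex.norm_real, Real.norm_of_nonneg (zero_le_one.trans hN)]
            exact mul_le_of_le_one_right (zero_le_one.trans hN) (hG _ _)
          · rw [prod_const, card_univ, gt_card]
            exact pow_le_pow_right₀ hN hi
        · rw [sum_const, card_univ, Fintype.card_perm, gt_card, nsmul_eq_mul, mul_comm]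
          exact mul_le_mul_of_nonneg_left (Nat.cast_le.2 (Nat.factorial_le hi)) (by positivity)
      have h3 := (norm_le_norm_sub_add _ _).trans (add_le_add h1 h2)
      rw [Complex.norm_real, Real.norm_eq_abs] at h3
      rw [range_zero, sum_empty, sub_zero, mul_add]
      exact h3
  rwa [range_zero, sum_empty, sub_zero] at k

lemma gt_good {n : ℕ} {c N δ : ℝ} {F : S ⊕ S → Ω → ℂ} {G : S ⊕ S → S ⊕ S → ℂ} (h : GtW n c F G)
    (hN : 1 ≤ N) (hδ : 0 ≤ δ) (hδ1 : δ ≤ 1) (hG : ∀ y x, ‖N * G y x - (Cm N⁻¹ y x : ℝ)‖ ≤ δ)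
    (f f' : S → Polynomial ℝ) (hf : ∑ s, (f s).natDegree + ∑ s, (f' s).natDegree ≤ n) :
    |𝔼 ω, (∏ s, (f s).eval (N * ‖F (Sum.inl s) ω‖ ^ 2)) *
      ∏ s, (f' s).eval (N * ‖F (Sum.inr s) ω‖ ^ 2) -
      ∑ t ∈ range (n + 1), cT N⁻¹ (∏ s, Lq (f s)) t * cT N⁻¹ (∏ s, Lq (f' s)) t| ≤
      (N ^ n * c + n ! * (n * 2 ^ n * δ)) * ((∏ s, l1 (f s)) * ∏ s, l1 (f' s)) := by
  refine poly_transfer (fun ω s => N * ‖F (Sum.inl s) ω‖ ^ 2)
    (fun ω s => N * ‖F (Sum.inr s) ω‖ ^ 2) N⁻¹ _ f f' (n + 1) fun i i' a1 a2 => ?_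
  have hi : ∑ s, i s + ∑ s, i' s ≤ n :=
    (add_le_add (sum_le_sum fun s _ => a1 s) (sum_le_sum fun s _ => a2 s)).trans hf
  have h1 := gt_mom h hN i i' hi
  have hπ : |N⁻¹| ≤ 1 := by
    rw [abs_of_nonneg (by positivity)]
    exact inv_le_one_of_one_le₀ hN
  have h2 := perm_close (fun y x => (N : ℂ) * G (lab i i' y) (lab i i' x))
    (fun y x => ((Cm N⁻¹ (lab i i' y) (lab i i' x) : ℝ) : ℂ)) hδ hδ1 (fun y x => by
      rw [Complex.norm_real, Real.norm_eq_abs]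
      generalize lab i i' y = u
      generalize lab i i' x = v
      rcases u with u | u <;> rcases v with v | v <;> simp only [Cm]
      · split_ifs <;> simp
      · exact hπ
      · exact hπ
      · split_ifs <;> simp) fun y x => hG _ _
  rw [gt_card] at h2
  have h3 : ((∑ s, i s + ∑ s, i' s)! : ℝ) * ((∑ s, i s + ∑ s, i' s : ℕ) *
      2 ^ (∑ s, i s + ∑ s, i' s) * δ) ≤ n ! * (n * 2 ^ n * δ) :=
    mul_le_mul (Nat.cast_le.2 (Nat.factorial_le hi)) (mul_le_mul_of_nonneg_right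
      (mul_le_mul (Nat.cast_le.2 hi) (pow_le_pow_right₀ one_le_two hi) (by positivity)
        (by positivity)) hδ) (by positivity) (by positivity)
  have h4 := (norm_sub_le_norm_sub_add_norm_sub _ _ _).trans (add_le_add h1 (h2.trans h3))
  rw [← perm_formula N⁻¹ i i' (n + 1) (by omega), ← Real.norm_eq_abs, ← Complex.norm_real]
  push_cast
  push_cast at h4
  exact h4

lemma gt_prod_ite {R : Type} [CommMonoid R] {m : ℕ} (hS : Fintype.card S = m + 1) (s0 : S)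
    (g : Polynomial ℝ → R) (x y : Polynomial ℝ) :
    ∏ s, g (if s = s0 then x else y) = g x * g y ^ m := by
  rw [← mul_prod_erase univ _ (mem_univ s0), if_pos rfl,
    prod_congr rfl fun s hs => by rw [if_neg (ne_of_mem_erase hs)], prod_const,
    card_erase_of_mem (mem_univ _), card_univ, hS, Nat.add_sub_cancel]

lemma gt_l1_nonneg (h : Polynomial ℝ) : 0 ≤ l1 h := sum_nonneg fun _ _ => abs_nonneg _

lemma gt_l1_one : l1 1 = 1 := by
  rw [l1, ← Polynomial.C_1, Polynomial.sum_C_index abs_zero, abs_one]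

lemma gt_cT_one (π : ℝ) (P : Polynomial ℝ) (n : ℕ) :
    ∑ t ∈ range (n + 1), cT π P t * cT π (∏ _s : S, Lq 1) t = cT π P 0 := by
  rw [Lq_one, prod_const_one, sum_range_succ', sum_eq_zero fun t _ => by
    simp [cT, Polynomial.coeff_one]]
  simp [cT]

end model

section fin
variable {Ω I : Type} [Fintype Ω] [Fintype I] [Nonempty Ω] [Nonempty I]

lemma gt_fst (g : I → ℝ) : 𝔼 r : I × I, g r.1 = 𝔼 U, g U := by
  rw [← univ_product_univ, expect_product]
  simp only [expect_const univ_nonempty]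

lemma gt_low (g : Ω → I → ℝ) (B : Set (I × I)) (y : ℝ)
    (h : ∀ r : I × I, y - ind B r ≤ 𝔼 M, g M r.1) : y - dens B ≤ 𝔼 M, 𝔼 U, g M U := by
  have h1 := expect_le_expect (s := univ) fun r _ => h r
  rw [expect_sub_distrib, expect_const univ_nonempty, gt_fst fun U => 𝔼 M, g M U,
    expect_comm] at h1
  exact h1

lemma gt_var (w : Ω → I → ℝ) (B : Set (I × I)) (x y C : ℝ)
    (hA : ∀ r : I × I, 𝔼 M, w M r.1 * w M r.2 ≤ 1 + x + C * ind B r)
    (hB : ∀ r : I × I, 1 - y - ind B r ≤ 𝔼 M, w M r.1) :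
    𝔼 M, (𝔼 U, w M U - 1) ^ 2 ≤ x + 2 * y + (C + 2) * dens B := by
  have h1 := expect_le_expect (s := univ) fun r _ => hA r
  rw [expect_add_distrib, expect_const univ_nonempty, ← mul_expect, expect_comm] at h1
  have h2 := gt_low w B _ hB
  have h3 : ∀ M, (𝔼 U, w M U - 1) ^ 2 =
      𝔼 r : I × I, w M r.1 * w M r.2 - 2 * 𝔼 U, w M U + 1 := fun M => by
    rw [← univ_product_univ, expect_product' (f := fun U U' => w M U * w M U'),
      ← expect_mul_expect]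
    ring
  simp only [h3]
  rw [expect_add_distrib, expect_sub_distrib, expect_const univ_nonempty, ← mul_expect]
  unfold dens at h2 ⊢
  linarith

end fin

section cut
variable {X : Type} [AddCommGroup X] [Module (ZMod p) X] [Fintype X]
variable {ν ν₁ ν₂ : Type} [Fintype ν] [DecidableEq ν] [Fintype ν₁] [DecidableEq ν₁] [Fintype ν₂]
  [DecidableEq ν₂]

lemma gt_act_cols (U : Matrix ν ν₁ (ZMod p)) (U' : Matrix ν ν₂ (ZMod p)) (l : ν → X) :
    act (fromCols U U')ᵀ l = Sum.elim (act Uᵀ l) (act U'ᵀ l) := by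
  funext i
  rcases i with i | i <;> rfl

lemma gt_tile (β : Bil p X) {κ : Matrix ν₁ ν (ZMod p)} {e : ν₁ → X} {U : Matrix ν ν₂ (ZMod p)}
    {s : ν₂ → X} {b : (ν → X) → ℂ} (h : OnSl κ e b) (h' : OnSl Uᵀ s b) (M : SymM p ν)
    (N : SymM p (ν₁ ⊕ ν₂)) : ‖FF β b (M + cj (fromCols κᵀ U) N)‖ = ‖FF β b M‖ := by
  have h1 : FF β b (M + cj (fromCols κᵀ U) N) = FF β b M * chi β N (Sum.elim e s) := by
    unfold FF
    rw [sum_mul]
    refine sum_congr rfl fun l _ => ?_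
    by_cases h2 : b l = 0
    · rw [h2, zero_mul, zero_mul, zero_mul]
    · rw [chi_tile, gt_act_cols, transpose_transpose, h l h2, h' l h2, mul_assoc]
  rw [h1, norm_mul, norm_chi, mul_one]

lemma gt_ip_cut (U : Matrix ν₁ ν (ZMod p)) (U' : Matrix ν₂ ν (ZMod p)) (s : ν₁ → X) (s' : ν₂ → X)
    (a : (ν → X) → ℂ) : ip (cut U s a) (cut U' s' a) = (nsq (cut U s (cut U' s' a)) : ℝ) := by
  rw [← ip_self]
  refine sum_congr rfl fun l _ => ?_
  unfold cut
  split_ifs <;> simp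

lemma gt_cut_comm (U : Matrix ν₁ ν (ZMod p)) (U' : Matrix ν₂ ν (ZMod p)) (s : ν₁ → X)
    (s' : ν₂ → X) (a : (ν → X) → ℂ) : cut U s (cut U' s' a) = cut U' s' (cut U s a) := by
  funext l
  unfold cut
  split_ifs <;> rfl

lemma gt_cut_cols (U : Matrix ν ν₁ (ZMod p)) (U' : Matrix ν ν₂ (ZMod p)) (s : ν₁ → X)
    (s' : ν₂ → X) (a : (ν → X) → ℂ) :
    cut (fromCols U U')ᵀ (Sum.elim s s') a = cut Uᵀ s (cut U'ᵀ s' a) := by
  funext l
  unfold cut
  rw [gt_act_cols]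
  by_cases h : act Uᵀ l = s
  · by_cases h' : act U'ᵀ l = s'
    · rw [if_pos h, if_pos h', h, h', if_pos rfl]
    · rw [if_pos h, if_neg h', if_neg fun k => h' (funext fun i => congrFun k (Sum.inr i))]
  · rw [if_neg h, if_neg fun k => h (funext fun i => congrFun k (Sum.inl i))]

lemma gt_sum_cut (U : Matrix ν₁ ν (ZMod p)) (a : (ν → X) → ℂ) :
    ∑ s, nsq (cut U s a) = nsq a := by
  unfold nsq
  rw [sum_comm]
  refine sum_congr rfl fun l _ => ?_
  unfold cut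
  rw [sum_eq_single (act U l) (fun s _ hs => by rw [if_neg (Ne.symm hs)]; simp)
    (fun h => absurd (mem_univ _) h), if_pos rfl]

lemma gt_diag [DecidableEq X] {N δ : ℝ} (hN : (Fintype.card (ν₁ → X) : ℝ) = N) (hN1 : 1 ≤ N)
    (hδ : 0 ≤ δ) (U U' : Matrix ν₁ ν (ZMod p)) (a : (ν → X) → ℂ)
    (h : ∀ s s', |nsq (cut U' s' (cut U s a)) - (N ^ 2)⁻¹| ≤ δ) (s t : ν₁ → X) :
    ‖N * ip (cut U s a) (cut U t a) - ((if s = t then 1 else 0 : ℝ) : ℂ)‖ ≤ N ^ 2 * δ := by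
  rw [gt_ip_cut]
  by_cases hs : s = t
  · subst hs
    have h1 : cut U s (cut U s a) = cut U s a := by
      funext l
      unfold cut
      split_ifs <;> rfl
    have h2 : N * nsq (cut U s a) - 1 = N * ∑ s', (nsq (cut U' s' (cut U s a)) - (N ^ 2)⁻¹) := by
      rw [sum_sub_distrib, gt_sum_cut, sum_const, card_univ, nsmul_eq_mul, hN]
      field_simp
    rw [h1, if_pos rfl, ← Complex.ofReal_mul, ← Complex.ofReal_sub, Complex.norm_real,
      Real.norm_eq_abs, h2, abs_mul, abs_of_nonneg (zero_le_one.trans hN1),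
      show N ^ 2 * δ = N * (N * δ) by ring]
    refine mul_le_mul_of_nonneg_left ((abs_sum_le_sum_abs _ _).trans
      ((sum_le_sum fun s' _ => h s s').trans (le_of_eq ?_))) (zero_le_one.trans hN1)
    rw [sum_const, card_univ, nsmul_eq_mul, hN]
  · have h1 : nsq (cut U s (cut U t a)) = 0 := by
      refine sum_eq_zero fun l _ => ?_
      unfold cut
      split_ifs with a1 a2
      · exact absurd (a1.symm.trans a2) hs
      · simp
      · simp
    rw [h1, if_neg hs]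
    simp only [Complex.ofReal_zero, mul_zero, sub_zero, norm_zero]
    positivity

lemma gt_off {N δ x : ℝ} (hN1 : 1 ≤ N) (h : |x - (N ^ 2)⁻¹| ≤ δ) :
    ‖(N : ℂ) * (x : ℝ) - (N⁻¹ : ℝ)‖ ≤ N ^ 2 * δ := by
  have h2 : N * x - N⁻¹ = N * (x - (N ^ 2)⁻¹) := by field_simp
  rw [← Complex.ofReal_mul, ← Complex.ofReal_sub, Complex.norm_real, Real.norm_eq_abs, h2, abs_mul,
    abs_of_nonneg (zero_le_one.trans hN1)]
  exact mul_le_mul (le_self_pow₀ hN1 two_ne_zero) h (abs_nonneg _) (by positivity)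

/-- the pieces of `a` on two tiles -/
noncomputable def gtV (U U' : Matrix ν ν₁ (ZMod p)) (a : (ν → X) → ℂ) :
    (ν₁ → X) ⊕ (ν₁ → X) → (ν → X) → ℂ :=
  Sum.elim (fun s => cut Uᵀ s a) fun s => cut U'ᵀ s a

lemma gt_gram [DecidableEq X] {N δ : ℝ} (hN : (Fintype.card (ν₁ → X) : ℝ) = N) (hN1 : 1 ≤ N)
    (hδ : 0 ≤ δ) (U U' : Matrix ν ν₁ (ZMod p)) (a : (ν → X) → ℂ)
    (h : ∀ s, |nsq (cut (fromCols U U')ᵀ s a) - (N ^ 2)⁻¹| ≤ δ) (y x : (ν₁ → X) ⊕ (ν₁ → X)) :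
    ‖N * ip (gtV U U' a y) (gtV U U' a x) - (Cm N⁻¹ y x : ℝ)‖ ≤ N ^ 2 * δ := by
  have h1 : ∀ s s', |nsq (cut Uᵀ s (cut U'ᵀ s' a)) - (N ^ 2)⁻¹| ≤ δ := fun s s' => by
    rw [← gt_cut_cols]; exact h _
  have h2 : ∀ s s', |nsq (cut U'ᵀ s' (cut Uᵀ s a)) - (N ^ 2)⁻¹| ≤ δ := fun s s' => by
    rw [gt_cut_comm]; exact h1 _ _
  rcases y with y | y <;> rcases x with x | x <;> simp only [gtV, Cm, Sum.elim_inl, Sum.elim_inr]
  · exact gt_diag hN hN1 hδ _ _ a h2 y x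
  · rw [gt_ip_cut]
    exact gt_off hN1 (h1 _ _)
  · rw [gt_ip_cut]
    exact gt_off hN1 (h2 _ _)
  · exact gt_diag hN hN1 hδ _ _ a (fun s s' => h1 s' s) y x

lemma gt_dens (B : Set (Matrix ν (ν₁ ⊕ ν₂) (ZMod p))) :
    dens {r : Matrix ν ν₁ (ZMod p) × Matrix ν ν₂ (ZMod p) | fromCols r.1 r.2 ∈ B} = dens B := by
  let f : Matrix ν ν₁ (ZMod p) × Matrix ν ν₂ (ZMod p) ≃ Matrix ν (ν₁ ⊕ ν₂) (ZMod p) :=
    ⟨fun r => fromCols r.1 r.2, fun V => (toCols₁ V, toCols₂ V), fun r => by simp,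
      fun V => fromCols_toCols V⟩
  exact Fintype.expect_equiv f _ _ fun _ => rfl

end cut

/-- the conclusion for spaces of a given size -/
def GtC (p : ℕ) [Fact p.Prime] (q J : ℕ) (ε θ C : ℝ) : Prop :=
  ∀ (X : Type) [AddCommGroup X] [Module (ZMod p) X] [Fintype X] [Nontrivial X],
    Fintype.card X = q → ∀ (ν : Type) [Fintype ν] [DecidableEq ν] (β : Bil p X), SymB β → NdB β →
    ∀ (ι : Type) [Fintype ι] [DecidableEq ι] (κ : Matrix ι ν (ZMod p)) (e : ι → X),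
    Submodule.span (ZMod p) (Set.range e) = ⊤ → ∀ a : (ν → X) → ℂ, nsq a = 1 → OnSl κ e a →
    Prim β θ a → Pos β θ a →
    ∃ w : SymM p ν → Matrix ν (Fin J) (ZMod p) → ℝ, (∀ M U, 0 ≤ w M U) ∧
      (∀ M U (N : SymM p (ι ⊕ Fin J)), w (M + cj (fromCols κᵀ U) N) U = w M U) ∧
      𝔼 M, (𝔼 U, w M U - 1) ^ 2 ≤ ε ^ 2 ∧ (∀ U, 𝔼 M, w M U ≤ C) ∧
      1 / 100 - ε ≤ 𝔼 M, 𝔼 U, w M U * ‖FF β (cut Uᵀ 0 a) M‖ ^ 2

lemma gt_main (hp : p ≠ 2) (ε η : ℝ) (hη : 0 < η) (hη1 : η ≤ ε) (hη2 : η ≤ ε ^ 2) (q J m : ℕ)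
    (hm : q ^ J = m + 1) (h0 : Polynomial ℝ) (a0 : ∀ x, 0 ≤ x → 0 ≤ h0.eval x)
    (a1 : |cT ((m : ℝ) + 1)⁻¹ (Lq h0 * Lq hh ^ m) 0 - 1| ≤ η / 6)
    (a2 : ∀ T, ∑ t ∈ range T, cT ((m : ℝ) + 1)⁻¹ (Lq h0 * Lq hh ^ m) t ^ 2 ≤ 1 + η / 6)
    (a3 : 1 / 100 - η / 6 ≤
      ((m : ℝ) + 1)⁻¹ * cT ((m : ℝ) + 1)⁻¹ (Lq (Polynomial.X * h0) * Lq hh ^ m) 0) :
    ∃ θ : ℝ, 0 < θ ∧ ∃ C : ℝ, 0 < C ∧ GtC p q J ε θ C := by
  classical
  obtain ⟨N, hN⟩ : ∃ N : ℝ, N = (m : ℝ) + 1 := ⟨_, rfl⟩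
  have hN1 : 1 ≤ N := by rw [hN]; exact le_add_of_nonneg_left (Nat.cast_nonneg m)
  have hN0 : 0 < N := one_pos.trans_le hN1
  rw [← hN] at a1 a2 a3
  obtain ⟨d, hd⟩ : ∃ d : ℕ, d = (m + 1) * (h0.natDegree + 3) := ⟨_, rfl⟩
  obtain ⟨n, hn'⟩ : ∃ n : ℕ, n = d + d := ⟨_, rfl⟩
  obtain ⟨Cw, hCw, hW⟩ := wick hp n q
  obtain ⟨L, hL⟩ : ∃ L : ℝ, L = l1 h0 * l1 hh ^ m := ⟨_, rfl⟩
  obtain ⟨L', hL'⟩ : ∃ L : ℝ, L = l1 (Polynomial.X * h0) * l1 hh ^ m := ⟨_, rfl⟩
  have hL0 : 0 ≤ L := hL ▸ mul_nonneg (gt_l1_nonneg _) (pow_nonneg (gt_l1_nonneg _) _)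
  have hL0' : 0 ≤ L' := hL' ▸ mul_nonneg (gt_l1_nonneg _) (pow_nonneg (gt_l1_nonneg _) _)
  obtain ⟨B, hB⟩ : ∃ B : ℝ, B = N ^ n * (Cw + n !) := ⟨_, rfl⟩
  have hB0 : 0 ≤ B := by rw [hB]; positivity
  obtain ⟨δ1, d0, d1, d2⟩ := gt_small (n ! * (n * 2 ^ n) * (L * L + 2 * L + L')) (η / 8)
    (by positivity)
  obtain ⟨δ0, hδ0⟩ : ∃ δ0 : ℝ, δ0 = δ1 / N ^ 2 := ⟨_, rfl⟩
  have e0 : 0 < δ0 := by rw [hδ0]; positivity
  have e1 : N ^ 2 * δ0 = δ1 := by rw [hδ0]; field_simp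
  obtain ⟨P, hP⟩ : ∃ P : ℝ, P = N ^ 2 * (q ^ 2 / δ0 ^ 2) := ⟨_, rfl⟩
  have hP0 : 0 ≤ P := by rw [hP]; positivity
  obtain ⟨ρ, r0, r1, r2⟩ := gt_small
    (N ^ n * Cw * (L * L + 2 * L + L') + (B * (L * L) + 2) * P) (η / 8) (by positivity)
  have r3 : ρ ^ 4 ≤ ρ := pow_le_of_le_one r0.le r1 (by norm_num)
  have r4 : √(√(ρ ^ 4)) = ρ := by
    rw [show ρ ^ 4 = (ρ ^ 2) ^ 2 by ring, Real.sqrt_sq (sq_nonneg _), Real.sqrt_sq r0.le]
  refine ⟨ρ ^ 4, by positivity, B * L + 1, by positivity, ?_⟩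
  intro X _ _ _ _ hq ν _ _ β hβ hn ι _ _ κ e he a ha hs hPr hPo
  have hS : Fintype.card (Fin J → X) = m + 1 := by
    rw [Fintype.card_fun, Fintype.card_fin, hq, hm]
  have hS' : (Fintype.card (Fin J → X) : ℝ) = N := by rw [hS, hN]; push_cast; rfl
  let f : (Fin J → X) → Polynomial ℝ := fun s => if s = 0 then h0 else hh
  let f' : (Fin J → X) → Polynomial ℝ := fun s => if s = 0 then Polynomial.X * h0 else hh
  have g1 : ∑ s, (f s).natDegree ≤ d := by
    refine (sum_le_card_nsmul _ _ (h0.natDegree + 3) fun s _ => ?_).trans ?_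
    · have := hh_natDegree
      simp only [f]
      split_ifs <;> omega
    · rw [card_univ, hS, smul_eq_mul, hd]
  have g2 : ∑ s, (f' s).natDegree ≤ d := by
    refine (sum_le_card_nsmul _ _ (h0.natDegree + 3) fun s _ => ?_).trans ?_
    · have := hh_natDegree
      have := Polynomial.natDegree_mul_le (p := Polynomial.X) (q := h0)
      have := Polynomial.natDegree_X_le (R := ℝ)
      simp only [f']
      split_ifs <;> omega
    · rw [card_univ, hS, smul_eq_mul, hd]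
  have g3 : ∑ _s : Fin J → X, (1 : Polynomial ℝ).natDegree = 0 := by simp
  have l0 : ∏ s, l1 (f s) = L := by rw [hL]; exact gt_prod_ite hS 0 l1 _ _
  have l0' : ∏ s, l1 (f' s) = L' := by rw [hL']; exact gt_prod_ite hS 0 l1 _ _
  have q0 : ∏ s, Lq (f s) = Lq h0 * Lq hh ^ m := gt_prod_ite hS 0 Lq _ _
  have q0' : ∏ s, Lq (f' s) = Lq (Polynomial.X * h0) * Lq hh ^ m := gt_prod_ite hS 0 Lq _ _
  let w : SymM p ν → Matrix ν (Fin J) (ZMod p) → ℝ := fun M U =>
    ∏ s, (f s).eval (N * ‖FF β (cut Uᵀ s a) M‖ ^ 2)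
  have w0 : ∀ M U, 0 ≤ w M U := fun M U => prod_nonneg fun s _ => by
    simp only [f]
    split_ifs
    · exact a0 _ (by positivity)
    · exact hh_nonneg _
  have w1 : ∀ M U, w M U * ‖FF β (cut Uᵀ 0 a) M‖ ^ 2 =
      N⁻¹ * ∏ s, (f' s).eval (N * ‖FF β (cut Uᵀ s a) M‖ ^ 2) := fun M U => by
    simp only [w]
    rw [← mul_prod_erase univ _ (mem_univ 0), ← mul_prod_erase univ _ (mem_univ 0),
      prod_congr rfl (g := fun s => (f s).eval (N * ‖FF β (cut Uᵀ s a) M‖ ^ 2))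
        (f := fun s => (f' s).eval (N * ‖FF β (cut Uᵀ s a) M‖ ^ 2)) fun s hs => by
          simp only [f, f', if_neg (ne_of_mem_erase hs)]]
    simp only [f, f', if_true, Polynomial.eval_mul, Polynomial.eval_X]
    field_simp
  have hV : ∀ U U' : Matrix ν (Fin J) (ZMod p), ∀ y,
      Prim β (ρ ^ 4) (gtV U U' a y) ∧ OnSl κ e (gtV U U' a y) := fun U U' y => by
    rcases y with y | y
    · exact ⟨hPr.cut hp hβ hn _ _, hs.cut _ _⟩
    · exact ⟨hPr.cut hp hβ hn _ _, hs.cut _ _⟩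
  have hG : ∀ U U' : Matrix ν (Fin J) (ZMod p), GtW n (Cw * ρ) (fun y => FF β (gtV U U' a y))
      fun y x => ip (gtV U U' a y) (gtV U U' a x) := fun U U' i i' hi => by
    have k := hW X hq.le _ ((gt_card i i').trans_le hi) ν β hβ hn (ρ ^ 4) (by positivity)
      (r3.trans r1) ι κ e he (fun x => gtV U U' a (lab i i' x)) (fun x => gtV U U' a (lab i i' x))
      (fun x => hV U U' _) fun x => hV U U' _
    rwa [r4] at k
  have hA : ∀ U U' : Matrix ν (Fin J) (ZMod p), ∀ g g' : (Fin J → X) → Polynomial ℝ,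
      ∑ s, (g s).natDegree + ∑ s, (g' s).natDegree ≤ n →
      𝔼 M, (∏ s, (g s).eval (N * ‖FF β (cut Uᵀ s a) M‖ ^ 2)) *
        ∏ s, (g' s).eval (N * ‖FF β (cut U'ᵀ s a) M‖ ^ 2) ≤
        B * ((∏ s, l1 (g s)) * ∏ s, l1 (g' s)) := fun U U' g g' hg => by
    have k := gt_all (hG U U') hN1 (fun y x => (norm_ip_le _ _).trans (mul_le_one₀
      (Real.sqrt_le_one.2 (hV U U' y).1.1) (Real.sqrt_nonneg _)
      (Real.sqrt_le_one.2 (hV U U' x).1.1))) g g' hg
    refine ((le_abs_self _).trans k).trans (mul_le_mul_of_nonneg_right ?_ (mul_nonneg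
      (prod_nonneg fun _ _ => gt_l1_nonneg _) (prod_nonneg fun _ _ => gt_l1_nonneg _)))
    rw [hB]
    exact mul_le_mul_of_nonneg_left (add_le_add_left (mul_le_of_le_one_right hCw.le r1) _)
      (by positivity)
  obtain ⟨Bd, hBd, hBd'⟩ : ∃ Bd : Set (Matrix ν (Fin J) (ZMod p) × Matrix ν (Fin J) (ZMod p)),
      dens Bd ≤ P * ρ ∧ ∀ r, r ∉ Bd → ∀ s,
        |nsq (cut (fromCols r.1 r.2)ᵀ s a) - (N ^ 2)⁻¹| ≤ δ0 := by
    have k := GU (ν' := Fin J ⊕ Fin J) hβ hn he ha hs (by positivity) hPo e0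
    have k1 : (Fintype.card X : ℝ) ^ Fintype.card (Fin J ⊕ Fin J) = N ^ 2 := by
      rw [Fintype.card_sum, Fintype.card_fin, pow_add, ← sq, hq, ← Nat.cast_pow, hm, hN]
      push_cast
      rfl
    rw [k1, ← gt_dens, hq] at k
    refine ⟨_, k.trans ?_, fun r hr s => le_of_not_ge fun h => hr ⟨s, h⟩⟩
    rw [hP, mul_assoc, div_mul_eq_mul_div]
    exact mul_le_mul_of_nonneg_left (div_le_div_of_nonneg_right
      (mul_le_mul_of_nonneg_left r3 (by positivity)) (by positivity)) (by positivity)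
  obtain ⟨δ, hδ⟩ : ∃ δ : ℝ, δ = N ^ n * (Cw * ρ) + n ! * (n * 2 ^ n * δ1) := ⟨_, rfl⟩
  have δ0' : 0 ≤ δ := by rw [hδ]; positivity
  have hE : δ * (L * L + 2 * L + L') + (B * (L * L) + 2) * (P * ρ) ≤ η / 4 := by
    rw [hδ]
    linarith
  have hgood : ∀ r, r ∉ Bd → ∀ g g' : (Fin J → X) → Polynomial ℝ,
      ∑ s, (g s).natDegree + ∑ s, (g' s).natDegree ≤ n →
      |𝔼 M, (∏ s, (g s).eval (N * ‖FF β (cut r.1ᵀ s a) M‖ ^ 2)) *
        ∏ s, (g' s).eval (N * ‖FF β (cut r.2ᵀ s a) M‖ ^ 2) -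
        ∑ t ∈ range (n + 1), cT N⁻¹ (∏ s, Lq (g s)) t * cT N⁻¹ (∏ s, Lq (g' s)) t| ≤
        δ * ((∏ s, l1 (g s)) * ∏ s, l1 (g' s)) := fun r hr g g' hg => by
    rw [hδ]
    exact gt_good (hG r.1 r.2) hN1 d0.le d1
      (fun y x => e1 ▸ gt_gram hS' hN1 e0.le r.1 r.2 a (hBd' r hr) y x) g g' hg
  have hone : ∀ r, r ∉ Bd → ∀ g : (Fin J → X) → Polynomial ℝ, ∑ s, (g s).natDegree ≤ d →
      cT N⁻¹ (∏ s, Lq (g s)) 0 - δ * ∏ s, l1 (g s) ≤
        𝔼 M, ∏ s, (g s).eval (N * ‖FF β (cut r.1ᵀ s a) M‖ ^ 2) := fun r hr g hg => by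
    have k := hgood r hr g (fun _ => 1) (by omega)
    rw [gt_cT_one] at k
    simp only [Polynomial.eval_one, prod_const_one, mul_one, gt_l1_one] at k
    linarith [(abs_le.1 k).1]
  have p1 : 0 ≤ δ * (L * L) := by positivity
  have p2 : 0 ≤ δ * L := by positivity
  have p3 : 0 ≤ δ * L' := by positivity
  have p4 : 0 ≤ B * (L * L) := by positivity
  have p5 : 0 ≤ P * ρ := by positivity
  refine ⟨w, w0, fun M U N' => prod_congr rfl fun s _ => ?_, ?_, fun U => ?_, ?_⟩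
  · rw [gt_tile β (hs.cut _ _) (OnSl_cut _ _ _)]
  · refine (gt_var w Bd (η / 6 + δ * (L * L)) (η / 6 + δ * L) (B * (L * L)) (fun r => ?_)
      fun r => ?_).trans ?_
    · by_cases hr : r ∈ Bd
      · have k := hA r.1 r.2 f f (by omega)
        rw [l0] at k
        rw [ind_of_mem hr]
        exact k.trans (by linarith)
      · have k := hgood r hr f f (by omega)
        have k2 := a2 (n + 1)
        rw [l0, q0] at k
        simp only [sq] at k2
        rw [ind_of_not hr]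
        exact (sub_le_iff_le_add.1 (abs_le.1 k).2).trans (by linarith)
    · by_cases hr : r ∈ Bd
      · rw [ind_of_mem hr]
        exact le_trans (by linarith) (expect_nonneg fun M _ => w0 M r.1)
      · have k := hone r hr f g1
        rw [l0, q0] at k
        rw [ind_of_not hr]
        exact le_trans (by linarith [(abs_le.1 a1).1]) k
    · have k := mul_le_mul_of_nonneg_left hBd (by positivity : 0 ≤ B * (L * L) + 2)
      linarith
  · have k := hA U U f (fun _ => 1) (by omega)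
    simp only [Polynomial.eval_one, prod_const_one, mul_one, gt_l1_one, l0] at k
    exact k.trans (by linarith)
  · refine le_trans ?_ (gt_low (fun M U => w M U * ‖FF β (cut Uᵀ 0 a) M‖ ^ 2) Bd
      (1 / 100 - η / 6 - δ * L') fun r => ?_)
    · nlinarith [mul_nonneg p4 p5]
    · by_cases hr : r ∈ Bd
      · rw [ind_of_mem hr]
        exact le_trans (by linarith) (expect_nonneg fun M _ => mul_nonneg (w0 M r.1) (sq_nonneg _))
      · have k := mul_le_mul_of_nonneg_left (hone r hr f' g2) (inv_nonneg.2 hN0.le)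
        have k2 := mul_le_of_le_one_left p3 (inv_le_one_of_one_le₀ hN1)
        rw [l0', q0', mul_sub] at k
        simp only [w1]
        rw [ind_of_not hr, ← mul_expect]
        linarith

theorem GT (hp : p ≠ 2) (k : ℕ) (ε : ℝ) (hε : 0 < ε) : ∃ J0 : ℕ, ∀ J : ℕ, J0 ≤ J →
    ∃ θ : ℝ, 0 < θ ∧ ∃ C : ℝ, 0 < C ∧
    ∀ (X : Type) [AddCommGroup X] [Module (ZMod p) X] [Fintype X] [Nontrivial X],
    Fintype.card X ≤ k → ∀ (ν : Type) [Fintype ν] [DecidableEq ν] (β : Bil p X), SymB β → NdB β →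
    ∀ (ι : Type) [Fintype ι] [DecidableEq ι] (κ : Matrix ι ν (ZMod p)) (e : ι → X),
    Submodule.span (ZMod p) (Set.range e) = ⊤ → ∀ a : (ν → X) → ℂ, nsq a = 1 → OnSl κ e a →
    Prim β θ a → Pos β θ a →
    ∃ w : SymM p ν → Matrix ν (Fin J) (ZMod p) → ℝ, (∀ M U, 0 ≤ w M U) ∧
      (∀ M U (N : SymM p (ι ⊕ Fin J)), w (M + cj (fromCols κᵀ U) N) U = w M U) ∧
      𝔼 M, (𝔼 U, w M U - 1) ^ 2 ≤ ε ^ 2 ∧ (∀ U, 𝔼 M, w M U ≤ C) ∧
      1 / 100 - ε ≤ 𝔼 M, 𝔼 U, w M U * ‖FF β (cut Uᵀ 0 a) M‖ ^ 2 := by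
  have hη : 0 < min ε (ε ^ 2) := lt_min hε (by positivity)
  obtain ⟨m0, hm0⟩ := weight_choice (min ε (ε ^ 2) / 6) (by positivity)
  refine ⟨m0, fun J hJ => ?_⟩
  have key : ∀ q : ℕ, ∃ θ : ℝ, 0 < θ ∧ ∃ C : ℝ, 0 < C ∧ GtC p q J ε θ C := fun q => by
    by_cases hq : 1 < q
    · have h1 : J < q ^ J := Nat.lt_pow_self hq
      obtain ⟨h0, a0, a1, a2, a3⟩ := hm0 (q ^ J - 1) (by omega)
      exact gt_main hp ε _ hη (min_le_left _ _) (min_le_right _ _) q J _ (by omega) h0 a0 a1 a2 a3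
    · exact ⟨1, one_pos, 1, one_pos, fun X _ _ _ _ h => absurd (h ▸ Fintype.one_lt_card) hq⟩
  choose θ hθ C hC h using key
  obtain ⟨q0, -, h0⟩ := (range (k + 1)).exists_min_image θ nonempty_range_add_one
  obtain ⟨q1, -, h1⟩ := (range (k + 1)).exists_max_image C nonempty_range_add_one
  refine ⟨θ q0, hθ q0, C q1, hC q1, ?_⟩
  intro X _ _ _ _ hk ν _ _ β hβ hn ι _ _ κ e he a ha hs hPr hPo
  have hk' := mem_range.2 (Nat.lt_succ_of_le hk)
  obtain ⟨w, b1, b2, b3, b4, b5⟩ := h _ X rfl ν β hβ hn ι κ e he a ha hs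
    (hPr.mono (hθ q0).le (h0 _ hk')) fun c hc v => (hPo c hc v).trans (h0 _ hk')
  exact ⟨w, b1, b2, b3, fun U => (b4 U).trans (h1 _ hk'), b5⟩

end Pool.Agent.Work.MP_4523ee_co.Fp
end

-- merged part: Pool.Agent.Work.MP_4523ee_co.Fp.Step
section
/-!
The contraction step (paper section 8).
-/

set_option autoImplicit false
set_option linter.unusedSectionVars false

namespace Pool.Agent.Work.MP_4523ee_co.Fp

open Finset Matrix
open scoped BigOperators ComplexConjugate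

variable {p : ℕ} [Fact p.Prime]

section
variable {X₁ X₂ : Type} [AddCommGroup X₁] [Module (ZMod p) X₁] [Fintype X₁] [AddCommGroup X₂]
  [Module (ZMod p) X₂] [Fintype X₂] {ν : Type} [Fintype ν] [DecidableEq ν]

/-- the slice matrix has independent rows as soon as both slices are nonempty -/
lemma inj_slice {r : ℕ} {e : Fin r → X₁ × X₂} {κ : Matrix (Fin r) ν (ZMod p)}
    (hr : Module.finrank (ZMod p) X₁ + Module.finrank (ZMod p) X₂ = r)
    (he : Submodule.span (ZMod p) (Set.range e) = ⊤) {l₁ : ν → X₁} {l₂ : ν → X₂}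
    (h₁ : act κ l₁ = fun i => (e i).1) (h₂ : act κ l₂ = fun i => (e i).2) : Inj κᵀ := by
  have hli : LinearIndependent (ZMod p) e :=
    linearIndependent_of_top_le_span_of_card_eq_finrank he.ge
      (by rw [Fintype.card_fin, Module.finrank_prod, hr])
  have key : ∀ w : Fin r → ZMod p, κᵀ *ᵥ w = 0 → w = 0 := fun w hw => by
    have h3 : ∀ a, e a = ∑ j, κ a j • (l₁ j, l₂ j) := fun a => by
      refine Prod.ext ?_ ?_
      · rw [Prod.fst_sum, ← congrFun h₁ a]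
        rfl
      · rw [Prod.snd_sum, ← congrFun h₂ a]
        rfl
    refine funext (Fintype.linearIndependent_iff.1 hli w ?_)
    simp only [h3, smul_sum, smul_smul]
    rw [sum_comm]
    refine sum_eq_zero fun j _ => ?_
    have h4 : ∑ a, w a * κ a j = 0 := by
      rw [← show (κᵀ *ᵥ w) j = 0 from congrFun hw j]
      exact sum_congr rfl fun a _ => mul_comm _ _
    rw [← sum_smul, h4, zero_smul]
  intro x y hxy
  exact sub_eq_zero.1 (key _ (by rw [mulVec_sub, hxy, sub_self]))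

lemma StepA_act {ι ν' : Type} (κ : Matrix ι ν (ZMod p)) (U : Matrix ν ν' (ZMod p)) (l : ν → X₁) :
    act (fromCols κᵀ U)ᵀ l = Sum.elim (act κ l) (act Uᵀ l) := by
  funext i
  cases i <;> rfl

lemma StepA_one {ι ν' : Type} [Fintype ι] [DecidableEq ι] [Fintype ν'] (s : ι ⊕ ν' → X₁) (i : ι) :
    act (fromCols (1 : Matrix ι ι (ZMod p)) (0 : Matrix ι ν' (ZMod p))) s i = s (Sum.inl i) := by
  simp [act, Fintype.sum_sum_type, Matrix.one_apply]

/-- on the tile `fromCols κᵀ U` the coefficients live on the slice of the first coordinates -/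
lemma OnSl_aT {ι ν' : Type} [Fintype ι] [DecidableEq ι] [Fintype ν'] [DecidableEq ν']
    (β : Bil p X₁) {κ : Matrix ι ν (ZMod p)} {e : ι → X₁} {a : (ν → X₁) → ℂ} (ha : OnSl κ e a)
    (M : SymM p ν) (U : Matrix ν ν' (ZMod p)) :
    OnSl (fromCols (1 : Matrix ι ι (ZMod p)) (0 : Matrix ι ν' (ZMod p))) e
      (aT β a M (fromCols κᵀ U)) := by
  intro s hs
  obtain ⟨l, -, hl⟩ := exists_ne_zero_of_sum_ne_zero hs
  have h1 := left_ne_zero_of_mul hl
  have h2 := OnSl_cut _ _ _ l h1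
  have h3 := ha.cut _ _ l h1
  funext i
  rw [StepA_one, ← h2, StepA_act, h3]
  rfl

lemma aT_elim {ι ν' : Type} [Fintype ι] [DecidableEq ι] [Fintype ν'] [DecidableEq ν']
    (β : Bil p X₁) {κ : Matrix ι ν (ZMod p)} {e : ι → X₁} {a : (ν → X₁) → ℂ} (ha : OnSl κ e a)
    (M : SymM p ν) (U : Matrix ν ν' (ZMod p)) (s : ν' → X₁) :
    aT β a M (fromCols κᵀ U) (Sum.elim e s) = FF β (cut Uᵀ s a) M := by
  refine congrArg (fun b => FF β b M) (funext fun l => ?_)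
  unfold cut
  by_cases h : a l = 0
  · rw [h, ite_self, ite_self]
  · rw [StepA_act, ha l h]
    by_cases h1 : act Uᵀ l = s
    · rw [if_pos h1, if_pos (by rw [h1])]
    · rw [if_neg h1, if_neg fun h2 => h1 (funext fun i => congrFun h2 (Sum.inr i))]

end

/-- the estimate on one good tile of dimension `r + J` -/
theorem good_tile (hp : p ≠ 2) {r r₁ : ℕ} (hr : 0 < r₁) (hC : Claim p (r - 1)) {c : ℝ}
    (hc : 0 < c) (hB : Bnd p r r₁ c) (ε : ℝ) (hε : 0 < ε) :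
    ∃ η : ℝ, 0 < η ∧ ∃ J0 : ℕ, ∀ J : ℕ, J0 ≤ J → ∀ A : Set (SymM p (Fin r ⊕ Fin J)), NE η A →
      Data p r r₁ (Fin r ⊕ Fin J) fun X₁ X₂ _ _ _ _ _ _ β₁ β₂ e κ =>
        κ = fromCols (1 : Matrix (Fin r) (Fin r) (ZMod p)) 0 →
        ∀ (a₁ : (Fin r ⊕ Fin J → X₁) → ℂ) (a₂ : (Fin r ⊕ Fin J → X₂) → ℂ),
          OnSl κ (fun i => (e i).1) a₁ → OnSl κ (fun i => (e i).2) a₂ →
          ‖𝔼 N, fA A N * (FF β₁ a₁ N * FF β₂ a₂ N)‖ ≤
            (ε * √(nsq a₁) +
              c * √(nsq a₁ - ‖a₁ (Sum.elim (fun i => (e i).1) 0)‖ ^ 2)) * √(nsq a₂) := by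
  classical
  obtain ⟨η, hη, n0, h⟩ := (SC hC r ε hε).and hB
  refine ⟨η, hη, n0, fun J hJ A hA => ?_⟩
  obtain ⟨h1, h2⟩ := h (Fin r ⊕ Fin J) (by simp; omega) A hA
  intro X₁ X₂ _ _ _ _ _ _ β₁ β₂ e κ s₁ n₁ s₂ n₂ d₁ d₂ he _ a₁ a₂ o₁ o₂
  set l0 : Fin r ⊕ Fin J → X₁ := Sum.elim (fun i => (e i).1) 0 with hl0
  let δ : (Fin r ⊕ Fin J → X₁) → ℂ := fun l => if l = l0 then a₁ l else 0
  let ρ : (Fin r ⊕ Fin J → X₁) → ℂ := fun l => if l = l0 then 0 else a₁ l
  have oδ : OnSl κ (fun i => (e i).1) δ := fun l hl => o₁ l fun h0 => hl (by simp [δ, h0])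
  have oρ : OnSl κ (fun i => (e i).1) ρ := fun l hl => o₁ l fun h0 => hl (by simp [ρ, h0])
  have nδ : nsq δ = ‖a₁ l0‖ ^ 2 := by
    rw [nsq, sum_eq_single l0 (fun l _ hl => by simp [δ, hl]) fun h0 => absurd (mem_univ _) h0]
    simp [δ]
  have nρ : nsq ρ = nsq a₁ - ‖a₁ l0‖ ^ 2 := by
    rw [← nδ, nsq, nsq, nsq, ← sum_sub_distrib]
    refine sum_congr rfl fun l _ => ?_
    by_cases hl : l = l0 <;> simp [δ, ρ, hl]
  have hsum : ∀ N, FF β₁ a₁ N = FF β₁ δ N + FF β₁ ρ N := fun N => by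
    rw [← FF_add]
    refine congrArg (fun b => FF β₁ b N) (funext fun l => ?_)
    by_cases hl : l = l0 <;> simp [δ, ρ, hl]
  have hδ : ∀ N, FF β₁ δ N = a₁ l0 * chi β₁ N l0 := fun N => by
    rw [FF, sum_eq_single l0 (fun l _ hl => by simp [δ, hl]) fun h0 => absurd (mem_univ _) h0]
    simp [δ]
  let U : Matrix (Fin r ⊕ Fin J) (Fin J) (ZMod p) := fromRows 0 1
  have hU : Inj U := fun x y hxy => funext fun i => by
    simpa [U, fromRows_mulVec] using congrFun hxy (Sum.inr i)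
  have hU0 : act Uᵀ l0 = 0 := funext fun i => by
    simp [U, act, hl0, Fintype.sum_sum_type]
  have b1 := h1 (Fin J) U hU (by simp; omega) (fun N => FF β₁ δ N * FF β₂ a₂ N) fun M => by
    have c1 : ∀ N : SymM p (Fin J), FF β₁ δ (M + cj U N) = a₁ l0 * chi β₁ M l0 := fun N => by
      have g0 : gram β₁ (0 : Fin J → X₁) = 0 := by
        ext i j
        simp [gram]
      rw [hδ, chi_tile, hU0, chi, chi, g0, zero_chQ, mul_one]
    simp only [c1]
    refine Lev_smul _ (Lev_FF_tile hp s₂ a₂ M U fun l _ => ?_)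
    exact (Submodule.finrank_le _).trans (by omega)
  have b2 := h2 X₁ X₂ β₁ β₂ e κ s₁ n₁ s₂ n₂ d₁ d₂ he ρ a₂ oρ o₂
  rw [en_FF_mul hp s₁ n₁ s₂ n₂ he oδ o₂, Real.sqrt_mul (nsq_nonneg _)] at b1
  have b3 : √(nsq δ) ≤ √(nsq a₁) := Real.sqrt_le_sqrt (by linarith [nsq_nonneg ρ])
  have b4 : 𝔼 N, fA A N * (FF β₁ a₁ N * FF β₂ a₂ N) =
      𝔼 N, fA A N * (FF β₁ δ N * FF β₂ a₂ N) + 𝔼 N, fA A N * (FF β₁ ρ N * FF β₂ a₂ N) := by
    rw [← expect_add_distrib]
    refine expect_congr rfl fun N _ => ?_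
    rw [hsum]
    ring
  rw [b4, ← nρ]
  refine (norm_add_le _ _).trans ?_
  have b5 := mul_le_mul_of_nonneg_left
    (mul_le_mul_of_nonneg_right b3 (Real.sqrt_nonneg (nsq a₂))) hε.le
  linarith

end Pool.Agent.Work.MP_4523ee_co.Fp
end

-- merged part: Pool.Agent.Work.MP_4523ee_co.Fp.StC
section
/-!
Analytic lemmas for the contraction step.
-/

set_option autoImplicit false
set_option linter.unusedSectionVars false

namespace Pool.Agent.Work.MP_4523ee_co.Fp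

open Finset Matrix
open scoped BigOperators ComplexConjugate

variable {p : ℕ} [Fact p.Prime]

lemma StC_pair {α I : Type} [Fintype α] [Fintype I] (f : α → I → ℝ) :
    𝔼 M, 𝔼 i, f M i = 𝔼 q : α × I, f q.1 q.2 := by
  rw [← univ_product_univ, Finset.expect_product']

lemma StC_cs {α I : Type} [Fintype α] [Fintype I] (w u v : α → I → ℝ) (hw : ∀ M i, 0 ≤ w M i)
    (hu : ∀ M i, 0 ≤ u M i) (hv : ∀ M i, 0 ≤ v M i) :
    𝔼 M, 𝔼 i, w M i * (√(u M i) * √(v M i)) ≤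
      √(𝔼 M, 𝔼 i, w M i * u M i) * √(𝔼 M, 𝔼 i, w M i * v M i) := by
  simp only [StC_pair]
  have h := expect_mul_le_sqrt (fun q : α × I => √(w q.1 q.2 * u q.1 q.2))
    fun q : α × I => √(w q.1 q.2 * v q.1 q.2)
  have e1 : ∀ q : α × I, √(w q.1 q.2 * u q.1 q.2) ^ 2 = w q.1 q.2 * u q.1 q.2 := fun q =>
    Real.sq_sqrt (mul_nonneg (hw _ _) (hu _ _))
  have e2 : ∀ q : α × I, √(w q.1 q.2 * v q.1 q.2) ^ 2 = w q.1 q.2 * v q.1 q.2 := fun q =>
    Real.sq_sqrt (mul_nonneg (hw _ _) (hv _ _))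
  have e3 : ∀ q : α × I, √(w q.1 q.2 * u q.1 q.2) * √(w q.1 q.2 * v q.1 q.2) =
      w q.1 q.2 * (√(u q.1 q.2) * √(v q.1 q.2)) := fun q => by
    rw [Real.sqrt_mul (hw _ _), Real.sqrt_mul (hw _ _)]
    have := Real.mul_self_sqrt (hw q.1 q.2)
    calc _ = (√(w q.1 q.2) * √(w q.1 q.2)) * (√(u q.1 q.2) * √(v q.1 q.2)) := by ring
      _ = _ := by rw [this]
  simpa only [e1, e2, e3] using h

lemma StC_rho {α : Type} [Fintype α] (ρ g : α → ℝ) {ε K : ℝ} (hε : 0 ≤ ε) (hK : 0 ≤ K)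
    (h1 : 𝔼 x, (ρ x - 1) ^ 2 ≤ ε ^ 2) (h2 : 𝔼 x, g x ≤ 1) (h3 : 𝔼 x, g x ^ 2 ≤ K ^ 2) :
    𝔼 x, ρ x * g x ≤ 1 + ε * K := by
  have h := expect_mul_le_sqrt (fun x => ρ x - 1) g
  have e : 𝔼 x, ρ x * g x = 𝔼 x, g x + 𝔼 x, (ρ x - 1) * g x := by
    rw [← expect_add_distrib]
    exact expect_congr rfl fun x _ => by ring
  have a1 : √(𝔼 x, (ρ x - 1) ^ 2) ≤ ε := Real.sqrt_le_iff.2 ⟨hε, h1⟩
  have a2 : √(𝔼 x, g x ^ 2) ≤ K := Real.sqrt_le_iff.2 ⟨hK, h3⟩
  have a3 := mul_le_mul a1 a2 (Real.sqrt_nonneg _) hε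
  linarith

lemma StC_l1 {α : Type} [Fintype α] [Nonempty α] (ρ : α → ℝ) {ε : ℝ} (hε : 0 ≤ ε)
    (h1 : 𝔼 x, (ρ x - 1) ^ 2 ≤ ε ^ 2) : 𝔼 x, |ρ x - 1| ≤ ε := by
  have h := expect_mul_le_sqrt (fun x => |ρ x - 1|) fun _ => 1
  simp only [mul_one, sq_abs, one_pow] at h
  rw [expect_const univ_nonempty, Real.sqrt_one, mul_one] at h
  exact h.trans (Real.sqrt_le_iff.2 ⟨hε, h1⟩)

lemma StC_num {c ε t x y z b : ℝ} (hc : 0 < c) (hε : ε ≤ c / 4000) (ht0 : 0 ≤ t)
    (ht : t ≤ 1 / 10000)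
    (hx : x ≤ 1 + t) (hy : y ≤ 1 + t) (hz : z ≤ 1 + t) {q : ℝ} (hq : q ≤ 99 / 100 + 2 * (1 / 10000))
    (hb : b ≤ (c / 4000) ^ 2) :
    ε + (c / 4000 * (√x * √y) + c * (√q * √y) + √b * √z) < 399 / 400 * c - c / 4000 := by
  have a1 : √x ≤ 10001 / 10000 := Real.sqrt_le_iff.2 ⟨by norm_num, by linarith⟩
  have a2 : √y ≤ 10001 / 10000 := Real.sqrt_le_iff.2 ⟨by norm_num, by linarith⟩
  have a3 : √z ≤ 10001 / 10000 := Real.sqrt_le_iff.2 ⟨by norm_num, by linarith⟩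
  have a4 : √q ≤ 9951 / 10000 := Real.sqrt_le_iff.2 ⟨by norm_num, by linarith⟩
  have a5 : √b ≤ c / 4000 := Real.sqrt_le_iff.2 ⟨by positivity, hb⟩
  have b1 : √x * √y ≤ 10001 / 10000 * (10001 / 10000) :=
    mul_le_mul a1 a2 (Real.sqrt_nonneg _) (by norm_num)
  have b2 : √q * √y ≤ 9951 / 10000 * (10001 / 10000) :=
    mul_le_mul a4 a2 (Real.sqrt_nonneg _) (by norm_num)
  have b3 : √b * √z ≤ c / 4000 * (10001 / 10000) :=
    mul_le_mul a5 a3 (Real.sqrt_nonneg _) (by positivity)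
  have c1 := mul_le_mul_of_nonneg_left b1 (by positivity : 0 ≤ c / 4000)
  have c2 := mul_le_mul_of_nonneg_left b2 hc.le
  nlinarith

end Pool.Agent.Work.MP_4523ee_co.Fp
end

-- merged part: Pool.Agent.Work.MP_4523ee_co.Fp.StD
section
/-!
The contraction step, assembled.
-/

set_option autoImplicit false
set_option linter.unusedSectionVars false

namespace Pool.Agent.Work.MP_4523ee_co.Fp

open Finset Matrix
open scoped BigOperators ComplexConjugate

variable {p : ℕ} [Fact p.Prime]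

section core
variable {X₁ X₂ : Type} [AddCommGroup X₁] [Module (ZMod p) X₁] [Fintype X₁] [AddCommGroup X₂]
  [Module (ZMod p) X₂] [Fintype X₂] {ν : Type} [Fintype ν] [DecidableEq ν]

lemma StD_mean {ν' I : Type} [Fintype ν'] [DecidableEq ν'] [Fintype I]
    (U : I → Matrix ν ν' (ZMod p)) (w : SymM p ν → I → ℝ) (G : SymM p ν → ℂ) (x : SymM p ν → I → ℝ)
    (hx : ∀ M i, x M i = en fun N : SymM p ν' => G (M + cj (U i) N)) {ε K : ℝ} (hε : 0 ≤ ε)
    (hK : 0 ≤ K) (h1 : 𝔼 M, (marg U w M - 1) ^ 2 ≤ ε ^ 2) (h2 : en G ≤ 1)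
    (h3 : 𝔼 M, ‖G M‖ ^ 4 ≤ K ^ 2) : 𝔼 M, 𝔼 i, w M i * x M i ≤ 1 + ε * K := by
  have e := marg_id_real U w fun M => ‖G M‖ ^ 2
  simp only [hx, en]
  rw [e]
  refine StC_rho _ _ hε hK h1 h2 ?_
  simpa only [← pow_mul] using h3

theorem StD_core (hp : p ≠ 2) {r J : ℕ} {β₁ : Bil p X₁} {β₂ : Bil p X₂} (s1 : SymB β₁)
    (n1 : NdB β₁) (s2 : SymB β₂) (n2 : NdB β₂) {e : Fin r → X₁ × X₂}
    (he : Submodule.span (ZMod p) (Set.range e) = ⊤) {κ : Matrix (Fin r) ν (ZMod p)}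
    {b₁ : (ν → X₁) → ℂ} {b₂ : (ν → X₂) → ℂ} (h₁ : OnSl κ (fun i => (e i).1) b₁)
    (h₂ : OnSl κ (fun i => (e i).2) b₂) (u1 : nsq b₁ = 1) (u2 : nsq b₂ = 1)
    (A : Set (SymM p ν)) {c ε K η bad : ℝ} (hc : 0 < c) (hε : 0 ≤ ε) (hK : 0 ≤ K)
    (w : SymM p ν → Matrix ν (Fin J) (ZMod p) → ℝ) (hw : ∀ M U, 0 ≤ w M U)
    (hinv : ∀ M U (N : SymM p (Fin r ⊕ Fin J)), w (M + cj (fromCols κᵀ U) N) U = w M U)
    (hρ : 𝔼 M, (𝔼 U, w M U - 1) ^ 2 ≤ ε ^ 2)
    (hb : 1 / 100 - ε ≤ 𝔼 M, 𝔼 U, w M U * ‖FF β₁ (cut Uᵀ 0 b₁) M‖ ^ 2)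
    (m1 : 𝔼 M, ‖FF β₁ b₁ M‖ ^ 4 ≤ K ^ 2) (m2 : 𝔼 M, ‖FF β₂ b₂ M‖ ^ 4 ≤ K ^ 2)
    (m3 : 𝔼 M, ‖FF β₁ b₁ M * FF β₂ b₂ M‖ ^ 4 ≤ K ^ 2)
    (hbad : 𝔼 M, 𝔼 U, w M U *
      ind {U | ¬ (Inj (fromCols κᵀ U) ∧ NE η (res A M (fromCols κᵀ U)))} U ≤ bad)
    (hgood : ∀ A' : Set (SymM p (Fin r ⊕ Fin J)), NE η A' →
      ∀ (a₁ : (Fin r ⊕ Fin J → X₁) → ℂ) (a₂ : (Fin r ⊕ Fin J → X₂) → ℂ),
        OnSl (fromCols (1 : Matrix (Fin r) (Fin r) (ZMod p)) (0 : Matrix (Fin r) (Fin J) (ZMod p)))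
          (fun i => (e i).1) a₁ →
        OnSl (fromCols (1 : Matrix (Fin r) (Fin r) (ZMod p)) (0 : Matrix (Fin r) (Fin J) (ZMod p)))
          (fun i => (e i).2) a₂ →
        ‖𝔼 N, fA A' N * (FF β₁ a₁ N * FF β₂ a₂ N)‖ ≤ (c / 4000 * √(nsq a₁) +
          c * √(nsq a₁ - ‖a₁ (Sum.elim (fun i => (e i).1) 0)‖ ^ 2)) * √(nsq a₂))
    (hε1 : ε ≤ c / 4000) (hε2 : ε * (K + 1) ≤ 1 / 10000) (hbad1 : bad ≤ (c / 4000) ^ 2) :
    ‖𝔼 M, fA A M * (FF β₁ b₁ M * FF β₂ b₂ M)‖ < 399 / 400 * c - c / 4000 := by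
  set U : Matrix ν (Fin J) (ZMod p) → Matrix ν (Fin r ⊕ Fin J) (ZMod p) :=
    fun i => fromCols κᵀ i with hU
  have hm : ∀ M, marg U w M = 𝔼 i, w M i := marg_of_inv U w hinv
  have hρ' : 𝔼 M, (marg U w M - 1) ^ 2 ≤ ε ^ 2 := by simpa only [hm] using hρ
  set x : SymM p ν → Matrix ν (Fin J) (ZMod p) → ℝ := fun M i => nsq (aT β₁ b₁ M (U i)) with hx
  set y : SymM p ν → Matrix ν (Fin J) (ZMod p) → ℝ := fun M i => nsq (aT β₂ b₂ M (U i)) with hy
  set z : SymM p ν → Matrix ν (Fin J) (ZMod p) → ℝ :=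
    fun M i => ‖FF β₁ (cut iᵀ 0 b₁) M‖ ^ 2 with hz
  set bd : SymM p ν → Matrix ν (Fin J) (ZMod p) → ℝ :=
    fun M i => ind {U | ¬ (Inj (fromCols κᵀ U) ∧ NE η (res A M (fromCols κᵀ U)))} i with hbd
  have o1 := fun M i => OnSl_aT β₁ h₁ M i (ν' := Fin J)
  have o2 := fun M i => OnSl_aT β₂ h₂ M i (ν' := Fin J)
  have ex : ∀ M i, x M i = en fun N => FF β₁ b₁ (M + cj (U i) N) := fun M i => by
    simp only [FF_tile]
    exact (FF_en hp s1 n1 (span_fst he) (o1 M i)).symm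
  have ey : ∀ M i, y M i = en fun N => FF β₂ b₂ (M + cj (U i) N) := fun M i => by
    simp only [FF_tile]
    exact (FF_en hp s2 n2 (span_snd he) (o2 M i)).symm
  have exy : ∀ M i, x M i * y M i =
      en fun N => FF β₁ b₁ (M + cj (U i) N) * FF β₂ b₂ (M + cj (U i) N) := fun M i => by
    simp only [FF_tile]
    exact (en_FF_mul hp s1 n1 s2 n2 he (o1 M i) (o2 M i)).symm
  have e1 : en (FF β₁ b₁) = 1 := by rw [FF_en hp s1 n1 (span_fst he) h₁, u1]
  have e2 : en (FF β₂ b₂) = 1 := by rw [FF_en hp s2 n2 (span_snd he) h₂, u2]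
  have e3 : en (fun M => FF β₁ b₁ M * FF β₂ b₂ M) = 1 := by
    rw [en_FF_mul hp s1 n1 s2 n2 he h₁ h₂, u1, u2, mul_one]
  have bx := StD_mean U w _ x ex hε hK hρ' e1.le m1
  have by' := StD_mean U w _ y ey hε hK hρ' e2.le m2
  have bxy := StD_mean U w (fun M => FF β₁ b₁ M * FF β₂ b₂ M) (fun M i => x M i * y M i) exy hε hK
    hρ' e3.le m3
  have x0 : ∀ M i, 0 ≤ x M i := fun M i => nsq_nonneg _
  have y0 : ∀ M i, 0 ≤ y M i := fun M i => nsq_nonneg _
  have ez : ∀ M i, z M i = ‖aT β₁ b₁ M (U i) (Sum.elim (fun i => (e i).1) 0)‖ ^ 2 := fun M i => by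
    rw [hU, aT_elim β₁ h₁ M i 0]
  have zx : ∀ M i, 0 ≤ x M i - z M i := fun M i => by
    rw [ez, sub_nonneg]
    exact single_le_sum (f := fun l => ‖aT β₁ b₁ M (U i) l‖ ^ 2) (fun _ _ => by positivity)
      (mem_univ _)
  have bd0 : ∀ M i, 0 ≤ bd M i := fun M i => ind_nonneg _ _
  have bq : 𝔼 M, 𝔼 i, w M i * (x M i - z M i) ≤ 99 / 100 + 2 * (1 / 10000) := by
    have : 𝔼 M, 𝔼 i, w M i * (x M i - z M i) =
        𝔼 M, 𝔼 i, w M i * x M i - 𝔼 M, 𝔼 i, w M i * z M i := by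
      simp only [mul_sub, expect_sub_distrib]
    rw [this]
    nlinarith
  -- the bound on one tile
  have tile : ∀ M i, ‖𝔼 N : SymM p (Fin r ⊕ Fin J), fA A (M + cj (U i) N) *
      (FF β₁ b₁ (M + cj (U i) N) * FF β₂ b₂ (M + cj (U i) N))‖ ≤
      c / 4000 * (√(x M i) * √(y M i)) + c * (√(x M i - z M i) * √(y M i)) +
        √(bd M i) * √(x M i * y M i) := fun M i => by
    have p1 : 0 ≤ c / 4000 * (√(x M i) * √(y M i)) := by positivity
    have p2 : 0 ≤ c * (√(x M i - z M i) * √(y M i)) := by positivity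
    have p3 : 0 ≤ √(bd M i) * √(x M i * y M i) := by positivity
    by_cases hg : Inj (fromCols κᵀ i) ∧ NE η (res A M (fromCols κᵀ i))
    · have h := hgood _ hg.2 _ _ (o1 M i) (o2 M i)
      simp only [fA_res] at h
      simp only [FF_tile]
      rw [ez]
      refine (h.trans (le_of_eq ?_)).trans (le_add_of_nonneg_right p3)
      ring
    · have hb1 : bd M i = 1 := ind_of_mem hg
      have h := norm_expect_mul_le (fun N : SymM p (Fin r ⊕ Fin J) => fA A (M + cj (U i) N))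
        fun N => FF β₁ b₁ (M + cj (U i) N) * FF β₂ b₂ (M + cj (U i) N)
      rw [← exy] at h
      have h' : √(en fun N : SymM p (Fin r ⊕ Fin J) => fA A (M + cj (U i) N)) ≤ 1 := by
        refine Real.sqrt_le_iff.2 ⟨zero_le_one, ?_⟩
        rw [one_pow]
        refine expect_le univ_nonempty fun N _ => ?_
        exact pow_le_one₀ (norm_nonneg _) (norm_fA_le _ _)
      have h2 := mul_le_mul_of_nonneg_right h' (Real.sqrt_nonneg (x M i * y M i))
      rw [hb1, Real.sqrt_one]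
      linarith
  set g : SymM p ν → ℂ := fun M => fA A M * (FF β₁ b₁ M * FF β₂ b₂ M) with hg
  have split : 𝔼 M, g M = 𝔼 M, (marg U w M : ℂ) * g M +
      𝔼 M, (((1 - marg U w M : ℝ) : ℂ) * fA A M) * (FF β₁ b₁ M * FF β₂ b₂ M) := by
    rw [← expect_add_distrib]
    refine expect_congr rfl fun M _ => ?_
    simp only [hg]
    push_cast
    ring
  have t2 : ‖𝔼 M, (((1 - marg U w M : ℝ) : ℂ) * fA A M) * (FF β₁ b₁ M * FF β₂ b₂ M)‖ ≤ ε := by
    refine (norm_expect_mul_le _ _).trans ?_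
    rw [e3, Real.sqrt_one, mul_one]
    refine Real.sqrt_le_iff.2 ⟨hε, le_trans ?_ hρ'⟩
    refine expect_le_expect fun M _ => ?_
    rw [norm_mul, Complex.norm_real, mul_pow, Real.norm_eq_abs, sq_abs]
    have := pow_le_one₀ (norm_nonneg _) (norm_fA_le A M) (n := 2)
    nlinarith [sq_nonneg (1 - marg U w M)]
  have t1 : ‖𝔼 M, (marg U w M : ℂ) * g M‖ ≤
      c / 4000 * (√(𝔼 M, 𝔼 i, w M i * x M i) * √(𝔼 M, 𝔼 i, w M i * y M i)) +
      c * (√(𝔼 M, 𝔼 i, w M i * (x M i - z M i)) * √(𝔼 M, 𝔼 i, w M i * y M i)) +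
      √(𝔼 M, 𝔼 i, w M i * bd M i) * √(𝔼 M, 𝔼 i, w M i * (x M i * y M i)) := by
    rw [← marg_id U w g]
    have c1 := StC_cs w x y hw x0 y0
    have c2 := StC_cs w (fun M i => x M i - z M i) y hw zx y0
    have c3 := StC_cs w bd (fun M i => x M i * y M i) hw bd0
      fun M i => mul_nonneg (x0 M i) (y0 M i)
    calc _ ≤ 𝔼 M, 𝔼 i, w M i * (c / 4000 * (√(x M i) * √(y M i)) +
          c * (√(x M i - z M i) * √(y M i)) + √(bd M i) * √(x M i * y M i)) := by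
          refine (RCLike.norm_expect_le (K := ℂ)).trans (expect_le_expect fun M _ => ?_)
          refine (RCLike.norm_expect_le (K := ℂ)).trans (expect_le_expect fun i _ => ?_)
          rw [norm_mul, Complex.norm_real, Real.norm_of_nonneg (hw M i)]
          exact mul_le_mul_of_nonneg_left (tile M i) (hw M i)
      _ = c / 4000 * (𝔼 M, 𝔼 i, w M i * (√(x M i) * √(y M i))) +
          c * (𝔼 M, 𝔼 i, w M i * (√(x M i - z M i) * √(y M i))) +
          𝔼 M, 𝔼 i, w M i * (√(bd M i) * √(x M i * y M i)) := by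
          simp only [mul_expect, ← expect_add_distrib]
          exact expect_congr rfl fun M _ => expect_congr rfl fun i _ => by ring
      _ ≤ _ := by
          have d1 := mul_le_mul_of_nonneg_left c1 (by positivity : 0 ≤ c / 4000)
          have d2 := mul_le_mul_of_nonneg_left c2 hc.le
          linarith
  have fin := StC_num (t := ε * K) hc hε1 (mul_nonneg hε hK) (by nlinarith) bx by' bxy bq
    (hbad.trans hbad1)
  rw [split]
  refine lt_of_le_of_lt ((norm_add_le _ _).trans ?_) fin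
  linarith

lemma StD_norm (β : Bil p X₁) {ι : Type} {κ : Matrix ι ν (ZMod p)} {e : ι → X₁}
    {a : (ν → X₁) → ℂ} (ha : OnSl κ e a) (h0 : nsq a ≠ 0) :
    ∃ b : (ν → X₁) → ℂ, OnSl κ e b ∧ nsq b = 1 ∧ ∀ M, FF β a M = (√(nsq a) : ℝ) * FF β b M := by
  have hp : 0 < √(nsq a) := Real.sqrt_pos.2 (lt_of_le_of_ne (nsq_nonneg a) h0.symm)
  have hc : ((√(nsq a) : ℝ) : ℂ) ≠ 0 := by exact_mod_cast hp.ne'
  refine ⟨fun l => ((√(nsq a) : ℝ) : ℂ)⁻¹ * a l, fun l hl => ha l (right_ne_zero_of_mul hl), ?_,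
    fun M => ?_⟩
  · rw [nsq_smul, norm_inv, Complex.norm_real, Real.norm_of_nonneg hp.le, inv_pow,
      Real.sq_sqrt (nsq_nonneg a), inv_mul_cancel₀ h0]
  · rw [FF_smul, ← mul_assoc, mul_inv_cancel₀ hc, one_mul]

lemma StD_zero (β : Bil p X₁) {a : (ν → X₁) → ℂ} (h0 : nsq a = 0) (M : SymM p ν) :
    FF β a M = 0 := by
  have h := (sum_eq_zero_iff_of_nonneg fun l _ => sq_nonneg ‖a l‖).1 h0
  refine sum_eq_zero fun l _ => ?_
  have : a l = 0 := norm_eq_zero.1 (pow_eq_zero_iff two_ne_zero |>.1 (h l (mem_univ _)))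
  rw [this, zero_mul]

lemma StD_ex {ι : Type} {κ : Matrix ι ν (ZMod p)} {e : ι → X₁} {a : (ν → X₁) → ℂ}
    (ha : OnSl κ e a) (h1 : nsq a = 1) : ∃ l, act κ l = e := by
  by_contra h
  have : nsq a = 0 := sum_eq_zero fun l _ => by
    have : a l = 0 := by
      by_contra h'
      exact h ⟨l, ha l h'⟩
    rw [this, norm_zero, zero_pow two_ne_zero]
  rw [this] at h1
  exact zero_ne_one h1

end core

theorem STEP (hp : p ≠ 2) {r r₁ : ℕ} (hr : 0 < r₁) (hC : Claim p (r - 1)) (hP : PrimOut p r r₁)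
    {c : ℝ} (hc : 0 < c) (hc1 : c ≤ 1) (hB : Bnd p r r₁ c) : Bnd p r r₁ (399 / 400 * c) := by
  obtain ⟨C₂, hC₂, hM₂⟩ := MB hp 2 (p ^ r)
  obtain ⟨C₄, hC₄, hM₄⟩ := MB hp 4 (p ^ r)
  obtain ⟨η, hη, J₁, hgood⟩ := good_tile hp hr hC hc hB (c / 4000) (by positivity)
  set K : ℝ := √(C₂ + C₄) with hK
  have hK0 : 0 ≤ K := Real.sqrt_nonneg _
  have hK2 : K ^ 2 = C₂ + C₄ := Real.sq_sqrt (by positivity)
  obtain ⟨ε, hε, e1, e2, e3⟩ : ∃ ε : ℝ, 0 < ε ∧ ε ≤ c / 4000 ∧ ε * (K + 1) ≤ 1 / 10000 ∧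
      ε + (2 * ε + ε + 4 * ε) / η ≤ (c / 4000) ^ 2 := by
    refine ⟨min (c / 4000) (min (1 / 10000 / (K + 1)) ((c / 4000) ^ 2 / (1 + 7 / η))),
      by positivity, min_le_left _ _, ?_, ?_⟩
    · exact (le_div_iff₀ (by positivity)).1 ((min_le_right _ _).trans (min_le_left _ _))
    · have := (le_div_iff₀ (by positivity : 0 < 1 + 7 / η)).1
        ((min_le_right (c / 4000) _).trans (min_le_right (1 / 10000 / (K + 1)) ((c / 4000) ^ 2 / _)))
      refine le_trans (le_of_eq ?_) this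
      ring
  obtain ⟨J₂, hUB⟩ := UB (p := p) ε hε
  obtain ⟨J₃, hGT⟩ := GT hp (p ^ r) ε hε
  set J := max J₁ (max J₂ J₃) with hJ
  obtain ⟨θ, hθ, CG, hCG, hGT'⟩ := hGT J ((le_max_right _ _).trans (le_max_right _ _))
  have hp1 : (1 : ℝ) < p := by exact_mod_cast (Fact.out : p.Prime).one_lt
  obtain ⟨n0, hn0⟩ := pow_unbounded_of_one_lt (CG * (p : ℝ) ^ (r + J) / ε) hp1
  have hPr := hP (min θ 1) (c / 4000) (399 / 400 * c) (by positivity) (by positivity)
    (by positivity)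
  refine Ev.mono (hPr.and (Ev_basic ε hε n0)) ?_
  rintro ν _ _ A ⟨hA, hn, hNE⟩ X₁ X₂ _ _ _ _ _ _ β₁ β₂ e κ s1 n1 s2 n2 d1 d2 he a₁ a₂ h₁ h₂
  by_cases z1 : nsq a₁ = 0
  · simp [StD_zero β₁ z1, z1]
  by_cases z2 : nsq a₂ = 0
  · simp [StD_zero β₂ z2, z2]
  obtain ⟨a₁', h₁', u1, f1⟩ := StD_norm β₁ h₁ z1
  obtain ⟨a₂', h₂', u2, f2⟩ := StD_norm β₂ h₂ z2
  have hE : 𝔼 M, fA A M * (FF β₁ a₁ M * FF β₂ a₂ M) =
      ((√(nsq a₁) * √(nsq a₂) : ℝ) : ℂ) * 𝔼 M, fA A M * (FF β₁ a₁' M * FF β₂ a₂' M) := by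
    rw [mul_expect]
    refine expect_congr rfl fun M _ => ?_
    rw [f1, f2]
    push_cast
    ring
  rw [hE, norm_mul, Complex.norm_real, Real.norm_of_nonneg (by positivity), mul_comm]
  refine mul_le_mul_of_nonneg_right ?_ (by positivity)
  by_contra hcon
  have hcon' := (not_le.1 hcon).le
  obtain ⟨b₁, b₂, k₁, k₂, v1, v2, hPrim, hPos, hG₂, hval⟩ :=
    hA X₁ X₂ β₁ β₂ e κ s1 n1 s2 n2 d1 d2 he a₁' a₂' h₁' h₂' u1 u2 hcon'
  have hp0 : 0 < p := (Fact.out : p.Prime).pos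
  have c1 : Fintype.card X₁ ≤ p ^ r := by
    rw [card_eq_pow (p := p)]
    exact Nat.pow_le_pow_right hp0 (by omega)
  have c2 : Fintype.card X₂ ≤ p ^ r := by
    rw [card_eq_pow (p := p)]
    exact Nat.pow_le_pow_right hp0 (by omega)
  haveI : Nontrivial X₁ := Module.nontrivial_of_finrank_pos (R := ZMod p) (by omega)
  have hθ' : 0 ≤ min θ 1 := by positivity
  have hG₁ : GG β₁ 1 b₁ := hPrim.2.1.mono (min_le_right _ _)
  obtain ⟨w, hw, hinv, hρ, hwC, hb⟩ := hGT' X₁ c1 ν β₁ s1 n1 (Fin r) κ _ (span_fst he) b₁ v1 k₁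
    (hPrim.mono hθ' (min_le_left _ _)) fun c hc v => (hPos c hc v).trans (min_le_left _ _)
  have q1 := hM₂ X₁ c1 ν β₁ s1 b₁ v1.le hG₁
  have q2 := hM₂ X₂ c2 ν β₂ s2 b₂ v2.le hG₂
  have q3 := hM₄ X₁ c1 ν β₁ s1 b₁ v1.le hG₁
  have q4 := hM₄ X₂ c2 ν β₂ s2 b₂ v2.le hG₂
  have m3 : 𝔼 M, ‖FF β₁ b₁ M * FF β₂ b₂ M‖ ^ 4 ≤ K ^ 2 := by
    have h := expect_mul_le_sqrt (fun M => ‖FF β₁ b₁ M‖ ^ 4) fun M => ‖FF β₂ b₂ M‖ ^ 4
    simp only [← pow_mul] at h
    simp only [norm_mul, mul_pow]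
    have a1 := Real.sqrt_le_sqrt q3
    have a2 := Real.sqrt_le_sqrt q4
    have a3 := mul_le_mul a1 a2 (Real.sqrt_nonneg _) (Real.sqrt_nonneg _)
    rw [Real.mul_self_sqrt hC₄.le] at a3
    rw [hK2]
    linarith
  obtain ⟨l₁, hl₁⟩ := StD_ex k₁ v1
  obtain ⟨l₂, hl₂⟩ := StD_ex k₂ v2
  have hκ : Inj κᵀ := inj_slice d2 he hl₁ hl₂
  have hm : ∀ M, marg (fun i : Matrix ν (Fin J) (ZMod p) => fromCols κᵀ i) w M = 𝔼 i, w M i :=
    marg_of_inv _ w hinv
  have hni : 𝔼 M, 𝔼 i : Matrix ν (Fin J) (ZMod p), w M i * ind {i | ¬ Inj (fromCols κᵀ i)} i ≤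
      ε := by
    rw [expect_comm]
    have hd := dens_not_inj (ν' := Fin J) κᵀ hκ
    simp only [Fintype.card_fin] at hd
    have hpn : (p : ℝ) ^ n0 ≤ (p : ℝ) ^ Fintype.card ν := pow_le_pow_right₀ hp1.le hn
    calc _ ≤ 𝔼 i : Matrix ν (Fin J) (ZMod p), CG * ind {i | ¬ Inj (fromCols κᵀ i)} i := by
          refine expect_le_expect fun i _ => ?_
          rw [← expect_mul]
          exact mul_le_mul_of_nonneg_right (hwC i) (ind_nonneg _ _)
      _ = CG * dens {i : Matrix ν (Fin J) (ZMod p) | ¬ Inj (fromCols κᵀ i)} := by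
          rw [dens, mul_expect]
      _ ≤ CG * ((p : ℝ) ^ (r + J) / (p : ℝ) ^ Fintype.card ν) :=
          mul_le_mul_of_nonneg_left hd hCG.le
      _ ≤ ε := by
          rw [← mul_div_assoc, div_le_iff₀ (by positivity)]
          rw [div_lt_iff₀ hε] at hn0
          nlinarith
  have hε1 : ε ≤ 1 := by linarith
  have hbad := MK (fun i : Matrix ν (Fin J) (ZMod p) => fromCols κᵀ i) w hε.le hη hε1 hNE
    (hUB (Fin r ⊕ Fin J) (by
      simp only [Fintype.card_sum, Fintype.card_fin]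
      exact ((le_max_left _ _).trans (le_max_right _ _)).trans (Nat.le_add_left _ _))) hw
    (StC_l1 _ hε.le (by simpa only [hm] using hρ)) hni
  have fin := StD_core hp s1 n1 s2 n2 he k₁ k₂ v1 v2 A hc hε.le hK0 w hw hinv hρ hb
    (by rw [hK2]; linarith) (by rw [hK2]; linarith) m3 hbad
    (fun A' hA' a₁ a₂ o1 o2 => hgood J (le_max_left _ _) A' hA' X₁ X₂ β₁ β₂ e _ s1 n1 s2 n2 d1 d2
      he rfl a₁ a₂ o1 o2) e1 e2 e3
  linarith

end Pool.Agent.Work.MP_4523ee_co.Fp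
end
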