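import Mathlib
import Pool.Agent.Work.MP_4523ee_co.Fp.StD
import Pool.Agent.Work.MP_4523ee_co.Fp.End

/-!
The double induction and the theorem.
-/

set_option autoImplicit false
set_option linter.unusedSectionVars false

namespace Pool.Agent.Work.MP_4523ee_co.Fp

open Finset Matrix
open scoped BigOperators ComplexConjugate

variable {p : ℕ} [Fact p.Prime]

lemma Bnd.mono {r r₁ : ℕ} {c c' : ℝ} (h : c ≤ c') (hB : Bnd p r r₁ c) : Bnd p r r₁ c' := by
  refine Ev.mono hB ?_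
  intro ν _ _ A hA X₁ X₂ _ _ _ _ _ _ β₁ β₂ e κ s1 n1 s2 n2 d1 d2 he a₁ a₂ h₁ h₂
  exact (hA X₁ X₂ β₁ β₂ e κ s1 n1 s2 n2 d1 d2 he a₁ a₂ h₁ h₂).trans
    (mul_le_mul_of_nonneg_right h (by positivity))

theorem bnd_all (hp : p ≠ 2) {r : ℕ} (hC : Claim p (r - 1)) (r₁ : ℕ) :
    1 ≤ r₁ → r₁ ≤ r → ∀ c : ℝ, 0 < c → Bnd p r r₁ c := by
  induction r₁ using Nat.strong_induction_on with
  | _ r₁ ih =>
    intro h1 h2 c hc
    have hP : PrimOut p r r₁ :=
      PRIM hp h1 h2 hC fun u hu hu' => ih u hu' hu (hu'.le.trans h2)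
    have key : ∀ k : ℕ, Bnd p r r₁ ((399 / 400 : ℝ) ^ k) := by
      intro k
      induction k with
      | zero => simpa using bnd_one hp r r₁
      | succ k ihk =>
        rw [pow_succ']
        exact STEP hp h1 hC hP (by positivity) (pow_le_one₀ (by norm_num) (by norm_num)) ihk
    obtain ⟨k, hk⟩ := exists_pow_lt_of_lt_one hc (by norm_num : (399 / 400 : ℝ) < 1)
    exact (key k).mono hk.le

theorem claim_all (hp : p ≠ 2) (s : ℕ) : Claim p s := by
  induction s with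
  | zero => exact claim_zero hp
  | succ s ih =>
    exact claim_succ hp ih (bnd_all hp (r := s + 1) (by simpa using ih) (s + 1) (by omega) le_rfl)

theorem main (hp : p ≠ 2) (δ : ℝ) (hδ : 0 < δ) :
    ∃ n0 : ℕ, ∀ n : ℕ, n0 ≤ n → ∀ (W : Type) [AddCommGroup W] [Module (ZMod p) W] [Fintype W]
      (φ : QuadraticMap (ZMod p) (Fin n → ZMod p) W) (A : Finset W),
      δ * Fintype.card W ≤ A.card → ∃ a ∈ A, ∃ x : Fin n → ZMod p, x ≠ 0 ∧ a + φ x ∈ A :=
  quad_of_aS hp (aS_eq_zero hp (claim_all hp)) δ hδ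

end Pool.Agent.Work.MP_4523ee_co.Fp
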